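import Pool.Agent.Lib.MP_dd244f_an.Rq.Stmts
import Pool.Agent.Lib.MP_dd244f_an.Rp.AVh
import Pool.Agent.Lib.MP_dd244f_an.Rp.Om

/-!
# The averaged inequality for a general weight (module AVg)

The argument of `Rp/AVh.lean` (helper50) and `Rp/Om.lean` with the Poisson kernel replaced by a
general nonnegative weight.
-/

set_option autoImplicit false

namespace Pool.Agent.Lib.MP_dd244f_an.Rq

open MeasureTheory Filter Topology Finset
open Pool.Agent.Lib.MP_dd244f_an.Four
open Pool.Agent.Lib.MP_dd244f_an.Rp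
open Pool.Agent.Lib.MP_dd244f_an.Rp.AVhAux
open scoped ENNReal NNReal

namespace AVgAux

/-- the Fourier transform of the weight -/
theorem om_gen (k : ℕ) (W : ℝ → ℝ) (hk : 1 ≤ k)
    (hPD : PD (fun y => (y ^ 2 + (1 / (2 * k)) ^ 2) * W y)) :
    ∃ ρ : Measure ℝ, IsFiniteMeasure ρ ∧ Integrable W ∧
    ∀ X : ℝ, ∫ y : ℝ, ((W y : ℝ) : ℂ) * Complex.exp (Complex.I * (y * X : ℝ))
      = ((∫ s, Real.exp (-(|X - s| / (2 * k))) ∂ρ : ℝ) : ℂ) := by
  obtain ⟨μ, hμ, hch⟩ := hPD
  set x : ℝ := 1 / (2 * k) with hxdef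
  have hk0 : (0 : ℝ) < k := by exact_mod_cast hk
  have hx : 0 < x := by rw [hxdef]; positivity
  set g : ℝ → ℝ := fun y => (y ^ 2 + x ^ 2) * W y with hg
  have hW : ∀ y : ℝ, W y = g y * (1 / (y ^ 2 + x ^ 2)) := by
    intro y
    rw [hg]
    have : (0 : ℝ) < y ^ 2 + x ^ 2 := by positivity
    field_simp
  have hfl : ∀ y, g y = (charFun μ y).re := fun y => by rw [hch]; simp
  have hflm : Measurable g := by
    have : g = fun y => (charFun μ y).re := funext hfl
    rw [this]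
    exact Complex.measurable_re.comp measurable_charFun
  have hflb : ∀ y, |g y| ≤ μ.real Set.univ := by
    intro y
    have h1 := norm_charFun_le (μ := μ) y
    rw [hch y, Complex.norm_real, Real.norm_eq_abs] at h1
    exact h1
  have hWi : Integrable W := by
    have : W = fun y => g y * (1 / (y ^ 2 + x ^ 2)) := funext hW
    rw [this]
    exact (OmAux.int_inv x hx).bdd_mul hflm.aestronglyMeasurable (c := μ.real Set.univ)
      (ae_of_all _ fun y => by rw [Real.norm_eq_abs]; exact hflb y)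
  refine ⟨ENNReal.ofReal (Real.pi / x) • μ.map (fun s => -s), ?_, hWi, fun X => ?_⟩
  · have : IsFiniteMeasure (μ.map (fun s => -s)) := inferInstance
    exact Measure.smul_finite _ ENNReal.ofReal_ne_top
  · have hF : Integrable (Function.uncurry fun (y s : ℝ) =>
        ((1 / (y ^ 2 + x ^ 2) : ℝ) : ℂ) * Complex.exp (Complex.I * (y * (X + s) : ℝ)))
        (volume.prod μ) := by
      have hm : Integrable (fun z : ℝ × ℝ => ((1 / (z.1 ^ 2 + x ^ 2) : ℝ) : ℂ) * (1 : ℂ))
          (volume.prod μ) := by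
        refine Integrable.mul_prod (f := fun y : ℝ => ((1 / (y ^ 2 + x ^ 2) : ℝ) : ℂ))
          (g := fun _ : ℝ => (1 : ℂ)) (OmAux.int_inv x hx).ofReal (integrable_const _)
      refine hm.mono (by fun_prop) (ae_of_all _ fun z => ?_)
      simp only [Function.uncurry]
      rw [norm_mul, norm_mul, mul_comm Complex.I, Complex.norm_exp_ofReal_mul_I]
      simp
    have h1 : ∀ y : ℝ, ((W y : ℝ) : ℂ) *
        Complex.exp (Complex.I * (y * X : ℝ)) = ∫ s, ((1 / (y ^ 2 + x ^ 2) : ℝ) : ℂ) *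
          Complex.exp (Complex.I * (y * (X + s) : ℝ)) ∂μ := by
      intro y
      rw [hW y]
      push_cast
      have hch' : ((g y : ℝ) : ℂ) = charFun μ y := (hch y).symm
      rw [hch', charFun_apply_real, integral_const_mul]
      rw [show (∫ a, Complex.exp (Complex.I * ((y : ℂ) * ((X : ℂ) + (a : ℂ)))) ∂μ)
        = Complex.exp (Complex.I * (y * X)) * ∫ a, Complex.exp (y * a * Complex.I) ∂μ by
          rw [← integral_const_mul]
          refine integral_congr_ae (ae_of_all _ fun a => ?_)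
          simp only
          rw [← Complex.exp_add]
          congr 1
          ring]
      ring
    simp_rw [h1]
    rw [integral_integral_swap hF]
    have h2 : ∀ s : ℝ, ∫ y : ℝ, ((1 / (y ^ 2 + x ^ 2) : ℝ) : ℂ) *
        Complex.exp (Complex.I * (y * (X + s) : ℝ))
        = ((Real.pi / x * Real.exp (-(x * |X + s|)) : ℝ) : ℂ) := fun s => OmAux.lor x hx (X + s)
    simp_rw [h2]
    rw [integral_complex_ofReal]
    congr 1
    rw [integral_smul_measure, integral_map (by fun_prop) (by fun_prop),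
      ENNReal.toReal_ofReal (by positivity), smul_eq_mul, integral_const_mul]
    congr 1
    refine integral_congr_ae (ae_of_all _ fun s => ?_)
    simp only
    congr 2
    rw [sub_neg_eq_add, hxdef]
    ring

/-- the reference computation -/
lemma K_sum (hR : StmtRef) {j : ℕ} {W : ℝ → ℝ} (ρ : Measure ℝ) [IsFiniteMeasure ρ] {x : ℝ} (hx : x = 1 / (2 * ((j : ℝ) + 1)))
    (hWi : Integrable W)
    (hOm : ∀ r : ℝ, ∫ y : ℝ, ((W y : ℝ) : ℂ) *
      Complex.exp (Complex.I * (y * r : ℝ)) = (Omg ρ x r : ℂ)) :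
    (∫⁻ X : XX j, dA ρ x X * ENNReal.ofReal (ph (X.1 0))) +
      ∫⁻ X : XX j, dB ρ x X * ENNReal.ofReal (ph (X.1 0)) =
      ENNReal.ofReal (∫ y : ℝ, W y * ‖cz (x + Complex.I * y)‖ ^ (2 * (j + 1))) := by
  have hx0 : 0 < x := by rw [hx]; positivity
  have hx1 : x < 1 := by
    rw [hx, div_lt_one (by positivity)]
    have : (0 : ℝ) ≤ j := Nat.cast_nonneg j
    linarith
  have hxC : 1 / (2 * ((j : ℂ) + 1)) = (x : ℂ) := by
    rw [hx]; push_cast; ring
  have key : ∀ y : ℝ, Integrable (fun X : XX j => ((ph (X.1 0) : ℝ) : ℂ) *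
      HH u0 0 (x + Complex.I * y) X) ∧
      ∫ X : XX j, ((ph (X.1 0) : ℝ) : ℂ) * HH u0 0 (x + Complex.I * y) X =
        ((‖cz (x + Complex.I * y)‖ ^ (2 * (j + 1)) : ℝ) : ℂ) := by
    intro y
    have h := hR j y ph ph_cont ph_cs ph_zero
    rw [hxC] at h
    simp only [cpow_u0 hx1, cpow_u0' hx1, ph_int, mul_one, mul_assoc] at h
    simp only [HH, mul_assoc]
    exact h
  have key0 : Integrable (fun X : XX j => ((ph (X.1 0) : ℝ) : ℂ) * HH u0 0 x X) := by
    have := (key 0).1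
    simpa using this
  obtain ⟨-, hfub⟩ := fub hWi hOm key0 (measurable_LL measurable_u0)
  have e1 : ∀ y : ℝ, ((W y : ℝ) : ℂ) *
      ∫ X : XX j, ((ph (X.1 0) : ℝ) : ℂ) * HH u0 0 x X *
        Complex.exp (Complex.I * (y * LL u0 X : ℝ)) =
        ((W y * ‖cz (x + Complex.I * y)‖ ^ (2 * (j + 1)) : ℝ) : ℂ) := by
    intro y
    have e2 : ∫ X : XX j, ((ph (X.1 0) : ℝ) : ℂ) * HH u0 0 x X *
        Complex.exp (Complex.I * (y * LL u0 X : ℝ)) =
        ((‖cz (x + Complex.I * y)‖ ^ (2 * (j + 1)) : ℝ) : ℂ) := by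
      rw [← (key y).2]
      refine integral_congr_ae (Eventually.of_forall fun X => ?_)
      show ((ph (X.1 0) : ℝ) : ℂ) * HH u0 0 x X * Complex.exp (Complex.I * (y * LL u0 X : ℝ)) =
        ((ph (X.1 0) : ℝ) : ℂ) * HH u0 0 (x + Complex.I * y) X
      rw [HH_split, mul_assoc]
    rw [e2, ← Complex.ofReal_mul]
  simp_rw [e1] at hfub
  rw [integral_complex_ofReal] at hfub
  have hG : ∀ X : XX j, ((ph (X.1 0) : ℝ) : ℂ) * HH u0 0 x X * (Omg ρ x (LL u0 X) : ℂ) =
      ((ph (X.1 0) * ((DD X * Real.exp (x * (SA u0 X + SB u0 X))) * Omg ρ x (LL u0 X)) : ℝ) : ℂ) := by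
    intro X
    rw [HH_u0]
    push_cast
    ring
  have hint : Integrable (fun X : XX j =>
      ph (X.1 0) * ((DD X * Real.exp (x * (SA u0 X + SB u0 X))) * Omg ρ x (LL u0 X))) := by
    have h1 : Integrable (fun X : XX j => ((ph (X.1 0) : ℝ) : ℂ) * HH u0 0 x X *
        (Omg ρ x (LL u0 X) : ℂ)) := by
      refine Integrable.mul_bdd (c := ρ.real Set.univ) key0 ?_ ?_
      · exact (Complex.measurable_ofReal.comp ((Omg_meas ρ x).comp
          (measurable_LL measurable_u0))).aestronglyMeasurable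
      · refine Eventually.of_forall fun X => ?_
        rw [Complex.norm_real, Real.norm_eq_abs, abs_of_nonneg (Omg_nonneg _ _ _)]
        exact Omg_le ρ hx0.le _
    simp_rw [hG] at h1
    exact h1.re
  simp_rw [hG] at hfub
  rw [integral_complex_ofReal] at hfub
  have hfub' := Complex.ofReal_injective hfub
  have hmp : Measurable (fun X : XX j => ENNReal.ofReal (ph (X.1 0))) := by
    refine ENNReal.measurable_ofReal.comp (ph_cont.measurable.comp ?_)
    fun_prop
  have hmp' : Measurable (fun X : XX j => dA ρ x X * ENNReal.ofReal (ph (X.1 0))) :=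
    (measurable_dA ρ x).mul hmp
  rw [← lintegral_add_left hmp', hfub', ofReal_integral_eq_lintegral_ofReal hint]
  · refine lintegral_congr fun X => ?_
    rw [← add_mul, dA_add_dB ρ hx, mul_comm, ← ENNReal.ofReal_mul (ph_nonneg _)]
  · refine Eventually.of_forall fun X => ?_
    have h1 := ph_nonneg (X.1 0)
    have h2 := DD_nonneg X
    have h3 := Omg_nonneg ρ x (LL u0 X)
    positivity

end AVgAux

open AVgAux in
/-- (AVg) the averaged inequality for a general weight -/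
theorem avg (hE : StmtExp) (hR : StmtRef) (hS : StmtSCL) : StmtAVg := by
  intro k W hk hWc hW0 hPD u α hN
  obtain ⟨j, rfl⟩ : ∃ j, k = j + 1 := ⟨k - 1, by omega⟩
  obtain ⟨ρ, hρ, hWi, hOm⟩ := om_gen (j + 1) W (by omega) hPD
  obtain ⟨x, hx⟩ : ∃ x : ℝ, x = 1 / (2 * ((j : ℝ) + 1)) := ⟨_, rfl⟩
  have hx0 : 0 < x := by rw [hx]; positivity
  have hxC : 1 / (2 * ((j + 1 : ℕ) : ℂ)) = (x : ℂ) := by
    rw [hx]; push_cast; ring
  rw [hxC]
  have hOm' : ∀ r : ℝ, ∫ y : ℝ, ((W y : ℝ) : ℂ) *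
      Complex.exp (Complex.I * (y * r : ℝ)) = (Omg ρ x r : ℂ) := by
    intro r
    rw [hOm r]
    congr 1
    unfold Omg
    refine integral_congr_ae (Eventually.of_forall fun s => ?_)
    show Real.exp (-(|r - s| / (2 * ((j + 1 : ℕ) : ℝ)))) = Real.exp (-(x * |r - s|))
    rw [hx]
    congr 2
    push_cast
    ring
  refine (energy hE hWi hW0 hN hx0.le hOm').trans ?_
  have hu0 := hN.2.1
  have hu' : ∀ ξ, u ξ ≠ 0 → ξ ≠ 0 := by
    obtain ⟨-, -, ⟨r, R, hr, hrR⟩, -⟩ := hN
    intro ξ h h0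
    have := (hrR ξ h).1
    rw [h0, norm_zero] at this
    linarith
  refine (lintegral_mono fun X => bound_int hu0 hu' ρ hx X).trans ?_
  -- the measurability of the pieces
  have hVm : Measurable (fun ξ => ENNReal.ofReal (VV u ξ)) := by
    have := hN.1.measurable
    unfold VV
    fun_prop
  have hm1 : ∀ i, Measurable (fun X : XX j => ENNReal.ofReal (VV u (X.1 i))) := fun i =>
    hVm.comp (by fun_prop)
  have hm2 : ∀ i, Measurable (fun X : XX j => ENNReal.ofReal (VV u (X.2 i))) := fun i =>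
    hVm.comp (by fun_prop)
  have hm3 : Measurable (fun X : XX j => ENNReal.ofReal (VV u (xl X))) := hVm.comp measurable_xl
  have hdA := measurable_dA (j := j) ρ x
  have hdB := measurable_dB (j := j) ρ x
  have hA0 : ∀ X : XX j, DD X = 0 → dA ρ x X = 0 := by
    intro X h; unfold dA; rw [h]; simp
  have hB0 : ∀ X : XX j, DD X = 0 → dB ρ x X = 0 := by
    intro X h; unfold dB; rw [h]; simp
  have hφ : Measurable (fun ζ => ENNReal.ofReal (ph ζ)) :=
    ENNReal.measurable_ofReal.comp ph_cont.measurable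
  set KA : ℝ≥0∞ := ∫⁻ X : XX j, dA ρ x X * ENNReal.ofReal (ph (X.1 0)) with hKA
  set KB : ℝ≥0∞ := ∫⁻ X : XX j, dB ρ x X * ENNReal.ofReal (ph (X.1 0)) with hKB
  set T : ℝ≥0∞ := ENNReal.ofReal (∫ ξ, u ξ / ‖ξ‖ ^ 4) with hT
  have hVl := VV_lint hN
  have sA : ∀ i, ∫⁻ X : XX j, dA ρ x X * ENNReal.ofReal (VV u (X.1 i)) = KA * T := by
    intro i
    have := scl_use hS hdA hA0 (fun l hl X => hom_A ρ x hl X) hVm hφ ph_lint
      (v := fun X => X.1 i) (by fun_prop) (fun l X => rfl) (fun X hX => (DD_ne_zero hX).1 i)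
    rwa [hVl] at this
  have sB : ∀ i, ∫⁻ X : XX j, dB ρ x X * ENNReal.ofReal (VV u (X.2 i)) = KB * T := by
    intro i
    have := scl_use hS hdB hB0 (fun l hl X => hom_B ρ x hl X) hVm hφ ph_lint
      (v := fun X => X.2 i) (by fun_prop) (fun l X => rfl) (fun X hX => (DD_ne_zero hX).2.1 i)
    rwa [hVl] at this
  have sC : ∫⁻ X : XX j, dB ρ x X * ENNReal.ofReal (VV u (xl X)) = KB * T := by
    have := scl_use hS hdB hB0 (fun l hl X => hom_B ρ x hl X) hVm hφ ph_lint
      (v := fun X => xl X) measurable_xl xl_smul (fun X hX => (DD_ne_zero hX).2.2)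
    rwa [hVl] at this
  have hK := AVgAux.K_sum hR ρ hx hWi hOm'
  have c1 : ENNReal.ofReal (1 / ((j : ℝ) + 1)) * ((j : ℝ≥0∞) + 1) = 1 := by
    rw [show ((j : ℝ≥0∞) + 1) = ENNReal.ofReal ((j : ℝ) + 1) by
      rw [ENNReal.ofReal_add (by positivity) zero_le_one, ENNReal.ofReal_one,
        ENNReal.ofReal_natCast], ← ENNReal.ofReal_mul (by positivity)]
    have : 1 / ((j : ℝ) + 1) * ((j : ℝ) + 1) = 1 := by field_simp
    rw [this, ENNReal.ofReal_one]
  have r1 : ∀ X : XX j, (ENNReal.ofReal (1 / ((j : ℝ) + 1)) *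
      ∑ i, ENNReal.ofReal (VV u (X.1 i))) * dA ρ x X =
      ENNReal.ofReal (1 / ((j : ℝ) + 1)) * ∑ i, dA ρ x X * ENNReal.ofReal (VV u (X.1 i)) := by
    intro X
    rw [← Finset.mul_sum]; ring
  have r2 : ∀ X : XX j, (ENNReal.ofReal (1 / ((j : ℝ) + 1)) *
      (∑ i, ENNReal.ofReal (VV u (X.2 i)) + ENNReal.ofReal (VV u (xl X)))) * dB ρ x X =
      ENNReal.ofReal (1 / ((j : ℝ) + 1)) * (∑ i, dB ρ x X * ENNReal.ofReal (VV u (X.2 i)) +
        dB ρ x X * ENNReal.ofReal (VV u (xl X))) := by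
    intro X
    rw [← Finset.mul_sum]; ring
  simp_rw [r1, r2]
  have q1 : ∀ i, Measurable (fun X : XX j => dA ρ x X * ENNReal.ofReal (VV u (X.1 i))) :=
    fun i => hdA.mul (hm1 i)
  have q2 : ∀ i, Measurable (fun X : XX j => dB ρ x X * ENNReal.ofReal (VV u (X.2 i))) :=
    fun i => hdB.mul (hm2 i)
  have q3 : Measurable (fun X : XX j => dB ρ x X * ENNReal.ofReal (VV u (xl X))) := hdB.mul hm3
  have q4 : Measurable (fun X : XX j => ∑ i, dA ρ x X * ENNReal.ofReal (VV u (X.1 i))) :=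
    Finset.measurable_sum _ fun i _ => q1 i
  have q5 : Measurable (fun X : XX j => ∑ i, dB ρ x X * ENNReal.ofReal (VV u (X.2 i))) :=
    Finset.measurable_sum _ fun i _ => q2 i
  have q6 : Measurable (fun X : XX j => ∑ i, dB ρ x X * ENNReal.ofReal (VV u (X.2 i)) +
      dB ρ x X * ENNReal.ofReal (VV u (xl X))) := q5.add q3
  rw [lintegral_add_left (q4.const_mul _), lintegral_const_mul _ q4, lintegral_const_mul _ q6,
    lintegral_add_left q5, lintegral_finsetSum _ (fun i _ => q1 i),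
    lintegral_finsetSum _ (fun i _ => q2 i)]
  simp_rw [sA, sB, sC]
  rw [Finset.sum_const, Finset.sum_const, Finset.card_univ, Finset.card_univ, Fintype.card_fin,
    Fintype.card_fin, nsmul_eq_mul, nsmul_eq_mul]
  have fin : ENNReal.ofReal (1 / ((j : ℝ) + 1)) * (((j + 1 : ℕ) : ℝ≥0∞) * (KA * T)) +
      ENNReal.ofReal (1 / ((j : ℝ) + 1)) * ((j : ℝ≥0∞) * (KB * T) + KB * T) =
      (ENNReal.ofReal (1 / ((j : ℝ) + 1)) * ((j : ℝ≥0∞) + 1)) * ((KA + KB) * T) := by
    push_cast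
    ring
  rw [fin, c1, one_mul, hK, hT, ← ENNReal.ofReal_mul (integral_nonneg fun y =>
    mul_nonneg (hW0 y) (by positivity))]

end Pool.Agent.Lib.MP_dd244f_an.Rq
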