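import Pool.Agent.Lib.MP_dd244f_an.Rq.Stmts

/-!
Module (AVt): the averaged inequality on the line `4`, for every harmonic measure `t`, from the
endpoint inequality (Star) and the general averaged inequality for the remaining weight `w2`.
-/

set_option autoImplicit false

namespace Pool.Agent.Lib.MP_dd244f_an.Rq

open MeasureTheory Filter Topology Finset
open Pool.Agent.Lib.MP_dd244f_an.Four
open Pool.Agent.Lib.MP_dd244f_an.Rp
open scoped ENNReal

/-- the point of the line -/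
noncomputable def avz (y : ℝ) : ℂ := 1 / (2 * (2 : ℕ)) + Complex.I * y

theorem avz_eq (y : ℝ) : avz y = ((1 / 4 : ℝ) : ℂ) + Complex.I * y := by
  rw [avz]; push_cast; norm_num

theorem avt_norm_cz (hG : StmtG) (y : ℝ) :
    ‖cz (avz y)‖ ^ 4 = Real.pi ^ 2 * G (1 / 4) y ^ 4 / G (3 / 4) y ^ 4 := by
  have h1 : ‖Complex.Gamma (avz y)‖ = G (1 / 4) y := by rw [avz_eq, G]
  have h2 : ‖Complex.Gamma (1 - avz y)‖ = G (3 / 4) y := by
    rw [← (hG.1 (3 / 4) y (by norm_num)).2.1, G, avz_eq]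
    congr 2
    push_cast
    ring
  have h3 : ‖(Real.pi : ℂ) ^ (1 - 2 * avz y)‖ = Real.pi ^ (1 / 2 : ℝ) := by
    rw [Complex.norm_cpow_eq_rpow_re_of_pos Real.pi_pos]
    congr 1
    rw [avz_eq]
    simp
    norm_num
  rw [cz, norm_div, norm_mul, h1, h2, h3, div_pow, mul_pow]
  congr 2
  rw [← Real.sqrt_eq_rpow, show (4 : ℕ) = 2 * 2 by norm_num, pow_mul, Real.sq_sqrt Real.pi_pos.le]

/-- the weight on the line -/
theorem avt_gw (hG : StmtG) (y : ℝ) :
    gw y * ‖cz (avz y)‖ ^ 4 * Real.cosh (2 * Real.pi * y) ^ 2 = 4 * Real.pi ^ 6 := by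
  have h := hG.2.2.2.2.2.2 y
  have h3 : 0 < G (3 / 4) y := (hG.1 (3 / 4) y (by norm_num)).1
  rw [avt_norm_cz hG, gw]
  have : G (3 / 4) y ^ 8 * (Real.pi ^ 2 * G (1 / 4) y ^ 4 / G (3 / 4) y ^ 4) *
      Real.cosh (2 * Real.pi * y) ^ 2
      = Real.pi ^ 2 * (G (1 / 4) y ^ 2 * G (3 / 4) y ^ 2 * Real.cosh (2 * Real.pi * y)) ^ 2 := by
    field_simp
  rw [this, h]; ring

theorem avt_cz_pos (hG : StmtG) (y : ℝ) : 0 < ‖cz (avz y)‖ ^ 4 := by
  rw [avt_norm_cz hG]
  have h3 : 0 < G (3 / 4) y := (hG.1 (3 / 4) y (by norm_num)).1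
  have h1 : 0 < G (1 / 4) y := (hG.1 (1 / 4) y (by norm_num)).1
  have := Real.pi_pos
  positivity

theorem avt_cosh (y : ℝ) : Real.cosh (4 * Real.pi * y) + 1 = 2 * Real.cosh (2 * Real.pi * y) ^ 2 := by
  rw [show 4 * Real.pi * y = 2 * (2 * Real.pi * y) by ring, Real.cosh_two_mul, Real.sinh_sq]
  ring

theorem avt_gw' (hG : StmtG) (y : ℝ) :
    1 / ((Real.cosh (4 * Real.pi * y) + 1) * ‖cz (avz y)‖ ^ 4) = gw y / (8 * Real.pi ^ 6) := by
  have h := avt_gw hG y
  have h1 := avt_cz_pos hG y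
  have h2 : 0 < Real.cosh (2 * Real.pi * y) := Real.cosh_pos _
  have h3 := Real.pi_pos
  rw [avt_cosh, div_eq_div_iff (by positivity) (by positivity)]
  linear_combination 2 * (-h)

theorem avt_cs_pos {t : ℝ} (h0 : 0 < t) (h1 : t < 1) (y : ℝ) :
    0 < Real.cosh (4 * Real.pi * y) + Real.cos (Real.pi * t) := by
  have h2 := Real.one_le_cosh (4 * Real.pi * y)
  have h3 : -1 < Real.cos (Real.pi * t) := by
    rw [← Real.cos_pi]
    exact Real.cos_lt_cos_of_nonneg_of_le_pi (by have := Real.pi_pos; positivity) le_rfl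
      (by have := Real.pi_pos; nlinarith)
  linarith

theorem avt_sin_pos {t : ℝ} (h0 : 0 < t) (h1 : t < 1) : 0 < Real.sin (Real.pi * t) :=
  Real.sin_pos_of_pos_of_lt_pi (by have := Real.pi_pos; positivity)
    (by have := Real.pi_pos; nlinarith)

theorem avt_pk {t : ℝ} (h0 : 0 < t) (h1 : t < 1) (y : ℝ) :
    pk (1 / 4) t y = 2 * Real.sin (Real.pi * t) *
      (1 / (Real.cosh (4 * Real.pi * y) + Real.cos (Real.pi * t))) := by
  have h2 := avt_cs_pos h0 h1 y
  rw [pk, show Real.pi * y / (1 / 4) = 4 * Real.pi * y by ring]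
  field_simp
  ring

theorem avt_w2 (hG : StmtG) {t : ℝ} (h0 : 0 < t) (h1 : t < 1) (y : ℝ) :
    w2 t y * ‖cz (avz y)‖ ^ 4 = 1 / (Real.cosh (4 * Real.pi * y) + Real.cos (Real.pi * t))
      - 1 / (Real.cosh (4 * Real.pi * y) + 1) := by
  have h2 := avt_cs_pos h0 h1 y
  have h3 := avt_cz_pos hG y
  have h4 : 0 < Real.cosh (4 * Real.pi * y) + 1 := by
    have := Real.one_le_cosh (4 * Real.pi * y); linarith
  have : w2 t y = (1 - Real.cos (Real.pi * t)) /
      ((Real.cosh (4 * Real.pi * y) + 1) * (Real.cosh (4 * Real.pi * y) + Real.cos (Real.pi * t)) *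
      ‖cz (avz y)‖ ^ 4) := rfl
  rw [this]
  clear this
  generalize ‖cz (avz y)‖ ^ 4 = n at h3
  generalize Real.cosh (4 * Real.pi * y) = c at h2 h4
  generalize Real.cos (Real.pi * t) = d at h2
  have h2' := h2.ne'
  have h3' := h3.ne'
  have h4' := h4.ne'
  field_simp
  ring

theorem avt_w2_nonneg (hG : StmtG) {t : ℝ} (h0 : 0 < t) (h1 : t < 1) (y : ℝ) : 0 ≤ w2 t y := by
  have h2 := avt_cs_pos h0 h1 y
  have h3 := avt_cz_pos hG y
  have h4 : 0 < Real.cosh (4 * Real.pi * y) + 1 := by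
    have := Real.one_le_cosh (4 * Real.pi * y); linarith
  have h5 := Real.cos_le_one (Real.pi * t)
  have : w2 t y = (1 - Real.cos (Real.pi * t)) /
      ((Real.cosh (4 * Real.pi * y) + 1) * (Real.cosh (4 * Real.pi * y) + Real.cos (Real.pi * t)) *
      ‖cz (avz y)‖ ^ 4) := rfl
  rw [this]
  refine div_nonneg (by linarith) (by positivity)

theorem avt_split (hG : StmtG) {t : ℝ} (h0 : 0 < t) (h1 : t < 1) (y : ℝ) :
    pk (1 / 4) t y / ‖cz (avz y)‖ ^ 4 = 2 * Real.sin (Real.pi * t) / (8 * Real.pi ^ 6) * gw y +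
      2 * Real.sin (Real.pi * t) * w2 t y := by
  have h3 := avt_cz_pos hG y
  have e1 := avt_gw' hG y
  have e2 := avt_w2 hG h0 h1 y
  rw [avt_pk h0 h1]
  have e3 : 1 / (Real.cosh (4 * Real.pi * y) + Real.cos (Real.pi * t))
      = 1 / (Real.cosh (4 * Real.pi * y) + 1) + w2 t y * ‖cz (avz y)‖ ^ 4 := by linarith
  rw [e3]
  have e4 : 2 * Real.sin (Real.pi * t) *
      (1 / (Real.cosh (4 * Real.pi * y) + 1) + w2 t y * ‖cz (avz y)‖ ^ 4) / ‖cz (avz y)‖ ^ 4
      = 2 * Real.sin (Real.pi * t) *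
      (1 / ((Real.cosh (4 * Real.pi * y) + 1) * ‖cz (avz y)‖ ^ 4) + w2 t y) := by
    have h4 : 0 < Real.cosh (4 * Real.pi * y) + 1 := by
      have := Real.one_le_cosh (4 * Real.pi * y); linarith
    clear e1 e2 e3
    generalize ‖cz (avz y)‖ ^ 4 = n at h3
    have h3' := h3.ne'
    have h4' := h4.ne'
    field_simp
  rw [e4, e1]
  ring

theorem avt_tanh_top : Tendsto Real.tanh atTop (𝓝 1) := by
  have h : ∀ x : ℝ, Real.tanh x = 1 - 2 / (Real.exp (2 * x) + 1) := by
    intro x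
    rw [Real.tanh_eq_sinh_div_cosh, Real.sinh_eq, Real.cosh_eq]
    have : Real.exp (2 * x) = Real.exp x * Real.exp x := by rw [← Real.exp_add]; ring_nf
    rw [this, Real.exp_neg]
    have := Real.exp_pos x
    field_simp
    ring
  simp_rw [funext h]
  have h2 : Tendsto (fun x : ℝ => 2 / (Real.exp (2 * x) + 1)) atTop (𝓝 0) := by
    apply Tendsto.div_atTop tendsto_const_nhds
    apply tendsto_atTop_add_const_right
    exact Real.tendsto_exp_atTop.comp (tendsto_id.const_mul_atTop two_pos)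
  simpa using h2.const_sub 1

theorem avt_tanh_bot : Tendsto Real.tanh atBot (𝓝 (-1)) := by
  have h : Real.tanh = fun x => -Real.tanh (-x) := by
    funext x; rw [Real.tanh_neg, neg_neg]
  rw [h]
  exact (avt_tanh_top.comp tendsto_neg_atBot_atTop).neg

theorem avt_int_sech (hi : Integrable (fun y : ℝ => 1 / (Real.cosh (4 * Real.pi * y) + 1))) :
    ∫ y : ℝ, 1 / (Real.cosh (4 * Real.pi * y) + 1) = 1 / (2 * Real.pi) := by
  have hpi := Real.pi_pos
  have hd : ∀ y : ℝ, HasDerivAt (fun y => Real.tanh (2 * Real.pi * y) / (4 * Real.pi))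
      (1 / (Real.cosh (4 * Real.pi * y) + 1)) y := by
    intro y
    have hc := Real.cosh_pos (2 * Real.pi * y)
    have h1 : HasDerivAt (fun y : ℝ => 2 * Real.pi * y) (2 * Real.pi) y := by
      simpa using (hasDerivAt_id y).const_mul (2 * Real.pi)
    have h2 := (h1.sinh).div (h1.cosh) hc.ne'
    have h3 : (fun y : ℝ => Real.sinh (2 * Real.pi * y) / Real.cosh (2 * Real.pi * y))
        = fun y => Real.tanh (2 * Real.pi * y) := by
      funext y; rw [Real.tanh_eq_sinh_div_cosh]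
    have h4 := h2.div_const (4 * Real.pi)
    have h5 : (fun y => Real.tanh (2 * Real.pi * y) / (4 * Real.pi)) =
        fun y : ℝ => Real.sinh (2 * Real.pi * y) / Real.cosh (2 * Real.pi * y) / (4 * Real.pi) := by
      funext y; rw [Real.tanh_eq_sinh_div_cosh]
    rw [h5]
    have h6 : 1 / (Real.cosh (4 * Real.pi * y) + 1) =
        ((Real.cosh (2 * Real.pi * y) * (2 * Real.pi) * Real.cosh (2 * Real.pi * y) -
          Real.sinh (2 * Real.pi * y) * (Real.sinh (2 * Real.pi * y) * (2 * Real.pi))) /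
        Real.cosh (2 * Real.pi * y) ^ 2 / (4 * Real.pi)) := by
      rw [avt_cosh]
      have e := Real.cosh_sq (2 * Real.pi * y)
      have e' : Real.cosh (2 * Real.pi * y) * (2 * Real.pi) * Real.cosh (2 * Real.pi * y) -
          Real.sinh (2 * Real.pi * y) * (Real.sinh (2 * Real.pi * y) * (2 * Real.pi))
          = 2 * Real.pi := by
        linear_combination (2 * Real.pi) * e
      rw [e']
      field_simp
      norm_num
    rw [h6]
    exact h4
  have htop : Tendsto (fun y : ℝ => Real.tanh (2 * Real.pi * y) / (4 * Real.pi)) atTop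
      (𝓝 (1 / (4 * Real.pi))) :=
    (avt_tanh_top.comp (tendsto_id.const_mul_atTop (by positivity))).div_const _
  have hbot : Tendsto (fun y : ℝ => Real.tanh (2 * Real.pi * y) / (4 * Real.pi)) atBot
      (𝓝 (-1 / (4 * Real.pi))) :=
    (avt_tanh_bot.comp (tendsto_id.const_mul_atBot (by positivity))).div_const _
  rw [integral_of_hasDerivAt_of_tendsto hd hi hbot htop]
  field_simp
  ring

theorem avt_integrable (hPoi : StmtPoi) {t : ℝ} (h0 : 0 < t) (h1 : t < 1) :
    Integrable (fun y : ℝ => 1 / (Real.cosh (4 * Real.pi * y) + Real.cos (Real.pi * t))) ∧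
    Integrable (fun y : ℝ => 1 / (Real.cosh (4 * Real.pi * y) + 1)) := by
  have hs := avt_sin_pos h0 h1
  have hI : Integrable (pk (1 / 4) t) := by
    simpa using (hPoi.1 (1 / 4) t (by norm_num) h0 h1).2.1 0
  have e : (fun y : ℝ => 1 / (Real.cosh (4 * Real.pi * y) + Real.cos (Real.pi * t)))
      = fun y => (1 / (2 * Real.sin (Real.pi * t))) * pk (1 / 4) t y := by
    funext y
    rw [avt_pk h0 h1]
    have := avt_cs_pos h0 h1 y
    field_simp
  have hA : Integrable (fun y : ℝ =>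
      1 / (Real.cosh (4 * Real.pi * y) + Real.cos (Real.pi * t))) := by
    rw [e]; exact hI.const_mul _
  refine ⟨hA, hA.mono' ?_ ?_⟩
  · refine Continuous.aestronglyMeasurable ?_
    refine continuous_const.div (by fun_prop) ?_
    intro y
    have := Real.one_le_cosh (4 * Real.pi * y)
    positivity
  · refine Eventually.of_forall fun y => ?_
    have h2 := avt_cs_pos h0 h1 y
    have h3 := Real.cos_le_one (Real.pi * t)
    rw [Real.norm_of_nonneg (by have := Real.one_le_cosh (4 * Real.pi * y); positivity)]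
    exact one_div_le_one_div_of_le h2 (by linarith)

/-- the constant -/
theorem avt_mass (hG : StmtG) (hPoi : StmtPoi) {t : ℝ} (h0 : 0 < t) (h1 : t < 1) :
    2 * Real.sin (Real.pi * t) * (1 / (2 * Real.pi) + ∫ y : ℝ, w2 t y * ‖cz (avz y)‖ ^ 4) = t := by
  obtain ⟨iA, iB⟩ := avt_integrable hPoi h0 h1
  have hm := (hPoi.1 (1 / 4) t (by norm_num) h0 h1).2.2
  have e1 : ∫ y : ℝ, w2 t y * ‖cz (avz y)‖ ^ 4
      = (∫ y : ℝ, 1 / (Real.cosh (4 * Real.pi * y) + Real.cos (Real.pi * t))) -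
        1 / (2 * Real.pi) := by
    rw [← avt_int_sech iB, ← integral_sub iA iB]
    exact integral_congr_ae (Eventually.of_forall fun y => avt_w2 hG h0 h1 y)
  rw [e1]
  have e2 : ∫ y, pk (1 / 4) t y = 2 * Real.sin (Real.pi * t) *
      ∫ y : ℝ, 1 / (Real.cosh (4 * Real.pi * y) + Real.cos (Real.pi * t)) := by
    rw [← integral_const_mul]
    exact integral_congr_ae (Eventually.of_forall fun y => avt_pk h0 h1 y)
  rw [e2] at hm
  linarith

/-- measurability in the parameter -/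
theorem avt_meas {u α : ℂ → ℝ} (hN : Nice u α) :
    Measurable (fun y : ℝ => ∫⁻ x : ℂ, ‖iF (hz u α (avz y)) x‖ₑ ^ (2 * 2)) := by
  obtain ⟨hu, -, -, hα⟩ := hN
  have hu' := hu.measurable
  have hav : Measurable avz := by
    unfold avz; fun_prop
  have hz' : Measurable (fun q : (ℝ × ℂ) × ℂ => hz u α (avz q.1.1) q.2) := by
    unfold hz
    refine Measurable.ite ?_ measurable_const ?_
    · exact (hu'.comp measurable_snd) (measurableSet_singleton 0)
    · fun_prop
  have hch : Measurable (fun q : (ℝ × ℂ) × ℂ => ch q.1.2 q.2) := by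
    unfold ch; fun_prop
  have h1 : StronglyMeasurable (fun p : ℝ × ℂ => iF (hz u α (avz p.1)) p.2) := by
    unfold iF
    exact (hch.mul hz').stronglyMeasurable.integral_prod_right'
  exact (h1.measurable.enorm.pow_const _).lintegral_prod_right'

theorem avt (hS : StmtStar) (hA : StmtAVg) (hP : StmtPD2) (hG : StmtG) (hPoi : StmtPoi) :
    StmtAVt := by
  intro t h0 h1 u α hN
  have hpi := Real.pi_pos
  have hs := avt_sin_pos h0 h1
  have hgw : ∀ y, 0 ≤ gw y := fun y => by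
    rw [gw]
    exact pow_nonneg ((hG.1 (3 / 4) y (by norm_num)).1).le 8
  obtain ⟨hc2, hpd2⟩ := hP t h0 h1
  have a1 := hS u α hN
  have a2 := hA 2 (w2 t) le_rfl hc2 (avt_w2_nonneg hG h0 h1) hpd2 u α hN
  have hFm := avt_meas hN
  set I : ℝ := ∫ ξ, u ξ / ‖ξ‖ ^ 4 with hI
  have hI0 : 0 ≤ I := integral_nonneg fun ξ => div_nonneg (hN.2.1 ξ) (by positivity)
  have hmass := avt_mass hG hPoi h0 h1
  set C2 : ℝ := ∫ y : ℝ, w2 t y * ‖cz (avz y)‖ ^ 4 with hC2
  have hC20 : 0 ≤ C2 := integral_nonneg fun y =>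
    mul_nonneg (avt_w2_nonneg hG h0 h1 y) (avt_cz_pos hG y).le
  set A : ℝ := 2 * Real.sin (Real.pi * t) / (8 * Real.pi ^ 6) with hAdef
  set B : ℝ := 2 * Real.sin (Real.pi * t) with hBdef
  have hA0 : 0 ≤ A := by positivity
  have hB0 : 0 ≤ B := by positivity
  have hgc : Continuous gw := by
    unfold gw
    exact (hG.2.1 (3 / 4) (by norm_num)).pow 8
  have step : ∀ y : ℝ, ENNReal.ofReal (pk (1 / 4) t y / ‖cz (avz y)‖ ^ (2 * 2)) *
      ∫⁻ x : ℂ, ‖iF (hz u α (avz y)) x‖ₑ ^ (2 * 2)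
      = ENNReal.ofReal A * (ENNReal.ofReal (gw y) *
          ∫⁻ x : ℂ, ‖iF (hz u α (avz y)) x‖ₑ ^ (2 * 2)) +
        ENNReal.ofReal B * (ENNReal.ofReal (w2 t y) *
          ∫⁻ x : ℂ, ‖iF (hz u α (avz y)) x‖ₑ ^ (2 * 2)) := by
    intro y
    have e := avt_split hG h0 h1 y
    rw [show (2 * 2 : ℕ) = 4 by norm_num, e, ENNReal.ofReal_add
      (mul_nonneg hA0 (hgw y)) (mul_nonneg hB0 (avt_w2_nonneg hG h0 h1 y)),
      ENNReal.ofReal_mul hA0, ENNReal.ofReal_mul hB0]
    ring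
  calc ∫⁻ y : ℝ, ENNReal.ofReal (pk (1 / 4) t y / ‖cz (avz y)‖ ^ (2 * 2)) *
      ∫⁻ x : ℂ, ‖iF (hz u α (avz y)) x‖ₑ ^ (2 * 2)
      = ENNReal.ofReal A * (∫⁻ y : ℝ, ENNReal.ofReal (gw y) *
          ∫⁻ x : ℂ, ‖iF (hz u α (avz y)) x‖ₑ ^ (2 * 2)) +
        ENNReal.ofReal B * (∫⁻ y : ℝ, ENNReal.ofReal (w2 t y) *
          ∫⁻ x : ℂ, ‖iF (hz u α (avz y)) x‖ₑ ^ (2 * 2)) := by
        rw [lintegral_congr step, lintegral_add_left, lintegral_const_mul, lintegral_const_mul]
        · exact (hc2.measurable.ennreal_ofReal).mul hFm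
        · exact (hgc.measurable.ennreal_ofReal).mul hFm
        · exact ((hgc.measurable.ennreal_ofReal).mul hFm).const_mul _
    _ ≤ ENNReal.ofReal A * ENNReal.ofReal (4 * Real.pi ^ 5 * I) +
        ENNReal.ofReal B * ENNReal.ofReal (C2 * I) := by
        refine add_le_add (mul_le_mul_right a1 _) (mul_le_mul_right a2 _)
    _ = ENNReal.ofReal (1 * t * I) := by
        rw [← ENNReal.ofReal_mul hA0, ← ENNReal.ofReal_mul hB0, ← ENNReal.ofReal_add
          (by positivity) (by positivity)]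
        congr 1
        have : A * (4 * Real.pi ^ 5 * I) + B * (C2 * I) = B * (1 / (2 * Real.pi) + C2) * I := by
          rw [hAdef, hBdef]
          field_simp
          ring
        rw [this, hmass, one_mul]

end Pool.Agent.Lib.MP_dd244f_an.Rq
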