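import Pool.Agent.Lib.MP_dd244f_an.Rq.Stmts

/-!
Module (Alg) of the project Rq: an elementary inequality.
-/

set_option autoImplicit false

namespace Pool.Agent.Lib.MP_dd244f_an.Rq

/-- the quadratic form behind `StmtAlg` -/
theorem alg_aux (s t p q : ℝ) (hp : 0 ≤ p) (hq : 0 ≤ q) (hs : 2 * p ≤ s) (ht : 2 * q ≤ t) :
    0 ≤ s ^ 2 + t ^ 2 - s * t - 3 * p ^ 2 - 3 * q ^ 2 + 2 * p * q := by
  have key : ∀ s t p q : ℝ, 0 ≤ p → 0 ≤ q → 2 * p ≤ s → 2 * q ≤ t → p ≤ q →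
      0 ≤ s ^ 2 + t ^ 2 - s * t - 3 * p ^ 2 - 3 * q ^ 2 + 2 * p * q := by
    intro s t p q hp hq hs ht hpq
    rcases le_total (2 * p) q with h | h
    · -- `q ≥ 2 p`
      have h1 : 0 ≤ (s - t / 2) ^ 2 := sq_nonneg _
      have h2 : 0 ≤ p * (2 * q - 3 * p) := mul_nonneg hp (by linarith)
      have h3 : 0 ≤ (t - 2 * q) * (t + 2 * q) := mul_nonneg (by linarith) (by linarith)
      nlinarith
    · -- `p ≤ q ≤ 2 p`
      obtain ⟨x, rfl⟩ : ∃ x, s = 2 * p + x := ⟨s - 2 * p, by ring⟩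
      obtain ⟨y, rfl⟩ : ∃ y, t = 2 * q + y := ⟨t - 2 * q, by ring⟩
      have hx : 0 ≤ x := by linarith
      have hy : 0 ≤ y := by linarith
      have e1 : 0 ≤ x * (2 * p - q) := mul_nonneg hx (by linarith)
      have e2 : 0 ≤ y * (2 * q - p) := mul_nonneg hy (by linarith)
      have e3 : 0 ≤ x ^ 2 - x * y + y ^ 2 := by nlinarith [sq_nonneg (x - y), mul_nonneg hx hy]
      nlinarith [sq_nonneg (p - q)]
  rcases le_total p q with h | h
  · exact key s t p q hp hq hs ht h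
  · have := key t s q p hq hp ht hs h
    nlinarith

theorem alg : StmtAlg := by
  intro a b c d ha hb hc hd
  have hp : Real.sqrt (a * b) ^ 2 = a * b := Real.sq_sqrt (mul_nonneg ha hb)
  have hq : Real.sqrt (c * d) ^ 2 = c * d := Real.sq_sqrt (mul_nonneg hc hd)
  have hp0 : 0 ≤ Real.sqrt (a * b) := Real.sqrt_nonneg _
  have hq0 : 0 ≤ Real.sqrt (c * d) := Real.sqrt_nonneg _
  have hs : 2 * Real.sqrt (a * b) ≤ a + b := by
    refine abs_le_of_sq_le_sq' ?_ (by linarith) |>.2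
    nlinarith [sq_nonneg (a - b)]
  have ht : 2 * Real.sqrt (c * d) ≤ c + d := by
    refine abs_le_of_sq_le_sq' ?_ (by linarith) |>.2
    nlinarith [sq_nonneg (c - d)]
  have h := alg_aux (a + b) (c + d) _ _ hp0 hq0 hs ht
  nlinarith

end Pool.Agent.Lib.MP_dd244f_an.Rq
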