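import Pool.Agent.Lib.MP_dd244f_an.Rq.Stmts

/-!
Module (B8): numerical facts on the majorant `B8`.
-/

set_option autoImplicit false

namespace Pool.Agent.Lib.MP_dd244f_an.Rq

namespace B8Aux

open Real

/-! ### numerical bounds for the exponential -/

lemma exp_up (y : ℝ) (h0 : 0 ≤ y) (h1 : y ≤ 1) (k : ℕ) :
    Real.exp (k * y) ≤ (1 + y + y ^ 2 / 2 + y ^ 3 / 6 + y ^ 4 / 24 + y ^ 5 / 120 + y ^ 6 / 720
      + y ^ 7 / 5040 + y ^ 8 / 40320 + y ^ 9 / 362880 + y ^ 10 * 11 / 36288000) ^ k := by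
  rw [Real.exp_nat_mul]
  refine pow_le_pow_left₀ (Real.exp_pos _).le ?_ k
  have h := Real.exp_bound' h0 h1 (n := 10) (by norm_num)
  refine h.trans (le_of_eq ?_)
  simp only [Finset.sum_range_succ, Finset.sum_range_zero, Nat.factorial]
  norm_num

lemma exp_lo (y : ℝ) (h0 : 0 ≤ y) (k : ℕ) :
    (1 + y + y ^ 2 / 2 + y ^ 3 / 6 + y ^ 4 / 24 + y ^ 5 / 120 + y ^ 6 / 720
      + y ^ 7 / 5040 + y ^ 8 / 40320 + y ^ 9 / 362880) ^ k ≤ Real.exp (k * y) := by
  rw [Real.exp_nat_mul]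
  refine pow_le_pow_left₀ (by positivity) ?_ k
  have h := Real.sum_le_exp_of_nonneg h0 10
  refine (le_of_eq ?_).trans h
  simp only [Finset.sum_range_succ, Finset.sum_range_zero, Nat.factorial]
  norm_num

lemma exp_le' (x y u : ℝ) (k : ℕ) (hx : x = k * y) (h0 : 0 ≤ y) (h1 : y ≤ 1)
    (hu : (1 + y + y ^ 2 / 2 + y ^ 3 / 6 + y ^ 4 / 24 + y ^ 5 / 120 + y ^ 6 / 720
      + y ^ 7 / 5040 + y ^ 8 / 40320 + y ^ 9 / 362880 + y ^ 10 * 11 / 36288000) ^ k ≤ u) :
    Real.exp x ≤ u := by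
  rw [hx]; exact (exp_up y h0 h1 k).trans hu

lemma le_exp' (x y u : ℝ) (k : ℕ) (hx : x = k * y) (h0 : 0 ≤ y)
    (hu : u ≤ (1 + y + y ^ 2 / 2 + y ^ 3 / 6 + y ^ 4 / 24 + y ^ 5 / 120 + y ^ 6 / 720
      + y ^ 7 / 5040 + y ^ 8 / 40320 + y ^ 9 / 362880) ^ k) :
    u ≤ Real.exp x := by
  rw [hx]; exact hu.trans (exp_lo y h0 k)

lemma e32_le : Real.exp (3 / 2) ≤ 44816891 / 10000000 :=
  exp_le' _ (1 / 2) _ 3 (by norm_num) (by norm_num) (by norm_num) (by norm_num)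

lemma le_e32 : 44816890 / 10000000 ≤ Real.exp (3 / 2) :=
  le_exp' _ (1 / 2) _ 3 (by norm_num) (by norm_num) (by norm_num)

lemma E_le : Real.exp (57 / 20) ≤ 172877820 / 10000000 :=
  exp_le' _ (57 / 100) _ 5 (by norm_num) (by norm_num) (by norm_num) (by norm_num)

lemma le_E : 172877816 / 10000000 ≤ Real.exp (57 / 20) :=
  le_exp' _ (57 / 100) _ 5 (by norm_num) (by norm_num) (by norm_num)

lemma x0_le : Real.exp (1 / 20) ≤ 10512712 / 10000000 :=
  exp_le' _ (1 / 20) _ 1 (by norm_num) (by norm_num) (by norm_num) (by norm_num)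

lemma le_x0 : 10512709 / 10000000 ≤ Real.exp (1 / 20) :=
  le_exp' _ (1 / 20) _ 1 (by norm_num) (by norm_num) (by norm_num)

lemma x1_le : Real.exp (3 / 20) ≤ 11618344 / 10000000 :=
  exp_le' _ (3 / 20) _ 1 (by norm_num) (by norm_num) (by norm_num) (by norm_num)

lemma le_x1 : 11618341 / 10000000 ≤ Real.exp (3 / 20) :=
  le_exp' _ (3 / 20) _ 1 (by norm_num) (by norm_num) (by norm_num)

lemma x2_le : Real.exp (1 / 4) ≤ 12840256 / 10000000 :=
  exp_le' _ (1 / 4) _ 1 (by norm_num) (by norm_num) (by norm_num) (by norm_num)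

lemma le_x2 : 12840253 / 10000000 ≤ Real.exp (1 / 4) :=
  le_exp' _ (1 / 4) _ 1 (by norm_num) (by norm_num) (by norm_num)

lemma x3_le : Real.exp (3 / 8) ≤ 14549916 / 10000000 :=
  exp_le' _ (3 / 8) _ 1 (by norm_num) (by norm_num) (by norm_num) (by norm_num)

lemma le_x3 : 14549913 / 10000000 ≤ Real.exp (3 / 8) :=
  le_exp' _ (3 / 8) _ 1 (by norm_num) (by norm_num) (by norm_num)

lemma x4_le : Real.exp (1 / 2) ≤ 16487214 / 10000000 :=
  exp_le' _ (1 / 2) _ 1 (by norm_num) (by norm_num) (by norm_num) (by norm_num)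

lemma le_x4 : 16487211 / 10000000 ≤ Real.exp (1 / 2) :=
  le_exp' _ (1 / 2) _ 1 (by norm_num) (by norm_num) (by norm_num)

lemma x5_le : Real.exp (7 / 8) ≤ 23988754 / 10000000 :=
  exp_le' _ (7 / 16) _ 2 (by norm_num) (by norm_num) (by norm_num) (by norm_num)

lemma le_x5 : 23988751 / 10000000 ≤ Real.exp (7 / 8) :=
  le_exp' _ (7 / 16) _ 2 (by norm_num) (by norm_num) (by norm_num)

lemma x6_le : Real.exp (5 / 4) ≤ 34903431 / 10000000 :=
  exp_le' _ (5 / 12) _ 3 (by norm_num) (by norm_num) (by norm_num) (by norm_num)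

lemma le_x6 : 34903428 / 10000000 ≤ Real.exp (5 / 4) :=
  le_exp' _ (5 / 12) _ 3 (by norm_num) (by norm_num) (by norm_num)

lemma x7_le : Real.exp (69 / 40) ≤ 56125212 / 10000000 :=
  exp_le' _ (23 / 40) _ 3 (by norm_num) (by norm_num) (by norm_num) (by norm_num)

lemma le_x7 : 56125209 / 10000000 ≤ Real.exp (69 / 40) :=
  le_exp' _ (23 / 40) _ 3 (by norm_num) (by norm_num) (by norm_num)

lemma x8_le : Real.exp (15 / 8) ≤ 65208193 / 10000000 :=
  exp_le' _ (15 / 32) _ 4 (by norm_num) (by norm_num) (by norm_num) (by norm_num)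

lemma le_x8 : 65208190 / 10000000 ≤ Real.exp (15 / 8) :=
  le_exp' _ (15 / 32) _ 4 (by norm_num) (by norm_num) (by norm_num)

lemma x9_le : Real.exp (101 / 50) ≤ 75383251 / 10000000 :=
  exp_le' _ (101 / 200) _ 4 (by norm_num) (by norm_num) (by norm_num) (by norm_num)

lemma le_x9 : 75383248 / 10000000 ≤ Real.exp (101 / 50) :=
  le_exp' _ (101 / 200) _ 4 (by norm_num) (by norm_num) (by norm_num)

lemma x10_le : Real.exp (117 / 50) ≤ 103812367 / 10000000 :=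
  exp_le' _ (117 / 200) _ 4 (by norm_num) (by norm_num) (by norm_num) (by norm_num)

lemma le_x10 : 103812364 / 10000000 ≤ Real.exp (117 / 50) :=
  le_exp' _ (117 / 200) _ 4 (by norm_num) (by norm_num) (by norm_num)

lemma x11_le : Real.exp (533 / 200) ≤ 143679497 / 10000000 :=
  exp_le' _ (533 / 1000) _ 5 (by norm_num) (by norm_num) (by norm_num) (by norm_num)

lemma le_x11 : 143679494 / 10000000 ≤ Real.exp (533 / 200) :=
  le_exp' _ (533 / 1000) _ 5 (by norm_num) (by norm_num) (by norm_num)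

lemma x12_le : Real.exp (299 / 100) ≤ 198856826 / 10000000 :=
  exp_le' _ (299 / 500) _ 5 (by norm_num) (by norm_num) (by norm_num) (by norm_num)

lemma le_x12 : 198856822 / 10000000 ≤ Real.exp (299 / 100) :=
  le_exp' _ (299 / 500) _ 5 (by norm_num) (by norm_num) (by norm_num)

lemma x13_le : Real.exp (663 / 200) ≤ 275223941 / 10000000 :=
  exp_le' _ (221 / 400) _ 6 (by norm_num) (by norm_num) (by norm_num) (by norm_num)

lemma le_x13 : 275223938 / 10000000 ≤ Real.exp (663 / 200) :=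
  le_exp' _ (221 / 400) _ 6 (by norm_num) (by norm_num) (by norm_num)

lemma x14_le : Real.exp (69 / 20) ≤ 315003925 / 10000000 :=
  exp_le' _ (23 / 40) _ 6 (by norm_num) (by norm_num) (by norm_num) (by norm_num)

lemma le_x14 : 315003920 / 10000000 ≤ Real.exp (69 / 20) :=
  le_exp' _ (23 / 40) _ 6 (by norm_num) (by norm_num) (by norm_num)

lemma q_le : Real.exp (9 / 4) ≤ 94877360 / 10000000 :=
  exp_le' _ (9 / 16) _ 4 (by norm_num) (by norm_num) (by norm_num) (by norm_num)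

lemma le_q : 94877357 / 10000000 ≤ Real.exp (9 / 4) :=
  le_exp' _ (9 / 16) _ 4 (by norm_num) (by norm_num) (by norm_num)

/-! ### closed forms -/

lemma form1 (L : ℝ) (h : L ≤ 3) : B8 L = π * (exp (L / 2) *
      ((exp (3 / 2))⁻¹ * (6 - L) - 2 / 3 * (exp (57 / 20))⁻¹) +
      (exp (L / 2))⁻¹ * (4 * (exp (3 / 2))⁻¹ - 2 / 3 * (exp (57 / 20))⁻¹)) +
      7 / 5 * ((exp (3 / 2))⁻¹ * exp (L / 2)) := by
  have h1 : exp (-((3 - L) / 2)) = (exp (3 / 2))⁻¹ * exp (L / 2) := by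
    rw [← exp_neg, ← exp_add]; congr 1; ring
  unfold B8 EE mt
  rw [if_pos h, if_pos h, h1, exp_neg (3 / 2), exp_neg (57 / 20), exp_neg (L / 2)]

lemma form2 (L : ℝ) (h : 3 ≤ L) (h' : L ≤ 57 / 10) : B8 L = π * (4 -
      2 / 3 * (exp (57 / 20))⁻¹ * exp (L / 2) -
      (exp (3 / 2) - 4 * (exp (3 / 2))⁻¹ + 2 / 3 * (exp (57 / 20))⁻¹) * (exp (L / 2))⁻¹) +
      7 / 5 := by
  rcases eq_or_lt_of_le h with h3 | h3
  · rw [← h3, form1 3 le_rfl]
    have e0 := (exp_pos (3 / 2 : ℝ)).ne'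
    have e1 := (exp_pos (57 / 20 : ℝ)).ne'
    field_simp
    ring
  · unfold B8 EE mt
    rw [if_neg (not_le.mpr h3), if_pos h', if_neg (not_le.mpr h3), if_pos h', exp_neg (3 / 2),
      exp_neg (57 / 20), exp_neg (L / 2)]
    ring

lemma form3 (L : ℝ) (h : 57 / 10 ≤ L) : B8 L = π * ((exp (L / 2))⁻¹ *
      (2 * exp (57 / 20) * (L - 47 / 10) + 4 * (exp (3 / 2))⁻¹ - exp (3 / 2)
        - 2 / 3 * (exp (57 / 20))⁻¹) + 4 / 3 * (exp (57 / 20) * (exp (L / 2))⁻¹) ^ 2) +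
      7 / 5 * (1 - (1 - exp (57 / 20) * (exp (L / 2))⁻¹) ^ 2) := by
  rcases eq_or_lt_of_le h with h3 | h3
  · have hL : L / 2 = 57 / 20 := by rw [← h3]; norm_num
    rw [form2 L (by linarith) (by linarith), hL, ← h3]
    have e0 := (exp_pos (3 / 2 : ℝ)).ne'
    have e1 := (exp_pos (57 / 20 : ℝ)).ne'
    field_simp
    ring
  · have h1 : exp (-((L - 57 / 10) / 2)) = exp (57 / 20) * (exp (L / 2))⁻¹ := by
      rw [← exp_neg, ← exp_add]; congr 1; ring
    have h2 : exp (57 / 10 - L) = (exp (57 / 20) * (exp (L / 2))⁻¹) ^ 2 := by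
      rw [← exp_neg, ← exp_add, sq, ← exp_add]; congr 1; ring
    unfold B8 EE mt
    rw [if_neg (not_le.mpr (by linarith)), if_neg (not_le.mpr h3),
      if_neg (not_le.mpr (by linarith)), if_neg (not_le.mpr h3), exp_neg (3 / 2),
      exp_neg (57 / 20), exp_neg (L / 2), h1, h2]

/-! ### consequences for the constants -/

lemma inv_e_le : (exp (3 / 2 : ℝ))⁻¹ ≤ 22313017 / 100000000 := by
  rw [inv_le_comm₀ (exp_pos _) (by norm_num)]
  exact le_trans (by norm_num) le_e32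

lemma le_inv_e : 22313015 / 100000000 ≤ (exp (3 / 2 : ℝ))⁻¹ := by
  rw [le_inv_comm₀ (by norm_num) (exp_pos _)]
  exact e32_le.trans (by norm_num)

lemma inv_E_le : (exp (57 / 20 : ℝ))⁻¹ ≤ 57844322 / 1000000000 := by
  rw [inv_le_comm₀ (exp_pos _) (by norm_num)]
  exact le_trans (by norm_num) le_E

lemma le_inv_E : 57844318 / 1000000000 ≤ (exp (57 / 20 : ℝ))⁻¹ := by
  rw [le_inv_comm₀ (by norm_num) (exp_pos _)]
  exact E_le.trans (by norm_num)

/-! ### monotonicity -/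

lemma mono1 (a b : ℝ) (hab : a ≤ b) (hb : b ≤ 3) :
    B8 a * exp (a / 2) ≤ B8 b * exp (b / 2) := by
  have hA := form1 a (hab.trans hb)
  have hB := form1 b hb
  set e := (exp (3 / 2 : ℝ))⁻¹ with he
  set c := (exp (57 / 20 : ℝ))⁻¹ with hc
  have e1 : 22313015 / 100000000 ≤ e := le_inv_e
  have c1 : c ≤ 57844322 / 1000000000 := inv_E_le
  have c0 : 0 < c := inv_pos.mpr (exp_pos _)
  have xa := exp_pos (a / 2)
  have xb := exp_pos (b / 2)
  have h1 : exp (a / 2) * exp (a / 2) = exp a := by rw [← exp_add]; congr 1; ring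
  have h2 : exp (b / 2) * exp (b / 2) = exp b := by rw [← exp_add]; congr 1; ring
  have hA' : B8 a * exp (a / 2) = π * (exp a * (e * (6 - a) - 2 / 3 * c) + (4 * e - 2 / 3 * c))
      + 7 / 5 * (e * exp a) := by
    rw [hA, ← h1]; field_simp
  have hB' : B8 b * exp (b / 2) = π * (exp b * (e * (6 - b) - 2 / 3 * c) + (4 * e - 2 / 3 * c))
      + 7 / 5 * (e * exp b) := by
    rw [hB, ← h2]; field_simp
  rw [hA', hB']
  have hmon : exp a ≤ exp b := exp_le_exp.mpr hab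
  have h3 : exp a * (1 + (b - a)) ≤ exp b := by
    have : exp b = exp a * exp (b - a) := by rw [← exp_add]; congr 1; ring
    rw [this]
    exact mul_le_mul_of_nonneg_left (by linarith [add_one_le_exp (b - a)]) (exp_pos _).le
  have hpos : 0 ≤ e * (6 - b) - 2 / 3 * c := by nlinarith
  have h4 : exp a * (e * (6 - a) - 2 / 3 * c) ≤ exp b * (e * (6 - b) - 2 / 3 * c) := by
    refine le_trans ?_ (mul_le_mul_of_nonneg_right h3 hpos)
    have h5 : e * (6 - a) - 2 / 3 * c ≤ (1 + (b - a)) * (e * (6 - b) - 2 / 3 * c) := by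
      have : 0 ≤ (b - a) * (e * (5 - b) - 2 / 3 * c) :=
        mul_nonneg (by linarith) (by nlinarith)
      nlinarith
    calc exp a * (e * (6 - a) - 2 / 3 * c)
        ≤ exp a * ((1 + (b - a)) * (e * (6 - b) - 2 / 3 * c)) :=
          mul_le_mul_of_nonneg_left h5 (exp_pos _).le
      _ = _ := by ring
  have e0 : 0 < e := lt_of_lt_of_le (by norm_num) e1
  have h6 : e * exp a ≤ e * exp b := mul_le_mul_of_nonneg_left hmon e0.le
  have h7 := mul_le_mul_of_nonneg_left h4 pi_pos.le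
  nlinarith

lemma mono2 (a b : ℝ) (ha : 3 ≤ a) (hab : a ≤ b) (hb : b ≤ 57 / 10) :
    B8 a * exp (a / 2) ≤ B8 b * exp (b / 2) := by
  have hA := form2 a ha (hab.trans hb)
  have hB := form2 b (ha.trans hab) hb
  have xE : exp (b / 2) ≤ exp (57 / 20) := exp_le_exp.mpr (by linarith)
  have hmon : exp (a / 2) ≤ exp (b / 2) := exp_le_exp.mpr (by linarith)
  have hcE : (exp (57 / 20 : ℝ))⁻¹ * exp (57 / 20) = 1 := inv_mul_cancel₀ (exp_pos _).ne'
  set c := (exp (57 / 20 : ℝ))⁻¹ with hc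
  have c0 : 0 < c := inv_pos.mpr (exp_pos _)
  have xa := exp_pos (a / 2)
  have xb := exp_pos (b / 2)
  have hA' : B8 a * exp (a / 2) = π * (4 * exp (a / 2) - 2 / 3 * c * exp (a / 2) ^ 2 -
      (exp (3 / 2) - 4 * (exp (3 / 2))⁻¹ + 2 / 3 * c)) + 7 / 5 * exp (a / 2) := by
    rw [hA]; field_simp
  have hB' : B8 b * exp (b / 2) = π * (4 * exp (b / 2) - 2 / 3 * c * exp (b / 2) ^ 2 -
      (exp (3 / 2) - 4 * (exp (3 / 2))⁻¹ + 2 / 3 * c)) + 7 / 5 * exp (b / 2) := by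
    rw [hB]; field_simp
  rw [hA', hB']
  set x := exp (a / 2)
  set y := exp (b / 2)
  have h1 : c * y ≤ 1 := by
    rw [← hcE]; exact mul_le_mul_of_nonneg_left xE c0.le
  have h2 : c * x ≤ 1 := (mul_le_mul_of_nonneg_left hmon c0.le).trans h1
  have h3 : 0 ≤ (y - x) * (4 - 2 / 3 * (c * x + c * y)) :=
    mul_nonneg (by linarith) (by linarith)
  have h4 : 4 * x - 2 / 3 * c * x ^ 2 ≤ 4 * y - 2 / 3 * c * y ^ 2 := by nlinarith
  have h5 := mul_le_mul_of_nonneg_left h4 pi_pos.le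
  nlinarith

lemma mono3 (a b : ℝ) (ha : 57 / 10 ≤ a) (hab : a ≤ b) :
    B8 a * exp (a / 2) ≤ B8 b * exp (b / 2) := by
  have hA := form3 a ha
  have hB := form3 b (ha.trans hab)
  have xa := exp_pos (a / 2)
  have xb := exp_pos (b / 2)
  have E0 := exp_pos (57 / 20 : ℝ)
  have hE1 := le_E
  set E := exp (57 / 20 : ℝ) with hE
  set k := 4 * (exp (3 / 2 : ℝ))⁻¹ - exp (3 / 2) - 2 / 3 * E⁻¹ with hk
  have hA' : B8 a * exp (a / 2) = π * (2 * E * (a - 47 / 10) + k +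
      4 / 3 * E * (E * (exp (a / 2))⁻¹)) + 7 / 5 * E * (2 - E * (exp (a / 2))⁻¹) := by
    rw [hA, hk]; field_simp; ring
  have hB' : B8 b * exp (b / 2) = π * (2 * E * (b - 47 / 10) + k +
      4 / 3 * E * (E * (exp (b / 2))⁻¹)) + 7 / 5 * E * (2 - E * (exp (b / 2))⁻¹) := by
    rw [hB, hk]; field_simp; ring
  rw [hA', hB']
  set z := E * (exp (a / 2))⁻¹ with hz
  set w := E * (exp (b / 2))⁻¹ with hw
  have hz1 : z ≤ 1 := by
    rw [hz, ← div_eq_mul_inv, div_le_one xa]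
    exact exp_le_exp.mpr (by linarith)
  have hz0 : 0 < z := by positivity
  have hwz : w = z * exp (-((b - a) / 2)) := by
    have h0 : exp (-(b / 2)) = exp (-(a / 2)) * exp (-((b - a) / 2)) := by
      rw [← exp_add]; congr 1; ring
    rw [hw, hz, ← exp_neg, ← exp_neg, h0, mul_assoc]
  have h1 : 1 - (b - a) / 2 ≤ exp (-((b - a) / 2)) := by
    linarith [add_one_le_exp (-((b - a) / 2))]
  have h2 : z - w ≤ (b - a) / 2 := by
    rw [hwz]
    have : z * (1 - (b - a) / 2) ≤ z * exp (-((b - a) / 2)) :=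
      mul_le_mul_of_nonneg_left h1 hz0.le
    nlinarith
  have h3 : w ≤ z := by
    rw [hwz]
    have : exp (-((b - a) / 2)) ≤ 1 := exp_le_one_iff.mpr (by linarith)
    nlinarith
  have h4 : 2 * E * (a - 47 / 10) + k + 4 / 3 * E * z ≤ 2 * E * (b - 47 / 10) + k +
      4 / 3 * E * w := by
    have : 0 ≤ E * ((b - a) * 2 - 4 / 3 * (z - w)) := mul_nonneg E0.le (by linarith)
    nlinarith
  have h5 := mul_le_mul_of_nonneg_left h4 pi_pos.le
  have h6 : 0 ≤ E * (z - w) := mul_nonneg E0.le (by linarith)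
  have h7 : 7 / 5 * E * (2 - z) ≤ 7 / 5 * E * (2 - w) := by linarith
  exact add_le_add h5 h7

lemma mono (a b : ℝ) (hab : a ≤ b) : B8 a * exp (a / 2) ≤ B8 b * exp (b / 2) := by
  rcases le_total b 3 with h | h
  · exact mono1 a b hab h
  · rcases le_total b (57 / 10) with h' | h'
    · rcases le_total a 3 with g | g
      · exact (mono1 a 3 g le_rfl).trans (mono2 3 b le_rfl h h')
      · exact mono2 a b g hab h'
    · have h57 := mono3 (57 / 10) b le_rfl h'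
      rcases le_total a 3 with g | g
      · exact (mono1 a 3 g le_rfl).trans
          ((mono2 3 (57 / 10) le_rfl (by norm_num) le_rfl).trans h57)
      · rcases le_total a (57 / 10) with g' | g'
        · exact (mono2 a (57 / 10) g g' le_rfl).trans h57
        · exact mono3 a b g' hab


/-! ### monotonicity of `B8` on `[0, 3]` -/

lemma monoB (a b : ℝ) (ha : 0 ≤ a) (hab : a ≤ b) (hb : b ≤ 3) : B8 a ≤ B8 b := by
  rw [form1 a (hab.trans hb), form1 b hb]
  have e1 : 22313015 / 100000000 ≤ (exp (3 / 2 : ℝ))⁻¹ := le_inv_e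
  have c1 : (exp (57 / 20 : ℝ))⁻¹ ≤ 57844322 / 1000000000 := inv_E_le
  have c0 : 0 < (exp (57 / 20 : ℝ))⁻¹ := inv_pos.mpr (exp_pos _)
  generalize (exp (3 / 2 : ℝ))⁻¹ = e at *
  generalize (exp (57 / 20 : ℝ))⁻¹ = c at *
  have hmon : MonotoneOn (fun L : ℝ => exp (L / 2) * (e * (6 - L) - 2 / 3 * c) +
      exp (-(L / 2)) * (4 * e - 2 / 3 * c)) (Set.Icc 0 3) := by
    have hd : ∀ L : ℝ, HasDerivAt (fun L : ℝ => exp (L / 2) * (e * (6 - L) - 2 / 3 * c) +
        exp (-(L / 2)) * (4 * e - 2 / 3 * c))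
        ((exp (L / 2) * (1 / 2)) * (e * (6 - L) - 2 / 3 * c) + exp (L / 2) * (e * (0 - 1)) +
          exp (-(L / 2)) * (-(1 / 2)) * (4 * e - 2 / 3 * c)) L := by
      intro L
      have h1 : HasDerivAt (fun L : ℝ => exp (L / 2)) (exp (L / 2) * (1 / 2)) L :=
        (HasDerivAt.exp ((hasDerivAt_id L).div_const 2))
      have h2 : HasDerivAt (fun L : ℝ => exp (-(L / 2))) (exp (-(L / 2)) * (-(1 / 2))) L :=
        (HasDerivAt.exp (((hasDerivAt_id L).div_const 2).neg))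
      have h3 : HasDerivAt (fun L : ℝ => e * (6 - L) - 2 / 3 * c) (e * (0 - 1)) L := by
        have := (((hasDerivAt_const L (6 : ℝ)).sub (hasDerivAt_id L)).const_mul e).sub_const
          (2 / 3 * c)
        exact this
      exact (h1.mul h3).add (h2.mul_const _)
    refine monotoneOn_of_deriv_nonneg (convex_Icc 0 3)
      (fun L _ => (hd L).continuousAt.continuousWithinAt)
      (fun L _ => (hd L).differentiableAt.differentiableWithinAt) (fun L hL => ?_)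
    rw [(hd L).deriv]
    rw [interior_Icc] at hL
    obtain ⟨h0, h3⟩ := hL
    have hx : 0 < exp (-(L / 2)) := exp_pos _
    have hxx : exp (L / 2) = exp (-(L / 2)) * exp L := by
      rw [← exp_add]; congr 1; ring
    have hq : 1 + L + L ^ 2 / 2 ≤ exp L := quadratic_le_exp_of_nonneg h0.le
    rw [hxx]
    have key : 0 ≤ exp L * (e * (2 - L / 2) - c / 3) - (2 * e - c / 3) := by
      have g1 : 0 ≤ e * (2 - L / 2) - c / 3 := by nlinarith
      have g2 : (1 + L + L ^ 2 / 2) * (e * (2 - L / 2) - c / 3) ≤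
          exp L * (e * (2 - L / 2) - c / 3) := mul_le_mul_of_nonneg_right hq g1
      have g3 : 0 ≤ (1 + L + L ^ 2 / 2) * (e * (2 - L / 2) - c / 3) - (2 * e - c / 3) := by
        have g4 : (1 + L + L ^ 2 / 2) * (e * (2 - L / 2) - c / 3) - (2 * e - c / 3)
            = L * (e * (3 / 2 + L / 2 - L ^ 2 / 4) - c / 3 * (1 + L / 2)) := by ring
        rw [g4]
        refine mul_nonneg h0.le ?_
        have g5 : (3 : ℝ) / 4 ≤ 3 / 2 + L / 2 - L ^ 2 / 4 := by nlinarith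
        have g6 : e * (3 / 4) ≤ e * (3 / 2 + L / 2 - L ^ 2 / 4) :=
          mul_le_mul_of_nonneg_left g5 (by linarith)
        have g7 : c / 3 * (1 + L / 2) ≤ c / 3 * (5 / 2) :=
          mul_le_mul_of_nonneg_left (by linarith) (by linarith)
        linarith
      linarith
    have : exp (-(L / 2)) * exp L * (1 / 2) * (e * (6 - L) - 2 / 3 * c) +
        exp (-(L / 2)) * exp L * (e * (0 - 1)) + exp (-(L / 2)) * (-(1 / 2)) * (4 * e - 2 / 3 * c)
        = exp (-(L / 2)) * (exp L * (e * (2 - L / 2) - c / 3) - (2 * e - c / 3)) := by ring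
    rw [this]
    exact mul_nonneg hx.le key
  have h1 := hmon ⟨ha, hab.trans hb⟩ ⟨ha.trans hab, hb⟩ hab
  simp only [exp_neg] at h1
  have h2 : exp (a / 2) ≤ exp (b / 2) := exp_le_exp.mpr (by linarith)
  have h3 := mul_le_mul_of_nonneg_left h1 pi_pos.le
  have h4 : e * exp (a / 2) ≤ e * exp (b / 2) := mul_le_mul_of_nonneg_left h2 (by linarith)
  linarith

/-! ### upper bounds -/

lemma pi_lt : π < 3141593 / 1000000 := by
  have := pi_lt_d6
  norm_num at this ⊢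
  exact this

lemma lt_pi : 3141592 / 1000000 < π := by
  have := pi_gt_d6
  norm_num at this ⊢
  exact this

/-- the constant `-k` -/
lemma k_lo : 36278 / 10000 - 1 / 10000 ≤
    exp (3 / 2 : ℝ) - 4 * (exp (3 / 2 : ℝ))⁻¹ + 2 / 3 * (exp (57 / 20 : ℝ))⁻¹ := by
  have h1 := le_e32
  have h2 := inv_e_le
  have h3 := le_inv_E
  linarith

lemma val1 (L x1 x2 b : ℝ) (hL : L ≤ 3) (hx1 : 0 < x1) (h1 : x1 ≤ exp (L / 2))
    (h2 : exp (L / 2) ≤ x2)
    (hb : 3141593 / 1000000 * (x2 * (22313017 / 100000000 * (6 - L) - 2 / 3 * (57844318 / 1000000000))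
      + x1⁻¹ * (4 * (22313017 / 100000000) - 2 / 3 * (57844318 / 1000000000)))
      + 7 / 5 * (22313017 / 100000000 * x2) ≤ b) : B8 L ≤ b := by
  rw [form1 L hL]
  refine le_trans ?_ hb
  have e1 := le_inv_e
  have e2 := inv_e_le
  have c1 := le_inv_E
  have c2 := inv_E_le
  generalize (exp (3 / 2 : ℝ))⁻¹ = e at *
  generalize (exp (57 / 20 : ℝ))⁻¹ = c at *
  have hx := exp_pos (L / 2)
  generalize exp (L / 2) = x at *
  have A : 0 ≤ e * (6 - L) - 2 / 3 * c := by nlinarith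
  have A' : e * (6 - L) - 2 / 3 * c ≤ 22313017 / 100000000 * (6 - L) -
      2 / 3 * (57844318 / 1000000000) := by nlinarith
  have B : 0 ≤ 4 * e - 2 / 3 * c := by linarith
  have B' : 4 * e - 2 / 3 * c ≤ 4 * (22313017 / 100000000) - 2 / 3 * (57844318 / 1000000000) := by
    linarith
  have C : x⁻¹ ≤ x1⁻¹ := inv_anti₀ hx1 h1
  have hx2 : 0 ≤ x2 := hx.le.trans h2
  have D1 := mul_le_mul h2 A' A hx2
  have D2 := mul_le_mul C B' B (inv_nonneg.mpr hx1.le)
  have D3 : x * (e * (6 - L) - 2 / 3 * c) + x⁻¹ * (4 * e - 2 / 3 * c) ≤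
    x2 * (22313017 / 100000000 * (6 - L) - 2 / 3 * (57844318 / 1000000000))
      + x1⁻¹ * (4 * (22313017 / 100000000) - 2 / 3 * (57844318 / 1000000000)) := by linarith
  have D4 : 0 ≤ x * (e * (6 - L) - 2 / 3 * c) + x⁻¹ * (4 * e - 2 / 3 * c) := by positivity
  have D5 := mul_le_mul pi_lt.le D3 D4 (by norm_num)
  have D6 := mul_le_mul e2 h2 hx.le (by norm_num : (0 : ℝ) ≤ 22313017 / 100000000)
  linarith

lemma val2 (L x1 x2 b : ℝ) (hL : 3 ≤ L) (hL' : L ≤ 57 / 10) (hx1 : 0 < x1)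
    (h1 : x1 ≤ exp (L / 2)) (h2 : exp (L / 2) ≤ x2)
    (hb : 3141593 / 1000000 * (4 * x2 - 2 / 3 * (57844318 / 1000000000) * x1 ^ 2 -
      (36278 / 10000 - 1 / 10000)) + 7 / 5 * x2 ≤ b) : B8 L * exp (L / 2) ≤ b := by
  rw [form2 L hL hL']
  refine le_trans ?_ hb
  have k := k_lo
  have c1 := le_inv_E
  have hxE : exp (L / 2) ≤ exp (57 / 20) := exp_le_exp.mpr (by linarith)
  have hcE : (exp (57 / 20 : ℝ))⁻¹ * exp (57 / 20) = 1 := inv_mul_cancel₀ (exp_pos _).ne'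
  have hx0 := exp_pos (L / 2)
  have hx3 : exp (3 / 2) ≤ exp (L / 2) := exp_le_exp.mpr (by linarith)
  have c0 : 0 < (exp (57 / 20 : ℝ))⁻¹ := inv_pos.mpr (exp_pos _)
  have e0 : 0 < (exp (3 / 2 : ℝ))⁻¹ := inv_pos.mpr (exp_pos _)
  have hcx : (exp (57 / 20 : ℝ))⁻¹ * exp (L / 2) ≤ 1 := by
    rw [← hcE]; exact mul_le_mul_of_nonneg_left hxE c0.le
  have eq : (π * (4 - 2 / 3 * (exp (57 / 20))⁻¹ * exp (L / 2) -
      (exp (3 / 2) - 4 * (exp (3 / 2))⁻¹ + 2 / 3 * (exp (57 / 20))⁻¹) * (exp (L / 2))⁻¹) + 7 / 5) *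
      exp (L / 2) = π * (4 * exp (L / 2) - 2 / 3 * ((exp (57 / 20))⁻¹ * exp (L / 2) ^ 2) -
      (exp (3 / 2) - 4 * (exp (3 / 2))⁻¹ + 2 / 3 * (exp (57 / 20))⁻¹)) + 7 / 5 * exp (L / 2) := by
    field_simp
  rw [eq]
  have hk : exp (3 / 2 : ℝ) - 4 * (exp (3 / 2 : ℝ))⁻¹ + 2 / 3 * (exp (57 / 20 : ℝ))⁻¹ ≤
      exp (L / 2) := by
    have := inv_E_le
    have := le_inv_e
    linarith
  generalize exp (3 / 2 : ℝ) - 4 * (exp (3 / 2 : ℝ))⁻¹ + 2 / 3 * (exp (57 / 20 : ℝ))⁻¹ = K at *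
  generalize (exp (57 / 20 : ℝ))⁻¹ = c at *
  generalize exp (L / 2) = x at *
  have D1 : x1 ^ 2 ≤ x ^ 2 := pow_le_pow_left₀ hx1.le h1 2
  have D2 : 57844318 / 1000000000 * x1 ^ 2 ≤ c * x ^ 2 :=
    mul_le_mul c1 D1 (by positivity) c0.le
  have D3 : 0 ≤ 4 * x - 2 / 3 * (c * x ^ 2) - K := by nlinarith
  have D5 := mul_le_mul pi_lt.le (show 4 * x - 2 / 3 * (c * x ^ 2) - K ≤
    4 * x2 - 2 / 3 * (57844318 / 1000000000) * x1 ^ 2 - (36278 / 10000 - 1 / 10000) by linarith)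
    D3 (by norm_num)
  linarith

lemma val3 (L x1 x2 b : ℝ) (hL : 57 / 10 ≤ L) (hx1 : 0 < x1)
    (h1 : x1 ≤ exp (L / 2)) (h2 : exp (L / 2) ≤ x2)
    (hb : 3141593 / 1000000 * (2 * (172877820 / 10000000) * (L - 47 / 10) -
      (36278 / 10000 - 1 / 10000) + 4 / 3 * ((172877820 / 10000000) ^ 2 * x1⁻¹)) +
      7 / 5 * ((172877820 / 10000000) * (2 - (172877816 / 10000000) * x2⁻¹)) ≤ b) :
    B8 L * exp (L / 2) ≤ b := by
  rw [form3 L hL]
  refine le_trans ?_ hb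
  have k := k_lo
  have E1 := le_E
  have E2 := E_le
  have hx0 := exp_pos (L / 2)
  have hxE : exp (57 / 20) ≤ exp (L / 2) := exp_le_exp.mpr (by linarith)
  have hE0 := exp_pos (57 / 20 : ℝ)
  have c2 := inv_E_le
  have e2 := e32_le
  have e0 : 0 < (exp (3 / 2 : ℝ))⁻¹ := inv_pos.mpr (exp_pos _)
  have eq : (π * ((exp (L / 2))⁻¹ *
      (2 * exp (57 / 20) * (L - 47 / 10) + 4 * (exp (3 / 2))⁻¹ - exp (3 / 2)
        - 2 / 3 * (exp (57 / 20))⁻¹) + 4 / 3 * (exp (57 / 20) * (exp (L / 2))⁻¹) ^ 2) +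
      7 / 5 * (1 - (1 - exp (57 / 20) * (exp (L / 2))⁻¹) ^ 2)) * exp (L / 2) =
      π * (2 * exp (57 / 20) * (L - 47 / 10) -
        (exp (3 / 2) - 4 * (exp (3 / 2))⁻¹ + 2 / 3 * (exp (57 / 20))⁻¹)
        + 4 / 3 * (exp (57 / 20) ^ 2 * (exp (L / 2))⁻¹)) +
      7 / 5 * (exp (57 / 20) * (2 - exp (57 / 20) * (exp (L / 2))⁻¹)) := by
    field_simp; ring
  rw [eq]
  have hk : exp (3 / 2 : ℝ) - 4 * (exp (3 / 2 : ℝ))⁻¹ + 2 / 3 * (exp (57 / 20 : ℝ))⁻¹ ≤ 5 := by
    linarith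
  generalize exp (3 / 2 : ℝ) - 4 * (exp (3 / 2 : ℝ))⁻¹ + 2 / 3 * (exp (57 / 20 : ℝ))⁻¹ = K at *
  generalize exp (57 / 20 : ℝ) = E at *
  generalize exp (L / 2) = x at *
  have C : x⁻¹ ≤ x1⁻¹ := inv_anti₀ hx1 h1
  have C' : x2⁻¹ ≤ x⁻¹ := inv_anti₀ hx0 h2
  have xi : 0 < x⁻¹ := inv_pos.mpr hx0
  have x2i : 0 < x2⁻¹ := inv_pos.mpr (hx0.trans_le h2)
  have D1 : E ^ 2 * x⁻¹ ≤ (172877820 / 10000000) ^ 2 * x1⁻¹ :=
    mul_le_mul (pow_le_pow_left₀ hE0.le E2 2) C xi.le (by norm_num)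
  have D2 : E * (L - 47 / 10) ≤ (172877820 / 10000000) * (L - 47 / 10) :=
    mul_le_mul_of_nonneg_right E2 (by linarith)
  have D3 : 0 ≤ 2 * E * (L - 47 / 10) - K + 4 / 3 * (E ^ 2 * x⁻¹) := by
    have : 0 ≤ E ^ 2 * x⁻¹ := by positivity
    nlinarith
  have D4 : 172877816 / 10000000 * x2⁻¹ ≤ E * x⁻¹ := mul_le_mul E1 C' x2i.le hE0.le
  have D5 : E * x⁻¹ ≤ 1 := by rw [← div_eq_mul_inv, div_le_one hx0]; exact hxE
  have D6 : E * (2 - E * x⁻¹) ≤ 172877820 / 10000000 * (2 - 172877816 / 10000000 * x2⁻¹) :=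
    mul_le_mul E2 (by linarith) (by linarith) (by norm_num)
  have D7 := mul_le_mul pi_lt.le (show 2 * E * (L - 47 / 10) - K + 4 / 3 * (E ^ 2 * x⁻¹) ≤
    2 * (172877820 / 10000000) * (L - 47 / 10) -
      (36278 / 10000 - 1 / 10000) + 4 / 3 * ((172877820 / 10000000) ^ 2 * x1⁻¹) by linarith)
    D3 (by norm_num)
  linarith

lemma val4 (L : ℝ) (hL : 69 / 10 ≤ L) : B8 L * exp (L / 2) ≤ 109 * L - 434 := by
  rw [form3 L (by linarith)]
  have k := k_lo
  have E1 := le_E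
  have E2 := E_le
  have hx0 := exp_pos (L / 2)
  have hx1 : 315003920 / 10000000 ≤ exp (L / 2) :=
    le_trans (by norm_num) (le_x14.trans (exp_le_exp.mpr (by linarith)))
  have hE0 := exp_pos (57 / 20 : ℝ)
  have c2 := inv_E_le
  have e2 := e32_le
  have e0 : 0 < (exp (3 / 2 : ℝ))⁻¹ := inv_pos.mpr (exp_pos _)
  have eq : (π * ((exp (L / 2))⁻¹ *
      (2 * exp (57 / 20) * (L - 47 / 10) + 4 * (exp (3 / 2))⁻¹ - exp (3 / 2)
        - 2 / 3 * (exp (57 / 20))⁻¹) + 4 / 3 * (exp (57 / 20) * (exp (L / 2))⁻¹) ^ 2) +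
      7 / 5 * (1 - (1 - exp (57 / 20) * (exp (L / 2))⁻¹) ^ 2)) * exp (L / 2) =
      π * (2 * exp (57 / 20) * (L - 47 / 10) -
        (exp (3 / 2) - 4 * (exp (3 / 2))⁻¹ + 2 / 3 * (exp (57 / 20))⁻¹)
        + 4 / 3 * (exp (57 / 20) ^ 2 * (exp (L / 2))⁻¹)) +
      7 / 5 * (exp (57 / 20) * (2 - exp (57 / 20) * (exp (L / 2))⁻¹)) := by
    field_simp; ring
  rw [eq]
  have hk : exp (3 / 2 : ℝ) - 4 * (exp (3 / 2 : ℝ))⁻¹ + 2 / 3 * (exp (57 / 20 : ℝ))⁻¹ ≤ 5 := by
    linarith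
  generalize exp (3 / 2 : ℝ) - 4 * (exp (3 / 2 : ℝ))⁻¹ + 2 / 3 * (exp (57 / 20 : ℝ))⁻¹ = K at *
  generalize exp (57 / 20 : ℝ) = E at *
  generalize exp (L / 2) = x at *
  have C : x⁻¹ ≤ (315003920 / 10000000)⁻¹ := inv_anti₀ (by norm_num) hx1
  have xi : 0 < x⁻¹ := inv_pos.mpr hx0
  have D1 : E ^ 2 * x⁻¹ ≤ (172877820 / 10000000) ^ 2 * (315003920 / 10000000)⁻¹ :=
    mul_le_mul (pow_le_pow_left₀ hE0.le E2 2) C xi.le (by norm_num)
  have D2 : E * (L - 47 / 10) ≤ (172877820 / 10000000) * (L - 47 / 10) :=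
    mul_le_mul_of_nonneg_right E2 (by linarith)
  have D3 : 0 ≤ 2 * E * (L - 47 / 10) - K + 4 / 3 * (E ^ 2 * x⁻¹) := by
    have : 0 ≤ E ^ 2 * x⁻¹ := by positivity
    nlinarith
  have D4 : 0 ≤ E * x⁻¹ := by positivity
  have D6 : E * (2 - E * x⁻¹) ≤ 172877820 / 10000000 * 2 := by nlinarith
  have D7 := mul_le_mul pi_lt.le (show 2 * E * (L - 47 / 10) - K + 4 / 3 * (E ^ 2 * x⁻¹) ≤
    2 * (172877820 / 10000000) * (L - 47 / 10) -
      (36278 / 10000 - 1 / 10000) +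
      4 / 3 * ((172877820 / 10000000) ^ 2 * (315003920 / 10000000)⁻¹) by linarith)
    D3 (by norm_num)
  norm_num at D7 ⊢
  linarith

lemma B8_nonneg (L : ℝ) (hL : 0 ≤ L) : 0 ≤ B8 L := by
  have h := mono 0 L hL
  have h0 : 0 ≤ B8 0 := by
    rw [form1 0 (by norm_num)]
    have e1 := le_inv_e
    have c2 := inv_E_le
    generalize (exp (3 / 2 : ℝ))⁻¹ = e at *
    generalize (exp (57 / 20 : ℝ))⁻¹ = c at *
    have A : 0 ≤ e * (6 - 0) - 2 / 3 * c := by nlinarith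
    have B : 0 ≤ 4 * e - 2 / 3 * c := by linarith
    have e0 : 0 ≤ e := le_trans (by norm_num) e1
    positivity
  have h1 : 0 ≤ B8 L * exp (L / 2) := le_trans (by positivity) h
  exact nonneg_of_mul_nonneg_left h1 (exp_pos _)

lemma upper2 (L : ℝ) (hL : 3 ≤ L) (hL' : L ≤ 57 / 10) : B8 L ≤ 1163 / 100 := by
  rw [form2 L hL hL']
  have k := k_lo
  have c1 := le_inv_E
  generalize exp (3 / 2 : ℝ) - 4 * (exp (3 / 2 : ℝ))⁻¹ + 2 / 3 * (exp (57 / 20 : ℝ))⁻¹ = K at *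
  generalize (exp (57 / 20 : ℝ))⁻¹ = c at *
  have hx := exp_pos (L / 2)
  generalize exp (L / 2) = x at *
  have hxi : 0 < x⁻¹ := inv_pos.mpr hx
  have hxx : x * x⁻¹ = 1 := mul_inv_cancel₀ hx.ne'
  have hc0 : 0 < c := lt_of_lt_of_le (by norm_num) c1
  have hK0 : 0 < K := lt_of_lt_of_le (by norm_num) k
  have h1 : (745 / 1000 : ℝ) ≤ 2 / 3 * c * x + K * x⁻¹ := by
    have hpos : 0 ≤ 2 / 3 * c * x + K * x⁻¹ := by positivity
    have hsq : (745 / 1000 : ℝ) ^ 2 ≤ (2 / 3 * c * x + K * x⁻¹) ^ 2 := by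
      have h2 : (2 / 3 * c * x + K * x⁻¹) ^ 2 =
          (2 / 3 * c * x - K * x⁻¹) ^ 2 + 4 * (2 / 3 * c) * K * (x * x⁻¹) := by ring
      rw [h2, hxx]
      have h3 : (57844318 / 1000000000 : ℝ) * (36278 / 10000 - 1 / 10000) ≤ c * K :=
        mul_le_mul c1 k (by norm_num) hc0.le
      have h4 := sq_nonneg (2 / 3 * c * x - K * x⁻¹)
      nlinarith
    exact le_of_sq_le_sq hsq hpos
  have h2 : π * (4 - 2 / 3 * c * x - K * x⁻¹) ≤ 3141593 / 1000000 * (4 - 745 / 1000) := by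
    calc π * (4 - 2 / 3 * c * x - K * x⁻¹) ≤ π * (4 - 745 / 1000) :=
          mul_le_mul_of_nonneg_left (by linarith) pi_pos.le
      _ ≤ _ := mul_le_mul_of_nonneg_right pi_lt.le (by norm_num)
  linarith

lemma upper3 (L : ℝ) (hL : 57 / 10 ≤ L) : B8 L ≤ 1163 / 100 := by
  rw [form3 L hL]
  have k := k_lo
  have E1 := le_E
  have E2 := E_le
  have hx0 := exp_pos (L / 2)
  have hE0 := exp_pos (57 / 20 : ℝ)
  obtain ⟨s, hs⟩ : ∃ s, s = (L - 57 / 10) / 2 := ⟨_, rfl⟩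
  have hs0 : 0 ≤ s := by rw [hs]; linarith
  have hz : exp (57 / 20) * (exp (L / 2))⁻¹ = exp (-s) := by
    rw [← exp_neg, ← exp_add, hs]; congr 1; ring
  have hxz : (exp (L / 2))⁻¹ = exp (-s) * (exp (57 / 20))⁻¹ := by
    rw [← hz]; field_simp
  have hLs : L - 47 / 10 = 1 + 2 * s := by rw [hs]; ring
  have eq : (exp (L / 2))⁻¹ * (2 * exp (57 / 20) * (L - 47 / 10) + 4 * (exp (3 / 2))⁻¹
        - exp (3 / 2) - 2 / 3 * (exp (57 / 20))⁻¹) = exp (-s) * (2 + 4 * s -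
        (exp (3 / 2 : ℝ) - 4 * (exp (3 / 2 : ℝ))⁻¹ + 2 / 3 * (exp (57 / 20 : ℝ))⁻¹) *
        (exp (57 / 20))⁻¹) := by
    rw [hxz, hLs]; field_simp; ring
  rw [eq, hz]
  have hκ : (2098 / 10000 : ℝ) ≤ (exp (3 / 2 : ℝ) - 4 * (exp (3 / 2 : ℝ))⁻¹ +
      2 / 3 * (exp (57 / 20 : ℝ))⁻¹) * (exp (57 / 20))⁻¹ := by
    refine le_trans ?_ (mul_le_mul k le_inv_E (by norm_num) (le_trans (by norm_num) k))
    norm_num
  generalize (exp (3 / 2 : ℝ) - 4 * (exp (3 / 2 : ℝ))⁻¹ +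
      2 / 3 * (exp (57 / 20 : ℝ))⁻¹) * (exp (57 / 20))⁻¹ = κ at *
  have hz0 : 0 < exp (-s) := exp_pos _
  have hz1 : exp (-s) ≤ 1 := exp_le_one_iff.mpr (by linarith)
  have h1 : exp (-s) * (1 + s) ≤ 1 := by
    have h2 : 1 + s ≤ exp s := by linarith [add_one_le_exp s]
    calc exp (-s) * (1 + s) ≤ exp (-s) * exp s := mul_le_mul_of_nonneg_left h2 hz0.le
      _ = 1 := by rw [← exp_add]; simp
  have h2 : exp (-s) * s ≤ 1 / 2 := by
    have h3 : 2 * s ≤ exp s := by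
      have := quadratic_le_exp_of_nonneg hs0
      nlinarith [sq_nonneg (s - 1)]
    have h4 : exp (-s) * (2 * s) ≤ 1 := by
      calc exp (-s) * (2 * s) ≤ exp (-s) * exp s := mul_le_mul_of_nonneg_left h3 hz0.le
        _ = 1 := by rw [← exp_add]; simp
    linarith
  generalize exp (-s) = z at *
  have hzκ : 2098 / 10000 * z ≤ κ * z := mul_le_mul_of_nonneg_right hκ hz0.le
  have h3 : z * (2 + 4 * s - κ) + 4 / 3 * z ^ 2 ≤ 323 / 100 := by
    rcases le_total (1 / 2) z with h | h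
    · nlinarith [mul_nonneg (sub_nonneg.mpr h) (sub_nonneg.mpr hz1)]
    · nlinarith [mul_nonneg hz0.le (sub_nonneg.mpr h)]
  have h4 : π * (z * (2 + 4 * s - κ) + 4 / 3 * z ^ 2) ≤ 3141593 / 1000000 * (323 / 100) := by
    calc π * (z * (2 + 4 * s - κ) + 4 / 3 * z ^ 2) ≤ π * (323 / 100) :=
          mul_le_mul_of_nonneg_left h3 pi_pos.le
      _ ≤ _ := mul_le_mul_of_nonneg_right pi_lt.le (by norm_num)
  nlinarith [sq_nonneg (1 - z)]

lemma upper (L : ℝ) (hL : 0 ≤ L) : B8 L ≤ 1163 / 100 := by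
  rcases le_total L 3 with h | h
  · exact (monoB L 3 hL h le_rfl).trans (upper2 3 le_rfl (by norm_num))
  · rcases le_total L (57 / 10) with h' | h'
    · exact upper2 L h h'
    · exact upper3 L h'

end B8Aux

open B8Aux in
theorem b8facts : StmtB8 := by
  refine ⟨fun a b _ hab => mono a b hab, monoB, fun L hL => ⟨B8_nonneg L hL, upper L hL⟩,
    val4, ?_, ?_⟩
  · intro L b h
    simp only [List.mem_cons, Prod.mk.injEq, List.not_mem_nil, or_false] at h
    rcases h with ⟨rfl, rfl⟩ | ⟨rfl, rfl⟩ | ⟨rfl, rfl⟩ | ⟨rfl, rfl⟩ | ⟨rfl, rfl⟩ | ⟨rfl, rfl⟩ |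
      ⟨rfl, rfl⟩
    · exact val1 _ (10512709 / 10000000) (10512712 / 10000000) _ (by norm_num) (by norm_num) (by convert le_x0 using 2; norm_num)
        (by convert x0_le using 2; norm_num) (by norm_num)
    · exact val1 _ (11618341 / 10000000) (11618344 / 10000000) _ (by norm_num) (by norm_num) (by convert le_x1 using 2; norm_num)
        (by convert x1_le using 2; norm_num) (by norm_num)
    · exact val1 _ (12840253 / 10000000) (12840256 / 10000000) _ (by norm_num) (by norm_num) (by convert le_x2 using 2; norm_num)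
        (by convert x2_le using 2; norm_num) (by norm_num)
    · exact val1 _ (14549913 / 10000000) (14549916 / 10000000) _ (by norm_num) (by norm_num) (by convert le_x3 using 2; norm_num)
        (by convert x3_le using 2; norm_num) (by norm_num)
    · exact val1 _ (16487211 / 10000000) (16487214 / 10000000) _ (by norm_num) (by norm_num) le_x4 x4_le (by norm_num)
    · exact val1 _ (23988751 / 10000000) (23988754 / 10000000) _ (by norm_num) (by norm_num) (by convert le_x5 using 2; norm_num)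
        (by convert x5_le using 2; norm_num) (by norm_num)
    · exact val1 _ (34903428 / 10000000) (34903431 / 10000000) _ (by norm_num) (by norm_num) (by convert le_x6 using 2; norm_num)
        (by convert x6_le using 2; norm_num) (by norm_num)
  · intro L b h
    simp only [List.mem_cons, Prod.mk.injEq, List.not_mem_nil, or_false] at h
    rcases h with ⟨rfl, rfl⟩ | ⟨rfl, rfl⟩ | ⟨rfl, rfl⟩ | ⟨rfl, rfl⟩ | ⟨rfl, rfl⟩ | ⟨rfl, rfl⟩ |
      ⟨rfl, rfl⟩ | ⟨rfl, rfl⟩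
    · exact val2 _ (56125209 / 10000000) (56125212 / 10000000) _ (by norm_num) (by norm_num) (by norm_num)
        (by convert le_x7 using 2; norm_num) (by convert x7_le using 2; norm_num) (by norm_num)
    · exact val2 _ (65208190 / 10000000) (65208193 / 10000000) _ (by norm_num) (by norm_num) (by norm_num)
        (by convert le_x8 using 2; norm_num) (by convert x8_le using 2; norm_num) (by norm_num)
    · exact val2 _ (75383248 / 10000000) (75383251 / 10000000) _ (by norm_num) (by norm_num) (by norm_num)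
        (by convert le_x9 using 2; norm_num) (by convert x9_le using 2; norm_num) (by norm_num)
    · exact val2 _ (103812364 / 10000000) (103812367 / 10000000) _ (by norm_num) (by norm_num) (by norm_num)
        (by convert le_x10 using 2; norm_num) (by convert x10_le using 2; norm_num) (by norm_num)
    · exact val2 _ (143679494 / 10000000) (143679497 / 10000000) _ (by norm_num) (by norm_num) (by norm_num)
        (by convert le_x11 using 2; norm_num) (by convert x11_le using 2; norm_num) (by norm_num)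
    · exact val3 _ (198856822 / 10000000) (198856826 / 10000000) _ (by norm_num) (by norm_num)
        (by convert le_x12 using 2; norm_num) (by convert x12_le using 2; norm_num) (by norm_num)
    · exact val3 _ (275223938 / 10000000) (275223941 / 10000000) _ (by norm_num) (by norm_num)
        (by convert le_x13 using 2; norm_num) (by convert x13_le using 2; norm_num) (by norm_num)
    · exact val3 _ (315003920 / 10000000) (315003925 / 10000000) _ (by norm_num) (by norm_num)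
        (by convert le_x14 using 2; norm_num) (by convert x14_le using 2; norm_num) (by norm_num)

end Pool.Agent.Lib.MP_dd244f_an.Rq
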