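import Pool.Agent.Lib.MP_dd244f_an.Rq.Stmts

/-!
Module (Cell): pointwise comparison of the kernels on `[1/10, 69/10]`.
-/

set_option autoImplicit false

namespace Pool.Agent.Lib.MP_dd244f_an.Rq

open Real

/-- upper bound of `exp (-x)` by a Taylor polynomial of `exp x` -/
theorem cell_exp_neg_le (n : ℕ) (x b : ℝ) (hx : 0 ≤ x) (hb : 0 ≤ b)
    (h : 1 ≤ b * ∑ i ∈ Finset.range n, x ^ i / (i.factorial : ℝ)) : Real.exp (-x) ≤ b := by
  have h1 := Real.sum_le_exp_of_nonneg hx n
  have h2 : 1 ≤ b * Real.exp x := h.trans (mul_le_mul_of_nonneg_left h1 hb)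
  rw [Real.exp_neg]
  have h3 := Real.exp_pos x
  rw [inv_le_iff_one_le_mul₀ h3]
  exact h2

/-- decreasing majorant of `kap` -/
theorem cell_kap_le (hK : StmtKap) (a L c e1 e2 : ℝ) (ha : 0 < a) (hL : a ≤ L)
    (h1 : Real.exp (-(a / 2)) ≤ e1) (h2 : Real.exp (-(2 * a)) ≤ e2) (h3 : e2 < 1) (hc : 0 ≤ c)
    (h4 : (2 * (31416 / 10000) * e1) ^ 4 ≤ c ^ 4 * (1 - e2)) : kap L ≤ c := by
  obtain ⟨-, -, hk, -⟩ := hK
  have hL0 : 0 < L := lt_of_lt_of_le ha hL
  refine (hk L hL0).2.trans ?_
  have hE : Real.exp (-(2 * L)) ≤ e2 := by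
    refine le_trans (Real.exp_le_exp.2 ?_) h2
    linarith
  have he : Real.exp (-(L / 2)) ≤ e1 := by
    refine le_trans (Real.exp_le_exp.2 ?_) h1
    linarith
  have hpi := Real.pi_lt_d4
  have hpi0 := Real.pi_pos
  have he0 := Real.exp_pos (-(L / 2))
  have hd : 0 < 1 - e2 := by linarith
  have hle : (1 - Real.exp (-(2 * L))) ^ (-(1 / 4) : ℝ) ≤ (1 - e2) ^ (-(1 / 4) : ℝ) := by
    refine Real.rpow_le_rpow_of_nonpos hd ?_ (by norm_num)
    linarith
  have hr0 : 0 ≤ (1 - e2) ^ (-(1 / 4) : ℝ) := Real.rpow_nonneg hd.le _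
  have hA : 2 * Real.pi * Real.exp (-(L / 2)) ≤ 2 * (31416 / 10000) * e1 := by
    have h5 : Real.pi ≤ 31416 / 10000 := by
      have := hpi
      norm_num at this ⊢
      linarith
    nlinarith
  have hA0 : 0 ≤ 2 * Real.pi * Real.exp (-(L / 2)) := by positivity
  have hB : 2 * Real.pi * Real.exp (-(L / 2)) * (1 - Real.exp (-(2 * L))) ^ (-(1 / 4) : ℝ)
      ≤ 2 * (31416 / 10000) * e1 * (1 - e2) ^ (-(1 / 4) : ℝ) := by
    have h6 : 0 ≤ (1 - Real.exp (-(2 * L))) ^ (-(1 / 4) : ℝ) := by
      apply Real.rpow_nonneg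
      linarith
    exact mul_le_mul hA hle h6 (hA0.trans hA)
  refine hB.trans ?_
  refine le_of_pow_le_pow_left₀ (n := 4) (by norm_num) hc ?_
  rw [mul_pow, ← Real.rpow_natCast ((1 - e2) ^ (-(1 / 4) : ℝ)) 4, ← Real.rpow_mul hd.le]
  have h7 : (-(1 / 4) : ℝ) * ((4 : ℕ) : ℝ) = -1 := by norm_num
  rw [h7, Real.rpow_neg_one, ← div_eq_mul_inv, div_le_iff₀ hd]
  exact h4

/-- near and middle range -/
theorem cell_near (hB : StmtBm) (h8 : StmtB8) (hK : StmtKap) (a c u v e1 e2 : ℝ) (ha : 0 < a)
    (hc3 : c ≤ 3) (h1 : Real.exp (-(a / 2)) ≤ e1) (h2 : Real.exp (-(2 * a)) ≤ e2) (h3 : e2 < 1)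
    (hv : 0 ≤ v) (h4 : (2 * (31416 / 10000) * e1) ^ 4 ≤ v ^ 4 * (1 - e2))
    (h5 : B8 c ≤ u) (L : ℝ) (hL : a ≤ L) (hLc : L ≤ c) : 8 * Bm L * kap L ≤ u * v := by
  have hL0 : 0 < L := lt_of_lt_of_le ha hL
  have hk := cell_kap_le hK a L v e1 e2 ha hL h1 h2 h3 hv h4
  have hk0 : 0 ≤ kap L := (hK.2.1 L).1
  have hb : 8 * Bm L ≤ B8 L := hB.2.2.1 L hL0.le
  have hb0 : 0 ≤ Bm L := (hB.2.1 L).1
  have hm : B8 L ≤ B8 c := h8.2.1 L c hL0.le hLc hc3
  have h6 : 8 * Bm L ≤ u := by linarith
  have h7 : 0 ≤ u := by linarith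
  exact mul_le_mul h6 hk hk0 h7

/-- far range -/
theorem cell_far (hB : StmtBm) (h8 : StmtB8) (hK : StmtKap) (c S b x : ℝ)
    (hS : B8 c * Real.exp (c / 2) ≤ S) (hx : 0 ≤ x) (L : ℝ) (hL : 5 / 2 ≤ L) (hLc : L ≤ c)
    (hnum : S * (1014 / 1000) + x * (1007 / 1000) ≤ b) (hkg : b * Real.pi / Real.cosh L ≤ kg L) :
    8 * Bm L * kap L + 2 * Real.pi * x * Real.exp (-L) ≤ kg L := by
  have hL0 : 0 < L := by linarith
  have hb : 8 * Bm L ≤ B8 L := hB.2.2.1 L hL0.le
  have hb0 : 0 ≤ Bm L := (hB.2.1 L).1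
  have hk0 : 0 ≤ kap L := (hK.2.1 L).1
  have hk := (hK.2.2.1 L hL0).2
  have h5 : Real.exp (-(2 * L)) ≤ 68 / 10000 := by
    refine le_trans (Real.exp_le_exp.2 (show -(2 * L) ≤ -5 by linarith)) ?_
    refine cell_exp_neg_le 16 5 _ (by norm_num) (by norm_num) ?_
    norm_num [Finset.sum_range_succ, Nat.factorial]
  have h5p := Real.exp_pos (-(2 * L))
  set E := Real.exp (-(2 * L)) with hE
  have hpi0 := Real.pi_pos
  have hrp : (1 - E) ^ (-(1 / 4) : ℝ) ≤ 10069 / 10000 := by
    have h6 : (1 - E) ^ (-(1 / 4) : ℝ) ≤ (1 - E) ^ (-1 : ℝ) :=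
      Real.rpow_le_rpow_of_exponent_ge (by linarith) (by linarith) (by norm_num)
    refine h6.trans ?_
    rw [Real.rpow_neg_one, inv_le_iff_one_le_mul₀ (by linarith)]
    nlinarith
  have hrp0 : 0 ≤ (1 - E) ^ (-(1 / 4) : ℝ) := Real.rpow_nonneg (by linarith) _
  have hmul : 8 * Bm L * kap L
      ≤ B8 L * (2 * Real.pi * Real.exp (-(L / 2)) * (1 - E) ^ (-(1 / 4) : ℝ)) :=
    mul_le_mul hb hk hk0 (by linarith)
  have hsplit : Real.exp (-(L / 2)) = Real.exp (-L) * Real.exp (L / 2) := by
    rw [← Real.exp_add]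
    congr 1
    ring
  have hmono : B8 L * Real.exp (L / 2) ≤ S := (h8.1 L c hL0.le hLc).trans hS
  have h80 : 0 ≤ B8 L := (h8.2.2.1 L hL0.le).1
  have hS0 : 0 ≤ B8 L * Real.exp (L / 2) := mul_nonneg h80 (Real.exp_pos _).le
  have heL := Real.exp_pos (-L)
  have h9 : B8 L * (2 * Real.pi * Real.exp (-(L / 2)) * (1 - E) ^ (-(1 / 4) : ℝ))
      ≤ 2 * Real.pi * Real.exp (-L) * (S * (10069 / 10000)) := by
    rw [hsplit]
    have h10 : B8 L * (2 * Real.pi * (Real.exp (-L) * Real.exp (L / 2)) *
        (1 - E) ^ (-(1 / 4) : ℝ)) = 2 * Real.pi * Real.exp (-L) *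
        ((B8 L * Real.exp (L / 2)) * (1 - E) ^ (-(1 / 4) : ℝ)) := by ring
    rw [h10]
    refine mul_le_mul_of_nonneg_left ?_ (by positivity)
    exact mul_le_mul hmono hrp hrp0 (by linarith)
  have hcosh : Real.cosh L = Real.exp L * (1 + E) / 2 := by
    rw [Real.cosh_eq, hE, mul_add, ← Real.exp_add]
    congr 2
    · ring
    · congr 1
      ring
  have hker : 2 * Real.pi * Real.exp (-L) * (S * (10069 / 10000) + x) ≤ b * Real.pi / Real.cosh L := by
    rw [hcosh, le_div_iff₀ (by positivity)]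
    have h11 : Real.exp (-L) * Real.exp L = 1 := by
      rw [← Real.exp_add]
      simp
    have h12 : 2 * Real.pi * Real.exp (-L) * (S * (10069 / 10000) + x) *
        (Real.exp L * (1 + E) / 2) = Real.pi * (Real.exp (-L) * Real.exp L) *
        ((S * (10069 / 10000) + x) * (1 + E)) := by ring
    rw [h12, h11, mul_one, mul_comm b]
    refine mul_le_mul_of_nonneg_left ?_ hpi0.le
    have hS1 : 0 ≤ S := hS0.trans hmono
    nlinarith
  calc 8 * Bm L * kap L + 2 * Real.pi * x * Real.exp (-L)
      ≤ 2 * Real.pi * Real.exp (-L) * (S * (10069 / 10000)) + 2 * Real.pi * x * Real.exp (-L) := by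
        linarith
    _ = 2 * Real.pi * Real.exp (-L) * (S * (10069 / 10000) + x) := by ring
    _ ≤ b * Real.pi / Real.cosh L := hker
    _ ≤ kg L := hkg

/-- the far term is decreasing -/
theorem cell_dec (a L : ℝ) (ha : 3 ≤ a) (hL : a ≤ L) :
    (218 * L - 434) * Real.exp (-L) ≤ (218 * a - 434) * Real.exp (-a) := by
  have h1 : Real.exp (-a) = Real.exp (-L) * Real.exp (L - a) := by
    rw [← Real.exp_add]
    congr 1
    ring
  rw [h1]
  have h2 := Real.add_one_le_exp (L - a)
  have h3 := Real.exp_pos (-L)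
  have h4 : 218 * L - 434 ≤ (218 * a - 434) * Real.exp (L - a) := by nlinarith
  nlinarith

/-- far range with the additional term -/
theorem cell_far2 (hB : StmtBm) (h8 : StmtB8) (hK : StmtKap) (a c S b e : ℝ) (ha : 3 ≤ a)
    (hS : B8 c * Real.exp (c / 2) ≤ S) (he : Real.exp (-a) ≤ e) (L : ℝ) (hL : a ≤ L) (hLc : L ≤ c)
    (hnum : S * (1014 / 1000) + 83 / 10 * ((218 * a - 434) * e) * (1007 / 1000) ≤ b)
    (hkg : b * Real.pi / Real.cosh L ≤ kg L) :
    8 * Bm L * kap L + 2 * Real.pi * (83 / 10) * (218 * L - 434) * Real.exp (-(2 * L)) ≤ kg L := by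
  have he0 : 0 ≤ e := (Real.exp_pos _).le.trans he
  have ha1 : 0 ≤ 218 * a - 434 := by linarith
  have h1 := cell_far hB h8 hK c S b (83 / 10 * ((218 * a - 434) * e)) hS
    (by positivity) L (by linarith) hLc hnum hkg
  refine le_trans ?_ h1
  have h2 := cell_dec a L ha hL
  have h3 : Real.exp (-(2 * L)) = Real.exp (-L) * Real.exp (-L) := by
    rw [← Real.exp_add]
    congr 1
    ring
  have h4 : (218 * L - 434) * Real.exp (-L) ≤ (218 * a - 434) * e :=
    h2.trans (mul_le_mul_of_nonneg_left he ha1)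
  have h5 := Real.exp_pos (-L)
  have h6 : 2 * Real.pi * (83 / 10) * (218 * L - 434) * Real.exp (-(2 * L))
      ≤ 2 * Real.pi * (83 / 10 * ((218 * a - 434) * e)) * Real.exp (-L) := by
    rw [h3]
    have h7 : 2 * Real.pi * (83 / 10) * (218 * L - 434) * (Real.exp (-L) * Real.exp (-L))
        = 2 * Real.pi * (83 / 10) * Real.exp (-L) * ((218 * L - 434) * Real.exp (-L)) := by ring
    have h8 : 2 * Real.pi * (83 / 10 * ((218 * a - 434) * e)) * Real.exp (-L)
        = 2 * Real.pi * (83 / 10) * Real.exp (-L) * ((218 * a - 434) * e) := by ring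
    rw [h7, h8]
    exact mul_le_mul_of_nonneg_left h4 (by positivity)
  linarith

/-- module (Cell) -/
theorem cell (hB : StmtBm) (h8 : StmtB8) (hK : StmtKap) (hG : StmtKg) : StmtCell := by
  intro L hL1 hL2
  obtain ⟨-, -, -, -, -, -, hg1, hg2, hg3⟩ := hG
  have hn := h8.2.2.2.2.1
  have hf := h8.2.2.2.2.2
  rcases lt_or_ge L (5 / 2) with hlt | hge
  · -- near and middle range
    have hno : ¬ (69 / 20 ≤ L) := by
      intro h
      linarith
    rw [if_neg hno, add_zero]
    have hif : (if 1 / 2 ≤ L ∧ L ≤ 5 / 2 then (39 / 2 : ℝ) else 0) ≤ 39 / 2 := by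
      split_ifs <;> norm_num
    rcases lt_or_ge L (3 / 10) with h1 | h1
    · have hif2 : (if 1 / 2 ≤ L ∧ L ≤ 5 / 2 then (39 / 2 : ℝ) else 0) = 0 := by
        rw [if_neg]
        intro h
        linarith [h.1]
      have hc := cell_near hB h8 hK (1 / 10) (3 / 10) (718 / 100) (917 / 100) (9513 / 10000)
        (8188 / 10000) (by norm_num) (by norm_num)
        (cell_exp_neg_le 6 _ _ (by norm_num) (by norm_num)
          (by norm_num [Finset.sum_range_succ, Nat.factorial]))
        (cell_exp_neg_le 6 _ _ (by norm_num) (by norm_num)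
          (by norm_num [Finset.sum_range_succ, Nat.factorial])) (by norm_num) (by norm_num)
        (by norm_num) (hn _ _ (by simp)) L hL1 h1.le
      have hk := hg1 L (by linarith) (by linarith)
      rw [hif2]
      linarith
    rcases lt_or_ge L (1 / 2) with h2 | h2
    · have hif2 : (if 1 / 2 ≤ L ∧ L ≤ 5 / 2 then (39 / 2 : ℝ) else 0) = 0 := by
        rw [if_neg]
        intro h
        linarith [h.1]
      have hc := cell_near hB h8 hK (3 / 10) (1 / 2) (729 / 100) (661 / 100) (8608 / 10000)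
        (5489 / 10000) (by norm_num) (by norm_num)
        (cell_exp_neg_le 8 _ _ (by norm_num) (by norm_num)
          (by norm_num [Finset.sum_range_succ, Nat.factorial]))
        (cell_exp_neg_le 8 _ _ (by norm_num) (by norm_num)
          (by norm_num [Finset.sum_range_succ, Nat.factorial])) (by norm_num) (by norm_num)
        (by norm_num) (hn _ _ (by simp)) L h1 h2.le
      have hk := hg1 L (by linarith) (by linarith)
      rw [hif2]
      linarith
    rcases lt_or_ge L (3 / 4) with h3 | h3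
    · have hc := cell_near hB h8 hK (1 / 2) (3 / 4) (748 / 100) (550 / 100) (7789 / 10000)
        (3680 / 10000) (by norm_num) (by norm_num)
        (cell_exp_neg_le 8 _ _ (by norm_num) (by norm_num)
          (by norm_num [Finset.sum_range_succ, Nat.factorial]))
        (cell_exp_neg_le 10 _ _ (by norm_num) (by norm_num)
          (by norm_num [Finset.sum_range_succ, Nat.factorial])) (by norm_num) (by norm_num)
        (by norm_num) (hn _ _ (by simp)) L h2 h3.le
      have hk := hg1 L (by linarith) (by linarith)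
      linarith
    rcases lt_or_ge L 1 with h4 | h4
    · have hc := cell_near hB h8 hK (3 / 4) 1 (773 / 100) (463 / 100) (6874 / 10000)
        (2232 / 10000) (by norm_num) (by norm_num)
        (cell_exp_neg_le 8 _ _ (by norm_num) (by norm_num)
          (by norm_num [Finset.sum_range_succ, Nat.factorial]))
        (cell_exp_neg_le 12 _ _ (by norm_num) (by norm_num)
          (by norm_num [Finset.sum_range_succ, Nat.factorial])) (by norm_num) (by norm_num)
        (by norm_num) (hn _ _ (by simp)) L h3 h4.le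
      have hk := hg1 L (by linarith) (by linarith)
      linarith
    rcases lt_or_ge L (7 / 4) with h5 | h5
    · have hc := cell_near hB h8 hK 1 (7 / 4) (873 / 100) (396 / 100) (6066 / 10000)
        (1354 / 10000) (by norm_num) (by norm_num)
        (cell_exp_neg_le 8 _ _ (by norm_num) (by norm_num)
          (by norm_num [Finset.sum_range_succ, Nat.factorial]))
        (cell_exp_neg_le 12 _ _ (by norm_num) (by norm_num)
          (by norm_num [Finset.sum_range_succ, Nat.factorial])) (by norm_num) (by norm_num)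
        (by norm_num) (hn _ _ (by simp)) L h4 h5.le
      have hk := hg2 L (by linarith) (by linarith)
      linarith
    · have hc := cell_near hB h8 hK (7 / 4) (5 / 2) (1001 / 100) (265 / 100) (4169 / 10000)
        (303 / 10000) (by norm_num) (by norm_num)
        (cell_exp_neg_le 10 _ _ (by norm_num) (by norm_num)
          (by norm_num [Finset.sum_range_succ, Nat.factorial]))
        (cell_exp_neg_le 16 _ _ (by norm_num) (by norm_num)
          (by norm_num [Finset.sum_range_succ, Nat.factorial])) (by norm_num) (by norm_num)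
        (by norm_num) (hn _ _ (by simp)) L h5 hlt.le
      have hk := hg2 L (by linarith) (by linarith)
      linarith
  · rcases eq_or_lt_of_le hge with heq | hgt
    · have hno : ¬ (69 / 20 ≤ L) := by
        intro h
        linarith
      rw [if_neg hno, add_zero]
      have hif : (if 1 / 2 ≤ L ∧ L ≤ 5 / 2 then (39 / 2 : ℝ) else 0) ≤ 39 / 2 := by
        split_ifs <;> norm_num
      have hc := cell_near hB h8 hK (7 / 4) (5 / 2) (1001 / 100) (265 / 100) (4169 / 10000)
        (303 / 10000) (by norm_num) (by norm_num)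
        (cell_exp_neg_le 10 _ _ (by norm_num) (by norm_num)
          (by norm_num [Finset.sum_range_succ, Nat.factorial]))
        (cell_exp_neg_le 16 _ _ (by norm_num) (by norm_num)
          (by norm_num [Finset.sum_range_succ, Nat.factorial])) (by norm_num) (by norm_num)
        (by norm_num) (hn _ _ (by simp)) L (by linarith) heq.symm.le
      have hk := hg2 L (by linarith) heq.symm.le
      linarith
    have hif0 : (if 1 / 2 ≤ L ∧ L ≤ 5 / 2 then (39 / 2 : ℝ) else 0) = 0 := by
      rw [if_neg]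
      intro h
      linarith [h.2]
    rw [hif0, add_zero]
    rcases lt_or_ge L (69 / 20) with h1 | h1
    · have hno : ¬ (69 / 20 ≤ L) := not_le.2 h1
      rw [if_neg hno, add_zero]
      have h2 := cell_far hB h8 hK (345 / 100) (6322 / 100) (897 / 10) 0 (hf _ _ (by simp)) le_rfl L
        hge (by linarith) (by norm_num) (hg3 _ _ (by simp) L hge)
      simpa using h2
    rw [if_pos h1]
    rcases le_or_gt L (375 / 100) with h2 | h2
    · exact cell_far2 hB h8 hK (345 / 100) (375 / 100) (746 / 10) (1756 / 10) (318 / 10000)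
        (by norm_num) (hf _ _ (by simp))
        (cell_exp_neg_le 16 _ _ (by norm_num) (by norm_num)
          (by norm_num [Finset.sum_range_succ, Nat.factorial])) L (by linarith) h2 (by norm_num)
        (hg3 (345 / 100) _ (by simp) L (by linarith))
    rcases le_or_gt L (404 / 100) with h3 | h3
    · exact cell_far2 hB h8 hK (375 / 100) (404 / 100) (8706 / 100) (1756 / 10) (236 / 10000)
        (by norm_num) (hf _ _ (by simp))
        (cell_exp_neg_le 16 _ _ (by norm_num) (by norm_num)
          (by norm_num [Finset.sum_range_succ, Nat.factorial])) L h2.le h3 (by norm_num)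
        (hg3 (345 / 100) _ (by simp) L (by linarith))
    rcases le_or_gt L (468 / 100) with h4 | h4
    · exact cell_far2 hB h8 hK (404 / 100) (468 / 100) (1206 / 10) (2206 / 10) (177 / 10000)
        (by norm_num) (hf _ _ (by simp))
        (cell_exp_neg_le 18 _ _ (by norm_num) (by norm_num)
          (by norm_num [Finset.sum_range_succ, Nat.factorial])) L h3.le h4 (by norm_num)
        (hg3 _ _ (by simp) L h3.le)
    rcases le_or_gt L (533 / 100) with h5 | h5
    · exact cell_far2 hB h8 hK (468 / 100) (533 / 100) (1643 / 10) (2617 / 10) (93 / 10000)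
        (by norm_num) (hf _ _ (by simp))
        (cell_exp_neg_le 18 _ _ (by norm_num) (by norm_num)
          (by norm_num [Finset.sum_range_succ, Nat.factorial])) L h4.le h5 (by norm_num)
        (hg3 _ _ (by simp) L h4.le)
    rcases le_or_gt L (598 / 100) with h6 | h6
    · exact cell_far2 hB h8 hK (533 / 100) (598 / 100) 218 (2964 / 10) (49 / 10000)
        (by norm_num) (hf _ _ (by simp))
        (cell_exp_neg_le 20 _ _ (by norm_num) (by norm_num)
          (by norm_num [Finset.sum_range_succ, Nat.factorial])) L h5.le h6 (by norm_num)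
        (hg3 _ _ (by simp) L h5.le)
    rcases le_or_gt L (663 / 100) with h7 | h7
    · exact cell_far2 hB h8 hK (598 / 100) (663 / 100) 277 324 (26 / 10000)
        (by norm_num) (hf _ _ (by simp))
        (cell_exp_neg_le 20 _ _ (by norm_num) (by norm_num)
          (by norm_num [Finset.sum_range_succ, Nat.factorial])) L h6.le h7 (by norm_num)
        (hg3 _ _ (by simp) L h6.le)
    · exact cell_far2 hB h8 hK (663 / 100) (69 / 10) (3025 / 10) (3446 / 10) (14 / 10000)
        (by norm_num) (hf _ _ (by simp))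
        (cell_exp_neg_le 22 _ _ (by norm_num) (by norm_num)
          (by norm_num [Finset.sum_range_succ, Nat.factorial])) L h7.le hL2 (by norm_num)
        (hg3 _ _ (by simp) L h7.le)

end Pool.Agent.Lib.MP_dd244f_an.Rq
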