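import Pool.Agent.Lib.MP_dd244f_an.Rq.Stmts

/-!
Module (Chain): near and far chains for the radial part.
-/

set_option autoImplicit false

namespace Pool.Agent.Lib.MP_dd244f_an.Rq

open MeasureTheory Set

namespace ChainAux

/-- the profile of the far majorant -/
noncomputable def kf (L : ℝ) : ℝ := (109 * L - 434) * Real.exp (-L)

theorem kf_cont : Continuous kf := by unfold kf; fun_prop

theorem kf_nonneg {L : ℝ} (h : 4 ≤ L) : 0 ≤ kf L := by
  unfold kf
  exact mul_nonneg (by linarith) (Real.exp_pos _).le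

theorem kf_int : IntegrableOn kf (Ioi (69 / 10)) := by
  have h1 : IntegrableOn (fun x : ℝ => 652 * Real.exp (-(1 / 2) * x)) (Ioi (69 / 10)) :=
    (exp_neg_integrableOn_Ioi (69 / 10) (by norm_num : (0 : ℝ) < 1 / 2)).const_mul 652
  refine Integrable.mono' h1 kf_cont.aestronglyMeasurable ?_
  refine (ae_restrict_mem measurableSet_Ioi).mono fun x hx => ?_
  have hx' : (69 / 10 : ℝ) < x := hx
  rw [Real.norm_eq_abs, abs_of_nonneg (kf_nonneg (by linarith))]
  unfold kf
  have h2 : x / 2 + 1 ≤ Real.exp (x / 2) := Real.add_one_le_exp _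
  have h3 : Real.exp (-(1 / 2) * x) = Real.exp (x / 2) * Real.exp (-x) := by
    rw [← Real.exp_add]; congr 1; ring
  rw [h3, ← mul_assoc]
  refine mul_le_mul_of_nonneg_right ?_ (Real.exp_pos _).le
  linarith

/-- interval integrability -/
theorem ii {D : ℝ → ℝ} (hD : DB D) (a b : ℝ) : IntervalIntegrable D volume a b := by
  obtain ⟨hm, h0, ⟨M, hM⟩, -, -⟩ := hD
  rw [intervalIntegrable_iff, uIoc]
  refine Integrable.mono' (integrable_const M) hm.aestronglyMeasurable ?_
  refine Filter.Eventually.of_forall fun x => ?_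
  rw [Real.norm_eq_abs, abs_of_nonneg (h0 x)]
  exact hM x

theorem int_mul {D k : ℝ → ℝ} (hD : DB D) {μ : Measure ℝ} (hk : Integrable k μ) :
    Integrable (fun L => k L * D L) μ := by
  obtain ⟨hm, h0, ⟨M, hM⟩, -, -⟩ := hD
  refine Integrable.mul_bdd (c := M) hk hm.aestronglyMeasurable ?_
  refine Filter.Eventually.of_forall fun x => ?_
  rw [Real.norm_eq_abs, abs_of_nonneg (h0 x)]
  exact hM x

/-- averaging: near zero `Db` is bounded by its integral -/
theorem near {D : ℝ → ℝ} (hD : DB D) {L : ℝ} (h0 : 0 ≤ L) (h1 : L ≤ 1 / 10) :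
    D L ≤ 40 / 19 * ∫ l in (1 / 2)..(5 / 2), D l := by
  have e1 : ∫ _ in (1 / 2)..(24 / 10), D L = 19 / 10 * D L := by
    rw [intervalIntegral.integral_const, smul_eq_mul]; norm_num
  have h3 : IntervalIntegrable (fun l => D (l + L)) volume (1 / 2) (24 / 10) := by
    have := (ii hD (1 / 2 + L) (24 / 10 + L)).comp_add_right L
    simpa using this
  have h2 : ∫ _ in (1 / 2)..(24 / 10), D L ≤ ∫ l in (1 / 2)..(24 / 10), (2 * D l + 2 * D (l + L)) := by
    refine intervalIntegral.integral_mono_on (by norm_num) (by simp)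
      (((ii hD _ _).const_mul 2).add (h3.const_mul 2)) fun l _ => hD.2.2.2.2 L l
  rw [intervalIntegral.integral_add ((ii hD _ _).const_mul 2) (h3.const_mul 2),
    intervalIntegral.integral_const_mul, intervalIntegral.integral_const_mul,
    intervalIntegral.integral_comp_add_right (fun l => D l) L] at h2
  have hnn : ∀ (s : Set ℝ), 0 ≤ᵐ[volume.restrict s] D :=
    fun s => Filter.Eventually.of_forall fun x => hD.2.1 x
  have h4 : ∫ l in (1 / 2)..(24 / 10), D l ≤ ∫ l in (1 / 2)..(5 / 2), D l :=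
    intervalIntegral.integral_mono_interval le_rfl (by norm_num) (by norm_num) (hnn _) (ii hD _ _)
  have h5 : ∫ l in (1 / 2 + L)..(24 / 10 + L), D l ≤ ∫ l in (1 / 2)..(5 / 2), D l :=
    intervalIntegral.integral_mono_interval (by linarith) (by linarith) (by linarith) (hnn _)
      (ii hD _ _)
  linarith

theorem half {D : ℝ → ℝ} (hD : DB D) (L : ℝ) : D L ≤ 4 * D (L / 2) := by
  have h := hD.2.2.2.2 L (-(L / 2))
  rw [hD.2.2.2.1, show -(L / 2) + L = L / 2 by ring] at h
  linarith

theorem exp_num : Real.exp (-(69 / 10)) ≤ 105 / 100000 := by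
  have h1 : (1105 / 1000 : ℝ) ≤ Real.exp (1 / 10) := by
    have := Real.quadratic_le_exp_of_nonneg (x := 1 / 10) (by norm_num)
    linarith
  have h2 : Real.exp (69 / 10) = Real.exp (1 / 10) ^ 69 := by
    rw [← Real.exp_nat_mul]; norm_num
  have h3 : (1105 / 1000 : ℝ) ^ 69 ≤ Real.exp (69 / 10) := by
    rw [h2]; exact pow_le_pow_left₀ (by norm_num) h1 69
  rw [Real.exp_neg, inv_le_comm₀ (Real.exp_pos _) (by norm_num)]
  refine le_trans ?_ h3
  norm_num

/-- the far chain -/
theorem far {D : ℝ → ℝ} (hD : DB D) : ∫ L in Ioi (69 / 10), kf L * D L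
    ≤ 825 / 100 * ∫ L in (69 / 20)..(69 / 10), (218 * L - 434) * Real.exp (-(2 * L)) * D L := by
  have hI : IntegrableOn (fun L => kf L * D L) (Ioi (69 / 10)) := int_mul hD kf_int
  have hk2 : ∀ l, kf (2 * l) = (218 * l - 434) * Real.exp (-(2 * l)) := by
    intro l; unfold kf; congr 1; ring
  -- the dilated integrand
  have hI2' : IntegrableOn (fun L => kf L * D (L / 2)) (Ioi (69 / 10)) := by
    obtain ⟨hm, h0, ⟨M, hM⟩, -, -⟩ := hD
    refine Integrable.mul_bdd (c := M) kf_int
      (hm.comp (measurable_id.div_const 2)).aestronglyMeasurable ?_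
    refine Filter.Eventually.of_forall fun x => ?_
    rw [Real.norm_eq_abs, abs_of_nonneg (h0 _)]
    exact hM _
  have hI2 : IntegrableOn (fun L => kf L * D (L / 2)) (Ioi (69 / 5)) :=
    hI2'.mono_set (Ioi_subset_Ioi (by norm_num))
  have hsplit : (∫ L in (69 / 10)..(69 / 5), kf L * D L) + ∫ L in Ioi (69 / 5), kf L * D L
      = ∫ L in Ioi (69 / 10), kf L * D L :=
    intervalIntegral.integral_interval_add_Ioi hI (hI.mono_set (Ioi_subset_Ioi (by norm_num)))
  -- the tail
  have htail : ∫ L in Ioi (69 / 5), kf L * D L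
      ≤ 288 / 10000 * ∫ L in Ioi (69 / 10), kf L * D L := by
    have h1 : ∫ L in Ioi (69 / 5), kf L * D L ≤ ∫ L in Ioi (69 / 5), 4 * (kf L * D (L / 2)) := by
      refine setIntegral_mono_on (hI.mono_set (Ioi_subset_Ioi (by norm_num))) (hI2.const_mul 4)
        measurableSet_Ioi fun x hx => ?_
      have hx' : (69 / 5 : ℝ) < x := hx
      have h2 := half hD x
      have h3 := kf_nonneg (show (4 : ℝ) ≤ x by linarith)
      nlinarith
    have h2 := integral_comp_mul_left_Ioi (fun L => kf L * D (L / 2)) (69 / 10)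
      (show (0 : ℝ) < 2 by norm_num)
    rw [show (2 : ℝ) * (69 / 10) = 69 / 5 by norm_num, smul_eq_mul] at h2
    have h3 : ∫ l in Ioi (69 / 10), kf (2 * l) * D (2 * l / 2)
        ≤ ∫ l in Ioi (69 / 10), 36 / 10000 * (kf l * D l) := by
      refine setIntegral_mono_on ?_ (hI.const_mul _) measurableSet_Ioi fun l hl => ?_
      · have h4 := (integrableOn_Ioi_comp_mul_left_iff (fun L => kf L * D (L / 2)) (69 / 10)
          (show (0 : ℝ) < 2 by norm_num)).2
          (by rw [show (2 : ℝ) * (69 / 10) = 69 / 5 by norm_num]; exact hI2)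
        exact h4
      have hl' : (69 / 10 : ℝ) < l := hl
      rw [show 2 * l / 2 = l by ring]
      have h3 : kf (2 * l) ≤ 36 / 10000 * kf l := by
        rw [hk2]
        unfold kf
        have e : Real.exp (-(2 * l)) = Real.exp (-l) * Real.exp (-l) := by
          rw [← Real.exp_add]; congr 1; ring
        have h5 : Real.exp (-l) ≤ 105 / 100000 :=
          (Real.exp_le_exp.2 (by linarith)).trans exp_num
        rw [e]
        have h7 := Real.exp_pos (-l)
        have h8 : (218 * l - 434) * Real.exp (-l) ≤ 36 / 10000 * (109 * l - 434) := by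
          have h9 : (218 * l - 434) * Real.exp (-l) ≤ (218 * l - 434) * (105 / 100000) :=
            mul_le_mul_of_nonneg_left h5 (by linarith)
          linarith
        calc (218 * l - 434) * (Real.exp (-l) * Real.exp (-l))
            = ((218 * l - 434) * Real.exp (-l)) * Real.exp (-l) := by ring
          _ ≤ (36 / 10000 * (109 * l - 434)) * Real.exp (-l) :=
            mul_le_mul_of_nonneg_right h8 h7.le
          _ = _ := by ring
      have h9 := hD.2.1 l
      calc kf (2 * l) * D l ≤ (36 / 10000 * kf l) * D l := mul_le_mul_of_nonneg_right h3 h9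
        _ = _ := by ring
    rw [h2] at h3
    rw [integral_const_mul] at h1 h3
    linarith
  -- the middle
  have hmid : ∫ L in (69 / 10)..(69 / 5), kf L * D L
      ≤ 8 * ∫ L in (69 / 20)..(69 / 10), (218 * L - 434) * Real.exp (-(2 * L)) * D L := by
    have h1 : ∫ L in (69 / 10)..(69 / 5), kf L * D L
        ≤ ∫ L in (69 / 10)..(69 / 5), 4 * (kf L * D (L / 2)) := by
      refine intervalIntegral.integral_mono_on (by norm_num) ?_ ?_ fun x hx => ?_
      · rw [intervalIntegrable_iff_integrableOn_Ioc_of_le (by norm_num)]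
        exact hI.mono_set fun x hx => hx.1
      · rw [intervalIntegrable_iff_integrableOn_Ioc_of_le (by norm_num)]
        exact (hI2'.mono_set fun x hx => hx.1).const_mul 4
      · have h2 := half hD x
        have h3 := kf_nonneg (show (4 : ℝ) ≤ x by linarith [hx.1])
        nlinarith
    have h2 := intervalIntegral.integral_comp_mul_left (a := 69 / 20) (b := 69 / 10)
      (fun L => kf L * D (L / 2)) (show (2 : ℝ) ≠ 0 by norm_num)
    rw [show (2 : ℝ) * (69 / 20) = 69 / 10 by norm_num,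
      show (2 : ℝ) * (69 / 10) = 69 / 5 by norm_num, smul_eq_mul] at h2
    have h3 : ∫ L in (69 / 20)..(69 / 10), kf (2 * L) * D (2 * L / 2)
        = ∫ L in (69 / 20)..(69 / 10), (218 * L - 434) * Real.exp (-(2 * L)) * D L := by
      refine intervalIntegral.integral_congr fun x _ => ?_
      show kf (2 * x) * D (2 * x / 2) = (218 * x - 434) * Real.exp (-(2 * x)) * D x
      rw [hk2, show 2 * x / 2 = x by ring]
    rw [h3] at h2
    rw [intervalIntegral.integral_const_mul] at h1
    linarith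
  have hnn : 0 ≤ ∫ L in (69 / 20)..(69 / 10), (218 * L - 434) * Real.exp (-(2 * L)) * D L := by
    refine intervalIntegral.integral_nonneg (by norm_num) fun x hx => ?_
    exact mul_nonneg (mul_nonneg (by linarith [hx.1]) (Real.exp_pos _).le) (hD.2.1 x)
  linarith

theorem num_rpow : (1 / 10 : ℝ) ^ (3 / 4 : ℝ) ≤ 1779 / 10000 := by
  have h0 : (0 : ℝ) ≤ (1 / 10 : ℝ) ^ (3 / 4 : ℝ) := by positivity
  have h1 : ((1 / 10 : ℝ) ^ (3 / 4 : ℝ)) ^ 4 = (1 / 10) ^ 3 := by
    rw [← Real.rpow_natCast, ← Real.rpow_mul (by norm_num)]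
    norm_num
  refine (pow_le_pow_iff_left₀ h0 (by norm_num) (show (4 : ℕ) ≠ 0 by norm_num)).1 ?_
  rw [h1]; norm_num

theorem num_rpow' : (9 / 5 : ℝ) ^ (-(1 / 4) : ℝ) ≤ 8634 / 10000 := by
  have h0 : (0 : ℝ) ≤ (9 / 5 : ℝ) ^ (-(1 / 4) : ℝ) := by positivity
  have h1 : ((9 / 5 : ℝ) ^ (-(1 / 4) : ℝ)) ^ 4 = 5 / 9 := by
    rw [← Real.rpow_natCast, ← Real.rpow_mul (by norm_num)]
    norm_num
  refine (pow_le_pow_iff_left₀ h0 (by norm_num) (show (4 : ℕ) ≠ 0 by norm_num)).1 ?_
  rw [h1]; norm_num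

/-- the bound of `kap` near zero -/
theorem kap_near (hK : StmtKap) {L : ℝ} (h0 : 0 < L) (h1 : L ≤ 1 / 10) :
    kap L ≤ 2 * Real.pi * ((9 / 5 : ℝ) ^ (-(1 / 4) : ℝ) * L ^ (-(1 / 4) : ℝ)) := by
  have h2 := (hK.2.2.1 L h0).2
  refine h2.trans ?_
  rw [mul_assoc]
  refine mul_le_mul_of_nonneg_left ?_ (by positivity)
  rw [← Real.mul_rpow (by norm_num) h0.le]
  have h3 : Real.exp (-(L / 2)) ≤ 1 := Real.exp_le_one_iff.2 (by linarith)
  have h5 : 9 / 5 * L ≤ 1 - Real.exp (-(2 * L)) := by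
    have h6 := Real.quadratic_le_exp_of_nonneg (x := 2 * L) (by linarith)
    have h7 : Real.exp (-(2 * L)) * Real.exp (2 * L) = 1 := by
      rw [← Real.exp_add]; simp
    have h8 := Real.exp_pos (-(2 * L))
    have h9 : Real.exp (-(2 * L)) * (1 + 2 * L + (2 * L) ^ 2 / 2) ≤ 1 :=
      (mul_le_mul_of_nonneg_left h6 h8.le).trans (le_of_eq h7)
    by_contra hcon
    push Not at hcon
    nlinarith
  have h4 : (1 - Real.exp (-(2 * L))) ^ (-(1 / 4) : ℝ) ≤ (9 / 5 * L) ^ (-(1 / 4) : ℝ) :=
    Real.rpow_le_rpow_of_nonpos (by linarith) h5 (by norm_num)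
  calc Real.exp (-(L / 2)) * (1 - Real.exp (-(2 * L))) ^ (-(1 / 4) : ℝ)
      ≤ 1 * (9 / 5 * L) ^ (-(1 / 4) : ℝ) := by
        refine mul_le_mul h3 h4 (Real.rpow_nonneg ?_ _) zero_le_one
        linarith
    _ = _ := one_mul _

/-- the near part -/
theorem nearF (hB : StmtBm) (h8 : StmtB8) (hK : StmtKap) {D : ℝ → ℝ} (hD : DB D)
    (hI : Integrable (fun L => 8 * Bm L * kap L * D L)) :
    ∫ L in (0)..(1 / 10), 8 * Bm L * kap L * D L
      ≤ 39 / 2 * ∫ l in (1 / 2)..(5 / 2), D l := by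
  set I := ∫ l in (1 / 2)..(5 / 2), D l with hIdef
  have hI0 : 0 ≤ I := intervalIntegral.integral_nonneg (by norm_num) fun x _ => hD.2.1 x
  set C : ℝ := 711 / 100 * (2 * Real.pi * (9 / 5 : ℝ) ^ (-(1 / 4) : ℝ)) * (40 / 19 * I) with hC
  have hb1 : B8 (1 / 10) ≤ 711 / 100 := h8.2.2.2.2.1 _ _ (by simp)
  have h1 : ∫ L in (0)..(1 / 10), 8 * Bm L * kap L * D L
      ≤ ∫ L in (0)..(1 / 10), C * L ^ (-(1 / 4) : ℝ) := by
    rw [intervalIntegral.integral_of_le (by norm_num), intervalIntegral.integral_of_le (by norm_num)]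
    refine setIntegral_mono_on hI.integrableOn ?_ measurableSet_Ioc fun L hL => ?_
    · rw [← intervalIntegrable_iff_integrableOn_Ioc_of_le (by norm_num)]
      exact (intervalIntegral.intervalIntegrable_rpow' (by norm_num)).const_mul C
    · have h2 : 8 * Bm L ≤ 711 / 100 :=
        (hB.2.2.1 L hL.1.le).trans ((h8.2.1 L (1 / 10) hL.1.le hL.2 (by norm_num)).trans hb1)
      have h3 := kap_near hK hL.1 hL.2
      have h4 := near hD hL.1.le hL.2
      have h5 : 0 ≤ L ^ (-(1 / 4) : ℝ) := Real.rpow_nonneg hL.1.le _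
      have h6 : 0 ≤ (9 / 5 : ℝ) ^ (-(1 / 4) : ℝ) := by positivity
      calc 8 * Bm L * kap L * D L
          ≤ 711 / 100 * (2 * Real.pi * ((9 / 5 : ℝ) ^ (-(1 / 4) : ℝ) * L ^ (-(1 / 4) : ℝ))) *
            (40 / 19 * I) := by
            refine mul_le_mul (mul_le_mul h2 h3 (hK.2.1 L).1 (by norm_num)) h4 (hD.2.1 L) ?_
            positivity
        _ = C * L ^ (-(1 / 4) : ℝ) := by rw [hC]; ring
  have h2 : ∫ L in (0)..(1 / 10 : ℝ), C * L ^ (-(1 / 4) : ℝ)
      = C * (4 / 3 * (1 / 10 : ℝ) ^ (3 / 4 : ℝ)) := by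
    rw [intervalIntegral.integral_const_mul, integral_rpow (Or.inl (by norm_num))]
    congr 1
    rw [show (-(1 / 4) : ℝ) + 1 = 3 / 4 by norm_num, Real.zero_rpow (by norm_num)]
    ring
  rw [h2] at h1
  refine h1.trans ?_
  have hpi : Real.pi ≤ 31416 / 10000 := by
    have := Real.pi_lt_d4
    norm_num at this ⊢
    linarith
  have h6 : 0 ≤ (9 / 5 : ℝ) ^ (-(1 / 4) : ℝ) := by positivity
  have h7 : 0 ≤ (1 / 10 : ℝ) ^ (3 / 4 : ℝ) := by positivity
  calc C * (4 / 3 * (1 / 10 : ℝ) ^ (3 / 4 : ℝ))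
      ≤ (711 / 100 * (2 * (31416 / 10000) * (8634 / 10000)) * (40 / 19 * I)) *
        (4 / 3 * (1779 / 10000)) := by
        rw [hC]
        have := num_rpow
        have := num_rpow'
        have hpi0 := Real.pi_pos
        gcongr
    _ ≤ 39 / 2 * I := by nlinarith

/-- the bound of the integrand far away -/
theorem far_pt (hB : StmtBm) (h8 : StmtB8) (hK : StmtKap) {L : ℝ} (h : 69 / 10 < L) :
    8 * Bm L * kap L ≤ 2 * Real.pi * (100001 / 100000) * kf L := by
  have h0 : 0 < L := by linarith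
  have h1 := hB.2.2.1 L h0.le
  have h2 := (hK.2.2.1 L h0).2
  have h3 := h8.2.2.2.1 L h.le
  have hx : Real.exp (-(2 * L)) ≤ 2 / 1000000 := by
    have e : Real.exp (-(2 * L)) = Real.exp (-L) * Real.exp (-L) := by
      rw [← Real.exp_add]; congr 1; ring
    have h5 : Real.exp (-L) ≤ 105 / 100000 := (Real.exp_le_exp.2 (by linarith)).trans exp_num
    have h6 := Real.exp_pos (-L)
    rw [e]
    nlinarith
  have hx0 := Real.exp_pos (-(2 * L))
  have h4 : (1 - Real.exp (-(2 * L))) ^ (-(1 / 4) : ℝ) ≤ 100001 / 100000 := by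
    have h5 : (1 - Real.exp (-(2 * L))) ^ (-(1 / 4) : ℝ) ≤ (1 - Real.exp (-(2 * L))) ^ (-1 : ℝ) :=
      Real.rpow_le_rpow_of_exponent_ge (by linarith) (by linarith) (by norm_num)
    refine h5.trans ?_
    rw [Real.rpow_neg_one, inv_le_comm₀ (by linarith) (by norm_num)]
    norm_num
    linarith
  have hk0 := (hK.2.1 L).1
  have hb0 := (h8.2.2.1 L h0.le).1
  have h7 : 0 ≤ (1 - Real.exp (-(2 * L))) ^ (-(1 / 4) : ℝ) := Real.rpow_nonneg (by linarith) _
  have e1 : Real.exp (-L) = Real.exp (-(L / 2)) * Real.exp (-(L / 2)) := by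
    rw [← Real.exp_add]; congr 1; ring
  have e2 : Real.exp (L / 2) * Real.exp (-(L / 2)) = 1 := by
    rw [← Real.exp_add]; simp
  have h9 := Real.exp_pos (-(L / 2))
  calc 8 * Bm L * kap L
      ≤ B8 L * (2 * Real.pi * Real.exp (-(L / 2)) * (1 - Real.exp (-(2 * L))) ^ (-(1 / 4) : ℝ)) :=
        mul_le_mul h1 h2 hk0 hb0
    _ ≤ B8 L * (2 * Real.pi * Real.exp (-(L / 2)) * (100001 / 100000)) := by
        gcongr
    _ = 2 * Real.pi * (100001 / 100000) * (B8 L * (Real.exp (L / 2) * Real.exp (-(L / 2))) *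
          Real.exp (-(L / 2))) := by rw [e2]; ring
    _ = 2 * Real.pi * (100001 / 100000) * (B8 L * Real.exp (L / 2) * Real.exp (-L)) := by
        rw [e1]; ring
    _ ≤ 2 * Real.pi * (100001 / 100000) * kf L := by
        unfold kf
        have := Real.exp_pos (-L)
        gcongr

/-- the far part -/
theorem farF (hB : StmtBm) (h8 : StmtB8) (hK : StmtKap) {D : ℝ → ℝ} (hD : DB D)
    (hI : Integrable (fun L => 8 * Bm L * kap L * D L)) :
    ∫ L in Ioi (69 / 10), 8 * Bm L * kap L * D L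
      ≤ ∫ L in (69 / 20)..(69 / 10),
        2 * Real.pi * (83 / 10) * (218 * L - 434) * Real.exp (-(2 * L)) * D L := by
  have h1 : ∫ L in Ioi (69 / 10), 8 * Bm L * kap L * D L
      ≤ ∫ L in Ioi (69 / 10), 2 * Real.pi * (100001 / 100000) * (kf L * D L) := by
    refine setIntegral_mono_on hI.integrableOn ((int_mul hD kf_int).const_mul _)
      measurableSet_Ioi fun L hL => ?_
    calc 8 * Bm L * kap L * D L ≤ (2 * Real.pi * (100001 / 100000) * kf L) * D L :=
          mul_le_mul_of_nonneg_right (far_pt hB h8 hK hL) (hD.2.1 L)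
      _ = _ := by ring
  rw [integral_const_mul] at h1
  have h2 := far hD
  have hnn : 0 ≤ ∫ L in (69 / 20)..(69 / 10), (218 * L - 434) * Real.exp (-(2 * L)) * D L := by
    refine intervalIntegral.integral_nonneg (by norm_num) fun x hx => ?_
    exact mul_nonneg (mul_nonneg (by linarith [hx.1]) (Real.exp_pos _).le) (hD.2.1 x)
  have h3 : ∫ L in (69 / 20)..(69 / 10),
        2 * Real.pi * (83 / 10) * (218 * L - 434) * Real.exp (-(2 * L)) * D L
      = 2 * Real.pi * (83 / 10) *
        ∫ L in (69 / 20)..(69 / 10), (218 * L - 434) * Real.exp (-(2 * L)) * D L := by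
    rw [← intervalIntegral.integral_const_mul]
    refine intervalIntegral.integral_congr fun x _ => ?_
    show _ = _
    ring
  rw [h3]
  refine h1.trans ?_
  have hpi := Real.pi_pos
  set J := ∫ L in (69 / 20)..(69 / 10), (218 * L - 434) * Real.exp (-(2 * L)) * D L
  calc 2 * Real.pi * (100001 / 100000) * ∫ L in Ioi (69 / 10), kf L * D L
      ≤ 2 * Real.pi * (100001 / 100000) * (825 / 100 * J) := by gcongr
    _ ≤ 2 * Real.pi * (83 / 10) * J := by
        have : 0 ≤ Real.pi * J := mul_nonneg hpi.le hnn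
        nlinarith

/-- the middle part -/
theorem midF (hC : StmtCell) {D : ℝ → ℝ} (hD : DB D)
    (hI : Integrable (fun L => 8 * Bm L * kap L * D L)) (hG : Integrable (fun L => kg L * D L)) :
    (∫ L in (1 / 10)..(69 / 10), 8 * Bm L * kap L * D L) + (39 / 2 * ∫ l in (1 / 2)..(5 / 2), D l) +
      (∫ L in (69 / 20)..(69 / 10),
        2 * Real.pi * (83 / 10) * (218 * L - 434) * Real.exp (-(2 * L)) * D L)
    ≤ ∫ L in (1 / 10)..(69 / 10), kg L * D L := by
  set c1 : ℝ → ℝ := (Icc (1 / 2) (5 / 2)).indicator (fun L => 39 / 2 * D L) with hc1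
  set c2 : ℝ → ℝ := (Ici (69 / 20)).indicator
    (fun L => 2 * Real.pi * (83 / 10) * (218 * L - 434) * Real.exp (-(2 * L)) * D L) with hc2
  have hm := hD.1
  have hi1 : IntegrableOn c1 (Ioc (1 / 10) (69 / 10)) := by
    have h1 : IntegrableOn (fun L => 39 / 2 * D L) (Ioc (1 / 10) (69 / 10)) := by
      have := (ii hD (1 / 10) (69 / 10)).const_mul (39 / 2)
      rwa [intervalIntegrable_iff_integrableOn_Ioc_of_le (by norm_num)] at this
    exact h1.indicator measurableSet_Icc
  have hi2' : ∀ a b : ℝ, IntegrableOn (fun L => 2 * Real.pi * (83 / 10) * (218 * L - 434) *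
      Real.exp (-(2 * L)) * D L) (Ioc a b) := by
    intro a b
    refine int_mul hD ?_
    have h1 : Continuous fun L : ℝ => 2 * Real.pi * (83 / 10) * (218 * L - 434) *
      Real.exp (-(2 * L)) := by fun_prop
    exact (h1.integrableOn_Icc (a := a) (b := b)).mono_set Ioc_subset_Icc_self
  have hi2 : IntegrableOn c2 (Ioc (1 / 10) (69 / 10)) := (hi2' _ _).indicator measurableSet_Ici
  have e1 : ∫ L in Ioc (1 / 10) (69 / 10), c1 L = 39 / 2 * ∫ l in (1 / 2)..(5 / 2), D l := by
    rw [hc1, setIntegral_indicator measurableSet_Icc,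
      show Ioc (1 / 10 : ℝ) (69 / 10) ∩ Icc (1 / 2) (5 / 2) = Icc (1 / 2) (5 / 2) by
        ext x; simp only [mem_inter_iff, mem_Ioc, mem_Icc]
        constructor
        · rintro ⟨-, h⟩; exact h
        · rintro ⟨h1, h2⟩; exact ⟨⟨by linarith, by linarith⟩, h1, h2⟩,
      integral_Icc_eq_integral_Ioc, integral_const_mul,
      intervalIntegral.integral_of_le (by norm_num)]
  have e2 : ∫ L in Ioc (1 / 10) (69 / 10), c2 L = ∫ L in (69 / 20)..(69 / 10),
        2 * Real.pi * (83 / 10) * (218 * L - 434) * Real.exp (-(2 * L)) * D L := by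
    rw [hc2, setIntegral_indicator measurableSet_Ici,
      show Ioc (1 / 10 : ℝ) (69 / 10) ∩ Ici (69 / 20) = Icc (69 / 20) (69 / 10) by
        ext x; simp only [mem_inter_iff, mem_Ioc, mem_Icc, mem_Ici]
        constructor
        · rintro ⟨⟨-, h⟩, h'⟩; exact ⟨h', h⟩
        · rintro ⟨h1, h2⟩; exact ⟨⟨by linarith, by linarith⟩, h1⟩,
      integral_Icc_eq_integral_Ioc, intervalIntegral.integral_of_le (by norm_num)]
  have hI' : IntegrableOn (fun L => 8 * Bm L * kap L * D L) (Ioc (1 / 10) (69 / 10)) :=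
    hI.integrableOn
  have hs1 : IntegrableOn (fun L => 8 * Bm L * kap L * D L + c1 L) (Ioc (1 / 10) (69 / 10)) :=
    hI'.add hi1
  rw [← e1, ← e2, intervalIntegral.integral_of_le (by norm_num),
    intervalIntegral.integral_of_le (by norm_num), ← integral_add hI' hi1,
    ← integral_add hs1 hi2]
  refine setIntegral_mono_on (hs1.add hi2) hG.integrableOn
    measurableSet_Ioc fun L hL => ?_
  have h1 := hC L hL.1.le hL.2
  have h2 := mul_le_mul_of_nonneg_right h1 (hD.2.1 L)
  refine le_trans (le_of_eq ?_) h2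
  rw [add_mul, add_mul, hc1, hc2]
  simp only [indicator, mem_Icc, mem_Ici, ite_mul, zero_mul]

end ChainAux

open ChainAux in
/-- (Chain) radial part -/
theorem chain (hB : StmtBm) (h8 : StmtB8) (hK : StmtKap) (hG : StmtKg) (hC : StmtCell) :
    StmtChain := by
  intro D hD
  have hI : Integrable (fun L => 8 * Bm L * kap L * D L) := by
    have h1 := int_mul hD (hB.2.2.2.2.const_mul 8)
    refine h1.congr (Filter.Eventually.of_forall fun L => ?_)
    show 8 * (Bm L * kap L) * D L = 8 * Bm L * kap L * D L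
    ring
  have hGI : Integrable (fun L => kg L * D L) := int_mul hD hG.2.2.1
  refine ⟨hI, hGI, ?_⟩
  have ev1 : ∀ L, 8 * Bm |L| * kap |L| * D |L| = 8 * Bm L * kap L * D L := by
    intro L
    rcases abs_choice L with h | h
    · rw [h]
    · rw [h, (hB.2.1 L).2, (hK.2.1 L).2, hD.2.2.2.1]
  have ev2 : ∀ L, kg |L| * D |L| = kg L * D L := by
    intro L
    rcases abs_choice L with h | h
    · rw [h]
    · rw [h, (hG.2.1 L).2, hD.2.2.2.1]
  have e1 := integral_comp_abs (f := fun L => 8 * Bm L * kap L * D L)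
  have e2 := integral_comp_abs (f := fun L => kg L * D L)
  simp only [ev1] at e1
  simp only [ev2] at e2
  rw [e1, e2]
  refine mul_le_mul_of_nonneg_left ?_ (by norm_num)
  have s1 := intervalIntegral.integral_interval_add_Ioi (a := 0) (b := 1 / 10)
    (hI.integrableOn (s := Ioi 0)) hI.integrableOn
  have s2 := intervalIntegral.integral_interval_add_Ioi (a := 1 / 10) (b := 69 / 10)
    (hI.integrableOn (s := Ioi (1 / 10))) hI.integrableOn
  have s3 := intervalIntegral.integral_interval_add_Ioi (a := 0) (b := 1 / 10)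
    (hGI.integrableOn (s := Ioi 0)) hGI.integrableOn
  have s4 := intervalIntegral.integral_interval_add_Ioi (a := 1 / 10) (b := 69 / 10)
    (hGI.integrableOn (s := Ioi (1 / 10))) hGI.integrableOn
  have n1 : 0 ≤ ∫ L in (0)..(1 / 10), kg L * D L :=
    intervalIntegral.integral_nonneg (by norm_num) fun x _ =>
      mul_nonneg (hG.2.1 x).1 (hD.2.1 x)
  have n2 : 0 ≤ ∫ L in Ioi (69 / 10), kg L * D L :=
    integral_nonneg fun x => mul_nonneg (hG.2.1 x).1 (hD.2.1 x)
  have m1 := nearF hB h8 hK hD hI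
  have m2 := farF hB h8 hK hD hI
  have m3 := midF hC hD hI hGI
  linarith

end Pool.Agent.Lib.MP_dd244f_an.Rq
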