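import Pool.Agent.Lib.MP_dd244f_an.Rq.Stmts

/-!
Module (CombAsm): assembly of the comparison of the good and the bad form.
-/

set_option autoImplicit false

namespace Pool.Agent.Lib.MP_dd244f_an.Rq

open MeasureTheory Filter Topology Finset
open scoped ENNReal NNReal

namespace CombAsmE

lemma norm_ex (L θ : ℝ) : ‖Complex.exp (L + Complex.I * θ)‖ = Real.exp L := by
  rw [Complex.norm_exp]; simp

lemma log_ex (L θ : ℝ) : Real.log ‖Complex.exp (L + Complex.I * θ)‖ = L := by
  rw [norm_ex, Real.log_exp]

lemma cont_ex (L : ℝ) : Continuous (fun θ : ℝ => Complex.exp (L + Complex.I * θ)) := by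
  fun_prop

lemma one_sub_ne {L : ℝ} (hL : L ≠ 0) (θ : ℝ) : ‖1 - Complex.exp (L + Complex.I * θ)‖ ≠ 0 := by
  intro h
  rw [norm_eq_zero, sub_eq_zero] at h
  have h2 := norm_ex L θ
  rw [← h, norm_one] at h2
  exact hL (Real.exp_eq_one_iff L |>.mp h2.symm)

lemma k1_cont {L : ℝ} (hL : L ≠ 0) :
    Continuous (fun θ : ℝ => k1 (Complex.exp (L + Complex.I * θ))) := by
  unfold k1
  have h1 : ∀ θ : ℝ, ‖Complex.exp (L + Complex.I * θ)‖ ^ (1 / 2 : ℝ) = Real.exp L ^ (1 / 2 : ℝ) := by
    intro θ; rw [norm_ex]
  simp only [h1]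
  refine Continuous.div continuous_const ?_ (fun θ => one_sub_ne hL θ)
  exact (continuous_const.sub (cont_ex L)).norm

lemma kbar_meas : Measurable kbar := by
  unfold kbar
  have h : ∀ c : ℝ, MeasurableSet {a : ℝ | |a| ≤ c} := fun c =>
    measurableSet_le measurable_norm measurable_const
  have h' : ∀ c : ℝ, MeasurableSet {a : ℝ | |a| < c} := fun c =>
    measurableSet_lt measurable_norm measurable_const
  refine Measurable.ite (h' _) measurable_const ?_
  refine Measurable.ite (h _) measurable_const ?_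
  refine Measurable.ite (h _) measurable_const ?_
  refine Measurable.ite (h _) measurable_const ?_
  refine Measurable.ite (h _) measurable_const ?_
  refine Measurable.ite (h _) measurable_const ?_
  refine Measurable.ite (h _) measurable_const ?_
  exact Measurable.ite (h _) measurable_const measurable_const

lemma kbar_bd (L : ℝ) : 0 ≤ kbar L ∧ kbar L ≤ 107 / 10 := by
  unfold kbar
  split_ifs <;> norm_num

lemma kbar_supp {L : ℝ} (h : 59 / 10 < |L|) : kbar L = 0 := by
  unfold kbar
  rw [if_neg (by linarith), if_neg (by linarith), if_neg (by linarith), if_neg (by linarith),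
    if_neg (by linarith), if_neg (by linarith), if_neg (by linarith), if_neg (by linarith)]

lemma kbar_int : Integrable kbar := by
  have h : IntegrableOn kbar (Set.Icc (-(59 / 10)) (59 / 10)) := by
    refine Measure.integrableOn_of_bounded (M := 107 / 10) (by simp) kbar_meas.aestronglyMeasurable ?_
    refine Filter.Eventually.of_forall (fun L => ?_)
    rw [Real.norm_eq_abs, abs_of_nonneg (kbar_bd L).1]
    exact (kbar_bd L).2
  refine (integrableOn_iff_integrable_of_support_subset ?_).mp h
  intro L hL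
  by_contra hc
  apply hL
  apply kbar_supp
  rw [Set.mem_Icc, not_and_or, not_le, not_le] at hc
  rcases hc with h | h
  · rw [lt_abs]; right; linarith
  · rw [lt_abs]; left; exact h

lemma Cp_ii {Cp : ℂ → ℝ} {J : ℝ} (hm : Measurable Cp) (hb : ∀ l, |Cp l| ≤ J) (L : ℝ) (g : ℝ → ℝ)
    (hg : IntervalIntegrable g volume 0 (2 * Real.pi)) :
    IntervalIntegrable (fun θ : ℝ => g θ * Cp (Complex.exp (L + Complex.I * θ))) volume
      0 (2 * Real.pi) := by
  have hpi := Real.pi_pos
  rw [intervalIntegrable_iff_integrableOn_Ioc_of_le (by positivity)] at hg ⊢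
  refine Integrable.mul_bdd (c := J) hg ?_ ?_
  · exact (hm.comp (cont_ex L).measurable).aestronglyMeasurable
  · exact Filter.Eventually.of_forall (fun θ => by rw [Real.norm_eq_abs]; exact hb _)

end CombAsmE

open CombAsmE

theorem comb (hD : StmtDec) (hP : StmtPol) (hB : StmtBm) (hG : StmtKg)
    (h1 : StmtK1) (hN : StmtNR) (hC : StmtChain) (h2 : StmtD2) (h3 : StmtD3) : StmtComb := by
  intro w hw
  obtain ⟨Db, J, Cp, hDb, hJ, hCm, hCb, hdec, hC0⟩ := hD w hw
  obtain ⟨-, hi2, -⟩ := h2 w hw
  obtain ⟨-, hi3, -⟩ := h3 w hw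
  obtain ⟨hch1, hch2, hch3⟩ := hC Db hDb
  obtain ⟨hn1, hn2⟩ := hN
  have hpi := Real.pi_pos
  have hne : ∀ L θ : ℝ, Complex.exp (L + Complex.I * θ) ≠ 0 := fun L θ => Complex.exp_ne_zero _
  -- polar coordinates
  obtain ⟨hp1, -, hp3⟩ := hP.2 (fun l => k1 l * Bm (Real.log ‖l‖) * Dw w l) hi3
  obtain ⟨hq1, -, hq3⟩ := hP.2 (fun l => Kl l * Dw w l) hi2
  obtain ⟨-, hr2, -⟩ := hP.2 (fun l => Kl l) hG.2.2.2.1
  have h0 : ∀ᵐ L : ℝ, L ≠ 0 := by
    rw [ae_iff]
    simp
  -- the bad side
  have hbad : ∀ L : ℝ, L ≠ 0 →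
      8 * (∫ θ in (0)..(2 * Real.pi), (k1 (Complex.exp (L + Complex.I * θ)) *
        Bm (Real.log ‖Complex.exp (L + Complex.I * θ)‖) * Dw w (Complex.exp (L + Complex.I * θ))))
      ≤ 8 * Bm L * kap L * Db L + 2 * J * (8 * Bm L * (2 * kap L - 2 * Real.pi * k1r L)) := by
    intro L hL
    have hk : IntervalIntegrable (fun θ : ℝ => k1 (Complex.exp (L + Complex.I * θ))) volume
        0 (2 * Real.pi) := (k1_cont hL).intervalIntegrable _ _
    have hkc := Cp_ii hCm hCb L _ hk
    have hcc := Cp_ii hCm hCb L (fun _ => k1r L) intervalIntegrable_const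
    have hz : ∀ c : ℝ, ∫ θ in (0)..(2 * Real.pi), c * Cp (Complex.exp (L + Complex.I * θ)) = 0 := by
      intro c
      rw [intervalIntegral.integral_const_mul, hC0 L, mul_zero]
    have e1 : (∫ θ in (0)..(2 * Real.pi), (k1 (Complex.exp (L + Complex.I * θ)) *
        Bm (Real.log ‖Complex.exp (L + Complex.I * θ)‖) * Dw w (Complex.exp (L + Complex.I * θ))))
        = ∫ θ in (0)..(2 * Real.pi), ((Bm L * (Db L + 2 * J)) * k1 (Complex.exp (L + Complex.I * θ)) -
          2 * Bm L * (k1 (Complex.exp (L + Complex.I * θ)) * Cp (Complex.exp (L + Complex.I * θ)))) := by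
      refine intervalIntegral.integral_congr (fun θ _ => ?_)
      rw [hdec _ (hne L θ), log_ex]
      ring
    have e2 : (∫ θ in (0)..(2 * Real.pi), ((Bm L * (Db L + 2 * J)) * k1 (Complex.exp (L + Complex.I * θ)) -
          2 * Bm L * (k1 (Complex.exp (L + Complex.I * θ)) * Cp (Complex.exp (L + Complex.I * θ)))))
        = Bm L * (Db L + 2 * J) * kap L - 2 * Bm L * ∫ θ in (0)..(2 * Real.pi),
          k1 (Complex.exp (L + Complex.I * θ)) * Cp (Complex.exp (L + Complex.I * θ)) := by
      rw [intervalIntegral.integral_sub (hk.const_mul _) (hkc.const_mul _),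
        intervalIntegral.integral_const_mul, intervalIntegral.integral_const_mul]
      rfl
    have e3 : -(∫ θ in (0)..(2 * Real.pi),
          k1 (Complex.exp (L + Complex.I * θ)) * Cp (Complex.exp (L + Complex.I * θ)))
        ≤ J * (kap L - 2 * Real.pi * k1r L) := by
      have e4 : -(∫ θ in (0)..(2 * Real.pi),
          k1 (Complex.exp (L + Complex.I * θ)) * Cp (Complex.exp (L + Complex.I * θ)))
          ≤ ∫ θ in (0)..(2 * Real.pi), ((J * k1 (Complex.exp (L + Complex.I * θ)) - J * k1r L) -
            k1r L * Cp (Complex.exp (L + Complex.I * θ))) := by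
        rw [← intervalIntegral.integral_neg]
        refine intervalIntegral.integral_mono_on (by positivity) hkc.neg
          (((hk.const_mul _).sub intervalIntegrable_const).sub hcc) (fun θ _ => ?_)
        have a1 := h1.1 L θ (Or.inl hL)
        have a2 := (abs_le.mp (hCb (Complex.exp (L + Complex.I * θ)))).1
        nlinarith [mul_nonneg (sub_nonneg.mpr a1) (show (0:ℝ) ≤ J + Cp (Complex.exp (L + Complex.I * θ)) by linarith)]
      refine e4.trans (le_of_eq ?_)
      rw [intervalIntegral.integral_sub ((hk.const_mul _).sub intervalIntegrable_const) hcc,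
        intervalIntegral.integral_sub (hk.const_mul _) intervalIntegrable_const,
        intervalIntegral.integral_const_mul, intervalIntegral.integral_const, hz (k1r L)]
      simp only [smul_eq_mul, sub_zero]
      change J * kap L - _ = _
      ring
    rw [e1, e2]
    have hb0 := (hB.2.1 L).1
    nlinarith [mul_le_mul_of_nonneg_left e3 hb0]
  -- the good side
  have hgood : ∀ L : ℝ, L ≠ 0 → IntervalIntegrable (fun θ : ℝ => Kl (Complex.exp (L + Complex.I * θ)))
        volume 0 (2 * Real.pi) →
      kg L * Db L + 2 * J * (2 * Real.pi * kbar L) ≤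
      (∫ θ in (0)..(2 * Real.pi), (Kl (Complex.exp (L + Complex.I * θ)) *
        Dw w (Complex.exp (L + Complex.I * θ)))) := by
    intro L hL hk
    have hkc := Cp_ii hCm hCb L _ hk
    have hcc := Cp_ii hCm hCb L (fun _ => kbar L) intervalIntegrable_const
    have hz : ∀ c : ℝ, ∫ θ in (0)..(2 * Real.pi), c * Cp (Complex.exp (L + Complex.I * θ)) = 0 := by
      intro c
      rw [intervalIntegral.integral_const_mul, hC0 L, mul_zero]
    have e1 : (∫ θ in (0)..(2 * Real.pi), (Kl (Complex.exp (L + Complex.I * θ)) *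
        Dw w (Complex.exp (L + Complex.I * θ))))
        = ∫ θ in (0)..(2 * Real.pi), ((Db L * Kl (Complex.exp (L + Complex.I * θ))) +
          2 * (J * Kl (Complex.exp (L + Complex.I * θ)) -
          (Kl (Complex.exp (L + Complex.I * θ)) * Cp (Complex.exp (L + Complex.I * θ))))) := by
      refine intervalIntegral.integral_congr (fun θ _ => ?_)
      rw [hdec _ (hne L θ), log_ex]
      ring
    have e2 : (∫ θ in (0)..(2 * Real.pi), ((Db L * Kl (Complex.exp (L + Complex.I * θ))) +
          2 * (J * Kl (Complex.exp (L + Complex.I * θ)) -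
          (Kl (Complex.exp (L + Complex.I * θ)) * Cp (Complex.exp (L + Complex.I * θ))))))
        = Db L * kg L + 2 * ∫ θ in (0)..(2 * Real.pi), (J * Kl (Complex.exp (L + Complex.I * θ)) -
          (Kl (Complex.exp (L + Complex.I * θ)) * Cp (Complex.exp (L + Complex.I * θ)))) := by
      rw [intervalIntegral.integral_add (hk.const_mul _) (((hk.const_mul _).sub hkc).const_mul _),
        intervalIntegral.integral_const_mul, intervalIntegral.integral_const_mul]
      congr 2
      unfold kg
      refine intervalIntegral.integral_congr (fun θ _ => ?_)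
      rw [hG.2.2.2.2.1 L θ]
    have e3 : 2 * Real.pi * kbar L * J ≤ ∫ θ in (0)..(2 * Real.pi),
          (J * Kl (Complex.exp (L + Complex.I * θ)) -
          (Kl (Complex.exp (L + Complex.I * θ)) * Cp (Complex.exp (L + Complex.I * θ)))) := by
      have e4 : (∫ θ in (0)..(2 * Real.pi), (J * kbar L - kbar L * Cp (Complex.exp (L + Complex.I * θ))))
          ≤ ∫ θ in (0)..(2 * Real.pi), (J * Kl (Complex.exp (L + Complex.I * θ)) -
          (Kl (Complex.exp (L + Complex.I * θ)) * Cp (Complex.exp (L + Complex.I * θ)))) := by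
        refine intervalIntegral.integral_mono_on (by positivity)
          (intervalIntegrable_const.sub hcc) ((hk.const_mul _).sub hkc) (fun θ _ => ?_)
        have hpos : 2 * Real.cosh L + 2 * Real.cos θ ≠ 0 := by
          have b1 := Real.one_lt_cosh.mpr hL
          have b2 := Real.neg_one_le_cos θ
          intro hc
          linarith
        have a1 := hG.2.2.2.2.2.1 L θ hpos
        rw [← hG.2.2.2.2.1 L θ] at a1
        have a2 := (abs_le.mp (hCb (Complex.exp (L + Complex.I * θ)))).2
        nlinarith [mul_nonneg (sub_nonneg.mpr a1) (show (0:ℝ) ≤ J - Cp (Complex.exp (L + Complex.I * θ)) by linarith)]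
      refine le_trans (le_of_eq ?_) e4
      rw [intervalIntegral.integral_sub intervalIntegrable_const hcc,
        intervalIntegral.integral_const, hz (kbar L)]
      simp only [smul_eq_mul, sub_zero]
      ring
    rw [e1, e2]
    nlinarith [e3]
  -- integrate
  have hchI : Integrable (fun L : ℝ => 8 * Bm L * kap L * Db L + 2 * J * (8 * Bm L * (2 * kap L - 2 * Real.pi * k1r L))) :=
    hch1.add (hn1.const_mul _)
  have hkgI : Integrable (fun L : ℝ => kg L * Db L + 2 * J * (2 * Real.pi * kbar L)) :=
    hch2.add ((kbar_int.const_mul _).const_mul _)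
  have f1 : 8 * ∫ l : ℂ, k1 l * Bm (Real.log ‖l‖) * Dw w l / ‖l‖ ^ 2
      ≤ ∫ L : ℝ, (8 * Bm L * kap L * Db L + 2 * J * (8 * Bm L * (2 * kap L - 2 * Real.pi * k1r L))) := by
    rw [hp3, ← integral_const_mul]
    refine integral_mono_ae (hp1.const_mul _) hchI ?_
    filter_upwards [h0] with L hL
    exact hbad L hL
  have f2 : ∫ L : ℝ, (kg L * Db L + 2 * J * (2 * Real.pi * kbar L)) ≤
      ∫ l : ℂ, Kl l * Dw w l / ‖l‖ ^ 2 := by
    rw [hq3]
    refine integral_mono_ae hkgI hq1 ?_
    filter_upwards [h0, hr2] with L hL hL2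
    exact hgood L hL hL2
  refine f1.trans (le_trans ?_ f2)
  rw [integral_add hch1 (hn1.const_mul _), integral_add hch2 ((kbar_int.const_mul _).const_mul _),
    integral_const_mul, integral_const_mul, integral_const_mul]
  have g := mul_le_mul_of_nonneg_left hn2 (show (0:ℝ) ≤ 2 * J by linarith)
  linarith

end Pool.Agent.Lib.MP_dd244f_an.Rq
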