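import Pool.Agent.Lib.MP_dd244f_an.Rq.Stmts

set_option autoImplicit false

/-!
(D2) the good form is the difference form with the kernel `Kl` on `ℂ*`.
-/

namespace Pool.Agent.Lib.MP_dd244f_an.Rq

open MeasureTheory Filter Topology
open Pool.Agent.Lib.MP_dd244f_an.Rp
open scoped ENNReal NNReal

namespace D2Aux

/-! ### complex scaling -/

theorem det_mul (k : ℂ) : LinearMap.det (LinearMap.mulLeft ℝ k) = ‖k‖ ^ 2 := by
  have e : (LinearMap.mulLeft ℝ k : ℂ →ₗ[ℝ] ℂ) = (LinearMap.mulLeft ℂ k).restrictScalars ℝ := rfl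
  rw [e, LinearMap.det_restrictScalars, Algebra.norm_complex_eq]
  have e2 : LinearMap.det (LinearMap.mulLeft ℂ k) = k := by
    have : (LinearMap.mulLeft ℂ k) = k • (LinearMap.id : ℂ →ₗ[ℂ] ℂ) := by
      ext; simp
    rw [this]
    simp
  rw [e2]
  simp [Complex.normSq_eq_norm_sq]

theorem map_mul {k : ℂ} (hk : k ≠ 0) : Measure.map (fun z : ℂ => k * z) volume =
    ENNReal.ofReal ((‖k‖ ^ 2)⁻¹) • (volume : Measure ℂ) := by
  have h := Measure.map_linearMap_addHaar_eq_smul_addHaar (volume : Measure ℂ)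
    (f := LinearMap.mulLeft ℝ k) (by rw [det_mul]; positivity)
  rw [det_mul, abs_of_nonneg (by positivity)] at h
  exact h

theorem emb {k : ℂ} (hk : k ≠ 0) : MeasurableEmbedding (fun z : ℂ => k * z) :=
  (Homeomorph.mulLeft₀ k hk).measurableEmbedding

theorem int_mul {k : ℂ} (hk : k ≠ 0) (g : ℂ → ℝ) : ∫ z, g z = ‖k‖ ^ 2 * ∫ z, g (k * z) := by
  have h := (emb hk).integral_map (μ := volume) g
  rw [map_mul hk, integral_smul_measure, ENNReal.toReal_ofReal (by positivity)] at h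
  rw [← h, smul_eq_mul, ← mul_assoc, mul_inv_cancel₀ (by positivity), one_mul]

theorem lint_mul {k : ℂ} (hk : k ≠ 0) (g : ℂ → ℝ≥0∞) :
    ∫⁻ z, g z = ENNReal.ofReal (‖k‖ ^ 2) * ∫⁻ z, g (k * z) := by
  have h := (emb hk).lintegral_map (μ := volume) g
  rw [map_mul hk, lintegral_smul_measure] at h
  rw [← h, smul_eq_mul, ← mul_assoc, ← ENNReal.ofReal_mul (by positivity),
    mul_inv_cancel₀ (by positivity), ENNReal.ofReal_one, one_mul]

/-! ### coordinates -/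

/-- the coordinates of a quadruple -/
noncomputable def ec : XX 1 ≃ᵐ (ℂ × ℂ) × ℂ :=
  MeasurableEquiv.prodCongr MeasurableEquiv.finTwoArrow (MeasurableEquiv.funUnique (Fin 1) ℂ)

theorem ec_apply (X : XX 1) : ec X = ((X.1 0, X.1 1), X.2 0) := rfl

theorem ec_mp : MeasurePreserving ec :=
  (volume_preserving_finTwoArrow ℂ).prod (volume_preserving_funUnique (Fin 1) ℂ)

theorem xl_eq (X : XX 1) : xl X = X.1 0 + X.1 1 - X.2 0 := by
  unfold xl
  simp

/-- the weight in coordinates -/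
noncomputable def omc (p : (ℂ × ℂ) × ℂ) : ℝ :=
  (‖p.1.1‖ * ‖p.1.2‖ * (‖p.2‖ * ‖p.1.1 + p.1.2 - p.2‖)) ^ (-(3 / 2) : ℝ)

/-- the logarithm in coordinates -/
noncomputable def x0c (p : (ℂ × ℂ) × ℂ) : ℝ :=
  2 * Real.log (‖p.1.1‖ * ‖p.1.2‖ / (‖p.2‖ * ‖p.1.1 + p.1.2 - p.2‖))

theorem om_eq (X : XX 1) : om X = omc (ec X) := by
  unfold om omc
  rw [ec_apply, xl_eq]

theorem x0_eq (X : XX 1) : x0 X = x0c (ec X) := by
  unfold x0 x0c
  rw [ec_apply, xl_eq]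

theorem omc_nonneg (p : (ℂ × ℂ) × ℂ) : 0 ≤ omc p := by unfold omc; positivity

theorem omc_meas : Measurable omc := by unfold omc; fun_prop

theorem x0c_meas : Measurable x0c := by
  unfold x0c
  exact (Real.measurable_log.comp (by fun_prop)).const_mul 2

/-- swapping the first two coordinates -/
theorem swap_mp : MeasurePreserving (fun p : (ℂ × ℂ) × ℂ => ((p.1.2, p.1.1), p.2)) :=
  (Measure.measurePreserving_swap (μ := (volume : Measure ℂ)) (ν := (volume : Measure ℂ))).prod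
    (MeasurePreserving.id (volume : Measure ℂ))

theorem omc_swap (p : (ℂ × ℂ) × ℂ) : omc ((p.1.2, p.1.1), p.2) = omc p := by
  unfold omc
  simp only
  rw [mul_comm ‖p.1.2‖ ‖p.1.1‖, add_comm p.1.2 p.1.1]

/-! ### integrability on quadruples -/

theorem al_cont (hW : StmtWh) : Continuous al := by
  obtain ⟨-, -, -, -, h1, h2, -, -, -⟩ := hW
  have : al = fun X => wh X / 2 + 2 * wh1 X := rfl
  rw [this]
  fun_prop

theorem supp_facts {w : ℂ → ℝ} (hw : WN w) : Continuous (fun ζ => w ζ ^ 2) ∧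
    HasCompactSupport (fun ζ => w ζ ^ 2) ∧ ∀ᶠ ζ in 𝓝 (0 : ℂ), w ζ ^ 2 = 0 := by
  obtain ⟨hc, -, r, R, hr, hs⟩ := hw
  refine ⟨by fun_prop, ?_, ?_⟩
  · refine HasCompactSupport.intro (isCompact_closedBall (0 : ℂ) R) fun x hx => ?_
    by_contra h
    have h2 : w x ≠ 0 := fun h0 => h (by rw [h0]; ring)
    exact hx (by simpa using (hs x h2).2)
  · filter_upwards [Metric.ball_mem_nhds (0 : ℂ) hr] with x hx
    by_contra h
    have h2 : w x ≠ 0 := fun h0 => h (by rw [h0]; ring)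
    have := (hs x h2).1
    rw [Metric.mem_ball, dist_zero_right] at hx
    linarith

theorem int_a (hL : StmtLin) {w : ℂ → ℝ} (hw : WN w) :
    Integrable (fun p : (ℂ × ℂ) × ℂ => omc p * w p.1.1 ^ 2) := by
  obtain ⟨h1, h2, h3⟩ := supp_facts hw
  have h := (hL _ h1 h2 h3).1
  rw [← ec_mp.integrable_comp_emb ec.measurableEmbedding]
  refine h.congr (Eventually.of_forall fun X => ?_)
  simp only [Function.comp_apply, om_eq]
  rfl

theorem int_b (hL : StmtLin) {w : ℂ → ℝ} (hw : WN w) :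
    Integrable (fun p : (ℂ × ℂ) × ℂ => omc p * w p.1.2 ^ 2) := by
  have h := swap_mp.integrable_comp_of_integrable (int_a hL hw)
  refine h.congr (Eventually.of_forall fun p => ?_)
  simp only [Function.comp_apply, omc_swap]

/-- the integrand in coordinates -/
noncomputable def Ph (w : ℂ → ℝ) (p : (ℂ × ℂ) × ℂ) : ℝ :=
  omc p * al (x0c p) * (w p.1.1 - w p.1.2) ^ 2

theorem Ph_int (hW : StmtWh) (hL : StmtLin) {w : ℂ → ℝ} (hw : WN w) : Integrable (Ph w) := by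
  have hal := al_cont hW
  obtain ⟨C, hC⟩ := hW.2.2.2.2.2.2.2.2
  have hm : Measurable (Ph w) := by
    unfold Ph
    have h1 := hw.1.measurable
    have h2 := omc_meas
    have h3 : Measurable (fun p => al (x0c p)) := hal.measurable.comp x0c_meas
    fun_prop
  refine Integrable.mono' (((int_a hL hw).add (int_b hL hw)).const_mul (2 * C))
    hm.aestronglyMeasurable (Eventually.of_forall fun p => ?_)
  have h0 := omc_nonneg p
  have h1 := (hC (x0c p)).2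
  have hC0 : 0 ≤ C := (abs_nonneg _).trans h1
  unfold Ph
  rw [Real.norm_eq_abs, abs_mul, abs_mul, abs_of_nonneg h0, abs_of_nonneg (sq_nonneg (w p.1.1 - w p.1.2))]
  have h2 : (w p.1.1 - w p.1.2) ^ 2 ≤ 2 * (w p.1.1 ^ 2 + w p.1.2 ^ 2) := by
    nlinarith [sq_nonneg (w p.1.1 + w p.1.2)]
  calc omc p * |al (x0c p)| * (w p.1.1 - w p.1.2) ^ 2
      ≤ omc p * C * (2 * (w p.1.1 ^ 2 + w p.1.2 ^ 2)) := by gcongr
    _ = 2 * C * (omc p * w p.1.1 ^ 2 + omc p * w p.1.2 ^ 2) := by ring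

/-! ### the inner integral -/

theorem alg1 {A S : ℝ} (hA : 0 < A) (hS : 0 < S) :
    S * (A * S) ^ (-(3 / 2) : ℝ) = (A ^ 2)⁻¹ * Real.exp (Real.log (A / S) / 2) := by
  obtain ⟨x, rfl⟩ : ∃ x, A = Real.exp x := ⟨Real.log A, (Real.exp_log hA).symm⟩
  obtain ⟨y, rfl⟩ : ∃ y, S = Real.exp y := ⟨Real.log S, (Real.exp_log hS).symm⟩
  rw [← Real.exp_add, ← Real.exp_sub, Real.log_exp, ← Real.exp_mul, ← Real.exp_nat_mul,
    ← Real.exp_neg, ← Real.exp_add, ← Real.exp_add]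
  congr 1
  push_cast
  ring

theorem inner (hK : StmtKid) {a b : ℂ} (ha : a ≠ 0) (hb : b ≠ 0) (hs : a + b ≠ 0) :
    ∫ c : ℂ, omc ((a, b), c) * al (x0c ((a, b), c))
      = ((‖a‖ * ‖b‖) ^ 2)⁻¹ * Kt (Real.log (‖a‖ * ‖b‖ / ‖a + b‖ ^ 2)) := by
  have hA : 0 < ‖a‖ * ‖b‖ := by positivity
  have hS : 0 < ‖a + b‖ ^ 2 := by positivity
  set A := ‖a‖ * ‖b‖ with hAd
  set S := ‖a + b‖ ^ 2 with hSd
  rw [int_mul hs]
  have e : ∀ᵐ z : ℂ, omc ((a, b), (a + b) * z) * al (x0c ((a, b), (a + b) * z))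
      = (A * S) ^ (-(3 / 2) : ℝ) * (‖z‖ ^ (-(3 / 2) : ℝ) * ‖1 - z‖ ^ (-(3 / 2) : ℝ) *
        al (2 * Real.log (A / S) - 2 * Real.log (‖z‖ * ‖1 - z‖))) := by
    have hz : ∀ᵐ ζ : ℂ, ζ ≠ 0 := by simp [ae_iff, measure_singleton]
    have hz' : ∀ᵐ ζ : ℂ, ζ ≠ 1 := by simp [ae_iff, measure_singleton]
    filter_upwards [hz, hz'] with z h0 h1
    have h2 : 0 < ‖z‖ := norm_pos_iff.mpr h0
    have h3 : 0 < ‖1 - z‖ := norm_pos_iff.mpr (sub_ne_zero.mpr (Ne.symm h1))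
    have e1 : ‖(a + b) * z‖ * ‖a + b - (a + b) * z‖ = S * (‖z‖ * ‖1 - z‖) := by
      rw [show a + b - (a + b) * z = (a + b) * (1 - z) by ring, norm_mul, norm_mul, hSd]
      ring
    unfold omc x0c
    simp only
    rw [e1, ← hAd]
    have e2 : (A * (S * (‖z‖ * ‖1 - z‖))) ^ (-(3 / 2) : ℝ) =
        (A * S) ^ (-(3 / 2) : ℝ) * (‖z‖ ^ (-(3 / 2) : ℝ) * ‖1 - z‖ ^ (-(3 / 2) : ℝ)) := by
      rw [← mul_assoc, Real.mul_rpow (by positivity) (by positivity),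
        Real.mul_rpow h2.le h3.le]
    have e3 : 2 * Real.log (A / (S * (‖z‖ * ‖1 - z‖))) =
        2 * Real.log (A / S) - 2 * Real.log (‖z‖ * ‖1 - z‖) := by
      rw [← div_div, Real.log_div (by positivity) (by positivity)]
      ring
    rw [e2, e3]
    ring
  rw [integral_congr_ae e, integral_const_mul, hK.2, ← mul_assoc, alg1 hA hS]
  unfold Kt
  ring

/-- the integrand on pairs -/
noncomputable def Ps (w : ℂ → ℝ) (q : ℂ × ℂ) : ℝ :=
  ((‖q.1‖ * ‖q.2‖) ^ 2)⁻¹ * Kt (Real.log (‖q.1‖ * ‖q.2‖ / ‖q.1 + q.2‖ ^ 2)) *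
    (w q.1 - w q.2) ^ 2

theorem ae_good : ∀ᵐ q : ℂ × ℂ, q.1 ≠ 0 ∧ q.2 ≠ 0 ∧ q.1 + q.2 ≠ 0 := by
  have h0 : MeasurableSet {q : ℂ × ℂ | q.1 ≠ 0 ∧ q.2 ≠ 0 ∧ q.1 + q.2 ≠ 0} := by
    refine MeasurableSet.inter ?_ (MeasurableSet.inter ?_ ?_)
    · exact (measurable_fst (measurableSet_singleton (0 : ℂ))).compl
    · exact (measurable_snd (measurableSet_singleton (0 : ℂ))).compl
    · exact ((measurable_fst.add measurable_snd) (measurableSet_singleton (0 : ℂ))).compl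
  rw [Measure.volume_eq_prod, Measure.ae_prod_iff_ae_ae h0]
  have hz : ∀ᵐ ζ : ℂ, ζ ≠ 0 := by simp [ae_iff, measure_singleton]
  filter_upwards [hz] with a ha
  have hz' : ∀ᵐ ζ : ℂ, ζ ≠ -a := by simp [ae_iff, measure_singleton]
  filter_upwards [hz, hz'] with b hb hb'
  exact ⟨ha, hb, fun h => hb' (by rw [add_comm] at h; exact eq_neg_of_add_eq_zero_left h)⟩

theorem fib (hK : StmtKid) (w : ℂ → ℝ) : ∀ᵐ q : ℂ × ℂ, ∫ c : ℂ, Ph w (q, c) = Ps w q := by
  filter_upwards [ae_good] with q hq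
  obtain ⟨a, b⟩ := q
  unfold Ph Ps
  simp only
  rw [integral_mul_const, inner hK hq.1 hq.2.1 hq.2.2]

theorem Ps_int (hK : StmtKid) (hW : StmtWh) (hL : StmtLin) {w : ℂ → ℝ} (hw : WN w) :
    Integrable (Ps w) ∧ ∫ p, Ph w p = ∫ q, Ps w q := by
  have h := Ph_int hW hL hw
  rw [Measure.volume_eq_prod] at h
  refine ⟨h.integral_prod_left.congr (fib hK w), ?_⟩
  rw [Measure.volume_eq_prod, integral_prod _ h]
  exact integral_congr_ae (fib hK w)

/-! ### the substitution `b = a l` -/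

/-- the integrand in `(a, l)` -/
noncomputable def Om2 (w : ℂ → ℝ) (q : ℂ × ℂ) : ℝ :=
  (w q.1 - w (q.2 * q.1)) ^ 2 / ‖q.1‖ ^ 2 * (Kl q.2 / ‖q.2‖ ^ 2)

theorem Kl_nonneg (hT : StmtKt) (l : ℂ) : 0 ≤ Kl l := (hT.2.1 _).le

theorem Kl_meas (hT : StmtKt) : Measurable Kl := by
  unfold Kl
  refine hT.1.measurable.comp (Real.measurable_log.comp ?_)
  fun_prop

theorem Ps_nonneg (hT : StmtKt) (w : ℂ → ℝ) (q : ℂ × ℂ) : 0 ≤ Ps w q := by
  have := (hT.2.1 (Real.log (‖q.1‖ * ‖q.2‖ / ‖q.1 + q.2‖ ^ 2))).le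
  unfold Ps
  positivity

theorem Om2_nonneg (hT : StmtKt) (w : ℂ → ℝ) (q : ℂ × ℂ) : 0 ≤ Om2 w q := by
  have := Kl_nonneg hT q.2
  unfold Om2
  positivity

theorem Ps_meas (hT : StmtKt) {w : ℂ → ℝ} (hw : Continuous w) : Measurable (Ps w) := by
  have h1 := hw.measurable
  have h2 : Measurable (fun q : ℂ × ℂ => Kt (Real.log (‖q.1‖ * ‖q.2‖ / ‖q.1 + q.2‖ ^ 2))) :=
    hT.1.measurable.comp (Real.measurable_log.comp (by fun_prop))
  unfold Ps
  fun_prop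

theorem Om2_meas (hT : StmtKt) {w : ℂ → ℝ} (hw : Continuous w) : Measurable (Om2 w) := by
  have h1 := hw.measurable
  have h2 := Kl_meas hT
  unfold Om2
  fun_prop

theorem Ps_sub (w : ℂ → ℝ) {a : ℂ} (ha : a ≠ 0) (l : ℂ) :
    ‖a‖ ^ 2 * Ps w (a, a * l) = Om2 w (a, l) := by
  have hn : 0 < ‖a‖ := norm_pos_iff.mpr ha
  unfold Ps Om2 Kl
  simp only
  have e1 : ‖a‖ * ‖a * l‖ / ‖a + a * l‖ ^ 2 = ‖l‖ / ‖1 + l‖ ^ 2 := by
    rw [show a + a * l = a * (1 + l) by ring, norm_mul, norm_mul, mul_pow,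
      show ‖a‖ * (‖a‖ * ‖l‖) = ‖a‖ ^ 2 * ‖l‖ by ring, mul_div_mul_left _ _ (by positivity)]
  rw [e1, norm_mul, mul_comm a l]
  rcases eq_or_ne l 0 with rfl | hl
  · simp
  · have : 0 < ‖l‖ := norm_pos_iff.mpr hl
    field_simp

theorem lint_eq (hT : StmtKt) {w : ℂ → ℝ} (hw : Continuous w) :
    ∫⁻ q, ENNReal.ofReal (Ps w q) = ∫⁻ q, ENNReal.ofReal (Om2 w q) := by
  rw [Measure.volume_eq_prod,
    lintegral_prod _ (Ps_meas hT hw).ennreal_ofReal.aemeasurable,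
    lintegral_prod _ (Om2_meas hT hw).ennreal_ofReal.aemeasurable]
  have hz : ∀ᵐ ζ : ℂ, ζ ≠ 0 := by simp [ae_iff, measure_singleton]
  refine lintegral_congr_ae ?_
  filter_upwards [hz] with a ha
  rw [lint_mul ha, ← lintegral_const_mul' _ _ ENNReal.ofReal_ne_top]
  refine lintegral_congr fun l => ?_
  rw [← ENNReal.ofReal_mul (by positivity), Ps_sub w ha]

theorem Om2_int (hK : StmtKid) (hT : StmtKt) (hW : StmtWh) (hL : StmtLin) {w : ℂ → ℝ}
    (hw : WN w) : Integrable (Om2 w) ∧ ∫ q, Ps w q = ∫ q, Om2 w q := by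
  have h := (Ps_int hK hW hL hw).1
  have hm := Om2_meas hT hw.1
  have h2 : ∫⁻ q, ENNReal.ofReal (Om2 w q) < ⊤ := by
    rw [← lint_eq hT hw.1]
    have := h.lintegral_lt_top
    exact this
  constructor
  · refine ⟨hm.aestronglyMeasurable, ?_⟩
    rw [hasFiniteIntegral_iff_ofReal (Eventually.of_forall (Om2_nonneg hT w))]
    exact h2
  · rw [integral_eq_lintegral_of_nonneg_ae (Eventually.of_forall (Ps_nonneg hT w))
      (Ps_meas hT hw.1).aestronglyMeasurable,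
      integral_eq_lintegral_of_nonneg_ae (Eventually.of_forall (Om2_nonneg hT w))
      hm.aestronglyMeasurable, lint_eq hT hw.1]

end D2Aux

open D2Aux

theorem d2 (hK : StmtKid) (hT : StmtKt) (hW : StmtWh) (hL : StmtLin) : StmtD2 := by
  intro w hw
  have hPh := Ph_int hW hL hw
  obtain ⟨-, e1⟩ := Ps_int hK hW hL hw
  obtain ⟨hO, e2⟩ := Om2_int hK hT hW hL hw
  have hX : (fun X : XX 1 => om X * al (x0 X) * (w (X.1 0) - w (X.1 1)) ^ 2)
      = fun X => Ph w (ec X) := by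
    funext X
    unfold Ph
    rw [om_eq, x0_eq]
    rfl
  have hl : ∀ l : ℂ, ∫ a : ℂ, Om2 w (a, l) = Kl l * Dw w l / ‖l‖ ^ 2 := by
    intro l
    unfold Om2 Dw
    simp only
    rw [integral_mul_const]
    ring
  rw [hX]
  refine ⟨(ec_mp.integrable_comp_emb ec.measurableEmbedding).mpr hPh, ?_, ?_⟩
  · rw [Measure.volume_eq_prod] at hO
    refine hO.integral_prod_right.congr (Eventually.of_forall fun l => ?_)
    exact hl l
  · rw [ec_mp.integral_comp ec.measurableEmbedding (Ph w), e1, e2]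
    rw [Measure.volume_eq_prod] at hO ⊢
    rw [integral_prod_symm _ hO]
    exact integral_congr_ae (Eventually.of_forall fun l => hl l)

end Pool.Agent.Lib.MP_dd244f_an.Rq
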