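import Pool.Agent.Lib.MP_dd244f_an.Rq.Stmts
import Pool.Agent.Lib.MP_dd244f_an.Rp.SCL
import Pool.Agent.Lib.MP_dd244f_an.Four.Riesz

/-!
(D3): the bad form is a kernel on `ℂ*`.
-/

set_option autoImplicit false

namespace Pool.Agent.Lib.MP_dd244f_an.Rq

open MeasureTheory Filter Topology
open Pool.Agent.Lib.MP_dd244f_an.Rp
open scoped ENNReal NNReal

namespace D3Aux

/-! ### Change of variables -/

lemma ae_ne (c : ℂ) : ∀ᵐ z : ℂ, z ≠ c := by
  simp [ae_iff, measure_singleton]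

lemma mulv {a : ℂ} (ha : a ≠ 0) (g : ℂ → ℝ≥0∞) :
    ∫⁻ c, g c = ∫⁻ l : ℂ, ENNReal.ofReal (‖a‖ ^ 2) * g (l * a) := by
  have him : (fun l : ℂ => l * a) '' ({0}ᶜ : Set ℂ) = {0}ᶜ := by
    ext z
    constructor
    · rintro ⟨l, hl, rfl⟩
      exact mul_ne_zero hl ha
    · intro hz
      exact ⟨z / a, div_ne_zero hz ha, div_mul_cancel₀ z ha⟩
  have h := SCLAux.cov (f := fun l : ℂ => l * a) (f' := fun _ => a) (S := {0}ᶜ)
    (measurableSet_singleton 0).compl (fun z _ => by simpa using (hasDerivAt_id z).mul_const a)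
    (fun x _ y _ hab => mul_right_cancel₀ ha hab) g
  rw [him, SCLAux.restr, SCLAux.restr] at h
  exact h

lemma mob {b : ℂ} (hb : b ≠ 0) (g : ℂ → ℝ≥0∞) :
    ∫⁻ c, g c = ∫⁻ ν : ℂ, ENNReal.ofReal (‖b / (1 - ν) ^ 2‖ ^ 2) * g (b * ν / (1 - ν)) := by
  have him : (fun ν : ℂ => b * ν / (1 - ν)) '' ({1}ᶜ : Set ℂ) = {-b}ᶜ := by
    ext z
    constructor
    · rintro ⟨ν, hν, rfl⟩
      have h1 : (1 : ℂ) - ν ≠ 0 := sub_ne_zero.mpr (Ne.symm hν)
      intro h
      simp only [Set.mem_singleton_iff] at h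
      rw [div_eq_iff h1] at h
      apply hb
      linear_combination h
    · intro hz
      have h1 : b + z ≠ 0 := by
        intro h
        apply hz
        simp only [Set.mem_singleton_iff]
        linear_combination h
      refine ⟨z / (b + z), ?_, ?_⟩
      · intro h
        simp only [Set.mem_singleton_iff] at h
        rw [div_eq_one_iff_eq h1] at h
        apply hb
        linear_combination -h
      · have e : (1 : ℂ) - z / (b + z) = b / (b + z) := by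
          rw [eq_div_iff h1, sub_mul, div_mul_cancel₀ _ h1]
          ring
        simp only
        rw [e]
        field_simp
  have h := SCLAux.cov (f := fun ν : ℂ => b * ν / (1 - ν)) (f' := fun ν => b / (1 - ν) ^ 2)
    (S := {1}ᶜ) (measurableSet_singleton 1).compl (fun z hz => ?_) ?_ g
  · rw [him, Measure.restrict_eq_self_of_ae_mem (by simpa using ae_ne (-b)),
      Measure.restrict_eq_self_of_ae_mem (by simpa using ae_ne 1)] at h
    exact h
  · have h1 : (1 : ℂ) - z ≠ 0 := sub_ne_zero.mpr (Ne.symm hz)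
    have d1 : HasDerivAt (fun ν : ℂ => b * ν) b z := by
      simpa using (hasDerivAt_id z).const_mul b
    have d2 : HasDerivAt (fun ν : ℂ => 1 - ν) (-1) z := by
      simpa using (hasDerivAt_id z).const_sub 1
    refine (d1.div d2 h1).congr_deriv ?_
    congr 1
    ring
  · intro x hx y hy hab
    have h1 : (1 : ℂ) - x ≠ 0 := sub_ne_zero.mpr (Ne.symm hx)
    have h2 : (1 : ℂ) - y ≠ 0 := sub_ne_zero.mpr (Ne.symm hy)
    simp only at hab
    rw [div_eq_div_iff h1 h2] at hab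
    have : b * (x - y) = 0 := by linear_combination hab
    rcases mul_eq_zero.mp this with h | h
    · exact absurd h hb
    · exact sub_eq_zero.mp h

/-! ### Coordinates -/

/-- coordinates on `XX 1` -/
noncomputable def mk (a b c : ℂ) : XX 1 := (![a, b], ![c])

lemma mk1 (a b c : ℂ) : (mk a b c).1 0 = a := rfl
lemma mk2 (a b c : ℂ) : (mk a b c).1 1 = b := rfl
lemma mk3 (a b c : ℂ) : (mk a b c).2 0 = c := rfl
lemma mk4 (a b c : ℂ) : xl (mk a b c) = a + b - c := by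
  unfold xl mk
  simp

lemma coords (F : XX 1 → ℝ≥0∞) (hF : Measurable F) :
    ∫⁻ X, F X = ∫⁻ a : ℂ, ∫⁻ c : ℂ, ∫⁻ b : ℂ, F (mk a b c) := by
  have h1 : ∫⁻ X : XX 1, F X = ∫⁻ p : Fin 2 → ℂ, ∫⁻ q : Fin 1 → ℂ, F (p, q) :=
    lintegral_prod _ hF.aemeasurable
  have m2 := (volume_preserving_finTwoArrow ℂ).symm
  have m1 := (volume_preserving_funUnique (Fin 1) ℂ).symm
  have h2 : ∀ p : Fin 2 → ℂ, ∫⁻ q : Fin 1 → ℂ, F (p, q) = ∫⁻ c : ℂ, F (p, ![c]) := by
    intro p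
    have h := m1.lintegral_comp (f := fun q : Fin 1 → ℂ => F (p, q))
      (hF.comp (measurable_const.prodMk measurable_id))
    refine h.symm.trans ?_
    refine lintegral_congr fun c => ?_
    congr 2
    ext i
    fin_cases i
    rfl
  have h3 : Measurable (fun p : Fin 2 → ℂ => ∫⁻ c : ℂ, F (p, ![c])) := by
    apply Measurable.lintegral_prod_right'
      (f := fun z : (Fin 2 → ℂ) × ℂ => F (z.1, ![z.2]))
    apply hF.comp
    apply Measurable.prodMk measurable_fst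
    apply measurable_pi_lambda
    intro i
    fin_cases i
    exact measurable_snd
  have h4 : ∫⁻ p : Fin 2 → ℂ, ∫⁻ c : ℂ, F (p, ![c]) = ∫⁻ z : ℂ × ℂ, ∫⁻ c : ℂ, F (![z.1, z.2], ![c]) := by
    have h := m2.lintegral_comp (f := fun p : Fin 2 → ℂ => ∫⁻ c : ℂ, F (p, ![c])) h3
    refine h.symm.trans ?_
    refine lintegral_congr fun z => ?_
    rfl
  have hm : Measurable (fun z : (ℂ × ℂ) × ℂ => F (mk z.1.1 z.1.2 z.2)) := by
    apply hF.comp
    unfold mk
    apply Measurable.prodMk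
    · apply measurable_pi_lambda
      intro i
      fin_cases i
      · exact measurable_fst.comp measurable_fst
      · exact measurable_snd.comp measurable_fst
    · apply measurable_pi_lambda
      intro i
      fin_cases i
      exact measurable_snd
  have h5 : ∫⁻ z : ℂ × ℂ, ∫⁻ c : ℂ, F (![z.1, z.2], ![c])
      = ∫⁻ a : ℂ, ∫⁻ b : ℂ, ∫⁻ c : ℂ, F (mk a b c) :=
    lintegral_prod _ (Measurable.lintegral_prod_right' hm).aemeasurable
  rw [h1, lintegral_congr h2, h4, h5]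
  refine lintegral_congr fun a => ?_
  apply lintegral_lintegral_swap
  exact (hm.comp ((measurable_const.prodMk measurable_fst).prodMk measurable_snd)).aemeasurable

/-! ### The integrand in the new coordinates -/

lemma om_new {a l ν : ℂ} (ha : a ≠ 0) (hl : l ≠ 0) (hl1 : l ≠ 1) (hν : ν ≠ 0) (hν1 : ν ≠ 1) :
    ‖a‖ ^ 2 * (‖(1 - l) * a / (1 - ν) ^ 2‖ ^ 2 * om (mk a ((1 - l) * a * ν / (1 - ν)) (l * a)))
      = (‖a‖ ^ 2)⁻¹ * (k1 l / ‖l‖ ^ 2) * (k1 ν / ‖ν‖ ^ 2) := by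
  have h1 : (1 : ℂ) - ν ≠ 0 := sub_ne_zero.mpr (Ne.symm hν1)
  have h2 : (1 : ℂ) - l ≠ 0 := sub_ne_zero.mpr (Ne.symm hl1)
  have e4 : a + (1 - l) * a * ν / (1 - ν) - l * a = (1 - l) * a / (1 - ν) := by
    field_simp
    ring
  unfold om k1
  rw [mk1, mk2, mk3, mk4, e4]
  simp only [norm_mul, norm_div, norm_pow]
  have A : 0 < ‖a‖ := norm_pos_iff.mpr ha
  have L : 0 < ‖l‖ := norm_pos_iff.mpr hl
  have L1 : 0 < ‖1 - l‖ := norm_pos_iff.mpr h2
  have N : 0 < ‖ν‖ := norm_pos_iff.mpr hν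
  have N1 : 0 < ‖1 - ν‖ := norm_pos_iff.mpr h1
  generalize ‖a‖ = A' at *
  generalize ‖l‖ = L' at *
  generalize ‖1 - l‖ = M' at *
  generalize ‖ν‖ = N' at *
  generalize ‖1 - ν‖ = K' at *
  have e : A' * (M' * A' * N' / K') * (L' * A' * (M' * A' / K'))
      = (A' ^ 2) ^ 2 * M' ^ 2 * L' * N' / K' ^ 2 := by
    field_simp
  rw [e, Real.div_rpow (by positivity) (by positivity), Real.mul_rpow (by positivity) (by positivity),
    Real.mul_rpow (by positivity) (by positivity), Real.mul_rpow (by positivity) (by positivity)]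
  have r1 : ((A' ^ 2) ^ 2) ^ (-(3 / 2) : ℝ) = (A' ^ 6)⁻¹ := by
    rw [← pow_mul, ← Real.rpow_natCast, ← Real.rpow_mul A.le, ← Real.rpow_natCast,
      ← Real.rpow_neg A.le]
    norm_num
  have r2 : (M' ^ 2) ^ (-(3 / 2) : ℝ) = (M' ^ 3)⁻¹ := by
    rw [← Real.rpow_natCast, ← Real.rpow_mul L1.le, ← Real.rpow_natCast, ← Real.rpow_neg L1.le]
    norm_num
  have r3 : (K' ^ 2) ^ (-(3 / 2) : ℝ) = (K' ^ 3)⁻¹ := by
    rw [← Real.rpow_natCast, ← Real.rpow_mul N1.le, ← Real.rpow_natCast, ← Real.rpow_neg N1.le]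
    norm_num
  have r4 : ∀ x : ℝ, 0 < x → x ^ (1 / 2 : ℝ) / x ^ 2 = x ^ (-(3 / 2) : ℝ) := by
    intro x hx
    rw [← Real.rpow_natCast, ← Real.rpow_sub hx]
    norm_num
  have r5 : ∀ x y : ℝ, 0 < x → x ^ (1 / 2 : ℝ) / y / x ^ 2 = x ^ (-(3 / 2) : ℝ) / y := by
    intro x y hx
    rw [← r4 x hx]
    ring
  rw [r1, r2, r3, r5 _ _ L, r5 _ _ N]
  generalize L' ^ (-(3 / 2) : ℝ) = p
  generalize N' ^ (-(3 / 2) : ℝ) = q
  field_simp

lemma x0_new {a l ν : ℂ} (ha : a ≠ 0) (hl : l ≠ 0) (hl1 : l ≠ 1) (hν : ν ≠ 0) (hν1 : ν ≠ 1) :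
    x0 (mk a ((1 - l) * a * ν / (1 - ν)) (l * a)) = 2 * Real.log ‖ν‖ - 2 * Real.log ‖l‖ := by
  have h1 : (1 : ℂ) - ν ≠ 0 := sub_ne_zero.mpr (Ne.symm hν1)
  have h2 : (1 : ℂ) - l ≠ 0 := sub_ne_zero.mpr (Ne.symm hl1)
  have e4 : a + (1 - l) * a * ν / (1 - ν) - l * a = (1 - l) * a / (1 - ν) := by
    field_simp
    ring
  unfold x0
  rw [mk1, mk2, mk3, mk4, e4]
  simp only [norm_mul, norm_div]
  have A : 0 < ‖a‖ := norm_pos_iff.mpr ha
  have L : 0 < ‖l‖ := norm_pos_iff.mpr hl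
  have L1 : 0 < ‖1 - l‖ := norm_pos_iff.mpr h2
  have N : 0 < ‖ν‖ := norm_pos_iff.mpr hν
  have N1 : 0 < ‖1 - ν‖ := norm_pos_iff.mpr h1
  have e : ‖a‖ * (‖1 - l‖ * ‖a‖ * ‖ν‖ / ‖1 - ν‖) / (‖l‖ * ‖a‖ * (‖1 - l‖ * ‖a‖ / ‖1 - ν‖))
      = ‖ν‖ / ‖l‖ := by
    field_simp
  rw [e, Real.log_div N.ne' L.ne']
  ring

/-! ### Measurability, positivity -/

lemma cont_xl : Continuous (fun X : XX 1 => xl X) := by
  unfold xl
  fun_prop

lemma om_nonneg (X : XX 1) : 0 ≤ om X := by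
  unfold om
  positivity

lemma om_meas : Measurable (fun X : XX 1 => om X) := by
  have := cont_xl
  have h : Continuous (fun X : XX 1 => ‖X.1 0‖ * ‖X.1 1‖ * (‖X.2 0‖ * ‖xl X‖)) := by fun_prop
  exact h.measurable.pow_const _

lemma x0_meas : Measurable (fun X : XX 1 => x0 X) := by
  have := cont_xl
  have h1 : Continuous (fun X : XX 1 => ‖X.1 0‖ * ‖X.1 1‖) := by fun_prop
  have h2 : Continuous (fun X : XX 1 => ‖X.2 0‖ * ‖xl X‖) := by fun_prop
  exact (Real.measurable_log.comp (h1.measurable.div h2.measurable)).const_mul 2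

lemma k1_nonneg (l : ℂ) : 0 ≤ k1 l := by
  unfold k1
  positivity

lemma k1_meas : Measurable k1 := by
  unfold k1
  have h1 : Measurable (fun l : ℂ => ‖l‖ ^ (1 / 2 : ℝ)) := measurable_norm.pow_const _
  have h2 : Continuous (fun l : ℂ => ‖1 - l‖) := by fun_prop
  exact h1.div h2.measurable

lemma k1_int : Integrable (fun ν : ℂ => k1 ν / ‖ν‖ ^ 2) := by
  have g1 : Real.Gamma (3 / 4) ≠ 0 := (Real.Gamma_pos_of_pos (by norm_num)).ne'
  have g3 : Real.Gamma (1 / 2) ≠ 0 := (Real.Gamma_pos_of_pos (by norm_num)).ne'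
  have A := (Four.riesz_int (α := 3 / 4) (β := 1 / 2) (by norm_num) (by norm_num) (by norm_num)
    (by norm_num) (by norm_num) (η := 1) one_ne_zero
    (c := Real.pi * Real.Gamma (3 / 4 + 1 / 2 - 1) *
      (Real.Gamma (1 - 3 / 4) * Real.Gamma (1 - 1 / 2)) / (Real.Gamma (3 / 4) * Real.Gamma (1 / 2) *
      Real.Gamma (2 - 3 / 4 - 1 / 2))) (by
      have g4 : Real.Gamma (2 - 3 / 4 - 1 / 2) ≠ 0 := (Real.Gamma_pos_of_pos (by norm_num)).ne'
      field_simp)).1
  refine A.congr ?_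
  filter_upwards [ae_ne 0] with ν hν
  have N : 0 < ‖ν‖ := norm_pos_iff.mpr hν
  unfold k1
  have e1 : ‖ν‖ ^ (-(2 * (3 / 4)) : ℝ) = ‖ν‖ ^ (1 / 2 : ℝ) / ‖ν‖ ^ 2 := by
    rw [← Real.rpow_natCast, ← Real.rpow_sub N]
    norm_num
  have e2 : ‖1 - ν‖ ^ (-(2 * (1 / 2)) : ℝ) = ‖1 - ν‖⁻¹ := by
    rw [show (-(2 * (1 / 2)) : ℝ) = -1 by norm_num, Real.rpow_neg_one]
  rw [e1, e2]
  ring

/-- the integrand of `Bm` -/
noncomputable def Q (L : ℝ) (ν : ℂ) : ℝ := k1 ν * Me (2 * Real.log ‖ν‖ - 2 * L) / ‖ν‖ ^ 2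

lemma Q_meas (hM : StmtMs) : Measurable (fun z : ℝ × ℂ => Q z.1 z.2) := by
  unfold Q
  have h1 : Measurable (fun z : ℝ × ℂ => k1 z.2) := k1_meas.comp measurable_snd
  have h2 : Measurable (fun z : ℝ × ℂ => 2 * Real.log ‖z.2‖ - 2 * z.1) :=
    ((Real.measurable_log.comp measurable_snd.norm).const_mul 2).sub (measurable_fst.const_mul 2)
  exact (h1.mul (hM.2.2.1.measurable.comp h2)).div (measurable_snd.norm.pow_const 2)

lemma Q_nonneg (hM : StmtMs) (L : ℝ) (ν : ℂ) : 0 ≤ Q L ν := by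
  unfold Q
  have := k1_nonneg ν
  have := hM.1 (2 * Real.log ‖ν‖ - 2 * L)
  positivity

lemma Q_int (hM : StmtMs) (L : ℝ) : Integrable (Q L) := by
  refine k1_int.mono' ?_ ?_
  · exact ((Q_meas hM).comp (measurable_const.prodMk measurable_id)).aestronglyMeasurable
  · refine Eventually.of_forall fun ν => ?_
    rw [Real.norm_eq_abs, abs_of_nonneg (Q_nonneg hM L ν)]
    unfold Q
    have h1 := k1_nonneg ν
    have h2 := hM.2.1 (2 * Real.log ‖ν‖ - 2 * L)
    have h3 := hM.1 (2 * Real.log ‖ν‖ - 2 * L)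
    apply div_le_div_of_nonneg_right _ (by positivity)
    nlinarith

lemma Bm_nonneg (hM : StmtMs) (L : ℝ) : 0 ≤ Bm L := integral_nonneg fun ν => Q_nonneg hM L ν

lemma Bm_lint (hM : StmtMs) (L : ℝ) : ∫⁻ ν, ENNReal.ofReal (Q L ν) = ENNReal.ofReal (Bm L) :=
  (ofReal_integral_eq_lintegral_ofReal (Q_int hM L)
    (Eventually.of_forall fun ν => Q_nonneg hM L ν)).symm

lemma Bm_meas (hM : StmtMs) : Measurable Bm := by
  have h : StronglyMeasurable (Function.uncurry Q) := (Q_meas hM).stronglyMeasurable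
  exact h.integral_prod_right.measurable

/-- the integrand of `Dw` -/
noncomputable def P (w : ℂ → ℝ) (l a : ℂ) : ℝ := (w a - w (l * a)) ^ 2 / ‖a‖ ^ 2

lemma P_nonneg (w : ℂ → ℝ) (l a : ℂ) : 0 ≤ P w l a := by
  unfold P
  positivity

lemma P_meas {w : ℂ → ℝ} (hw : WN w) : Measurable (fun z : ℂ × ℂ => P w z.1 z.2) := by
  unfold P
  have hc := hw.1
  have h1 : Continuous (fun z : ℂ × ℂ => (w z.2 - w (z.1 * z.2)) ^ 2) := by fun_prop
  exact h1.measurable.div (measurable_snd.norm.pow_const 2)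

lemma w_compact {w : ℂ → ℝ} (hw : WN w) : HasCompactSupport w := by
  obtain ⟨hc, h0, r, R, hr, hs⟩ := hw
  refine HasCompactSupport.intro (isCompact_closedBall 0 R) fun x hx => ?_
  by_contra h
  exact hx (by simpa using (hs x h).2)

lemma w_bdd {w : ℂ → ℝ} (hw : WN w) : ∃ B, 0 ≤ B ∧ ∀ ξ, w ξ ≤ B := by
  obtain ⟨B, hB⟩ := (w_compact hw).exists_bound_of_continuous hw.1
  refine ⟨|B|, abs_nonneg _, fun ξ => ?_⟩
  have := hB ξ
  rw [Real.norm_eq_abs] at this
  linarith [le_abs_self (w ξ), le_abs_self B]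

lemma P_int {w : ℂ → ℝ} (hw : WN w) {l : ℂ} (hl : l ≠ 0) : Integrable (P w l) := by
  obtain ⟨B, hB0, hB⟩ := w_bdd hw
  have hw' := hw
  obtain ⟨hc, h0, r, R, hr, hs⟩ := hw'
  have L : 0 < ‖l‖ := norm_pos_iff.mpr hl
  set ρ : ℝ := min r (r / ‖l‖) with hρ
  have hρ0 : 0 < ρ := lt_min hr (by positivity)
  set R' : ℝ := max R (R / ‖l‖) with hR'
  have hI : Integrable ((Metric.closedBall (0 : ℂ) R').indicator fun _ => B ^ 2 / ρ ^ 2) := by
    rw [integrable_indicator_iff measurableSet_closedBall]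
    exact integrableOn_const (by
      exact (isCompact_closedBall (0 : ℂ) R').measure_lt_top.ne)
  refine hI.mono' ((P_meas hw).comp (measurable_const.prodMk measurable_id)).aestronglyMeasurable ?_
  refine Eventually.of_forall fun a => ?_
  rw [Real.norm_eq_abs, abs_of_nonneg (P_nonneg w l a)]
  by_cases hz : w a = 0 ∧ w (l * a) = 0
  · unfold P
    rw [hz.1, hz.2]
    simp only [sub_self, ne_eq, OfNat.ofNat_ne_zero, not_false_eq_true, zero_pow, zero_div]
    apply Set.indicator_nonneg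
    intro x _
    positivity
  · have hb : ρ ≤ ‖a‖ ∧ ‖a‖ ≤ R' := by
      by_cases h1 : w a = 0
      · have h2 : w (l * a) ≠ 0 := fun h => hz ⟨h1, h⟩
        obtain ⟨h3, h4⟩ := hs _ h2
        rw [norm_mul] at h3 h4
        refine ⟨(min_le_right _ _).trans ?_, le_trans ?_ (le_max_right _ _)⟩
        · rw [div_le_iff₀ L]; linarith
        · rw [le_div_iff₀ L]; linarith
      · obtain ⟨h3, h4⟩ := hs _ h1
        exact ⟨(min_le_left _ _).trans h3, h4.trans (le_max_left _ _)⟩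
    have hmem : a ∈ Metric.closedBall (0 : ℂ) R' := by simpa using hb.2
    rw [Set.indicator_of_mem hmem]
    unfold P
    have hd : (w a - w (l * a)) ^ 2 ≤ B ^ 2 := by
      have := hB a
      have := hB (l * a)
      have := h0 a
      have := h0 (l * a)
      exact sq_le_sq' (by linarith) (by linarith)
    have ha : ρ ^ 2 ≤ ‖a‖ ^ 2 := pow_le_pow_left₀ hρ0.le hb.1 2
    exact div_le_div₀ (by positivity) hd (by positivity) ha

lemma Dw_nonneg (w : ℂ → ℝ) (l : ℂ) : 0 ≤ Dw w l := integral_nonneg fun a => P_nonneg w l a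

lemma Dw_lint {w : ℂ → ℝ} (hw : WN w) {l : ℂ} (hl : l ≠ 0) :
    ∫⁻ a, ENNReal.ofReal (P w l a) = ENNReal.ofReal (Dw w l) :=
  (ofReal_integral_eq_lintegral_ofReal (P_int hw hl)
    (Eventually.of_forall fun a => P_nonneg w l a)).symm

lemma Dw_meas {w : ℂ → ℝ} (hw : WN w) : Measurable (Dw w) := by
  have h : StronglyMeasurable (Function.uncurry (P w)) := (P_meas hw).stronglyMeasurable
  exact h.integral_prod_right.measurable

/-! ### The identity -/

lemma lint_eq (hM : StmtMs) {w : ℂ → ℝ} (hw : WN w) :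
    ∫⁻ X : XX 1, ENNReal.ofReal (om X * Me (x0 X) * (w (X.1 0) - w (X.2 0)) ^ 2)
      = ∫⁻ l : ℂ, ENNReal.ofReal (k1 l * Bm (Real.log ‖l‖) * Dw w l / ‖l‖ ^ 2) := by
  have hc := hw.1
  have hΦ : Measurable (fun X : XX 1 =>
      ENNReal.ofReal (om X * Me (x0 X) * (w (X.1 0) - w (X.2 0)) ^ 2)) := by
    apply ENNReal.measurable_ofReal.comp
    have h1 : Continuous (fun X : XX 1 => (w (X.1 0) - w (X.2 0)) ^ 2) := by fun_prop
    exact (om_meas.mul (hM.2.2.1.measurable.comp x0_meas)).mul h1.measurable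
  rw [coords _ hΦ]
  have key : ∀ a : ℂ, a ≠ 0 → ∫⁻ c : ℂ, ∫⁻ b : ℂ,
      ENNReal.ofReal (om (mk a b c) * Me (x0 (mk a b c)) *
        (w ((mk a b c).1 0) - w ((mk a b c).2 0)) ^ 2)
      = ∫⁻ l : ℂ, ENNReal.ofReal (k1 l / ‖l‖ ^ 2 * P w l a * Bm (Real.log ‖l‖)) := by
    intro a ha
    rw [mulv ha]
    refine lintegral_congr_ae ?_
    filter_upwards [ae_ne 0, ae_ne 1] with l hl hl1
    have h2 : (1 : ℂ) - l ≠ 0 := sub_ne_zero.mpr (Ne.symm hl1)
    rw [mob (mul_ne_zero h2 ha)]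
    have e : ∀ᵐ ν : ℂ, ENNReal.ofReal (‖(1 - l) * a / (1 - ν) ^ 2‖ ^ 2) *
        ENNReal.ofReal (om (mk a ((1 - l) * a * ν / (1 - ν)) (l * a)) *
          Me (x0 (mk a ((1 - l) * a * ν / (1 - ν)) (l * a))) *
          (w ((mk a ((1 - l) * a * ν / (1 - ν)) (l * a)).1 0) -
            w ((mk a ((1 - l) * a * ν / (1 - ν)) (l * a)).2 0)) ^ 2)
        = ENNReal.ofReal (((‖a‖ ^ 2)⁻¹ * (k1 l / ‖l‖ ^ 2) * P w l a)) *
          ENNReal.ofReal (Q (Real.log ‖l‖) ν) := by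
      filter_upwards [ae_ne 0, ae_ne 1] with ν hν hν1
      rw [← ENNReal.ofReal_mul (by positivity), ← ENNReal.ofReal_mul (by
        have := k1_nonneg l
        have := P_nonneg w l a
        positivity)]
      congr 1
      rw [x0_new ha hl hl1 hν hν1, mk1, mk3]
      have h3 := om_new ha hl hl1 hν hν1
      have A : 0 < ‖a‖ := norm_pos_iff.mpr ha
      have h4 : ‖(1 - l) * a / (1 - ν) ^ 2‖ ^ 2 * om (mk a ((1 - l) * a * ν / (1 - ν)) (l * a))
          = (‖a‖ ^ 2)⁻¹ * ((‖a‖ ^ 2)⁻¹ * (k1 l / ‖l‖ ^ 2) * (k1 ν / ‖ν‖ ^ 2)) := by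
        rw [← h3]
        field_simp
      unfold Q P
      have h5 : ∀ M D : ℝ, ‖(1 - l) * a / (1 - ν) ^ 2‖ ^ 2 *
          (om (mk a ((1 - l) * a * ν / (1 - ν)) (l * a)) * M * D)
          = (‖a‖ ^ 2)⁻¹ * ((‖a‖ ^ 2)⁻¹ * (k1 l / ‖l‖ ^ 2) * (k1 ν / ‖ν‖ ^ 2)) * M * D := by
        intro M D
        rw [← h4]; ring
      rw [h5]
      ring
    rw [lintegral_congr_ae e, lintegral_const_mul _ (by
      exact ENNReal.measurable_ofReal.comp
        ((Q_meas hM).comp (measurable_const.prodMk measurable_id))), Bm_lint hM,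
      ← ENNReal.ofReal_mul (by
        have := k1_nonneg l
        have := P_nonneg w l a
        positivity), ← ENNReal.ofReal_mul (by positivity)]
    congr 1
    have A : 0 < ‖a‖ := norm_pos_iff.mpr ha
    field_simp
  have e2 : ∫⁻ a : ℂ, ∫⁻ c : ℂ, ∫⁻ b : ℂ,
      ENNReal.ofReal (om (mk a b c) * Me (x0 (mk a b c)) *
        (w ((mk a b c).1 0) - w ((mk a b c).2 0)) ^ 2)
      = ∫⁻ a : ℂ, ∫⁻ l : ℂ, ENNReal.ofReal (k1 l / ‖l‖ ^ 2 * P w l a * Bm (Real.log ‖l‖)) := by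
    refine lintegral_congr_ae ?_
    filter_upwards [ae_ne 0] with a ha using key a ha
  rw [e2, lintegral_lintegral_swap]
  · refine lintegral_congr_ae ?_
    filter_upwards [ae_ne 0] with l hl
    have e3 : ∀ a : ℂ, ENNReal.ofReal (k1 l / ‖l‖ ^ 2 * P w l a * Bm (Real.log ‖l‖))
        = ENNReal.ofReal (k1 l / ‖l‖ ^ 2 * Bm (Real.log ‖l‖)) * ENNReal.ofReal (P w l a) := by
      intro a
      rw [← ENNReal.ofReal_mul (by
        have := k1_nonneg l
        have := Bm_nonneg hM (Real.log ‖l‖)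
        positivity)]
      congr 1
      ring
    simp_rw [e3]
    rw [lintegral_const_mul _ (by
      exact ENNReal.measurable_ofReal.comp
        ((P_meas hw).comp (measurable_const.prodMk measurable_id))), Dw_lint hw hl,
      ← ENNReal.ofReal_mul (by
        have := k1_nonneg l
        have := Bm_nonneg hM (Real.log ‖l‖)
        positivity)]
    congr 1
    ring
  · apply Measurable.aemeasurable
    apply ENNReal.measurable_ofReal.comp
    have h1 : Measurable (fun z : ℂ × ℂ => k1 z.2 / ‖z.2‖ ^ 2) :=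
      (k1_meas.comp measurable_snd).div (measurable_snd.norm.pow_const 2)
    have h2 : Measurable (fun z : ℂ × ℂ => P w z.2 z.1) :=
      (P_meas hw).comp (measurable_snd.prodMk measurable_fst)
    have h3 : Measurable (fun z : ℂ × ℂ => Bm (Real.log ‖z.2‖)) :=
      (Bm_meas hM).comp (Real.measurable_log.comp measurable_snd.norm)
    exact (h1.mul h2).mul h3

end D3Aux

open D3Aux in
/-- (D3) the bad form -/
theorem d3 (hM : StmtMs) (hL : StmtLin) (hS : StmtSym) : StmtD3 := by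
  intro w hw
  have hc := hw.1
  obtain ⟨r, R, hr, hsup⟩ := hw.2.2
  have hφ : Continuous (fun ξ => w ξ ^ 2) := by fun_prop
  have hφc : HasCompactSupport (fun ξ => w ξ ^ 2) := by
    refine HasCompactSupport.intro (isCompact_closedBall 0 R) fun x hx => ?_
    by_contra h
    have h1 : w x ≠ 0 := fun h2 => h (by rw [h2]; norm_num)
    exact hx (by simpa using (hsup x h1).2)
  have hφ0 : ∀ᶠ ζ in 𝓝 (0 : ℂ), w ζ ^ 2 = 0 := by
    filter_upwards [Metric.ball_mem_nhds (0 : ℂ) hr] with ζ hζ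
    have : w ζ = 0 := by
      by_contra h
      have h1 := (hsup ζ h).1
      rw [Metric.mem_ball, dist_zero_right] at hζ
      linarith
    rw [this]; norm_num
  have i1 : Integrable (fun X : XX 1 => om X * w (X.1 0) ^ 2) := (hL _ hφ hφc hφ0).1
  have i3 : Integrable (fun X : XX 1 => om X * w (X.2 0) ^ 2) := by
    obtain ⟨s, hs, hs2⟩ := hS.2.2
    have h := hs.integrable_comp_of_integrable i1
    refine h.congr (Eventually.of_forall fun X => ?_)
    obtain ⟨a1, a2, a3, a4⟩ := hs2 X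
    simp only [Function.comp]
    unfold om
    rw [a1, a2, a3, a4]
    congr 2
    ring
  have hn : ∀ X : XX 1, 0 ≤ om X * Me (x0 X) * (w (X.1 0) - w (X.2 0)) ^ 2 := by
    intro X
    have := om_nonneg X
    have := hM.1 (x0 X)
    positivity
  have hm : Measurable (fun X : XX 1 => om X * Me (x0 X) * (w (X.1 0) - w (X.2 0)) ^ 2) := by
    have h1 : Continuous (fun X : XX 1 => (w (X.1 0) - w (X.2 0)) ^ 2) := by fun_prop
    exact (om_meas.mul (hM.2.2.1.measurable.comp x0_meas)).mul h1.measurable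
  have hI : Integrable (fun X : XX 1 => om X * Me (x0 X) * (w (X.1 0) - w (X.2 0)) ^ 2) := by
    refine (i1.add i3).mono' hm.aestronglyMeasurable (Eventually.of_forall fun X => ?_)
    rw [Real.norm_eq_abs, abs_of_nonneg (hn X)]
    simp only [Pi.add_apply]
    have h1 := om_nonneg X
    have h2 := hM.1 (x0 X)
    have h3 := hM.2.1 (x0 X)
    have h4 : Me (x0 X) * (w (X.1 0) - w (X.2 0)) ^ 2 ≤ w (X.1 0) ^ 2 + w (X.2 0) ^ 2 := by
      have h5 : (w (X.1 0) - w (X.2 0)) ^ 2 ≤ 2 * (w (X.1 0) ^ 2 + w (X.2 0) ^ 2) := by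
        nlinarith [sq_nonneg (w (X.1 0) + w (X.2 0))]
      have h6 : Me (x0 X) * (w (X.1 0) - w (X.2 0)) ^ 2
          ≤ 1 / 16 * (w (X.1 0) - w (X.2 0)) ^ 2 :=
        mul_le_mul_of_nonneg_right h3 (sq_nonneg _)
      nlinarith [sq_nonneg (w (X.1 0)), sq_nonneg (w (X.2 0))]
    calc om X * Me (x0 X) * (w (X.1 0) - w (X.2 0)) ^ 2
        = om X * (Me (x0 X) * (w (X.1 0) - w (X.2 0)) ^ 2) := by ring
      _ ≤ om X * (w (X.1 0) ^ 2 + w (X.2 0) ^ 2) := mul_le_mul_of_nonneg_left h4 h1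
      _ = _ := by ring
  have hn2 : ∀ l : ℂ, 0 ≤ k1 l * Bm (Real.log ‖l‖) * Dw w l / ‖l‖ ^ 2 := by
    intro l
    have := k1_nonneg l
    have := Bm_nonneg hM (Real.log ‖l‖)
    have := Dw_nonneg w l
    positivity
  have hm2 : Measurable (fun l : ℂ => k1 l * Bm (Real.log ‖l‖) * Dw w l / ‖l‖ ^ 2) :=
    ((k1_meas.mul ((Bm_meas hM).comp (Real.measurable_log.comp measurable_norm))).mul
      (Dw_meas hw)).div (measurable_norm.pow_const 2)
  have hE := lint_eq hM hw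
  have hI2 : Integrable (fun l : ℂ => k1 l * Bm (Real.log ‖l‖) * Dw w l / ‖l‖ ^ 2) := by
    refine ⟨hm2.aestronglyMeasurable, ?_⟩
    rw [hasFiniteIntegral_iff_ofReal (Eventually.of_forall hn2), ← hE,
      ← hasFiniteIntegral_iff_ofReal (Eventually.of_forall hn)]
    exact hI.2
  refine ⟨hI, hI2, ?_⟩
  rw [integral_eq_lintegral_of_nonneg_ae (Eventually.of_forall hn) hm.aestronglyMeasurable,
    integral_eq_lintegral_of_nonneg_ae (Eventually.of_forall hn2) hm2.aestronglyMeasurable, hE]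

end Pool.Agent.Lib.MP_dd244f_an.Rq
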