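import Pool.Agent.Lib.MP_dd244f_an.Rq.Stmts

/-!
# Module (Dec): radial decomposition of the difference form
-/

set_option autoImplicit false

namespace Pool.Agent.Lib.MP_dd244f_an.Rq

open MeasureTheory Filter Topology

/-! ### functions supported in an annulus -/

/-- continuous functions supported in an annulus -/
def Ann (F : ℂ → ℝ) : Prop :=
  Continuous F ∧ ∃ r R : ℝ, 0 < r ∧ ∀ ξ, F ξ ≠ 0 → r ≤ ‖ξ‖ ∧ ‖ξ‖ ≤ R

theorem Ann.integrable {F : ℂ → ℝ} (h : Ann F) :
    Integrable (fun ξ : ℂ => F ξ / ‖ξ‖ ^ 2) := by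
  obtain ⟨hc, r, R, hr, hs⟩ := h
  have e : (fun ξ : ℂ => F ξ / ‖ξ‖ ^ 2) = fun ξ => F ξ / (max ‖ξ‖ r) ^ 2 := by
    ext ξ
    by_cases h0 : F ξ = 0
    · rw [h0]; simp
    · rw [max_eq_left (hs ξ h0).1]
  have hc2 : Continuous (fun ξ : ℂ => F ξ / (max ‖ξ‖ r) ^ 2) := by
    refine hc.div (by fun_prop) ?_
    intro ξ
    have : 0 < max ‖ξ‖ r := lt_max_of_lt_right hr
    positivity
  rw [e]
  refine hc2.integrable_of_hasCompactSupport ?_
  refine HasCompactSupport.of_support_subset_isCompact (isCompact_closedBall (0 : ℂ) R) ?_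
  intro ξ hξ
  have : F ξ ≠ 0 := by
    intro h0
    apply hξ
    simp [h0]
  simpa using (hs ξ this).2

theorem Ann.mul {F H : ℂ → ℝ} (h : Ann F) (hH : Continuous H) : Ann (fun ξ => F ξ * H ξ) := by
  obtain ⟨hc, r, R, hr, hs⟩ := h
  exact ⟨hc.mul hH, r, R, hr, fun ξ hξ => hs ξ (left_ne_zero_of_mul hξ)⟩

theorem Ann.sub {F H : ℂ → ℝ} (h : Ann F) (h' : Ann H) : Ann (fun ξ => F ξ - H ξ) := by
  obtain ⟨hc, r, R, hr, hs⟩ := h
  obtain ⟨hc', r', R', hr', hs'⟩ := h'
  refine ⟨hc.sub hc', min r r', max R R', lt_min hr hr', ?_⟩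
  intro ξ hξ
  by_cases h0 : F ξ = 0
  · have h1 : H ξ ≠ 0 := by
      intro h1
      apply hξ
      simp [h0, h1]
    exact ⟨(min_le_right _ _).trans (hs' ξ h1).1, (hs' ξ h1).2.trans (le_max_right _ _)⟩
  · exact ⟨(min_le_left _ _).trans (hs ξ h0).1, (hs ξ h0).2.trans (le_max_left _ _)⟩

theorem Ann.dil {F : ℂ → ℝ} (h : Ann F) {l : ℂ} (hl : l ≠ 0) : Ann (fun ξ => F (l * ξ)) := by
  obtain ⟨hc, r, R, hr, hs⟩ := h
  have hl' : 0 < ‖l‖ := norm_pos_iff.mpr hl
  refine ⟨hc.comp (by fun_prop), r / ‖l‖, R / ‖l‖, by positivity, ?_⟩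
  intro ξ hξ
  have := hs _ hξ
  rw [norm_mul] at this
  constructor
  · rw [div_le_iff₀ hl']; linarith [this.1]
  · rw [le_div_iff₀ hl']; linarith [this.2]

theorem Ann.sq {F : ℂ → ℝ} (h : Ann F) : Ann (fun ξ => F ξ ^ 2) := by
  have h1 := h.mul h.1
  have e : (fun ξ => F ξ ^ 2) = fun ξ => F ξ * F ξ := by
    ext ξ
    ring
  rw [e]
  exact h1

/-! ### circle means -/

/-- the integral over a circle -/
noncomputable def circ (F : ℂ → ℝ) (ξ : ℂ) : ℝ :=
  ∫ φ in (0)..(2 * Real.pi), F (ξ * Complex.exp (Complex.I * φ))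

theorem circ_rot (F : ℂ → ℝ) (ξ : ℂ) (α : ℝ) :
    circ F (ξ * Complex.exp (Complex.I * α)) = circ F ξ := by
  unfold circ
  have hper : Function.Periodic (fun φ : ℝ => F (ξ * Complex.exp (Complex.I * φ)))
      (2 * Real.pi) := by
    intro φ
    simp only
    congr 2
    have e : Complex.I * ((φ + 2 * Real.pi : ℝ) : ℂ)
        = Complex.I * φ + 2 * Real.pi * Complex.I := by push_cast; ring
    rw [e, Complex.exp_periodic]
  have e1 : ∀ φ : ℝ, F (ξ * Complex.exp (Complex.I * α) * Complex.exp (Complex.I * φ))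
      = (fun ψ : ℝ => F (ξ * Complex.exp (Complex.I * ψ))) (α + φ) := by
    intro φ
    simp only
    rw [mul_assoc, ← Complex.exp_add]
    congr 3
    push_cast
    ring
  simp_rw [e1]
  rw [intervalIntegral.integral_comp_add_left (fun ψ : ℝ => F (ξ * Complex.exp (Complex.I * ψ)))]
  have := hper.intervalIntegral_add_eq α 0
  simp only [zero_add] at this
  rw [add_zero]
  exact this

theorem circ_norm (F : ℂ → ℝ) (ξ : ℂ) : circ F ξ = circ F (‖ξ‖ : ℂ) := by
  have h := circ_rot F (‖ξ‖ : ℂ) (Complex.arg ξ)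
  have e : (‖ξ‖ : ℂ) * Complex.exp (Complex.I * (Complex.arg ξ : ℝ)) = ξ := by
    rw [mul_comm Complex.I]
    exact Complex.norm_mul_exp_arg_mul_I ξ
  rw [e] at h
  exact h

theorem circ_dil (F : ℂ → ℝ) (l ξ : ℂ) : circ (fun ζ => F (l * ζ)) ξ = circ F (l * ξ) := by
  unfold circ
  simp only [mul_assoc]

theorem norm_rot (ξ : ℂ) (φ : ℝ) : ‖ξ * Complex.exp (Complex.I * φ)‖ = ‖ξ‖ := by
  rw [norm_mul, mul_comm Complex.I, Complex.norm_exp_ofReal_mul_I, mul_one]

theorem circ_continuous {F : ℂ → ℝ} (hF : Continuous F) : Continuous (circ F) := by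
  unfold circ
  apply intervalIntegral.continuous_parametric_intervalIntegral_of_continuous'
  fun_prop

theorem Ann.circ {F : ℂ → ℝ} (h : Ann F) : Ann (circ F) := by
  refine ⟨circ_continuous h.1, ?_⟩
  obtain ⟨hc, r, R, hr, hs⟩ := h
  refine ⟨r, R, hr, ?_⟩
  intro ξ hξ
  by_contra hcon
  apply hξ
  unfold Rq.circ
  have : ∀ φ : ℝ, F (ξ * Complex.exp (Complex.I * φ)) = 0 := by
    intro φ
    by_contra h0
    have := hs _ h0
    rw [norm_rot] at this
    exact hcon this
  simp [this]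

theorem pol_ann (hP : StmtPol) {F : ℂ → ℝ} (h : Ann F) :
    ∫ ξ, F ξ / ‖ξ‖ ^ 2 = ∫ L : ℝ, circ F (Real.exp L : ℂ) := by
  rw [(hP.2 F h.integrable).2.2]
  congr 1
  ext L
  unfold circ
  congr 1
  ext θ
  congr 1
  rw [Complex.exp_add, Complex.ofReal_exp]

theorem exp_norm_dil {l : ℂ} (hl : l ≠ 0) (L : ℝ) :
    ‖l * (Real.exp L : ℂ)‖ = Real.exp (L + Real.log ‖l‖) := by
  rw [norm_mul, Complex.norm_real, Real.norm_of_nonneg (Real.exp_pos _).le, Real.exp_add,
    Real.exp_log (norm_pos_iff.mpr hl), mul_comm]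

/-- dilation invariance -/
theorem dil_inv (hP : StmtPol) {F : ℂ → ℝ} (h : Ann F) {l : ℂ} (hl : l ≠ 0) :
    ∫ ξ, F (l * ξ) / ‖ξ‖ ^ 2 = ∫ ξ, F ξ / ‖ξ‖ ^ 2 := by
  rw [pol_ann hP (h.dil hl), pol_ann hP h]
  have : ∀ L : ℝ, circ (fun ξ => F (l * ξ)) (Real.exp L : ℂ)
      = (fun x : ℝ => circ F (Real.exp x : ℂ)) (L + Real.log ‖l‖) := by
    intro L
    simp only
    rw [circ_dil, circ_norm, exp_norm_dil hl]
  simp_rw [this]
  exact integral_add_right_eq_self (fun x : ℝ => circ F (Real.exp x : ℂ)) (Real.log ‖l‖)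

/-! ### difference forms on the line -/

theorem cs_int {f : ℝ → ℝ} (hf : Continuous f) {M : ℝ} (hM : ∀ x, f x ≠ 0 → |x| ≤ M) :
    Integrable f := by
  refine hf.integrable_of_hasCompactSupport ?_
  refine HasCompactSupport.of_support_subset_isCompact (isCompact_Icc (a := -M) (b := M)) ?_
  intro x hx
  exact abs_le.mp (hM x hx)

theorem diff_int {a : ℝ → ℝ} (ha : Continuous a) {M : ℝ} (hM : ∀ x, a x ≠ 0 → |x| ≤ M)
    (c d : ℝ) : Integrable (fun x => (a (x + c) - a (x + d)) ^ 2) := by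
  refine cs_int (M := max (M + |c|) (M + |d|)) (by fun_prop) ?_
  intro x hx
  have tri : ∀ e : ℝ, |x + e| ≤ M → |x| ≤ M + |e| := by
    intro e he
    calc |x| = |(x + e) - e| := by ring_nf
      _ ≤ |x + e| + |e| := abs_sub _ _
      _ ≤ M + |e| := by linarith
  by_cases h0 : a (x + c) = 0
  · have h1 : a (x + d) ≠ 0 := by
      intro h1
      apply hx
      simp [h0, h1]
    exact (tri d (hM _ h1)).trans (le_max_right _ _)
  · exact (tri c (hM _ h0)).trans (le_max_left _ _)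

theorem db_of {a : ℝ → ℝ} (ha : Continuous a) {M : ℝ} (hM : ∀ x, a x ≠ 0 → |x| ≤ M) :
    DB (fun L => 2 * Real.pi * ∫ x : ℝ, (a x - a (x + L)) ^ 2) := by
  have hpi : (0 : ℝ) < 2 * Real.pi := by positivity
  have hsq : Integrable (fun x => a x ^ 2) := by
    refine cs_int (M := M) (by fun_prop) ?_
    intro x hx
    refine hM x ?_
    intro h0
    apply hx
    simp [h0]
  have hI : ∀ L, Integrable (fun x => (a x - a (x + L)) ^ 2) := by
    intro L
    have := diff_int ha hM 0 L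
    simpa using this
  refine ⟨?_, ?_, ?_, ?_, ?_⟩
  · have h1 : StronglyMeasurable (fun p : ℝ × ℝ => (a p.2 - a (p.2 + p.1)) ^ 2) := by
      have : Continuous (fun p : ℝ × ℝ => (a p.2 - a (p.2 + p.1)) ^ 2) := by fun_prop
      exact this.stronglyMeasurable
    have h2 := h1.integral_prod_right' (ν := (volume : Measure ℝ))
    exact (h2.measurable).const_mul _
  · intro L
    exact mul_nonneg hpi.le (integral_nonneg fun x => sq_nonneg _)
  · refine ⟨2 * Real.pi * (4 * ∫ x : ℝ, a x ^ 2), ?_⟩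
    intro L
    refine mul_le_mul_of_nonneg_left ?_ hpi.le
    have hsq' : Integrable (fun x => a (x + L) ^ 2) := hsq.comp_add_right L
    have e : ∫ x : ℝ, a (x + L) ^ 2 = ∫ x : ℝ, a x ^ 2 :=
      integral_add_right_eq_self (fun x => a x ^ 2) L
    calc ∫ x : ℝ, (a x - a (x + L)) ^ 2 ≤ ∫ x : ℝ, (2 * a x ^ 2 + 2 * a (x + L) ^ 2) := by
          refine integral_mono (hI L) ((hsq.const_mul 2).add (hsq'.const_mul 2)) ?_
          intro x
          simp only
          nlinarith [sq_nonneg (a x + a (x + L))]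
      _ = 4 * ∫ x : ℝ, a x ^ 2 := by
          rw [integral_add (hsq.const_mul 2) (hsq'.const_mul 2), integral_const_mul,
            integral_const_mul, e]
          ring
  · intro L
    simp only
    congr 1
    have := integral_add_right_eq_self (μ := volume)
      (fun x : ℝ => (a x - a (x + -L)) ^ 2) L
    rw [← this]
    congr 1
    ext x
    have e : x + L + -L = x := by ring
    rw [e]
    ring
  · intro L l
    simp only
    have h1 := diff_int ha hM L (l + L)
    have e1 : ∫ x : ℝ, (a (x + L) - a (x + (l + L))) ^ 2 = ∫ x : ℝ, (a x - a (x + l)) ^ 2 := by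
      have := integral_add_right_eq_self (μ := volume)
        (fun x : ℝ => (a x - a (x + l)) ^ 2) L
      rw [← this]
      congr 1
      ext x
      congr 3
      ring
    have key : ∫ x : ℝ, (a x - a (x + L)) ^ 2
        ≤ 2 * (∫ x : ℝ, (a x - a (x + l)) ^ 2) + 2 * ∫ x : ℝ, (a x - a (x + (l + L))) ^ 2 := by
      rw [← e1, ← integral_const_mul, ← integral_const_mul,
        ← integral_add (h1.const_mul 2) ((hI (l + L)).const_mul 2)]
      refine integral_mono (hI L) ((h1.const_mul 2).add ((hI (l + L)).const_mul 2)) ?_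
      intro x
      simp only
      nlinarith [sq_nonneg ((a x - a (x + (l + L))) + (a (x + L) - a (x + (l + L))))]
    nlinarith [mul_le_mul_of_nonneg_left key hpi.le]

/-! ### the decomposition -/

theorem circ_const {F : ℂ → ℝ} {ξ : ℂ} {c : ℝ}
    (h : ∀ φ : ℝ, F (ξ * Complex.exp (Complex.I * φ)) = c) : circ F ξ = 2 * Real.pi * c := by
  unfold circ
  simp_rw [h]
  rw [intervalIntegral.integral_const, smul_eq_mul, sub_zero]

theorem circ_int {F : ℂ → ℝ} (hF : Continuous F) (ξ : ℂ) :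
    IntervalIntegrable (fun φ : ℝ => F (ξ * Complex.exp (Complex.I * φ))) volume 0
      (2 * Real.pi) := by
  apply Continuous.intervalIntegrable
  fun_prop

theorem dec (hP : StmtPol) : StmtDec := by
  intro w hw
  obtain ⟨hwc, hw0, hws⟩ := hw
  have hwA : Ann w := ⟨hwc, hws⟩
  have hpi : (0 : ℝ) < 2 * Real.pi := by positivity
  -- the circle mean
  set m : ℂ → ℝ := fun ξ => circ w ξ * (2 * Real.pi)⁻¹ with hm
  have hmA : Ann m := hwA.circ.mul continuous_const
  have hm_norm : ∀ ξ, m ξ = m (‖ξ‖ : ℂ) := by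
    intro ξ
    simp only [hm]
    rw [circ_norm]
  have hm_rot : ∀ (ξ : ℂ) (φ : ℝ), m (ξ * Complex.exp (Complex.I * φ)) = m ξ := by
    intro ξ φ
    simp only [hm]
    rw [circ_rot]
  set v : ℂ → ℝ := fun ξ => w ξ - m ξ with hv
  have hvA : Ann v := hwA.sub hmA
  have hv_circ : ∀ ξ, circ v ξ = 0 := by
    intro ξ
    have h1 : circ v ξ = circ w ξ - circ m ξ := by
      unfold circ
      simp only [hv]
      exact intervalIntegral.integral_sub (circ_int hwA.1 ξ) (circ_int hmA.1 ξ)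
    have h2 : circ m ξ = 2 * Real.pi * m ξ := circ_const (fun φ => hm_rot ξ φ)
    rw [h1, h2]
    simp only [hm]
    field_simp
    ring
  -- the radial profile
  set a : ℝ → ℝ := fun x => m (Real.exp x : ℂ) with ha
  have hac : Continuous a := hmA.1.comp (by fun_prop)
  obtain ⟨M, hM⟩ : ∃ M, ∀ x, a x ≠ 0 → |x| ≤ M := by
    obtain ⟨-, r, R, hr, hs⟩ := hmA
    refine ⟨max |Real.log r| |Real.log R|, ?_⟩
    intro x hx
    have h1 := hs _ hx
    rw [Complex.norm_real, Real.norm_of_nonneg (Real.exp_pos _).le] at h1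
    have h2 : Real.log r ≤ x := by
      rw [Real.log_le_iff_le_exp hr]; exact h1.1
    have hR : 0 < R := (Real.exp_pos x).trans_le h1.2
    have h3 : x ≤ Real.log R := by
      rw [Real.le_log_iff_exp_le hR]; exact h1.2
    rw [abs_le]
    constructor
    · have := neg_abs_le (Real.log r)
      have := le_max_left |Real.log r| |Real.log R|
      linarith
    · have := le_abs_self (Real.log R)
      have := le_max_right |Real.log r| |Real.log R|
      linarith
  set J : ℝ := ∫ ξ : ℂ, v ξ ^ 2 / ‖ξ‖ ^ 2 with hJ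
  set Cp : ℂ → ℝ := fun l => ∫ ξ : ℂ, v ξ * v (l * ξ) / ‖ξ‖ ^ 2 with hCp
  have hJ0 : 0 ≤ J := integral_nonneg fun ξ => by positivity
  have hJl : ∀ l : ℂ, l ≠ 0 → ∫ ξ : ℂ, v (l * ξ) ^ 2 / ‖ξ‖ ^ 2 = J := fun l hl =>
    dil_inv hP hvA.sq hl
  have hv0 : v 0 = 0 := by
    obtain ⟨-, r, R, hr, hs⟩ := hvA
    by_contra h0
    have := (hs 0 h0).1
    rw [norm_zero] at this
    linarith
  refine ⟨fun L => 2 * Real.pi * ∫ x : ℝ, (a x - a (x + L)) ^ 2, J, Cp, db_of hac hM, hJ0,
    ?_, ?_, ?_, ?_⟩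
  · -- measurability
    have h1 : StronglyMeasurable (fun p : ℂ × ℂ => v p.2 * v (p.1 * p.2) / ‖p.2‖ ^ 2) := by
      have hvm : Measurable v := hvA.1.measurable
      have : Measurable (fun p : ℂ × ℂ => v p.2 * v (p.1 * p.2) / ‖p.2‖ ^ 2) := by
        refine Measurable.div ((hvm.comp measurable_snd).mul (hvm.comp (by fun_prop))) ?_
        fun_prop
      exact this.stronglyMeasurable
    exact (h1.integral_prod_right' (ν := (volume : Measure ℂ))).measurable
  · -- Cauchy-Schwarz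
    intro l
    by_cases hl : l = 0
    · subst hl
      simp only [hCp, zero_mul, hv0, mul_zero, zero_div, integral_zero, abs_zero]
      exact hJ0
    · have hint1 : Integrable (fun ξ : ℂ => v ξ ^ 2 / ‖ξ‖ ^ 2) := hvA.sq.integrable
      have hint2 : Integrable (fun ξ : ℂ => v (l * ξ) ^ 2 / ‖ξ‖ ^ 2) := (hvA.dil hl).sq.integrable
      simp only [hCp]
      calc |∫ ξ : ℂ, v ξ * v (l * ξ) / ‖ξ‖ ^ 2| ≤ ∫ ξ : ℂ, |v ξ * v (l * ξ) / ‖ξ‖ ^ 2| :=
            abs_integral_le_integral_abs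
        _ ≤ ∫ ξ : ℂ, ((1 / 2) * (v ξ ^ 2 / ‖ξ‖ ^ 2) + (1 / 2) * (v (l * ξ) ^ 2 / ‖ξ‖ ^ 2)) := by
            refine integral_mono ?_ ((hint1.const_mul _).add (hint2.const_mul _)) ?_
            · exact (hvA.mul (hvA.dil hl).1).integrable.abs
            · intro ξ
              simp only
              rw [abs_div, abs_of_nonneg (sq_nonneg ‖ξ‖)]
              have h2 : |v ξ * v (l * ξ)| ≤ 1 / 2 * v ξ ^ 2 + 1 / 2 * v (l * ξ) ^ 2 := by
                rw [abs_le]
                constructor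
                · nlinarith [sq_nonneg (v ξ + v (l * ξ))]
                · nlinarith [sq_nonneg (v ξ - v (l * ξ))]
              calc |v ξ * v (l * ξ)| / ‖ξ‖ ^ 2
                  ≤ (1 / 2 * v ξ ^ 2 + 1 / 2 * v (l * ξ) ^ 2) / ‖ξ‖ ^ 2 :=
                    div_le_div_of_nonneg_right h2 (sq_nonneg _)
                _ = 1 / 2 * (v ξ ^ 2 / ‖ξ‖ ^ 2) + 1 / 2 * (v (l * ξ) ^ 2 / ‖ξ‖ ^ 2) := by ring
        _ = J := by
            rw [integral_add (hint1.const_mul _) (hint2.const_mul _), integral_const_mul,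
              integral_const_mul, hJl l hl, ← hJ]
            ring
  · -- the identity
    intro l hl
    have hA1 : Ann (fun ξ => (m ξ - m (l * ξ)) ^ 2) := (hmA.sub (hmA.dil hl)).sq
    have hA2 : Ann (fun ξ => (m ξ - m (l * ξ)) * (v ξ - v (l * ξ))) :=
      (hmA.sub (hmA.dil hl)).mul (hvA.sub (hvA.dil hl)).1
    have hA3 : Ann (fun ξ => v ξ ^ 2) := hvA.sq
    have hA4 : Ann (fun ξ => v (l * ξ) ^ 2) := (hvA.dil hl).sq
    have hA5 : Ann (fun ξ => v ξ * v (l * ξ)) := hvA.mul (hvA.dil hl).1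
    have hl0 : 0 < ‖l‖ := norm_pos_iff.mpr hl
    have hmx : ∀ L : ℝ, m (l * (Real.exp L : ℂ)) = a (L + Real.log ‖l‖) := by
      intro L
      rw [hm_norm, exp_norm_dil hl]
    have I1 : ∫ ξ : ℂ, (m ξ - m (l * ξ)) ^ 2 / ‖ξ‖ ^ 2
        = 2 * Real.pi * ∫ x : ℝ, (a x - a (x + Real.log ‖l‖)) ^ 2 := by
      rw [pol_ann hP hA1, ← integral_const_mul]
      congr 1
      ext L
      refine circ_const ?_
      intro φ
      rw [← mul_assoc, hm_rot, hm_rot, hmx]
    have I2 : ∫ ξ : ℂ, (m ξ - m (l * ξ)) * (v ξ - v (l * ξ)) / ‖ξ‖ ^ 2 = 0 := by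
      rw [pol_ann hP hA2]
      have : ∀ L : ℝ, circ (fun ξ => (m ξ - m (l * ξ)) * (v ξ - v (l * ξ))) (Real.exp L : ℂ)
          = 0 := by
        intro L
        unfold circ
        have e : ∀ φ : ℝ, (m ((Real.exp L : ℂ) * Complex.exp (Complex.I * φ))
            - m (l * ((Real.exp L : ℂ) * Complex.exp (Complex.I * φ))))
            * (v ((Real.exp L : ℂ) * Complex.exp (Complex.I * φ))
              - v (l * ((Real.exp L : ℂ) * Complex.exp (Complex.I * φ))))
            = (a L - a (L + Real.log ‖l‖)) * (v ((Real.exp L : ℂ) * Complex.exp (Complex.I * φ))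
              - v (l * (Real.exp L : ℂ) * Complex.exp (Complex.I * φ))) := by
          intro φ
          rw [← mul_assoc l, hm_rot, hm_rot, hmx]
        simp_rw [e]
        rw [intervalIntegral.integral_const_mul,
          intervalIntegral.integral_sub (circ_int hvA.1 _) (circ_int hvA.1 _)]
        have h1 := hv_circ (Real.exp L : ℂ)
        have h2 := hv_circ (l * (Real.exp L : ℂ))
        unfold circ at h1 h2
        rw [h1, h2]
        simp
      simp_rw [this]
      exact integral_zero _ _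
    unfold Dw
    have e : ∀ ξ : ℂ, (w ξ - w (l * ξ)) ^ 2 / ‖ξ‖ ^ 2
        = (m ξ - m (l * ξ)) ^ 2 / ‖ξ‖ ^ 2
          + 2 * ((m ξ - m (l * ξ)) * (v ξ - v (l * ξ)) / ‖ξ‖ ^ 2)
          + (v ξ ^ 2 / ‖ξ‖ ^ 2 + v (l * ξ) ^ 2 / ‖ξ‖ ^ 2 - 2 * (v ξ * v (l * ξ) / ‖ξ‖ ^ 2)) := by
      intro ξ
      simp only [hv]
      ring
    simp_rw [e]
    have i1 := hA1.integrable
    have i2 := hA2.integrable.const_mul 2
    have i3 := hA3.integrable
    have i4 := hA4.integrable
    have i5 := hA5.integrable.const_mul 2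
    rw [integral_add (by exact i1.add i2) (by exact (i3.add i4).sub i5), integral_add i1 i2,
      integral_sub (by exact i3.add i4) i5, integral_add i3 i4, integral_const_mul,
      integral_const_mul, I1, I2, hJl l hl]
    simp only [hCp]
    rw [← hJ]
    ring
  · -- the mean of `Cp` over circles
    intro L
    simp only [hCp]
    rw [intervalIntegral.integral_of_le hpi.le]
    obtain ⟨B, hB⟩ : ∃ B, ∀ ξ, ‖v ξ‖ ≤ B := by
      have hcs : HasCompactSupport v := by
        obtain ⟨-, r, R, hr, hs⟩ := hvA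
        refine HasCompactSupport.of_support_subset_isCompact (isCompact_closedBall (0 : ℂ) R) ?_
        intro ξ hξ
        simpa using (hs ξ hξ).2
      exact hvA.1.bounded_above_of_compact_support hcs
    have hint : Integrable (Function.uncurry fun (θ : ℝ) (ξ : ℂ) =>
        v ξ * v (Complex.exp (L + Complex.I * θ) * ξ) / ‖ξ‖ ^ 2)
        ((volume.restrict (Set.Ioc 0 (2 * Real.pi))).prod volume) := by
      have h1 : Integrable (fun ξ : ℂ => B * |v ξ / ‖ξ‖ ^ 2|) :=
        (hvA.integrable.abs).const_mul B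
      have h2 := h1.comp_snd (volume.restrict (Set.Ioc (0 : ℝ) (2 * Real.pi)))
      refine h2.mono' ?_ ?_
      · have hvm : Measurable v := hvA.1.measurable
        have : Measurable (Function.uncurry fun (θ : ℝ) (ξ : ℂ) =>
            v ξ * v (Complex.exp (L + Complex.I * θ) * ξ) / ‖ξ‖ ^ 2) := by
          unfold Function.uncurry
          refine Measurable.div ((hvm.comp measurable_snd).mul (hvm.comp (by fun_prop))) ?_
          fun_prop
        exact this.aestronglyMeasurable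
      · refine Filter.Eventually.of_forall ?_
        rintro ⟨θ, ξ⟩
        simp only [Function.uncurry]
        rw [Real.norm_eq_abs, abs_div, abs_mul, abs_div]
        have h3 := hB (Complex.exp (L + Complex.I * θ) * ξ)
        rw [Real.norm_eq_abs] at h3
        have h4 : |v ξ| * |v (Complex.exp (L + Complex.I * θ) * ξ)| ≤ |v ξ| * B :=
          mul_le_mul_of_nonneg_left h3 (abs_nonneg _)
        calc |v ξ| * |v (Complex.exp (L + Complex.I * θ) * ξ)| / |‖ξ‖ ^ 2|
            ≤ |v ξ| * B / |‖ξ‖ ^ 2| := div_le_div_of_nonneg_right h4 (abs_nonneg _)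
          _ = B * (|v ξ| / |‖ξ‖ ^ 2|) := by ring
    rw [integral_integral_swap hint]
    have : ∀ ξ : ℂ, ∫ θ in Set.Ioc 0 (2 * Real.pi),
        v ξ * v (Complex.exp (L + Complex.I * θ) * ξ) / ‖ξ‖ ^ 2 = 0 := by
      intro ξ
      rw [← intervalIntegral.integral_of_le hpi.le]
      have e : ∀ θ : ℝ, v ξ * v (Complex.exp (L + Complex.I * θ) * ξ) / ‖ξ‖ ^ 2
          = v ξ / ‖ξ‖ ^ 2 * v (Complex.exp L * ξ * Complex.exp (Complex.I * θ)) := by
        intro θ
        rw [Complex.exp_add]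
        have : Complex.exp L * Complex.exp (Complex.I * θ) * ξ
            = Complex.exp L * ξ * Complex.exp (Complex.I * θ) := by ring
        rw [this]
        ring
      simp_rw [e]
      rw [intervalIntegral.integral_const_mul]
      have h1 := hv_circ (Complex.exp L * ξ)
      unfold circ at h1
      rw [h1, mul_zero]
    simp_rw [this]
    exact integral_zero _ _

end Pool.Agent.Lib.MP_dd244f_an.Rq
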