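import Pool.Agent.Lib.MP_dd244f_an.Rq.Stmts

/-!
The sharp Hardy-Littlewood-Paley inequality for all real `p ≥ 2`: elementary facts on the absolute
value of the Gamma function (module G).
-/

set_option autoImplicit false

namespace Pool.Agent.Lib.MP_dd244f_an.Rq

open Filter Topology
open Pool.Agent.Lib.MP_dd244f_an.Rp

namespace GAux

lemma re_pos {a : ℝ} (y : ℝ) (ha : 0 < a) : 0 < ((a : ℂ) + Complex.I * y).re := by
  simpa using ha

lemma ne {a : ℝ} (y : ℝ) (ha : 0 < a) : Complex.Gamma ((a : ℂ) + Complex.I * y) ≠ 0 :=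
  Complex.Gamma_ne_zero_of_re_pos (re_pos y ha)

lemma pos {a : ℝ} (y : ℝ) (ha : 0 < a) : 0 < G a y := norm_pos_iff.mpr (ne y ha)

lemma neg {a : ℝ} (y : ℝ) : G a (-y) = G a y := by
  unfold G
  have h : ((a : ℂ) + Complex.I * ((-y : ℝ) : ℂ)) = starRingEnd ℂ ((a : ℂ) + Complex.I * y) := by
    simp only [map_add, map_mul, Complex.conj_ofReal, Complex.conj_I, Complex.ofReal_neg]
    ring
  rw [h, Complex.Gamma_conj, Complex.norm_conj]

lemma rec {a : ℝ} (y : ℝ) (ha : 0 < a) : G (a + 1) y ^ 2 = (a ^ 2 + y ^ 2) * G a y ^ 2 := by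
  unfold G
  have hs : ((a : ℂ) + Complex.I * y) ≠ 0 := by
    intro h
    have := congrArg Complex.re h
    simp at this
    exact ha.ne' this
  have h : (((a + 1 : ℝ) : ℂ) + Complex.I * y) = ((a : ℂ) + Complex.I * y) + 1 := by
    push_cast
    ring
  rw [h, Complex.Gamma_add_one _ hs, norm_mul, mul_pow]
  congr 1
  rw [Complex.sq_norm, Complex.normSq_apply]
  simp
  ring

lemma cont {a : ℝ} (ha : 0 < a) : Continuous (G a) := by
  unfold G
  rw [continuous_iff_continuousAt]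
  intro y
  have h1 : DifferentiableAt ℂ Complex.Gamma ((a : ℂ) + Complex.I * y) := by
    refine Complex.differentiableAt_Gamma _ fun m hm => ?_
    have := congrArg Complex.re hm
    simp at this
    have hm0 : (0 : ℝ) ≤ m := Nat.cast_nonneg m
    linarith
  have h2 : ContinuousAt (fun y : ℝ => (a : ℂ) + Complex.I * y) y := by fun_prop
  exact (ContinuousAt.comp (f := fun y : ℝ => (a : ℂ) + Complex.I * y) (g := Complex.Gamma)
    h1.continuousAt h2).norm

lemma mono (hG : StmtGam) {a b : ℝ} (y : ℝ) (ha : 0 < a) (hab : a ≤ b) :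
    G a y / Real.Gamma a ≤ G b y / Real.Gamma b := by
  have hb : 0 < b := lt_of_lt_of_le ha hab
  have h1 := (hG a y ha).2
  have h2 := (hG b y hb).2
  have hle : Real.Gamma b ^ 2 / G b y ^ 2 ≤ Real.Gamma a ^ 2 / G a y ^ 2 := by
    refine le_of_tendsto_of_tendsto' h2 h1 fun N => ?_
    refine Finset.prod_le_prod (fun j _ => by positivity) fun j _ => ?_
    have hj : (0 : ℝ) ≤ j := Nat.cast_nonneg j
    have haj : 0 < a + j := by linarith
    have : y ^ 2 / (b + j) ^ 2 ≤ y ^ 2 / (a + j) ^ 2 := by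
      gcongr
    linarith
  have pa := pos y ha
  have pb := pos y hb
  have ga := Real.Gamma_pos_of_pos ha
  have gb := Real.Gamma_pos_of_pos hb
  rw [← div_pow, ← div_pow] at hle
  have h3 : Real.Gamma b / G b y ≤ Real.Gamma a / G a y :=
    (pow_le_pow_iff_left₀ (by positivity) (by positivity) two_ne_zero).mp hle
  rw [div_le_div_iff₀ pb pa] at h3
  rw [div_le_div_iff₀ ga gb]
  linarith

lemma half (hC : StmtCosh) (y : ℝ) : G (1 / 2) y ^ 2 = Real.pi / Real.cosh (Real.pi * y) := by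
  have h := hC 0 (2 * y) (by norm_num) (by norm_num)
  have e1 : ((1 + ((0 : ℝ) : ℂ) + Complex.I * ((2 * y : ℝ) : ℂ)) / 2)
      = (((1 / 2 : ℝ) : ℂ) + Complex.I * y) := by
    push_cast
    ring
  have e2 : ((1 - ((0 : ℝ) : ℂ) + Complex.I * ((2 * y : ℝ) : ℂ)) / 2)
      = (((1 / 2 : ℝ) : ℂ) + Complex.I * y) := by
    push_cast
    ring
  rw [e1, e2] at h
  have e3 : Real.pi * (2 * y) = 2 * (Real.pi * y) := by ring
  rw [e3, Real.cosh_two_mul, mul_zero, Real.cos_zero, Real.sinh_sq] at h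
  have hp : 0 < G (1 / 2) y := pos y (by norm_num)
  have hc := Real.cosh_pos (Real.pi * y)
  change _ = 2 * Real.pi ^ 2 / (G (1 / 2) y ^ 2 * G (1 / 2) y ^ 2) at h
  have h4 : (G (1 / 2) y ^ 2 * Real.cosh (Real.pi * y)) ^ 2 = Real.pi ^ 2 := by
    rw [eq_div_iff (by positivity)] at h
    nlinarith [h]
  have h5 : G (1 / 2) y ^ 2 * Real.cosh (Real.pi * y) = Real.pi :=
    (pow_left_inj₀ (by positivity) Real.pi_pos.le two_ne_zero).mp h4
  rw [eq_div_iff hc.ne']
  exact h5

lemma one (y : ℝ) : G 1 y ^ 2 * Real.sinh (Real.pi * y) = Real.pi * y := by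
  rcases eq_or_ne y 0 with rfl | hy
  · simp
  · have h := Complex.Gamma_mul_Gamma_one_sub (Complex.I * y)
    have hs : Complex.I * (y : ℂ) ≠ 0 := mul_ne_zero Complex.I_ne_zero (by exact_mod_cast hy)
    have h1 : Complex.Gamma (1 + Complex.I * y) = Complex.I * y * Complex.Gamma (Complex.I * y) := by
      rw [add_comm, Complex.Gamma_add_one _ hs]
    have h2 : Complex.Gamma (1 + Complex.I * y) * Complex.Gamma (1 - Complex.I * y)
        = Complex.I * y * (Real.pi / Complex.sin (Real.pi * (Complex.I * y))) := by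
      rw [h1, mul_assoc, h]
    have h3 : ‖Complex.Gamma (1 - Complex.I * y)‖ = G 1 y := by
      have := neg (a := 1) y
      rw [← this]
      unfold G
      push_cast
      ring_nf
    have h4 : ‖Complex.Gamma (1 + Complex.I * y)‖ = G 1 y := by
      unfold G
      push_cast
      rfl
    have h5 : Complex.sin (Real.pi * (Complex.I * y))
        = ((Real.sinh (Real.pi * y) : ℝ) : ℂ) * Complex.I := by
      have : (Real.pi : ℂ) * (Complex.I * y) = ((Real.pi * y : ℝ) : ℂ) * Complex.I := by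
        push_cast
        ring
      rw [this, Complex.sin_mul_I, Complex.ofReal_sinh]
    have hsh : Real.sinh (Real.pi * y) ≠ 0 := by
      rw [Ne, Real.sinh_eq_zero]
      exact mul_ne_zero Real.pi_ne_zero hy
    have h6 := congrArg norm h2
    rw [norm_mul, h3, h4, norm_mul, norm_mul, norm_div, h5, norm_mul, Complex.norm_I,
      Complex.norm_real, Complex.norm_real, Complex.norm_real, one_mul, mul_one,
      Real.norm_eq_abs, Real.norm_eq_abs, Real.norm_eq_abs] at h6
    have h7 : G 1 y ^ 2 * |Real.sinh (Real.pi * y)| = |y| * |Real.pi| := by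
      rw [sq, h6]
      have : |Real.sinh (Real.pi * y)| ≠ 0 := abs_ne_zero.mpr hsh
      field_simp
    rw [abs_of_pos Real.pi_pos] at h7
    rcases lt_or_gt_of_ne hy with h0 | h0
    · have hneg : Real.sinh (Real.pi * y) < 0 :=
        Real.sinh_neg_iff.mpr (mul_neg_of_pos_of_neg Real.pi_pos h0)
      rw [abs_of_neg hneg, abs_of_neg h0] at h7
      linarith
    · have hpos : 0 < Real.sinh (Real.pi * y) :=
        Real.sinh_pos_iff.mpr (mul_pos Real.pi_pos h0)
      rw [abs_of_pos hpos, abs_of_pos h0] at h7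
      linarith

lemma quarter (hC : StmtCosh) (y : ℝ) :
    G (1 / 4) y ^ 2 * G (3 / 4) y ^ 2 * Real.cosh (2 * Real.pi * y) = 2 * Real.pi ^ 2 := by
  have h := hC (1 / 2) (2 * y) (by norm_num) (by norm_num)
  have e1 : ((1 + ((1 / 2 : ℝ) : ℂ) + Complex.I * ((2 * y : ℝ) : ℂ)) / 2)
      = (((3 / 4 : ℝ) : ℂ) + Complex.I * y) := by
    push_cast
    ring
  have e2 : ((1 - ((1 / 2 : ℝ) : ℂ) + Complex.I * ((2 * y : ℝ) : ℂ)) / 2)
      = (((1 / 4 : ℝ) : ℂ) + Complex.I * y) := by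
    push_cast
    ring
  rw [e1, e2] at h
  have e3 : Real.pi * (2 * y) = 2 * Real.pi * y := by ring
  have e4 : Real.pi * (1 / 2) = Real.pi / 2 := by ring
  rw [e3, e4, Real.cos_pi_div_two, add_zero] at h
  have h1 : 0 < G (1 / 4) y := pos y (by norm_num)
  have h3 : 0 < G (3 / 4) y := pos y (by norm_num)
  change _ = 2 * Real.pi ^ 2 / (G (3 / 4) y ^ 2 * G (1 / 4) y ^ 2) at h
  rw [h]
  field_simp

/-- exponentials beat squares -/
lemma sq_le_exp {δ : ℝ} (hδ : 0 < δ) (y : ℝ) : y ^ 2 ≤ 2 / δ ^ 2 * Real.exp (δ * |y|) := by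
  have h := Real.quadratic_le_exp_of_nonneg (x := δ * |y|) (by positivity)
  have h1 : (δ * |y|) ^ 2 / 2 ≤ Real.exp (δ * |y|) := by
    have : 0 ≤ δ * |y| := by positivity
    linarith
  have h2 : y ^ 2 = 2 / δ ^ 2 * ((δ * |y|) ^ 2 / 2) := by
    rw [mul_pow, sq_abs]
    field_simp
  rw [h2]
  gcongr

lemma decay_half (hC : StmtCosh) (m : ℕ) : ∀ r : ℝ, r < Real.pi → ∃ C : ℝ, 0 < C ∧
    ∀ y : ℝ, G (m + 1 / 2) y ^ 2 ≤ C * Real.exp (-(r * |y|)) := by
  induction m with
  | zero =>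
    intro r hr
    refine ⟨2 * Real.pi, by positivity, fun y => ?_⟩
    simp only [Nat.cast_zero, zero_add]
    rw [half hC y]
    have h1 : Real.exp (Real.pi * |y|) / 2 ≤ Real.cosh (Real.pi * y) := by
      rw [← Real.cosh_abs, abs_mul, abs_of_pos Real.pi_pos, Real.cosh_eq]
      have := Real.exp_pos (-(Real.pi * |y|))
      linarith
    rw [div_le_iff₀ (Real.cosh_pos _)]
    have h2 : Real.exp (-(Real.pi * |y|)) ≤ Real.exp (-(r * |y|)) := by
      apply Real.exp_le_exp.mpr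
      have := abs_nonneg y
      nlinarith
    calc Real.pi = 2 * Real.pi * Real.exp (-(Real.pi * |y|)) * (Real.exp (Real.pi * |y|) / 2) := by
          have : Real.exp (-(Real.pi * |y|)) * Real.exp (Real.pi * |y|) = 1 := by
            rw [← Real.exp_add]
            simp
          linear_combination (-Real.pi) * this
      _ ≤ 2 * Real.pi * Real.exp (-(r * |y|)) * Real.cosh (Real.pi * y) := by
          have := Real.pi_pos
          gcongr
  | succ m ih =>
    intro r hr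
    obtain ⟨C, hC0, hb⟩ := ih ((r + Real.pi) / 2) (by linarith)
    set δ := (Real.pi - r) / 2 with hδ
    have hδ0 : 0 < δ := by rw [hδ]; linarith
    refine ⟨(((m : ℝ) + 1 / 2) ^ 2 + 2 / δ ^ 2) * C, by positivity, fun y => ?_⟩
    have h0 : (0 : ℝ) < (m : ℝ) + 1 / 2 := by positivity
    have e : (((m + 1 : ℕ) : ℝ) + 1 / 2) = ((m : ℝ) + 1 / 2) + 1 := by
      push_cast
      ring
    rw [e, rec y h0]
    have h1 : ((m : ℝ) + 1 / 2) ^ 2 + y ^ 2
        ≤ (((m : ℝ) + 1 / 2) ^ 2 + 2 / δ ^ 2) * Real.exp (δ * |y|) := by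
      have h2 := sq_le_exp hδ0 y
      have h3 : 1 ≤ Real.exp (δ * |y|) := Real.one_le_exp (by positivity)
      have h4 : 0 ≤ ((m : ℝ) + 1 / 2) ^ 2 := by positivity
      nlinarith
    calc (((m : ℝ) + 1 / 2) ^ 2 + y ^ 2) * G ((m : ℝ) + 1 / 2) y ^ 2
        ≤ ((((m : ℝ) + 1 / 2) ^ 2 + 2 / δ ^ 2) * Real.exp (δ * |y|)) *
          (C * Real.exp (-((r + Real.pi) / 2 * |y|))) := by
          gcongr
          exact hb y
      _ = (((m : ℝ) + 1 / 2) ^ 2 + 2 / δ ^ 2) * C *
          (Real.exp (δ * |y|) * Real.exp (-((r + Real.pi) / 2 * |y|))) := by ring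
      _ = (((m : ℝ) + 1 / 2) ^ 2 + 2 / δ ^ 2) * C * Real.exp (-(r * |y|)) := by
          rw [← Real.exp_add]
          congr 2
          rw [hδ]
          ring

lemma decay (hG : StmtGam) (hC : StmtCosh) (a : ℝ) (ha : 0 < a) :
    ∃ C, 0 < C ∧ ∀ y, G a y ≤ C * Real.exp (-(3 / 2 * |y|)) := by
  obtain ⟨m, hm⟩ := exists_nat_ge a
  obtain ⟨C, hC0, hb⟩ := decay_half hC m 3 Real.pi_gt_three
  have ham : a ≤ (m : ℝ) + 1 / 2 := by linarith
  have h0 : (0 : ℝ) < (m : ℝ) + 1 / 2 := by linarith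
  have ga := Real.Gamma_pos_of_pos ha
  have gm := Real.Gamma_pos_of_pos h0
  refine ⟨Real.Gamma a / Real.Gamma ((m : ℝ) + 1 / 2) * Real.sqrt C, by positivity, fun y => ?_⟩
  have h1 := mono hG y ha ham
  have h2 : G ((m : ℝ) + 1 / 2) y ≤ Real.sqrt C * Real.exp (-(3 / 2 * |y|)) := by
    have h3 := hb y
    have h4 : (Real.sqrt C * Real.exp (-(3 / 2 * |y|))) ^ 2 = C * Real.exp (-(3 * |y|)) := by
      rw [mul_pow, Real.sq_sqrt hC0.le, ← Real.exp_nat_mul]
      congr 2
      push_cast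
      ring
    rw [← h4] at h3
    exact (pow_le_pow_iff_left₀ (pos y h0).le (by positivity) two_ne_zero).mp h3
  calc G a y = G a y / Real.Gamma a * Real.Gamma a := by field_simp
    _ ≤ G ((m : ℝ) + 1 / 2) y / Real.Gamma ((m : ℝ) + 1 / 2) * Real.Gamma a := by gcongr
    _ ≤ (Real.sqrt C * Real.exp (-(3 / 2 * |y|))) / Real.Gamma ((m : ℝ) + 1 / 2) *
        Real.Gamma a := by gcongr
    _ = Real.Gamma a / Real.Gamma ((m : ℝ) + 1 / 2) * Real.sqrt C *
        Real.exp (-(3 / 2 * |y|)) := by ring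

end GAux

open GAux in
/-- (G) -/
theorem gfacts (hG : Rp.StmtGam) (hC : Rp.StmtCosh) : StmtG :=
  ⟨fun _ y ha => ⟨pos y ha, neg y, GAux.rec y ha⟩, fun _ ha => cont ha, fun a ha => decay hG hC a ha,
    fun _ _ y ha hab => mono hG y ha hab, fun y => half hC y, fun y => one y,
    fun y => quarter hC y⟩

end Pool.Agent.Lib.MP_dd244f_an.Rq
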