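import Pool.Agent.Lib.MP_dd244f_an.Rq.Stmts

/-!
# Numerical enclosures of `|Γ(3/4 + i j/5)| ^ 2`, `j = 0, ..., 7`
-/

set_option autoImplicit false

namespace Pool.Agent.Lib.MP_dd244f_an.Rq

open Filter Topology

namespace GnAux

/-! ### The value `Γ(3/4) ^ 2` -/

/-- log-convexity of `Γ` at a midpoint -/
theorem mid {s t : ℝ} (hs : 0 < s) (ht : 0 < t) :
    Real.Gamma ((s + t) / 2) ^ 2 ≤ Real.Gamma s * Real.Gamma t := by
  have h := Real.Gamma_mul_add_mul_le_rpow_Gamma_mul_rpow_Gamma hs ht (a := 1 / 2) (b := 1 / 2)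
    (by norm_num) (by norm_num) (by norm_num)
  have e : (1 / 2 : ℝ) * s + 1 / 2 * t = (s + t) / 2 := by ring
  rw [e] at h
  have hs' := Real.Gamma_pos_of_pos hs
  have ht' := Real.Gamma_pos_of_pos ht
  have h0 : 0 < Real.Gamma ((s + t) / 2) := Real.Gamma_pos_of_pos (by positivity)
  have h1 : Real.Gamma ((s + t) / 2) ^ 2 ≤
      (Real.Gamma s ^ (1 / 2 : ℝ) * Real.Gamma t ^ (1 / 2 : ℝ)) ^ 2 := by gcongr
  have h2 : (Real.Gamma s ^ (1 / 2 : ℝ)) ^ 2 = Real.Gamma s := by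
    rw [← Real.sqrt_eq_rpow, Real.sq_sqrt hs'.le]
  have h3 : (Real.Gamma t ^ (1 / 2 : ℝ)) ^ 2 = Real.Gamma t := by
    rw [← Real.sqrt_eq_rpow, Real.sq_sqrt ht'.le]
  rw [mul_pow, h2, h3] at h1
  exact h1

/-- `(Γ(x + 1/2) / Γ(x)) ^ 2` -/
noncomputable def qq (x : ℝ) : ℝ := (Real.Gamma (x + 1 / 2) / Real.Gamma x) ^ 2

theorem qq_pos {x : ℝ} (hx : 0 < x) : 0 < qq x := by
  have h1 := Real.Gamma_pos_of_pos hx
  have h2 : 0 < Real.Gamma (x + 1 / 2) := Real.Gamma_pos_of_pos (by positivity)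
  unfold qq
  positivity

theorem qq_le {x : ℝ} (hx : 0 < x) : qq x ≤ x := by
  have h := mid hx (show (0 : ℝ) < x + 1 by positivity)
  have e : (x + (x + 1)) / 2 = x + 1 / 2 := by ring
  rw [e, Real.Gamma_add_one hx.ne'] at h
  have h1 := Real.Gamma_pos_of_pos hx
  unfold qq
  rw [div_pow, div_le_iff₀ (by positivity)]
  calc Real.Gamma (x + 1 / 2) ^ 2 ≤ Real.Gamma x * (x * Real.Gamma x) := h
    _ = x * Real.Gamma x ^ 2 := by ring

theorem qq_ge {x : ℝ} (hx : 0 < x) : x ^ 2 / (x + 1 / 2) ≤ qq x := by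
  have h := mid (show (0 : ℝ) < x + 1 / 2 by positivity) (show (0 : ℝ) < x + 1 / 2 + 1 by positivity)
  have e : (x + 1 / 2 + (x + 1 / 2 + 1)) / 2 = x + 1 := by ring
  rw [e, Real.Gamma_add_one hx.ne', Real.Gamma_add_one (by positivity)] at h
  have h1 := Real.Gamma_pos_of_pos hx
  have h2 : 0 < Real.Gamma (x + 1 / 2) := Real.Gamma_pos_of_pos (by positivity)
  unfold qq
  rw [div_pow, div_le_div_iff₀ (by positivity) (by positivity)]
  calc x ^ 2 * Real.Gamma x ^ 2 = (x * Real.Gamma x) ^ 2 := by ring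
    _ ≤ Real.Gamma (x + 1 / 2) * ((x + 1 / 2) * Real.Gamma (x + 1 / 2)) := h
    _ = Real.Gamma (x + 1 / 2) ^ 2 * (x + 1 / 2) := by ring

theorem qq_succ {x : ℝ} (hx : 0 < x) : qq (x + 1) = qq x * ((x + 1 / 2) / x) ^ 2 := by
  have h1 := Real.Gamma_pos_of_pos hx
  have h2 : 0 < Real.Gamma (x + 1 / 2) := Real.Gamma_pos_of_pos (by positivity)
  unfold qq
  have e : x + 1 + 1 / 2 = x + 1 / 2 + 1 := by ring
  rw [e, Real.Gamma_add_one hx.ne', Real.Gamma_add_one (by positivity)]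
  field_simp

/-- `u n = q(n + 1/4)` -/
noncomputable def u (n : ℕ) : ℝ := qq (n + 1 / 4)

theorem u_succ (n : ℕ) : u (n + 1) = u n * (((n : ℝ) + 3 / 4) / (n + 1 / 4)) ^ 2 := by
  have h := qq_succ (x := (n : ℝ) + 1 / 4) (by positivity)
  have e1 : (n : ℝ) + 1 / 4 + 1 = ((n + 1 : ℕ) : ℝ) + 1 / 4 := by push_cast; ring
  have e2 : (n : ℝ) + 1 / 4 + 1 / 2 = n + 3 / 4 := by ring
  rw [e1, e2] at h
  exact h

theorem one_sub_tendsto (c : ℝ) (n : ℕ) :
    Tendsto (fun k : ℕ => 1 + c / ((n + k : ℕ) : ℝ)) atTop (𝓝 1) := by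
  have h1 : Tendsto (fun k : ℕ => ((n + k : ℕ) : ℝ)) atTop atTop := by
    apply tendsto_natCast_atTop_atTop.comp
    simpa [add_comm] using tendsto_add_atTop_nat n
  have h2 := (tendsto_const_nhds (x := c)).div_atTop h1
  simpa using (tendsto_const_nhds (x := (1 : ℝ))).add h2

theorem u_ge {n : ℕ} (hn : 1 ≤ n) : (n : ℝ) ≤ u n := by
  have hn0 : (1 : ℝ) ≤ n := by exact_mod_cast hn
  -- the quotient decreases
  have hanti : ∀ k : ℕ, u (n + k) / ((n + k : ℕ) : ℝ) ≤ u n / n := by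
    intro k
    induction k with
    | zero => simp
    | succ k ih =>
      refine le_trans ?_ ih
      set m : ℕ := n + k with hm
      have hm0 : (1 : ℝ) ≤ (m : ℝ) := by
        have : 1 ≤ m := by omega
        exact_mod_cast this
      have hu : 0 < u m := qq_pos (by positivity)
      rw [show n + (k + 1) = m + 1 by omega, u_succ, div_le_div_iff₀ (by positivity) (by positivity)]
      push_cast
      have key : (((m : ℝ) + 3 / 4) / (m + 1 / 4)) ^ 2 * m ≤ m + 1 := by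
        rw [div_pow, div_mul_eq_mul_div, div_le_iff₀ (by positivity)]
        nlinarith
      calc u m * (((m : ℝ) + 3 / 4) / (m + 1 / 4)) ^ 2 * m
          = u m * ((((m : ℝ) + 3 / 4) / (m + 1 / 4)) ^ 2 * m) := by ring
        _ ≤ u m * (m + 1) := by gcongr
  have hlow : ∀ k : ℕ, 1 + (-(1 / 4)) / ((n + k : ℕ) : ℝ) ≤ u n / n := by
    intro k
    refine le_trans ?_ (hanti k)
    set m : ℕ := n + k with hm
    have hm0 : (1 : ℝ) ≤ (m : ℝ) := by
      have : 1 ≤ m := by omega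
      exact_mod_cast this
    have h1 := qq_ge (x := (m : ℝ) + 1 / 4) (by positivity)
    change _ ≤ u m at h1
    refine le_trans ?_ (div_le_div_of_nonneg_right h1 (by positivity))
    rw [show (1 : ℝ) + (-(1 / 4)) / (m : ℝ) = (m - 1 / 4) / m by field_simp; ring]
    apply div_le_div_of_nonneg_right _ (by positivity)
    rw [le_div_iff₀ (by positivity)]
    nlinarith
  have h1 := le_of_tendsto' (one_sub_tendsto (-(1 / 4)) n) hlow
  rwa [le_div_iff₀ (by positivity), one_mul] at h1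

theorem u_le {n : ℕ} (hn : 1 ≤ n) : u n ≤ n + 1 / (32 * n) := by
  have hn0 : (1 : ℝ) ≤ n := by exact_mod_cast hn
  have hmono : ∀ k : ℕ, u n / (n + 1 / (32 * n)) ≤
      u (n + k) / (((n + k : ℕ) : ℝ) + 1 / (32 * ((n + k : ℕ) : ℝ))) := by
    intro k
    induction k with
    | zero => simp
    | succ k ih =>
      refine le_trans ih ?_
      set m : ℕ := n + k with hm
      have hm0 : (1 : ℝ) ≤ (m : ℝ) := by
        have : 1 ≤ m := by omega
        exact_mod_cast this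
      have hu : 0 < u m := qq_pos (by positivity)
      rw [show n + (k + 1) = m + 1 by omega, u_succ, div_le_div_iff₀ (by positivity) (by positivity)]
      push_cast
      have key : (m : ℝ) + 1 + 1 / (32 * (m + 1)) ≤
          (((m : ℝ) + 3 / 4) / (m + 1 / 4)) ^ 2 * (m + 1 / (32 * m)) := by
        have hmp : (0 : ℝ) < m := by linarith
        rw [show (m : ℝ) + 1 + 1 / (32 * (m + 1)) = (32 * (m + 1) ^ 2 + 1) / (32 * (m + 1)) by
          field_simp, show (m : ℝ) + 1 / (32 * m) = (32 * m ^ 2 + 1) / (32 * m) by field_simp,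
          div_pow, div_mul_div_comm, div_le_div_iff₀ (by positivity) (by positivity)]
        nlinarith [pow_pos hmp 2, pow_pos hmp 3, pow_pos hmp 4]
      calc u m * ((m : ℝ) + 1 + 1 / (32 * (m + 1)))
          ≤ u m * ((((m : ℝ) + 3 / 4) / (m + 1 / 4)) ^ 2 * (m + 1 / (32 * m))) := by gcongr
        _ = u m * (((m : ℝ) + 3 / 4) / (m + 1 / 4)) ^ 2 * (m + 1 / (32 * m)) := by ring
  have hup : ∀ k : ℕ, u n / (n + 1 / (32 * n)) ≤ 1 + (1 / 4) / ((n + k : ℕ) : ℝ) := by
    intro k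
    refine le_trans (hmono k) ?_
    set m : ℕ := n + k with hm
    have hm0 : (1 : ℝ) ≤ (m : ℝ) := by
      have : 1 ≤ m := by omega
      exact_mod_cast this
    have h1 := qq_le (x := (m : ℝ) + 1 / 4) (by positivity)
    change u m ≤ _ at h1
    have h2 : (0 : ℝ) < 1 / (32 * m) := by positivity
    rw [div_le_iff₀ (by positivity)]
    have h3 : (1 + (1 / 4) / (m : ℝ)) * (m + 1 / (32 * m)) =
        m + 1 / 4 + (1 / (32 * m)) * (1 + (1 / 4) / m) := by
      field_simp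
    rw [h3]
    have : 0 < (1 / (32 * (m : ℝ))) * (1 + (1 / 4) / m) := by positivity
    linarith
  have h1 := ge_of_tendsto' (one_sub_tendsto (1 / 4) n) hup
  rwa [div_le_one (by positivity)] at h1

theorem u_zero_eq (n : ℕ) :
    u 0 = u n * (∏ j ∈ Finset.range n, (4 * (j : ℝ) + 1) / (4 * j + 3)) ^ 2 := by
  induction n with
  | zero => simp
  | succ n ih =>
    rw [Finset.prod_range_succ, u_succ, ih]
    have : ((n : ℝ) + 3 / 4) / (n + 1 / 4) = (4 * (n : ℝ) + 3) / (4 * n + 1) := by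
      field_simp
    rw [this]
    field_simp

/-- `Γ(3/4) ^ 4 = 2 π² q(1/4)` -/
theorem gamma_four : (Real.Gamma (3 / 4) ^ 2) ^ 2 = 2 * Real.pi ^ 2 * u 0 := by
  have h1 := Real.Gamma_mul_Gamma_one_sub (1 / 4)
  have e1 : (1 : ℝ) - 1 / 4 = 3 / 4 := by norm_num
  have e2 : Real.pi * (1 / 4) = Real.pi / 4 := by ring
  rw [e1, e2, Real.sin_pi_div_four] at h1
  have h2 : 0 < Real.Gamma (1 / 4) := Real.Gamma_pos_of_pos (by norm_num)
  have h3 : u 0 = (Real.Gamma (3 / 4) / Real.Gamma (1 / 4)) ^ 2 := by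
    unfold u qq
    norm_num
  have h4 : (Real.Gamma (1 / 4) * Real.Gamma (3 / 4)) ^ 2 = 2 * Real.pi ^ 2 := by
    rw [h1, div_pow, div_pow, Real.sq_sqrt (by norm_num : (0 : ℝ) ≤ 2)]
    ring
  rw [← h4, h3]
  field_simp

theorem prod60 : (1142356 / 10000000 : ℝ) ≤
      60 * (∏ j ∈ Finset.range 60, (4 * (j : ℝ) + 1) / (4 * j + 3)) ^ 2 ∧
    (60 + 1 / (32 * 60)) * (∏ j ∈ Finset.range 60, (4 * (j : ℝ) + 1) / (4 * j + 3)) ^ 2 ≤
      (11423665 / 100000000 : ℝ) := by
  constructor <;> norm_num [Finset.prod_range_succ]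

theorem gamma_bounds : (1501638 / 1000000 : ℝ) ≤ Real.Gamma (3 / 4) ^ 2 ∧
    Real.Gamma (3 / 4) ^ 2 ≤ 1501648 / 1000000 := by
  have h1 := u_ge (n := 60) (by norm_num)
  have h2 := u_le (n := 60) (by norm_num)
  have h3 := u_zero_eq 60
  obtain ⟨h4, h5⟩ := prod60
  have hA := gamma_four
  set P : ℝ := (∏ j ∈ Finset.range 60, (4 * (j : ℝ) + 1) / (4 * j + 3)) ^ 2 with hP
  have hP0 : 0 ≤ P := by positivity
  push_cast at h1 h2
  have h6 : 60 * P ≤ u 0 := by rw [h3]; gcongr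
  have h7 : u 0 ≤ (60 + 1 / (32 * 60)) * P := by rw [h3]; gcongr
  have hpi1 := Real.pi_gt_d6
  have hpi2 := Real.pi_lt_d6
  have hA0 : 0 ≤ Real.Gamma (3 / 4) ^ 2 := by positivity
  have hpi3 : (3.141592 : ℝ) ^ 2 ≤ Real.pi ^ 2 := by gcongr
  have hpi4 : Real.pi ^ 2 ≤ (3.141593 : ℝ) ^ 2 := by gcongr
  have h8 : (1142356 / 10000000 : ℝ) ≤ u 0 := h4.trans h6
  have h9 : u 0 ≤ (11423665 / 100000000 : ℝ) := h7.trans h5
  constructor
  · apply le_of_sq_le_sq _ hA0
    rw [hA]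
    calc (1501638 / 1000000 : ℝ) ^ 2 ≤ 2 * (3.141592 : ℝ) ^ 2 * (1142356 / 10000000) := by norm_num
      _ ≤ 2 * Real.pi ^ 2 * u 0 := by gcongr
  · apply le_of_sq_le_sq _ (by norm_num)
    rw [hA]
    calc 2 * Real.pi ^ 2 * u 0 ≤ 2 * (3.141593 : ℝ) ^ 2 * (11423665 / 100000000) := by gcongr
      _ ≤ (1501648 / 1000000 : ℝ) ^ 2 := by norm_num

/-! ### The products -/

/-- finite products -/
noncomputable def pr (y : ℝ) (n : ℕ) : ℝ := ∏ j ∈ Finset.range n, (1 + y ^ 2 / (3 / 4 + j) ^ 2)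

theorem pr_pos (y : ℝ) (n : ℕ) : 0 < pr y n := Finset.prod_pos fun j _ => by positivity

theorem pr_succ (y : ℝ) (n : ℕ) : pr y (n + 1) = pr y n * (1 + y ^ 2 / (3 / 4 + n) ^ 2) :=
  Finset.prod_range_succ _ _

theorem ratio_eq {w h : ℝ} (h0 : 0 ≤ h) (hw : h < w) :
    (w + h) / (w - h) = (1 + 2 * h / ((w - h) * (w + 1 + h))) * ((w + 1 + h) / (w + 1 - h)) := by
  have h1 : w - h ≠ 0 := by linarith
  have h2 : w + 1 - h ≠ 0 := by linarith
  have h3 : w + 1 + h ≠ 0 := by linarith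
  field_simp
  ring

theorem corr_tendsto (h c : ℝ) (M : ℕ) :
    Tendsto (fun k : ℕ => (((M + k : ℕ) : ℝ) + c + h) / (((M + k : ℕ) : ℝ) + c - h)) atTop (𝓝 1) := by
  have h1 : Tendsto (fun k : ℕ => ((M + k : ℕ) : ℝ) + (c - h)) atTop atTop := by
    apply tendsto_atTop_add_const_right
    apply tendsto_natCast_atTop_atTop.comp
    simpa [add_comm] using tendsto_add_atTop_nat M
  have h2 := (tendsto_const_nhds (x := 2 * h)).div_atTop h1
  have h3 := (tendsto_const_nhds (x := (1 : ℝ))).add h2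
  rw [add_zero] at h3
  refine h3.congr' ?_
  filter_upwards [h1.eventually_gt_atTop 0] with k hk
  have h4 : ((M + k : ℕ) : ℝ) + c - h ≠ 0 := by
    have : ((M + k : ℕ) : ℝ) + c - h = ((M + k : ℕ) : ℝ) + (c - h) := by ring
    rw [this]
    exact hk.ne'
  have h5 : ((M + k : ℕ) : ℝ) + (c - h) ≠ 0 := hk.ne'
  field_simp
  ring

/-- upper bound for the infinite product -/
theorem lim_le {y h L : ℝ} {M : ℕ} (h0 : 0 ≤ h) (h1 : h < 1) (hy : y ^ 2 = 2 * h) (hM : 1 ≤ M)
    (hL : Tendsto (fun n => pr y n) atTop (𝓝 L)) :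
    L ≤ pr y M * ((M + 1 / 4 + h) / (M + 1 / 4 - h)) := by
  have hanti : ∀ k : ℕ, pr y (M + k) *
      ((((M + k : ℕ) : ℝ) + 1 / 4 + h) / (((M + k : ℕ) : ℝ) + 1 / 4 - h)) ≤
      pr y M * ((M + 1 / 4 + h) / (M + 1 / 4 - h)) := by
    intro k
    induction k with
    | zero => simp
    | succ k ih =>
      refine le_trans ?_ ih
      set m : ℕ := M + k with hm
      have hm0 : (1 : ℝ) ≤ (m : ℝ) := by
        have : 1 ≤ m := by omega
        exact_mod_cast this
      rw [show M + (k + 1) = m + 1 by omega, pr_succ, ratio_eq h0 (w := (m : ℝ) + 1 / 4)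
        (by linarith)]
      have hp := pr_pos y m
      push_cast
      have e1 : (m : ℝ) + 1 + 1 / 4 = m + 1 / 4 + 1 := by ring
      rw [e1]
      have h4 : (0 : ℝ) < m + 1 / 4 + 1 - h := by linarith
      have h5 : (0 : ℝ) < m + 1 / 4 - h := by linarith
      have key : 1 + y ^ 2 / (3 / 4 + (m : ℝ)) ^ 2 ≤
          1 + 2 * h / (((m : ℝ) + 1 / 4 - h) * (m + 1 / 4 + 1 + h)) := by
        rw [hy]
        gcongr
        nlinarith
      calc pr y m * (1 + y ^ 2 / (3 / 4 + (m : ℝ)) ^ 2) *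
            (((m : ℝ) + 1 / 4 + 1 + h) / (m + 1 / 4 + 1 - h))
          ≤ pr y m * (1 + 2 * h / (((m : ℝ) + 1 / 4 - h) * (m + 1 / 4 + 1 + h))) *
            (((m : ℝ) + 1 / 4 + 1 + h) / (m + 1 / 4 + 1 - h)) := by gcongr
        _ = _ := by ring
  have ht : Tendsto (fun k : ℕ => pr y (M + k)) atTop (𝓝 L) := by
    have := hL.comp (tendsto_add_atTop_nat M)
    refine this.congr fun k => ?_
    simp [Function.comp, add_comm]
  have h2 := ht.mul (corr_tendsto h (1 / 4) M)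
  rw [mul_one] at h2
  exact le_of_tendsto' h2 hanti

/-- lower bound for the infinite product -/
theorem le_lim {y h c L : ℝ} {M : ℕ} (h0 : 0 ≤ h) (h1 : h < 1) (hy : y ^ 2 = 2 * h) (hM : 1 ≤ M)
    (hc : 0 ≤ c) (hc2 : h + h ^ 2 + 1 / 4 ≤ 2 * c * (M + 1 / 4))
    (hL : Tendsto (fun n => pr y n) atTop (𝓝 L)) :
    pr y M * ((M + (1 / 4 + c) + h) / (M + (1 / 4 + c) - h)) ≤ L := by
  have hmono : ∀ k : ℕ, pr y M * ((M + (1 / 4 + c) + h) / (M + (1 / 4 + c) - h)) ≤ pr y (M + k) *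
      ((((M + k : ℕ) : ℝ) + (1 / 4 + c) + h) / (((M + k : ℕ) : ℝ) + (1 / 4 + c) - h)) := by
    intro k
    induction k with
    | zero => simp
    | succ k ih =>
      refine le_trans ih ?_
      set m : ℕ := M + k with hm
      have hm0 : (1 : ℝ) ≤ (m : ℝ) := by
        have : 1 ≤ m := by omega
        exact_mod_cast this
      have hMm : (M : ℝ) ≤ m := by
        have : M ≤ m := by omega
        exact_mod_cast this
      rw [show M + (k + 1) = m + 1 by omega, pr_succ, ratio_eq h0 (w := (m : ℝ) + (1 / 4 + c))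
        (by linarith)]
      have hp := pr_pos y m
      push_cast
      have e1 : (m : ℝ) + 1 + (1 / 4 + c) = m + (1 / 4 + c) + 1 := by ring
      rw [e1]
      have h4 : (0 : ℝ) < m + (1 / 4 + c) + 1 - h := by linarith
      have h5 : (0 : ℝ) < m + (1 / 4 + c) - h := by linarith
      have h6 : h + h ^ 2 + 1 / 4 ≤ 2 * c * (m + 1 / 4) := by
        refine hc2.trans ?_
        gcongr
      have key : 1 + 2 * h / (((m : ℝ) + (1 / 4 + c) - h) * (m + (1 / 4 + c) + 1 + h)) ≤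
          1 + y ^ 2 / (3 / 4 + (m : ℝ)) ^ 2 := by
        rw [hy]
        gcongr
        nlinarith [sq_nonneg c]
      calc pr y m * ((1 + 2 * h / (((m : ℝ) + (1 / 4 + c) - h) * (m + (1 / 4 + c) + 1 + h))) *
            (((m : ℝ) + (1 / 4 + c) + 1 + h) / (m + (1 / 4 + c) + 1 - h)))
          ≤ pr y m * ((1 + y ^ 2 / (3 / 4 + (m : ℝ)) ^ 2) *
            (((m : ℝ) + (1 / 4 + c) + 1 + h) / (m + (1 / 4 + c) + 1 - h))) := by gcongr
        _ = _ := by ring
  have ht : Tendsto (fun k : ℕ => pr y (M + k)) atTop (𝓝 L) := by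
    have := hL.comp (tendsto_add_atTop_nat M)
    refine this.congr fun k => ?_
    simp [Function.comp, add_comm]
  have h2 := ht.mul (corr_tendsto h (1 / 4 + c) M)
  rw [mul_one] at h2
  exact ge_of_tendsto' h2 hmono

/-- the enclosure -/
theorem enclose (hG : Rp.StmtGam) {y h c g Pl Pu e : ℝ} (h0 : 0 ≤ h) (h1 : h < 1)
    (hy : y ^ 2 = 2 * h) (hc : 0 ≤ c) (hc2 : h + h ^ 2 + 1 / 4 ≤ 2 * c * (40 + 1 / 4))
    (hPl : Pl ≤ pr y 40) (hPu : pr y 40 ≤ Pu) (hPl0 : 0 < Pl)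
    (hlo : (g - e) * (Pu * ((40 + 1 / 4 + h) / (40 + 1 / 4 - h))) ≤ 1501638 / 1000000)
    (hup : 1501648 / 1000000 ≤
      (g + e) * (Pl * ((40 + (1 / 4 + c) + h) / (40 + (1 / 4 + c) - h)))) :
    |G (3 / 4) y ^ 2 - g| ≤ e := by
  obtain ⟨hne, ht⟩ := hG (3 / 4) y (by norm_num)
  change Tendsto (fun n => pr y n) atTop _ at ht
  have hG0 : 0 < G (3 / 4) y := norm_pos_iff.2 hne
  change Tendsto (fun n => pr y n) atTop (𝓝 (Real.Gamma (3 / 4) ^ 2 / G (3 / 4) y ^ 2)) at ht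
  have k1 := lim_le (M := 40) h0 h1 hy (by norm_num) ht
  have k2 := le_lim (M := 40) h0 h1 hy (by norm_num) hc (by exact_mod_cast hc2) ht
  push_cast at k1 k2
  obtain ⟨a1, a2⟩ := gamma_bounds
  have hg0 : 0 < G (3 / 4) y ^ 2 := by positivity
  have f1 : (0 : ℝ) < 40 + 1 / 4 - h := by linarith
  have f2 : (0 : ℝ) < 40 + (1 / 4 + c) - h := by linarith
  rw [div_le_iff₀ hg0] at k1
  rw [le_div_iff₀ hg0] at k2
  have q1 : (0 : ℝ) < (40 + 1 / 4 + h) / (40 + 1 / 4 - h) := by positivity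
  have q2 : (0 : ℝ) < (40 + (1 / 4 + c) + h) / (40 + (1 / 4 + c) - h) := by positivity
  have hPu0 : 0 < Pu := hPl0.trans_le (hPl.trans hPu)
  rw [abs_le]
  constructor
  · have m1 : (g - e) * (Pu * ((40 + 1 / 4 + h) / (40 + 1 / 4 - h))) ≤
        G (3 / 4) y ^ 2 * (Pu * ((40 + 1 / 4 + h) / (40 + 1 / 4 - h))) := by
      calc _ ≤ (1501638 / 1000000 : ℝ) := hlo
        _ ≤ Real.Gamma (3 / 4) ^ 2 := a1
        _ ≤ _ := k1
        _ ≤ (Pu * ((40 + 1 / 4 + h) / (40 + 1 / 4 - h))) * G (3 / 4) y ^ 2 := by gcongr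
        _ = _ := by ring
    have := le_of_mul_le_mul_right m1 (by positivity)
    linarith
  · have m1 : G (3 / 4) y ^ 2 * (Pl * ((40 + (1 / 4 + c) + h) / (40 + (1 / 4 + c) - h))) ≤
        (g + e) * (Pl * ((40 + (1 / 4 + c) + h) / (40 + (1 / 4 + c) - h))) := by
      calc _ = (Pl * ((40 + (1 / 4 + c) + h) / (40 + (1 / 4 + c) - h))) * G (3 / 4) y ^ 2 := by ring
        _ ≤ (pr y 40 * ((40 + (1 / 4 + c) + h) / (40 + (1 / 4 + c) - h))) * G (3 / 4) y ^ 2 := by
          gcongr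
        _ ≤ _ := k2
        _ ≤ _ := a2
        _ ≤ _ := hup
    have := le_of_mul_le_mul_right m1 (by positivity)
    linarith

theorem pr0 : (1000000000 / 1000000000 : ℝ) ≤ pr (0 / 5) 40 ∧ pr (0 / 5) 40 ≤ 1000000000 / 1000000000 := by
  unfold pr
  constructor <;> norm_num [Finset.prod_range_succ]

theorem pr1 : (1103140326 / 1000000000 : ℝ) ≤ pr (1 / 5) 40 ∧ pr (1 / 5) 40 ≤ 1103140327 / 1000000000 := by
  unfold pr
  constructor <;> norm_num [Finset.prod_range_succ]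

theorem pr2 : (1443325479 / 1000000000 : ℝ) ≤ pr (2 / 5) 40 ∧ pr (2 / 5) 40 ≤ 1443325480 / 1000000000 := by
  unfold pr
  constructor <;> norm_num [Finset.prod_range_succ]

theorem pr3 : (2122778665 / 1000000000 : ℝ) ≤ pr (3 / 5) 40 ∧ pr (3 / 5) 40 ≤ 2122778666 / 1000000000 := by
  unfold pr
  constructor <;> norm_num [Finset.prod_range_succ]

theorem pr4 : (3348257445 / 1000000000 : ℝ) ≤ pr (4 / 5) 40 ∧ pr (4 / 5) 40 ≤ 3348257446 / 1000000000 := by
  unfold pr
  constructor <;> norm_num [Finset.prod_range_succ]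

theorem pr5 : (5498212662 / 1000000000 : ℝ) ≤ pr (5 / 5) 40 ∧ pr (5 / 5) 40 ≤ 5498212663 / 1000000000 := by
  unfold pr
  constructor <;> norm_num [Finset.prod_range_succ]

theorem pr6 : (9246251730 / 1000000000 : ℝ) ≤ pr (6 / 5) 40 ∧ pr (6 / 5) 40 ≤ 9246251731 / 1000000000 := by
  unfold pr
  constructor <;> norm_num [Finset.prod_range_succ]

theorem pr7 : (15781764838 / 1000000000 : ℝ) ≤ pr (7 / 5) 40 ∧ pr (7 / 5) 40 ≤ 15781764839 / 1000000000 := by
  unfold pr
  constructor <;> norm_num [Finset.prod_range_succ]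

end GnAux

open GnAux

/-- (Gn) -/
theorem gn (hG : Rp.StmtGam) : StmtGn := by
  intro j hj
  interval_cases j
  · have h := enclose hG (y := 0 / 5) (h := 0 / 1) (c := 3106 / 1000000) (g := 1501646 / 1000000)
      (e := 3 / 100000) (by norm_num) (by norm_num) (by norm_num) (by norm_num) (by norm_num)
      pr0.1 pr0.2 (by norm_num) (by norm_num) (by norm_num)
    simpa [gt] using h
  · have h := enclose hG (y := 1 / 5) (h := 1 / 50) (c := 3360 / 1000000) (g := 1359895 / 1000000)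
      (e := 3 / 100000) (by norm_num) (by norm_num) (by norm_num) (by norm_num) (by norm_num)
      pr1.1 pr1.2 (by norm_num) (by norm_num) (by norm_num)
    simpa [gt] using h
  · have h := enclose hG (y := 2 / 5) (h := 2 / 25) (c := 4179 / 1000000) (g := 1036280 / 1000000)
      (e := 3 / 100000) (by norm_num) (by norm_num) (by norm_num) (by norm_num) (by norm_num)
      pr2.1 pr2.2 (by norm_num) (by norm_num) (by norm_num)
    simpa [gt] using h
  · have h := enclose hG (y := 3 / 5) (h := 9 / 50) (c := 5745 / 1000000) (g := 701098 / 1000000)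
      (e := 3 / 100000) (by norm_num) (by norm_num) (by norm_num) (by norm_num) (by norm_num)
      pr3.1 pr3.2 (by norm_num) (by norm_num) (by norm_num)
    simpa [gt] using h
  · have h := enclose hG (y := 4 / 5) (h := 8 / 25) (c := 8353 / 1000000) (g := 441412 / 1000000)
      (e := 3 / 100000) (by norm_num) (by norm_num) (by norm_num) (by norm_num) (by norm_num)
      pr4.1 pr4.2 (by norm_num) (by norm_num) (by norm_num)
    simpa [gt] using h
  · have h := enclose hG (y := 5 / 5) (h := 1 / 2) (c := 12423 / 1000000) (g := 266414 / 1000000)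
      (e := 3 / 100000) (by norm_num) (by norm_num) (by norm_num) (by norm_num) (by norm_num)
      pr5.1 pr5.2 (by norm_num) (by norm_num) (by norm_num)
    simpa [gt] using h
  · have h := enclose hG (y := 6 / 5) (h := 18 / 25) (c := 18490 / 1000000) (g := 156699 / 1000000)
      (e := 3 / 100000) (by norm_num) (by norm_num) (by norm_num) (by norm_num) (by norm_num)
      pr6.1 pr6.2 (by norm_num) (by norm_num) (by norm_num)
    simpa [gt] using h
  · have h := enclose hG (y := 7 / 5) (h := 49 / 50) (c := 27210 / 1000000) (g := 90629 / 1000000)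
      (e := 3 / 100000) (by norm_num) (by norm_num) (by norm_num) (by norm_num) (by norm_num)
      pr7.1 pr7.2 (by norm_num) (by norm_num) (by norm_num)
    simpa [gt] using h

end Pool.Agent.Lib.MP_dd244f_an.Rq
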