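import Pool.Agent.Lib.MP_dd244f_an.Rq.Stmts

/-!
(I1): the numerical constant of the tail.  The weight is a sum of characteristic functions of finite
measures, so that its integral is at most its Riemann sum (sampling inequality, proved with the
theta function); the Riemann sum is computed.
-/

set_option autoImplicit false

namespace Pool.Agent.Lib.MP_dd244f_an.Rq

open MeasureTheory Filter Topology

namespace I1Aux

/-! ### the sampling inequality -/

lemma summable_gauss (c t : ℝ) (hc : 0 < c) :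
    Summable (fun n : ℤ => Real.exp (-c * ((n : ℝ) - t) ^ 2)) := by
  have h := (summable_jacobiTheta₂_term_iff (-Complex.I * (c * t / Real.pi : ℝ))
    (Complex.I * (c / Real.pi : ℝ))).2 (by
      simp only [Complex.mul_im, Complex.I_re, Complex.I_im, Complex.ofReal_re, Complex.ofReal_im]
      have := Real.pi_pos
      have : 0 < c / Real.pi := by positivity
      linarith)
  have h2 := (h.norm).mul_left (Real.exp (-c * t ^ 2))
  refine h2.congr fun n => ?_
  simp only [jacobiTheta₂_term]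
  rw [Complex.norm_exp, ← Real.exp_add]
  congr 1
  have hpi : (Real.pi : ℝ) ≠ 0 := Real.pi_ne_zero
  have e : (2 * (Real.pi : ℂ) * Complex.I * n * (-Complex.I * (c * t / Real.pi : ℝ)) +
      Real.pi * Complex.I * n ^ 2 * (Complex.I * (c / Real.pi : ℝ)))
      = ((2 * c * t * n - c * n ^ 2 : ℝ) : ℂ) := by
    have hpi' : (Real.pi : ℂ) ≠ 0 := by exact_mod_cast hpi
    push_cast
    field_simp
    ring_nf
    rw [Complex.I_sq]
    ring
  rw [e, Complex.ofReal_re]
  ring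

lemma theta_ineq {ε s : ℝ} (hε : 0 < ε) (hs : 0 < s) (x : ℝ) :
    Summable (fun j : ℤ => Real.exp (-ε * (s * j) ^ 2)) ∧
    (Real.pi / ε) ^ (1 / 2 : ℝ) * Real.exp (-x ^ 2 / (4 * ε)) ≤
      s * ∑' j : ℤ, Real.exp (-ε * (s * j) ^ 2) * Real.cos (s * j * x) := by
  have hpi := Real.pi_pos
  have hs0 : Summable (fun j : ℤ => Real.exp (-ε * (s * j) ^ 2)) := by
    have := summable_gauss (ε * s ^ 2) 0 (by positivity)
    refine this.congr fun n => ?_
    congr 1
    ring
  refine ⟨hs0, ?_⟩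
  set a : ℝ := ε * s ^ 2 / Real.pi with ha
  have ha0 : 0 < a := by positivity
  have key := Complex.tsum_exp_neg_quadratic (a := (a : ℂ)) (by simpa using ha0)
    (Complex.I * (s * x / (2 * Real.pi) : ℝ))
  have hpi' : (Real.pi : ℂ) ≠ 0 := by exact_mod_cast hpi.ne'
  have e1 : ∀ n : ℤ, Complex.exp (-Real.pi * a * n ^ 2 +
      2 * Real.pi * (Complex.I * (s * x / (2 * Real.pi) : ℝ)) * n)
      = ((Real.exp (-ε * (s * n) ^ 2) : ℝ) : ℂ) * Complex.exp ((s * n * x : ℝ) * Complex.I) := by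
    intro n
    rw [Complex.ofReal_exp, ← Complex.exp_add]
    congr 1
    rw [ha]
    push_cast
    field_simp
  have e2 : ∀ n : ℤ, Complex.exp (-Real.pi / a * (n + Complex.I *
      (Complex.I * (s * x / (2 * Real.pi) : ℝ))) ^ 2)
      = ((Real.exp (-(Real.pi / a) * ((n : ℝ) - s * x / (2 * Real.pi)) ^ 2) : ℝ) : ℂ) := by
    intro n
    rw [Complex.ofReal_exp]
    congr 1
    push_cast
    rw [← mul_assoc, Complex.I_mul_I]
    ring
  simp_rw [e1, e2] at key
  rw [← Complex.ofReal_tsum] at key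
  have e3 : (1 : ℂ) / (a : ℂ) ^ (1 / 2 : ℂ) = ((1 / a ^ (1 / 2 : ℝ) : ℝ) : ℂ) := by
    rw [show (1 / 2 : ℂ) = ((1 / 2 : ℝ) : ℂ) by push_cast; ring,
      ← Complex.ofReal_cpow ha0.le]
    push_cast
    ring
  rw [e3, ← Complex.ofReal_mul] at key
  have hsum : Summable (fun n : ℤ => ((Real.exp (-ε * (s * n) ^ 2) : ℝ) : ℂ) *
      Complex.exp ((s * n * x : ℝ) * Complex.I)) := by
    refine Summable.of_norm ?_
    refine hs0.congr fun n => ?_
    rw [norm_mul, Complex.norm_exp_ofReal_mul_I, mul_one, Complex.norm_real,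
      Real.norm_of_nonneg (Real.exp_nonneg _)]
  have hre := congrArg Complex.re key
  rw [Complex.re_tsum hsum, Complex.ofReal_re] at hre
  have e4 : ∀ n : ℤ, (((Real.exp (-ε * (s * n) ^ 2) : ℝ) : ℂ) *
      Complex.exp ((s * n * x : ℝ) * Complex.I)).re
      = Real.exp (-ε * (s * n) ^ 2) * Real.cos (s * n * x) := by
    intro n
    rw [Complex.re_ofReal_mul, Complex.exp_ofReal_mul_I_re]
  simp_rw [e4] at hre
  rw [hre]
  have h0 : Real.exp (-(Real.pi / a) * (((0 : ℤ) : ℝ) - s * x / (2 * Real.pi)) ^ 2) ≤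
      ∑' n : ℤ, Real.exp (-(Real.pi / a) * ((n : ℝ) - s * x / (2 * Real.pi)) ^ 2) :=
    (summable_gauss (Real.pi / a) (s * x / (2 * Real.pi)) (by positivity)).le_tsum 0
      (fun _ _ => Real.exp_nonneg _)
  have e5 : (Real.pi / ε) ^ (1 / 2 : ℝ) = s * (1 / a ^ (1 / 2 : ℝ)) := by
    rw [← Real.sqrt_eq_rpow, ← Real.sqrt_eq_rpow, ha, Real.sqrt_div (by positivity),
      Real.sqrt_div (by positivity), Real.sqrt_mul (by positivity), Real.sqrt_sq hs.le]
    have h1 : 0 < Real.sqrt ε := Real.sqrt_pos.2 hε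
    have h2 : 0 < Real.sqrt Real.pi := Real.sqrt_pos.2 hpi
    field_simp
  have e6 : Real.exp (-x ^ 2 / (4 * ε)) =
      Real.exp (-(Real.pi / a) * (((0 : ℤ) : ℝ) - s * x / (2 * Real.pi)) ^ 2) := by
    congr 1
    rw [ha]
    push_cast
    field_simp
    ring
  rw [e5, e6, mul_assoc]
  apply mul_le_mul_of_nonneg_left _ hs.le
  exact mul_le_mul_of_nonneg_left h0 (by positivity)

lemma gauss_int {ε : ℝ} (hε : 0 < ε) : Integrable (fun y : ℝ => Real.exp (-ε * y ^ 2)) :=
  integrable_exp_neg_mul_sq hε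

lemma gauss_eq {ε : ℝ} (hε : 0 < ε) (t : ℝ) :
    (∫ y : ℝ, Complex.exp (Complex.I * t * y) * Complex.exp (-(ε : ℂ) * y ^ 2)).re
      = (Real.pi / ε) ^ (1 / 2 : ℝ) * Real.exp (-t ^ 2 / (4 * ε)) := by
  rw [fourierIntegral_gaussian (by simpa using hε)]
  have e1 : ((Real.pi : ℂ) / (ε : ℂ)) ^ (1 / 2 : ℂ) = (((Real.pi / ε) ^ (1 / 2 : ℝ) : ℝ) : ℂ) := by
    rw [Complex.ofReal_cpow (by positivity)]
    push_cast
    ring_nf
  have e2 : Complex.exp (-(t : ℂ) ^ 2 / (4 * ε)) = ((Real.exp (-t ^ 2 / (4 * ε)) : ℝ) : ℂ) := by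
    push_cast
    ring_nf
  rw [e1, e2, ← Complex.ofReal_mul, Complex.ofReal_re]

lemma reg_eq (μ : Measure ℝ) [IsFiniteMeasure μ] {ε : ℝ} (hε : 0 < ε) :
    (∫ y : ℝ, charFun μ y * Complex.exp (-(ε : ℂ) * y ^ 2)).re
      = ∫ x, (Real.pi / ε) ^ (1 / 2 : ℝ) * Real.exp (-x ^ 2 / (4 * ε)) ∂μ := by
  have hF : Integrable (Function.uncurry fun (y x : ℝ) =>
      Complex.exp (Complex.I * x * y) * Complex.exp (-(ε : ℂ) * y ^ 2))
      ((volume : Measure ℝ).prod μ) := by
    have h1 : Integrable (fun z : ℝ × ℝ => Real.exp (-ε * z.1 ^ 2) * (1 : ℝ))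
        ((volume : Measure ℝ).prod μ) :=
      (gauss_int hε).mul_prod (integrable_const (1 : ℝ))
    refine h1.mono' ?_ ?_
    · exact Continuous.aestronglyMeasurable (by unfold Function.uncurry; fun_prop)
    · refine Eventually.of_forall fun z => ?_
      simp only [Function.uncurry]
      rw [norm_mul, Complex.norm_exp, Complex.norm_exp]
      have e1 : (Complex.I * (z.2 : ℂ) * (z.1 : ℂ)).re = 0 := by simp
      have e2 : (-(ε : ℂ) * (z.1 : ℂ) ^ 2).re = -ε * z.1 ^ 2 := by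
        rw [← Complex.ofReal_pow, ← Complex.ofReal_neg, ← Complex.ofReal_mul, Complex.ofReal_re]
      rw [e1, e2]
      simp
  have e : ∀ y : ℝ, charFun μ y * Complex.exp (-(ε : ℂ) * y ^ 2)
      = ∫ x, Complex.exp (Complex.I * x * y) * Complex.exp (-(ε : ℂ) * y ^ 2) ∂μ := by
    intro y
    rw [charFun_apply_real, ← integral_mul_const]
    refine integral_congr_ae (Eventually.of_forall fun x => ?_)
    simp only
    congr 2
    ring
  simp_rw [e]
  rw [integral_integral_swap hF]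
  have hI := hF.integral_prod_right
  simp only [Function.uncurry] at hI
  have := integral_re (f := fun x : ℝ => ∫ y : ℝ, Complex.exp (Complex.I * x * y) *
        Complex.exp (-(ε : ℂ) * y ^ 2)) (μ := μ) hI
  simp only [RCLike.re_to_complex] at this
  rw [← this]
  refine integral_congr_ae (Eventually.of_forall fun x => ?_)
  exact gauss_eq hε x

lemma charFun_re (μ : Measure ℝ) [IsFiniteMeasure μ] (t : ℝ) :
    (charFun μ t).re = ∫ x, Real.cos (t * x) ∂μ := by
  rw [charFun_apply_real]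
  have hi : Integrable (fun x : ℝ => Complex.exp ((t : ℂ) * x * Complex.I)) μ := by
    refine (integrable_const (1 : ℝ)).mono' (Continuous.aestronglyMeasurable (by fun_prop)) ?_
    refine Eventually.of_forall fun x => ?_
    have : (t : ℂ) * x * Complex.I = ((t * x : ℝ) : ℂ) * Complex.I := by push_cast; ring
    rw [this, Complex.norm_exp_ofReal_mul_I]
  have := integral_re hi
  simp only [RCLike.re_to_complex] at this
  rw [← this]
  refine integral_congr_ae (Eventually.of_forall fun x => ?_)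
  simp only
  have : (t : ℂ) * x * Complex.I = ((t * x : ℝ) : ℂ) * Complex.I := by push_cast; ring
  rw [this, Complex.exp_ofReal_mul_I_re]

lemma reg_sample (μ : Measure ℝ) [IsFiniteMeasure μ] {ε s : ℝ} (hε : 0 < ε) (hs : 0 < s) :
    (∫ y : ℝ, charFun μ y * Complex.exp (-(ε : ℂ) * y ^ 2)).re
      ≤ s * ∑' j : ℤ, (charFun μ (s * j)).re * Real.exp (-ε * (s * j) ^ 2) := by
  have hs0 := (theta_ineq hε hs 0).1
  have hint : ∀ j : ℤ, Integrable (fun x : ℝ => Real.exp (-ε * (s * j) ^ 2) *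
      Real.cos (s * j * x)) μ := by
    intro j
    refine (integrable_const (Real.exp (-ε * (s * j) ^ 2))).mono'
      (Continuous.aestronglyMeasurable (by fun_prop)) ?_
    refine Eventually.of_forall fun x => ?_
    rw [norm_mul, Real.norm_of_nonneg (Real.exp_nonneg _)]
    have := Real.abs_cos_le_one (s * j * x)
    rw [← Real.norm_eq_abs] at this
    calc Real.exp (-ε * (s * j) ^ 2) * ‖Real.cos (s * j * x)‖
        ≤ Real.exp (-ε * (s * j) ^ 2) * 1 :=
          mul_le_mul_of_nonneg_left this (Real.exp_nonneg _)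
      _ = _ := mul_one _
  have hsum : Summable (fun j : ℤ => ∫ x, ‖Real.exp (-ε * (s * j) ^ 2) *
      Real.cos (s * j * x)‖ ∂μ) := by
    refine Summable.of_nonneg_of_le (fun j => integral_nonneg fun x => norm_nonneg _) (fun j => ?_)
      (hs0.mul_right (μ.real Set.univ))
    calc ∫ x, ‖Real.exp (-ε * (s * j) ^ 2) * Real.cos (s * j * x)‖ ∂μ
        ≤ ∫ x, Real.exp (-ε * (s * j) ^ 2) ∂μ := by
          refine integral_mono (hint j).norm (integrable_const _) fun x => ?_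
          simp only
          rw [norm_mul, Real.norm_of_nonneg (Real.exp_nonneg _)]
          have := Real.abs_cos_le_one (s * j * x)
          rw [← Real.norm_eq_abs] at this
          calc Real.exp (-ε * (s * j) ^ 2) * ‖Real.cos (s * j * x)‖
              ≤ Real.exp (-ε * (s * j) ^ 2) * 1 :=
                mul_le_mul_of_nonneg_left this (Real.exp_nonneg _)
            _ = _ := mul_one _
      _ = Real.exp (-ε * (s * j) ^ 2) * μ.real Set.univ := by
          rw [integral_const, smul_eq_mul, mul_comm]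
  have hh := hasSum_integral_of_summable_integral_norm hint hsum
  have e1 : ∀ j : ℤ, ∫ x, Real.exp (-ε * (s * j) ^ 2) * Real.cos (s * j * x) ∂μ
      = (charFun μ (s * j)).re * Real.exp (-ε * (s * j) ^ 2) := by
    intro j
    rw [integral_const_mul, charFun_re, mul_comm]
  simp_rw [e1] at hh
  rw [reg_eq μ hε, hh.tsum_eq, ← integral_const_mul]
  refine integral_mono ?_ ?_ fun x => (theta_ineq hε hs x).2
  · refine (integrable_const ((Real.pi / ε) ^ (1 / 2 : ℝ))).mono'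
      (Continuous.aestronglyMeasurable (by fun_prop)) ?_
    refine Eventually.of_forall fun x => ?_
    rw [Real.norm_of_nonneg (by have := Real.pi_pos; positivity)]
    have h1 : Real.exp (-x ^ 2 / (4 * ε)) ≤ 1 := by
      rw [Real.exp_le_one_iff]
      apply div_nonpos_of_nonpos_of_nonneg _ (by positivity)
      nlinarith [sq_nonneg x]
    have h2 : 0 ≤ (Real.pi / ε) ^ (1 / 2 : ℝ) := by have := Real.pi_pos; positivity
    calc _ ≤ (Real.pi / ε) ^ (1 / 2 : ℝ) * 1 := mul_le_mul_of_nonneg_left h1 h2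
      _ = _ := mul_one _
  · apply Integrable.const_mul
    refine (integrable_const (∑' j : ℤ, Real.exp (-ε * (s * j) ^ 2))).mono' ?_ ?_
    · apply Continuous.aestronglyMeasurable
      refine continuous_tsum (fun j => by fun_prop) hs0 fun j x => ?_
      rw [norm_mul, Real.norm_of_nonneg (Real.exp_nonneg _)]
      have := Real.abs_cos_le_one (s * j * x)
      rw [← Real.norm_eq_abs] at this
      calc Real.exp (-ε * (s * j) ^ 2) * ‖Real.cos (s * j * x)‖
          ≤ Real.exp (-ε * (s * j) ^ 2) * 1 :=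
            mul_le_mul_of_nonneg_left this (Real.exp_nonneg _)
        _ = _ := mul_one _
    · refine Eventually.of_forall fun x => ?_
      refine tsum_of_norm_bounded hs0.hasSum fun j => ?_
      rw [norm_mul, Real.norm_of_nonneg (Real.exp_nonneg _)]
      have := Real.abs_cos_le_one (s * j * x)
      rw [← Real.norm_eq_abs] at this
      calc Real.exp (-ε * (s * j) ^ 2) * ‖Real.cos (s * j * x)‖
          ≤ Real.exp (-ε * (s * j) ^ 2) * 1 :=
            mul_le_mul_of_nonneg_left this (Real.exp_nonneg _)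
        _ = _ := mul_one _

/-- the integral of a nonnegative multiple of a characteristic function is at most its Riemann sum -/
lemma sample (μ : Measure ℝ) [IsFiniteMeasure μ] (g : ℝ → ℝ) (c : ℝ) (hc : 0 ≤ c)
    (hg : Integrable g) (h0 : ∀ y, 0 ≤ g y) (h : ∀ y, (g y : ℂ) = c * charFun μ y)
    {s : ℝ} (hs : 0 < s) (hsum : Summable (fun j : ℤ => g (s * j))) :
    ∫ y, g y ≤ s * ∑' j : ℤ, g (s * j) := by
  have hreg : ∀ n : ℕ, ∫ y : ℝ, g y * Real.exp (-(1 / (n + 1 : ℝ)) * y ^ 2)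
      ≤ s * ∑' j : ℤ, g (s * j) := by
    intro n
    have hε : (0 : ℝ) < 1 / (n + 1 : ℝ) := by positivity
    set ε := 1 / (n + 1 : ℝ) with hεd
    have h1 := reg_sample μ hε hs
    have hgr : ∀ y, g y = c * (charFun μ y).re := by
      intro y
      have := congrArg Complex.re (h y)
      rwa [Complex.ofReal_re, Complex.re_ofReal_mul] at this
    have e : ∀ y : ℝ, g y * Real.exp (-ε * y ^ 2)
        = ((c : ℂ) * (charFun μ y * Complex.exp (-(ε : ℂ) * y ^ 2))).re := by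
      intro y
      rw [← mul_assoc, ← h y, Complex.re_ofReal_mul]
      have e2 : Complex.exp (-(ε : ℂ) * y ^ 2) = ((Real.exp (-ε * y ^ 2) : ℝ) : ℂ) := by
        push_cast
        ring_nf
      rw [e2, Complex.ofReal_re]
    have hint : Integrable (fun y : ℝ => (c : ℂ) * (charFun μ y *
        Complex.exp (-(ε : ℂ) * y ^ 2))) := by
      have : (fun y : ℝ => (c : ℂ) * (charFun μ y * Complex.exp (-(ε : ℂ) * y ^ 2)))
          = fun y : ℝ => (g y : ℂ) * Complex.exp (-(ε : ℂ) * y ^ 2) := by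
        funext y
        rw [h y]; ring
      rw [this]
      refine hg.norm.mono' (hg.ofReal.aestronglyMeasurable.mul
        (Continuous.aestronglyMeasurable (by fun_prop))) ?_
      refine Eventually.of_forall fun y => ?_
      rw [norm_mul, Complex.norm_exp, Complex.norm_real]
      have e2 : (-(ε : ℂ) * (y : ℂ) ^ 2).re = -ε * y ^ 2 := by
        rw [← Complex.ofReal_pow, ← Complex.ofReal_neg, ← Complex.ofReal_mul, Complex.ofReal_re]
      rw [e2]
      have : Real.exp (-ε * y ^ 2) ≤ 1 := by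
        rw [Real.exp_le_one_iff]
        have : 0 ≤ ε * y ^ 2 := by positivity
        linarith
      calc ‖g y‖ * Real.exp (-ε * y ^ 2) ≤ ‖g y‖ * 1 :=
            mul_le_mul_of_nonneg_left this (norm_nonneg _)
        _ = ‖g y‖ := mul_one _
    have e3 : ∫ y : ℝ, g y * Real.exp (-ε * y ^ 2) =
        c * (∫ y : ℝ, charFun μ y * Complex.exp (-(ε : ℂ) * y ^ 2)).re := by
      simp_rw [e]
      have := integral_re hint
      simp only [RCLike.re_to_complex] at this
      rw [this, integral_const_mul, Complex.re_ofReal_mul]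
    rw [e3]
    calc c * (∫ y : ℝ, charFun μ y * Complex.exp (-(ε : ℂ) * y ^ 2)).re
        ≤ c * (s * ∑' j : ℤ, (charFun μ (s * j)).re * Real.exp (-ε * (s * j) ^ 2)) :=
          mul_le_mul_of_nonneg_left h1 hc
      _ = s * ∑' j : ℤ, g (s * j) * Real.exp (-ε * (s * j) ^ 2) := by
          rw [mul_left_comm, ← tsum_mul_left]
          congr 2
          funext j
          rw [hgr]
          ring
      _ ≤ s * ∑' j : ℤ, g (s * j) := by
          apply mul_le_mul_of_nonneg_left _ hs.le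
          have hle : ∀ j : ℤ, g (s * j) * Real.exp (-ε * (s * j) ^ 2) ≤ g (s * j) := by
            intro j
            have : Real.exp (-ε * (s * j) ^ 2) ≤ 1 := by
              rw [Real.exp_le_one_iff]
              have : 0 ≤ ε * (s * j) ^ 2 := by positivity
              linarith
            calc g (s * j) * Real.exp (-ε * (s * j) ^ 2) ≤ g (s * j) * 1 :=
                  mul_le_mul_of_nonneg_left this (h0 _)
              _ = _ := mul_one _
          exact Summable.tsum_le_tsum hle (Summable.of_nonneg_of_le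
            (fun j => mul_nonneg (h0 _) (Real.exp_nonneg _)) hle hsum) hsum
  have hlim : Tendsto (fun n : ℕ => ∫ y : ℝ, g y * Real.exp (-(1 / (n + 1 : ℝ)) * y ^ 2)) atTop
      (𝓝 (∫ y : ℝ, g y)) := by
    apply tendsto_integral_of_dominated_convergence (fun y => ‖g y‖)
    · intro n
      exact hg.aestronglyMeasurable.mul (Continuous.aestronglyMeasurable (by fun_prop))
    · exact hg.norm
    · intro n
      refine Eventually.of_forall fun y => ?_
      rw [norm_mul, Real.norm_eq_abs (Real.exp _), Real.abs_exp]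
      have h1 : Real.exp (-(1 / (n + 1 : ℝ)) * y ^ 2) ≤ 1 := by
        rw [Real.exp_le_one_iff]
        have : 0 ≤ 1 / (n + 1 : ℝ) * y ^ 2 := by positivity
        linarith
      calc ‖g y‖ * Real.exp (-(1 / (n + 1 : ℝ)) * y ^ 2) ≤ ‖g y‖ * 1 :=
            mul_le_mul_of_nonneg_left h1 (norm_nonneg _)
        _ = ‖g y‖ := mul_one _
    · refine Eventually.of_forall fun y => ?_
      have h1 : Tendsto (fun n : ℕ => -(1 / (n + 1 : ℝ)) * y ^ 2) atTop (𝓝 (-0 * y ^ 2)) :=
        (tendsto_one_div_add_atTop_nhds_zero_nat (𝕜 := ℝ)).neg.mul_const _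
      have h2 := (Real.continuous_exp.tendsto _).comp h1
      have h3 := h2.const_mul (g y)
      simpa using h3
  exact le_of_tendsto' hlim hreg

/-! ### the measures -/

lemma G_nonneg (a y : ℝ) : 0 ≤ G a y := norm_nonneg _

/-- the density -/
noncomputable def fd (a x : ℝ) : ℝ := Real.exp (a * x) / (1 + Real.exp x) ^ (a + a)

lemma fd_pos (a x : ℝ) : 0 < fd a x := by
  unfold fd
  have := Real.exp_pos x
  positivity

lemma fd_cont (a : ℝ) : Continuous (fd a) := by
  unfold fd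
  apply Continuous.div (by fun_prop)
  · apply Continuous.rpow_const (by fun_prop)
    intro x
    left
    have := Real.exp_pos x
    positivity
  · intro x
    have := Real.exp_pos x
    positivity

/-- the measure -/
noncomputable def nu (a : ℝ) : Measure ℝ :=
  (volume : Measure ℝ).withDensity fun x => ENNReal.ofReal (fd a x)

lemma nu_finite (hB : StmtBeta) {a : ℝ} (ha : 0 < a) : IsFiniteMeasure (nu a) := by
  have h := (hB a a 0 ha ha).1
  exact isFiniteMeasure_withDensity_ofReal h.2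

lemma nu_char (hB : StmtBeta) {a : ℝ} (ha : 0 < a) (y : ℝ) :
    charFun (nu a) y = ((G a y ^ 2 / Real.Gamma (a + a) : ℝ) : ℂ) := by
  have h := (hB a a y ha ha).2
  rw [charFun_apply_real]
  unfold nu
  rw [integral_withDensity_eq_integral_toReal_smul
    ((fd_cont a).measurable.ennreal_ofReal) (Eventually.of_forall fun x => ENNReal.ofReal_lt_top)]
  have e : ∀ x : ℝ, (ENNReal.ofReal (fd a x)).toReal • Complex.exp ((y : ℂ) * (x : ℂ) * Complex.I)
      = ((Real.exp (a * x) / (1 + Real.exp x) ^ (a + a) : ℝ) : ℂ) *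
        Complex.exp (Complex.I * (y * x : ℝ)) := by
    intro x
    rw [ENNReal.toReal_ofReal (fd_pos a x).le]
    unfold fd
    rw [Complex.real_smul]
    congr 2
    push_cast
    ring
  simp_rw [e]
  rw [h]
  have e1 : (a : ℂ) - Complex.I * (y : ℂ)
      = (starRingEnd ℂ) ((a : ℂ) + Complex.I * (y : ℂ)) := by
    simp only [map_add, map_mul, Complex.conj_ofReal, Complex.conj_I]
    ring
  rw [e1, Complex.Gamma_conj, Complex.mul_conj, Complex.normSq_eq_norm_sq]
  unfold G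
  push_cast
  norm_num

/-! ### the two parts of the weight -/

lemma G54_sq (hG : StmtG) (y : ℝ) : G (5 / 4) y ^ 2 = (1 / 16 + y ^ 2) * G (1 / 4) y ^ 2 := by
  have h := (hG.1 (1 / 4) y (by norm_num)).2.2
  have e : (1 / 4 + 1 : ℝ) = 5 / 4 := by norm_num
  rw [e] at h
  rw [h]
  norm_num

/-- the weight -/
noncomputable def FF (y : ℝ) : ℝ := (3 / 8 + 10 / 3 * y ^ 2) * r2 y

/-- first part -/
noncomputable def g1 (y : ℝ) : ℝ := G (5 / 4) y ^ 6 * G (1 / 4) y ^ 2

/-- second part -/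
noncomputable def g2 (y : ℝ) : ℝ := G (5 / 4) y ^ 4 * G (1 / 4) y ^ 4

lemma FF_eq (hG : StmtG) (y : ℝ) : FF y = 10 / 3 * g1 y + 1 / 6 * g2 y := by
  have h := G54_sq hG y
  unfold FF g1 g2 r2
  have e1 : G (5 / 4) y ^ 6 = G (5 / 4) y ^ 4 * ((1 / 16 + y ^ 2) * G (1 / 4) y ^ 2) := by
    rw [← h]; ring
  rw [e1]; ring

lemma g_bound (hG : StmtG) (p q : ℕ) (hpq : p + q = 8) :
    ∃ C, 0 ≤ C ∧ ∀ y, G (5 / 4) y ^ p * G (1 / 4) y ^ q ≤ C * Real.exp (-(12 * |y|)) := by
  obtain ⟨C1, hC1, h1⟩ := hG.2.2.1 (5 / 4) (by norm_num)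
  obtain ⟨C2, hC2, h2⟩ := hG.2.2.1 (1 / 4) (by norm_num)
  refine ⟨C1 ^ p * C2 ^ q, by positivity, fun y => ?_⟩
  calc G (5 / 4) y ^ p * G (1 / 4) y ^ q
      ≤ (C1 * Real.exp (-(3 / 2 * |y|))) ^ p * (C2 * Real.exp (-(3 / 2 * |y|))) ^ q := by
        apply mul_le_mul (pow_le_pow_left₀ (G_nonneg _ _) (h1 y) p)
          (pow_le_pow_left₀ (G_nonneg _ _) (h2 y) q) (pow_nonneg (G_nonneg _ _) _) (by positivity)
    _ = C1 ^ p * C2 ^ q * (Real.exp (-(3 / 2 * |y|))) ^ (p + q) := by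
        rw [mul_pow, mul_pow, pow_add]; ring
    _ = _ := by
        rw [hpq, ← Real.exp_nat_mul]
        congr 2
        push_cast
        ring

lemma gen_int {g : ℝ → ℝ} (hc : Continuous g) (h0 : ∀ y, 0 ≤ g y) {C : ℝ} (hC : 0 ≤ C)
    (hb : ∀ y, g y ≤ C * Real.exp (-(12 * |y|))) : Integrable g := by
  refine Integrable.mono' (integrable_inv_one_add_sq.const_mul C) hc.aestronglyMeasurable
    (Eventually.of_forall fun y => ?_)
  rw [Real.norm_of_nonneg (h0 y)]
  refine (hb y).trans (mul_le_mul_of_nonneg_left ?_ hC)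
  have h3 : 1 + y ^ 2 ≤ Real.exp (12 * |y|) := by
    have := Real.add_one_le_exp |y|
    have h0 := abs_nonneg y
    calc 1 + y ^ 2 = 1 + |y| ^ 2 := by rw [sq_abs]
      _ ≤ (|y| + 1) ^ 2 := by nlinarith
      _ ≤ Real.exp |y| ^ 2 := pow_le_pow_left₀ (by positivity) this 2
      _ = Real.exp (2 * |y|) := by
          rw [← Real.exp_nat_mul]
          norm_num
      _ ≤ Real.exp (12 * |y|) := by
          apply Real.exp_le_exp.2
          linarith
  rw [Real.exp_neg]
  exact inv_anti₀ (by positivity) h3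

lemma gen_sum {g : ℝ → ℝ} (h0 : ∀ y, 0 ≤ g y) (he : ∀ y, g (-y) = g y) {C : ℝ}
    (hb : ∀ y, g y ≤ C * Real.exp (-(12 * |y|))) : Summable (fun j : ℤ => g (1 / 5 * j)) := by
  have hn : Summable (fun n : ℕ => g (1 / 5 * (n : ℝ))) := by
    refine Summable.of_nonneg_of_le (fun n => h0 _) (fun n => ?_)
      ((summable_geometric_of_lt_one (Real.exp_nonneg (-(12 / 5)))
        (by rw [Real.exp_lt_one_iff]; norm_num)).mul_left C)
    refine (hb _).trans (le_of_eq ?_)
    rw [abs_of_nonneg (by positivity), ← Real.exp_nat_mul]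
    congr 2
    ring
  refine Summable.of_nat_of_neg ?_ ?_
  · simpa using hn
  · refine hn.congr fun n => ?_
    have e : (1 / 5 * ((-(n : ℤ) : ℤ) : ℝ)) = -(1 / 5 * (n : ℝ)) := by
      push_cast
      ring
    rw [e, he]

lemma GG_cont (hG : StmtG) (p q : ℕ) : Continuous (fun y => G (5 / 4) y ^ p * G (1 / 4) y ^ q) := by
  have h1 := hG.2.1 (5 / 4) (by norm_num)
  have h2 := hG.2.1 (1 / 4) (by norm_num)
  exact (h1.pow p).mul (h2.pow q)

lemma GG_even (hG : StmtG) (p q : ℕ) (y : ℝ) :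
    G (5 / 4) (-y) ^ p * G (1 / 4) (-y) ^ q = G (5 / 4) y ^ p * G (1 / 4) y ^ q := by
  rw [(hG.1 (5 / 4) y (by norm_num)).2.1, (hG.1 (1 / 4) y (by norm_num)).2.1]

lemma GG_nonneg (p q : ℕ) (y : ℝ) : 0 ≤ G (5 / 4) y ^ p * G (1 / 4) y ^ q :=
  mul_nonneg (pow_nonneg (G_nonneg _ _) _) (pow_nonneg (G_nonneg _ _) _)

lemma GG_int (hG : StmtG) (p q : ℕ) (hpq : p + q = 8) :
    Integrable (fun y => G (5 / 4) y ^ p * G (1 / 4) y ^ q) := by
  obtain ⟨C, hC, hb⟩ := g_bound hG p q hpq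
  exact gen_int (GG_cont hG p q) (GG_nonneg p q) hC hb

lemma GG_sum (hG : StmtG) (p q : ℕ) (hpq : p + q = 8) :
    Summable (fun j : ℤ => G (5 / 4) (1 / 5 * j) ^ p * G (1 / 4) (1 / 5 * j) ^ q) := by
  obtain ⟨C, hC, hb⟩ := g_bound hG p q hpq
  exact gen_sum (g := fun y => G (5 / 4) y ^ p * G (1 / 4) y ^ q) (GG_nonneg p q)
    (GG_even hG p q) hb

lemma g1_le (hG : StmtG) (hB : StmtBeta) :
    ∫ y, g1 y ≤ 1 / 5 * ∑' j : ℤ, g1 (1 / 5 * j) := by
  have := nu_finite hB (a := 5 / 4) (by norm_num)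
  have := nu_finite hB (a := 1 / 4) (by norm_num)
  have hΓ1 : (0 : ℝ) < Real.Gamma (5 / 4 + 5 / 4) := Real.Gamma_pos_of_pos (by norm_num)
  have hΓ2 : (0 : ℝ) < Real.Gamma (1 / 4 + 1 / 4) := Real.Gamma_pos_of_pos (by norm_num)
  refine sample ((((nu (5 / 4)).conv (nu (5 / 4))).conv (nu (5 / 4))).conv (nu (1 / 4))) g1
    (Real.Gamma (5 / 4 + 5 / 4) ^ 3 * Real.Gamma (1 / 4 + 1 / 4)) (by positivity)
    (GG_int hG 6 2 (by norm_num)) (GG_nonneg 6 2) (fun y => ?_) (by norm_num)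
    (GG_sum hG 6 2 (by norm_num))
  rw [charFun_conv, charFun_conv, charFun_conv, nu_char hB (a := 5 / 4) (by norm_num),
    nu_char hB (a := 1 / 4) (by norm_num)]
  unfold g1
  norm_cast
  field_simp

lemma g2_le (hG : StmtG) (hB : StmtBeta) :
    ∫ y, g2 y ≤ 1 / 5 * ∑' j : ℤ, g2 (1 / 5 * j) := by
  have := nu_finite hB (a := 5 / 4) (by norm_num)
  have := nu_finite hB (a := 1 / 4) (by norm_num)
  have hΓ1 : (0 : ℝ) < Real.Gamma (5 / 4 + 5 / 4) := Real.Gamma_pos_of_pos (by norm_num)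
  have hΓ2 : (0 : ℝ) < Real.Gamma (1 / 4 + 1 / 4) := Real.Gamma_pos_of_pos (by norm_num)
  refine sample ((((nu (5 / 4)).conv (nu (5 / 4))).conv (nu (1 / 4))).conv (nu (1 / 4))) g2
    (Real.Gamma (5 / 4 + 5 / 4) ^ 2 * Real.Gamma (1 / 4 + 1 / 4) ^ 2) (by positivity)
    (GG_int hG 4 4 (by norm_num)) (GG_nonneg 4 4) (fun y => ?_) (by norm_num)
    (GG_sum hG 4 4 (by norm_num))
  rw [charFun_conv, charFun_conv, charFun_conv, nu_char hB (a := 5 / 4) (by norm_num),
    nu_char hB (a := 1 / 4) (by norm_num)]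
  unfold g2
  norm_cast
  field_simp

lemma FF_le (hG : StmtG) (hB : StmtBeta) : Summable (fun j : ℤ => FF (1 / 5 * j)) ∧
    ∫ y, FF y ≤ 1 / 5 * ∑' j : ℤ, FF (1 / 5 * j) := by
  have i1 : Integrable g1 := GG_int hG 6 2 (by norm_num)
  have i2 : Integrable g2 := GG_int hG 4 4 (by norm_num)
  have s1 : Summable (fun j : ℤ => g1 (1 / 5 * j)) := GG_sum hG 6 2 (by norm_num)
  have s2 : Summable (fun j : ℤ => g2 (1 / 5 * j)) := GG_sum hG 4 4 (by norm_num)
  have h1 := g1_le hG hB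
  have h2 := g2_le hG hB
  have e : FF = fun y => 10 / 3 * g1 y + 1 / 6 * g2 y := funext (FF_eq hG)
  rw [e]
  simp only
  refine ⟨(s1.mul_left _).add (s2.mul_left _), ?_⟩
  rw [integral_add (i1.const_mul _) (i2.const_mul _), integral_const_mul, integral_const_mul,
    (s1.mul_left _).tsum_add (s2.mul_left _), tsum_mul_left, tsum_mul_left]
  linarith

lemma FF_nonneg (y : ℝ) : 0 ≤ FF y := by
  unfold FF
  have : 0 ≤ r2 y := GG_nonneg 4 4 y
  positivity

lemma FF_even (hG : StmtG) (y : ℝ) : FF (-y) = FF y := by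
  unfold FF
  have : r2 (-y) = r2 y := GG_even hG 4 4 y
  rw [this, neg_sq]

/-! ### numerical bounds -/

lemma G_zero (a : ℝ) (ha : 0 < a) : G a 0 = Real.Gamma a := by
  unfold G
  rw [Complex.ofReal_zero, mul_zero, add_zero, Complex.Gamma_ofReal, Complex.norm_real,
    Real.norm_of_nonneg (Real.Gamma_pos_of_pos ha).le]

lemma pi_sq : 2 * Real.pi ^ 2 ≤ 197393 / 10000 := by
  have h1 := Real.pi_lt_d6
  have h2 := Real.pi_pos
  have h3 : Real.pi ^ 2 ≤ (3.141593 : ℝ) ^ 2 := pow_le_pow_left₀ h2.le h1.le 2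
  norm_num at h3 ⊢
  linarith

lemma r2_eq (hG : StmtG) (y : ℝ) : r2 y = (1 / 16 + y ^ 2) ^ 2 * (G (1 / 4) y ^ 2) ^ 4 := by
  have h := G54_sq hG y
  unfold r2
  have e1 : G (5 / 4) y ^ 4 = (G (5 / 4) y ^ 2) ^ 2 := by ring
  rw [e1, h]; ring

/-- an upper bound of the weight from an upper bound of `|Γ(1/4 + i y)| ^ 2` -/
lemma FF_le_of (hG : StmtG) {y D : ℝ} (hD : G (1 / 4) y ^ 2 ≤ D) :
    FF y ≤ (3 / 8 + 10 / 3 * y ^ 2) * ((1 / 16 + y ^ 2) ^ 2 * D ^ 4) := by
  unfold FF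
  rw [r2_eq hG]
  have h1 : (G (1 / 4) y ^ 2) ^ 4 ≤ D ^ 4 := pow_le_pow_left₀ (sq_nonneg _) hD 4
  gcongr

/-- an upper bound of `|Γ(1/4 + i y)| ^ 2` -/
lemma G14_le (hG : StmtG) {y c h : ℝ} (hc : 0 < c) (hc' : c ≤ G (3 / 4) y ^ 2) (hh : 0 < h)
    (hh' : h ≤ Real.cosh (2 * Real.pi * y)) : G (1 / 4) y ^ 2 ≤ 197393 / 10000 / (c * h) := by
  have e := hG.2.2.2.2.2.2 y
  have h1 := pi_sq
  have h0 : 0 ≤ G (1 / 4) y ^ 2 := sq_nonneg _
  rw [le_div_iff₀ (by positivity)]
  calc G (1 / 4) y ^ 2 * (c * h) ≤ G (1 / 4) y ^ 2 * (G (3 / 4) y ^ 2 *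
        Real.cosh (2 * Real.pi * y)) := by
        apply mul_le_mul_of_nonneg_left _ h0
        exact mul_le_mul hc' hh' hh.le (by positivity)
    _ = 2 * Real.pi ^ 2 := by rw [← e]; ring
    _ ≤ _ := h1

lemma E_ge : (35134 : ℝ) / 10000 ≤ Real.exp (2 * Real.pi * (1 / 5)) := by
  have h1 : (12566 / 10000 : ℝ) ≤ 2 * Real.pi * (1 / 5) := by
    have := Real.pi_gt_d4
    norm_num at this ⊢
    linarith
  refine le_trans ?_ (Real.exp_le_exp.2 h1)
  have := Real.sum_le_exp_of_nonneg (show (0:ℝ) ≤ 12566 / 10000 by norm_num) 12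
  refine le_trans ?_ this
  norm_num [Finset.sum_range_succ, Nat.factorial]

lemma cosh_one : (18988 : ℝ) / 10000 ≤ Real.cosh (2 * Real.pi * (1 / 5)) := by
  have hE := E_ge
  rw [Real.cosh_eq, Real.exp_neg]
  set E := Real.exp (2 * Real.pi * (1 / 5)) with hEd
  have hE0 : 0 < E := Real.exp_pos _
  have h1 : (1 : ℝ) ≤ E * E⁻¹ := by rw [mul_inv_cancel₀ hE0.ne']
  have h2 : 2 * (18988 / 10000) - E ≤ E⁻¹ := by
    rw [← one_div, le_div_iff₀ hE0]
    nlinarith
  linarith

lemma cosh_n (n : ℕ) : (35134 / 10000 : ℝ) ^ n / 2 ≤ Real.cosh (2 * Real.pi * (n / 5)) := by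
  have hE := E_ge
  have h1 : (35134 / 10000 : ℝ) ^ n ≤ Real.exp (2 * Real.pi * (n / 5)) := by
    calc (35134 / 10000 : ℝ) ^ n ≤ Real.exp (2 * Real.pi * (1 / 5)) ^ n :=
          pow_le_pow_left₀ (by norm_num) hE n
      _ = _ := by
          rw [← Real.exp_nat_mul]
          congr 1
          ring
  rw [Real.cosh_eq]
  have := Real.exp_pos (-(2 * Real.pi * (n / 5)))
  linarith

lemma gt_ge (hN : StmtGn) (j : ℕ) (hj : j < 8) : gt j - 3 / 100000 ≤ G (3 / 4) (j / 5) ^ 2 := by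
  have := (abs_le.1 (hN j hj)).1
  linarith

lemma F0 (hG : StmtG) (hN : StmtGn) : FF 0 ≤ 4375 / 100 := by
  have h1 := gt_ge hN 0 (by norm_num)
  simp only [gt] at h1
  rw [Nat.cast_zero, zero_div] at h1
  have h := FF_le_of hG (G14_le hG (y := 0) (c := 1501616 / 1000000) (h := 1) (by norm_num)
    (by linarith) (by norm_num) (Real.one_le_cosh _))
  refine h.trans ?_
  norm_num

lemma F1 (hG : StmtG) (hN : StmtGn) : FF (1 / 5) ≤ 1825 / 100 := by
  have h1 := gt_ge hN 1 (by norm_num)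
  simp only [gt] at h1
  rw [Nat.cast_one] at h1
  have h := FF_le_of hG (G14_le hG (y := 1 / 5) (c := 1359865 / 1000000) (h := 18988 / 10000)
    (by norm_num) (by linarith) (by norm_num) cosh_one)
  refine h.trans ?_
  norm_num

lemma F2 (hG : StmtG) (hN : StmtGn) : FF (2 / 5) ≤ 409 / 100 := by
  have h1 := gt_ge hN 2 (by norm_num)
  simp only [gt] at h1
  have h2 := cosh_n 2
  push_cast at h1 h2
  have h := FF_le_of hG (G14_le hG (y := 2 / 5) (c := 1036250 / 1000000)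
    (h := (35134 / 10000) ^ 2 / 2) (by norm_num) (by linarith) (by norm_num) h2)
  refine h.trans ?_
  norm_num

lemma F3 (hG : StmtG) (hN : StmtGn) : FF (3 / 5) ≤ 80 / 100 := by
  have h1 := gt_ge hN 3 (by norm_num)
  simp only [gt] at h1
  have h2 := cosh_n 3
  push_cast at h1 h2
  have h := FF_le_of hG (G14_le hG (y := 3 / 5) (c := 701068 / 1000000)
    (h := (35134 / 10000) ^ 3 / 2) (by norm_num) (by linarith) (by norm_num) h2)
  refine h.trans ?_
  norm_num

lemma F4 (hG : StmtG) (hN : StmtGn) : FF (4 / 5) ≤ 148 / 1000 := by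
  have h1 := gt_ge hN 4 (by norm_num)
  simp only [gt] at h1
  have h2 := cosh_n 4
  push_cast at h1 h2
  have h := FF_le_of hG (G14_le hG (y := 4 / 5) (c := 441382 / 1000000)
    (h := (35134 / 10000) ^ 4 / 2) (by norm_num) (by linarith) (by norm_num) h2)
  refine h.trans ?_
  norm_num

lemma F5 (hG : StmtG) (hN : StmtGn) : FF (5 / 5) ≤ 25 / 1000 := by
  have h1 := gt_ge hN 5 (by norm_num)
  simp only [gt] at h1
  have h2 := cosh_n 5
  push_cast at h1 h2
  have h := FF_le_of hG (G14_le hG (y := 5 / 5) (c := 266384 / 1000000)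
    (h := (35134 / 10000) ^ 5 / 2) (by norm_num) (by linarith) (by norm_num) h2)
  refine h.trans ?_
  norm_num

lemma F6 (hG : StmtG) (hN : StmtGn) : FF (6 / 5) ≤ 38 / 10000 := by
  have h1 := gt_ge hN 6 (by norm_num)
  simp only [gt] at h1
  have h2 := cosh_n 6
  push_cast at h1 h2
  have h := FF_le_of hG (G14_le hG (y := 6 / 5) (c := 156669 / 1000000)
    (h := (35134 / 10000) ^ 6 / 2) (by norm_num) (by linarith) (by norm_num) h2)
  refine h.trans ?_
  norm_num

/-! ### the tail -/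

lemma Gam14_sq (hG : StmtG) (hN : StmtGn) : Real.Gamma (1 / 4) ^ 2 ≤ 1315 / 100 := by
  have h1 := gt_ge hN 0 (by norm_num)
  simp only [gt] at h1
  rw [Nat.cast_zero, zero_div] at h1
  have h := G14_le hG (y := 0) (c := 1501616 / 1000000) (h := 1) (by norm_num)
    (by linarith) (by norm_num) (Real.one_le_cosh _)
  rw [G_zero _ (by norm_num)] at h
  refine h.trans ?_
  norm_num

lemma G14_tail (hG : StmtG) (hN : StmtGn) (y : ℝ) :
    G (1 / 4) y ^ 2 ≤ 2630 / 100 * Real.exp (-(Real.pi * y)) := by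
  have h1 := hG.2.2.2.1 (1 / 4) (1 / 2) y (by norm_num) (by norm_num)
  have h2 : 0 < Real.Gamma (1 / 4) := Real.Gamma_pos_of_pos (by norm_num)
  have h3 := hG.2.2.2.2.1 y
  have hpi := Real.pi_pos
  have hs : Real.Gamma (1 / 2) ^ 2 = Real.pi := by
    rw [Real.Gamma_one_half_eq, Real.sq_sqrt hpi.le]
  have h4 : 0 < Real.Gamma (1 / 2) := Real.Gamma_pos_of_pos (by norm_num)
  have hc := Real.cosh_pos (Real.pi * y)
  have h5 : (G (1 / 4) y / Real.Gamma (1 / 4)) ^ 2 ≤ (G (1 / 2) y / Real.Gamma (1 / 2)) ^ 2 :=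
    pow_le_pow_left₀ (div_nonneg (G_nonneg _ _) h2.le) h1 2
  rw [div_pow, div_pow, hs, h3, div_le_iff₀ (by positivity)] at h5
  have e6 : Real.pi / Real.cosh (Real.pi * y) / Real.pi = 1 / Real.cosh (Real.pi * y) := by
    field_simp
  rw [e6] at h5
  have h7 : 1 / Real.cosh (Real.pi * y) ≤ 2 * Real.exp (-(Real.pi * y)) := by
    rw [div_le_iff₀ hc, Real.cosh_eq]
    have e8 : Real.exp (-(Real.pi * y)) * Real.exp (Real.pi * y) = 1 := by
      rw [← Real.exp_add]; simp
    have := Real.exp_pos (-(Real.pi * y))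
    nlinarith
  have h9 := Gam14_sq hG hN
  calc G (1 / 4) y ^ 2 ≤ 1 / Real.cosh (Real.pi * y) * Real.Gamma (1 / 4) ^ 2 := h5
    _ ≤ 2 * Real.exp (-(Real.pi * y)) * (1315 / 100) :=
        mul_le_mul h7 h9 (by positivity) (by positivity)
    _ = _ := by ring

/-- the majorant -/
noncomputable def BB (n : ℕ) : ℝ := (3 / 8 + 10 / 3 * ((n : ℝ) / 5) ^ 2) *
  ((1 / 16 + ((n : ℝ) / 5) ^ 2) ^ 2 * ((2630 / 100) ^ 4 * Real.exp (-(2 * Real.pi * (1 / 5))) ^ (2 * n)))

lemma FF_le_BB (hG : StmtG) (hN : StmtGn) (n : ℕ) : FF (n / 5) ≤ BB n := by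
  have h := FF_le_of hG (G14_tail hG hN (n / 5))
  refine h.trans (le_of_eq ?_)
  unfold BB
  congr 2
  rw [mul_pow, ← Real.exp_nat_mul, ← Real.exp_nat_mul]
  congr 2
  push_cast
  ring

lemma Ei_le : Real.exp (-(2 * Real.pi * (1 / 5))) ≤ 10000 / 35134 := by
  have h := E_ge
  rw [Real.exp_neg]
  calc (Real.exp (2 * Real.pi * (1 / 5)))⁻¹ ≤ (35134 / 10000 : ℝ)⁻¹ := inv_anti₀ (by norm_num) h
    _ = _ := by norm_num

lemma BB_step (n : ℕ) (hn : 7 ≤ n) : BB (n + 1) ≤ BB n / 5 := by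
  have hn' : (7 : ℝ) ≤ n := by exact_mod_cast hn
  have h1 := Ei_le
  have h0 := Real.exp_pos (-(2 * Real.pi * (1 / 5)))
  unfold BB
  set r := Real.exp (-(2 * Real.pi * (1 / 5))) with hr
  have hr2 : r ^ 2 ≤ (10000 / 35134) ^ 2 := pow_le_pow_left₀ h0.le h1 2
  have h4 : 1 / 16 + (((n + 1 : ℕ) : ℝ) / 5) ^ 2 ≤ (8 / 7) ^ 2 * (1 / 16 + ((n : ℝ) / 5) ^ 2) := by
    push_cast
    nlinarith
  have h5 : 3 / 8 + 10 / 3 * (((n + 1 : ℕ) : ℝ) / 5) ^ 2 ≤
      (8 / 7) ^ 2 * (3 / 8 + 10 / 3 * ((n : ℝ) / 5) ^ 2) := by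
    push_cast
    nlinarith
  set A := 1 / 16 + ((n : ℝ) / 5) ^ 2 with hA
  set B := 3 / 8 + 10 / 3 * ((n : ℝ) / 5) ^ 2 with hB
  have hA0 : 0 < A := by positivity
  have hB0 : 0 < B := by positivity
  have e : r ^ (2 * (n + 1)) = r ^ (2 * n) * r ^ 2 := by ring
  rw [e]
  calc _ ≤ ((8 / 7) ^ 2 * B) * (((8 / 7) ^ 2 * A) ^ 2 *
        ((2630 / 100) ^ 4 * (r ^ (2 * n) * (10000 / 35134) ^ 2))) := by
        gcongr
    _ = ((8 / 7) ^ 6 * (10000 / 35134) ^ 2) * (B * (A ^ 2 * ((2630 / 100) ^ 4 * r ^ (2 * n)))) := by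
        ring
    _ ≤ 1 / 5 * (B * (A ^ 2 * ((2630 / 100) ^ 4 * r ^ (2 * n)))) := by
        apply mul_le_mul_of_nonneg_right _ (by positivity)
        norm_num
    _ = _ := by ring

lemma BB_7 : BB 7 ≤ 38 / 100 := by
  have h1 := Ei_le
  have h0 := Real.exp_pos (-(2 * Real.pi * (1 / 5)))
  unfold BB
  calc _ ≤ (3 / 8 + 10 / 3 * (((7 : ℕ) : ℝ) / 5) ^ 2) *
      ((1 / 16 + (((7 : ℕ) : ℝ) / 5) ^ 2) ^ 2 * ((2630 / 100) ^ 4 * (10000 / 35134) ^ (2 * 7))) := by
        gcongr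
    _ ≤ 38 / 100 := by norm_num

lemma BB_all (n : ℕ) : BB (n + 7) ≤ 38 / 100 * (1 / 5) ^ n := by
  induction n with
  | zero => simpa using BB_7
  | succ n ih =>
    have h := BB_step (n + 7) (by omega)
    have e : n + 1 + 7 = n + 7 + 1 := by ring
    rw [e, pow_succ]
    linarith

lemma tail (hG : StmtG) (hN : StmtGn) (hs : Summable (fun n : ℕ => FF ((n : ℝ) / 5))) :
    ∑' n : ℕ, FF (((n + 7 : ℕ) : ℝ) / 5) ≤ 475 / 1000 := by
  have hgs : HasSum (fun n : ℕ => 38 / 100 * (1 / 5 : ℝ) ^ n) (475 / 1000) := by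
    have := (hasSum_geometric_of_lt_one (show (0:ℝ) ≤ 1 / 5 by norm_num) (by norm_num)).mul_left
      (38 / 100 : ℝ)
    have e : (475 / 1000 : ℝ) = 38 / 100 * (1 - 1 / 5)⁻¹ := by norm_num
    rw [e]
    exact this
  rw [← hgs.tsum_eq]
  refine Summable.tsum_le_tsum (fun n => (FF_le_BB hG hN (n + 7)).trans (BB_all n)) ?_ hgs.summable
  exact (summable_nat_add_iff 7).2 hs

lemma total (hG : StmtG) (hN : StmtGn) (hs : Summable (fun j : ℤ => FF (1 / 5 * j))) :
    ∑' j : ℤ, FF (1 / 5 * j) ≤ 93 := by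
  have s0 : Summable (fun n : ℕ => FF ((n : ℝ) / 5)) := by
    have := hs.comp_injective (i := fun n : ℕ => (n : ℤ)) Nat.cast_injective
    refine this.congr fun n => ?_
    simp only [Function.comp_apply]
    congr 1
    push_cast
    ring
  have s1 : Summable (fun n : ℕ => FF (1 / 5 * ((n : ℤ) : ℝ))) :=
    hs.comp_injective (i := fun n : ℕ => (n : ℤ)) Nat.cast_injective
  have s2 : Summable (fun n : ℕ => FF (1 / 5 * ((-(n + 1) : ℤ) : ℝ))) := by
    refine hs.comp_injective (i := fun n : ℕ => (-(n + 1) : ℤ)) ?_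
    intro m n h
    simpa using h
  have e1 := tsum_of_nat_of_neg_add_one (f := fun j : ℤ => FF (1 / 5 * j)) s1 s2
  have e2 : ∀ n : ℕ, FF (1 / 5 * ((n : ℤ) : ℝ)) = FF ((n : ℝ) / 5) := by
    intro n
    congr 1
    push_cast
    ring
  have e3 : ∀ n : ℕ, FF (1 / 5 * ((-(n + 1) : ℤ) : ℝ)) = FF (((n + 1 : ℕ) : ℝ) / 5) := by
    intro n
    rw [← FF_even hG]
    congr 1
    push_cast
    ring
  simp only [e2, e3] at e1
  rw [e1]
  have t0 := s0.sum_add_tsum_nat_add 7
  have s3 : Summable (fun n : ℕ => FF (((n + 1 : ℕ) : ℝ) / 5)) := (summable_nat_add_iff 1).2 s0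
  have t1 := s3.sum_add_tsum_nat_add 6
  have t2 := tail hG hN s0
  have e4 : ∀ n : ℕ, FF (((n + 6 + 1 : ℕ) : ℝ) / 5) = FF (((n + 7 : ℕ) : ℝ) / 5) := fun n => rfl
  simp only [e4] at t1
  rw [← t0, ← t1]
  have f0 := F0 hG hN
  have f1 := F1 hG hN
  have f2 := F2 hG hN
  have f3 := F3 hG hN
  have f4 := F4 hG hN
  have f5 := F5 hG hN
  have f6 := F6 hG hN
  simp only [Finset.sum_range_succ, Finset.sum_range_zero]
  push_cast
  norm_num at f5 t2 ⊢
  linarith

end I1Aux

/-- (I1): the numerical constant -/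
theorem i1 (hG : StmtG) (hN : StmtGn) (hB : StmtBeta) : StmtI1 := by
  have h := I1Aux.FF_le hG hB
  have h2 := I1Aux.total hG hN h.1
  have h3 := h.2
  unfold StmtI1
  have e : ∫ y : ℝ, (3 / 8 + 10 / 3 * y ^ 2) * r2 y = ∫ y, I1Aux.FF y := rfl
  rw [e]
  linarith

end Pool.Agent.Lib.MP_dd244f_an.Rq
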