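import Pool.Agent.Lib.MP_dd244f_an.Rq.Stmts

/-!
Module K1: the radial minorant of `k1`.
-/

set_option autoImplicit false

namespace Pool.Agent.Lib.MP_dd244f_an.Rq

open MeasureTheory Filter Topology

private theorem k1r_even (L : ℝ) : k1r (-L) = k1r L := by
  unfold k1r; rw [abs_neg]

private theorem k1r_pos (L : ℝ) : 0 < k1r L := by
  unfold k1r; positivity

private theorem k1r_eq (L : ℝ) : k1r L = Real.exp (L / 2) / (1 + Real.exp L) := by
  have key : ∀ x : ℝ, 0 ≤ x → k1r x = Real.exp (x / 2) / (1 + Real.exp x) := by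
    intro x hx
    unfold k1r
    rw [abs_of_nonneg hx]
    have h1 : (0 : ℝ) < 1 + Real.exp (-x) := by positivity
    have h2 : (0 : ℝ) < 1 + Real.exp x := by positivity
    rw [div_eq_div_iff h1.ne' h2.ne']
    have e1 : Real.exp (-(x / 2)) * Real.exp x = Real.exp (x / 2) := by
      rw [← Real.exp_add]; congr 1; ring
    have e2 : Real.exp (x / 2) * Real.exp (-x) = Real.exp (-(x / 2)) := by
      rw [← Real.exp_add]; congr 1; ring
    calc Real.exp (-(x / 2)) * (1 + Real.exp x)
        = Real.exp (-(x / 2)) + Real.exp (-(x / 2)) * Real.exp x := by ring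
      _ = Real.exp (-(x / 2)) + Real.exp (x / 2) := by rw [e1]
      _ = Real.exp (x / 2) * (1 + Real.exp (-x)) := by rw [mul_add, e2]; ring
  rcases le_total 0 L with h | h
  · exact key L h
  · have h3 := key (-L) (by linarith)
    rw [k1r_even] at h3
    rw [h3]
    have h1 : (0 : ℝ) < 1 + Real.exp (-L) := by positivity
    have h2 : (0 : ℝ) < 1 + Real.exp L := by positivity
    rw [div_eq_div_iff h1.ne' h2.ne']
    have e1 : Real.exp (-L / 2) * Real.exp L = Real.exp (L / 2) := by
      rw [← Real.exp_add]; congr 1; ring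
    have e2 : Real.exp (L / 2) * Real.exp (-L) = Real.exp (-L / 2) := by
      rw [← Real.exp_add]; congr 1; ring
    calc Real.exp (-L / 2) * (1 + Real.exp L)
        = Real.exp (-L / 2) + Real.exp (-L / 2) * Real.exp L := by ring
      _ = Real.exp (-L / 2) + Real.exp (L / 2) := by rw [e1]
      _ = Real.exp (L / 2) * (1 + Real.exp (-L)) := by rw [mul_add, e2]; ring

private theorem k1r_cont : Continuous k1r := by
  have h : k1r = fun L => Real.exp (L / 2) / (1 + Real.exp L) := funext k1r_eq
  rw [h]
  refine Continuous.div (by fun_prop) (by fun_prop) ?_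
  intro x
  positivity

private theorem k1r_deriv (x : ℝ) :
    HasDerivAt (fun x => 2 * Real.arctan (Real.exp (x / 2))) (k1r x) x := by
  have h1 : HasDerivAt (fun x : ℝ => x / 2) (1 / 2) x := by
    simpa using (hasDerivAt_id x).div_const 2
  have h2 : HasDerivAt (fun x : ℝ => Real.exp (x / 2)) (Real.exp (x / 2) * (1 / 2)) x := h1.exp
  have h3 := h2.arctan.const_mul 2
  have e : 2 * (1 / (1 + Real.exp (x / 2) ^ 2) * (Real.exp (x / 2) * (1 / 2))) = k1r x := by
    rw [k1r_eq]
    have : Real.exp (x / 2) ^ 2 = Real.exp x := by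
      rw [← Real.exp_nat_mul]; congr 1; push_cast; ring
    rw [this]; ring
  rw [e] at h3
  exact h3

private theorem tend_top :
    Tendsto (fun x : ℝ => 2 * Real.arctan (Real.exp (x / 2))) atTop (𝓝 Real.pi) := by
  have h1 : Tendsto (fun x : ℝ => Real.exp (x / 2)) atTop atTop :=
    Real.tendsto_exp_atTop.comp (tendsto_id.atTop_div_const (by norm_num))
  have h2 : Tendsto (fun x : ℝ => Real.arctan (Real.exp (x / 2))) atTop (𝓝 (Real.pi / 2)) :=
    (tendsto_nhds_of_tendsto_nhdsWithin Real.tendsto_arctan_atTop).comp h1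
  have h3 := h2.const_mul 2
  have e : 2 * (Real.pi / 2) = Real.pi := by ring
  rwa [e] at h3

private theorem tend_bot :
    Tendsto (fun x : ℝ => 2 * Real.arctan (Real.exp (x / 2))) atBot (𝓝 0) := by
  have h1 : Tendsto (fun x : ℝ => Real.exp (x / 2)) atBot (𝓝 0) :=
    Real.tendsto_exp_atBot.comp (tendsto_id.atBot_div_const (by norm_num))
  have h2 : Tendsto (fun x : ℝ => Real.arctan (Real.exp (x / 2))) atBot (𝓝 (Real.arctan 0)) :=
    (Real.continuous_arctan.tendsto 0).comp h1
  have h3 := h2.const_mul 2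
  simpa using h3

private theorem k1r_int : Integrable k1r := by
  have hI : IntegrableOn k1r (Set.Ioi 0) :=
    integrableOn_Ioi_deriv_of_nonneg' (fun x _ => k1r_deriv x) (fun x _ => (k1r_pos x).le) tend_top
  have hI' : IntegrableOn k1r (Set.Iic 0) := by
    have h : IntegrableOn k1r (Set.Ici 0) := (integrableOn_Ici_iff_integrableOn_Ioi).2 hI
    have h2 := (MeasurePreserving.integrableOn_comp_preimage
      (Measure.measurePreserving_neg (volume : Measure ℝ))
      (Homeomorph.neg ℝ).measurableEmbedding (f := k1r) (s := Set.Ici 0)).2 h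
    have e : (k1r ∘ Neg.neg) = k1r := funext fun x => k1r_even x
    rw [e] at h2
    have e2 : (Neg.neg ⁻¹' (Set.Ici (0 : ℝ))) = Set.Iic 0 := by
      ext x; simp
    rwa [e2] at h2
  have := hI'.union hI
  rwa [Set.Iic_union_Ioi, integrableOn_univ] at this

/-- module K1 -/
theorem k1facts : StmtK1 := by
  refine ⟨?_, ?_, k1r_int, ?_⟩
  · intro L θ h
    have hn : ‖Complex.exp (L + Complex.I * θ)‖ = Real.exp L := by
      rw [Complex.norm_exp]
      simp
    have hne : (1 : ℂ) - Complex.exp (L + Complex.I * θ) ≠ 0 := by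
      intro h0
      have h1 : Complex.exp (L + Complex.I * θ) = 1 := by
        linear_combination -h0
      have hL : L = 0 := by
        rw [h1, norm_one] at hn
        exact (Real.exp_eq_one_iff L).mp hn.symm
      have hc : Real.cos θ = 1 := by
        subst hL
        have h2 := congrArg Complex.re h1
        rw [Complex.exp_re] at h2
        simpa using h2
      rcases h with h | h
      · exact h hL
      · exact h hc
    have hpos : 0 < ‖(1 : ℂ) - Complex.exp (L + Complex.I * θ)‖ := norm_pos_iff.mpr hne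
    have hle : ‖(1 : ℂ) - Complex.exp (L + Complex.I * θ)‖ ≤ 1 + Real.exp L := by
      calc ‖(1 : ℂ) - Complex.exp (L + Complex.I * θ)‖
          ≤ ‖(1 : ℂ)‖ + ‖Complex.exp (L + Complex.I * θ)‖ := norm_sub_le _ _
        _ = 1 + Real.exp L := by rw [norm_one, hn]
    unfold k1
    rw [k1r_eq, hn]
    have hp : Real.exp L ^ (1 / 2 : ℝ) = Real.exp (L / 2) := by
      rw [← Real.exp_mul]; congr 1; ring
    rw [hp]
    exact div_le_div_of_nonneg_left (Real.exp_pos _).le hpos hle
  · intro l
    unfold k1
    positivity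
  · have := integral_of_hasDerivAt_of_tendsto (fun x => k1r_deriv x) k1r_int tend_bot tend_top
    rw [this]; ring

end Pool.Agent.Lib.MP_dd244f_an.Rq
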