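import Pool.Agent.Lib.MP_dd244f_an.Rq.Stmts

set_option autoImplicit false

namespace Pool.Agent.Lib.MP_dd244f_an.Rq

open MeasureTheory Filter Topology
open Pool.Agent.Lib.MP_dd244f_an.Rp

namespace KapAux

/-- `(a)_n / n!` -/
noncomputable def dd (a : ℝ) (n : ℕ) : ℝ := ∏ j ∈ Finset.range n, (a + j) / (j + 1)

lemma dd_zero (a : ℝ) : dd a 0 = 1 := by simp [dd]

lemma dd_succ (a : ℝ) (n : ℕ) : dd a (n + 1) = dd a n * ((a + n) / (n + 1)) := by
  unfold dd
  rw [Finset.prod_range_succ]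

lemma choose_eq (a : ℝ) (n : ℕ) : Ring.choose ((a : ℂ) + n - 1) n = ((dd a n : ℝ) : ℂ) := by
  rw [← Ring.multichoose_eq]
  have h := Ring.factorial_nsmul_multichoose_eq_ascPochhammer (a : ℂ) n
  rw [Polynomial.ascPochhammer_smeval_eq_eval] at h
  have h2 : ∀ n : ℕ, (ascPochhammer ℂ n).eval (a : ℂ) = n.factorial * ((dd a n : ℝ) : ℂ) := by
    intro n
    induction n with
    | zero => simp [dd]
    | succ n ih =>
      rw [ascPochhammer_succ_eval, ih, dd_succ, Nat.factorial_succ]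
      have : (n : ℂ) + 1 ≠ 0 := by exact_mod_cast Nat.succ_ne_zero n
      push_cast
      field_simp
  rw [h2 n, nsmul_eq_mul] at h
  exact mul_left_cancel₀ (by exact_mod_cast Nat.factorial_ne_zero n) h

lemma choose_eq_real (a : ℝ) (n : ℕ) : Ring.choose (a + n - 1) n = dd a n := by
  rw [← Ring.multichoose_eq]
  have h := Ring.factorial_nsmul_multichoose_eq_ascPochhammer a n
  rw [Polynomial.ascPochhammer_smeval_eq_eval] at h
  have h2 : ∀ n : ℕ, (ascPochhammer ℝ n).eval a = n.factorial * dd a n := by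
    intro n
    induction n with
    | zero => simp [dd]
    | succ n ih =>
      rw [ascPochhammer_succ_eval, ih, dd_succ, Nat.factorial_succ]
      have : (n : ℝ) + 1 ≠ 0 := by exact_mod_cast Nat.succ_ne_zero n
      push_cast
      field_simp
  rw [h2 n, nsmul_eq_mul] at h
  exact mul_left_cancel₀ (by exact_mod_cast Nat.factorial_ne_zero n) h

lemma hasSum_cpow (a : ℝ) {z : ℂ} (hz : ‖z‖ < 1) :
    HasSum (fun n => ((dd a n : ℝ) : ℂ) * z ^ n) (1 / (1 - z) ^ (a : ℂ)) := by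
  have h := (Complex.one_div_one_sub_cpow_hasFPowerSeriesOnBall_zero (a : ℂ)).hasSum (y := z)
    (by simpa [enorm_eq_nnnorm] using! hz)
  simp only [zero_add] at h
  have e : (fun n => ((dd a n : ℝ) : ℂ) * z ^ n) = fun n =>
      (FormalMultilinearSeries.ofScalars ℂ (fun n : ℕ => Ring.choose ((a : ℂ) + n - 1) n) n)
        fun _ => z := by
    funext n
    rw [FormalMultilinearSeries.apply_eq_prod_smul_coeff]
    simp [FormalMultilinearSeries.coeff_ofScalars, choose_eq, mul_comm]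
  rw [e]
  exact h

lemma hasSum_rpow (a : ℝ) {s : ℝ} (h0 : 0 ≤ s) (h1 : s < 1) :
    HasSum (fun n => dd a n * s ^ n) (1 / (1 - s) ^ a) := by
  have h := (Real.one_div_one_sub_rpow_hasFPowerSeriesOnBall_zero a).hasSum (y := s)
    (by
      have : ‖s‖ < 1 := by rw [Real.norm_eq_abs, abs_of_nonneg h0]; exact h1
      simpa [enorm_eq_nnnorm] using! this)
  simp only [zero_add] at h
  have e : (fun n => dd a n * s ^ n) = fun n =>
      (FormalMultilinearSeries.ofScalars ℝ (fun n : ℕ => Ring.choose (a + n - 1) n) n)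
        fun _ => s := by
    funext n
    rw [FormalMultilinearSeries.apply_eq_prod_smul_coeff]
    simp [FormalMultilinearSeries.coeff_ofScalars, choose_eq_real, mul_comm]
  rw [e]
  exact h


/-- `c_n = (1/2)_n / n!` -/
noncomputable def c (n : ℕ) : ℝ := dd (1 / 2) n

lemma c_zero : c 0 = 1 := dd_zero _

lemma c_succ (n : ℕ) : c (n + 1) = c n * ((1 / 2 + n) / (n + 1)) := dd_succ _ _

lemma dd_nonneg {a : ℝ} (ha : 0 ≤ a) (n : ℕ) : 0 ≤ dd a n :=
  Finset.prod_nonneg fun j _ => by positivity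

lemma c_nonneg (n : ℕ) : 0 ≤ c n := dd_nonneg (by norm_num) n

lemma c_le_one (n : ℕ) : c n ≤ 1 := by
  induction n with
  | zero => rw [c_zero]
  | succ n ih =>
    rw [c_succ]
    have h : ((1 / 2 + n) / (n + 1) : ℝ) ≤ 1 := by
      rw [div_le_one (by positivity)]; linarith
    have h0 : (0 : ℝ) ≤ (1 / 2 + n) / (n + 1) := by positivity
    nlinarith [c_nonneg n]

lemma c_sq_le (n : ℕ) : c n ^ 2 ≤ dd (1 / 4) n := by
  induction n with
  | zero => rw [c_zero, dd_zero]; norm_num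
  | succ n ih =>
    rw [c_succ, dd_succ, mul_pow]
    have h : ((1 / 2 + n) / (n + 1) : ℝ) ^ 2 ≤ (1 / 4 + n) / (n + 1) := by
      rw [div_pow, div_le_div_iff₀ (by positivity) (by positivity)]
      nlinarith [(Nat.cast_nonneg n : (0 : ℝ) ≤ n), sq_nonneg (n : ℝ),
        mul_nonneg (Nat.cast_nonneg n : (0 : ℝ) ≤ n) (Nat.cast_nonneg n : (0 : ℝ) ≤ n)]
    exact mul_le_mul ih h (by positivity) (dd_nonneg (by norm_num) n)

lemma c_sq_le' (n : ℕ) : c n ^ 2 ≤ 1 / (3 * n + 1) := by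
  induction n with
  | zero => rw [c_zero]; norm_num
  | succ n ih =>
    rw [c_succ, mul_pow]
    have h : (1 / (3 * n + 1) : ℝ) * ((1 / 2 + n) / (n + 1)) ^ 2 ≤ 1 / (3 * ((n + 1 : ℕ) : ℝ) + 1) := by
      rw [div_pow, one_div, inv_mul_eq_div, div_div, div_le_div_iff₀ (by positivity) (by positivity)]
      push_cast
      nlinarith [(Nat.cast_nonneg n : (0 : ℝ) ≤ n), sq_nonneg (n : ℝ),
        mul_nonneg (Nat.cast_nonneg n : (0 : ℝ) ≤ n) (Nat.cast_nonneg n : (0 : ℝ) ≤ n)]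
    exact (mul_le_mul_of_nonneg_right ih (by positivity)).trans h

/-- the function on the circle -/
noncomputable def S (z : ℂ) : ℂ := 1 / (1 - z) ^ ((1 / 2 : ℝ) : ℂ)

lemma norm_S_sq {z : ℂ} (hz : ‖z‖ < 1) : ‖S z‖ ^ 2 = 1 / ‖1 - z‖ := by
  have h1 : 1 - z ≠ 0 := by
    intro h
    rw [sub_eq_zero] at h
    rw [← h] at hz
    simp at hz
  unfold S
  rw [norm_div, Complex.norm_cpow_real, norm_one, div_pow, one_pow, ← Real.rpow_natCast,
    ← Real.rpow_mul (norm_nonneg _)]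
  norm_num

lemma int_exp {k : ℤ} (hk : k ≠ 0) :
    ∫ θ in (0)..(2 * Real.pi), Complex.exp (Complex.I * k * θ) = 0 := by
  have hc : Complex.I * (k : ℂ) ≠ 0 := mul_ne_zero Complex.I_ne_zero (by exact_mod_cast hk)
  rw [integral_exp_mul_complex hc]
  have : Complex.exp (Complex.I * k * ((2 * Real.pi : ℝ) : ℂ)) = 1 := by
    rw [Complex.exp_eq_one_iff]
    exact ⟨k, by push_cast; ring⟩
  rw [this]
  simp

lemma norm_z {r : ℝ} (h0 : 0 ≤ r) (θ : ℝ) : ‖(r : ℂ) * Complex.exp (Complex.I * θ)‖ = r := by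
  rw [norm_mul, mul_comm Complex.I, Complex.norm_exp_ofReal_mul_I, mul_one, Complex.norm_real,
    Real.norm_eq_abs, abs_of_nonneg h0]

lemma hS {r : ℝ} (h0 : 0 ≤ r) (h1 : r < 1) (θ : ℝ) :
    HasSum (fun n : ℕ => ((c n * r ^ n : ℝ) : ℂ) * Complex.exp (Complex.I * n * θ))
      (S ((r : ℂ) * Complex.exp (Complex.I * θ))) := by
  have h := hasSum_cpow (1 / 2) (z := (r : ℂ) * Complex.exp (Complex.I * θ))
    (by rw [norm_z h0]; exact h1)
  unfold S
  have e : (fun n : ℕ => ((c n * r ^ n : ℝ) : ℂ) * Complex.exp (Complex.I * n * θ))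
      = fun n : ℕ => ((dd (1 / 2) n : ℝ) : ℂ) * ((r : ℂ) * Complex.exp (Complex.I * θ)) ^ n := by
    funext n
    rw [mul_pow, ← Complex.exp_nat_mul]
    unfold c
    push_cast
    rw [show (n : ℂ) * (Complex.I * θ) = Complex.I * n * θ by ring]
    ring
  rw [e]
  exact h

lemma hS' {r : ℝ} (h0 : 0 ≤ r) (h1 : r < 1) (θ : ℝ) :
    HasSum (fun n : ℕ => ((c n * r ^ n : ℝ) : ℂ) * Complex.exp (-(Complex.I * n * θ)))
      (starRingEnd ℂ (S ((r : ℂ) * Complex.exp (Complex.I * θ)))) := by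
  have h := (hS h0 h1 θ).star
  have e : (fun n : ℕ => ((c n * r ^ n : ℝ) : ℂ) * Complex.exp (-(Complex.I * n * θ)))
      = fun n : ℕ => star (((c n * r ^ n : ℝ) : ℂ) * Complex.exp (Complex.I * n * θ)) := by
    funext n
    rw [← starRingEnd_apply, map_mul, Complex.conj_ofReal, ← Complex.exp_conj]
    simp
  rw [e]
  exact h

lemma S_meas (r : ℝ) : Measurable fun θ : ℝ => S ((r : ℂ) * Complex.exp (Complex.I * θ)) := by
  unfold S
  fun_prop

lemma norm_e (n : ℕ) (θ : ℝ) : ‖Complex.exp (Complex.I * n * θ)‖ = 1 := by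
  rw [show Complex.I * (n : ℂ) * (θ : ℂ) = ((n * θ : ℝ) : ℂ) * Complex.I by push_cast; ring]
  exact Complex.norm_exp_ofReal_mul_I _

lemma norm_e' (n : ℕ) (θ : ℝ) : ‖Complex.exp (-(Complex.I * n * θ))‖ = 1 := by
  rw [show -(Complex.I * (n : ℂ) * (θ : ℂ)) = ((-(n * θ) : ℝ) : ℂ) * Complex.I by push_cast; ring]
  exact Complex.norm_exp_ofReal_mul_I _

lemma norm_cr {r : ℝ} (h0 : 0 ≤ r) (n : ℕ) : ‖((c n * r ^ n : ℝ) : ℂ)‖ ≤ r ^ n := by
  rw [Complex.norm_real, Real.norm_eq_abs, abs_of_nonneg (mul_nonneg (c_nonneg n) (by positivity))]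
  have := c_le_one n
  have h : 0 ≤ r ^ n := by positivity
  nlinarith

lemma coef {r : ℝ} (h0 : 0 ≤ r) (h1 : r < 1) (n : ℕ) :
    ∫ θ in (0)..(2 * Real.pi), Complex.exp (Complex.I * n * θ) *
      starRingEnd ℂ (S ((r : ℂ) * Complex.exp (Complex.I * θ)))
      = 2 * Real.pi * ((c n * r ^ n : ℝ) : ℂ) := by
  have h := intervalIntegral.hasSum_integral_of_dominated_convergence
    (F := fun (m : ℕ) (θ : ℝ) => Complex.exp (Complex.I * n * θ) *
      (((c m * r ^ m : ℝ) : ℂ) * Complex.exp (-(Complex.I * m * θ))))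
    (f := fun θ : ℝ => Complex.exp (Complex.I * n * θ) *
      starRingEnd ℂ (S ((r : ℂ) * Complex.exp (Complex.I * θ))))
    (μ := volume) (a := 0) (b := 2 * Real.pi) (fun m _ => r ^ m)
    (fun m => Measurable.aestronglyMeasurable (by fun_prop))
    (fun m => Eventually.of_forall fun θ _ => by
      rw [norm_mul, norm_mul, norm_e, norm_e', one_mul, mul_one]
      exact norm_cr h0 m)
    (Eventually.of_forall fun θ _ => summable_geometric_of_lt_one h0 h1)
    (by simp)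
    (Eventually.of_forall fun θ _ => (hS' h0 h1 θ).mul_left _)
  have e : ∀ m : ℕ, (∫ θ in (0)..(2 * Real.pi), Complex.exp (Complex.I * n * θ) *
      (((c m * r ^ m : ℝ) : ℂ) * Complex.exp (-(Complex.I * m * θ))))
      = if m = n then 2 * Real.pi * ((c n * r ^ n : ℝ) : ℂ) else 0 := by
    intro m
    have e1 : ∀ θ : ℝ, Complex.exp (Complex.I * n * θ) *
      (((c m * r ^ m : ℝ) : ℂ) * Complex.exp (-(Complex.I * m * θ)))
      = ((c m * r ^ m : ℝ) : ℂ) * Complex.exp (Complex.I * ((n - m : ℤ) : ℂ) * θ) := by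
      intro θ
      rw [mul_left_comm, ← Complex.exp_add]
      congr 2
      push_cast
      ring
    simp_rw [e1]
    rw [intervalIntegral.integral_const_mul]
    split_ifs with hmn
    · subst hmn
      simp
      ring
    · rw [int_exp (by intro h; apply hmn; omega), mul_zero]
  rw [funext e] at h
  exact h.unique (hasSum_ite_eq n _)

/-- Parseval -/
lemma parseval {r : ℝ} (h0 : 0 ≤ r) (h1 : r < 1) :
    HasSum (fun n => 2 * Real.pi * (c n ^ 2 * r ^ (2 * n)))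
      (∫ θ in (0)..(2 * Real.pi), 1 / ‖1 - r * Complex.exp (Complex.I * θ)‖) := by
  have hb : ∀ θ : ℝ, ‖S ((r : ℂ) * Complex.exp (Complex.I * θ))‖ ≤ (1 - r)⁻¹ := by
    intro θ
    have h := hS h0 h1 θ
    rw [← h.tsum_eq]
    refine tsum_of_norm_bounded (hasSum_geometric_of_lt_one h0 h1) fun n => ?_
    rw [norm_mul, norm_e, mul_one]
    exact norm_cr h0 n
  have h := intervalIntegral.hasSum_integral_of_dominated_convergence
    (F := fun (m : ℕ) (θ : ℝ) => ((c m * r ^ m : ℝ) : ℂ) * Complex.exp (Complex.I * m * θ) *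
      starRingEnd ℂ (S ((r : ℂ) * Complex.exp (Complex.I * θ))))
    (f := fun θ : ℝ => S ((r : ℂ) * Complex.exp (Complex.I * θ)) *
      starRingEnd ℂ (S ((r : ℂ) * Complex.exp (Complex.I * θ))))
    (μ := volume) (a := 0) (b := 2 * Real.pi) (fun m _ => r ^ m * (1 - r)⁻¹)
    (fun m => by
      have := S_meas r
      exact Measurable.aestronglyMeasurable (by fun_prop))
    (fun m => Eventually.of_forall fun θ _ => by
      rw [norm_mul, norm_mul, norm_e, mul_one, RCLike.norm_conj]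
      exact mul_le_mul (norm_cr h0 m) (hb θ) (norm_nonneg _) (by positivity))
    (Eventually.of_forall fun θ _ => (summable_geometric_of_lt_one h0 h1).mul_right _)
    (by simp)
    (Eventually.of_forall fun θ _ => (hS h0 h1 θ).mul_right _)
  have e1 : ∀ m : ℕ, (∫ θ in (0)..(2 * Real.pi), ((c m * r ^ m : ℝ) : ℂ) *
      Complex.exp (Complex.I * m * θ) *
      starRingEnd ℂ (S ((r : ℂ) * Complex.exp (Complex.I * θ))))
      = ((2 * Real.pi * (c m ^ 2 * r ^ (2 * m)) : ℝ) : ℂ) := by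
    intro m
    have e0 : ∀ θ : ℝ, ((c m * r ^ m : ℝ) : ℂ) * Complex.exp (Complex.I * m * θ) *
        starRingEnd ℂ (S ((r : ℂ) * Complex.exp (Complex.I * θ)))
        = ((c m * r ^ m : ℝ) : ℂ) * (Complex.exp (Complex.I * m * θ) *
        starRingEnd ℂ (S ((r : ℂ) * Complex.exp (Complex.I * θ)))) := fun θ => mul_assoc _ _ _
    simp_rw [e0]
    rw [intervalIntegral.integral_const_mul, coef h0 h1 m]
    push_cast
    ring
  have e2 : (∫ θ in (0)..(2 * Real.pi), S ((r : ℂ) * Complex.exp (Complex.I * θ)) *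
      starRingEnd ℂ (S ((r : ℂ) * Complex.exp (Complex.I * θ))))
      = ((∫ θ in (0)..(2 * Real.pi), 1 / ‖1 - r * Complex.exp (Complex.I * θ)‖ : ℝ) : ℂ) := by
    rw [← intervalIntegral.integral_ofReal]
    congr 1
    funext θ
    rw [Complex.mul_conj, Complex.normSq_eq_norm_sq, norm_S_sq (by rw [norm_z h0]; exact h1)]
  rw [funext e1, e2] at h
  exact_mod_cast h

/-- `∑ c_n² s^n` -/
noncomputable def Q (s : ℝ) : ℝ := ∑' n, c n ^ 2 * s ^ n

lemma Q_summable {s : ℝ} (h0 : 0 ≤ s) (h1 : s < 1) : Summable fun n => c n ^ 2 * s ^ n := by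
  refine Summable.of_nonneg_of_le (fun n => by positivity) (fun n => ?_)
    (hasSum_rpow (1 / 4) h0 h1).summable
  exact mul_le_mul_of_nonneg_right (c_sq_le n) (by positivity)

lemma Q_le {s : ℝ} (h0 : 0 ≤ s) (h1 : s < 1) : Q s ≤ (1 - s) ^ (-(1 / 4) : ℝ) := by
  have h := hasSum_rpow (1 / 4) h0 h1
  unfold Q
  rw [Real.rpow_neg (by linarith), ← one_div, ← h.tsum_eq]
  exact (Q_summable h0 h1).tsum_le_tsum
    (fun n => mul_le_mul_of_nonneg_right (c_sq_le n) (by positivity)) h.summable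

lemma one_le_Q {s : ℝ} (h0 : 0 ≤ s) (h1 : s < 1) : 1 ≤ Q s := by
  have h := (Q_summable h0 h1).le_tsum 0 (fun n _ => by positivity)
  unfold Q
  simpa [c_zero] using h

lemma circ {r : ℝ} (h0 : 0 ≤ r) (h1 : r < 1) :
    ∫ θ in (0)..(2 * Real.pi), 1 / ‖1 - r * Complex.exp (Complex.I * θ)‖
      = 2 * Real.pi * Q (r ^ 2) := by
  have h := parseval h0 h1
  rw [← h.tsum_eq, tsum_mul_left]
  simp_rw [pow_mul]
  rfl

/-- `kap` at `-L`, `L > 0`, before symmetry -/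
lemma kap_neg {L : ℝ} (hL : 0 < L) :
    kap (-L) = 2 * Real.pi * Real.exp (-(L / 2)) * Q (Real.exp (-(2 * L))) := by
  have hr0 : 0 ≤ Real.exp (-L) := (Real.exp_pos _).le
  have hr1 : Real.exp (-L) < 1 := Real.exp_lt_one_iff.2 (by linarith)
  have e : ∀ θ : ℝ, k1 (Complex.exp ((-L : ℝ) + Complex.I * θ))
      = Real.exp (-(L / 2)) * (1 / ‖1 - (Real.exp (-L) : ℝ) * Complex.exp (Complex.I * θ)‖) := by
    intro θ
    unfold k1
    rw [Complex.exp_add, ← Complex.ofReal_exp, norm_z hr0]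
    rw [← Real.exp_mul, mul_one_div, show -L / 2 = -(L / 2) by ring]
    ring
  unfold kap
  simp_rw [e]
  rw [intervalIntegral.integral_const_mul, circ hr0 hr1, ← Real.exp_nat_mul]
  have : ((2 : ℕ) : ℝ) * (-L) = -(2 * L) := by push_cast; ring
  rw [this]
  ring

lemma k1_sym (L θ : ℝ) : k1 (Complex.exp ((-L : ℝ) + Complex.I * θ))
    = k1 (Complex.exp (L + Complex.I * ((2 * Real.pi - θ : ℝ) : ℂ))) := by
  have e : Complex.exp (L + Complex.I * ((2 * Real.pi - θ : ℝ) : ℂ))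
      = (Complex.exp ((-L : ℝ) + Complex.I * θ))⁻¹ := by
    rw [← Complex.exp_neg, Complex.exp_eq_exp_iff_exists_int]
    exact ⟨1, by push_cast; ring⟩
  rw [e]
  set z := Complex.exp ((-L : ℝ) + Complex.I * θ) with hz
  have hz0 : z ≠ 0 := Complex.exp_ne_zero _
  have hn : 0 < ‖z‖ := norm_pos_iff.2 hz0
  unfold k1
  have e2 : ‖1 - z⁻¹‖ = ‖1 - z‖ / ‖z‖ := by
    rw [← norm_neg (1 - z), ← norm_div]
    congr 1
    field_simp
    ring
  rw [e2, norm_inv, Real.inv_rpow hn.le]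
  have h3 : ‖z‖ ^ (1 / 2 : ℝ) * ‖z‖ ^ (1 / 2 : ℝ) = ‖z‖ := by
    rw [← Real.rpow_add hn]; norm_num
  by_cases h4 : ‖1 - z‖ = 0
  · rw [h4]; simp
  · have h5 : ‖z‖ ^ (1 / 2 : ℝ) ≠ 0 := (Real.rpow_pos_of_pos hn _).ne'
    field_simp
    rw [pow_two, h3]

lemma kap_even (L : ℝ) : kap (-L) = kap L := by
  unfold kap
  have h := intervalIntegral.integral_comp_sub_left (a := 0) (b := 2 * Real.pi)
    (fun θ : ℝ => k1 (Complex.exp (L + Complex.I * θ))) (2 * Real.pi)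
  simp only [sub_self, sub_zero] at h
  rw [← h]
  congr 1
  funext θ
  exact k1_sym L θ

lemma kap_pos {L : ℝ} (hL : 0 < L) :
    kap L = 2 * Real.pi * Real.exp (-(L / 2)) * Q (Real.exp (-(2 * L))) := by
  rw [← kap_even, kap_neg hL]

lemma k1_nonneg (l : ℂ) : 0 ≤ k1 l := by unfold k1; positivity

lemma kap_nonneg (L : ℝ) : 0 ≤ kap L := by
  unfold kap
  exact intervalIntegral.integral_nonneg (by positivity) fun θ _ => k1_nonneg _

lemma k1_meas : Measurable k1 := by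
  unfold k1
  fun_prop

lemma kap_meas : Measurable kap := by
  have hk := k1_meas
  have e : kap = fun L : ℝ => ∫ θ in Set.Ioc 0 (2 * Real.pi),
      k1 (Complex.exp (L + Complex.I * θ)) := by
    funext L
    unfold kap
    rw [intervalIntegral.integral_of_le (by positivity)]
  rw [e]
  have h : StronglyMeasurable (Function.uncurry fun (L θ : ℝ) =>
      k1 (Complex.exp (L + Complex.I * θ))) := by
    apply Measurable.stronglyMeasurable
    exact hk.comp (by fun_prop)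
  exact h.integral_prod_right.measurable

lemma exp_lt {L : ℝ} (hL : 0 < L) : Real.exp (-(2 * L)) < 1 :=
  Real.exp_lt_one_iff.2 (by linarith)

lemma bounds {L : ℝ} (hL : 0 < L) : 2 * Real.pi * Real.exp (-(L / 2)) ≤ kap L ∧
    kap L ≤ 2 * Real.pi * Real.exp (-(L / 2)) * (1 - Real.exp (-(2 * L))) ^ (-(1 / 4) : ℝ) := by
  rw [kap_pos hL]
  have h1 := one_le_Q (Real.exp_pos _).le (exp_lt hL)
  have h2 := Q_le (Real.exp_pos _).le (exp_lt hL)
  have h3 : 0 ≤ 2 * Real.pi * Real.exp (-(L / 2)) := by positivity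
  exact ⟨by nlinarith, mul_le_mul_of_nonneg_left h2 h3⟩

lemma k1_eq (l : ℂ) (hl : l ≠ 0) :
    k1 l / ‖l‖ ^ 2 = ‖l‖ ^ (-(3 / 2) : ℝ) * ‖1 - l‖ ^ (-1 : ℝ) := by
  have hn : 0 < ‖l‖ := norm_pos_iff.2 hl
  unfold k1
  rw [show (-(3 / 2) : ℝ) = 1 / 2 - 2 by norm_num, Real.rpow_sub hn, Real.rpow_neg (norm_nonneg _),
    Real.rpow_one]
  norm_num
  ring

lemma riesz (hR : StmtRieszC) : Integrable (fun l : ℂ => k1 l / ‖l‖ ^ 2) ∧
    ((∫ l : ℂ, k1 l / ‖l‖ ^ 2 : ℝ) : ℂ)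
      = cz (1 / 4) * cz (1 / 2) / cz (1 / 4 + 1 / 2) := by
  have h := hR (1 / 4 : ℂ) (1 / 2 : ℂ) 1 (by norm_num) (by norm_num) (by norm_num)
    one_ne_zero
  have e : (2 * (1 / 4 : ℂ) - 2) = ((-(3 / 2) : ℝ) : ℂ) := by push_cast; norm_num
  have e' : (2 * (1 / 2 : ℂ) - 2) = ((-1 : ℝ) : ℂ) := by push_cast; norm_num
  have hae : ∀ᵐ l : ℂ, (‖l‖ : ℂ) ^ (2 * (1 / 4 : ℂ) - 2) * (‖1 - l‖ : ℂ) ^ (2 * (1 / 2 : ℂ) - 2)
      = ((k1 l / ‖l‖ ^ 2 : ℝ) : ℂ) := by
    have h0 : ∀ᵐ ζ : ℂ, ζ ≠ 0 := (measure_eq_zero_iff_ae_notMem (s := {(0 : ℂ)})).1 (by simp)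
    filter_upwards [h0] with l hl
    rw [k1_eq l hl, e, e', ← Complex.ofReal_cpow (norm_nonneg _),
      ← Complex.ofReal_cpow (norm_nonneg _), ← Complex.ofReal_mul]
  refine ⟨?_, ?_⟩
  · have h1 := (h.1.congr hae).re
    simpa only [RCLike.re_to_complex, Complex.ofReal_re] using h1
  · have h2 : (∫ l : ℂ, ((k1 l / ‖l‖ ^ 2 : ℝ) : ℂ)) = ((∫ l : ℂ, k1 l / ‖l‖ ^ 2 : ℝ) : ℂ) :=
      integral_ofReal (𝕜 := ℂ)
    rw [← h2, ← integral_congr_ae hae, h.2]
    simp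

lemma value : cz (1 / 4) * cz (1 / 2) / cz (1 / 4 + 1 / 2)
    = ((2 * Real.pi ^ 3 / G (3 / 4) 0 ^ 4 : ℝ) : ℂ) := by
  have hG : G (3 / 4) 0 = Real.Gamma (3 / 4) := by
    unfold G
    rw [show ((3 / 4 : ℝ) : ℂ) + Complex.I * ((0 : ℝ) : ℂ) = ((3 / 4 : ℝ) : ℂ) by push_cast; ring,
      Complex.Gamma_ofReal, Complex.norm_real, Real.norm_eq_abs,
      abs_of_pos (Real.Gamma_pos_of_pos (by norm_num))]
  have g34 : (0 : ℝ) < Real.Gamma (3 / 4) := Real.Gamma_pos_of_pos (by norm_num)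
  have g14 : (0 : ℝ) < Real.Gamma (1 / 4) := Real.Gamma_pos_of_pos (by norm_num)
  have g12 : (0 : ℝ) < Real.Gamma (1 / 2) := Real.Gamma_pos_of_pos (by norm_num)
  have hrefl : Real.Gamma (1 / 4) * Real.Gamma (3 / 4) = Real.pi * Real.sqrt 2 := by
    have h := Real.Gamma_mul_Gamma_one_sub (1 / 4)
    rw [show (1 - 1 / 4 : ℝ) = 3 / 4 by norm_num, show Real.pi * (1 / 4) = Real.pi / 4 by ring,
      Real.sin_pi_div_four] at h
    rw [h]
    have h2 : Real.sqrt 2 * Real.sqrt 2 = 2 := Real.mul_self_sqrt (by norm_num)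
    have h3 : Real.sqrt 2 ≠ 0 := by positivity
    field_simp
    nlinarith
  have hc : ∀ x : ℝ, cz (x : ℂ)
      = ((Real.pi ^ (1 - 2 * x) * Real.Gamma x / Real.Gamma (1 - x) : ℝ) : ℂ) := by
    intro x
    unfold cz
    push_cast
    rw [← Complex.Gamma_ofReal, ← Complex.Gamma_ofReal, Complex.ofReal_cpow Real.pi_pos.le]
    push_cast
    rfl
  have e1 : cz (1 / 4) = ((Real.pi ^ (1 - 2 * (1 / 4 : ℝ)) * Real.Gamma (1 / 4) /
      Real.Gamma (1 - 1 / 4) : ℝ) : ℂ) := by rw [← hc]; push_cast; rfl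
  have e2 : cz (1 / 2) = ((Real.pi ^ (1 - 2 * (1 / 2 : ℝ)) * Real.Gamma (1 / 2) /
      Real.Gamma (1 - 1 / 2) : ℝ) : ℂ) := by rw [← hc]; push_cast; rfl
  have e3 : cz (1 / 4 + 1 / 2) = ((Real.pi ^ (1 - 2 * (3 / 4 : ℝ)) * Real.Gamma (3 / 4) /
      Real.Gamma (1 - 3 / 4) : ℝ) : ℂ) := by
    rw [← hc]; congr 1; push_cast; norm_num
  rw [e1, e2, e3, hG, ← Complex.ofReal_mul, ← Complex.ofReal_div]
  congr 1
  have f1 : (1 - 1 / 4 : ℝ) = 3 / 4 := by norm_num
  have f2 : (1 - 1 / 2 : ℝ) = 1 / 2 := by norm_num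
  have f3 : (1 - 3 / 4 : ℝ) = 1 / 4 := by norm_num
  have f4 : (1 - 2 * (1 / 4 : ℝ)) = 1 / 2 := by norm_num
  have f5 : (1 - 2 * (1 / 2 : ℝ)) = 0 := by norm_num
  have f6 : (1 - 2 * (3 / 4 : ℝ)) = -(1 / 2) := by norm_num
  rw [f1, f2, f3, f4, f5, f6, Real.rpow_zero, Real.rpow_neg Real.pi_pos.le]
  have hp : Real.pi ^ (1 / 2 : ℝ) * Real.pi ^ (1 / 2 : ℝ) = Real.pi := by
    rw [← Real.rpow_add Real.pi_pos]; norm_num
  have hp0 : 0 < Real.pi ^ (1 / 2 : ℝ) := Real.rpow_pos_of_pos Real.pi_pos _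
  have h2 : Real.sqrt 2 * Real.sqrt 2 = 2 := Real.mul_self_sqrt (by norm_num)
  have key : (Real.Gamma (1 / 4) * Real.Gamma (3 / 4)) ^ 2 = 2 * Real.pi ^ 2 := by
    rw [hrefl]; nlinarith
  have e7 : Real.pi ^ (1 / 2 : ℝ) * Real.Gamma (1 / 4) / Real.Gamma (3 / 4) *
      (1 * Real.Gamma (1 / 2) / Real.Gamma (1 / 2)) /
      ((Real.pi ^ (1 / 2 : ℝ))⁻¹ * Real.Gamma (3 / 4) / Real.Gamma (1 / 4))
      = (Real.pi ^ (1 / 2 : ℝ) * Real.pi ^ (1 / 2 : ℝ)) *
        (Real.Gamma (1 / 4) * Real.Gamma (3 / 4)) ^ 2 / Real.Gamma (3 / 4) ^ 4 := by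
    field_simp
  rw [e7, hp, key]
  ring

/-- the terms of the last clause -/
noncomputable def F (n : ℕ) (t : ℝ) : ℝ :=
  2 * Real.pi * c (n + 1) ^ 2 * Real.exp (-(2 * (n + 1)) * |t|)

lemma F_nonneg (n : ℕ) (t : ℝ) : 0 ≤ F n t := by unfold F; positivity

lemma F_int (n : ℕ) : Integrable (F n) ∧ ∫ t, F n t = 2 * Real.pi * c (n + 1) ^ 2 / (n + 1) := by
  have hn0 : (0 : ℝ) < n + 1 := by positivity
  have hn : (-(2 * ((n : ℝ) + 1))) < 0 := by linarith
  have hv : ∫ t : ℝ, Real.exp (-(2 * ((n : ℝ) + 1)) * |t|) = 1 / (n + 1) := by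
    rw [integral_comp_abs (f := fun t => Real.exp (-(2 * ((n : ℝ) + 1)) * t)),
      integral_exp_mul_Ioi hn]
    simp
    field_simp
  have hI : Integrable fun t : ℝ => Real.exp (-(2 * ((n : ℝ) + 1)) * |t|) := by
    apply Integrable.of_integral_ne_zero
    rw [hv]
    positivity
  refine ⟨(hI.const_mul _), ?_⟩
  unfold F
  rw [integral_const_mul, hv]
  ring

lemma F_hasSum {t : ℝ} (ht : t ≠ 0) : HasSum (fun n => F n t)
    ((kap t - 2 * Real.pi * Real.exp (-(|t| / 2))) * Real.exp (|t| / 2)) := by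
  have hp : 0 < |t| := abs_pos.2 ht
  have hk : kap t = kap |t| := by
    rcases abs_choice t with h | h
    · rw [h]
    · rw [h, kap_even]
  have hs := (Q_summable (Real.exp_pos _).le (exp_lt hp)).hasSum
  have hs1 := (hasSum_nat_add_iff' 1).2 hs
  have hs2 := hs1.mul_left (2 * Real.pi)
  have e1 : (fun n => F n t) = fun n => 2 * Real.pi *
      (c (n + 1) ^ 2 * Real.exp (-(2 * |t|)) ^ (n + 1)) := by
    funext n
    unfold F
    rw [← Real.exp_nat_mul]
    push_cast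
    rw [show ((n : ℝ) + 1) * -(2 * |t|) = -(2 * (n + 1)) * |t| by ring]
    ring
  rw [e1, hk, kap_pos hp]
  have e3 : Real.exp (-(|t| / 2)) * Real.exp (|t| / 2) = 1 := by
    rw [← Real.exp_add]; simp
  have e4 : ∑' n, c n ^ 2 * Real.exp (-(2 * |t|)) ^ n = Q (Real.exp (-(2 * |t|))) := rfl
  rw [e4] at hs2
  simp only [Finset.range_one, Finset.sum_singleton, pow_zero, c_zero] at hs2
  have e5 : (2 * Real.pi * Real.exp (-(|t| / 2)) * Q (Real.exp (-(2 * |t|))) -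
      2 * Real.pi * Real.exp (-(|t| / 2))) * Real.exp (|t| / 2)
      = 2 * Real.pi * (Q (Real.exp (-(2 * |t|))) - 1 ^ 2 * 1) := by
    linear_combination (2 * Real.pi * (Q (Real.exp (-(2 * |t|))) - 1)) * e3
  rw [e5]
  exact hs2

lemma part (N : ℕ) : ∑ n ∈ Finset.range (20 + N), c (n + 1) ^ 2 / ((n : ℝ) + 1)
    + 1 / (3 * (20 + (N : ℝ))) ≤ (4456 / 10000 : ℝ) := by
  induction N with
  | zero =>
    simp only [Finset.sum_range_succ, Finset.sum_range_zero, c_succ, c_zero]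
    norm_num
  | succ N ih =>
    rw [← add_assoc, Finset.sum_range_succ]
    refine le_trans ?_ ih
    have h := c_sq_le' (20 + N + 1)
    have h2 : c (20 + N + 1) ^ 2 / (((20 + N : ℕ) : ℝ) + 1) + 1 / (3 * (20 + ((N + 1 : ℕ) : ℝ)))
        ≤ 1 / (3 * (20 + (N : ℝ))) := by
      have hN : (0 : ℝ) ≤ N := Nat.cast_nonneg N
      have h3 : c (20 + N + 1) ^ 2 / (((20 + N : ℕ) : ℝ) + 1)
          ≤ (1 / (3 * ((20 + N + 1 : ℕ) : ℝ) + 1)) / (((20 + N : ℕ) : ℝ) + 1) :=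
        div_le_div_of_nonneg_right h (by positivity)
      refine (add_le_add_left h3 _).trans ?_
      push_cast
      rw [div_div, div_add_div _ _ (by positivity) (by positivity),
        div_le_div_iff₀ (by positivity) (by positivity)]
      nlinarith [mul_nonneg hN hN, mul_nonneg (mul_nonneg hN hN) hN]
    linarith

lemma part' (N : ℕ) :
    ∑ n ∈ Finset.range N, c (n + 1) ^ 2 / ((n : ℝ) + 1) ≤ (4456 / 10000 : ℝ) := by
  have h := part N
  have h2 : ∑ n ∈ Finset.range N, c (n + 1) ^ 2 / ((n : ℝ) + 1)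
      ≤ ∑ n ∈ Finset.range (20 + N), c (n + 1) ^ 2 / ((n : ℝ) + 1) := by
    apply Finset.sum_le_sum_of_subset_of_nonneg
    · intro x hx
      simp only [Finset.mem_range] at *
      omega
    · intro n _ _
      positivity
  have h3 : (0 : ℝ) ≤ 1 / (3 * (20 + (N : ℝ))) := by positivity
  linarith

/-- the function of the last clause -/
noncomputable def g (t : ℝ) : ℝ :=
  (kap t - 2 * Real.pi * Real.exp (-(|t| / 2))) * Real.exp (|t| / 2)

lemma ae_ne0 : ∀ᵐ t : ℝ, t ≠ 0 := (measure_eq_zero_iff_ae_notMem (s := {(0 : ℝ)})).1 (by simp)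

lemma g_nonneg : 0 ≤ᵐ[volume] g := by
  filter_upwards [ae_ne0] with t ht
  exact (F_hasSum ht).nonneg fun n => F_nonneg n t

lemma F_meas (n : ℕ) : Measurable (F n) := by
  unfold F
  fun_prop

lemma g_meas : Measurable g := by
  have := kap_meas
  unfold g
  fun_prop

lemma sum_le (N : ℕ) : ∑ n ∈ Finset.range N, ∫ t, F n t ≤ 14 / 5 := by
  simp_rw [fun n => (F_int n).2]
  have e : ∑ n ∈ Finset.range N, 2 * Real.pi * c (n + 1) ^ 2 / ((n : ℝ) + 1)
      = 2 * Real.pi * ∑ n ∈ Finset.range N, c (n + 1) ^ 2 / ((n : ℝ) + 1) := by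
    rw [Finset.mul_sum]
    exact Finset.sum_congr rfl fun n _ => by ring
  rw [e]
  have h := part' N
  have hp := Real.pi_lt_d4
  have hp0 := Real.pi_pos
  have h0 : 0 ≤ ∑ n ∈ Finset.range N, c (n + 1) ^ 2 / ((n : ℝ) + 1) :=
    Finset.sum_nonneg fun n _ => by positivity
  nlinarith

lemma lint : ∫⁻ t, ENNReal.ofReal (g t) ≤ ENNReal.ofReal (14 / 5) := by
  have h1 : ∫⁻ t, ENNReal.ofReal (g t) = ∫⁻ t, ∑' n, ENNReal.ofReal (F n t) := by
    apply lintegral_congr_ae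
    filter_upwards [ae_ne0] with t ht
    have h := F_hasSum ht
    rw [← ENNReal.ofReal_tsum_of_nonneg (fun n => F_nonneg n t) h.summable, h.tsum_eq]
    rfl
  rw [h1, lintegral_tsum fun n => ((F_meas n).ennreal_ofReal).aemeasurable]
  refine ENNReal.tsum_le_of_sum_range_le fun N => ?_
  have h2 : ∀ n, ∫⁻ t, ENNReal.ofReal (F n t) = ENNReal.ofReal (∫ t, F n t) := fun n =>
    (ofReal_integral_eq_lintegral_ofReal (F_int n).1
      (Eventually.of_forall fun t => F_nonneg n t)).symm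
  simp_rw [h2]
  rw [← ENNReal.ofReal_sum_of_nonneg fun n _ => integral_nonneg fun t => F_nonneg n t]
  exact ENNReal.ofReal_le_ofReal (sum_le N)

lemma g_int : Integrable g := by
  refine ⟨g_meas.aestronglyMeasurable, ?_⟩
  rw [hasFiniteIntegral_iff_ofReal g_nonneg]
  exact lint.trans_lt ENNReal.ofReal_lt_top

lemma g_le : ∫ t, g t ≤ 14 / 5 := by
  rw [integral_eq_lintegral_of_nonneg_ae g_nonneg g_meas.aestronglyMeasurable]
  exact ENNReal.toReal_le_of_le_ofReal (by norm_num) lint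

end KapAux

open KapAux in
/-- (Kap) -/
theorem kapfacts (hP : StmtPol) (hR : StmtRieszC) : StmtKap := by
  obtain ⟨h1, h2⟩ := riesz hR
  have h3 := hP.2 k1 h1
  have e : (fun L : ℝ => ∫ θ in (0)..(2 * Real.pi), k1 (Complex.exp (L + Complex.I * θ))) = kap :=
    rfl
  rw [e] at h3
  refine ⟨kap_meas, fun L => ⟨kap_nonneg L, kap_even L⟩, fun L hL => bounds hL, h3.1, ?_,
    g_int, g_le⟩
  have h4 : ∫ L, kap L = ∫ l : ℂ, k1 l / ‖l‖ ^ 2 := h3.2.2.symm
  rw [h4]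
  rw [value] at h2
  exact_mod_cast h2

end Pool.Agent.Lib.MP_dd244f_an.Rq
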