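import Pool.Agent.Lib.MP_dd244f_an.Rq.Stmts

/-!
Module (Kg) of the project Rq: the angular integral of the good kernel.
-/

set_option autoImplicit false

namespace Pool.Agent.Lib.MP_dd244f_an.Rq

open MeasureTheory Filter Topology Finset
open scoped ENNReal NNReal

/-! ### numerical bounds -/

/-- the Taylor polynomial of degree 6 -/
lemma kg_exp_lo (x : ℝ) (hx : 0 ≤ x) :
    1 + x + x ^ 2 / 2 + x ^ 3 / 6 + x ^ 4 / 24 + x ^ 5 / 120 + x ^ 6 / 720 ≤ Real.exp x := by
  have h := Real.sum_le_exp_of_nonneg hx 7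
  simp only [Finset.sum_range_succ, Finset.sum_range_zero, Nat.factorial] at h
  norm_num at h
  linarith

lemma kg_exp_hi (x : ℝ) (hx : 0 ≤ x) (h1 : x ≤ 1) :
    Real.exp x ≤ 1 + x + x ^ 2 / 2 + x ^ 3 / 6 + x ^ 4 / 24 + x ^ 5 / 120 + x ^ 6 / 720
      + x ^ 7 / 4410 := by
  have h := Real.exp_bound' hx h1 (n := 7) (by norm_num)
  simp only [Finset.sum_range_succ, Finset.sum_range_zero, Nat.factorial] at h
  norm_num at h
  linarith

/-- upper bound for `exp (-a)` from a lower bound of the polynomial at `a / 4` -/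
lemma kg_exp_neg (a c : ℝ) (ha : 0 ≤ a) (hc : 0 < c)
    (h : 1 ≤ c * (1 + a / 4 + (a / 4) ^ 2 / 2 + (a / 4) ^ 3 / 6 + (a / 4) ^ 4 / 24 + (a / 4) ^ 5 / 120
      + (a / 4) ^ 6 / 720) ^ 4) : Real.exp (-a) ≤ c := by
  have h1 := kg_exp_lo (a / 4) (by positivity)
  have h2 : (1 + a / 4 + (a / 4) ^ 2 / 2 + (a / 4) ^ 3 / 6 + (a / 4) ^ 4 / 24 + (a / 4) ^ 5 / 120
      + (a / 4) ^ 6 / 720) ^ 4 ≤ Real.exp (a / 4) ^ 4 := by
    apply pow_le_pow_left₀ (by positivity) h1
  have h3 : Real.exp (a / 4) ^ 4 = Real.exp a := by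
    rw [← Real.exp_nat_mul]; congr 1; push_cast; ring
  rw [h3] at h2
  have h4 : 1 ≤ c * Real.exp a := h.trans (mul_le_mul_of_nonneg_left h2 hc.le)
  rw [Real.exp_neg]
  rw [inv_eq_one_div, div_le_iff₀ (Real.exp_pos a)]
  exact h4

lemma kg_cosh_add (a b : ℝ) (h : 1 + Real.exp (-a) ≤ Real.exp ((b - a) / 2)) :
    2 * Real.cosh a + 2 ≤ Real.exp b := by
  have e1 : Real.exp b = Real.exp a * Real.exp ((b - a) / 2) ^ 2 := by
    rw [← Real.exp_nat_mul, ← Real.exp_add]; congr 1; push_cast; ring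
  have e2 : 2 * Real.cosh a + 2 = Real.exp a * (1 + Real.exp (-a)) ^ 2 := by
    rw [Real.cosh_eq]
    have : Real.exp a * Real.exp (-a) = 1 := by rw [← Real.exp_add]; simp
    have e3 : Real.exp a * (1 + Real.exp (-a)) ^ 2
      = Real.exp a + 2 * (Real.exp a * Real.exp (-a)) + (Real.exp a * Real.exp (-a)) * Real.exp (-a) := by
      ring
    rw [e3, this]; ring
  rw [e1, e2]
  apply mul_le_mul_of_nonneg_left _ (Real.exp_pos a).le
  apply pow_le_pow_left₀ (by positivity) h

lemma kg_cosh_sub (a t : ℝ) (_ha : 0 ≤ a) (h : Real.exp (-((a - t) / 2)) ≤ 1 - Real.exp (-a)) :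
    Real.exp t ≤ 2 * Real.cosh a - 2 := by
  have e1 : Real.exp t = Real.exp a * Real.exp (-((a - t) / 2)) ^ 2 := by
    rw [← Real.exp_nat_mul, ← Real.exp_add]; congr 1; push_cast; ring
  have e2 : 2 * Real.cosh a - 2 = Real.exp a * (1 - Real.exp (-a)) ^ 2 := by
    rw [Real.cosh_eq]
    have : Real.exp a * Real.exp (-a) = 1 := by rw [← Real.exp_add]; simp
    have e3 : Real.exp a * (1 - Real.exp (-a)) ^ 2
      = Real.exp a - 2 * (Real.exp a * Real.exp (-a)) + (Real.exp a * Real.exp (-a)) * Real.exp (-a) := by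
      ring
    rw [e3, this]; ring
  rw [e1, e2]
  apply mul_le_mul_of_nonneg_left _ (Real.exp_pos a).le
  apply pow_le_pow_left₀ (Real.exp_pos _).le h

/-- `2 cosh a + 2 ≤ exp b` -/
lemma kg_up (a b : ℝ) (hb : (a, b) ∈ ([(17 / 10, 20407 / 10000), (254 / 100, 26952 / 10000),
    (324 / 100, 33497 / 10000), (392 / 100, 40042 / 10000), (46 / 10, 46587 / 10000),
    (525 / 100, 53132 / 10000), (59 / 10, 59677 / 10000), (1 / 2, 14482 / 10000),
    (1, 20407 / 10000), (5 / 2, 26952 / 10000)] : List (ℝ × ℝ))) :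
    2 * Real.cosh a + 2 ≤ Real.exp b := by
  simp only [List.mem_cons, Prod.mk.injEq, List.not_mem_nil, or_false] at hb
  rcases hb with ⟨rfl, rfl⟩ | ⟨rfl, rfl⟩ | ⟨rfl, rfl⟩ | ⟨rfl, rfl⟩ | ⟨rfl, rfl⟩ | ⟨rfl, rfl⟩ | ⟨rfl, rfl⟩ |
    ⟨rfl, rfl⟩ | ⟨rfl, rfl⟩ | ⟨rfl, rfl⟩
  · apply kg_cosh_add
    have h1 := kg_exp_neg (17 / 10) (183 / 1000) (by norm_num) (by norm_num) (by norm_num)
    have h2 := kg_exp_lo ((20407 / 10000 - 17 / 10) / 2) (by norm_num)
    norm_num at h2 ⊢
    linarith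
  · apply kg_cosh_add
    have h1 := kg_exp_neg (254 / 100) (79 / 1000) (by norm_num) (by norm_num) (by norm_num)
    have h2 := kg_exp_lo ((26952 / 10000 - 254 / 100) / 2) (by norm_num)
    norm_num at h2 ⊢
    norm_num at h1
    linarith
  · apply kg_cosh_add
    have h1 := kg_exp_neg (324 / 100) (50 / 1000) (by norm_num) (by norm_num) (by norm_num)
    have h2 := kg_exp_lo ((33497 / 10000 - 324 / 100) / 2) (by norm_num)
    norm_num at h2 ⊢
    norm_num at h1
    linarith
  · apply kg_cosh_add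
    have h1 := kg_exp_neg (392 / 100) (30 / 1000) (by norm_num) (by norm_num) (by norm_num)
    have h2 := kg_exp_lo ((40042 / 10000 - 392 / 100) / 2) (by norm_num)
    norm_num at h2 ⊢
    norm_num at h1
    linarith
  · apply kg_cosh_add
    have h1 := kg_exp_neg (46 / 10) (20 / 1000) (by norm_num) (by norm_num) (by norm_num)
    have h2 := kg_exp_lo ((46587 / 10000 - 46 / 10) / 2) (by norm_num)
    norm_num at h2 ⊢
    norm_num at h1
    linarith
  · apply kg_cosh_add
    have h1 := kg_exp_neg (525 / 100) (10 / 1000) (by norm_num) (by norm_num) (by norm_num)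
    have h2 := kg_exp_lo ((53132 / 10000 - 525 / 100) / 2) (by norm_num)
    norm_num at h2 ⊢
    norm_num at h1
    linarith
  · apply kg_cosh_add
    have h1 := kg_exp_neg (59 / 10) (10 / 1000) (by norm_num) (by norm_num) (by norm_num)
    have h2 := kg_exp_lo ((59677 / 10000 - 59 / 10) / 2) (by norm_num)
    norm_num at h2 ⊢
    norm_num at h1
    linarith
  · apply kg_cosh_add
    have h1 := kg_exp_neg (1 / 2) (606535 / 1000000) (by norm_num) (by norm_num) (by norm_num)
    have h2 := kg_exp_lo ((14482 / 10000 - 1 / 2) / 2) (by norm_num)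
    norm_num at h2 ⊢
    norm_num at h1
    linarith
  · apply kg_cosh_add
    have h1 := kg_exp_neg 1 (37 / 100) (by norm_num) (by norm_num) (by norm_num)
    have h2 := kg_exp_lo ((20407 / 10000 - 1) / 2) (by norm_num)
    norm_num at h2 ⊢
    linarith
  · apply kg_cosh_add
    have h1 := kg_exp_neg (5 / 2) (85 / 1000) (by norm_num) (by norm_num) (by norm_num)
    have h2 := kg_exp_lo ((26952 / 10000 - 5 / 2) / 2) (by norm_num)
    norm_num at h2 ⊢
    norm_num at h1
    linarith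

/-- `exp t ≤ 2 cosh a - 2` -/
lemma kg_lo (a t : ℝ) (hb : (a, t) ∈ ([(5 / 2, 20408 / 10000), (345 / 100, 33498 / 10000),
    (404 / 100, 40043 / 10000), (468 / 100, 46588 / 10000), (533 / 100, 53133 / 10000),
    (598 / 100, 59678 / 10000), (663 / 100, 66223 / 10000)] : List (ℝ × ℝ))) :
    Real.exp t ≤ 2 * Real.cosh a - 2 := by
  simp only [List.mem_cons, Prod.mk.injEq, List.not_mem_nil, or_false] at hb
  rcases hb with ⟨rfl, rfl⟩ | ⟨rfl, rfl⟩ | ⟨rfl, rfl⟩ | ⟨rfl, rfl⟩ | ⟨rfl, rfl⟩ | ⟨rfl, rfl⟩ | ⟨rfl, rfl⟩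
  · apply kg_cosh_sub _ _ (by norm_num)
    have h1 := kg_exp_neg (5 / 2) (10 / 100) (by norm_num) (by norm_num) (by norm_num)
    have h2 := kg_exp_neg ((5 / 2 - 20408 / 10000) / 2) (85 / 100) (by norm_num) (by norm_num)
      (by norm_num)
    linarith
  · apply kg_cosh_sub _ _ (by norm_num)
    have h1 := kg_exp_neg (345 / 100) (4 / 100) (by norm_num) (by norm_num) (by norm_num)
    have h2 := kg_exp_neg ((345 / 100 - 33498 / 10000) / 2) (96 / 100) (by norm_num) (by norm_num)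
      (by norm_num)
    linarith
  · apply kg_cosh_sub _ _ (by norm_num)
    have h1 := kg_exp_neg (404 / 100) (1765 / 100000) (by norm_num) (by norm_num) (by norm_num)
    have h2 := kg_exp_neg ((404 / 100 - 40043 / 10000) / 2) (98235 / 100000) (by norm_num) (by norm_num)
      (by norm_num)
    linarith
  · apply kg_cosh_sub _ _ (by norm_num)
    have h1 := kg_exp_neg (468 / 100) (10 / 1000) (by norm_num) (by norm_num) (by norm_num)
    have h2 := kg_exp_neg ((468 / 100 - 46588 / 10000) / 2) (990 / 1000) (by norm_num) (by norm_num)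
      (by norm_num)
    linarith
  · apply kg_cosh_sub _ _ (by norm_num)
    have h1 := kg_exp_neg (533 / 100) (7 / 1000) (by norm_num) (by norm_num) (by norm_num)
    have h2 := kg_exp_neg ((533 / 100 - 53133 / 10000) / 2) (993 / 1000) (by norm_num) (by norm_num)
      (by norm_num)
    linarith
  · apply kg_cosh_sub _ _ (by norm_num)
    have h1 := kg_exp_neg (598 / 100) (5 / 1000) (by norm_num) (by norm_num) (by norm_num)
    have h2 := kg_exp_neg ((598 / 100 - 59678 / 10000) / 2) (995 / 1000) (by norm_num) (by norm_num)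
      (by norm_num)
    linarith
  · apply kg_cosh_sub _ _ (by norm_num)
    have h1 := kg_exp_neg (663 / 100) (3 / 1000) (by norm_num) (by norm_num) (by norm_num)
    have h2 := kg_exp_neg ((663 / 100 - 66223 / 10000) / 2) (997 / 1000) (by norm_num) (by norm_num)
      (by norm_num)
    linarith

lemma kg_cosh_quad (x : ℝ) : 1 + x ^ 2 / 2 ≤ Real.cosh x := by
  have h := Real.cosh_two_mul (x / 2)
  have h1 : 2 * (x / 2) = x := by ring
  rw [h1, Real.cosh_sq] at h
  have h2 : (x / 2) ^ 2 ≤ Real.sinh (x / 2) ^ 2 := by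
    rw [sq_le_sq]
    have h3 : |x / 2| ≤ Real.sinh |x / 2| := Real.self_le_sinh_iff.2 (abs_nonneg _)
    have h4 : |Real.sinh (x / 2)| = Real.sinh |x / 2| := Real.abs_sinh _
    rw [h4]; exact h3
  nlinarith

/-! ### the kernel -/

/-- the denominator -/
noncomputable def kgD (L θ : ℝ) : ℝ := 2 * Real.cosh L + 2 * Real.cos θ

lemma kgD_nonneg (L θ : ℝ) : 0 ≤ kgD L θ := by
  have h1 := Real.one_le_cosh L
  have h2 := Real.neg_one_le_cos θ
  unfold kgD; linarith

lemma kgD_neg (L θ : ℝ) : kgD (-L) θ = kgD L θ := by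
  unfold kgD; rw [Real.cosh_neg]

lemma kg_Kl (L θ : ℝ) : Kl (Complex.exp (L + Complex.I * θ)) = Kt (-Real.log (kgD L θ)) := by
  unfold Kl kgD
  have h1 : ‖Complex.exp (L + Complex.I * θ)‖ = Real.exp L := by
    rw [Complex.norm_exp]; simp
  have h2 : ‖1 + Complex.exp (L + Complex.I * θ)‖ ^ 2
      = Real.exp L * (2 * Real.cosh L + 2 * Real.cos θ) := by
    rw [← Complex.normSq_eq_norm_sq, Complex.normSq_apply]
    have hre : (1 + Complex.exp (L + Complex.I * θ)).re = 1 + Real.exp L * Real.cos θ := by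
      simp [Complex.exp_re]
    have him : (1 + Complex.exp (L + Complex.I * θ)).im = Real.exp L * Real.sin θ := by
      simp [Complex.exp_im]
    rw [hre, him, Real.cosh_eq]
    have e1 : Real.exp L * Real.exp (-L) = 1 := by rw [← Real.exp_add]; simp
    have e2 := Real.sin_sq_add_cos_sq θ
    have e3 : (1 + Real.exp L * Real.cos θ) * (1 + Real.exp L * Real.cos θ)
        + Real.exp L * Real.sin θ * (Real.exp L * Real.sin θ)
        = 1 + 2 * Real.exp L * Real.cos θ
          + Real.exp L ^ 2 * (Real.sin θ ^ 2 + Real.cos θ ^ 2) := by ring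
    rw [e3, e2]
    have e4 : Real.exp L * (2 * ((Real.exp L + Real.exp (-L)) / 2) + 2 * Real.cos θ)
        = Real.exp L ^ 2 + Real.exp L * Real.exp (-L) + 2 * Real.exp L * Real.cos θ := by ring
    rw [e4, e1]; ring
  rw [h1, h2]
  have h3 : Real.exp L / (Real.exp L * (2 * Real.cosh L + 2 * Real.cos θ))
      = (2 * Real.cosh L + 2 * Real.cos θ)⁻¹ := by
    rw [div_mul_eq_div_div, div_self (Real.exp_pos L).ne', one_div]
  rw [h3, Real.log_inv]

/-- lower bound of `-log D` -/
lemma kg_tau_ge (a b L θ : ℝ) (ha : 0 ≤ a) (hb : 0 ≤ b) (h : 2 * Real.cosh a + 2 ≤ Real.exp b)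
    (hL : |L| ≤ a) : -b ≤ -Real.log (kgD L θ) := by
  have h1 : Real.cosh L ≤ Real.cosh a := by
    rw [Real.cosh_le_cosh, abs_of_nonneg ha]; exact hL
  have h2 : kgD L θ ≤ Real.exp b := by
    have := Real.cos_le_one θ
    unfold kgD; linarith
  rcases eq_or_lt_of_le (kgD_nonneg L θ) with h3 | h3
  · rw [← h3, Real.log_zero]; linarith
  · have h4 : Real.log (kgD L θ) ≤ b := by
      rw [Real.log_le_iff_le_exp h3]; exact h2
    linarith

/-- upper bound of `-log D` -/
lemma kg_tau_le (t L θ : ℝ) (h : Real.exp t ≤ kgD L θ) : -Real.log (kgD L θ) ≤ -t := by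
  have h1 : t ≤ Real.log (kgD L θ) := by
    rw [Real.le_log_iff_exp_le (lt_of_lt_of_le (Real.exp_pos _) h)]; exact h
  linarith

lemma kg_D_ge (a t L θ : ℝ) (ha : 0 ≤ a) (h : Real.exp t ≤ 2 * Real.cosh a - 2) (hL : a ≤ |L|) :
    Real.exp t ≤ kgD L θ := by
  have h1 : Real.cosh a ≤ Real.cosh L := by
    rw [Real.cosh_le_cosh, abs_of_nonneg ha]; exact hL
  have := Real.neg_one_le_cos θ
  unfold kgD; linarith

lemma kg_39 : Real.exp (-(18861 / 10000)) ≤ 2 * Real.cosh (39 / 100) - 2 := by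
  have h1 := kg_cosh_quad (39 / 100)
  have h2 := kg_exp_neg (18861 / 10000) (1521 / 10000) (by norm_num) (by norm_num) (by norm_num)
  norm_num at h1
  linarith

lemma kg_kbar (hK : StmtKt) (L θ : ℝ) : kbar L ≤ Kt (-Real.log (kgD L θ)) := by
  obtain ⟨hc, hpos, hu1, hu2, hlow, hint⟩ := hK
  unfold kbar
  by_cases h0 : |L| < 39 / 100
  · rw [if_pos h0]; exact (hpos _).le
  rw [if_neg h0]
  push Not at h0
  have hle : -Real.log (kgD L θ) ≤ 18861 / 10000 := by
    have := kg_tau_le (-(18861 / 10000)) L θ (kg_D_ge (39 / 100) _ L θ (by norm_num) kg_39 h0)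
    linarith
  by_cases h1 : |L| ≤ 17 / 10
  · rw [if_pos h1]
    have hge := kg_tau_ge (17 / 10) (20407 / 10000) L θ (by norm_num) (by norm_num)
      (kg_up _ _ (by simp)) h1
    exact hint _ _ _ (show ((-20407 / 10000 : ℝ), (18861 / 10000 : ℝ), (107 / 10 : ℝ)) ∈ _ by simp)
      _ (by linarith) hle
  rw [if_neg h1]
  by_cases h2 : |L| ≤ 254 / 100
  · rw [if_pos h2]
    have hge := kg_tau_ge (254 / 100) (26952 / 10000) L θ (by norm_num) (by norm_num)
      (kg_up _ _ (by simp)) h2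
    exact hint _ _ _ (show ((-26952 / 10000 : ℝ), (18861 / 10000 : ℝ), (88 / 10 : ℝ)) ∈ _ by simp)
      _ (by linarith) hle
  rw [if_neg h2]
  by_cases h3 : |L| ≤ 324 / 100
  · rw [if_pos h3]
    have hge := kg_tau_ge (324 / 100) (33497 / 10000) L θ (by norm_num) (by norm_num)
      (kg_up _ _ (by simp)) h3
    exact hint _ _ _ (show ((-33497 / 10000 : ℝ), (18861 / 10000 : ℝ), (615 / 100 : ℝ)) ∈ _ by simp)
      _ (by linarith) hle
  rw [if_neg h3]
  by_cases h4 : |L| ≤ 392 / 100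
  · rw [if_pos h4]
    have hge := kg_tau_ge (392 / 100) (40042 / 10000) L θ (by norm_num) (by norm_num)
      (kg_up _ _ (by simp)) h4
    exact hint _ _ _ (show ((-40042 / 10000 : ℝ), (18861 / 10000 : ℝ), (4 : ℝ)) ∈ _ by simp)
      _ (by linarith) hle
  rw [if_neg h4]
  by_cases h5 : |L| ≤ 46 / 10
  · rw [if_pos h5]
    have hge := kg_tau_ge (46 / 10) (46587 / 10000) L θ (by norm_num) (by norm_num)
      (kg_up _ _ (by simp)) h5
    exact hint _ _ _ (show ((-46587 / 10000 : ℝ), (18861 / 10000 : ℝ), (247 / 100 : ℝ)) ∈ _ by simp)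
      _ (by linarith) hle
  rw [if_neg h5]
  by_cases h6 : |L| ≤ 525 / 100
  · rw [if_pos h6]
    have hge := kg_tau_ge (525 / 100) (53132 / 10000) L θ (by norm_num) (by norm_num)
      (kg_up _ _ (by simp)) h6
    exact hint _ _ _ (show ((-53132 / 10000 : ℝ), (18861 / 10000 : ℝ), (145 / 100 : ℝ)) ∈ _ by simp)
      _ (by linarith) hle
  rw [if_neg h6]
  by_cases h7 : |L| ≤ 59 / 10
  · rw [if_pos h7]
    have hge := kg_tau_ge (59 / 10) (59677 / 10000) L θ (by norm_num) (by norm_num)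
      (kg_up _ _ (by simp)) h7
    exact hint _ _ _ (show ((-59677 / 10000 : ℝ), (18861 / 10000 : ℝ), (82 / 100 : ℝ)) ∈ _ by simp)
      _ (by linarith) hle
  rw [if_neg h7]
  exact (hpos _).le

/-! ### measurability and size -/

lemma kg_meas2 (hK : StmtKt) :
    Measurable (fun p : ℝ × ℝ => Kt (-Real.log (kgD p.1 p.2))) := by
  apply hK.1.measurable.comp
  apply Measurable.neg
  apply Real.measurable_log.comp
  unfold kgD
  have h1 : Measurable (fun p : ℝ × ℝ => Real.cosh p.1) :=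
    (Real.continuous_cosh.comp continuous_fst).measurable
  have h2 : Measurable (fun p : ℝ × ℝ => Real.cos p.2) :=
    (Real.continuous_cos.comp continuous_snd).measurable
  exact (h1.const_mul 2).add (h2.const_mul 2)

lemma kg_meas1 (hK : StmtKt) (L : ℝ) : Measurable (fun θ : ℝ => Kt (-Real.log (kgD L θ))) := by
  apply hK.1.measurable.comp
  apply Measurable.neg
  apply Real.measurable_log.comp
  unfold kgD
  exact (Real.measurable_cos.const_mul 2).const_add _

lemma kg_bound (hK : StmtKt) : ∃ C : ℝ, 0 < C ∧ ∀ L θ : ℝ,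
    Kt (-Real.log (kgD L θ)) ≤ C * Real.exp (-|L|) := by
  obtain ⟨hc, hpos, hu1, hu2, hlow, hint⟩ := hK
  set q : ℝ := (1 - Real.exp (-1)) ^ 2 with hq
  have hq0 : 0 < q := by
    have : Real.exp (-1) < 1 := by rw [Real.exp_lt_one_iff]; norm_num
    have h2 : 0 < 1 - Real.exp (-1) := by linarith
    positivity
  set C1 : ℝ := 150 * Real.exp (20407 / 20000) * Real.exp 1 with hC1
  set C2 : ℝ := 4 * Real.pi ^ 4 / q with hC2
  have hC1p : 0 < C1 := by positivity
  have hC2p : 0 < C2 := by positivity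
  refine ⟨max C1 C2, lt_max_of_lt_left hC1p, fun L θ => ?_⟩
  rcases le_total |L| 1 with hL | hL
  · have hge := kg_tau_ge 1 (20407 / 10000) L θ (by norm_num) (by norm_num)
      (kg_up _ _ (by simp)) hL
    have h1 := hu2 (-Real.log (kgD L θ))
    have h2 : Real.exp (-(-Real.log (kgD L θ) / 2)) ≤ Real.exp (20407 / 20000) := by
      rw [Real.exp_le_exp]; linarith
    have h3 : 1 ≤ Real.exp 1 * Real.exp (-|L|) := by
      rw [← Real.exp_add]; rw [Real.one_le_exp_iff]; linarith
    calc Kt (-Real.log (kgD L θ)) ≤ 150 * Real.exp (-(-Real.log (kgD L θ) / 2)) := h1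
      _ ≤ 150 * Real.exp (20407 / 20000) := by linarith
      _ ≤ 150 * Real.exp (20407 / 20000) * (Real.exp 1 * Real.exp (-|L|)) :=
          le_mul_of_one_le_right (by positivity) h3
      _ = C1 * Real.exp (-|L|) := by rw [hC1]; ring
      _ ≤ max C1 C2 * Real.exp (-|L|) := by
          apply mul_le_mul_of_nonneg_right (le_max_left _ _) (Real.exp_pos _).le
  · have hD : q * Real.exp |L| ≤ kgD L θ := by
      have e1 : Real.cosh L = Real.cosh |L| := (Real.cosh_abs L).symm
      have e2 : 2 * Real.cosh |L| - 2 = Real.exp |L| * (1 - Real.exp (-|L|)) ^ 2 := by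
        rw [Real.cosh_eq]
        have : Real.exp |L| * Real.exp (-|L|) = 1 := by rw [← Real.exp_add]; simp
        have e3 : Real.exp |L| * (1 - Real.exp (-|L|)) ^ 2 = Real.exp |L|
          - 2 * (Real.exp |L| * Real.exp (-|L|))
          + (Real.exp |L| * Real.exp (-|L|)) * Real.exp (-|L|) := by ring
        rw [e3, this]; ring
      have e4 : q ≤ (1 - Real.exp (-|L|)) ^ 2 := by
        apply pow_le_pow_left₀
        · have : Real.exp (-1) ≤ 1 := by rw [Real.exp_le_one_iff]; norm_num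
          linarith
        · have : Real.exp (-|L|) ≤ Real.exp (-1) := by rw [Real.exp_le_exp]; linarith
          linarith
      have e5 := Real.neg_one_le_cos θ
      have e6 : q * Real.exp |L| ≤ 2 * Real.cosh |L| - 2 := by
        rw [e2, mul_comm]
        exact mul_le_mul_of_nonneg_left e4 (Real.exp_pos _).le
      unfold kgD
      rw [e1]; linarith
    have hDpos : 0 < kgD L θ := lt_of_lt_of_le (by positivity) hD
    have h1 := hu1 (-Real.log (kgD L θ))
    have h2 : Real.exp (-Real.log (kgD L θ)) = (kgD L θ)⁻¹ := by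
      rw [Real.exp_neg, Real.exp_log hDpos]
    rw [h2] at h1
    have h3 : (kgD L θ)⁻¹ ≤ (q * Real.exp |L|)⁻¹ := by
      apply inv_anti₀ (by positivity) hD
    calc Kt (-Real.log (kgD L θ)) ≤ 4 * Real.pi ^ 4 * (kgD L θ)⁻¹ := h1
      _ ≤ 4 * Real.pi ^ 4 * (q * Real.exp |L|)⁻¹ :=
          mul_le_mul_of_nonneg_left h3 (by positivity)
      _ = C2 * Real.exp (-|L|) := by
          rw [hC2, Real.exp_neg, mul_inv]; ring
      _ ≤ max C1 C2 * Real.exp (-|L|) := by
          apply mul_le_mul_of_nonneg_right (le_max_right _ _) (Real.exp_pos _).le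

lemma kg_ii (hK : StmtKt) (L a b : ℝ) :
    IntervalIntegrable (fun θ : ℝ => Kt (-Real.log (kgD L θ))) volume a b := by
  obtain ⟨C, hC, hb⟩ := kg_bound hK
  have h0 : IntervalIntegrable (fun _ : ℝ => C * Real.exp (-|L|)) volume a b :=
    intervalIntegrable_const
  refine h0.mono_fun (kg_meas1 hK L).aestronglyMeasurable ?_
  filter_upwards with θ
  rw [Real.norm_of_nonneg (hK.2.1 _).le, Real.norm_of_nonneg (by positivity)]
  exact hb L θ

lemma kg_eq (L : ℝ) : kg L = ∫ θ in (0)..(2 * Real.pi), Kt (-Real.log (kgD L θ)) := rfl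

lemma kg_measurable (hK : StmtKt) : Measurable kg := by
  have h : kg = fun L => ∫ θ in Set.Ioc 0 (2 * Real.pi), Kt (-Real.log (kgD L θ)) := by
    funext L
    rw [kg_eq, intervalIntegral.integral_of_le (by positivity)]
  rw [h]
  have h1 : StronglyMeasurable (fun p : ℝ × ℝ => Kt (-Real.log (kgD p.1 p.2))) :=
    (kg_meas2 hK).stronglyMeasurable
  exact (h1.integral_prod_right' (ν := volume.restrict (Set.Ioc 0 (2 * Real.pi)))).measurable

lemma kg_exp_int : Integrable (fun L : ℝ => Real.exp (-|L|)) := by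
  have h0 : Integrable (fun L : ℝ => 2 * (1 + L ^ 2)⁻¹) := integrable_inv_one_add_sq.const_mul 2
  refine h0.mono' (by fun_prop) ?_
  filter_upwards with L
  rw [Real.norm_of_nonneg (Real.exp_pos _).le, Real.exp_neg]
  have h1 := kg_exp_lo |L| (abs_nonneg L)
  have h2 : (1 + L ^ 2) / 2 ≤ Real.exp |L| := by
    have : |L| ^ 2 = L ^ 2 := sq_abs L
    have h3 : 0 ≤ |L| := abs_nonneg L
    have h4 : 0 ≤ |L| ^ 3 := by positivity
    have h5 : 0 ≤ |L| ^ 4 := by positivity
    have h6 : 0 ≤ |L| ^ 5 := by positivity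
    have h7 : 0 ≤ |L| ^ 6 := by positivity
    rw [this] at h1
    linarith
  have h3 : (Real.exp |L|)⁻¹ ≤ ((1 + L ^ 2) / 2)⁻¹ := inv_anti₀ (by positivity) h2
  calc (Real.exp |L|)⁻¹ ≤ ((1 + L ^ 2) / 2)⁻¹ := h3
    _ = 2 * (1 + L ^ 2)⁻¹ := by rw [inv_div, div_eq_mul_inv]

lemma kg_Kl_meas (hK : StmtKt) : Measurable Kl := by
  unfold Kl
  apply hK.1.measurable.comp
  apply Real.measurable_log.comp
  fun_prop

lemma kg_Kl_pos (hK : StmtKt) (l : ℂ) : 0 < Kl l := hK.2.1 _

lemma kg_Kl_int (hK : StmtKt) (hP : StmtPol) : Integrable (fun l : ℂ => Kl l / ‖l‖ ^ 2) := by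
  refine ⟨((kg_Kl_meas hK).div (by fun_prop)).aestronglyMeasurable, ?_⟩
  obtain ⟨C, hC, hb⟩ := kg_bound hK
  have h1 : ∫⁻ l : ℂ, ‖Kl l / ‖l‖ ^ 2‖ₑ ≤ ∫⁻ l : ℂ, ENNReal.ofReal (Kl l) / ‖l‖ₑ ^ 2 := by
    apply lintegral_mono
    intro l
    by_cases hl : l = 0
    · subst hl; simp
    · have hn : 0 < ‖l‖ := norm_pos_iff.2 hl
      have e1 : ‖Kl l / ‖l‖ ^ 2‖ₑ = ENNReal.ofReal (Kl l / ‖l‖ ^ 2) :=
        Real.enorm_of_nonneg (div_nonneg (kg_Kl_pos hK l).le (by positivity))
      simp only [e1]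
      rw [ENNReal.ofReal_div_of_pos (by positivity), ENNReal.ofReal_pow (norm_nonneg _),
        ofReal_norm]
  have h2 := hP.1 (fun l => ENNReal.ofReal (Kl l)) (kg_Kl_meas hK).ennreal_ofReal
  have h3 : ∫⁻ L : ℝ, ∫⁻ θ in Set.Ioc 0 (2 * Real.pi),
      ENNReal.ofReal (Kl (Complex.exp (L + Complex.I * θ)))
      ≤ ∫⁻ L : ℝ, ENNReal.ofReal (2 * Real.pi * (C * Real.exp (-|L|))) := by
    apply lintegral_mono
    intro L
    calc ∫⁻ θ in Set.Ioc 0 (2 * Real.pi), ENNReal.ofReal (Kl (Complex.exp (L + Complex.I * θ)))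
        ≤ ∫⁻ θ in Set.Ioc 0 (2 * Real.pi), ENNReal.ofReal (C * Real.exp (-|L|)) := by
          apply lintegral_mono
          intro θ
          apply ENNReal.ofReal_le_ofReal
          rw [kg_Kl]; exact hb L θ
      _ = ENNReal.ofReal (2 * Real.pi * (C * Real.exp (-|L|))) := by
          rw [setLIntegral_const, Real.volume_Ioc, sub_zero, mul_comm,
            ← ENNReal.ofReal_mul (by positivity)]
  have h4 : ∫⁻ L : ℝ, ENNReal.ofReal (2 * Real.pi * (C * Real.exp (-|L|))) < ⊤ := by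
    have := (kg_exp_int.const_mul C).const_mul (2 * Real.pi)
    exact this.lintegral_lt_top
  show ∫⁻ l : ℂ, ‖Kl l / ‖l‖ ^ 2‖ₑ < ⊤
  calc ∫⁻ l : ℂ, ‖Kl l / ‖l‖ ^ 2‖ₑ ≤ ∫⁻ l : ℂ, ENNReal.ofReal (Kl l) / ‖l‖ₑ ^ 2 := h1
    _ = _ := h2
    _ ≤ _ := h3
    _ < ⊤ := h4

lemma kg_int (hK : StmtKt) (hP : StmtPol) : Integrable kg := by
  have h := (hP.2 Kl (kg_Kl_int hK hP)).1
  have e : (fun L : ℝ => ∫ θ in (0)..(2 * Real.pi), Kl (Complex.exp (L + Complex.I * θ))) = kg := by
    funext L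
    rw [kg_eq]
    simp only [kg_Kl]
  rw [← e]; exact h

/-! ### lower bounds for the angular integral -/

lemma kg_split (hK : StmtKt) (L c m : ℝ) (hc : 0 ≤ c) (hcp : c ≤ 3)
    (h : ∀ θ, |θ| ≤ c → m ≤ Kt (-Real.log (kgD L θ))) : 2 * c * m ≤ kg L := by
  have hpi := Real.pi_gt_three
  have hii := kg_ii hK L
  have e1 : kg L = (∫ θ in (0)..c, Kt (-Real.log (kgD L θ)))
      + (∫ θ in c..(2 * Real.pi - c), Kt (-Real.log (kgD L θ)))
      + ∫ θ in (2 * Real.pi - c)..(2 * Real.pi), Kt (-Real.log (kgD L θ)) := by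
    rw [kg_eq, intervalIntegral.integral_add_adjacent_intervals (hii _ _) (hii _ _),
      intervalIntegral.integral_add_adjacent_intervals (hii _ _) (hii _ _)]
  have h1 : c * m ≤ ∫ θ in (0)..c, Kt (-Real.log (kgD L θ)) := by
    have : ∫ θ in (0)..c, m ≤ ∫ θ in (0)..c, Kt (-Real.log (kgD L θ)) := by
      apply intervalIntegral.integral_mono_on hc intervalIntegrable_const (hii _ _)
      intro θ hθ
      exact h θ (by rw [abs_of_nonneg hθ.1]; exact hθ.2)
    simpa using this
  have h2 : 0 ≤ ∫ θ in c..(2 * Real.pi - c), Kt (-Real.log (kgD L θ)) := by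
    apply intervalIntegral.integral_nonneg (by linarith)
    intro θ _
    exact (hK.2.1 _).le
  have h3 : c * m ≤ ∫ θ in (2 * Real.pi - c)..(2 * Real.pi), Kt (-Real.log (kgD L θ)) := by
    have : ∫ θ in (2 * Real.pi - c)..(2 * Real.pi), m
        ≤ ∫ θ in (2 * Real.pi - c)..(2 * Real.pi), Kt (-Real.log (kgD L θ)) := by
      apply intervalIntegral.integral_mono_on (by linarith) intervalIntegrable_const (hii _ _)
      intro θ hθ
      have := h (θ - 2 * Real.pi) (by
        rw [abs_le]; constructor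
        · linarith [hθ.1]
        · linarith [hθ.2])
      have e : kgD L (θ - 2 * Real.pi) = kgD L θ := by
        unfold kgD; rw [Real.cos_sub_two_pi]
      rw [e] at this
      exact this
    simpa using this
  rw [e1]; linarith

/-- an upper bound of the cosine by three halvings -/
lemma kg_cos_hi (x : ℝ) (h0 : 0 ≤ x) (h1 : x ≤ 1) :
    Real.cos x ≤ 2 * (2 * (1 - (x / 4) ^ 2 / 2 + (x / 4) ^ 4 * (5 / 96)) ^ 2 - 1) ^ 2 - 1 := by
  have hb := Real.cos_bound (x := x / 4) (by rw [abs_of_nonneg (by positivity)]; linarith)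
  rw [abs_le] at hb
  have h2 : Real.cos (x / 4) ≤ 1 - (x / 4) ^ 2 / 2 + (x / 4) ^ 4 * (5 / 96) := by
    have e : |x / 4| ^ 4 = (x / 4) ^ 4 := by
      rw [abs_of_nonneg (by positivity)]
    rw [e] at hb
    linarith [hb.2]
  have hpi := Real.pi_gt_three
  have h3 : 0 ≤ Real.cos (x / 4) := Real.cos_nonneg_of_mem_Icc ⟨by linarith, by linarith⟩
  have h4 : Real.cos (x / 2) = 2 * Real.cos (x / 4) ^ 2 - 1 := by
    rw [← Real.cos_two_mul]; congr 1; ring
  have h5 : 0 ≤ Real.cos (x / 2) := Real.cos_nonneg_of_mem_Icc ⟨by linarith, by linarith⟩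
  have h6 : Real.cos x = 2 * Real.cos (x / 2) ^ 2 - 1 := by
    rw [← Real.cos_two_mul]; congr 1; ring
  have h7 : Real.cos (x / 2) ≤ 2 * (1 - (x / 4) ^ 2 / 2 + (x / 4) ^ 4 * (5 / 96)) ^ 2 - 1 := by
    rw [h4]
    have := pow_le_pow_left₀ h3 h2 2
    linarith
  rw [h6]
  have := pow_le_pow_left₀ h5 h7 2
  linarith

/-- lower bound of the cosine on `[-c, c]` -/
lemma kg_cos_lo (θ c m : ℝ) (hc : c ≤ 3) (h : |θ| ≤ c) (hc2 : 22 / 10 ≤ c)
    (hm : 2 * (2 * (1 - ((31415 / 10000 - c) / 4) ^ 2 / 2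
      + ((31415 / 10000 - c) / 4) ^ 4 * (5 / 96)) ^ 2 - 1) ^ 2 - 1 ≤ m) : -m ≤ Real.cos θ := by
  have hp1 : (31415 / 10000 : ℝ) < Real.pi := by
    have := Real.pi_gt_d4; norm_num at this ⊢; exact this
  have h1 : Real.cos c ≤ Real.cos θ := by
    rw [← Real.cos_abs θ]
    exact Real.cos_le_cos_of_nonneg_of_le_pi (abs_nonneg _) (by linarith) h
  have h2 : Real.cos c = -Real.cos (Real.pi - c) := by rw [Real.cos_pi_sub]; ring
  have h3 : Real.cos (Real.pi - c) ≤ Real.cos (31415 / 10000 - c) :=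
    Real.cos_le_cos_of_nonneg_of_le_pi (by linarith) (by linarith) (by linarith)
  have h4 := kg_cos_hi (31415 / 10000 - c) (by linarith) (by linarith)
  linarith

lemma kg_exp_1231 : Real.exp (-(12316 / 10000)) ≤ 29183 / 100000 :=
  kg_exp_neg (12316 / 10000) _ (by norm_num) (by norm_num) (by norm_num)

lemma kg_682 (hK : StmtKt) (L : ℝ) (h0 : 0 ≤ L) (h1 : L ≤ 1) : 682 / 10 ≤ kg L := by
  have hint := hK.2.2.2.2.2
  have hcoshL := Real.one_le_cosh L
  rcases le_total L (1 / 2) with hL | hL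
  · have h := kg_split hK L (2594 / 1000) (1315 / 100) (by norm_num) (by norm_num) (by
      intro θ hθ
      have hge := kg_tau_ge (1 / 2) (14482 / 10000) L θ (by norm_num) (by norm_num)
        (kg_up _ _ (by simp)) (by rw [abs_of_nonneg h0]; exact hL)
      have hcos := kg_cos_lo θ (2594 / 1000) (8539 / 10000) (by norm_num) hθ (by norm_num)
        (by norm_num)
      have hD : Real.exp (-(12316 / 10000)) ≤ kgD L θ := by
        have := kg_exp_1231
        unfold kgD; linarith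
      have hle := kg_tau_le _ L θ hD
      exact hint _ _ _ (show ((-14482 / 10000 : ℝ), (12316 / 10000 : ℝ), (1315 / 100 : ℝ)) ∈ _ by simp)
        _ (by linarith) (by linarith))
    linarith
  · have h := kg_split hK L (294 / 100) (116 / 10) (by norm_num) (by norm_num) (by
      intro θ hθ
      have hge := kg_tau_ge 1 (20407 / 10000) L θ (by norm_num) (by norm_num)
        (kg_up _ _ (by simp)) (by rw [abs_of_nonneg h0]; exact h1)
      have hcos := kg_cos_lo θ (294 / 100) (9799 / 10000) (by norm_num) hθ (by norm_num)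
        (by norm_num)
      have hcosh : 1127 / 1000 ≤ Real.cosh L := by
        have e1 : Real.cosh (1 / 2) ≤ Real.cosh L := by
          rw [Real.cosh_le_cosh, abs_of_nonneg (by norm_num), abs_of_nonneg h0]; exact hL
        have e2 : 1127 / 1000 ≤ Real.cosh (1 / 2) := by
          rw [Real.cosh_eq]
          have e3 := kg_exp_lo (1 / 2) (by norm_num)
          have e4 : 606 / 1000 ≤ Real.exp (-(1 / 2)) := by
            have e5 := kg_exp_hi (1 / 2) (by norm_num) (by norm_num)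
            rw [Real.exp_neg]
            rw [inv_eq_one_div, le_div_iff₀ (Real.exp_pos _)]
            norm_num at e5 ⊢
            linarith
          norm_num at e3 e4 ⊢
          linarith
        linarith
      have hD : Real.exp (-(12316 / 10000)) ≤ kgD L θ := by
        have := kg_exp_1231
        unfold kgD; linarith
      have hle := kg_tau_le _ L θ hD
      exact hint _ _ _ (show ((-20407 / 10000 : ℝ), (12316 / 10000 : ℝ), (116 / 10 : ℝ)) ∈ _ by simp)
        _ (by linarith) (by linarith))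
    linarith

lemma kg_552 (hK : StmtKt) (L : ℝ) (h0 : 1 ≤ L) (h1 : L ≤ 5 / 2) : 552 / 10 ≤ kg L := by
  have hint := hK.2.2.2.2.2
  have hp1 : (31415 / 10000 : ℝ) < Real.pi := by
    have := Real.pi_gt_d4; norm_num at this ⊢; exact this
  have habs : |L| = L := abs_of_nonneg (by linarith)
  have h : ∀ θ, 88 / 10 ≤ Kt (-Real.log (kgD L θ)) := by
    intro θ
    have hge := kg_tau_ge (5 / 2) (26952 / 10000) L θ (by norm_num) (by norm_num)
      (kg_up _ _ (by simp)) (by rw [habs]; exact h1)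
    have hle := kg_tau_le (-(18861 / 10000)) L θ (kg_D_ge (39 / 100) _ L θ (by norm_num) kg_39
      (by rw [habs]; linarith))
    exact hint _ _ _ (show ((-26952 / 10000 : ℝ), (18861 / 10000 : ℝ), (88 / 10 : ℝ)) ∈ _ by simp)
      _ (by linarith) (by linarith)
  have h2 : ∫ θ in (0)..(2 * Real.pi), (88 / 10 : ℝ) ≤ kg L := by
    rw [kg_eq]
    apply intervalIntegral.integral_mono_on (by positivity) intervalIntegrable_const (kg_ii hK L _ _)
    intro θ _
    exact h θ
  rw [intervalIntegral.integral_const, smul_eq_mul] at h2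
  linarith

lemma kg_far (hK : StmtKt) (a b t L : ℝ) (ha : 0 < a) (hb : 0 ≤ b)
    (hmem : ∀ τ ≤ -t, b * Real.exp τ ≤ Kt τ)
    (h : Real.exp t ≤ 2 * Real.cosh a - 2) (hL : a ≤ L) : b * Real.pi / Real.cosh L ≤ kg L := by
  have habs : |L| = L := abs_of_nonneg (by linarith)
  set c : ℝ := Real.cosh L with hc
  have hc1 : 1 ≤ c := Real.one_le_cosh L
  have hc0 : 0 < c := by linarith
  have h1 : ∀ θ, b / (2 * c) * (1 - Real.cos θ / c) ≤ Kt (-Real.log (kgD L θ)) := by
    intro θ
    have hD : Real.exp t ≤ kgD L θ := kg_D_ge a t L θ ha.le h (by rw [habs]; exact hL)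
    have hDpos : 0 < kgD L θ := lt_of_lt_of_le (Real.exp_pos _) hD
    have h2 := hmem _ (kg_tau_le t L θ hD)
    rw [Real.exp_neg, Real.exp_log hDpos] at h2
    refine le_trans ?_ h2
    have h3 : 1 / (2 * c) * (1 - Real.cos θ / c) ≤ (kgD L θ)⁻¹ := by
      rw [inv_eq_one_div, le_div_iff₀ hDpos]
      have e1 : kgD L θ = 2 * c * (1 + Real.cos θ / c) := by
        unfold kgD; rw [← hc]; field_simp
      rw [e1]
      have e2 : 1 / (2 * c) * (1 - Real.cos θ / c) * (2 * c * (1 + Real.cos θ / c))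
          = 1 - (Real.cos θ / c) ^ 2 := by field_simp; ring
      rw [e2]
      have := sq_nonneg (Real.cos θ / c)
      linarith
    calc b / (2 * c) * (1 - Real.cos θ / c) = b * (1 / (2 * c) * (1 - Real.cos θ / c)) := by ring
      _ ≤ b * (kgD L θ)⁻¹ := mul_le_mul_of_nonneg_left h3 hb
  have h2 : ∫ θ in (0)..(2 * Real.pi), b / (2 * c) * (1 - Real.cos θ / c) ≤ kg L := by
    rw [kg_eq]
    apply intervalIntegral.integral_mono_on (by positivity) _ (kg_ii hK L _ _)
    · intro θ _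
      exact h1 θ
    · apply Continuous.intervalIntegrable; fun_prop
  have h3 : ∫ θ in (0)..(2 * Real.pi), b / (2 * c) * (1 - Real.cos θ / c) = b * Real.pi / c := by
    rw [intervalIntegral.integral_const_mul, intervalIntegral.integral_sub intervalIntegrable_const
      ((Real.continuous_cos.div_const c).intervalIntegrable _ _), intervalIntegral.integral_div,
      integral_cos]
    simp
    field_simp
  rw [h3] at h2
  exact h2

/-- (Kg) -/
theorem kgfacts (hK : StmtKt) (hP : StmtPol) : StmtKg := by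
  have hlow := hK.2.2.2.2.1
  refine ⟨kg_measurable hK, fun L => ⟨?_, ?_⟩, kg_int hK hP, kg_Kl_int hK hP, kg_Kl,
    fun L θ _ => kg_kbar hK L θ, kg_682 hK, kg_552 hK, ?_⟩
  · rw [kg_eq]
    apply intervalIntegral.integral_nonneg (by positivity)
    intro θ _
    exact (hK.2.1 _).le
  · rw [kg_eq, kg_eq]
    simp only [kgD_neg]
  · intro a b hab L hL
    simp only [List.mem_cons, Prod.mk.injEq, List.not_mem_nil, or_false] at hab
    rcases hab with ⟨rfl, rfl⟩ | ⟨rfl, rfl⟩ | ⟨rfl, rfl⟩ | ⟨rfl, rfl⟩ | ⟨rfl, rfl⟩ | ⟨rfl, rfl⟩ |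
      ⟨rfl, rfl⟩
    · refine kg_far hK _ _ _ L (by norm_num) (by norm_num) ?_ (kg_lo _ (20408 / 10000) (by simp)) hL
      intro τ hτ
      exact hlow (-20408 / 10000) _ (by simp) τ (by linarith)
    · refine kg_far hK _ _ _ L (by norm_num) (by norm_num) ?_ (kg_lo _ (33498 / 10000) (by simp)) hL
      intro τ hτ
      exact hlow (-33498 / 10000) _ (by simp) τ (by linarith)
    · refine kg_far hK _ _ _ L (by norm_num) (by norm_num) ?_ (kg_lo _ (40043 / 10000) (by simp)) hL
      intro τ hτ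
      exact hlow (-40043 / 10000) _ (by simp) τ (by linarith)
    · refine kg_far hK _ _ _ L (by norm_num) (by norm_num) ?_ (kg_lo _ (46588 / 10000) (by simp)) hL
      intro τ hτ
      exact hlow (-46588 / 10000) _ (by simp) τ (by linarith)
    · refine kg_far hK _ _ _ L (by norm_num) (by norm_num) ?_ (kg_lo _ (53133 / 10000) (by simp)) hL
      intro τ hτ
      exact hlow (-53133 / 10000) _ (by simp) τ (by linarith)
    · refine kg_far hK _ _ _ L (by norm_num) (by norm_num) ?_ (kg_lo _ (59678 / 10000) (by simp)) hL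
      intro τ hτ
      exact hlow (-59678 / 10000) _ (by simp) τ (by linarith)
    · refine kg_far hK _ _ _ L (by norm_num) (by norm_num) ?_ (kg_lo _ (66223 / 10000) (by simp)) hL
      intro τ hτ
      exact hlow (-66223 / 10000) _ (by simp) τ (by linarith)

end Pool.Agent.Lib.MP_dd244f_an.Rq
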