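import Pool.Agent.Lib.MP_dd244f_an.Rq.Stmts

/-!
Module (Kt): the properties of `Kt` from those of `vv` and the numerical bounds at the nodes.
-/

set_option autoImplicit false

namespace Pool.Agent.Lib.MP_dd244f_an.Rq

open MeasureTheory Filter Topology Finset

/-- the node `5 π k / 24 - log 4` -/
noncomputable def ktNode (k : ℤ) : ℝ := 5 * Real.pi * k / 24 - Real.log 4

theorem kt_log4 : Real.log 4 = 2 * Real.log 2 := by
  rw [show (4 : ℝ) = 2 ^ 2 by norm_num, Real.log_pow]; norm_num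

theorem kt_exp_log4 : Real.exp (Real.log 4) = 4 := Real.exp_log (by norm_num)

/-- `Kt τ = 2 e ^ τ (vv X e ^ (-X / 4))` -/
theorem kt_eq (τ : ℝ) : Kt τ = 2 * Real.exp τ *
    (vv (2 * τ + 2 * Real.log 4) * Real.exp (-((2 * τ + 2 * Real.log 4) / 4))) := by
  have h2 : Real.exp (Real.log 4 / 2) = 2 := by
    rw [kt_log4, show 2 * Real.log 2 / 2 = Real.log 2 by ring]
    exact Real.exp_log (by norm_num)
  have h : Real.exp (τ / 2) = 2 * Real.exp τ * Real.exp (-((2 * τ + 2 * Real.log 4) / 4)) := by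
    have : (2 : ℝ) = Real.exp (Real.log 4 / 2) := h2.symm
    rw [show (2 : ℝ) * Real.exp τ = Real.exp (Real.log 4 / 2) * Real.exp τ by rw [h2],
      ← Real.exp_add, ← Real.exp_add]
    congr 1; ring
  rw [Kt, h]; ring

theorem kt_cont (hV : StmtVV) : Continuous Kt := by
  have h := hV.1
  have : Kt = fun τ => Real.exp (τ / 2) * vv (2 * τ + 2 * Real.log 4) := rfl
  rw [this]; fun_prop

theorem kt_pos (hV : StmtVV) (τ : ℝ) : 0 < Kt τ :=
  mul_pos (Real.exp_pos _) (hV.2.1 _)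

theorem kt_ub1 (hV : StmtVV) (τ : ℝ) : Kt τ ≤ 4 * Real.pi ^ 4 * Real.exp τ := by
  have h := hV.2.2.2.1 (2 * τ + 2 * Real.log 4)
  rw [kt_eq]
  have h1 : vv (2 * τ + 2 * Real.log 4) * Real.exp (-((2 * τ + 2 * Real.log 4) / 4))
      ≤ 2 * Real.pi ^ 4 := by
    calc vv (2 * τ + 2 * Real.log 4) * Real.exp (-((2 * τ + 2 * Real.log 4) / 4))
        ≤ (2 * Real.pi ^ 4 * Real.exp ((2 * τ + 2 * Real.log 4) / 4)) *
          Real.exp (-((2 * τ + 2 * Real.log 4) / 4)) :=
          mul_le_mul_of_nonneg_right h (Real.exp_pos _).le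
      _ = 2 * Real.pi ^ 4 := by
          rw [mul_assoc, ← Real.exp_add, add_neg_cancel, Real.exp_zero, mul_one]
  have h2 := mul_le_mul_of_nonneg_left h1 (show 0 ≤ 2 * Real.exp τ by positivity)
  linarith

theorem kt_ub2 (hV : StmtVV) (τ : ℝ) : Kt τ ≤ 150 * Real.exp (-(τ / 2)) := by
  have h := hV.2.2.2.2.1 (2 * τ + 2 * Real.log 4)
  rw [Kt]
  calc Real.exp (τ / 2) * vv (2 * τ + 2 * Real.log 4)
      ≤ Real.exp (τ / 2) * (600 * Real.exp (-((2 * τ + 2 * Real.log 4) / 2))) :=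
        mul_le_mul_of_nonneg_left h (Real.exp_pos _).le
    _ = 600 * Real.exp (-(τ / 2)) * Real.exp (-Real.log 4) := by
        rw [show Real.exp (τ / 2) * (600 * Real.exp (-((2 * τ + 2 * Real.log 4) / 2)))
          = 600 * (Real.exp (τ / 2) * Real.exp (-((2 * τ + 2 * Real.log 4) / 2))) by ring,
          ← Real.exp_add, mul_assoc, ← Real.exp_add]
        congr 2; ring
    _ = 150 * Real.exp (-(τ / 2)) := by
        rw [Real.exp_neg (Real.log 4), kt_exp_log4]; ring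

/-- below a node -/
theorem kt_below (hV : StmtVV) (hN : StmtVn) (k : ℤ) (b : ℝ)
    (hm : (k, b) ∈ ([(-8, 3448 / 10), (-7, 3241 / 10), (-6, 2965 / 10), (-5, 2618 / 10),
      (-4, 2207 / 10), (-3, 1757 / 10), (-2, 1306 / 10), (-1, 898 / 10), (0, 567 / 10),
      (4, 3846 / 1000), (5, 1629 / 1000)] : List (ℤ × ℝ))) (τ : ℝ) (hτ : τ ≤ ktNode k) :
    b * Real.exp τ ≤ Kt τ := by
  have h := hN k b hm
  have h1 := hV.2.2.1 (2 * τ + 2 * Real.log 4) (5 * Real.pi * k / 12) (by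
    rw [ktNode] at hτ; linarith)
  rw [show 5 * Real.pi * k / 12 / 4 = 5 * Real.pi * k / 48 by ring] at h1
  rw [kt_eq]
  have h2 : b ≤ 2 * (vv (2 * τ + 2 * Real.log 4) *
      Real.exp (-((2 * τ + 2 * Real.log 4) / 4))) := by
    linarith
  have h3 := mul_le_mul_of_nonneg_right h2 (Real.exp_pos τ).le
  linarith

theorem kt_log4_lo : (1386294 / 1000000 : ℝ) < Real.log 4 := by
  have := Real.log_two_gt_d9; rw [kt_log4]; linarith

theorem kt_log4_hi : Real.log 4 < (1386295 / 1000000 : ℝ) := by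
  have := Real.log_two_lt_d9; rw [kt_log4]; linarith

theorem kt_node_lo : (65449830 / 100000000 : ℝ) < 5 * Real.pi / 24 := by
  have := Real.pi_gt_d6; linarith

theorem kt_node_hi : 5 * Real.pi / 24 < (65449860 / 100000000 : ℝ) := by
  have := Real.pi_lt_d6; linarith

theorem kt_E_lo : (19241 / 10000 : ℝ) ≤ Real.exp (5 * Real.pi / 24) := by
  have h1 : Real.exp (65449830 / 100000000) ≤ Real.exp (5 * Real.pi / 24) :=
    Real.exp_le_exp.mpr kt_node_lo.le
  refine le_trans ?_ h1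
  refine le_trans ?_ (Real.sum_le_exp_of_nonneg (by norm_num) 8)
  norm_num [Finset.sum_range_succ, Nat.factorial]

theorem kt_E_hi : Real.exp (5 * Real.pi / 24) ≤ (19242 / 10000 : ℝ) := by
  have h1 : Real.exp (5 * Real.pi / 24) ≤ Real.exp (65449860 / 100000000) :=
    Real.exp_le_exp.mpr kt_node_hi.le
  refine le_trans h1 ?_
  refine le_trans (Real.exp_bound' (by norm_num) (by norm_num) (n := 8) (by norm_num)) ?_
  norm_num [Finset.sum_range_succ, Nat.factorial]

/-- the value at a node -/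
theorem kt_node_val (k : ℤ) : Real.exp (ktNode k) = Real.exp (5 * Real.pi / 24) ^ k / 4 := by
  rw [ktNode, Real.exp_sub, kt_exp_log4, ← Real.rpow_intCast, ← Real.exp_mul]
  congr 2; ring

theorem kt_at_node (hV : StmtVV) (hN : StmtVn) (k : ℤ) (b : ℝ)
    (hm : (k, b) ∈ ([(-8, 3448 / 10), (-7, 3241 / 10), (-6, 2965 / 10), (-5, 2618 / 10),
      (-4, 2207 / 10), (-3, 1757 / 10), (-2, 1306 / 10), (-1, 898 / 10), (0, 567 / 10),
      (4, 3846 / 1000), (5, 1629 / 1000)] : List (ℤ × ℝ))) :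
    b * (Real.exp (5 * Real.pi / 24) ^ k / 4) ≤ Kt (ktNode k) := by
  have := kt_below hV hN k b hm (ktNode k) le_rfl
  rwa [kt_node_val] at this

/-- negative powers of the step -/
theorem kt_negpow (n : ℕ) : (1 / (19242 / 10000) ^ n : ℝ)
    ≤ Real.exp (5 * Real.pi / 24) ^ (-(n : ℤ)) := by
  rw [zpow_neg, zpow_natCast, one_div]
  exact inv_anti₀ (by positivity) (pow_le_pow_left₀ (Real.exp_pos _).le kt_E_hi n)

theorem kt_pospow (n : ℕ) : ((19241 / 10000) ^ n : ℝ)
    ≤ Real.exp (5 * Real.pi / 24) ^ (n : ℤ) := by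
  rw [zpow_natCast]
  exact pow_le_pow_left₀ (by norm_num) kt_E_lo n

theorem kt_val_neg (hV : StmtVV) (hN : StmtVn) (k : ℤ) (n : ℕ) (hk : k = -(n : ℤ)) (b c : ℝ)
    (hm : (k, b) ∈ ([(-8, 3448 / 10), (-7, 3241 / 10), (-6, 2965 / 10), (-5, 2618 / 10),
      (-4, 2207 / 10), (-3, 1757 / 10), (-2, 1306 / 10), (-1, 898 / 10), (0, 567 / 10),
      (4, 3846 / 1000), (5, 1629 / 1000)] : List (ℤ × ℝ))) (hb : 0 ≤ b)
    (hc : c ≤ b * (1 / (19242 / 10000) ^ n / 4)) : c ≤ Kt (ktNode k) := by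
  refine le_trans ?_ (kt_at_node hV hN k b hm)
  refine le_trans hc (mul_le_mul_of_nonneg_left ?_ hb)
  rw [hk]
  have := kt_negpow n
  linarith

theorem kt_val_pos (hV : StmtVV) (hN : StmtVn) (k : ℤ) (n : ℕ) (hk : k = (n : ℤ)) (b c : ℝ)
    (hm : (k, b) ∈ ([(-8, 3448 / 10), (-7, 3241 / 10), (-6, 2965 / 10), (-5, 2618 / 10),
      (-4, 2207 / 10), (-3, 1757 / 10), (-2, 1306 / 10), (-1, 898 / 10), (0, 567 / 10),
      (4, 3846 / 1000), (5, 1629 / 1000)] : List (ℤ × ℝ))) (hb : 0 ≤ b)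
    (hc : c ≤ b * ((19241 / 10000) ^ n / 4)) : c ≤ Kt (ktNode k) := by
  refine le_trans ?_ (kt_at_node hV hN k b hm)
  refine le_trans hc (mul_le_mul_of_nonneg_left ?_ hb)
  rw [hk]
  have := kt_pospow n
  linarith

/-- between two nodes -/
theorem kt_between (hV : StmtVV) (j k : ℤ) (c : ℝ) (hj : c ≤ Kt (ktNode j))
    (hk : c ≤ Kt (ktNode k)) (τ : ℝ) (h1 : ktNode j ≤ τ) (h2 : τ ≤ ktNode k) : c ≤ Kt τ :=
  le_trans (le_min hj hk) (hV.2.2.2.2.2.2 _ _ _ h1 h2)

theorem kt_exp_small (τ : ℝ) (h : -(14482 / 10000) ≤ τ) :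
    (1315 / 5670 : ℝ) ≤ Real.exp τ := by
  have h1 : Real.exp (-(14482 / 10000)) ≤ Real.exp τ := Real.exp_le_exp.mpr h
  refine le_trans ?_ h1
  have h2 : Real.exp (7241 / 10000) ≤ 207 / 100 := by
    refine le_trans (Real.exp_bound' (by norm_num) (by norm_num) (n := 6) (by norm_num)) ?_
    norm_num [Finset.sum_range_succ, Nat.factorial]
  have h3 : Real.exp (14482 / 10000) ≤ (207 / 100) ^ 2 := by
    rw [show (14482 / 10000 : ℝ) = 7241 / 10000 + 7241 / 10000 by norm_num, Real.exp_add, ← sq]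
    exact pow_le_pow_left₀ (Real.exp_pos _).le h2 2
  rw [Real.exp_neg]
  refine le_trans ?_ (inv_anti₀ (Real.exp_pos _) h3)
  norm_num

theorem ktfacts (hV : StmtVV) (hN : StmtVn) : StmtKt := by
  have l4l := kt_log4_lo
  have l4h := kt_log4_hi
  have nl := kt_node_lo
  have nh := kt_node_hi
  refine ⟨kt_cont hV, kt_pos hV, kt_ub1 hV, kt_ub2 hV, ?_, ?_⟩
  · intro t b hm τ hτ
    have key : ∀ (k : ℤ) (b' : ℝ), (k, b') ∈ ([(-8, 3448 / 10), (-7, 3241 / 10), (-6, 2965 / 10),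
        (-5, 2618 / 10), (-4, 2207 / 10), (-3, 1757 / 10), (-2, 1306 / 10), (-1, 898 / 10),
        (0, 567 / 10), (4, 3846 / 1000), (5, 1629 / 1000)] : List (ℤ × ℝ)) → b ≤ b' →
        τ ≤ ktNode k → b * Real.exp τ ≤ Kt τ := by
      intro k b' h1 h2 h3
      exact le_trans (mul_le_mul_of_nonneg_right h2 (Real.exp_pos _).le)
        (kt_below hV hN k b' h1 τ h3)
    simp only [List.mem_cons, List.not_mem_nil, or_false, Prod.mk.injEq] at hm
    rcases hm with ⟨rfl, rfl⟩ | ⟨rfl, rfl⟩ | ⟨rfl, rfl⟩ | ⟨rfl, rfl⟩ | ⟨rfl, rfl⟩ | ⟨rfl, rfl⟩ |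
      ⟨rfl, rfl⟩
    · exact key (-8) (3448 / 10) (by simp) (by norm_num) (by rw [ktNode]; push_cast; linarith)
    · exact key (-7) (3241 / 10) (by simp) (by norm_num) (by rw [ktNode]; push_cast; linarith)
    · exact key (-6) (2965 / 10) (by simp) (by norm_num) (by rw [ktNode]; push_cast; linarith)
    · exact key (-5) (2618 / 10) (by simp) (by norm_num) (by rw [ktNode]; push_cast; linarith)
    · exact key (-4) (2207 / 10) (by simp) (by norm_num) (by rw [ktNode]; push_cast; linarith)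
    · exact key (-3) (1757 / 10) (by simp) (by norm_num) (by rw [ktNode]; push_cast; linarith)
    · exact key (-1) (898 / 10) (by simp) (by norm_num) (by rw [ktNode]; push_cast; linarith)
  · have k0 : (14 : ℝ) ≤ Kt (ktNode 0) :=
      kt_val_neg hV hN 0 0 (by norm_num) (567 / 10) _ (by simp) (by norm_num) (by norm_num)
    have k1 : (116 / 10 : ℝ) ≤ Kt (ktNode (-1)) :=
      kt_val_neg hV hN (-1) 1 (by norm_num) (898 / 10) _ (by simp) (by norm_num) (by norm_num)
    have k2 : (88 / 10 : ℝ) ≤ Kt (ktNode (-2)) :=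
      kt_val_neg hV hN (-2) 2 (by norm_num) (1306 / 10) _ (by simp) (by norm_num) (by norm_num)
    have k3 : (615 / 100 : ℝ) ≤ Kt (ktNode (-3)) :=
      kt_val_neg hV hN (-3) 3 (by norm_num) (1757 / 10) _ (by simp) (by norm_num) (by norm_num)
    have k4 : (4 : ℝ) ≤ Kt (ktNode (-4)) :=
      kt_val_neg hV hN (-4) 4 (by norm_num) (2207 / 10) _ (by simp) (by norm_num) (by norm_num)
    have k5 : (247 / 100 : ℝ) ≤ Kt (ktNode (-5)) :=
      kt_val_neg hV hN (-5) 5 (by norm_num) (2618 / 10) _ (by simp) (by norm_num) (by norm_num)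
    have k6 : (145 / 100 : ℝ) ≤ Kt (ktNode (-6)) :=
      kt_val_neg hV hN (-6) 6 (by norm_num) (2965 / 10) _ (by simp) (by norm_num) (by norm_num)
    have k7 : (82 / 100 : ℝ) ≤ Kt (ktNode (-7)) :=
      kt_val_neg hV hN (-7) 7 (by norm_num) (3241 / 10) _ (by simp) (by norm_num) (by norm_num)
    have p4 : (1315 / 100 : ℝ) ≤ Kt (ktNode 4) :=
      kt_val_pos hV hN 4 4 (by norm_num) (3846 / 1000) _ (by simp) (by norm_num) (by norm_num)
    have p5 : (107 / 10 : ℝ) ≤ Kt (ktNode 5) :=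
      kt_val_pos hV hN 5 5 (by norm_num) (1629 / 1000) _ (by simp) (by norm_num) (by norm_num)
    have n0 : ktNode 0 ≤ -(138629 / 100000) := by rw [ktNode]; push_cast; linarith
    have n1 : ktNode (-1) ≤ -(20407 / 10000) := by rw [ktNode]; push_cast; linarith
    have n2 : ktNode (-2) ≤ -(26952 / 10000) := by rw [ktNode]; push_cast; linarith
    have n3 : ktNode (-3) ≤ -(33497 / 10000) := by rw [ktNode]; push_cast; linarith
    have n4 : ktNode (-4) ≤ -(40042 / 10000) := by rw [ktNode]; push_cast; linarith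
    have n5 : ktNode (-5) ≤ -(46587 / 10000) := by rw [ktNode]; push_cast; linarith
    have n6 : ktNode (-6) ≤ -(53132 / 10000) := by rw [ktNode]; push_cast; linarith
    have n7 : ktNode (-7) ≤ -(59677 / 10000) := by rw [ktNode]; push_cast; linarith
    have m4 : (12316 / 10000 : ℝ) ≤ ktNode 4 := by rw [ktNode]; push_cast; linarith
    have m5 : (18861 / 10000 : ℝ) ≤ ktNode 5 := by rw [ktNode]; push_cast; linarith
    intro a b c hm τ h1 h2
    simp only [List.mem_cons, List.not_mem_nil, or_false, Prod.mk.injEq] at hm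
    rcases hm with ⟨rfl, rfl, rfl⟩ | ⟨rfl, rfl, rfl⟩ | ⟨rfl, rfl, rfl⟩ | ⟨rfl, rfl, rfl⟩ |
      ⟨rfl, rfl, rfl⟩ | ⟨rfl, rfl, rfl⟩ | ⟨rfl, rfl, rfl⟩ | ⟨rfl, rfl, rfl⟩ | ⟨rfl, rfl, rfl⟩
    · rcases le_total τ (ktNode 0) with h | h
      · have e1 := kt_below hV hN 0 (567 / 10) (by simp) τ h
        have e2 := kt_exp_small τ (by linarith)
        linarith
      · exact kt_between hV 0 4 _ (by linarith) p4 τ h (by linarith)
    · exact kt_between hV (-1) 4 _ k1 (by linarith) τ (by linarith) (by linarith)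
    · exact kt_between hV (-1) 5 _ (by linarith) p5 τ (by linarith) (by linarith)
    · exact kt_between hV (-2) 5 _ k2 (by linarith) τ (by linarith) (by linarith)
    · exact kt_between hV (-3) 5 _ k3 (by linarith) τ (by linarith) (by linarith)
    · exact kt_between hV (-4) 5 _ k4 (by linarith) τ (by linarith) (by linarith)
    · exact kt_between hV (-5) 5 _ k5 (by linarith) τ (by linarith) (by linarith)
    · exact kt_between hV (-6) 5 _ k6 (by linarith) τ (by linarith) (by linarith)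
    · exact kt_between hV (-7) 5 _ k7 (by linarith) τ (by linarith) (by linarith)

end Pool.Agent.Lib.MP_dd244f_an.Rq
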