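import Pool.Agent.Lib.MP_dd244f_an.Rq.Stmts

/-! Module (Lin): the linear part (helper31). -/

set_option autoImplicit false

namespace Pool.Agent.Lib.MP_dd244f_an.Rq

open MeasureTheory Filter Topology Finset
open Pool.Agent.Lib.MP_dd244f_an.Rp
open scoped ENNReal NNReal

namespace LinAux

/-! ### the integrand of `StmtRef` for `j = 1` -/

theorem cpw {t : ℝ} (ht : 0 < t) (s y : ℝ) : ((t : ℝ) : ℂ) ^ ((s : ℂ) + Complex.I * (y : ℂ)) =
    ((t ^ s : ℝ) : ℂ) * Complex.exp (Complex.I * ((y * Real.log t : ℝ) : ℂ)) := by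
  have h0 : ((t : ℝ) : ℂ) ≠ 0 := by exact_mod_cast ht.ne'
  rw [Complex.cpow_add _ _ h0, Complex.ofReal_cpow ht.le]
  congr 1
  rw [Complex.cpow_def_of_ne_zero h0, ← Complex.ofReal_log ht.le]
  congr 1
  push_cast
  ring

theorem cp0 (s y : ℝ) (hs : s ≠ 0) : ((0 : ℝ) : ℂ) ^ ((s : ℂ) + Complex.I * (y : ℂ)) = 0 := by
  rw [Complex.ofReal_zero, Complex.zero_cpow]
  intro h
  have h1 := congrArg Complex.re h
  simp at h1
  exact hs h1

theorem e1 (y : ℝ) : (2 * (1 / (2 * (((1 : ℕ) : ℂ) + 1)) + Complex.I * (y : ℂ)) - 2 : ℂ) =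
    ((-(3 / 2) : ℝ) : ℂ) + Complex.I * ((2 * y : ℝ) : ℂ) := by
  push_cast
  ring

theorem e2 (y : ℝ) : (2 * (1 / (2 * (((1 : ℕ) : ℂ) + 1)) - Complex.I * (y : ℂ)) - 2 : ℂ) =
    ((-(3 / 2) : ℝ) : ℂ) + Complex.I * ((-(2 * y) : ℝ) : ℂ) := by
  push_cast
  ring

theorem key (X : XX 1) (y : ℝ) :
    (∏ i, (‖X.1 i‖ : ℂ) ^ (2 * (1 / (2 * (((1 : ℕ) : ℂ) + 1)) + Complex.I * y) - 2)) *
    (∏ i, (‖X.2 i‖ : ℂ) ^ (2 * (1 / (2 * (((1 : ℕ) : ℂ) + 1)) - Complex.I * y) - 2)) *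
    (‖xl X‖ : ℂ) ^ (2 * (1 / (2 * (((1 : ℕ) : ℂ) + 1)) - Complex.I * y) - 2)
    = ((om X : ℝ) : ℂ) * Complex.exp (Complex.I * ((x0 X * y : ℝ) : ℂ)) := by
  rw [e1, e2, Fin.prod_univ_two, Fin.prod_univ_one]
  unfold om x0
  have hs : (-(3 / 2) : ℝ) ≠ 0 := by norm_num
  rcases (norm_nonneg (X.1 0)).eq_or_lt with h | ha
  · rw [← h, cp0 _ _ hs]
    simp [Real.zero_rpow hs]
  rcases (norm_nonneg (X.1 1)).eq_or_lt with h | hb
  · rw [← h, cp0 _ _ hs]
    simp [Real.zero_rpow hs]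
  rcases (norm_nonneg (X.2 0)).eq_or_lt with h | hc
  · rw [← h, cp0 _ _ hs]
    simp [Real.zero_rpow hs]
  rcases (norm_nonneg (xl X)).eq_or_lt with h | hd
  · rw [← h, cp0 _ _ hs]
    simp [Real.zero_rpow hs]
  rw [cpw ha, cpw hb, cpw hc, cpw hd, Real.mul_rpow (by positivity) (by positivity),
    Real.mul_rpow ha.le hb.le, Real.mul_rpow hc.le hd.le,
    Real.log_div (by positivity) (by positivity), Real.log_mul ha.ne' hb.ne',
    Real.log_mul hc.ne' hd.ne']
  have h : Complex.exp (Complex.I * ((2 * (Real.log ‖X.1 0‖ + Real.log ‖X.1 1‖ -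
      (Real.log ‖X.2 0‖ + Real.log ‖xl X‖)) * y : ℝ) : ℂ)) =
      Complex.exp (Complex.I * ((2 * y * Real.log ‖X.1 0‖ : ℝ) : ℂ)) *
      Complex.exp (Complex.I * ((2 * y * Real.log ‖X.1 1‖ : ℝ) : ℂ)) *
      Complex.exp (Complex.I * ((-(2 * y) * Real.log ‖X.2 0‖ : ℝ) : ℂ)) *
      Complex.exp (Complex.I * ((-(2 * y) * Real.log ‖xl X‖ : ℝ) : ℂ)) := by
    rw [← Complex.exp_add, ← Complex.exp_add, ← Complex.exp_add]
    congr 1
    push_cast
    ring
  rw [h]
  push_cast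
  ring

theorem x0_meas : Measurable (x0 : XX 1 → ℝ) := by
  unfold x0 xl
  fun_prop

theorem om_meas : Measurable (om : XX 1 → ℝ) := by
  unfold om xl
  fun_prop

/-! ### the integral of `sech ^ 2` -/

theorem tanh_top : Tendsto Real.tanh atTop (𝓝 1) := by
  have h1 : ∀ x : ℝ, Real.tanh x = (1 - Real.exp (-(2 * x))) / (1 + Real.exp (-(2 * x))) := by
    intro x
    rw [Real.tanh_eq_sinh_div_cosh, Real.sinh_eq, Real.cosh_eq]
    have h2 : Real.exp (-(2 * x)) = Real.exp (-x) * Real.exp (-x) := by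
      rw [← Real.exp_add]; congr 1; ring
    have h3 : Real.exp x * Real.exp (-x) = 1 := by rw [← Real.exp_add]; simp
    have h4 : 0 < Real.exp (-x) := Real.exp_pos _
    have h5 : 0 < Real.exp x := Real.exp_pos _
    rw [h2, div_eq_div_iff (by positivity) (by positivity)]
    have h6 : Real.exp (-x) * Real.exp (-x) * Real.exp x = Real.exp (-x) := by
      rw [mul_assoc, mul_comm (Real.exp (-x)) (Real.exp x), h3, mul_one]
    nlinarith [h6, h3]
  have h2 : Tendsto (fun x : ℝ => Real.exp (-(2 * x))) atTop (𝓝 0) := by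
    refine Real.tendsto_exp_neg_atTop_nhds_zero.comp ?_
    exact tendsto_id.const_mul_atTop (by norm_num : (0 : ℝ) < 2)
  have h3 : Tendsto (fun x : ℝ => (1 - Real.exp (-(2 * x))) / (1 + Real.exp (-(2 * x)))) atTop
      (𝓝 ((1 - 0) / (1 + 0))) := by
    refine Tendsto.div (tendsto_const_nhds.sub h2) (tendsto_const_nhds.add h2) (by norm_num)
  rw [show (1 : ℝ) = (1 - 0) / (1 + 0) by norm_num]
  exact h3.congr (fun x => (h1 x).symm)

theorem tanh_der (y : ℝ) : HasDerivAt (fun y : ℝ => Real.tanh (2 * Real.pi * y) / (2 * Real.pi))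
    (1 / Real.cosh (2 * Real.pi * y) ^ 2) y := by
  have h1 : HasDerivAt (fun y : ℝ => 2 * Real.pi * y) (2 * Real.pi) y := by
    simpa using (hasDerivAt_id y).const_mul (2 * Real.pi)
  have hc : Real.cosh (2 * Real.pi * y) ≠ 0 := (Real.cosh_pos _).ne'
  have h2 := (h1.sinh.div h1.cosh hc).div_const (2 * Real.pi)
  have h3 : (fun y : ℝ => Real.tanh (2 * Real.pi * y) / (2 * Real.pi)) =
      (fun y : ℝ => Real.sinh (2 * Real.pi * y) / Real.cosh (2 * Real.pi * y) / (2 * Real.pi)) := by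
    funext z
    rw [Real.tanh_eq_sinh_div_cosh]
  rw [h3]
  refine h2.congr_deriv ?_
  have h4 := Real.cosh_sq (2 * Real.pi * y)
  have hp := Real.pi_pos
  field_simp
  linarith

theorem sech_int : Integrable (fun y : ℝ => 1 / Real.cosh (2 * Real.pi * y) ^ 2) ∧
    ∫ y : ℝ, 1 / Real.cosh (2 * Real.pi * y) ^ 2 = 1 / Real.pi := by
  have hp := Real.pi_pos
  have htop : Tendsto (fun y : ℝ => Real.tanh (2 * Real.pi * y) / (2 * Real.pi)) atTop
      (𝓝 (1 / (2 * Real.pi))) :=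
    (tanh_top.comp (tendsto_id.const_mul_atTop (by positivity : (0 : ℝ) < 2 * Real.pi))).div_const _
  have hbot : Tendsto (fun y : ℝ => Real.tanh (2 * Real.pi * y) / (2 * Real.pi)) atBot
      (𝓝 (-1 / (2 * Real.pi))) := by
    have h1 := (htop.comp tendsto_neg_atBot_atTop).neg
    have h2 : (fun y : ℝ => Real.tanh (2 * Real.pi * y) / (2 * Real.pi)) = fun y : ℝ =>
        -((fun y : ℝ => Real.tanh (2 * Real.pi * y) / (2 * Real.pi)) ∘ Neg.neg) y := by
      funext y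
      simp only [Function.comp]
      rw [mul_neg, Real.tanh_neg]
      ring
    rw [h2, show -1 / (2 * Real.pi) = -(1 / (2 * Real.pi)) by ring]
    exact h1
  have hi : Integrable (fun y : ℝ => 1 / Real.cosh (2 * Real.pi * y) ^ 2) := by
    rw [← integrableOn_univ, ← Set.Iic_union_Ioi (a := (0 : ℝ))]
    have hI : IntegrableOn (fun y : ℝ => 1 / Real.cosh (2 * Real.pi * y) ^ 2) (Set.Ioi 0) :=
      integrableOn_Ioi_deriv_of_nonneg' (fun x _ => tanh_der x) (fun x _ => by positivity) htop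
    refine IntegrableOn.union ?_ hI
    have h2 : IntegrableOn (fun y : ℝ => 1 / Real.cosh (2 * Real.pi * y) ^ 2) (Set.Ioi (-0)) := by
      simpa using hI
    have h3 := h2.comp_neg_Iio
    rw [integrableOn_Iic_iff_integrableOn_Iio]
    refine h3.congr_fun (fun y _ => ?_) measurableSet_Iio
    simp only
    rw [mul_neg, Real.cosh_neg]
  refine ⟨hi, ?_⟩
  rw [integral_of_hasDerivAt_of_tendsto tanh_der hi hbot htop]
  field_simp
  ring

/-! ### the constant -/

theorem cz_norm (hG : StmtG) (y : ℝ) : gw y * ‖cz (1 / (2 * (((1 : ℕ) : ℂ) + 1)) + Complex.I * y)‖ ^ (2 * (1 + 1)) =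
    4 * Real.pi ^ 6 * (1 / Real.cosh (2 * Real.pi * y) ^ 2) := by
  obtain ⟨h1, -, -, -, -, -, h7⟩ := hG
  have hp := Real.pi_pos
  have hz : (1 / (2 * (((1 : ℕ) : ℂ) + 1)) + Complex.I * y : ℂ) = ((1 / 4 : ℝ) : ℂ) + Complex.I * y := by
    push_cast; ring
  have hz2 : (1 - (((1 / 4 : ℝ) : ℂ) + Complex.I * y) : ℂ) = ((3 / 4 : ℝ) : ℂ) + Complex.I * ((-y : ℝ) : ℂ) := by
    push_cast; ring
  have hn : ‖cz (1 / (2 * (((1 : ℕ) : ℂ) + 1)) + Complex.I * y)‖ =
      Real.pi ^ (1 / 2 : ℝ) * G (1 / 4) y / G (3 / 4) y := by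
    rw [hz]
    unfold cz
    rw [norm_div, norm_mul, hz2]
    have h2 : ‖Complex.Gamma (((3 / 4 : ℝ) : ℂ) + Complex.I * ((-y : ℝ) : ℂ))‖ = G (3 / 4) y := by
      rw [← (h1 (3 / 4) y (by norm_num)).2.1]
      rfl
    have h3 : ‖(Real.pi : ℂ) ^ (1 - 2 * (((1 / 4 : ℝ) : ℂ) + Complex.I * y) : ℂ)‖ = Real.pi ^ (1 / 2 : ℝ) := by
      rw [Complex.norm_cpow_eq_rpow_re_of_pos hp]
      congr 1
      simp
      norm_num
    rw [h2, h3]
    rfl
  have hg1 : 0 < G (1 / 4) y := (h1 (1 / 4) y (by norm_num)).1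
  have hg3 : 0 < G (3 / 4) y := (h1 (3 / 4) y (by norm_num)).1
  have hc := Real.cosh_pos (2 * Real.pi * y)
  have h7' := h7 y
  have hsq : (Real.pi ^ (1 / 2 : ℝ)) ^ 4 = Real.pi ^ 2 := by
    rw [← Real.rpow_natCast, ← Real.rpow_mul hp.le]
    norm_num
  rw [hn]
  unfold gw
  have h8 : G (1 / 4) y ^ 2 * G (3 / 4) y ^ 2 = 2 * Real.pi ^ 2 / Real.cosh (2 * Real.pi * y) := by
    rw [eq_div_iff hc.ne']; exact h7'
  calc G (3 / 4) y ^ 8 * (Real.pi ^ (1 / 2 : ℝ) * G (1 / 4) y / G (3 / 4) y) ^ (2 * (1 + 1))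
      = (Real.pi ^ (1 / 2 : ℝ)) ^ 4 * (G (1 / 4) y ^ 2 * G (3 / 4) y ^ 2) ^ 2 := by
        rw [show 2 * (1 + 1) = 4 by norm_num]
        generalize Real.pi ^ (1 / 2 : ℝ) = P
        field_simp
    _ = _ := by
        rw [hsq, h8]
        field_simp
        ring

end LinAux

open LinAux

theorem lin (hR : Rp.StmtRef) (hW : StmtWh) (hG : StmtG) : StmtLin := by
  intro φ hφ hφc hφ0
  obtain ⟨hWi, -, -, -, hwc, hw1c, -, -, C, hC⟩ := hW
  have hGc : Continuous (G (3 / 4)) := hG.2.1 (3 / 4) (by norm_num)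
  have hgc : Continuous gw := by unfold gw; fun_prop
  have hg0 : ∀ y, 0 ≤ gw y := fun y => by unfold gw G; positivity
  have hgi : Integrable gw := by simpa using hWi 0
  have hgi1 : Integrable (fun y => |y| * gw y) := by simpa using hWi 1
  have hkey : ∀ (y : ℝ) (X : XX 1), ((φ (X.1 0) : ℝ) : ℂ) *
      (∏ i, (‖X.1 i‖ : ℂ) ^ (2 * (1 / (2 * (((1 : ℕ) : ℂ) + 1)) + Complex.I * y) - 2)) *
      (∏ i, (‖X.2 i‖ : ℂ) ^ (2 * (1 / (2 * (((1 : ℕ) : ℂ) + 1)) - Complex.I * y) - 2)) *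
      (‖xl X‖ : ℂ) ^ (2 * (1 / (2 * (((1 : ℕ) : ℂ) + 1)) - Complex.I * y) - 2) =
      ((om X * φ (X.1 0) : ℝ) : ℂ) * Complex.exp (Complex.I * ((x0 X * y : ℝ) : ℂ)) := by
    intro y X
    rw [mul_assoc, mul_assoc, ← mul_assoc (∏ i, _) (∏ i, _) _, key X y]
    push_cast
    ring
  -- the reference form
  have href : ∀ y : ℝ, Integrable (fun X : XX 1 => ((om X * φ (X.1 0) : ℝ) : ℂ) *
      Complex.exp (Complex.I * ((x0 X * y : ℝ) : ℂ))) ∧
      ∫ X : XX 1, ((om X * φ (X.1 0) : ℝ) : ℂ) * Complex.exp (Complex.I * ((x0 X * y : ℝ) : ℂ)) =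
      ((‖cz (1 / (2 * (((1 : ℕ) : ℂ) + 1)) + Complex.I * y)‖ ^ (2 * (1 + 1)) *
        ∫ ζ, φ ζ / ‖ζ‖ ^ 2 : ℝ) : ℂ) := by
    intro y
    obtain ⟨a, b⟩ := hR 1 y φ hφ hφc hφ0
    simp_rw [hkey] at a b
    exact ⟨a, b⟩
  have hint : Integrable (fun X : XX 1 => om X * φ (X.1 0)) := by
    have h1 := (href 0).1
    have h2 := h1.re
    refine h2.congr (Eventually.of_forall fun X => ?_)
    simp
  have hxm : Measurable (x0 : XX 1 → ℝ) := x0_meas
  have halc : Continuous al := by unfold al; fun_prop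
  refine ⟨hint, ?_, ?_⟩
  · have h1 : Integrable (fun X : XX 1 => al (x0 X) * (om X * φ (X.1 0))) := by
      refine hint.bdd_mul (c := C) (halc.measurable.comp hxm).aestronglyMeasurable
        (Eventually.of_forall fun X => ?_)
      rw [Real.norm_eq_abs]
      exact (hC (x0 X)).2
    refine h1.congr (Eventually.of_forall fun X => ?_)
    simp only
    ring
  -- Fubini
  set Φ : ℝ := ∫ ζ, φ ζ / ‖ζ‖ ^ 2 with hΦ
  have hb : Integrable (fun y : ℝ => gw y * (1 / 2 + 2 * |y|)) := by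
    have h1 := (hgi.mul_const (1 / 2)).add (hgi1.mul_const 2)
    refine h1.congr (Eventually.of_forall fun y => ?_)
    simp only [Pi.add_apply]
    ring
  have hF : Integrable (fun q : XX 1 × ℝ => (om q.1 * φ (q.1.1 0)) *
      (gw q.2 * (Real.cos (x0 q.1 * q.2) / 2 - 2 * q.2 * Real.sin (x0 q.1 * q.2)))) := by
    have h1 : Integrable (fun q : XX 1 × ℝ => (om q.1 * φ (q.1.1 0)) * (gw q.2 * (1 / 2 + 2 * |q.2|))) :=
      hint.mul_prod hb
    refine h1.mono ?_ (Eventually.of_forall fun q => ?_)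
    · have hm : Measurable (fun q : XX 1 × ℝ => om q.1 * φ (q.1.1 0)) := by
        have := om_meas
        have h3 : Measurable φ := hφ.measurable
        fun_prop
      have hm2 : Measurable (fun q : XX 1 × ℝ => gw q.2 *
          (Real.cos (x0 q.1 * q.2) / 2 - 2 * q.2 * Real.sin (x0 q.1 * q.2))) := by
        have h3 : Measurable gw := hgc.measurable
        fun_prop
      exact (hm.mul hm2).aestronglyMeasurable
    · rw [norm_mul (om q.1 * φ (q.1.1 0)), norm_mul (om q.1 * φ (q.1.1 0))]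
      refine mul_le_mul_of_nonneg_left ?_ (norm_nonneg (om q.1 * φ (q.1.1 0)))
      rw [norm_mul (gw q.2), norm_mul (gw q.2)]
      refine mul_le_mul_of_nonneg_left ?_ (norm_nonneg (gw q.2))
      rw [Real.norm_eq_abs, Real.norm_eq_abs, abs_of_nonneg (by positivity : (0 : ℝ) ≤ 1 / 2 + 2 * |q.2|)]
      have h2 := Real.abs_cos_le_one (x0 q.1 * q.2)
      have h3 := Real.abs_sin_le_one (x0 q.1 * q.2)
      calc |Real.cos (x0 q.1 * q.2) / 2 - 2 * q.2 * Real.sin (x0 q.1 * q.2)|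
          ≤ |Real.cos (x0 q.1 * q.2) / 2| + |2 * q.2 * Real.sin (x0 q.1 * q.2)| := abs_sub _ _
        _ = |Real.cos (x0 q.1 * q.2)| / 2 + 2 * |q.2| * |Real.sin (x0 q.1 * q.2)| := by
            rw [abs_div, abs_mul, abs_mul]; norm_num
        _ ≤ 1 / 2 + 2 * |q.2| := by nlinarith [abs_nonneg q.2]
  have hal : ∀ X : ℝ, al X = ∫ y : ℝ, gw y * (Real.cos (X * y) / 2 - 2 * y * Real.sin (X * y)) := by
    intro X
    have i1 : Integrable (fun y : ℝ => gw y * Real.cos (X * y)) := by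
      refine hgi.mono (by fun_prop) (Eventually.of_forall fun y => ?_)
      rw [norm_mul]
      exact mul_le_of_le_one_right (norm_nonneg _) (Real.abs_cos_le_one _)
    have i2 : Integrable (fun y : ℝ => y * gw y * Real.sin (X * y)) := by
      refine hgi1.mono (by fun_prop) (Eventually.of_forall fun y => ?_)
      have e : ‖|y| * gw y‖ = ‖y * gw y‖ := by rw [norm_mul, norm_mul, norm_abs_eq_norm]
      rw [e]
      rw [norm_mul (y * gw y) (Real.sin (X * y))]
      exact mul_le_of_le_one_right (norm_nonneg _) (Real.abs_sin_le_one _)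
    unfold al wh wh1
    rw [show (∫ y : ℝ, gw y * (Real.cos (X * y) / 2 - 2 * y * Real.sin (X * y))) =
      ∫ y : ℝ, ((gw y * Real.cos (X * y)) / 2 - 2 * (y * gw y * Real.sin (X * y))) from
        integral_congr_ae (Eventually.of_forall fun y => by simp only; ring),
      integral_sub (i1.div_const 2) (i2.const_mul 2), integral_div, integral_const_mul]
    ring
  have hin : ∀ y : ℝ, ∫ X : XX 1, (om X * φ (X.1 0)) *
      (gw y * (Real.cos (x0 X * y) / 2 - 2 * y * Real.sin (x0 X * y))) =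
      Φ / 2 * (4 * Real.pi ^ 6 * (1 / Real.cosh (2 * Real.pi * y) ^ 2)) := by
    intro y
    obtain ⟨h1, h2⟩ := href y
    have h3 : (∫ X : XX 1, (((1 / 2 : ℂ) + 2 * Complex.I * y) * (((om X * φ (X.1 0) : ℝ) : ℂ) *
        Complex.exp (Complex.I * ((x0 X * y : ℝ) : ℂ))))).re =
        1 / 2 * (‖cz (1 / (2 * (((1 : ℕ) : ℂ) + 1)) + Complex.I * y)‖ ^ (2 * (1 + 1)) * Φ) := by
      rw [integral_const_mul, h2, Complex.re_mul_ofReal]
      simp
    have h4 : (∫ X : XX 1, (((1 / 2 : ℂ) + 2 * Complex.I * y) * (((om X * φ (X.1 0) : ℝ) : ℂ) *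
        Complex.exp (Complex.I * ((x0 X * y : ℝ) : ℂ))))).re =
        ∫ X : XX 1, (om X * φ (X.1 0)) * (Real.cos (x0 X * y) / 2 - 2 * y * Real.sin (x0 X * y)) := by
      have h5 := integral_re (h1.const_mul ((1 / 2 : ℂ) + 2 * Complex.I * y))
      rw [show (∫ X : XX 1, (((1 / 2 : ℂ) + 2 * Complex.I * y) * (((om X * φ (X.1 0) : ℝ) : ℂ) *
        Complex.exp (Complex.I * ((x0 X * y : ℝ) : ℂ))))).re = _ from h5.symm]
      refine integral_congr_ae (Eventually.of_forall fun X => ?_)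
      simp only
      generalize x0 X * y = t
      generalize om X * φ (X.1 0) = b
      rw [mul_comm Complex.I (t : ℂ), Complex.exp_mul_I, ← Complex.ofReal_cos,
        ← Complex.ofReal_sin]
      generalize Real.cos t = c
      generalize Real.sin t = s
      simp
      ring
    rw [show (fun X : XX 1 => (om X * φ (X.1 0)) *
      (gw y * (Real.cos (x0 X * y) / 2 - 2 * y * Real.sin (x0 X * y)))) = fun X : XX 1 => gw y *
      ((om X * φ (X.1 0)) * (Real.cos (x0 X * y) / 2 - 2 * y * Real.sin (x0 X * y))) from by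
        funext X; ring, integral_const_mul, ← h4, h3, ← cz_norm hG y]
    ring
  calc ∫ X : XX 1, om X * al (x0 X) * φ (X.1 0)
      = ∫ X : XX 1, ∫ y : ℝ, (om X * φ (X.1 0)) *
        (gw y * (Real.cos (x0 X * y) / 2 - 2 * y * Real.sin (x0 X * y))) := by
        refine integral_congr_ae (Eventually.of_forall fun X => ?_)
        simp only
        rw [integral_const_mul, ← hal]
        ring
    _ = ∫ y : ℝ, ∫ X : XX 1, (om X * φ (X.1 0)) *
        (gw y * (Real.cos (x0 X * y) / 2 - 2 * y * Real.sin (x0 X * y))) :=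
        integral_integral_swap hF
    _ = ∫ y : ℝ, Φ / 2 * (4 * Real.pi ^ 6 * (1 / Real.cosh (2 * Real.pi * y) ^ 2)) :=
        integral_congr_ae (Eventually.of_forall hin)
    _ = 2 * Real.pi ^ 5 * Φ := by
        rw [integral_const_mul, integral_const_mul, sech_int.2]
        have hp := Real.pi_pos
        field_simp
        ring

end Pool.Agent.Lib.MP_dd244f_an.Rq
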