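import Pool.Agent.Lib.MP_dd244f_an.Rq.Stmts

/-!
Module Ms: weighted averages of the majorant `sg`.
-/

set_option autoImplicit false

namespace Pool.Agent.Lib.MP_dd244f_an.Rq

open MeasureTheory Filter Topology

namespace MsAux

/-! ### the profile `mt` -/

theorem exp_half_le_one {x : ℝ} (hx : 0 ≤ x) : Real.exp (-(x / 2)) ≤ 1 := by
  rw [Real.exp_le_one_iff]; linarith

theorem mt_of_le {x : ℝ} (h : x ≤ 3) : mt x = Real.exp (-((3 - x) / 2)) := by
  unfold mt; rw [if_pos h]

theorem mt_mid {x : ℝ} (h : 3 ≤ x) (h' : x ≤ 57 / 10) : mt x = 1 := by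
  rcases eq_or_lt_of_le h with h1 | h1
  · rw [← h1, mt_of_le le_rfl]; simp
  · unfold mt; rw [if_neg (not_le.2 h1), if_pos h']

theorem mt_of_ge {x : ℝ} (h : 57 / 10 ≤ x) :
    mt x = 1 - (1 - Real.exp (-((x - 57 / 10) / 2))) ^ 2 := by
  rcases eq_or_lt_of_le h with h1 | h1
  · rw [← h1, mt_mid (by norm_num) le_rfl]; simp
  · unfold mt; rw [if_neg (by linarith), if_neg (not_le.2 h1)]

theorem mt_nonneg (x : ℝ) : 0 ≤ mt x := by
  rcases le_total x 3 with h | h
  · rw [mt_of_le h]; positivity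
  · rcases le_total x (57 / 10) with h' | h'
    · rw [mt_mid h h']; norm_num
    · rw [mt_of_ge h']
      have h1 := exp_half_le_one (x := x - 57 / 10) (by linarith)
      have h2 := Real.exp_pos (-((x - 57 / 10) / 2))
      nlinarith

theorem mt_le_one (x : ℝ) : mt x ≤ 1 := by
  rcases le_total x 3 with h | h
  · rw [mt_of_le h]; exact exp_half_le_one (by linarith)
  · rcases le_total x (57 / 10) with h' | h'
    · rw [mt_mid h h']
    · rw [mt_of_ge h']
      nlinarith [sq_nonneg (1 - Real.exp (-((x - 57 / 10) / 2)))]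

theorem continuous_mt : Continuous mt := by
  have h : mt = fun x => Real.exp (-((3 - min x 3) / 2)) -
      (1 - Real.exp (-((max x (57 / 10) - 57 / 10) / 2))) ^ 2 := by
    funext x
    rcases le_total x 3 with h | h
    · rw [mt_of_le h, min_eq_left h, max_eq_right (by linarith)]; simp
    · rcases le_total x (57 / 10) with h' | h'
      · rw [mt_mid h h', min_eq_right h, max_eq_right h']; simp
      · rw [mt_of_ge h', min_eq_right h, max_eq_left h']; simp
  rw [h]
  fun_prop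

theorem continuous_Me : Continuous Me := by
  unfold Me
  exact (continuous_mt.comp (by fun_prop)).div_const 16

theorem mt_mono {x y : ℝ} (h : x ≤ y) (hy : y ≤ 57 / 10) : mt x ≤ mt y := by
  rcases le_total 3 y with h3 | h3
  · rw [mt_mid h3 hy]; exact mt_le_one x
  · rw [mt_of_le h3, mt_of_le (h.trans h3), Real.exp_le_exp]; linarith

theorem one_le_exp {t : ℝ} : 1 ≤ Real.exp (|t| / 2) := by
  rw [Real.one_le_exp_iff]; positivity

theorem mt_lip (x t : ℝ) : mt (x + t) ≤ Real.exp (|t| / 2) * mt x := by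
  have h0 := mt_nonneg x
  have h1 := @one_le_exp t
  have hself : mt x ≤ Real.exp (|t| / 2) * mt x := by nlinarith
  rcases le_total 0 t with ht | ht
  · -- to the right
    rw [abs_of_nonneg ht] at *
    rcases le_total x 3 with hx | hx
    · rcases le_total (x + t) 3 with hxt | hxt
      · rw [mt_of_le hx, mt_of_le hxt, ← Real.exp_add, Real.exp_le_exp]; linarith
      · refine (mt_le_one _).trans ?_
        rw [mt_of_le hx, ← Real.exp_add, Real.one_le_exp_iff]; linarith
    · refine le_trans ?_ hself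
      rcases le_total x (57 / 10) with hx' | hx'
      · rw [mt_mid hx hx']; exact mt_le_one _
      · rw [mt_of_ge hx', mt_of_ge (by linarith)]
        have e1 : Real.exp (-((x + t - 57 / 10) / 2)) ≤ Real.exp (-((x - 57 / 10) / 2)) := by
          rw [Real.exp_le_exp]; linarith
        have e2 := exp_half_le_one (x := x - 57 / 10) (by linarith)
        have e3 := Real.exp_pos (-((x + t - 57 / 10) / 2))
        nlinarith
  · -- to the left
    rcases le_total x (57 / 10) with hx | hx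
    · exact (mt_mono (by linarith) hx).trans hself
    · rw [abs_of_nonpos ht] at *
      rw [mt_of_ge hx]
      set E := Real.exp (-((x - 57 / 10) / 2)) with hE
      have e2 : E ≤ 1 := exp_half_le_one (x := x - 57 / 10) (by linarith)
      have e3 : 0 < E := Real.exp_pos _
      rcases le_total (57 / 10) (x + t) with hx' | hx'
      · rw [mt_of_ge hx']
        have e4 : Real.exp (-((x + t - 57 / 10) / 2)) = Real.exp (-t / 2) * E := by
          rw [hE, ← Real.exp_add]; congr 1; ring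
        rw [e4]
        set r := Real.exp (-t / 2) with hr
        have : r * (1 - (1 - E) ^ 2) - (1 - (1 - r * E) ^ 2) = r * E ^ 2 * (r - 1) := by ring
        have h5 : 0 ≤ r * E ^ 2 * (r - 1) := by
          apply mul_nonneg (by positivity); linarith
        linarith
      · refine (mt_le_one _).trans ?_
        have e5 : 1 ≤ Real.exp (-t / 2) * E := by
          rw [hE, ← Real.exp_add, Real.one_le_exp_iff]; linarith
        have : Real.exp (-t / 2) * (1 - (1 - E) ^ 2) = (Real.exp (-t / 2) * E) * (2 - E) := by ring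
        rw [this]
        nlinarith

/-! ### the majorant `sg` -/

theorem sg_nonneg (s : ℝ) : 0 ≤ sg s := by
  unfold sg
  split_ifs
  · exact le_rfl
  · norm_num
  · positivity

theorem sg_le (s : ℝ) : sg s ≤ 1 / 16 := by
  unfold sg
  split_ifs with h1 h2
  · norm_num
  · exact le_rfl
  · have := exp_half_le_one (x := |s| - 57 / 5) (by push Not at h2; linarith)
    linarith

theorem sg_even (s : ℝ) : sg (-s) = sg s := by
  unfold sg; rw [abs_neg]

theorem sg_zero {s : ℝ} (h : |s| < 6) : sg s = 0 := by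
  unfold sg; rw [if_pos h]

theorem sg_tail {s : ℝ} (h : 57 / 5 ≤ |s|) : sg s = Real.exp (-((|s| - 57 / 5) / 2)) / 16 := by
  rcases eq_or_lt_of_le h with h1 | h1
  · unfold sg; rw [← h1, if_neg (by norm_num), if_pos le_rfl]; simp
  · unfold sg; rw [if_neg (by linarith), if_neg (by linarith)]

theorem measurable_sg : Measurable sg := by
  unfold sg
  refine Measurable.ite (measurableSet_lt (by fun_prop) measurable_const) measurable_const ?_
  refine Measurable.ite (measurableSet_le (by fun_prop) measurable_const) measurable_const ?_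
  fun_prop

theorem int_sg (X₀ a b : ℝ) : IntervalIntegrable (fun s => sg (X₀ + s)) volume a b := by
  rw [intervalIntegrable_iff]
  refine Measure.integrableOn_of_bounded (M := 1 / 16) ?_ ?_ ?_
  · exact measure_Ioc_lt_top.ne
  · exact (measurable_sg.comp (by fun_prop)).aestronglyMeasurable
  · refine Eventually.of_forall (fun s => ?_)
    rw [Real.norm_eq_abs, abs_of_nonneg (sg_nonneg _)]
    exact sg_le _

/-- the kernel -/
theorem int_ker (X₀ δ a b : ℝ) :
    IntervalIntegrable (fun s => Real.sinh ((δ - s) / 4) * sg (X₀ + s)) volume a b :=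
  (int_sg X₀ a b).continuousOn_mul (by fun_prop)

theorem sinh_nonneg {δ s : ℝ} (h : s ≤ δ) : 0 ≤ Real.sinh ((δ - s) / 4) := by
  rw [Real.sinh_nonneg_iff]; linarith

theorem int_sinh (δ a b : ℝ) : ∫ s in a..b, Real.sinh ((δ - s) / 4) =
    4 * Real.cosh ((δ - a) / 4) - 4 * Real.cosh ((δ - b) / 4) := by
  have h : ∀ s ∈ Set.uIcc a b, HasDerivAt (fun s => -(4 * Real.cosh ((δ - s) / 4)))
      (Real.sinh ((δ - s) / 4)) s := by
    intro s _
    have h1 : HasDerivAt (fun s : ℝ => (δ - s) / 4) (-1 / 4) s := by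
      have := ((hasDerivAt_const s δ).sub (hasDerivAt_id s)).div_const 4
      simpa using this
    have h2 : HasDerivAt (fun s : ℝ => -(4 * Real.cosh ((δ - s) / 4)))
        (-(4 * (Real.sinh ((δ - s) / 4) * (-1 / 4)))) s := (h1.cosh.const_mul 4).neg
    exact h2.congr_deriv (by ring)
  rw [intervalIntegral.integral_eq_sub_of_hasDerivAt h
    (Continuous.intervalIntegrable (by fun_prop) _ _)]
  ring

theorem int_exp (δ d a b : ℝ) :
    ∫ s in a..b, Real.sinh ((δ - s) / 4) * Real.exp (-((d - s) / 2)) =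
    (2 * Real.exp (δ / 4 - d / 2 + b / 4) - 2 / 3 * Real.exp (-(δ / 4) - d / 2 + 3 * b / 4)) -
    (2 * Real.exp (δ / 4 - d / 2 + a / 4) - 2 / 3 * Real.exp (-(δ / 4) - d / 2 + 3 * a / 4)) := by
  have h : ∀ s ∈ Set.uIcc a b, HasDerivAt (fun s => 2 * Real.exp (δ / 4 - d / 2 + s / 4) -
      2 / 3 * Real.exp (-(δ / 4) - d / 2 + 3 * s / 4))
      (Real.sinh ((δ - s) / 4) * Real.exp (-((d - s) / 2))) s := by
    intro s _
    have h1 : HasDerivAt (fun s : ℝ => δ / 4 - d / 2 + s / 4) (1 / 4) s := by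
      have := ((hasDerivAt_id s).div_const 4).const_add (δ / 4 - d / 2)
      simpa using this
    have h2 : HasDerivAt (fun s : ℝ => -(δ / 4) - d / 2 + 3 * s / 4) (3 / 4) s := by
      have := (((hasDerivAt_id s).const_mul 3).div_const 4).const_add (-(δ / 4) - d / 2)
      simpa using this
    have h3 : HasDerivAt (fun s : ℝ => 2 * Real.exp (δ / 4 - d / 2 + s / 4) -
        2 / 3 * Real.exp (-(δ / 4) - d / 2 + 3 * s / 4))
        (2 * (Real.exp (δ / 4 - d / 2 + s / 4) * (1 / 4)) -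
          2 / 3 * (Real.exp (-(δ / 4) - d / 2 + 3 * s / 4) * (3 / 4))) s :=
      (h1.exp.const_mul 2).sub (h2.exp.const_mul (2 / 3))
    refine h3.congr_deriv ?_
    rw [Real.sinh_eq]
    have e1 : Real.exp (δ / 4 - d / 2 + s / 4) =
        Real.exp ((δ - s) / 4) * Real.exp (-((d - s) / 2)) := by
      rw [← Real.exp_add]; congr 1; ring
    have e2 : Real.exp (-(δ / 4) - d / 2 + 3 * s / 4) =
        Real.exp (-((δ - s) / 4)) * Real.exp (-((d - s) / 2)) := by
      rw [← Real.exp_add]; congr 1; ring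
    rw [e1, e2]
    ring
  exact intervalIntegral.integral_eq_sub_of_hasDerivAt h
    (Continuous.intervalIntegrable (by fun_prop) _ _)

/-- comparison of two averages -/
theorem comp {X₀ δ a b : ℝ} (hab : a ≤ b) (hb : b ≤ δ) {h : ℝ → ℝ} (hh : Continuous h)
    (hle : ∀ s, a ≤ s → s ≤ b → sg (X₀ + s) ≤ h s) :
    ∫ s in a..b, Real.sinh ((δ - s) / 4) * sg (X₀ + s) ≤
      ∫ s in a..b, Real.sinh ((δ - s) / 4) * h s := by
  refine intervalIntegral.integral_mono_on hab (int_ker X₀ δ a b)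
    (Continuous.intervalIntegrable (by fun_prop) _ _) ?_
  intro s hs
  exact mul_le_mul_of_nonneg_left (hle s hs.1 hs.2) (sinh_nonneg (hs.2.trans hb))

/-- the bound for a constant majorant -/
theorem comp_const {X₀ δ a b c : ℝ} (hab : a ≤ b) (hb : b ≤ δ)
    (hle : ∀ s, a ≤ s → s ≤ b → sg (X₀ + s) ≤ c) :
    ∫ s in a..b, Real.sinh ((δ - s) / 4) * sg (X₀ + s) ≤
      (4 * Real.cosh ((δ - a) / 4) - 4 * Real.cosh ((δ - b) / 4)) * c := by
  refine (comp hab hb (h := fun _ => c) continuous_const hle).trans ?_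
  rw [intervalIntegral.integral_mul_const, int_sinh]

theorem one_le_cosh (x : ℝ) : 0 ≤ Real.cosh x - 1 := by
  linarith [Real.one_le_cosh x]

/-- the central range -/
theorem caseb {X₀ δ : ℝ} (hδ : 0 ≤ δ) (hX : |X₀| < 6) :
    ∫ s in (0)..δ, Real.sinh ((δ - s) / 4) * sg (X₀ + s)
      ≤ 4 * Me X₀ * (Real.cosh (δ / 4) - 1) := by
  have hMe : Me X₀ = Real.exp (-((6 - |X₀|) / 4)) / 16 := by
    unfold Me
    rw [mt_of_le (by linarith)]
    congr 2
    ring
  set d := 6 - |X₀| with hd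
  have hd0 : 0 < d := by linarith
  have hX1 := abs_lt.1 hX
  have hzero : ∀ s, 0 ≤ s → s < d → sg (X₀ + s) = 0 := by
    intro s h1 h2
    apply sg_zero
    rw [abs_lt]
    have := le_abs_self X₀
    constructor <;> linarith
  rcases lt_or_ge δ d with h1 | h1
  · have : ∫ s in (0)..δ, Real.sinh ((δ - s) / 4) * sg (X₀ + s) ≤
        (4 * Real.cosh ((δ - 0) / 4) - 4 * Real.cosh ((δ - δ) / 4)) * 0 :=
      comp_const hδ le_rfl (fun s h2 h3 => (hzero s h2 (by linarith)).le)
    refine this.trans ?_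
    rw [mul_zero, hMe]
    have := one_le_cosh (δ / 4)
    positivity
  · have hsplit := intervalIntegral.integral_add_adjacent_intervals (int_ker X₀ δ 0 d)
      (int_ker X₀ δ d δ)
    rw [← hsplit]
    have i1 : ∫ s in (0)..d, Real.sinh ((δ - s) / 4) * sg (X₀ + s) = 0 := by
      rw [intervalIntegral.integral_of_le hd0.le]
      have : ∫ s in Set.Ioc 0 d, Real.sinh ((δ - s) / 4) * sg (X₀ + s) =
          ∫ s in Set.Ioo 0 d, Real.sinh ((δ - s) / 4) * sg (X₀ + s) :=
        setIntegral_congr_set Ioo_ae_eq_Ioc.symm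
      rw [this]
      refine setIntegral_eq_zero_of_forall_eq_zero (fun s hs => ?_)
      rw [hzero s hs.1.le hs.2, mul_zero]
    have i2 : ∫ s in d..δ, Real.sinh ((δ - s) / 4) * sg (X₀ + s) ≤
        (4 * Real.cosh ((δ - d) / 4) - 4 * Real.cosh ((δ - δ) / 4)) * (1 / 16) :=
      comp_const h1 le_rfl (fun s _ _ => sg_le _)
    rw [i1, zero_add]
    refine i2.trans ?_
    rw [hMe, sub_self, zero_div, Real.cosh_zero]
    -- elementary inequality
    set z := Real.exp (δ / 4) with hz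
    set Z := Real.exp (d / 4) with hZ
    have hZ1 : 1 ≤ Z := by rw [hZ, Real.one_le_exp_iff]; linarith
    have hzZ : Z ≤ z := by rw [hZ, hz, Real.exp_le_exp]; linarith
    have e1 : Real.exp (-(d / 4)) = Z⁻¹ := by rw [Real.exp_neg]
    have e2 : Real.cosh (δ / 4) = (z + z⁻¹) / 2 := by rw [Real.cosh_eq, Real.exp_neg]
    have e3 : Real.cosh ((δ - d) / 4) = (z / Z + Z / z) / 2 := by
      rw [Real.cosh_eq]
      have a1 : Real.exp ((δ - d) / 4) = z / Z := by
        rw [hz, hZ, ← Real.exp_sub]; congr 1; ring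
      have a2 : Real.exp (-((δ - d) / 4)) = Z / z := by
        rw [hz, hZ, ← Real.exp_sub]; congr 1; ring
      rw [a1, a2]
    rw [e1, e2, e3]
    have hz0 : 0 < z := Real.exp_pos _
    have hZ0 : 0 < Z := Real.exp_pos _
    have key : 4 * (Z⁻¹ / 16) * ((z + z⁻¹) / 2 - 1) -
        (4 * ((z / Z + Z / z) / 2) - 4 * 1) * (1 / 16) =
        (Z - 1) * (2 * z - Z - 1) / (8 * z * Z) := by
      field_simp
      ring
    have : 0 ≤ (Z - 1) * (2 * z - Z - 1) / (8 * z * Z) := by
      apply div_nonneg (mul_nonneg (by linarith) (by linarith)) (by positivity)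
    linarith

/-- the far range, walking away from the origin or towards it -/
theorem casec1 {X₀ δ : ℝ} (hδ : 0 ≤ δ) (hX : 57 / 5 ≤ X₀) :
    ∫ s in (0)..δ, Real.sinh ((δ - s) / 4) * sg (X₀ + s)
      ≤ 4 * Me X₀ * (Real.cosh (δ / 4) - 1) := by
  set d := X₀ - 57 / 5 with hd
  have hd0 : 0 ≤ d := by linarith
  set Z := Real.exp (d / 4) with hZ
  have hZ1 : 1 ≤ Z := by rw [hZ, Real.one_le_exp_iff]; linarith
  have hMe : Me X₀ = (1 - (1 - Z⁻¹) ^ 2) / 16 := by
    unfold Me
    rw [abs_of_nonneg (by linarith), mt_of_ge (by linarith), hZ, ← Real.exp_neg]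
    congr 5
    rw [hd]; ring
  have hle : ∀ s, 0 ≤ s → s ≤ δ → sg (X₀ + s) ≤ (Z⁻¹) ^ 2 / 16 := by
    intro s h1 h2
    rw [sg_tail (by rw [abs_of_nonneg (by linarith)]; linarith), abs_of_nonneg (by linarith), hZ,
      ← Real.exp_neg, ← Real.exp_nat_mul]
    have : Real.exp (-((X₀ + s - 57 / 5) / 2)) ≤ Real.exp (((2 : ℕ) : ℝ) * -(d / 4)) := by
      rw [Real.exp_le_exp, hd]; push_cast; linarith
    linarith
  refine (comp_const hδ le_rfl hle).trans ?_
  rw [sub_zero, sub_self, zero_div, Real.cosh_zero, hMe]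
  have h1 := one_le_cosh (δ / 4)
  have hZi : Z⁻¹ ≤ 1 := inv_le_one_of_one_le₀ hZ1
  have hZi0 : 0 < Z⁻¹ := by positivity
  have h2 : (Z⁻¹) ^ 2 ≤ 1 - (1 - Z⁻¹) ^ 2 := by nlinarith
  have : 4 * ((1 - (1 - Z⁻¹) ^ 2) / 16) * (Real.cosh (δ / 4) - 1) -
      (4 * Real.cosh (δ / 4) - 4 * 1) * ((Z⁻¹) ^ 2 / 16) =
      (1 / 4) * (Real.cosh (δ / 4) - 1) * (1 - (1 - Z⁻¹) ^ 2 - (Z⁻¹) ^ 2) := by ring
  have h3 : 0 ≤ (1 / 4) * (Real.cosh (δ / 4) - 1) * (1 - (1 - Z⁻¹) ^ 2 - (Z⁻¹) ^ 2) :=
    mul_nonneg (by positivity) (by linarith)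
  linarith

theorem casec2 {X₀ δ : ℝ} (hδ : 0 ≤ δ) (hX : X₀ ≤ -(57 / 5)) :
    ∫ s in (0)..δ, Real.sinh ((δ - s) / 4) * sg (X₀ + s)
      ≤ 4 * Me X₀ * (Real.cosh (δ / 4) - 1) := by
  set d := -X₀ - 57 / 5 with hd
  have hd0 : 0 ≤ d := by linarith
  set Z := Real.exp (d / 4) with hZ
  have hZ1 : 1 ≤ Z := by rw [hZ, Real.one_le_exp_iff]; linarith
  have hMe : Me X₀ = (1 - (1 - Z⁻¹) ^ 2) / 16 := by
    unfold Me
    rw [abs_of_nonpos (by linarith), mt_of_ge (by linarith), hZ, ← Real.exp_neg]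
    congr 5
    rw [hd]; ring
  have hle : ∀ s, s ≤ d → sg (X₀ + s) ≤ Real.exp (-((d - s) / 2)) * (1 / 16) := by
    intro s h2
    rw [sg_tail (by rw [abs_of_nonpos (by linarith)]; linarith), abs_of_nonpos (by linarith)]
    have : -(X₀ + s) - 57 / 5 = d - s := by rw [hd]; ring
    rw [this]
    linarith
  set z := Real.exp (δ / 4) with hz
  have hz0 : 0 < z := Real.exp_pos _
  have hZ0 : 0 < Z := Real.exp_pos _
  have e2 : Real.cosh (δ / 4) = (z + z⁻¹) / 2 := by rw [Real.cosh_eq, Real.exp_neg]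
  have hz1 : 1 ≤ z := by rw [hz, Real.one_le_exp_iff]; linarith
  have z0 : Real.exp (δ / 4 - d / 2 + 0 / 4) = z / Z ^ 2 := by
    rw [hz, hZ, ← Real.exp_nat_mul, ← Real.exp_sub]; congr 1; push_cast; ring
  have z1 : Real.exp (-(δ / 4) - d / 2 + 3 * 0 / 4) = 1 / (z * Z ^ 2) := by
    rw [hz, hZ, ← Real.exp_nat_mul, ← Real.exp_add, one_div, ← Real.exp_neg]; congr 1
    push_cast; ring
  rw [hMe, e2]
  rcases le_total δ d with h1 | h1
  · have i1 : ∫ s in (0)..δ, Real.sinh ((δ - s) / 4) * sg (X₀ + s) ≤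
        ∫ s in (0)..δ, Real.sinh ((δ - s) / 4) * (Real.exp (-((d - s) / 2)) * (1 / 16)) :=
      comp hδ le_rfl (by fun_prop) (fun s _ h3 => hle s (h3.trans h1))
    refine i1.trans ?_
    have i2 : ∫ s in (0)..δ, Real.sinh ((δ - s) / 4) * (Real.exp (-((d - s) / 2)) * (1 / 16)) =
        (∫ s in (0)..δ, Real.sinh ((δ - s) / 4) * Real.exp (-((d - s) / 2))) * (1 / 16) := by
      rw [← intervalIntegral.integral_mul_const]
      congr 1
      funext s
      ring
    rw [i2, int_exp, z0, z1]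
    have z2 : Real.exp (δ / 4 - d / 2 + δ / 4) = z ^ 2 / Z ^ 2 := by
      rw [hz, hZ, ← Real.exp_nat_mul, ← Real.exp_nat_mul, ← Real.exp_sub]; congr 1
      push_cast; ring
    have z3 : Real.exp (-(δ / 4) - d / 2 + 3 * δ / 4) = z ^ 2 / Z ^ 2 := by
      rw [hz, hZ, ← Real.exp_nat_mul, ← Real.exp_nat_mul, ← Real.exp_sub]; congr 1
      push_cast; ring
    rw [z2, z3]
    have hzZ : z ≤ Z := by rw [hZ, hz, Real.exp_le_exp]; linarith
    have key : 4 * ((1 - (1 - Z⁻¹) ^ 2) / 16) * ((z + z⁻¹) / 2 - 1) -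
        ((2 * (z ^ 2 / Z ^ 2) - 2 / 3 * (z ^ 2 / Z ^ 2)) -
          (2 * (z / Z ^ 2) - 2 / 3 * (1 / (z * Z ^ 2)))) * (1 / 16) =
        (z - 1) ^ 2 * (6 * Z - 2 * z - 4) / (24 * z * Z ^ 2) := by
      field_simp
      ring
    have : 0 ≤ (z - 1) ^ 2 * (6 * Z - 2 * z - 4) / (24 * z * Z ^ 2) := by
      apply div_nonneg (mul_nonneg (sq_nonneg _) (by linarith)) (by positivity)
    linarith
  · rw [← intervalIntegral.integral_add_adjacent_intervals (int_ker X₀ δ 0 d)
      (int_ker X₀ δ d δ)]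
    have i1 : ∫ s in (0)..d, Real.sinh ((δ - s) / 4) * sg (X₀ + s) ≤
        ∫ s in (0)..d, Real.sinh ((δ - s) / 4) * (Real.exp (-((d - s) / 2)) * (1 / 16)) :=
      comp hd0 h1 (by fun_prop) (fun s _ h3 => hle s h3)
    have i2 : ∫ s in (0)..d, Real.sinh ((δ - s) / 4) * (Real.exp (-((d - s) / 2)) * (1 / 16)) =
        (∫ s in (0)..d, Real.sinh ((δ - s) / 4) * Real.exp (-((d - s) / 2))) * (1 / 16) := by
      rw [← intervalIntegral.integral_mul_const]
      congr 1
      funext s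
      ring
    have i3 : ∫ s in d..δ, Real.sinh ((δ - s) / 4) * sg (X₀ + s) ≤
        (4 * Real.cosh ((δ - d) / 4) - 4 * Real.cosh ((δ - δ) / 4)) * (1 / 16) :=
      comp_const h1 le_rfl (fun s _ _ => sg_le _)
    rw [i2, int_exp, z0, z1] at i1
    rw [sub_self, zero_div, Real.cosh_zero] at i3
    have z2 : Real.exp (δ / 4 - d / 2 + d / 4) = z / Z := by
      rw [hz, hZ, ← Real.exp_sub]; congr 1; ring
    have z3 : Real.exp (-(δ / 4) - d / 2 + 3 * d / 4) = Z / z := by
      rw [hz, hZ, ← Real.exp_sub]; congr 1; ring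
    have e3 : Real.cosh ((δ - d) / 4) = (z / Z + Z / z) / 2 := by
      rw [Real.cosh_eq]
      have a1 : Real.exp ((δ - d) / 4) = z / Z := by
        rw [hz, hZ, ← Real.exp_sub]; congr 1; ring
      have a2 : Real.exp (-((δ - d) / 4)) = Z / z := by
        rw [hz, hZ, ← Real.exp_sub]; congr 1; ring
      rw [a1, a2]
    rw [z2, z3] at i1
    rw [e3] at i3
    refine (add_le_add i1 i3).trans ?_
    have hzZ : Z ≤ z := by rw [hZ, hz, Real.exp_le_exp]; linarith
    have key : 4 * ((1 - (1 - Z⁻¹) ^ 2) / 16) * ((z + z⁻¹) / 2 - 1) -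
        (((2 * (z / Z) - 2 / 3 * (Z / z)) -
          (2 * (z / Z ^ 2) - 2 / 3 * (1 / (z * Z ^ 2)))) * (1 / 16) +
          (4 * ((z / Z + Z / z) / 2) - 4 * 1) * (1 / 16)) =
        (Z - 1) ^ 2 * (3 * z - Z - 2) / (12 * z * Z ^ 2) := by
      field_simp
      ring
    have : 0 ≤ (Z - 1) ^ 2 * (3 * z - Z - 2) / (12 * z * Z ^ 2) := by
      apply div_nonneg (mul_nonneg (sq_nonneg _) (by linarith)) (by positivity)
    linarith

/-- nonnegative `δ` -/
theorem pos {X₀ δ : ℝ} (hδ : 0 ≤ δ) :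
    ∫ s in (0)..δ, Real.sinh ((δ - s) / 4) * sg (X₀ + s)
      ≤ 4 * Me X₀ * (Real.cosh (δ / 4) - 1) := by
  rcases lt_or_ge (|X₀|) 6 with h1 | h1
  · exact caseb hδ h1
  · rcases le_total (|X₀|) (57 / 5) with h2 | h2
    · have hMe : Me X₀ = 1 / 16 := by
        unfold Me
        rw [mt_mid (by linarith) (by linarith)]
      refine (comp_const hδ le_rfl (fun s _ _ => sg_le _)).trans (le_of_eq ?_)
      rw [hMe, sub_zero, sub_self, zero_div, Real.cosh_zero]
      ring
    · rcases le_total 0 X₀ with h3 | h3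
      · exact casec1 hδ (by rwa [abs_of_nonneg h3] at h2)
      · exact casec2 hδ (by rw [abs_of_nonpos h3] at h2; linarith)

end MsAux

open MsAux in
/-- (Ms) weighted averages of `sg` -/
theorem ms : StmtMs := by
  refine ⟨fun X => by unfold Me; have := mt_nonneg (|X| / 2); positivity,
    fun X => by unfold Me; have := mt_le_one (|X| / 2); linarith, continuous_Me, continuous_mt,
    fun x t _ _ => mt_lip x t, ?_⟩
  intro X₀ δ
  rcases le_total 0 δ with h | h
  · exact MsAux.pos h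
  · have h1 := MsAux.pos (X₀ := -X₀) (δ := -δ) (by linarith)
    have h2 : ∫ s in (0)..δ, Real.sinh ((δ - s) / 4) * sg (X₀ + s) =
        ∫ s in (0)..(-δ), Real.sinh ((-δ - s) / 4) * sg (-X₀ + s) := by
      have h3 := intervalIntegral.integral_comp_neg (a := 0) (b := -δ)
        (fun s => Real.sinh ((δ - s) / 4) * sg (X₀ + s))
      rw [neg_neg, neg_zero] at h3
      rw [intervalIntegral.integral_symm, ← h3, ← intervalIntegral.integral_neg]
      congr 1
      funext s
      have e1 : (δ - -s) / 4 = -((-δ - s) / 4) := by ring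
      have e2 : X₀ + -s = -(-X₀ + s) := by ring
      rw [e1, e2, Real.sinh_neg, sg_even]
      ring
    have h4 : Me (-X₀) = Me X₀ := by unfold Me; rw [abs_neg]
    have h5 : Real.cosh (-δ / 4) = Real.cosh (δ / 4) := by rw [neg_div, Real.cosh_neg]
    rw [h4, h5] at h1
    rw [h2]
    exact h1

end Pool.Agent.Lib.MP_dd244f_an.Rq
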