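import Pool.Agent.Lib.MP_dd244f_an.Rq.Stmts

/-!
Rq, module (NR): the non-radial part.
-/

set_option autoImplicit false

namespace Pool.Agent.Lib.MP_dd244f_an.Rq

open MeasureTheory Filter Topology Set
open scoped ENNReal NNReal

/-- indicator of `[-a, a]` -/
noncomputable def nrc (a L : ℝ) : ℝ := if |L| ≤ a then 1 else 0

/-- indicator of `(-a, a)` -/
noncomputable def nro (a L : ℝ) : ℝ := if |L| < a then 1 else 0

theorem nrc_int {a : ℝ} (ha : 0 ≤ a) : Integrable (nrc a) ∧ ∫ L, nrc a L = 2 * a := by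
  have e : nrc a = (Icc (-a) a).indicator fun _ => (1 : ℝ) := by
    funext L
    simp only [nrc, indicator, mem_Icc, abs_le]
  have hi : IntegrableOn (fun _ : ℝ => (1 : ℝ)) (Icc (-a) a) :=
    integrableOn_const (by simp [Real.volume_Icc])
  rw [e]
  refine ⟨hi.integrable_indicator measurableSet_Icc, ?_⟩
  rw [integral_indicator measurableSet_Icc, setIntegral_const, smul_eq_mul, mul_one,
    Real.volume_real_Icc_of_le (by linarith)]
  ring

theorem nro_int {a : ℝ} (ha : 0 ≤ a) : Integrable (nro a) ∧ ∫ L, nro a L = 2 * a := by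
  have e : nro a = (Ioo (-a) a).indicator fun _ => (1 : ℝ) := by
    funext L
    simp only [nro, indicator, mem_Ioo, abs_lt]
  have hi : IntegrableOn (fun _ : ℝ => (1 : ℝ)) (Ioo (-a) a) :=
    integrableOn_const (by simp [Real.volume_Ioo])
  rw [e]
  refine ⟨hi.integrable_indicator measurableSet_Ioo, ?_⟩
  rw [integral_indicator measurableSet_Ioo, setIntegral_const, smul_eq_mul, mul_one,
    Real.volume_real_Ioo_of_le (by linarith)]
  ring

theorem kbar_eq (L : ℝ) : kbar L = 19 / 10 * nrc (17 / 10) L + 265 / 100 * nrc (254 / 100) L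
    + 215 / 100 * nrc (324 / 100) L + 153 / 100 * nrc (392 / 100) L + 102 / 100 * nrc (46 / 10) L
    + 63 / 100 * nrc (525 / 100) L + 82 / 100 * nrc (59 / 10) L
    - 107 / 10 * nro (39 / 100) L := by
  unfold kbar nrc nro
  have hh : |L| < 39 / 100 ∨ 39 / 100 ≤ |L| := lt_or_ge _ _
  rcases hh with h0 | h0
  · rw [if_pos h0, if_pos h0, if_pos (by linarith), if_pos (by linarith), if_pos (by linarith),
      if_pos (by linarith), if_pos (by linarith), if_pos (by linarith), if_pos (by linarith)]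
    norm_num
  rw [if_neg (not_lt.2 h0), if_neg (not_lt.2 h0)]
  by_cases h1 : |L| ≤ 17 / 10
  · rw [if_pos h1, if_pos h1, if_pos (by linarith), if_pos (by linarith), if_pos (by linarith),
      if_pos (by linarith), if_pos (by linarith), if_pos (by linarith)]
    norm_num
  rw [if_neg h1, if_neg h1]
  by_cases h2 : |L| ≤ 254 / 100
  · rw [if_pos h2, if_pos h2, if_pos (by linarith), if_pos (by linarith), if_pos (by linarith),
      if_pos (by linarith), if_pos (by linarith)]
    norm_num
  rw [if_neg h2, if_neg h2]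
  by_cases h3 : |L| ≤ 324 / 100
  · rw [if_pos h3, if_pos h3, if_pos (by linarith), if_pos (by linarith), if_pos (by linarith),
      if_pos (by linarith)]
    norm_num
  rw [if_neg h3, if_neg h3]
  by_cases h4 : |L| ≤ 392 / 100
  · rw [if_pos h4, if_pos h4, if_pos (by linarith), if_pos (by linarith), if_pos (by linarith)]
    norm_num
  rw [if_neg h4, if_neg h4]
  by_cases h5 : |L| ≤ 46 / 10
  · rw [if_pos h5, if_pos h5, if_pos (by linarith), if_pos (by linarith)]
    norm_num
  rw [if_neg h5, if_neg h5]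
  by_cases h6 : |L| ≤ 525 / 100
  · rw [if_pos h6, if_pos h6, if_pos (by linarith)]
    norm_num
  rw [if_neg h6, if_neg h6]
  by_cases h7 : |L| ≤ 59 / 10
  · rw [if_pos h7, if_pos h7]
    norm_num
  rw [if_neg h7, if_neg h7]
  norm_num

theorem kbar_int : Integrable kbar ∧ ∫ L, kbar L = 631782 / 10000 := by
  have e : kbar = fun L => 19 / 10 * nrc (17 / 10) L + 265 / 100 * nrc (254 / 100) L
    + 215 / 100 * nrc (324 / 100) L + 153 / 100 * nrc (392 / 100) L + 102 / 100 * nrc (46 / 10) L
    + 63 / 100 * nrc (525 / 100) L + 82 / 100 * nrc (59 / 10) L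
    - 107 / 10 * nro (39 / 100) L := funext kbar_eq
  obtain ⟨i1, v1⟩ := nrc_int (a := 17 / 10) (by norm_num)
  obtain ⟨i2, v2⟩ := nrc_int (a := 254 / 100) (by norm_num)
  obtain ⟨i3, v3⟩ := nrc_int (a := 324 / 100) (by norm_num)
  obtain ⟨i4, v4⟩ := nrc_int (a := 392 / 100) (by norm_num)
  obtain ⟨i5, v5⟩ := nrc_int (a := 46 / 10) (by norm_num)
  obtain ⟨i6, v6⟩ := nrc_int (a := 525 / 100) (by norm_num)
  obtain ⟨i7, v7⟩ := nrc_int (a := 59 / 10) (by norm_num)
  obtain ⟨i8, v8⟩ := nro_int (a := 39 / 100) (by norm_num)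
  have j1 := i1.const_mul (19 / 10)
  have j2 := i2.const_mul (265 / 100)
  have j3 := i3.const_mul (215 / 100)
  have j4 := i4.const_mul (153 / 100)
  have j5 := i5.const_mul (102 / 100)
  have j6 := i6.const_mul (63 / 100)
  have j7 := i7.const_mul (82 / 100)
  have j8 := i8.const_mul (107 / 10)
  have k2 : Integrable fun L => 19 / 10 * nrc (17 / 10) L + 265 / 100 * nrc (254 / 100) L :=
    j1.add j2
  have k3 : Integrable fun L => 19 / 10 * nrc (17 / 10) L + 265 / 100 * nrc (254 / 100) L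
    + 215 / 100 * nrc (324 / 100) L := k2.add j3
  have k4 : Integrable fun L => 19 / 10 * nrc (17 / 10) L + 265 / 100 * nrc (254 / 100) L
    + 215 / 100 * nrc (324 / 100) L + 153 / 100 * nrc (392 / 100) L := k3.add j4
  have k5 : Integrable fun L => 19 / 10 * nrc (17 / 10) L + 265 / 100 * nrc (254 / 100) L
    + 215 / 100 * nrc (324 / 100) L + 153 / 100 * nrc (392 / 100) L
    + 102 / 100 * nrc (46 / 10) L := k4.add j5
  have k6 : Integrable fun L => 19 / 10 * nrc (17 / 10) L + 265 / 100 * nrc (254 / 100) L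
    + 215 / 100 * nrc (324 / 100) L + 153 / 100 * nrc (392 / 100) L
    + 102 / 100 * nrc (46 / 10) L + 63 / 100 * nrc (525 / 100) L := k5.add j6
  have k7 : Integrable fun L => 19 / 10 * nrc (17 / 10) L + 265 / 100 * nrc (254 / 100) L
    + 215 / 100 * nrc (324 / 100) L + 153 / 100 * nrc (392 / 100) L
    + 102 / 100 * nrc (46 / 10) L + 63 / 100 * nrc (525 / 100) L
    + 82 / 100 * nrc (59 / 10) L := k6.add j7
  rw [e]
  refine ⟨k7.sub j8, ?_⟩
  rw [integral_sub k7 j8, integral_add k6 j7, integral_add k5 j6, integral_add k4 j5,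
    integral_add k3 j4, integral_add k2 j3, integral_add j1 j2]
  simp only [integral_const_mul, v1, v2, v3, v4, v5, v6, v7, v8]
  norm_num

theorem nr (hK : StmtKap) (hB : StmtBm) (h8 : StmtB8) (h1 : StmtK1) (hN : StmtGn) : StmtNR := by
  obtain ⟨-, hk0, hk1, hki, hkv, -⟩ := hK
  obtain ⟨hBm, hB0, hB8, -⟩ := hB
  obtain ⟨-, h8m, h8b, -, h8v, -⟩ := h8
  obtain ⟨-, -, hri, hrv⟩ := h1
  -- the coefficient
  have hc1 : ∀ L, 8 * Bm L ≤ 1163 / 100 := by
    intro L
    rcases le_total 0 L with h | h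
    · exact (hB8 L h).trans (h8b L h).2
    · have := hB8 (-L) (by linarith)
      rw [(hB0 L).2] at this
      exact this.trans (h8b (-L) (by linarith)).2
  have hc2 : ∀ L, |L| ≤ 1 → 8 * Bm L ≤ 773 / 100 := by
    intro L hL
    have v := h8v 1 (773 / 100) (by simp)
    rcases le_total 0 L with h | h
    · exact (hB8 L h).trans ((h8m L 1 h ((le_abs_self L).trans hL) (by norm_num)).trans v)
    · have := hB8 (-L) (by linarith)
      rw [(hB0 L).2] at this
      exact this.trans ((h8m (-L) 1 (by linarith) ((neg_le_abs L).trans hL) (by norm_num)).trans v)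
  -- the difference
  set D : ℝ → ℝ := fun L => 2 * kap L - 2 * Real.pi * k1r L with hD
  have hDi : Integrable D := (hki.const_mul 2).sub (hri.const_mul (2 * Real.pi))
  have hDv : ∫ L, D L = 2 * (2 * Real.pi ^ 3 / G (3 / 4) 0 ^ 4) - 2 * Real.pi * Real.pi := by
    rw [hD, integral_sub (hki.const_mul 2) (hri.const_mul (2 * Real.pi)),
      integral_const_mul, integral_const_mul, hkv, hrv]
  have hpi := Real.pi_pos
  have hDlow : ∀ L, L ≠ 0 → 2 * Real.pi * Real.exp (-(|L| / 2)) ≤ D L := by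
    intro L hL
    have hk : 2 * Real.pi * Real.exp (-(|L| / 2)) ≤ kap L := by
      rcases lt_or_gt_of_ne hL with h | h
      · have := (hk1 (-L) (by linarith)).1
        rw [(hk0 L).2] at this
        rwa [abs_of_neg h]
      · rw [abs_of_pos h]
        exact (hk1 L h).1
    have hr : k1r L ≤ Real.exp (-(|L| / 2)) := by
      unfold k1r
      refine div_le_self (Real.exp_pos _).le ?_
      linarith [Real.exp_pos (-|L|)]
    have := mul_le_mul_of_nonneg_left hr (by positivity : (0 : ℝ) ≤ 2 * Real.pi)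
    simp only [hD]
    linarith
  have hae : ∀ᵐ L : ℝ, L ≠ 0 := by simp [ae_iff]
  have hint : Integrable (fun L => 8 * Bm L * (2 * kap L - 2 * Real.pi * k1r L)) := by
    refine (hDi.norm.const_mul (1163 / 100)).mono'
      (((hBm.const_mul 8).aestronglyMeasurable).mul hDi.1) (Eventually.of_forall fun L => ?_)
    rw [norm_mul, Real.norm_of_nonneg (by linarith [(hB0 L).1] : 0 ≤ 8 * Bm L)]
    exact mul_le_mul_of_nonneg_right (hc1 L) (norm_nonneg _)
  refine ⟨hint, ?_⟩
  obtain ⟨ci, cv⟩ := nrc_int (a := 1) (by norm_num)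
  have hle : ∫ L, 8 * Bm L * (2 * kap L - 2 * Real.pi * k1r L)
      ≤ ∫ L, (1163 / 100 * D L - 39 / 10 * Real.pi * nrc 1 L) := by
    refine integral_mono_ae hint ((hDi.const_mul _).sub (ci.const_mul _)) ?_
    filter_upwards [hae] with L hL
    have hd := hDlow L hL
    have hD0 : 0 ≤ D L := le_trans (by positivity) hd
    by_cases hc : |L| ≤ 1
    · have h2 := mul_le_mul_of_nonneg_right (hc2 L hc) hD0
      have h3 : Real.pi ≤ D L := by
        refine le_trans ?_ hd
        have := Real.add_one_le_exp (-(|L| / 2))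
        nlinarith
      simp only [nrc, if_pos hc]
      simp only [hD] at h2 h3 ⊢
      linarith
    · have h2 := mul_le_mul_of_nonneg_right (hc1 L) hD0
      simp only [nrc, if_neg hc]
      simp only [hD] at h2 ⊢
      linarith
  refine hle.trans ?_
  rw [integral_sub (hDi.const_mul _) (ci.const_mul _), integral_const_mul, integral_const_mul, cv,
    hDv, kbar_int.2]
  -- numerical part
  have hg := hN 0 (by norm_num)
  simp only [Nat.cast_zero, zero_div, gt] at hg
  have hg1 : 15016 / 10000 ≤ G (3 / 4) 0 ^ 2 := by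
    have := (abs_le.1 hg).1
    linarith
  have hg2 : 22548 / 10000 ≤ G (3 / 4) 0 ^ 4 := by
    have : G (3 / 4) 0 ^ 4 = (G (3 / 4) 0 ^ 2) ^ 2 := by ring
    rw [this]
    nlinarith
  have hp1 : Real.pi < 31416 / 10000 := by
    have := Real.pi_lt_d4
    linarith
  have hp2 : 31415 / 10000 < Real.pi := by
    have := Real.pi_gt_d4
    linarith
  have hq : Real.pi ^ 2 / G (3 / 4) 0 ^ 4 ≤ 98697 / 22548 := by
    rw [div_le_div_iff₀ (by linarith) (by norm_num)]
    nlinarith
  have e : 2 * (2 * Real.pi ^ 3 / G (3 / 4) 0 ^ 4) - 2 * Real.pi * Real.pi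
      = Real.pi * (4 * (Real.pi ^ 2 / G (3 / 4) 0 ^ 4) - 2 * Real.pi) := by ring
  rw [e]
  have : 1163 / 100 * (4 * (Real.pi ^ 2 / G (3 / 4) 0 ^ 4) - 2 * Real.pi) - 39 / 10 * (2 * 1)
      ≤ 2 * (631782 / 10000) := by linarith
  nlinarith [mul_le_mul_of_nonneg_left this hpi.le]

end Pool.Agent.Lib.MP_dd244f_an.Rq
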