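import Pool.Agent.Lib.MP_dd244f_an.Rq.Stmts
import Pool.Agent.Lib.MP_dd244f_an.Rp.LineTools

/-!
(PD2) positive definiteness of the remaining part of the weight.
-/

set_option autoImplicit false

namespace Pool.Agent.Lib.MP_dd244f_an.Rq

open MeasureTheory Filter Topology Finset
open Pool.Agent.Lib.MP_dd244f_an.Rp
open Pool.Agent.Lib.MP_dd244f_an.Rp.LineTools

namespace PD2

/-- `(1 + Y²) / (cosh (π Y) + cos (π t))` is positive definite for `0 < t < 1` -/
theorem pd_cosh_cos1 (hP : StmtPDc) (hG : StmtGam) (hC : StmtCosh) {t : ℝ} (h1 : 0 < t)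
    (h2 : t < 1) : PD (fun Y => D 1 Y / (Real.cosh (Real.pi * Y) + Real.cos (Real.pi * t))) := by
  have ha : 0 < (1 + t) / 2 := by linarith
  have hb : 0 < (1 - t) / 2 := by linarith
  have h1' : -1 < t := by linarith
  set c : ℝ := Real.Gamma ((1 + t) / 2) ^ 2 * Real.Gamma ((1 - t) / 2) ^ 2 / (2 * Real.pi ^ 2)
    with hc
  have g1 := Real.Gamma_pos_of_pos ha
  have g2 := Real.Gamma_pos_of_pos hb
  have hc0 : 0 < c := by positivity
  refine pd_lim hP (f := fun N Y => c * ((∏ j ∈ Finset.range (N + 1),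
    (1 / D ((1 + t) / 2 + j) (1 / 2 * Y))) * ((∏ j ∈ Finset.range N,
    (1 / D ((1 - t) / 2 + ((j + 1 : ℕ) : ℝ)) (1 / 2 * Y))) * (D 1 Y / D (1 - t) Y))))
    (fun N => ?_) (fun Y => ?_) ?_
  · refine pd_smul hP hc0.le (pd_mul hP (pd_prod hP _ _ (fun j _ => ?_))
      (pd_mul hP (pd_prod hP _ _ (fun j _ => ?_)) (pd_div hP (by linarith) (by linarith))))
    · exact pd_scale hP (1 / 2) (pd_inv hP (A := (1 + t) / 2 + j) (by positivity))
    · exact pd_scale hP (1 / 2) (pd_inv hP (A := (1 - t) / 2 + ((j + 1 : ℕ) : ℝ))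
        (by positivity))
  · obtain ⟨n1, t1⟩ := hG ((1 + t) / 2) (1 / 2 * Y) ha
    obtain ⟨n2, t2⟩ := hG ((1 - t) / 2) (1 / 2 * Y) hb
    have t1 := t1.comp (tendsto_add_atTop_nat 1)
    have t2 := t2.comp (tendsto_add_atTop_nat 1)
    have hcc := hC t Y h1' h2
    have e1 : ((((1 + t) / 2 : ℝ) : ℂ) + Complex.I * ((1 / 2 * Y : ℝ) : ℂ))
        = (1 + t + Complex.I * Y) / 2 := by
      push_cast; ring
    have e2 : ((((1 - t) / 2 : ℝ) : ℂ) + Complex.I * ((1 / 2 * Y : ℝ) : ℂ))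
        = (1 - t + Complex.I * Y) / 2 := by
      push_cast; ring
    rw [e1] at n1 t1
    rw [e2] at n2 t2
    have p1 : 0 < ‖Complex.Gamma ((1 + t + Complex.I * Y) / 2)‖ := norm_pos_iff.2 n1
    have p2 : 0 < ‖Complex.Gamma ((1 - t + Complex.I * Y) / 2)‖ := norm_pos_iff.2 n2
    have i1 := t1.inv₀ (by positivity)
    have i2 := t2.inv₀ (by positivity)
    have h3 := ((i1.mul i2).const_mul c).const_mul (D 1 Y)
    have e : D 1 Y * (c * ((Real.Gamma ((1 + t) / 2) ^ 2 /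
        ‖Complex.Gamma ((1 + t + Complex.I * Y) / 2)‖ ^ 2)⁻¹ *
        (Real.Gamma ((1 - t) / 2) ^ 2 / ‖Complex.Gamma ((1 - t + Complex.I * Y) / 2)‖ ^ 2)⁻¹))
        = D 1 Y / (Real.cosh (Real.pi * Y) + Real.cos (Real.pi * t)) := by
      rw [hcc, hc]
      field_simp
    rw [e] at h3
    refine h3.congr (fun N => ?_)
    simp only [Function.comp_apply]
    have q1 : ∏ j ∈ Finset.range (N + 1), (1 / D ((1 + t) / 2 + (j : ℝ)) (1 / 2 * Y))
        = (∏ j ∈ Finset.range (N + 1), (1 + (1 / 2 * Y) ^ 2 / ((1 + t) / 2 + (j : ℝ)) ^ 2))⁻¹ := by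
      rw [← Finset.prod_inv_distrib]
      exact Finset.prod_congr rfl (fun j _ => one_div _)
    have q2 : (∏ j ∈ Finset.range (N + 1), (1 + (1 / 2 * Y) ^ 2 / ((1 - t) / 2 + (j : ℝ)) ^ 2))⁻¹
        = (∏ j ∈ Finset.range N,
    (1 / D ((1 - t) / 2 + ((j + 1 : ℕ) : ℝ)) (1 / 2 * Y))) * (1 / D (1 - t) Y) := by
      rw [← Finset.prod_inv_distrib, Finset.prod_range_succ']
      congr 1
      · exact Finset.prod_congr rfl (fun j _ => (one_div _).symm)
      · rw [← one_div]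
        congr 1
        unfold D
        rw [Nat.cast_zero, add_zero]
        have : (1 - t) ≠ 0 := by linarith
        field_simp
    rw [q1, q2]
    ring
  · refine Continuous.div (by unfold D; fun_prop) (by fun_prop)
      (fun Y => (cosh_cos_pos h1' h2 Y).ne')

theorem norm_cz_quarter (y : ℝ) :
    ‖cz (1 / (2 * (2 : ℕ)) + Complex.I * y)‖ ^ 2 = Real.pi *
      (‖Complex.Gamma (((1 / 4 : ℝ) : ℂ) + Complex.I * y)‖ ^ 2 /
        ‖Complex.Gamma (((1 - 1 / 4 : ℝ) : ℂ) + Complex.I * y)‖ ^ 2) := by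
  have e1 : (1 / (2 * ((2 : ℕ) : ℂ)) + Complex.I * y) = ((1 / 4 : ℝ) : ℂ) + Complex.I * y := by
    push_cast; norm_num
  rw [e1]
  unfold cz
  rw [norm_div, norm_mul, Complex.norm_cpow_eq_rpow_re_of_pos Real.pi_pos]
  have e2 : (1 - 2 * (((1 / 4 : ℝ) : ℂ) + Complex.I * (y : ℂ))).re = 1 / 2 := by
    simp
    norm_num
  have e3 : ‖Complex.Gamma (1 - (((1 / 4 : ℝ) : ℂ) + Complex.I * (y : ℂ)))‖
      = ‖Complex.Gamma (((1 - 1 / 4 : ℝ) : ℂ) + Complex.I * y)‖ := by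
    have : (1 - (((1 / 4 : ℝ) : ℂ) + Complex.I * (y : ℂ)))
        = starRingEnd ℂ (((1 - 1 / 4 : ℝ) : ℂ) + Complex.I * y) := by
      rw [map_add, map_mul, Complex.conj_I, Complex.conj_ofReal, Complex.conj_ofReal]
      push_cast
      ring
    rw [this, Complex.Gamma_conj, Complex.norm_conj]
  rw [e2, e3, div_pow, mul_pow, ← Real.sqrt_eq_rpow, Real.sq_sqrt Real.pi_pos.le]
  ring

end PD2

open PD2

/-- (PD2) -/
theorem pd2 (hP : Rp.StmtPDc) (hG : Rp.StmtGam) (hC : Rp.StmtCosh) : StmtPD2 := by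
  intro t h1 h2
  have h1' : -1 < t := by linarith
  have hg1 : ∀ y : ℝ, 0 < ‖Complex.Gamma (((1 / 4 : ℝ) : ℂ) + Complex.I * y)‖ := fun y =>
    norm_pos_iff.2 (hG (1 / 4) y (by norm_num)).1
  have hg2 : ∀ y : ℝ, 0 < ‖Complex.Gamma (((1 - 1 / 4 : ℝ) : ℂ) + Complex.I * y)‖ := fun y =>
    norm_pos_iff.2 (hG (1 - 1 / 4) y (by norm_num)).1
  have hn : 0 ≤ 1 - Real.cos (Real.pi * t) := by
    have := Real.cos_le_one (Real.pi * t)
    linarith
  have hw : ∀ y, w2 t y = (1 - Real.cos (Real.pi * t)) /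
      ((Real.cosh (4 * Real.pi * y) + 1) * (Real.cosh (4 * Real.pi * y) + Real.cos (Real.pi * t)) *
      (Real.pi * (‖Complex.Gamma (((1 / 4 : ℝ) : ℂ) + Complex.I * y)‖ ^ 2 /
        ‖Complex.Gamma (((1 - 1 / 4 : ℝ) : ℂ) + Complex.I * y)‖ ^ 2)) ^ 2) := by
    intro y
    unfold w2
    rw [← norm_cz_quarter, ← pow_mul]
  have hcc : ∀ y : ℝ, 0 < Real.cosh (4 * Real.pi * y) + Real.cos (Real.pi * t) := by
    intro y
    have := cosh_cos_pos h1' h2 (4 * y)
    rwa [show Real.pi * (4 * y) = 4 * Real.pi * y by ring] at this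
  have hc1 : ∀ y : ℝ, 0 < Real.cosh (4 * Real.pi * y) + 1 := by
    intro y
    have := Real.cosh_pos (4 * Real.pi * y)
    linarith
  refine ⟨?_, ?_⟩
  · rw [show w2 t = _ from funext hw]
    have c1 := cont_gamma (a := 1 / 4) (by norm_num)
    have c2 := cont_gamma (a := 1 - 1 / 4) (by norm_num)
    refine Continuous.div continuous_const (Continuous.mul (by fun_prop)
      ((continuous_const.mul (Continuous.div (c1.pow 2) (c2.pow 2) (fun y => ?_))).pow 2))
      (fun y => ?_)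
    · exact pow_ne_zero _ (hg2 y).ne'
    · have a1 := hg1 y
      have a2 := hg2 y
      have a3 := hc1 y
      have a4 := hcc y
      have a5 := Real.pi_pos
      exact mul_ne_zero (mul_ne_zero a3.ne' a4.ne') (pow_ne_zero _ (mul_ne_zero a5.ne'
        (div_ne_zero (pow_ne_zero _ a1.ne') (pow_ne_zero _ a2.ne'))))
  · have hR := pd_R hP hG (x := 1 / 4) (by norm_num) (by norm_num)
    have hA := pd_cosh_cos1 hP hG hC h1 h2
    have hB := pd_tail hP hG hC 1
    refine pd_congr (pd_smul hP (c := (1 - Real.cos (Real.pi * t)) / (32 * Real.pi ^ 2))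
      (by positivity) (pd_mul hP (pd_pow hP hR 2) (pd_scale hP 4 (pd_mul hP (pd_pow hP hB 2) hA))))
      (fun y => ?_)
    rw [hw]
    have e5 : y ^ 2 + (1 / (2 * ((2 : ℕ) : ℝ))) ^ 2 = 1 / 16 * D 1 (4 * y) := by
      unfold D
      push_cast
      ring
    have e4 : D (1 / 4) y = D 1 (4 * y) := by
      unfold D
      ring
    have e6 : Real.cosh (4 * Real.pi * y) + 1 = 2 * Real.cosh (Real.pi * (4 * y) / 2) ^ 2 := by
      rw [← cosh_add_one]
      congr 2
      ring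
    have e7 : 4 * Real.pi * y = Real.pi * (4 * y) := by ring
    have e8 : ∏ j ∈ Finset.range 1, D (2 * ((j : ℕ) : ℝ) + 1) (4 * y) = D 1 (4 * y) := by
      rw [Finset.prod_range_one]
      norm_num
    have n2 := (hcc y).ne'
    have n3 := (Real.cosh_pos (Real.pi * (4 * y) / 2)).ne'
    have n4 := D_ne 1 (4 * y)
    have a1 := (hg1 y).ne'
    have a2 := (hg2 y).ne'
    have a5 := Real.pi_ne_zero
    rw [e5, e4, e6, e8]
    rw [e7] at n2 ⊢
    generalize ‖Complex.Gamma (((1 - 1 / 4 : ℝ) : ℂ) + Complex.I * y)‖ = x1 at *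
    generalize ‖Complex.Gamma (((1 / 4 : ℝ) : ℂ) + Complex.I * y)‖ = x2 at *
    field_simp
    ring

end Pool.Agent.Lib.MP_dd244f_an.Rq
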