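import Pool.Agent.Lib.MP_dd244f_an.Rq.Stmts

/-!
# Module (PS): Poisson summation
-/

set_option autoImplicit false

namespace Pool.Agent.Lib.MP_dd244f_an.Rq

open MeasureTheory Filter Topology Asymptotics
open scoped FourierTransform

/-- quadratic decay along an arithmetic progression -/
theorem isBigO_quad {F : ℝ → ℂ} {C X a : ℝ} (ha : a ≠ 0) (hC : 0 ≤ C)
    (hF : ∀ w, ‖F w‖ ≤ C / (1 + (X - a * w) ^ 2)) :
    F =O[cocompact ℝ] (fun x : ℝ => |x| ^ (-2 : ℝ)) := by
  refine IsBigO.of_bound (C * (2 + 2 * X ^ 2) / a ^ 2) ?_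
  have h0 : ({0} : Set ℝ)ᶜ ∈ cocompact ℝ := isCompact_singleton.compl_mem_cocompact
  filter_upwards [h0] with w hw
  have hw0 : w ≠ 0 := by simpa using hw
  have hwp : 0 < |w| := abs_pos.mpr hw0
  have hpow : |w| ^ (-2 : ℝ) = (w ^ 2)⁻¹ := by
    rw [Real.rpow_neg (abs_nonneg w)]
    congr 1
    rw [show (2 : ℝ) = ((2 : ℕ) : ℝ) by norm_num, Real.rpow_natCast, sq_abs]
  rw [hpow, norm_inv, Real.norm_of_nonneg (sq_nonneg w)]
  refine (hF w).trans ?_
  have ha2 : 0 < a ^ 2 := by positivity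
  have hw2 : 0 < w ^ 2 := by positivity
  have h1 : 0 < 1 + (X - a * w) ^ 2 := by positivity
  rw [← div_eq_mul_inv, div_div, div_le_div_iff₀ h1 (by positivity)]
  have hk : a ^ 2 * w ^ 2 ≤ (2 + 2 * X ^ 2) * (1 + (X - a * w) ^ 2) := by
    nlinarith [sq_nonneg (X * (X - a * w)), sq_nonneg (X + (X - a * w)), sq_nonneg X,
      sq_nonneg (X - a * w)]
  calc C * (a ^ 2 * w ^ 2) ≤ C * ((2 + 2 * X ^ 2) * (1 + (X - a * w) ^ 2)) :=
        mul_le_mul_of_nonneg_left hk hC
    _ = C * (2 + 2 * X ^ 2) * (1 + (X - a * w) ^ 2) := by ring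

/-- (PS) Poisson summation -/
theorem ps : StmtPS := by
  intro g V C h hg hgC hV hVC hh X
  have hC : 0 ≤ C := by
    have := (norm_nonneg _).trans (hgC 0)
    simpa using this
  have hh0 : h ≠ 0 := hh.ne'
  have hpi : (0 : ℝ) < Real.pi := Real.pi_pos
  have ha : (2 * Real.pi / h : ℝ) ≠ 0 := by positivity
  set f : ℝ → ℂ := fun t => g (h * t) * Complex.exp (Complex.I * (X * (h * t) : ℝ)) with hf
  have hfc : Continuous f := by
    rw [hf]
    fun_prop
  have hnorm : ∀ t, ‖f t‖ ≤ C / (1 + (0 - h * t) ^ 2) := by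
    intro t
    have h1 : ‖Complex.exp (Complex.I * (X * (h * t) : ℝ))‖ = 1 := by
      rw [mul_comm, Complex.norm_exp_ofReal_mul_I]
    rw [hf]
    simp only [norm_mul, h1, mul_one]
    have := hgC (h * t)
    have e : (0 - h * t) ^ 2 = (h * t) ^ 2 := by ring
    rw [e]
    exact this
  have hFf : ∀ w : ℝ, 𝓕 f w = (1 / h : ℝ) * V (X - 2 * Real.pi / h * w) := by
    intro w
    rw [Real.fourier_real_eq_integral_exp_smul, hV]
    have key := MeasureTheory.Measure.integral_comp_mul_left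
      (fun y : ℝ => g y * Complex.exp (Complex.I * ((X - 2 * Real.pi / h * w) * y : ℝ))) h
    have e2 : (|h⁻¹| : ℝ) = 1 / h := by rw [abs_of_pos (by positivity), one_div]
    rw [e2] at key
    rw [← Complex.real_smul, ← key]
    congr 1
    ext v
    rw [hf]
    simp only [smul_eq_mul]
    rw [mul_comm (Complex.exp _) (_ * _), mul_assoc, ← Complex.exp_add]
    congr 2
    push_cast
    have hhc : (h : ℂ) ≠ 0 := by exact_mod_cast hh0
    field_simp
    ring
  have hFO : (𝓕 f) =O[cocompact ℝ] (fun x : ℝ => |x| ^ (-2 : ℝ)) := by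
    refine isBigO_quad (C := C / h) (X := X) ha (by positivity) ?_
    intro w
    rw [hFf, norm_mul, Complex.norm_real, Real.norm_of_nonneg (by positivity)]
    calc 1 / h * ‖V (X - 2 * Real.pi / h * w)‖
        ≤ 1 / h * (C / (1 + (X - 2 * Real.pi / h * w) ^ 2)) :=
          mul_le_mul_of_nonneg_left (hVC _) (by positivity)
      _ = C / h / (1 + (X - 2 * Real.pi / h * w) ^ 2) := by ring
  have hfO : f =O[cocompact ℝ] (fun x : ℝ => |x| ^ (-2 : ℝ)) :=
    isBigO_quad (C := C) (X := 0) hh0 hC hnorm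
  have hsF : Summable fun n : ℤ => 𝓕 f n :=
    summable_of_isBigO (Real.summable_abs_int_rpow one_lt_two)
      (hFO.comp_tendsto Int.tendsto_coe_cofinite)
  have hsf : Summable fun n : ℤ => f n :=
    summable_of_isBigO (Real.summable_abs_int_rpow one_lt_two)
      (hfO.comp_tendsto Int.tendsto_coe_cofinite)
  have hP := Real.tsum_eq_tsum_fourier_of_rpow_decay hfc one_lt_two hfO hFO 0
  have hP' : ∑' n : ℤ, f n = ∑' n : ℤ, 𝓕 f n := by
    simpa using hP
  have hhc : (h : ℂ) ≠ 0 := by exact_mod_cast hh0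
  have hVn : ∀ n : ℤ, V (X - 2 * Real.pi / h * n) = h * 𝓕 f n := by
    intro n
    rw [hFf]
    push_cast
    field_simp
  have hsV0 : Summable fun n : ℤ => V (X - 2 * Real.pi / h * n) := by
    simp_rw [hVn]
    exact hsF.mul_left _
  have hneg : (fun k : ℤ => V (X + 2 * Real.pi / h * k))
      = (fun n : ℤ => V (X - 2 * Real.pi / h * n)) ∘ (Equiv.neg ℤ) := by
    ext k
    simp only [Function.comp_apply, Equiv.neg_apply]
    push_cast
    congr 1
    ring
  refine ⟨?_, hsf, ?_⟩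
  · rw [hneg]
    exact (Equiv.neg ℤ).summable_iff.mpr hsV0
  · rw [hneg]
    have e1 : ∑' k : ℤ, ((fun n : ℤ => V (X - 2 * Real.pi / h * n)) ∘ (Equiv.neg ℤ)) k
        = ∑' n : ℤ, V (X - 2 * Real.pi / h * n) :=
      (Equiv.neg ℤ).tsum_eq (fun n : ℤ => V (X - 2 * Real.pi / h * n))
    rw [e1]
    simp_rw [hVn]
    rw [tsum_mul_left, ← hP']

end Pool.Agent.Lib.MP_dd244f_an.Rq
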