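import Pool.Agent.Lib.MP_dd244f_an.Rq.Stmts

/-!
Rq, module (Pol): polar coordinates on `ℂ*`.
-/

set_option autoImplicit false

namespace Pool.Agent.Lib.MP_dd244f_an.Rq

open MeasureTheory Filter Topology Set
open scoped ENNReal NNReal

/-- shift of the interval of periodicity -/
theorem pol_shift {h : ℝ → ℝ≥0∞} (hper : ∀ x, h (x + 2 * Real.pi) = h x) :
    ∫⁻ θ in Ioo (-Real.pi) Real.pi, h θ = ∫⁻ θ in Ioc 0 (2 * Real.pi), h θ := by
  rw [setLIntegral_congr Ioo_ae_eq_Ioc]
  have hT : (0 : ℝ) < 2 * Real.pi := by positivity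
  have hz : ∀ (n : ℤ) (x : ℝ), h (n • (2 * Real.pi) + x) = h x := by
    have hp : Function.Periodic h (2 * Real.pi) := hper
    intro n x
    rw [add_comm]
    exact hp.zsmul n x
  have h1 := (isAddFundamentalDomain_Ioc hT (-Real.pi) volume).setLIntegral_eq
    (isAddFundamentalDomain_Ioc hT 0 volume) h (fun g x => by
      obtain ⟨g, hg⟩ := g
      obtain ⟨n, rfl⟩ := AddSubgroup.mem_zmultiples_iff.1 hg
      exact hz n x)
  rw [show -Real.pi + 2 * Real.pi = Real.pi by ring, zero_add] at h1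
  exact h1

theorem pol_sub (g : ℝ → ℝ≥0∞) :
    ∫⁻ r in Ioi (0 : ℝ), g r = ∫⁻ L : ℝ, ENNReal.ofReal (Real.exp L) * g (Real.exp L) := by
  have h := lintegral_image_eq_lintegral_abs_deriv_mul (s := univ) (f := Real.exp)
    (f' := Real.exp) MeasurableSet.univ (fun x _ => (Real.hasDerivAt_exp x).hasDerivWithinAt)
    Real.exp_injective.injOn g
  rw [image_univ, Real.range_exp] at h
  rw [h, Measure.restrict_univ]
  refine lintegral_congr fun x => ?_
  rw [abs_of_pos (Real.exp_pos x)]

theorem pol_lint (F : ℂ → ℝ≥0∞) (hF : Measurable F) : ∫⁻ l, F l / ‖l‖ₑ ^ 2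
    = ∫⁻ L : ℝ, ∫⁻ θ in Ioc 0 (2 * Real.pi), F (Complex.exp (L + Complex.I * θ)) := by
  rw [← Complex.lintegral_comp_polarCoord_symm, polarCoord_target]
  have hm : Measurable fun p : ℝ × ℝ => ENNReal.ofReal p.1 •
      (F (Complex.polarCoord.symm p) / ‖Complex.polarCoord.symm p‖ₑ ^ 2) := by
    have h1 : Measurable fun p : ℝ × ℝ => (Complex.polarCoord.symm p : ℂ) := by
      simp only [Complex.polarCoord_symm_apply]
      fun_prop
    exact (ENNReal.measurable_ofReal.comp measurable_fst).smul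
      ((hF.comp h1).div ((h1.enorm).pow_const 2))
  rw [Measure.volume_eq_prod, setLIntegral_prod _ hm.aemeasurable, pol_sub]
  refine lintegral_congr fun L => ?_
  have e : ∀ θ : ℝ, (Complex.polarCoord.symm (Real.exp L, θ) : ℂ)
      = Complex.exp (L + Complex.I * θ) := by
    intro θ
    rw [Complex.polarCoord_symm_apply, Complex.exp_add, mul_comm Complex.I,
      Complex.exp_mul_I, Complex.ofReal_cos, Complex.ofReal_sin]
    simp
  have e2 : ∀ θ : ℝ, ‖Complex.exp (L + Complex.I * θ)‖ₑ = ENNReal.ofReal (Real.exp L) := by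
    intro θ
    rw [← ofReal_norm, Complex.norm_exp]
    simp
  rw [← lintegral_const_mul' _ _ ENNReal.ofReal_ne_top]
  rw [← pol_shift (h := fun θ : ℝ => F (Complex.exp (L + Complex.I * θ)))]
  · refine lintegral_congr fun θ => ?_
    simp only [e, e2, smul_eq_mul]
    have h0 : ENNReal.ofReal (Real.exp L) ≠ 0 := by
      simpa using Real.exp_pos L
    have ht : ENNReal.ofReal (Real.exp L) ≠ ⊤ := ENNReal.ofReal_ne_top
    rw [← mul_assoc, ← sq, ENNReal.mul_div_cancel (pow_ne_zero 2 h0) (ENNReal.pow_ne_top ht)]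
  · intro x
    have : Complex.exp (L + Complex.I * ((x + 2 * Real.pi : ℝ) : ℂ))
        = Complex.exp (L + Complex.I * (x : ℂ)) := by
      push_cast
      rw [show (L : ℂ) + Complex.I * (x + 2 * Real.pi)
        = L + Complex.I * x + 2 * Real.pi * Complex.I by ring, Complex.exp_add,
        Complex.exp_two_pi_mul_I, mul_one]
    rw [this]

/-- the density of the Haar measure of `ℂ*` -/
noncomputable def pden (l : ℂ) : ℝ≥0 := (‖l‖₊ ^ 2)⁻¹

theorem pden_meas : Measurable pden := by
  unfold pden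
  fun_prop

/-- the exponential map -/
noncomputable def pexp (p : ℝ × ℝ) : ℂ := Complex.exp (p.1 + Complex.I * p.2)

theorem pexp_meas : Measurable pexp := by
  unfold pexp
  fun_prop

theorem pol_map :
    Measure.map pexp ((volume : Measure ℝ).prod (volume.restrict (Ioc 0 (2 * Real.pi))))
      = (volume : Measure ℂ).withDensity (fun l => (pden l : ℝ≥0∞)) := by
  have hd : Measurable fun l => (pden l : ℝ≥0∞) := pden_meas.coe_nnreal_ennreal
  refine Measure.ext fun s hs => ?_
  rw [← lintegral_indicator_one hs, ← lintegral_indicator_one hs,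
    lintegral_map (measurable_one.indicator hs) pexp_meas,
    lintegral_withDensity_eq_lintegral_mul _ hd (measurable_one.indicator hs)]
  have hpr : ∫⁻ a : ℝ × ℝ, (s.indicator (1 : ℂ → ℝ≥0∞) (pexp a))
      ∂((volume : Measure ℝ).prod (volume.restrict (Ioc 0 (2 * Real.pi))))
      = ∫⁻ L : ℝ, ∫⁻ θ in Ioc 0 (2 * Real.pi), s.indicator (1 : ℂ → ℝ≥0∞) (pexp (L, θ)) :=
    lintegral_prod _ ((measurable_one.indicator hs).comp pexp_meas).aemeasurable
  rw [hpr]
  have h := pol_lint (s.indicator 1) (measurable_one.indicator hs)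
  simp only [pexp]
  rw [← h]
  refine lintegral_congr_ae ?_
  have h0 : ∀ᵐ l : ℂ, l ≠ 0 := by
    simp [ae_iff]
  filter_upwards [h0] with l hl
  rw [Pi.mul_apply, mul_comm, ENNReal.div_eq_inv_mul, mul_comm]
  congr 1
  rw [pden, ENNReal.coe_inv (by simpa using hl), ENNReal.coe_pow]
  rfl

theorem pol_real (F : ℂ → ℝ) (hF : Integrable (fun l => F l / ‖l‖ ^ 2)) :
    Integrable (fun L : ℝ => ∫ θ in (0)..(2 * Real.pi), F (Complex.exp (L + Complex.I * θ))) ∧
    (∀ᵐ L : ℝ, IntervalIntegrable (fun θ : ℝ => F (Complex.exp (L + Complex.I * θ))) volume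
      0 (2 * Real.pi)) ∧
    ∫ l, F l / ‖l‖ ^ 2
      = ∫ L : ℝ, ∫ θ in (0)..(2 * Real.pi), F (Complex.exp (L + Complex.I * θ)) := by
  have hpi : (0 : ℝ) ≤ 2 * Real.pi := by positivity
  have e : (fun l => F l / ‖l‖ ^ 2) = fun l => pden l • F l := by
    funext l
    rw [NNReal.smul_def, smul_eq_mul, pden, div_eq_inv_mul]
    push_cast
    rfl
  have h1 : Integrable F ((volume : Measure ℂ).withDensity (fun l => (pden l : ℝ≥0∞))) := by
    rw [integrable_withDensity_iff_integrable_smul pden_meas, ← e]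
    exact hF
  have h2 : ∫ l, F l / ‖l‖ ^ 2
      = ∫ l, F l ∂((volume : Measure ℂ).withDensity (fun l => (pden l : ℝ≥0∞))) := by
    rw [integral_withDensity_eq_integral_smul pden_meas, ← e]
  rw [← pol_map] at h1 h2
  have h3 := (integrable_map_measure h1.1 pexp_meas.aemeasurable).1 h1
  have hpr : ∫ a : ℝ × ℝ, F (pexp a)
      ∂((volume : Measure ℝ).prod (volume.restrict (Ioc 0 (2 * Real.pi))))
      = ∫ L : ℝ, ∫ θ in Ioc 0 (2 * Real.pi), F (pexp (L, θ)) := integral_prod _ h3
  rw [integral_map pexp_meas.aemeasurable h1.1, hpr] at h2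
  have e3 : ∀ L : ℝ, ∫ θ in (0)..(2 * Real.pi), F (Complex.exp (L + Complex.I * θ))
      = ∫ θ in Ioc 0 (2 * Real.pi), F (pexp (L, θ)) := by
    intro L
    rw [intervalIntegral.integral_of_le hpi]
    rfl
  refine ⟨?_, ?_, ?_⟩
  · simp only [e3]
    exact h3.integral_prod_left
  · filter_upwards [h3.prod_right_ae] with L hL
    rw [intervalIntegrable_iff_integrableOn_Ioc_of_le hpi]
    exact hL
  · simp only [e3]
    exact h2

theorem pol : StmtPol := ⟨pol_lint, pol_real⟩

end Pool.Agent.Lib.MP_dd244f_an.Rq
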