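import Pool.Agent.Lib.MP_dd244f_an.Rq.Stmts
import Pool.Agent.Lib.MP_dd244f_an.Rp.PowB

/-!
The bound `n ^ (1 - 2 / p) (p - 1)` for all `p` in `[2, P]` (module PowB2).

For `p ≥ 20 / 9` the uniform bound is enough, because of the gap of the factor `j = 1`;
for `2 ≤ p ≤ 20 / 9` one interpolates between `2` and `20 / 9`.
-/

set_option autoImplicit false

namespace Pool.Agent.Lib.MP_dd244f_an.Rq
namespace PowB2Aux

open MeasureTheory Finset
open Pool.Agent.Lib.MP_dd244f_an.Joint (ratio)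
open Pool.Agent.Lib.MP_dd244f_an.Rp.PowBAux

/-- the upper bound with the gap of the factor `j = 1` -/
theorem ratio_gap2 (n : ℕ) (hn : 2 ≤ n) (p : ℝ) (hp : 2 ≤ p) :
    ratio n p * Real.exp (2 / 81 * ((1 - 2 / p) - (1 - 2 / p) ^ 3))
      ≤ (n : ℝ) ^ (1 - 2 / p) * (p - 1) := by
  have hp0 : 0 < p := by linarith
  have hx0 : 0 ≤ 1 / p := by positivity
  have hx1 : 1 / p ≤ 1 / 2 := one_div_le_one_div_of_le (by norm_num) hp
  have h1 := ratio_le 2 (by norm_num) n hn p hp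
  set G : ℝ := 2 / 81 * ((1 - 2 / p) - (1 - 2 / p) ^ 3) with hG
  have h2 : ratio 2 p ≤ (p - 1) * ((2 : ℝ) ^ (1 - 2 / p) * Real.exp (-G)) := by
    have e := ratio_succ 1 p
    rw [ratio_one p hp0] at e
    rw [show (2 : ℕ) = 1 + 1 from rfl, e]
    refine mul_le_mul_of_nonneg_left ?_ (by linarith)
    have h3 := factor_le 1 le_rfl (1 / p) hx0 hx1
    refine h3.trans (le_of_eq ?_)
    have e2 : (((1 : ℕ) : ℝ) + 1) / ((1 : ℕ) : ℝ) = 2 := by norm_num
    have e6 : (1 / (2 * ((1 : ℕ) : ℝ) + 1)) ^ 3 = 1 / 27 := by norm_num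
    rw [e2, e6, show (1 : ℝ) - 2 * (1 / p) = 1 - 2 / p by ring, hG]
    congr 2
    ring
  have hn0 : (0 : ℝ) < n := by
    have : 0 < n := by omega
    exact_mod_cast this
  have h5 : ratio n p ≤ ((n : ℝ) ^ (1 - 2 / p) * (p - 1)) * Real.exp (-G) := by
    refine h1.trans ((mul_le_mul_of_nonneg_right h2 (by positivity)).trans (le_of_eq ?_))
    rw [Real.div_rpow hn0.le (by norm_num)]
    have : ((2 : ℕ) : ℝ) ^ (1 - 2 / p) ≠ 0 := (Real.rpow_pos_of_pos (by norm_num) _).ne'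
    push_cast at this ⊢
    field_simp
  calc ratio n p * Real.exp G
      ≤ ((n : ℝ) ^ (1 - 2 / p) * (p - 1)) * Real.exp (-G) * Real.exp G :=
        mul_le_mul_of_nonneg_right h5 (Real.exp_pos _).le
    _ = _ := by
        rw [mul_assoc, ← Real.exp_add]
        simp

/-- the gap is uniform on `[20 / 9, P]` -/
theorem gap_unif (P : ℝ) (hP : 20 / 9 ≤ P) (p : ℝ) (hp : 20 / 9 ≤ p) (hpP : p ≤ P) :
    1 / 250 / P ≤ 2 / 81 * ((1 - 2 / p) - (1 - 2 / p) ^ 3) := by
  have hp0 : 0 < p := by linarith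
  have hP0 : 0 < P := by linarith
  have hx1 : 1 / p ≤ 9 / 20 := by
    rw [div_le_iff₀ hp0]; linarith
  have hx2 : 1 / P ≤ 1 / p := one_div_le_one_div_of_le hp0 hpP
  have e3 : 2 / p = 2 * (1 / p) := by ring
  have e4 : 2 / P = 2 * (1 / P) := by ring
  set u : ℝ := 1 - 2 / p with hu
  have hu1 : 1 / 10 ≤ u := by rw [hu, e3]; linarith
  have hu2 : 2 / P ≤ 1 - u := by rw [hu, e3, e4]; linarith
  have hPpos : 0 < 2 / P := by positivity
  have h4 : 1 / 10 * (2 / P) * (11 / 10) ≤ u - u ^ 3 := by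
    have e5 : u - u ^ 3 = u * (1 - u) * (1 + u) := by ring
    rw [e5]
    refine mul_le_mul (mul_le_mul hu1 hu2 hPpos.le (by linarith)) (by linarith) (by norm_num) ?_
    exact mul_nonneg (by linarith) (by linarith)
  have h5 : 1 / 250 / P ≤ 2 / 81 * (1 / 10 * (2 / P) * (11 / 10)) := by
    have e6 : 2 / 81 * (1 / 10 * (2 / P) * (11 / 10)) = (44 / 8100) / P := by ring
    rw [e6]
    exact div_le_div_of_nonneg_right (by norm_num) hP0.le
  linarith

/-- the endpoint `20 / 9` -/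
theorem ratio_209 (n : ℕ) (hn : 2 ≤ n) :
    (1 + 1 / 10000) * ratio n (20 / 9) ≤ Real.exp (1 / 5) * (n : ℝ) ^ (1 / 10 : ℝ) := by
  have h1 := ratio_gap2 n hn (20 / 9) (by norm_num)
  have e1 : (1 : ℝ) - 2 / (20 / 9) = 1 / 10 := by norm_num
  rw [e1] at h1
  have e2 : (2 : ℝ) / 81 * (1 / 10 - (1 / 10) ^ 3) = 11 / 4500 := by norm_num
  rw [e2] at h1
  have hn0 : (0 : ℝ) ≤ (n : ℝ) ^ (1 / 10 : ℝ) := by positivity
  have h2 : (1 + 1 / 10000 : ℝ) * (20 / 9 - 1) ≤ Real.exp (1 / 5) * Real.exp (11 / 4500) := by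
    rw [← Real.exp_add]
    have := Real.quadratic_le_exp_of_nonneg (x := (1 / 5 + 11 / 4500 : ℝ)) (by norm_num)
    refine le_trans ?_ this
    norm_num
  have h3 : (1 + 1 / 10000) * (ratio n (20 / 9) * Real.exp (11 / 4500))
      ≤ (Real.exp (1 / 5) * (n : ℝ) ^ (1 / 10 : ℝ)) * Real.exp (11 / 4500) := by
    calc (1 + 1 / 10000) * (ratio n (20 / 9) * Real.exp (11 / 4500))
        ≤ (1 + 1 / 10000) * ((n : ℝ) ^ (1 / 10 : ℝ) * (20 / 9 - 1)) :=
          mul_le_mul_of_nonneg_left h1 (by norm_num)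
      _ = ((1 + 1 / 10000) * (20 / 9 - 1)) * (n : ℝ) ^ (1 / 10 : ℝ) := by ring
      _ ≤ (Real.exp (1 / 5) * Real.exp (11 / 4500)) * (n : ℝ) ^ (1 / 10 : ℝ) :=
          mul_le_mul_of_nonneg_right h2 hn0
      _ = _ := by ring
  have h4 : ((1 + 1 / 10000) * ratio n (20 / 9)) * Real.exp (11 / 4500)
      ≤ (Real.exp (1 / 5) * (n : ℝ) ^ (1 / 10 : ℝ)) * Real.exp (11 / 4500) := by
    rw [mul_assoc]; exact h3
  exact le_of_mul_le_mul_right h4 (Real.exp_pos _)

theorem exp_le_frac (u : ℝ) (h0 : 0 ≤ u) (h1 : u < 1) :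
    Real.exp (2 * u) ≤ (1 + u) / (1 - u) := by
  have s := Real.hasSum_log_sub_log_of_abs_lt_one (x := u) (by rw [abs_of_nonneg h0]; exact h1)
  have h2 := sum_le_hasSum (range 1) (fun k _ => by positivity) s
  rw [sum_range_succ, sum_range_zero] at h2
  rw [← Real.log_div (by linarith) (by linarith)] at h2
  have hpos : 0 < (1 + u) / (1 - u) := div_pos (by linarith) (by linarith)
  rw [← Real.le_log_iff_exp_le hpos]
  refine le_trans (le_of_eq ?_) h2
  norm_num

end PowB2Aux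

open MeasureTheory PowB2Aux Pool.Agent.Lib.MP_dd244f_an.Rp.PowBAux in
open scoped SchwartzMap ENNReal NNReal in
open Pool.Agent.Lib.MP_dd244f_an.Joint (ratio) in
open Pool.Agent.Lib.MP_dd244f_an.Unif in
/-- (PowB2) -/
theorem powB2 (hA : StmtUnifA2) (hRT : StmtRTS) (hFA : StmtFormAn) (hH : StmtHol)
    (hC : StmtConc) : StmtPowB2 := by
  intro P
  set P' : ℝ := max P (20 / 9) with hP'
  have hP'1 : 20 / 9 ≤ P' := le_max_right _ _
  have hP'2 : P ≤ P' := le_max_left _ _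
  have hP'0 : 0 < P' := by linarith
  have hε : 0 < Real.exp (1 / 250 / P') - 1 := by
    have : 1 < Real.exp (1 / 250 / P') := Real.one_lt_exp_iff.mpr (by positivity)
    linarith
  obtain ⟨n₁, hn₁⟩ := hA _ hε
  obtain ⟨n₂, hn₂⟩ := hA (1 / 10000) (by norm_num)
  refine ⟨max (max n₁ n₂) 2, fun n hn p hp hpP f => ?_⟩
  have hn1 : n₁ ≤ n := (le_max_left _ _).trans ((le_max_left _ _).trans hn)
  have hn2 : n₂ ≤ n := (le_max_right _ _).trans ((le_max_left _ _).trans hn)
  have hn3 : 2 ≤ n := (le_max_right _ _).trans hn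
  have hn0 : (0 : ℝ) < n := by
    have : 0 < n := by omega
    exact_mod_cast this
  rcases le_total (20 / 9) p with h29 | h29
  · refine (hn₁ n hn1 p hp f).trans (mul_le_mul' (ENNReal.ofReal_le_ofReal ?_) le_rfl)
    have h1 := ratio_gap2 n hn3 p hp
    have h2 := gap_unif P' hP'1 p h29 (hpP.trans hP'2)
    rw [add_sub_cancel, mul_comm]
    exact (mul_le_mul_of_nonneg_left (Real.exp_le_exp.mpr h2)
      (ratio_pos n p (by linarith)).le).trans h1
  · -- interpolation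
    have hp0 : 0 < p := by linarith
    set τ : ℝ := 10 - 20 / p with hτ
    have hx1 : 20 / p ≤ 20 / 2 := div_le_div_of_nonneg_left (by norm_num) (by norm_num) hp
    have hx2 : 20 / (20 / 9) ≤ 20 / p := div_le_div_of_nonneg_left (by norm_num) hp0 h29
    have hτ0 : 0 ≤ τ := by rw [hτ]; norm_num at hx1 ⊢; linarith
    have hτ1 : τ ≤ 1 := by rw [hτ]; norm_num at hx2; linarith
    have hp1 : 1 / p = (1 - τ) / 2 + τ / (20 / 9) := by
      rw [hτ]; field_simp; ring
    have hr := ratio_pos n (20 / 9) (by norm_num)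
    have b0 := hH n 2 2 1 le_rfl (by norm_num) (by norm_num) (fun f => by
      simp only [ENNReal.ofReal_one, one_mul]
      rw [show ENNReal.ofReal 2 = 2 by simp]
      exact Tn_L2 n f)
    have b1 := hH n (20 / 9) ((20 / 9) / (20 / 9 - 1)) ((1 + 1 / 10000) * ratio n (20 / 9))
      (by norm_num) (conj_exp _ (by norm_num)) (by positivity)
      (fun f => hn₂ n hn2 (20 / 9) (by norm_num) f)
    have b2 := hRT (Bf n) 2 (20 / 9) p 2 ((20 / 9) / (20 / 9 - 1)) (p / (p - 1)) 1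
      ((1 + 1 / 10000) * ratio n (20 / 9)) τ le_rfl (by norm_num) (by norm_num) (by positivity)
      hτ0 hτ1 (by norm_num) (conj_exp _ (by norm_num)) (conj_exp _ (by linarith)) hp1
      (hFA n) b0 b1
    have hM : 0 ≤ (n : ℝ) ^ (1 - 2 / p) * (p - 1) :=
      mul_nonneg (by positivity) (by linarith)
    refine hC n p (p / (p - 1)) _ (by linarith) (conj_exp _ (by linarith)) hM
      (fun φ γ hφ hγ => (b2 φ γ hφ hγ).trans ?_) f
    have hφ0 : 0 ≤ nr p φ := Real.rpow_nonneg (integral_nonneg fun x => by positivity) _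
    have hγ0 : 0 ≤ nr (p / (p - 1)) γ := Real.rpow_nonneg (integral_nonneg fun x => by positivity) _
    refine mul_le_mul_of_nonneg_right (mul_le_mul_of_nonneg_right ?_ hφ0) hγ0
    rw [Real.one_rpow, one_mul]
    have h1 := ratio_209 n hn3
    have h2 := exp_le_frac (τ / 10) (by linarith) (by linarith)
    have e3 : 2 * (τ / 10) = 1 / 5 * τ := by ring
    rw [e3, Real.exp_mul] at h2
    have e4 : (1 + τ / 10) / (1 - τ / 10) = p - 1 := by
      have h5 : (1 - τ / 10) ≠ 0 := by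
        have : 0 < 1 - τ / 10 := by linarith
        exact this.ne'
      rw [div_eq_iff h5, hτ]; field_simp; ring
    rw [e4] at h2
    calc ((1 + 1 / 10000) * ratio n (20 / 9)) ^ τ
        ≤ (Real.exp (1 / 5) * (n : ℝ) ^ (1 / 10 : ℝ)) ^ τ :=
          Real.rpow_le_rpow (by positivity) h1 (by linarith)
      _ = Real.exp (1 / 5) ^ τ * (n : ℝ) ^ (1 / 10 * τ) := by
          rw [Real.mul_rpow (Real.exp_pos _).le (by positivity), ← Real.rpow_mul hn0.le]
      _ ≤ (p - 1) * (n : ℝ) ^ (1 / 10 * τ) :=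
          mul_le_mul_of_nonneg_right h2 (by positivity)
      _ = _ := by
          rw [mul_comm]
          congr 1
          congr 1
          rw [hτ]; field_simp; ring

end Pool.Agent.Lib.MP_dd244f_an.Rq
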