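import Pool.Agent.Lib.MP_dd244f_an.Rq.Stmts
import Pool.Agent.Lib.MP_dd244f_an.Rp.AVh

/-!
# Reduction of the averaged form to a form on quadruples (module Red)
-/

set_option autoImplicit false

namespace Pool.Agent.Lib.MP_dd244f_an.Rq

open MeasureTheory Filter Topology Finset
open Pool.Agent.Lib.MP_dd244f_an.Four
open Pool.Agent.Lib.MP_dd244f_an.Rp
open Pool.Agent.Lib.MP_dd244f_an.Rp.AVhAux
open scoped ENNReal NNReal

namespace RedAux

lemma mt_nonneg (x : ℝ) : 0 ≤ mt x := by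
  unfold mt
  split_ifs with h1 h2
  · positivity
  · norm_num
  · have h3 : Real.exp (-((x - 57 / 10) / 2)) ≤ 1 := by
      rw [Real.exp_le_one_iff]; linarith
    have h4 := (Real.exp_pos (-((x - 57 / 10) / 2))).le
    nlinarith

lemma mt_le (x : ℝ) : mt x ≤ 1 := by
  unfold mt
  split_ifs with h1 h2
  · rw [Real.exp_le_one_iff]; linarith
  · exact le_rfl
  · linarith [sq_nonneg (1 - Real.exp (-((x - 57 / 10) / 2)))]

lemma mt_meas : Measurable mt := by
  unfold mt
  refine Measurable.ite measurableSet_Iic (by fun_prop) ?_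
  refine Measurable.ite measurableSet_Iic (by fun_prop) (by fun_prop)

lemma Me_nonneg (X : ℝ) : 0 ≤ Me X := by
  unfold Me
  have := mt_nonneg (|X| / 2)
  positivity

lemma Me_le (X : ℝ) : Me X ≤ 1 / 16 := by
  unfold Me
  have := mt_le (|X| / 2)
  linarith

lemma Me_meas : Measurable Me := by
  unfold Me
  exact (mt_meas.comp (by fun_prop)).div_const _

lemma Me_neg (X : ℝ) : Me (-X) = Me X := by
  unfold Me
  rw [abs_neg]

lemma G_neg (a y : ℝ) : G a (-y) = G a y := by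
  unfold G
  rw [← Complex.norm_conj (Complex.Gamma (a + Complex.I * y)), ← Complex.Gamma_conj]
  congr 2
  simp

lemma gw_neg (y : ℝ) : gw (-y) = gw y := by
  unfold gw
  rw [G_neg]

lemma gw_nonneg (y : ℝ) : 0 ≤ gw y := by
  unfold gw G
  positivity

lemma om_nonneg (X : XX 1) : 0 ≤ om X := by
  unfold om
  positivity

/-- the Fourier transform of the weight -/
lemma wh_eq (hI : Integrable gw) (r : ℝ) :
    ∫ y : ℝ, ((gw y : ℝ) : ℂ) * Complex.exp (Complex.I * (y * r : ℝ)) = (wh r : ℂ) := by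
  have hc : Integrable (fun y : ℝ => gw y * Real.cos (r * y)) := by
    refine hI.mul_bdd (c := 1) (by fun_prop) ?_
    exact Eventually.of_forall fun y => by
      rw [Real.norm_eq_abs]; exact Real.abs_cos_le_one _
  have hs : Integrable (fun y : ℝ => gw y * Real.sin (r * y)) := by
    refine hI.mul_bdd (c := 1) (by fun_prop) ?_
    exact Eventually.of_forall fun y => by
      rw [Real.norm_eq_abs]; exact Real.abs_sin_le_one _
  have hs0 : ∫ y : ℝ, gw y * Real.sin (r * y) = 0 := by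
    have h1 := integral_neg_eq_self (fun y : ℝ => gw y * Real.sin (r * y)) volume
    have h2 : ∀ y : ℝ, gw (-y) * Real.sin (r * -y) = -(gw y * Real.sin (r * y)) := by
      intro y
      rw [gw_neg, mul_neg, Real.sin_neg, mul_neg]
    simp_rw [h2] at h1
    rw [integral_neg] at h1
    linarith
  have e1 : ∀ y : ℝ, ((gw y : ℝ) : ℂ) * Complex.exp (Complex.I * (y * r : ℝ)) =
      ((gw y * Real.cos (r * y) : ℝ) : ℂ) + ((gw y * Real.sin (r * y) : ℝ) : ℂ) * Complex.I := by
    intro y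
    rw [mul_comm Complex.I, Complex.exp_mul_I, ← Complex.ofReal_cos, ← Complex.ofReal_sin,
      mul_comm y r]
    push_cast
    ring
  simp_rw [e1]
  rw [integral_add hc.ofReal (hs.ofReal.mul_const _), integral_mul_const, integral_complex_ofReal,
    integral_complex_ofReal, hs0]
  simp [wh]

lemma wu_WN {u α : ℂ → ℝ} (hN : Nice u α) : WN (wu u) := by
  obtain ⟨hu, hu0, ⟨r, R, hr, hrR⟩, -⟩ := hN
  refine ⟨?_, fun ξ => ?_, r, R, hr, fun ξ hξ => hrR ξ fun h => hξ ?_⟩
  · rw [continuous_iff_continuousAt]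
    intro ξ
    by_cases h : ξ = 0
    · subst h
      have h1 : (fun ξ => wu u ξ) =ᶠ[𝓝 (0 : ℂ)] fun _ => 0 := by
        filter_upwards [Metric.ball_mem_nhds (0 : ℂ) hr] with ζ hζ
        rw [mem_ball_zero_iff] at hζ
        have : u ζ = 0 := by
          by_contra h
          linarith [(hrR ζ h).1]
        unfold wu
        rw [this]; simp
      exact (continuousAt_const (y := (0 : ℝ))).congr h1.symm
    · unfold wu
      exact (Real.continuous_sqrt.comp hu).continuousAt.div continuous_norm.continuousAt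
        (norm_ne_zero_iff.2 h)
  · unfold wu
    positivity
  · unfold wu
    rw [h]; simp

lemma x0_meas : Measurable x0 := by
  have h := measurable_xl (j := 1)
  unfold x0
  refine Measurable.const_mul ?_ _
  refine Real.measurable_log.comp ?_
  fun_prop

lemma om_meas : Measurable om := by
  have h := measurable_xl (j := 1)
  unfold om
  fun_prop

/-- integrability against the reference weight -/
lemma om_int (hL : StmtLin) (hS : StmtSym) {φ : ℂ → ℝ} (h1 : Continuous φ)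
    (h2 : HasCompactSupport φ) (h3 : ∀ᶠ ζ in 𝓝 (0 : ℂ), φ ζ = 0) :
    Integrable (fun X : XX 1 => om X * φ (X.1 0)) ∧
    Integrable (fun X : XX 1 => om X * φ (X.1 1)) ∧
    Integrable (fun X : XX 1 => om X * φ (X.2 0)) ∧
    Integrable (fun X : XX 1 => om X * φ (xl X)) := by
  obtain ⟨⟨s1, m1, e1⟩, ⟨s2, m2, e2⟩, ⟨s3, m3, e3⟩⟩ := hS
  have a1 := (hL φ h1 h2 h3).1
  have a2 : Integrable (fun X : XX 1 => om X * φ (X.1 1)) := by
    have := m1.integrable_comp_of_integrable a1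
    refine this.congr (Eventually.of_forall fun X => ?_)
    obtain ⟨q1, q2, q3, q4⟩ := e1 X
    simp only [Function.comp, om, q1, q2, q3, q4]
    rw [mul_comm ‖X.1 1‖]
  have a3 : Integrable (fun X : XX 1 => om X * φ (X.2 0)) := by
    have := m3.integrable_comp_of_integrable a1
    refine this.congr (Eventually.of_forall fun X => ?_)
    obtain ⟨q1, q2, q3, q4⟩ := e3 X
    simp only [Function.comp, om, q1, q2, q3, q4]
    rw [mul_comm (‖X.2 0‖ * ‖xl X‖)]
  have a4 : Integrable (fun X : XX 1 => om X * φ (xl X)) := by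
    have := m2.integrable_comp_of_integrable a3
    refine this.congr (Eventually.of_forall fun X => ?_)
    obtain ⟨q1, q2, q3, q4⟩ := e2 X
    simp only [Function.comp, om, q1, q2, q3, q4]
    rw [mul_comm ‖xl X‖]
  exact ⟨a1, a2, a3, a4⟩

lemma SA_one (u : ℂ → ℝ) (X : XX 1) :
    SA u X = Real.log (u (X.1 0)) + Real.log (u (X.1 1)) := by
  unfold SA
  simp [Fin.sum_univ_two]

lemma SB_one (u : ℂ → ℝ) (X : XX 1) :
    AVhAux.SB u X = Real.log (u (X.2 0)) + Real.log (u (xl X)) := by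
  unfold AVhAux.SB
  simp

lemma DD_one (X : XX 1) :
    DD X = ((‖X.1 0‖ ^ 2)⁻¹ * (‖X.1 1‖ ^ 2)⁻¹) * (‖X.2 0‖ ^ 2)⁻¹ * (‖xl X‖ ^ 2)⁻¹ := by
  unfold DD
  rw [Fin.prod_univ_two]
  simp

/-- the algebra of the change of variables -/
lemma alg_exp (l1 l2 l3 l4 m1 m2 m3 m4 : ℝ) (w1 w2 w3 w4 P Q : ℝ)
    (h1 : w1 = Real.sqrt (Real.exp l1) / Real.exp m1)
    (h2 : w2 = Real.sqrt (Real.exp l2) / Real.exp m2)
    (h3 : w3 = Real.sqrt (Real.exp l3) / Real.exp m3)
    (h4 : w4 = Real.sqrt (Real.exp l4) / Real.exp m4)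
    (hP : P = Real.sqrt (w1 * w2)) (hQ : Q = Real.sqrt (w3 * w4)) :
    0 < P ∧ 0 < Q ∧ P ^ 2 = w1 * w2 ∧ Q ^ 2 = w3 * w4 ∧
    2 * Real.log (Real.exp m1 * Real.exp m2 / (Real.exp m3 * Real.exp m4)) +
      4 * Real.log (P / Q) = l1 + l2 - (l3 + l4) ∧
    (Real.exp m1 * Real.exp m2 * (Real.exp m3 * Real.exp m4)) ^ (-(3 / 2) : ℝ) * (P * Q) =
      ((Real.exp m1 ^ 2)⁻¹ * (Real.exp m2 ^ 2)⁻¹) * (Real.exp m3 ^ 2)⁻¹ * (Real.exp m4 ^ 2)⁻¹ *
        Real.exp (1 / 4 * (l1 + l2 + (l3 + l4))) := by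
  have hw : ∀ l m : ℝ, Real.sqrt (Real.exp l) / Real.exp m = Real.exp (l / 2 - m) := by
    intro l m
    rw [Real.exp_sub, Real.exp_half]
  rw [hw] at h1 h2 h3 h4
  have e1 : P = Real.exp ((l1 / 2 - m1 + (l2 / 2 - m2)) / 2) := by
    rw [hP, h1, h2, ← Real.exp_add, Real.exp_half]
  have e2 : Q = Real.exp ((l3 / 2 - m3 + (l4 / 2 - m4)) / 2) := by
    rw [hQ, h3, h4, ← Real.exp_add, Real.exp_half]
  refine ⟨e1 ▸ Real.exp_pos _, e2 ▸ Real.exp_pos _, ?_, ?_, ?_, ?_⟩
  · rw [e1, h1, h2, ← Real.exp_nat_mul, ← Real.exp_add]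
    congr 1
    push_cast
    ring
  · rw [e2, h3, h4, ← Real.exp_nat_mul, ← Real.exp_add]
    congr 1
    push_cast
    ring
  · rw [e1, e2, ← Real.exp_add, ← Real.exp_add, ← Real.exp_sub, ← Real.exp_sub, Real.log_exp,
      Real.log_exp]
    ring
  · rw [e1, e2, ← Real.exp_add, ← Real.exp_add, ← Real.exp_add, ← Real.exp_mul, ← Real.exp_add,
      ← Real.exp_add, ← Real.exp_nat_mul, ← Real.exp_nat_mul, ← Real.exp_nat_mul,
      ← Real.exp_nat_mul, ← Real.exp_neg, ← Real.exp_neg, ← Real.exp_neg, ← Real.exp_neg,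
      ← Real.exp_add, ← Real.exp_add, ← Real.exp_add, ← Real.exp_add]
    congr 1
    push_cast
    ring

lemma sqrt_sq_le {a b : ℝ} (ha : 0 ≤ a) (hb : 0 ≤ b) :
    (Real.sqrt a - Real.sqrt b) ^ 2 ≤ a + b := by
  have h1 := Real.sq_sqrt ha
  have h2 := Real.sq_sqrt hb
  have h3 := Real.sqrt_nonneg a
  have h4 := Real.sqrt_nonneg b
  nlinarith [mul_nonneg h3 h4]

end RedAux

open RedAux

theorem red (hE : Rp.StmtExp) (hT : StmtT) (hW : StmtWh) (hL : StmtLin) (hS : StmtSym) :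
    StmtRed := by
  intro u α hN
  have hWN := wu_WN hN
  refine ⟨hWN, fun Φ hΦ => ?_⟩
  obtain ⟨hWc, hW0, r, R, hr, hrR⟩ := hWN
  obtain ⟨hWi, -, -, -, hwc, hw1c, -, hwh0, C, hC⟩ := hW
  have hgwI : Integrable gw := by
    have := hWi 0
    simpa using this
  have hC0 : 0 ≤ C := (abs_nonneg _).trans (hC 0).1
  set w := wu u with hwdef
  have hal : Continuous al := by
    unfold al
    fun_prop
  -- integrability
  have hφ := om_int hL hS (φ := fun ζ => w ζ ^ 2) (by fun_prop) (by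
      refine HasCompactSupport.intro (isCompact_closedBall (0 : ℂ) R) fun ξ hξ => ?_
      by_contra h
      have h0 : w ξ ≠ 0 := fun h0 => h (by simp [h0])
      exact hξ (mem_closedBall_zero_iff.2 (hrR ξ h0).2)) (by
      filter_upwards [Metric.ball_mem_nhds (0 : ℂ) hr] with ζ hζ
      rw [mem_ball_zero_iff] at hζ
      by_contra h
      have h0 : w ζ ≠ 0 := fun h0 => h (by simp [h0])
      linarith [(hrR ζ h0).1])
  obtain ⟨i1, i2, i3, i4⟩ := hφ
  have hwm := hWc.measurable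
  have hxm := measurable_xl (j := 1)
  have hΦm : Measurable Φ := by
    have : Φ = fun X => om X * (al (x0 X) * (w (X.1 0) * w (X.1 1)) +
      al (-x0 X) * (w (X.2 0) * w (xl X)) + 4 * Me (x0 X) *
      (Real.sqrt (w (X.1 0) * w (X.1 1)) - Real.sqrt (w (X.2 0) * w (xl X))) ^ 2) := by
      funext X
      exact hΦ X
    rw [this]
    have q1 : Measurable (fun X : XX 1 => al (x0 X)) := hal.measurable.comp x0_meas
    have q2 : Measurable (fun X : XX 1 => al (-x0 X)) := hal.measurable.comp x0_meas.neg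
    have q3 : Measurable (fun X : XX 1 => Me (x0 X)) := Me_meas.comp x0_meas
    have q4 : Measurable (fun X : XX 1 => w (X.1 0)) := hwm.comp (by fun_prop)
    have q5 : Measurable (fun X : XX 1 => w (X.1 1)) := hwm.comp (by fun_prop)
    have q6 : Measurable (fun X : XX 1 => w (X.2 0)) := hwm.comp (by fun_prop)
    have q7 : Measurable (fun X : XX 1 => w (xl X)) := hwm.comp hxm
    exact om_meas.mul (((q1.mul (q4.mul q5)).add (q2.mul (q6.mul q7))).add
      ((q3.const_mul 4).mul (((q4.mul q5).sqrt.sub (q6.mul q7).sqrt).pow_const 2)))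
  have hΦi : Integrable Φ := by
    have hd := (((i1.add i2).add i3).add i4).const_mul (C + 1)
    refine hd.mono' hΦm.aestronglyMeasurable (Eventually.of_forall fun X => ?_)
    have ho := om_nonneg X
    have b1 := hW0 (X.1 0)
    have b2 := hW0 (X.1 1)
    have b3 := hW0 (X.2 0)
    have b4 := hW0 (xl X)
    have s1 := sqrt_sq_le (mul_nonneg b1 b2) (mul_nonneg b3 b4)
    have s0 := sq_nonneg (Real.sqrt (w (X.1 0) * w (X.1 1)) - Real.sqrt (w (X.2 0) * w (xl X)))
    have c1 := abs_le.1 (hC (x0 X)).2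
    have c2 := abs_le.1 (hC (-x0 X)).2
    have c3 := Me_nonneg (x0 X)
    have c4 := Me_le (x0 X)
    rw [hΦ X, Real.norm_eq_abs, abs_mul, abs_of_nonneg ho]
    simp only [Pi.add_apply]
    have key : |al (x0 X) * (w (X.1 0) * w (X.1 1)) +
        al (-x0 X) * (w (X.2 0) * w (xl X)) + 4 * Me (x0 X) *
        (Real.sqrt (w (X.1 0) * w (X.1 1)) - Real.sqrt (w (X.2 0) * w (xl X))) ^ 2| ≤
        (C + 1) * (w (X.1 0) ^ 2 + w (X.1 1) ^ 2 + w (X.2 0) ^ 2 + w (xl X) ^ 2) := by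
      have d1 : |al (x0 X) * (w (X.1 0) * w (X.1 1))| ≤ C * (w (X.1 0) * w (X.1 1)) := by
        rw [abs_mul, abs_of_nonneg (mul_nonneg b1 b2)]
        exact mul_le_mul_of_nonneg_right (hC _).2 (mul_nonneg b1 b2)
      have d2 : |al (-x0 X) * (w (X.2 0) * w (xl X))| ≤ C * (w (X.2 0) * w (xl X)) := by
        rw [abs_mul, abs_of_nonneg (mul_nonneg b3 b4)]
        exact mul_le_mul_of_nonneg_right (hC _).2 (mul_nonneg b3 b4)
      have d3 : |4 * Me (x0 X) * (Real.sqrt (w (X.1 0) * w (X.1 1)) -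
          Real.sqrt (w (X.2 0) * w (xl X))) ^ 2| ≤
          1 * (w (X.1 0) * w (X.1 1) + w (X.2 0) * w (xl X)) := by
        rw [abs_of_nonneg (by positivity)]
        refine mul_le_mul ?_ s1 s0 zero_le_one
        linarith
      have d4 := abs_add_three (al (x0 X) * (w (X.1 0) * w (X.1 1)))
        (al (-x0 X) * (w (X.2 0) * w (xl X))) (4 * Me (x0 X) * (Real.sqrt (w (X.1 0) * w (X.1 1)) -
          Real.sqrt (w (X.2 0) * w (xl X))) ^ 2)
      have d5 : w (X.1 0) * w (X.1 1) ≤ w (X.1 0) ^ 2 + w (X.1 1) ^ 2 := by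
        nlinarith [sq_nonneg (w (X.1 0) - w (X.1 1)), sq_nonneg (w (X.1 0)), sq_nonneg (w (X.1 1))]
      have d6 : w (X.2 0) * w (xl X) ≤ w (X.2 0) ^ 2 + w (xl X) ^ 2 := by
        nlinarith [sq_nonneg (w (X.2 0) - w (xl X)), sq_nonneg (w (X.2 0)), sq_nonneg (w (xl X))]
      have d7 := mul_le_mul_of_nonneg_left d5 (show (0 : ℝ) ≤ C + 1 by linarith)
      have d8 := mul_le_mul_of_nonneg_left d6 (show (0 : ℝ) ≤ C + 1 by linarith)
      linarith
    calc om X * |al (x0 X) * (w (X.1 0) * w (X.1 1)) +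
        al (-x0 X) * (w (X.2 0) * w (xl X)) + 4 * Me (x0 X) *
        (Real.sqrt (w (X.1 0) * w (X.1 1)) - Real.sqrt (w (X.2 0) * w (xl X))) ^ 2|
        ≤ om X * ((C + 1) * (w (X.1 0) ^ 2 + w (X.1 1) ^ 2 + w (X.2 0) ^ 2 + w (xl X) ^ 2)) :=
          mul_le_mul_of_nonneg_left key ho
      _ = _ := by ring
  refine ⟨hΦi, ?_⟩
  -- the pointwise bound
  have hpt : ∀ X : XX 1, ‖HH u α (1 / 4 : ℝ) X * (wh (LL u X) : ℂ)‖ ≤ Φ X := by
    intro X
    rw [norm_mul, Complex.norm_real, Real.norm_eq_abs, abs_of_nonneg (hwh0 _), hΦ X]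
    have ho := om_nonneg X
    by_cases h : (∀ i, u (X.1 i) ≠ 0) ∧ (∀ i, u (X.2 i) ≠ 0) ∧ u (xl X) ≠ 0
    · obtain ⟨h1, h2, h3⟩ := h
      rw [norm_HH u α (1 / 4) X h1 h2 h3]
      have hu0 := hN.2.1
      have hpos : ∀ ξ, u ξ ≠ 0 → ∃ l m : ℝ, u ξ = Real.exp l ∧ ‖ξ‖ = Real.exp m := by
        intro ξ hξ
        obtain ⟨-, -, ⟨r', R', hr', hrR'⟩, -⟩ := hN
        refine ⟨Real.log (u ξ), Real.log ‖ξ‖, ?_, ?_⟩
        · rw [Real.exp_log (lt_of_le_of_ne (hu0 ξ) (Ne.symm hξ))]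
        · rw [Real.exp_log (lt_of_lt_of_le hr' (hrR' ξ hξ).1)]
      obtain ⟨l1, m1, p1, n1⟩ := hpos _ (h1 0)
      obtain ⟨l2, m2, p2, n2⟩ := hpos _ (h1 1)
      obtain ⟨l3, m3, p3, n3⟩ := hpos _ (h2 0)
      obtain ⟨l4, m4, p4, n4⟩ := hpos _ h3
      have hw1 : w (X.1 0) = Real.sqrt (Real.exp l1) / Real.exp m1 := by
        rw [hwdef]; unfold wu; rw [p1, n1]
      have hw2 : w (X.1 1) = Real.sqrt (Real.exp l2) / Real.exp m2 := by
        rw [hwdef]; unfold wu; rw [p2, n2]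
      have hw3 : w (X.2 0) = Real.sqrt (Real.exp l3) / Real.exp m3 := by
        rw [hwdef]; unfold wu; rw [p3, n3]
      have hw4 : w (xl X) = Real.sqrt (Real.exp l4) / Real.exp m4 := by
        rw [hwdef]; unfold wu; rw [p4, n4]
      obtain ⟨hP, hQ, hP2, hQ2, hlog, hom⟩ := alg_exp l1 l2 l3 l4 m1 m2 m3 m4 _ _ _ _ _ _
        hw1 hw2 hw3 hw4 rfl rfl
      have hTT := hT.2 (x0 X) _ _ hP hQ
      have hx0 : x0 X = 2 * Real.log (Real.exp m1 * Real.exp m2 / (Real.exp m3 * Real.exp m4)) := by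
        unfold x0
        rw [n1, n2, n3, n4]
      have hLL : LL u X = l1 + l2 - (l3 + l4) := by
        unfold LL
        rw [SA_one, SB_one, p1, p2, p3, p4]
        simp only [Real.log_exp]
      have hom' : DD X * Real.exp (1 / 4 * (SA u X + SB u X)) =
          om X * (Real.sqrt (w (X.1 0) * w (X.1 1)) * Real.sqrt (w (X.2 0) * w (xl X))) := by
        rw [SA_one, SB_one, p1, p2, p3, p4]
        simp only [Real.log_exp]
        rw [DD_one, n1, n2, n3, n4, ← hom]
        unfold om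
        rw [n1, n2, n3, n4]
      rw [hom', hLL, ← hlog, ← hx0, mul_assoc]
      refine mul_le_mul_of_nonneg_left ?_ ho
      rw [hP2, hQ2] at hTT
      exact hTT
    · rw [HH_zero u α (1 / 4) X h, zero_mul]
      refine mul_nonneg ho ?_
      have b1 := hW0 (X.1 0)
      have b2 := hW0 (X.1 1)
      have b3 := hW0 (X.2 0)
      have b4 := hW0 (xl X)
      have hz : w (X.1 0) * w (X.1 1) = 0 ∨ w (X.2 0) * w (xl X) = 0 := by
        by_contra hcon
        push Not at hcon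
        obtain ⟨g1, g2⟩ := hcon
        have hwz : ∀ ξ, u ξ = 0 → w ξ = 0 := by
          intro ξ hξ
          rw [hwdef]; unfold wu; rw [hξ]; simp
        refine h ⟨fun i => ?_, fun i => ?_, fun h0 => ?_⟩
        · fin_cases i
          · intro h0
            exact (left_ne_zero_of_mul g1) (hwz _ h0)
          · intro h0
            exact (right_ne_zero_of_mul g1) (hwz _ h0)
        · fin_cases i
          intro h0
          exact (left_ne_zero_of_mul g2) (hwz _ h0)
        · exact (right_ne_zero_of_mul g2) (hwz _ h0)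
      rcases hz with hz | hz
      · rw [hz, Real.sqrt_zero, mul_zero, zero_add, zero_sub, neg_sq,
          Real.sq_sqrt (mul_nonneg b3 b4), ← add_mul]
        refine mul_nonneg ?_ (mul_nonneg b3 b4)
        have := hT.1 (-x0 X)
        rwa [Me_neg] at this
      · rw [hz, Real.sqrt_zero, mul_zero, add_zero, sub_zero,
          Real.sq_sqrt (mul_nonneg b1 b2), ← add_mul]
        exact mul_nonneg (hT.1 (x0 X)) (mul_nonneg b1 b2)
  have hxC : 1 / (2 * ((2 : ℕ) : ℂ)) = ((1 / 4 : ℝ) : ℂ) := by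
    push_cast
    norm_num
  rw [hxC]
  have hen := energy hE (j := 1) hgwI gw_nonneg hN (x := 1 / 4) (by norm_num) (wh_eq hgwI)
  refine (le_of_eq ?_).trans (hen.trans ?_)
  · rfl
  · rw [ofReal_integral_eq_lintegral_ofReal hΦi
      (Eventually.of_forall fun X => (norm_nonneg _).trans (hpt X))]
    refine lintegral_mono fun X => ?_
    rw [← ofReal_norm]
    exact ENNReal.ofReal_le_ofReal (hpt X)

end Pool.Agent.Lib.MP_dd244f_an.Rq
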