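import Pool.Agent.Lib.MP_dd244f_an.Rq.Stmts

/-!
# RQ-Rho: lower bound of `rho` (Poisson summation with step `1 / 5` and a polynomial inequality)
-/

set_option autoImplicit false

namespace Pool.Agent.Lib.MP_dd244f_an.Rq

open MeasureTheory Filter Topology Finset

namespace RhoX

/-! ### the density and Poisson summation -/

/-- the density -/
noncomputable def gg (y : ℝ) : ℝ := 2 * (1 / 16 + y ^ 2) * gw y

theorem G_nonneg (a y : ℝ) : 0 ≤ G a y := norm_nonneg _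

theorem gw_nonneg (y : ℝ) : 0 ≤ gw y := pow_nonneg (G_nonneg _ _) _

theorem gg_nonneg (y : ℝ) : 0 ≤ gg y := by
  unfold gg
  have := gw_nonneg y
  positivity

theorem gg_cont (hG : StmtG) : Continuous gg := by
  have h := hG.2.1 (3 / 4) (by norm_num)
  unfold gg gw
  fun_prop

theorem gg_even (hG : StmtG) (y : ℝ) : gg (-y) = gg y := by
  unfold gg gw
  rw [(hG.1 (3 / 4) y (by norm_num)).2.1, neg_sq]

theorem gg_bound (hG : StmtG) : ∃ C, 0 ≤ C ∧ ∀ y, gg y ≤ C / (1 + y ^ 2) := by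
  obtain ⟨C, hC, h⟩ := hG.2.2.1 (3 / 4) (by norm_num)
  refine ⟨2 * C ^ 8, by positivity, fun y => ?_⟩
  have h1 : 0 < 1 + y ^ 2 := by positivity
  rw [le_div_iff₀ h1]
  have h2 : gw y ≤ C ^ 8 * Real.exp (-(12 * |y|)) := by
    unfold gw
    calc G (3 / 4) y ^ 8 ≤ (C * Real.exp (-(3 / 2 * |y|))) ^ 8 :=
          pow_le_pow_left₀ (G_nonneg _ _) (h y) _
      _ = C ^ 8 * Real.exp (-(12 * |y|)) := by
          rw [mul_pow, ← Real.exp_nat_mul]
          congr 2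
          push_cast
          ring
  have h3 : 1 + y ^ 2 ≤ Real.exp (2 * |y|) := by
    have := Real.add_one_le_exp |y|
    have h0 := abs_nonneg y
    calc 1 + y ^ 2 = 1 + |y| ^ 2 := by rw [sq_abs]
      _ ≤ (|y| + 1) ^ 2 := by nlinarith
      _ ≤ Real.exp |y| ^ 2 := pow_le_pow_left₀ (by positivity) this 2
      _ = Real.exp (2 * |y|) := by
          rw [← Real.exp_nat_mul]
          norm_num
  have h4 : (1 / 16 + y ^ 2) * (1 + y ^ 2) ≤ Real.exp (12 * |y|) := by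
    calc (1 / 16 + y ^ 2) * (1 + y ^ 2) ≤ (1 + y ^ 2) * (1 + y ^ 2) := by
          apply mul_le_mul_of_nonneg_right _ h1.le
          linarith
      _ ≤ Real.exp (2 * |y|) * Real.exp (2 * |y|) := by
          apply mul_le_mul h3 h3 h1.le (Real.exp_nonneg _)
      _ = Real.exp (4 * |y|) := by
          rw [← Real.exp_add]
          congr 1
          ring
      _ ≤ Real.exp (12 * |y|) := by
          apply Real.exp_le_exp.2
          have := abs_nonneg y
          linarith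
  calc gg y * (1 + y ^ 2) = 2 * ((1 / 16 + y ^ 2) * (1 + y ^ 2)) * gw y := by
        unfold gg
        ring
    _ ≤ 2 * Real.exp (12 * |y|) * (C ^ 8 * Real.exp (-(12 * |y|))) := by
        apply mul_le_mul _ h2 (gw_nonneg y) (by positivity)
        linarith
    _ = 2 * C ^ 8 * (Real.exp (12 * |y|) * Real.exp (-(12 * |y|))) := by ring
    _ = 2 * C ^ 8 := by
        rw [← Real.exp_add]
        simp

theorem gg_int (hG : StmtG) : Integrable gg := by
  obtain ⟨C, hC, h⟩ := gg_bound hG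
  refine Integrable.mono' (integrable_inv_one_add_sq.const_mul C) (gg_cont hG).aestronglyMeasurable
    (Eventually.of_forall fun y => ?_)
  rw [Real.norm_of_nonneg (gg_nonneg y)]
  have := h y
  rwa [div_eq_mul_inv] at this

theorem rho_eq (X : ℝ) : rho X = ∫ y : ℝ, gg y * Real.cos (X * y) := rfl

theorem V_eq (hG : StmtG) (X : ℝ) : ((rho X : ℝ) : ℂ) =
    ∫ y : ℝ, ((gg y : ℝ) : ℂ) * Complex.exp (Complex.I * (X * y : ℝ)) := by
  have hi := gg_int hG
  have hc : Integrable (fun y => gg y * Real.cos (X * y)) := by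
    refine hi.mono' ?_ (Eventually.of_forall fun y => ?_)
    · exact ((gg_cont hG).mul (by fun_prop)).aestronglyMeasurable
    · rw [norm_mul, Real.norm_of_nonneg (gg_nonneg y)]
      exact mul_le_of_le_one_right (gg_nonneg y) (Real.abs_cos_le_one _)
  have hs : Integrable (fun y => gg y * Real.sin (X * y)) := by
    refine hi.mono' ?_ (Eventually.of_forall fun y => ?_)
    · exact ((gg_cont hG).mul (by fun_prop)).aestronglyMeasurable
    · rw [norm_mul, Real.norm_of_nonneg (gg_nonneg y)]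
      exact mul_le_of_le_one_right (gg_nonneg y) (Real.abs_sin_le_one _)
  have hs0 : ∫ y : ℝ, gg y * Real.sin (X * y) = 0 := by
    have h1 := integral_neg_eq_self (fun y : ℝ => gg y * Real.sin (X * y)) volume
    have h2 : (fun y : ℝ => gg (-y) * Real.sin (X * -y)) =
        fun y => -(gg y * Real.sin (X * y)) := by
      funext y
      rw [gg_even hG, mul_neg, Real.sin_neg, mul_neg]
    simp only [h2] at h1
    rw [integral_neg] at h1
    linarith
  have he : (fun y : ℝ => ((gg y : ℝ) : ℂ) * Complex.exp (Complex.I * (X * y : ℝ))) =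
      fun y => ((gg y * Real.cos (X * y) : ℝ) : ℂ) +
        ((gg y * Real.sin (X * y) : ℝ) : ℂ) * Complex.I := by
    funext y
    rw [mul_comm Complex.I, Complex.exp_mul_I, ← Complex.ofReal_cos, ← Complex.ofReal_sin]
    push_cast
    ring
  rw [he, integral_add hc.ofReal (hs.ofReal.mul_const _), integral_mul_const, integral_complex_ofReal,
    integral_complex_ofReal, hs0, rho_eq]
  simp

theorem rho_abs (hS : StmtShift) (hI : StmtI1) (X : ℝ) :
    |rho X| ≤ 93 / 5 * Real.exp (-(|X| / 2)) := by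
  refine (hS.2 X).trans ?_
  rw [mul_comm]
  exact mul_le_mul_of_nonneg_right hI (Real.exp_nonneg _)

theorem rho_dec (hS : StmtShift) (hI : StmtI1) (X : ℝ) : |rho X| ≤ 300 / (1 + X ^ 2) := by
  have h1 : 0 < 1 + X ^ 2 := by positivity
  rw [le_div_iff₀ h1]
  have h3 : 1 + X ^ 2 ≤ 16 * Real.exp (|X| / 2) := by
    have := Real.add_one_le_exp (|X| / 4)
    have h0 := abs_nonneg X
    calc 1 + X ^ 2 = 1 + |X| ^ 2 := by rw [sq_abs]
      _ ≤ 16 * (|X| / 4 + 1) ^ 2 := by nlinarith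
      _ ≤ 16 * Real.exp (|X| / 4) ^ 2 := by
          have := pow_le_pow_left₀ (by positivity) this 2
          linarith
      _ = 16 * Real.exp (|X| / 2) := by
          rw [← Real.exp_nat_mul]
          congr 2
          push_cast
          ring
  calc |rho X| * (1 + X ^ 2) ≤ 93 / 5 * Real.exp (-(|X| / 2)) * (16 * Real.exp (|X| / 2)) :=
        mul_le_mul (rho_abs hS hI X) h3 h1.le (by positivity)
    _ = 1488 / 5 * (Real.exp (-(|X| / 2)) * Real.exp (|X| / 2)) := by ring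
    _ = 1488 / 5 := by
        rw [← Real.exp_add]
        simp
    _ ≤ 300 := by norm_num

/-- Poisson summation, real form -/
theorem poisson (hG : StmtG) (hP : StmtPS) (hS : StmtShift) (hI : StmtI1) (X : ℝ) :
    Summable (fun k : ℤ => rho (X + 10 * Real.pi * k)) ∧
    Summable (fun j : ℤ => gg (j / 5) * Real.cos (X * (j / 5))) ∧
    ∑' k : ℤ, rho (X + 10 * Real.pi * k) =
      1 / 5 * ∑' j : ℤ, gg (j / 5) * Real.cos (X * (j / 5)) := by
  obtain ⟨C, hC, hb⟩ := gg_bound hG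
  have key := hP (fun y => ((gg y : ℝ) : ℂ)) (fun X => ((rho X : ℝ) : ℂ)) (C + 300) (1 / 5)
    (Complex.continuous_ofReal.comp (gg_cont hG)) (fun y => by
      rw [Complex.norm_real, Real.norm_of_nonneg (gg_nonneg y)]
      refine (hb y).trans ?_
      gcongr
      linarith) (fun X => V_eq hG X) (fun X => by
      rw [Complex.norm_real]
      refine (rho_dec hS hI X).trans ?_
      gcongr
      linarith) (by norm_num) X
  obtain ⟨k1, k2, k3⟩ := key
  have e1 : ∀ k : ℤ, X + 2 * Real.pi / (1 / 5) * k = X + 10 * Real.pi * k := by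
    intro k
    ring
  simp only [e1] at k1 k3
  have f1 : (fun k : ℤ => rho (X + 10 * Real.pi * k)) =
      fun k : ℤ => (((rho (X + 10 * Real.pi * k) : ℝ) : ℂ)).re := by
    funext k
    rw [Complex.ofReal_re]
  have f2 : (fun j : ℤ => gg (j / 5) * Real.cos (X * (j / 5))) =
      fun j : ℤ => (((gg (1 / 5 * j) : ℝ) : ℂ) *
        Complex.exp (Complex.I * (X * (1 / 5 * j) : ℝ))).re := by
    funext j
    rw [Complex.re_ofReal_mul, mul_comm Complex.I, Complex.exp_ofReal_mul_I_re]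
    congr 2
    · ring
    · ring
  have s1 : Summable (fun k : ℤ => rho (X + 10 * Real.pi * k)) := by
    rw [f1]
    exact Complex.reCLM.summable k1
  have s2 : Summable (fun j : ℤ => gg (j / 5) * Real.cos (X * (j / 5))) := by
    rw [f2]
    exact Complex.reCLM.summable k2
  refine ⟨s1, s2, ?_⟩
  rw [f1, f2, ← Complex.re_tsum k1, ← Complex.re_tsum k2, k3, Complex.re_ofReal_mul]

/-! ### numerical constants -/


theorem exp_lo (n : ℕ) : (2.7182818283 : ℝ) ^ n ≤ Real.exp n := by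
  have := Real.exp_one_gt_d9
  calc (2.7182818283 : ℝ) ^ n ≤ Real.exp 1 ^ n := pow_le_pow_left₀ (by norm_num) this.le n
    _ = Real.exp n := by
        rw [← Real.exp_nat_mul, mul_one]

theorem exp_hi (n : ℕ) : Real.exp n ≤ (2.7182818286 : ℝ) ^ n := by
  have := Real.exp_one_lt_d9
  calc Real.exp n = Real.exp 1 ^ n := by
        rw [← Real.exp_nat_mul, mul_one]
    _ ≤ (2.7182818286 : ℝ) ^ n := pow_le_pow_left₀ (Real.exp_nonneg _) this.le n

theorem exp_157 : (6570000 : ℝ) ≤ Real.exp (157 / 10) := by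
  have h1 := exp_lo 15
  have h2 : (2 : ℝ) + 1 / 100 ≤ Real.exp (7 / 10) := by
    have := Real.sum_le_exp_of_nonneg (show (0:ℝ) ≤ 7 / 10 by norm_num) 5
    refine le_trans ?_ this
    norm_num [Finset.sum_range_succ, Nat.factorial]
  have h3 : Real.exp (157 / 10) = Real.exp (15 : ℕ) * Real.exp (7 / 10) := by
    rw [← Real.exp_add]
    norm_num
  rw [h3]
  calc (6570000 : ℝ) ≤ 2.7182818283 ^ 15 * (2 + 1 / 100) := by norm_num
    _ ≤ _ := mul_le_mul h1 h2 (by norm_num) (Real.exp_nonneg _)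

theorem exp_57 : Real.exp (57 / 10) ≤ 299 := by
  have h1 : (0 : ℝ) < Real.exp (57 / 10) := Real.exp_pos _
  have h2 : Real.exp (57 / 10) ^ 10 ≤ (299 : ℝ) ^ 10 := by
    rw [← Real.exp_nat_mul]
    have := exp_hi 57
    calc Real.exp ((10 : ℕ) * (57 / 10)) = Real.exp (57 : ℕ) := by norm_num
      _ ≤ _ := this
      _ ≤ _ := by norm_num
  exact le_of_pow_le_pow_left₀ (by norm_num) (by norm_num) h2

theorem exp_3 : Real.exp 3 ≤ 201 / 10 := by
  have := exp_hi 3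
  norm_num at this ⊢
  linarith

/-- `exp (-5 π)` is small -/
theorem r_small : Real.exp (-(5 * Real.pi)) ≤ 1 / 6570000 := by
  have h1 : Real.exp (157 / 10) ≤ Real.exp (5 * Real.pi) := by
    apply Real.exp_le_exp.2
    have := Real.pi_gt_d2
    norm_num at this
    linarith
  have h2 := exp_157
  rw [Real.exp_neg, ← one_div]
  apply one_div_le_one_div_of_le (by norm_num)
  linarith

theorem alias_tsum (X : ℝ) (h0 : 0 ≤ X) (h1 : X ≤ 57 / 5)
    (habs : ∀ X, |rho X| ≤ 93 / 5 * Real.exp (-(|X| / 2)))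
    (hs : Summable (fun k : ℤ => rho (X + 10 * Real.pi * k))) :
    |∑' k : ℤ, rho (X + 10 * Real.pi * k) - rho X| ≤
      93 / 5 * (Real.exp (X / 2) + 1) / 6500000 := by
  set r := Real.exp (-(5 * Real.pi)) with hr
  have hr0 : 0 < r := Real.exp_pos _
  have hr1 := r_small
  have hpi := Real.pi_gt_three
  set f : ℤ → ℝ := fun k => rho (X + 10 * Real.pi * k) with hf
  have s1 : Summable (fun n : ℕ => f n) := by
    exact hs.comp_injective Nat.cast_injective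
  have s2 : Summable (fun n : ℕ => f (-(n + 1))) := by
    refine hs.comp_injective (i := fun n : ℕ => (-(n + 1) : ℤ)) ?_
    intro m n h
    simpa using h
  have e1 : ∑' k : ℤ, f k = ∑' n : ℕ, f n + ∑' n : ℕ, f (-(n + 1)) :=
    tsum_of_nat_of_neg_add_one s1 s2
  have e2 : ∑' n : ℕ, f n = f 0 + ∑' n : ℕ, f ((n + 1 : ℕ) : ℤ) := by
    have := s1.tsum_eq_zero_add
    simpa using this
  have hgs : HasSum (fun n : ℕ => r ^ (n + 1)) (r / (1 - r)) := by
    have := (hasSum_geometric_of_lt_one hr0.le (by linarith)).mul_left r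
    have e : (fun n : ℕ => r ^ (n + 1)) = fun n => r * r ^ n := by
      funext n
      rw [pow_succ]
      ring
    rw [e, div_eq_mul_inv]
    exact this
  have hpow : ∀ n : ℕ, r ^ (n + 1) = Real.exp (-(5 * Real.pi * (n + 1))) := by
    intro n
    rw [hr, ← Real.exp_nat_mul]
    congr 1
    push_cast
    ring
  have b1 : ∀ n : ℕ, ‖f ((n + 1 : ℕ) : ℤ)‖ ≤ 93 / 5 * r ^ (n + 1) := by
    intro n
    rw [hpow, Real.norm_eq_abs]
    refine (habs _).trans ?_
    have : 0 ≤ X + 10 * Real.pi * ((n + 1 : ℕ) : ℤ) := by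
      have : (0:ℝ) ≤ 10 * Real.pi * ((n + 1 : ℕ) : ℤ) := by
        push_cast
        positivity
      linarith
    rw [abs_of_nonneg this]
    gcongr
    push_cast
    linarith
  have b2 : ∀ n : ℕ, ‖f (-(n + 1))‖ ≤ 93 / 5 * Real.exp (X / 2) * r ^ (n + 1) := by
    intro n
    rw [hpow, Real.norm_eq_abs]
    refine (habs _).trans ?_
    have hn : (0 : ℝ) ≤ n := Nat.cast_nonneg n
    have : X + 10 * Real.pi * ((-(n + 1) : ℤ) : ℝ) ≤ 0 := by
      push_cast
      nlinarith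
    rw [abs_of_nonpos this]
    have e : 93 / 5 * Real.exp (X / 2) * Real.exp (-(5 * Real.pi * (n + 1))) =
        93 / 5 * Real.exp (X / 2 + -(5 * Real.pi * (n + 1))) := by
      rw [Real.exp_add]
      ring
    rw [e]
    gcongr
    push_cast
    linarith
  have t1 : |∑' n : ℕ, f ((n + 1 : ℕ) : ℤ)| ≤ 93 / 5 * (r / (1 - r)) :=
    tsum_of_norm_bounded (hgs.mul_left _) b1
  have t2 : |∑' n : ℕ, f (-(n + 1))| ≤ 93 / 5 * Real.exp (X / 2) * (r / (1 - r)) :=
    tsum_of_norm_bounded (hgs.mul_left _) b2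
  have hrr : r / (1 - r) ≤ 1 / 6500000 := by
    rw [div_le_div_iff₀ (by linarith) (by norm_num)]
    linarith
  have hf0 : f 0 = rho X := by
    simp [hf]
  have hE := Real.exp_pos (X / 2)
  have e3 : ∑' k : ℤ, f k - rho X = ∑' n : ℕ, f ((n + 1 : ℕ) : ℤ) + ∑' n : ℕ, f (-(n + 1)) := by
    rw [e1, e2, hf0]
    ring
  have e4 : ∑' k : ℤ, rho (X + 10 * Real.pi * k) = ∑' k : ℤ, f k := rfl
  rw [e4, e3]
  calc |∑' n : ℕ, f ((n + 1 : ℕ) : ℤ) + ∑' n : ℕ, f (-(n + 1))|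
      ≤ |∑' n : ℕ, f ((n + 1 : ℕ) : ℤ)| + |∑' n : ℕ, f (-(n + 1))| := abs_add_le _ _
    _ ≤ 93 / 5 * (r / (1 - r)) + 93 / 5 * Real.exp (X / 2) * (r / (1 - r)) := add_le_add t1 t2
    _ = 93 / 5 * (Real.exp (X / 2) + 1) * (r / (1 - r)) := by ring
    _ ≤ 93 / 5 * (Real.exp (X / 2) + 1) * (1 / 6500000) :=
        mul_le_mul_of_nonneg_left hrr (by positivity)
    _ = _ := by ring

/-! ### the tail -/


theorem G_zero (a : ℝ) (ha : 0 < a) : G a 0 = Real.Gamma a := by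
  unfold G
  rw [Complex.ofReal_zero, mul_zero, add_zero, Complex.Gamma_ofReal, Complex.norm_real,
    Real.norm_of_nonneg (Real.Gamma_pos_of_pos ha).le]

theorem G34_le (hG : StmtG) (hN : StmtGn) (y : ℝ) :
    G (3 / 4) y ^ 2 ≤ 1501676 / 1000000 * G 1 y ^ 2 := by
  have h0 := hN 0 (by norm_num)
  rw [Nat.cast_zero, zero_div, G_zero _ (by norm_num)] at h0
  have h1 : Real.Gamma (3 / 4) ^ 2 ≤ 1501676 / 1000000 := by
    have := (abs_le.1 h0).2
    simp only [gt] at this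
    linarith
  have h2 := hG.2.2.2.1 (3 / 4) 1 y (by norm_num) (by norm_num)
  have h3 : 0 < Real.Gamma (3 / 4) := Real.Gamma_pos_of_pos (by norm_num)
  rw [Real.Gamma_one, div_one, div_le_iff₀ h3] at h2
  calc G (3 / 4) y ^ 2 ≤ (G 1 y * Real.Gamma (3 / 4)) ^ 2 :=
        pow_le_pow_left₀ (G_nonneg _ _) h2 2
    _ = Real.Gamma (3 / 4) ^ 2 * G 1 y ^ 2 := by ring
    _ ≤ _ := mul_le_mul_of_nonneg_right h1 (sq_nonneg _)

/-- `|Γ(1 + i m / 5)| ^ 2` -/
noncomputable def xx (m : ℕ) : ℝ := G 1 (m / 5) ^ 2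

theorem xx_nonneg (m : ℕ) : 0 ≤ xx m := sq_nonneg _

theorem xx_step (hG : StmtG) (m : ℕ) (hm : 1 ≤ m) :
    xx (m + 1) * Real.exp (Real.pi / 5) ≤ xx m * ((m + 1) / m) := by
  have hm' : (0 : ℝ) < m := by exact_mod_cast hm
  have hpi := Real.pi_pos
  have e1 := hG.2.2.2.2.2.1 (m / 5)
  have e2 := hG.2.2.2.2.2.1 (((m + 1 : ℕ) : ℝ) / 5)
  have s1 : 0 < Real.sinh (Real.pi * (m / 5)) := Real.sinh_pos_iff.2 (by positivity)
  have s2 : Real.exp (Real.pi / 5) * Real.sinh (Real.pi * (m / 5)) ≤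
      Real.sinh (Real.pi * (((m + 1 : ℕ) : ℝ) / 5)) := by
    have e : Real.pi * (((m + 1 : ℕ) : ℝ) / 5) = Real.pi * (m / 5) + Real.pi / 5 := by
      push_cast
      ring
    rw [e, Real.sinh_add, ← Real.cosh_add_sinh]
    have h1 : Real.sinh (Real.pi * (m / 5)) ≤ Real.cosh (Real.pi * (m / 5)) :=
      (Real.sinh_lt_cosh _).le
    have h2 : 0 ≤ Real.sinh (Real.pi / 5) := Real.sinh_nonneg_iff.2 (by positivity)
    have h3 := mul_le_mul_of_nonneg_right h1 h2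
    linarith
  have s3 : 0 < Real.sinh (Real.pi * (((m + 1 : ℕ) : ℝ) / 5)) := by
    have : 0 < Real.exp (Real.pi / 5) * Real.sinh (Real.pi * (m / 5)) := by positivity
    linarith
  have x1 : xx m = Real.pi * (m / 5) / Real.sinh (Real.pi * (m / 5)) := by
    rw [eq_div_iff s1.ne']
    exact e1
  have x2 : xx (m + 1) = Real.pi * (((m + 1 : ℕ) : ℝ) / 5) /
      Real.sinh (Real.pi * (((m + 1 : ℕ) : ℝ) / 5)) := by
    rw [eq_div_iff s3.ne']
    exact e2
  have hE := Real.exp_pos (Real.pi / 5)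
  calc xx (m + 1) * Real.exp (Real.pi / 5)
      = Real.pi * (((m + 1 : ℕ) : ℝ) / 5) * Real.exp (Real.pi / 5) /
        Real.sinh (Real.pi * (((m + 1 : ℕ) : ℝ) / 5)) := by
        rw [x2]
        ring
    _ ≤ Real.pi * (((m + 1 : ℕ) : ℝ) / 5) * Real.exp (Real.pi / 5) /
        (Real.exp (Real.pi / 5) * Real.sinh (Real.pi * (m / 5))) := by
        apply div_le_div_of_nonneg_left _ (by positivity) s2
        positivity
    _ = xx m * ((m + 1) / m) := by
        rw [x1]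
        push_cast
        field_simp

theorem xx_8 (hG : StmtG) : xx 8 ≤ 66 / 1000 := by
  have e1 := hG.2.2.2.2.2.1 (((8 : ℕ) : ℝ) / 5)
  have p1 := Real.pi_gt_d4
  have p2 := Real.pi_lt_d4
  have hx : (50264 : ℝ) / 10000 ≤ Real.pi * (((8 : ℕ) : ℝ) / 5) := by
    norm_num at p1 ⊢
    linarith
  have hE : (15237 : ℝ) / 100 ≤ Real.exp (Real.pi * (((8 : ℕ) : ℝ) / 5)) := by
    have h1 := exp_lo 5
    have h2 : (1026748 : ℝ) / 1000000 ≤ Real.exp (264 / 10000) := by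
      have := Real.sum_le_exp_of_nonneg (show (0:ℝ) ≤ 264 / 10000 by norm_num) 3
      refine le_trans ?_ this
      norm_num [Finset.sum_range_succ, Nat.factorial]
    have h3 : Real.exp (50264 / 10000) = Real.exp (5 : ℕ) * Real.exp (264 / 10000) := by
      rw [← Real.exp_add]
      norm_num
    calc (15237 : ℝ) / 100 ≤ 2.7182818283 ^ 5 * (1026748 / 1000000) := by norm_num
      _ ≤ Real.exp (5 : ℕ) * Real.exp (264 / 10000) :=
          mul_le_mul h1 h2 (by norm_num) (Real.exp_nonneg _)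
      _ = Real.exp (50264 / 10000) := h3.symm
      _ ≤ _ := Real.exp_le_exp.2 hx
  have hs : (7618 : ℝ) / 100 ≤ Real.sinh (Real.pi * (((8 : ℕ) : ℝ) / 5)) := by
    rw [Real.sinh_eq]
    have h1 : Real.exp (-(Real.pi * (((8 : ℕ) : ℝ) / 5))) ≤ 1 / 100 := by
      rw [Real.exp_neg, ← one_div]
      apply one_div_le_one_div_of_le (by norm_num)
      linarith
    linarith
  have hs0 : 0 < Real.sinh (Real.pi * (((8 : ℕ) : ℝ) / 5)) := by linarith
  have x1 : xx 8 = Real.pi * (((8 : ℕ) : ℝ) / 5) / Real.sinh (Real.pi * (((8 : ℕ) : ℝ) / 5)) := by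
    rw [eq_div_iff hs0.ne']
    exact e1
  rw [x1, div_le_iff₀ hs0]
  push_cast at hs ⊢
  norm_num at p2
  linarith

/-- the majorant -/
noncomputable def BB (m : ℕ) : ℝ :=
  2 * (1 / 16 + ((m : ℝ) / 5) ^ 2) * (1501676 / 1000000 * xx m) ^ 4

theorem gg_le_BB (hG : StmtG) (hN : StmtGn) (m : ℕ) : gg (m / 5) ≤ BB m := by
  have h := G34_le hG hN (m / 5)
  have e : gw (m / 5) = (G (3 / 4) (m / 5) ^ 2) ^ 4 := by
    unfold gw
    ring
  unfold gg BB
  rw [e]
  have h4 := pow_le_pow_left₀ (sq_nonneg _) h 4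
  exact mul_le_mul_of_nonneg_left h4 (by positivity)

theorem exp_4pi5 : (11 : ℝ) ≤ Real.exp (Real.pi / 5) ^ 4 := by
  have h1 : (5 / 2 : ℝ) ≤ Real.pi / 5 * 4 := by
    have := Real.pi_gt_d2
    norm_num at this
    linarith
  have h2 : Real.exp (Real.pi / 5) ^ 4 = Real.exp (Real.pi / 5 * 4) := by
    rw [← Real.exp_nat_mul]
    congr 1
    push_cast
    ring
  rw [h2]
  refine le_trans ?_ (Real.exp_le_exp.2 h1)
  have := Real.sum_le_exp_of_nonneg (show (0:ℝ) ≤ 5 / 2 by norm_num) 7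
  refine le_trans ?_ this
  norm_num [Finset.sum_range_succ, Nat.factorial]

theorem BB_step (hG : StmtG) (m : ℕ) (hm : 8 ≤ m) : BB (m + 1) ≤ BB m / 5 := by
  have hm' : (8 : ℝ) ≤ m := by exact_mod_cast hm
  have hm0 : (0 : ℝ) < m := by linarith
  have h1 := xx_step hG m (by omega)
  have h0 := xx_nonneg m
  have h0' := xx_nonneg (m + 1)
  have hE := exp_4pi5
  have hE0 := Real.exp_pos (Real.pi / 5)
  have hq1 : ((m : ℝ) + 1) / m ≤ 9 / 8 := by
    rw [div_le_div_iff₀ hm0 (by norm_num)]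
    linarith
  have hq0 : 1 ≤ ((m : ℝ) + 1) / m := by
    rw [le_div_iff₀ hm0]
    linarith
  have h2 : xx (m + 1) * Real.exp (Real.pi / 5) ≤ xx m * (9 / 8) :=
    h1.trans (mul_le_mul_of_nonneg_left hq1 h0)
  have h3 : xx (m + 1) ^ 4 * 11 ≤ xx m ^ 4 * (9 / 8) ^ 4 := by
    calc xx (m + 1) ^ 4 * 11 ≤ xx (m + 1) ^ 4 * Real.exp (Real.pi / 5) ^ 4 :=
          mul_le_mul_of_nonneg_left hE (by positivity)
      _ = (xx (m + 1) * Real.exp (Real.pi / 5)) ^ 4 := by ring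
      _ ≤ (xx m * (9 / 8)) ^ 4 := pow_le_pow_left₀ (by positivity) h2 4
      _ = _ := by ring
  have h4 : 1 / 16 + (((m + 1 : ℕ) : ℝ) / 5) ^ 2 ≤ (9 / 8) ^ 2 * (1 / 16 + ((m : ℝ) / 5) ^ 2) := by
    push_cast
    nlinarith
  unfold BB
  set A := 1 / 16 + ((m : ℝ) / 5) ^ 2 with hA
  have hA0 : 0 < A := by positivity
  calc 2 * (1 / 16 + (((m + 1 : ℕ) : ℝ) / 5) ^ 2) * (1501676 / 1000000 * xx (m + 1)) ^ 4
      = 2 * (1501676 / 1000000) ^ 4 * ((1 / 16 + (((m + 1 : ℕ) : ℝ) / 5) ^ 2) * xx (m + 1) ^ 4) := by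
        ring
    _ ≤ 2 * (1501676 / 1000000) ^ 4 * (((9 / 8) ^ 2 * A) * (xx m ^ 4 * (9 / 8) ^ 4 / 11)) := by
        apply mul_le_mul_of_nonneg_left _ (by positivity)
        apply mul_le_mul h4 _ (by positivity) (by positivity)
        rw [le_div_iff₀ (by norm_num)]
        exact h3
    _ = (9 / 8) ^ 6 / 11 * (2 * A * (1501676 / 1000000 * xx m) ^ 4) := by ring
    _ ≤ 1 / 5 * (2 * A * (1501676 / 1000000 * xx m) ^ 4) := by
        apply mul_le_mul_of_nonneg_right _ (by positivity)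
        norm_num
    _ = _ := by ring

theorem BB_8 (hG : StmtG) : BB 8 ≤ 51 / 100000 := by
  have h := xx_8 hG
  have h0 := xx_nonneg 8
  unfold BB
  calc 2 * (1 / 16 + (((8 : ℕ) : ℝ) / 5) ^ 2) * (1501676 / 1000000 * xx 8) ^ 4
      ≤ 2 * (1 / 16 + (((8 : ℕ) : ℝ) / 5) ^ 2) * (1501676 / 1000000 * (66 / 1000)) ^ 4 := by
        gcongr
    _ ≤ 51 / 100000 := by norm_num

theorem BB_all (hG : StmtG) (n : ℕ) : BB (n + 8) ≤ 51 / 100000 * (1 / 5) ^ n := by
  induction n with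
  | zero => simpa using BB_8 hG
  | succ n ih =>
    have h := BB_step hG (n + 8) (by omega)
    have e : n + 1 + 8 = n + 8 + 1 := by ring
    rw [e, pow_succ]
    linarith

theorem tail (hG : StmtG) (hN : StmtGn) (X : ℝ) :
    |∑' n : ℕ, gg (((n + 8 : ℕ) : ℝ) / 5) * Real.cos (X * (((n + 8 : ℕ) : ℝ) / 5))| ≤
      51 / 80000 := by
  have hgs : HasSum (fun n : ℕ => 51 / 100000 * (1 / 5 : ℝ) ^ n) (51 / 80000) := by
    have := (hasSum_geometric_of_lt_one (show (0:ℝ) ≤ 1 / 5 by norm_num) (by norm_num)).mul_left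
      (51 / 100000 : ℝ)
    have e : (51 / 80000 : ℝ) = 51 / 100000 * (1 - 1 / 5)⁻¹ := by norm_num
    rw [e]
    exact this
  rw [← Real.norm_eq_abs]
  apply tsum_of_norm_bounded hgs
  intro n
  rw [norm_mul, Real.norm_of_nonneg (gg_nonneg _)]
  have h1 := gg_le_BB hG hN (n + 8)
  have h2 := BB_all hG n
  have h3 : ‖Real.cos (X * (((n + 8 : ℕ) : ℝ) / 5))‖ ≤ 1 := Real.abs_cos_le_one _
  calc gg (((n + 8 : ℕ) : ℝ) / 5) * ‖Real.cos (X * (((n + 8 : ℕ) : ℝ) / 5))‖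
      ≤ gg (((n + 8 : ℕ) : ℝ) / 5) * 1 := mul_le_mul_of_nonneg_left h3 (gg_nonneg _)
    _ ≤ _ := by linarith

/-! ### the polynomial -/

/-- the trigonometric polynomial -/
noncomputable def QQ (c : ℝ) : ℝ := -(57541 / 1000000) + 14023 / 250000 * c ^ 1 + 31613 / 125000 * c ^ 2 + 3089 / 12500 * c ^ 3 +
  8493 / 62500 * c ^ 4 + 3519 / 62500 * c ^ 5 + 29 / 1250 * c ^ 6 + 109 / 15625 * c ^ 7

theorem q1 {c : ℝ} (h1 : -1 ≤ c) (h2 : c ≤ -1 / 2) : -153 / 2500 ≤ QQ c := by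
  obtain ⟨u, hu⟩ : ∃ u, u = c - (-1) := ⟨_, rfl⟩
  obtain ⟨v, hv⟩ : ∃ v, v = (-1 / 2) - c := ⟨_, rfl⟩
  have hu0 : 0 ≤ u := by linarith
  have hv0 : 0 ≤ v := by linarith
  have h : QQ c - (-153 / 2500) = 98318 / 15625 * (u ^ 0 * v ^ 7) +
      125494 / 3125 * (u ^ 1 * v ^ 6) +
      336562 / 3125 * (u ^ 2 * v ^ 5) +
      2454822 / 15625 * (u ^ 3 * v ^ 4) +
      2094234 / 15625 * (u ^ 4 * v ^ 3) +
      1038473 / 15625 * (u ^ 5 * v ^ 2) +
      11011 / 625 * (u ^ 6 * v ^ 1) +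
      29981 / 15625 * (u ^ 7 * v ^ 0) := by
    rw [hu, hv]
    unfold QQ
    ring
  have h3 : 0 ≤ QQ c - (-153 / 2500) := by
    rw [h]
    positivity
  linarith

theorem q2 {c : ℝ} (h1 : -1 / 2 ≤ c) (h2 : c ≤ -1 / 4) : -153 / 2500 ≤ QQ c := by
  obtain ⟨u, hu⟩ : ∃ u, u = c - (-1 / 2) := ⟨_, rfl⟩
  obtain ⟨v, hv⟩ : ∃ v, v = (-1 / 4) - c := ⟨_, rfl⟩
  have hu0 : 0 ≤ u := by linarith
  have hv0 : 0 ≤ v := by linarith
  have h : QQ c - (-153 / 2500) = 3837568 / 15625 * (u ^ 0 * v ^ 7) +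
      22676864 / 15625 * (u ^ 1 * v ^ 6) +
      55997824 / 15625 * (u ^ 2 * v ^ 5) +
      74444496 / 15625 * (u ^ 3 * v ^ 4) +
      57073752 / 15625 * (u ^ 4 * v ^ 3) +
      4994864 / 3125 * (u ^ 5 * v ^ 2) +
      1142876 / 3125 * (u ^ 6 * v ^ 1) +
      527953 / 15625 * (u ^ 7 * v ^ 0) := by
    rw [hu, hv]
    unfold QQ
    ring
  have h3 : 0 ≤ QQ c - (-153 / 2500) := by
    rw [h]
    positivity
  linarith

theorem q3 {c : ℝ} (h1 : -1 / 4 ≤ c) (h2 : c ≤ -1 / 8) : -153 / 2500 ≤ QQ c := by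
  obtain ⟨u, hu⟩ : ∃ u, u = c - (-1 / 4) := ⟨_, rfl⟩
  obtain ⟨v, hv⟩ : ∃ v, v = (-1 / 8) - c := ⟨_, rfl⟩
  have hu0 : 0 ≤ u := by linarith
  have hv0 : 0 ≤ v := by linarith
  have h : QQ c - (-153 / 2500) = 67577984 / 15625 * (u ^ 0 * v ^ 7) +
      343848512 / 15625 * (u ^ 1 * v ^ 6) +
      700755104 / 15625 * (u ^ 2 * v ^ 5) +
      720245328 / 15625 * (u ^ 3 * v ^ 4) +
      385838616 / 15625 * (u ^ 4 * v ^ 3) +
      105035564 / 15625 * (u ^ 5 * v ^ 2) +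
      3961526 / 3125 * (u ^ 6 * v ^ 1) +
      4850039 / 15625 * (u ^ 7 * v ^ 0) := by
    rw [hu, hv]
    unfold QQ
    ring
  have h3 : 0 ≤ QQ c - (-153 / 2500) := by
    rw [h]
    positivity
  linarith

theorem q4 {c : ℝ} (h1 : -1 / 8 ≤ c) (h2 : c ≤ 0) : -153 / 2500 ≤ QQ c := by
  obtain ⟨u, hu⟩ : ∃ u, u = c - (-1 / 8) := ⟨_, rfl⟩
  obtain ⟨v, hv⟩ : ∃ v, v = (0) - c := ⟨_, rfl⟩
  have hu0 : 0 ≤ u := by linarith
  have hv0 : 0 ≤ v := by linarith
  have h : QQ c - (-153 / 2500) = 4850039 / 15625 * (u ^ 0 * v ^ 7) +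
      48092916 / 15625 * (u ^ 1 * v ^ 6) +
      54949456 / 3125 * (u ^ 2 * v ^ 5) +
      834070144 / 15625 * (u ^ 3 * v ^ 4) +
      2210816 / 25 * (u ^ 4 * v ^ 3) +
      1268830208 / 15625 * (u ^ 5 * v ^ 2) +
      609533952 / 15625 * (u ^ 6 * v ^ 1) +
      119898112 / 15625 * (u ^ 7 * v ^ 0) := by
    rw [hu, hv]
    unfold QQ
    ring
  have h3 : 0 ≤ QQ c - (-153 / 2500) := by
    rw [h]
    positivity
  linarith

theorem q5 {c : ℝ} (h1 : 0 ≤ c) (h2 : c ≤ 1) : -153 / 2500 ≤ QQ c := by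
  obtain ⟨u, hu⟩ : ∃ u, u = c - (0) := ⟨_, rfl⟩
  obtain ⟨v, hv⟩ : ∃ v, v = (1) - c := ⟨_, rfl⟩
  have hu0 : 0 ≤ u := by linarith
  have hv0 : 0 ≤ v := by linarith
  have h : QQ c - (-153 / 2500) = 3659 / 1000000 * (u ^ 0 * v ^ 7) +
      16341 / 200000 * (u ^ 1 * v ^ 6) +
      133259 / 200000 * (u ^ 2 * v ^ 5) +
      496217 / 200000 * (u ^ 3 * v ^ 4) +
      4903313 / 1000000 * (u ^ 4 * v ^ 3) +
      5393947 / 1000000 * (u ^ 5 * v ^ 2) +
      3158637 / 1000000 * (u ^ 6 * v ^ 1) +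
      782143 / 1000000 * (u ^ 7 * v ^ 0) := by
    rw [hu, hv]
    unfold QQ
    ring
  have h3 : 0 ≤ QQ c - (-153 / 2500) := by
    rw [h]
    positivity
  linarith

theorem q6 {c : ℝ} (h1 : 7 / 20 ≤ c) (h2 : c ≤ 1) : 1 / 500 ≤ QQ c := by
  obtain ⟨u, hu⟩ : ∃ u, u = c - (7 / 20) := ⟨_, rfl⟩
  obtain ⟨v, hv⟩ : ∃ v, v = (1) - c := ⟨_, rfl⟩
  have hu0 : 0 ≤ u := by linarith
  have hv0 : 0 ≤ v := by linarith
  have h : QQ c - (1 / 500) = 80984690737 / 980445578125 * (u ^ 0 * v ^ 7) +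
      1029336784718 / 196089115625 * (u ^ 1 * v ^ 6) +
      276860938564 / 7843564625 * (u ^ 2 * v ^ 5) +
      812661856928 / 7843564625 * (u ^ 3 * v ^ 4) +
      258208713664 / 1568712925 * (u ^ 4 * v ^ 3) +
      46562207872 / 313742585 * (u ^ 5 * v ^ 2) +
      4514514432 / 62748517 * (u ^ 6 * v ^ 1) +
      920247040 / 62748517 * (u ^ 7 * v ^ 0) := by
    rw [hu, hv]
    unfold QQ
    ring
  have h3 : 0 ≤ QQ c - (1 / 500) := by
    rw [h]
    positivity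
  linarith

theorem qlow {c : ℝ} (h1 : -1 ≤ c) (h2 : c ≤ 1) : -153 / 2500 ≤ QQ c := by
  rcases le_total c (-1 / 2) with h | h
  · exact q1 h1 h
  rcases le_total c (-1 / 4) with h' | h'
  · exact q2 h h'
  rcases le_total c (-1 / 8) with h'' | h''
  · exact q3 h' h''
  rcases le_total c 0 with h3 | h3
  · exact q4 h'' h3
  · exact q5 h3 h2

/-! ### the main sum -/


theorem cheb (t : ℝ) (n : ℕ) :
    Real.cos (t * ((n + 2 : ℕ) : ℝ)) =
      2 * Real.cos t * Real.cos (t * ((n + 1 : ℕ) : ℝ)) - Real.cos (t * n) := by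
  have e1 : t * ((n + 2 : ℕ) : ℝ) = t * ((n + 1 : ℕ) : ℝ) + t := by
    push_cast
    ring
  have e2 : t * (n : ℝ) = t * ((n + 1 : ℕ) : ℝ) - t := by
    push_cast
    ring
  rw [e1, e2, Real.cos_add, Real.cos_sub]
  ring

theorem low {a A e c : ℝ} (h : |a - A| ≤ e) (hc : |c| ≤ 1) : A * c - e ≤ a * c := by
  have h1 : |(a - A) * c| ≤ e := by
    rw [abs_mul]
    calc |a - A| * |c| ≤ e * 1 := mul_le_mul h hc (abs_nonneg _) ((abs_nonneg _).trans h)
      _ = e := mul_one e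
  have h2 := (abs_le.1 h1).1
  linarith

theorem coef {x g A e w : ℝ} (hx : |x - g| ≤ 3 / 100000) (hg : 3 / 100000 ≤ g) (hw : 0 ≤ w)
    (h1 : A - e ≤ w * (g - 3 / 100000) ^ 4) (h2 : w * (g + 3 / 100000) ^ 4 ≤ A + e) :
    |w * x ^ 4 - A| ≤ e := by
  obtain ⟨a1, a2⟩ := abs_le.1 hx
  have hx0 : 0 ≤ x := by linarith
  have b1 : (g - 3 / 100000) ^ 4 ≤ x ^ 4 := pow_le_pow_left₀ (by linarith) (by linarith) 4
  have b2 : x ^ 4 ≤ (g + 3 / 100000) ^ 4 := pow_le_pow_left₀ hx0 (by linarith) 4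
  have c1 := mul_le_mul_of_nonneg_left b1 hw
  have c2 := mul_le_mul_of_nonneg_left b2 hw
  rw [abs_le]
  constructor <;> linarith

theorem term (hN : StmtGn) (j : ℕ) (hj : j < 8) (A e s c : ℝ) (hs : 0 ≤ s) (hc : |c| ≤ 1)
    (hg : 3 / 100000 ≤ gt j)
    (h1 : A - e ≤ s * (2 * (1 / 16 + ((j : ℝ) / 5) ^ 2)) * (gt j - 3 / 100000) ^ 4)
    (h2 : s * (2 * (1 / 16 + ((j : ℝ) / 5) ^ 2)) * (gt j + 3 / 100000) ^ 4 ≤ A + e) :
    A * c - e ≤ s * (gg ((j : ℝ) / 5) * c) := by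
  have h := low (coef (hN j hj) hg (by positivity) h1 h2) hc
  refine h.trans (le_of_eq ?_)
  unfold gg gw
  ring

theorem main_low (hN : StmtGn) (t : ℝ) :
    QQ (Real.cos t) - 8250 / 100000000 ≤ 2 / 5 * ∑ n ∈ range 8, gg ((n : ℝ) / 5) * Real.cos (t * n)
      - 1 / 5 * gg 0 := by
  have hc : ∀ n : ℕ, |Real.cos (t * n)| ≤ 1 := fun n => Real.abs_cos_le_one _
  have k0 := term hN 0 (by norm_num) (127119 / 1000000) (1022 / 100000000) (1 / 5) _ (by norm_num)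
    (hc 0) (by norm_num [gt]) (by norm_num [gt]) (by norm_num [gt])
  have k1 := term hN 1 (by norm_num) (280437 / 1000000) (2479 / 100000000) (2 / 5) _ (by norm_num)
    (hc 1) (by norm_num [gt]) (by norm_num [gt]) (by norm_num [gt])
  have k2 := term hN 2 (by norm_num) (205271 / 1000000) (2419 / 100000000) (2 / 5) _ (by norm_num)
    (hc 2) (by norm_num [gt]) (by norm_num [gt]) (by norm_num [gt])
  have k3 := term hN 3 (by norm_num) (1276 / 15625) (1417 / 100000000) (2 / 5) _ (by norm_num)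
    (hc 3) (by norm_num [gt]) (by norm_num [gt]) (by norm_num [gt])
  have k4 := term hN 4 (by norm_num) (2667 / 125000) (581 / 100000000) (2 / 5) _ (by norm_num)
    (hc 4) (by norm_num [gt]) (by norm_num [gt]) (by norm_num [gt])
  have k5 := term hN 5 (by norm_num) (2141 / 500000) (194 / 100000000) (2 / 5) _ (by norm_num)
    (hc 5) (by norm_num [gt]) (by norm_num [gt]) (by norm_num [gt])
  have k6 := term hN 6 (by norm_num) (29 / 40000) (84 / 100000000) (2 / 5) _ (by norm_num)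
    (hc 6) (by norm_num [gt]) (by norm_num [gt]) (by norm_num [gt])
  have k7 := term hN 7 (by norm_num) (109 / 1000000) (31 / 100000000) (2 / 5) _ (by norm_num)
    (hc 7) (by norm_num [gt]) (by norm_num [gt]) (by norm_num [gt])
  have c0 : Real.cos (t * ((0 : ℕ) : ℝ)) = 1 := by simp
  have c1 : Real.cos (t * ((1 : ℕ) : ℝ)) = Real.cos t := by simp
  have c2 := cheb t 0
  have c3 := cheb t 1
  have c4 := cheb t 2
  have c5 := cheb t 3
  have c6 := cheb t 4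
  have c7 := cheb t 5
  simp only [Nat.reduceAdd] at c2 c3 c4 c5 c6 c7
  rw [c0, c1] at c2
  rw [c1, c2] at c3
  rw [c2, c3] at c4
  rw [c3, c4] at c5
  rw [c4, c5] at c6
  rw [c5, c6] at c7
  have e0 : gg 0 = gg (((0 : ℕ) : ℝ) / 5) := by simp
  have hsum : ∑ n ∈ range 8, gg ((n : ℝ) / 5) * Real.cos (t * n) =
      gg (((0 : ℕ) : ℝ) / 5) * Real.cos (t * ((0 : ℕ) : ℝ)) +
      gg (((1 : ℕ) : ℝ) / 5) * Real.cos (t * ((1 : ℕ) : ℝ)) +
      gg (((2 : ℕ) : ℝ) / 5) * Real.cos (t * ((2 : ℕ) : ℝ)) +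
      gg (((3 : ℕ) : ℝ) / 5) * Real.cos (t * ((3 : ℕ) : ℝ)) +
      gg (((4 : ℕ) : ℝ) / 5) * Real.cos (t * ((4 : ℕ) : ℝ)) +
      gg (((5 : ℕ) : ℝ) / 5) * Real.cos (t * ((5 : ℕ) : ℝ)) +
      gg (((6 : ℕ) : ℝ) / 5) * Real.cos (t * ((6 : ℕ) : ℝ)) +
      gg (((7 : ℕ) : ℝ) / 5) * Real.cos (t * ((7 : ℕ) : ℝ)) := by
    simp only [Finset.sum_range_succ, Finset.sum_range_zero, zero_add]
  rw [hsum, e0]
  rw [c0] at k0 ⊢
  rw [c1] at k1 ⊢
  rw [c2] at k2 ⊢
  rw [c3] at k3 ⊢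
  rw [c4] at k4 ⊢
  rw [c5] at k5 ⊢
  rw [c6] at k6 ⊢
  rw [c7] at k7 ⊢
  unfold QQ
  set c := Real.cos t
  generalize gg (((0 : ℕ) : ℝ) / 5) = g0 at *
  generalize gg (((1 : ℕ) : ℝ) / 5) = g1 at *
  generalize gg (((2 : ℕ) : ℝ) / 5) = g2 at *
  generalize gg (((3 : ℕ) : ℝ) / 5) = g3 at *
  generalize gg (((4 : ℕ) : ℝ) / 5) = g4 at *
  generalize gg (((5 : ℕ) : ℝ) / 5) = g5 at *
  generalize gg (((6 : ℕ) : ℝ) / 5) = g6 at *
  generalize gg (((7 : ℕ) : ℝ) / 5) = g7 at *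
  clear hN hc c0 c1 c2 c3 c4 c5 c6 c7 e0 hsum
  ring_nf at k0 k1 k2 k3 k4 k5 k6 k7 ⊢
  linarith


/-! ### conclusion -/

theorem series (hG : StmtG) (X : ℝ)
    (hs : Summable (fun j : ℤ => gg (j / 5) * Real.cos (X * (j / 5)))) :
    1 / 5 * ∑' j : ℤ, gg (j / 5) * Real.cos (X * (j / 5)) =
      2 / 5 * ∑ n ∈ range 8, gg ((n : ℝ) / 5) * Real.cos (X / 5 * n) - 1 / 5 * gg 0 +
      2 / 5 * ∑' n : ℕ, gg (((n + 8 : ℕ) : ℝ) / 5) * Real.cos (X * (((n + 8 : ℕ) : ℝ) / 5)) := by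
  set u : ℤ → ℝ := fun j => gg (j / 5) * Real.cos (X * (j / 5)) with hu
  have s1 : Summable (fun n : ℕ => u n) := hs.comp_injective Nat.cast_injective
  have ev : ∀ k : ℤ, u (-k) = u k := by
    intro k
    simp only [hu]
    push_cast
    rw [neg_div, gg_even hG, mul_neg, Real.cos_neg]
  have e0 : (fun n : ℕ => u (-(n + 1))) = fun n : ℕ => u ((n + 1 : ℕ) : ℤ) := by
    funext n
    rw [ev]
    push_cast
    rfl
  have s2 : Summable (fun n : ℕ => u (-(n + 1))) := by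
    rw [e0]
    exact (summable_nat_add_iff 1).2 s1
  have e1 : ∑' k : ℤ, u k = ∑' n : ℕ, u n + ∑' n : ℕ, u (-(n + 1)) :=
    tsum_of_nat_of_neg_add_one s1 s2
  have e2 : ∑' n : ℕ, u n = u 0 + ∑' n : ℕ, u ((n + 1 : ℕ) : ℤ) := by
    have := s1.tsum_eq_zero_add
    simpa using this
  have e3 : ∑' n : ℕ, u n = ∑ n ∈ range 8, u n + ∑' n : ℕ, u ((n + 8 : ℕ) : ℤ) :=
    (s1.sum_add_tsum_nat_add 8).symm
  have e4 : u 0 = gg 0 := by
    simp [hu]
  have e5 : ∀ n : ℕ, u n = gg ((n : ℝ) / 5) * Real.cos (X / 5 * n) := by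
    intro n
    simp only [hu]
    push_cast
    congr 2
    ring
  have e6 : ∑ n ∈ range 8, u n = ∑ n ∈ range 8, gg ((n : ℝ) / 5) * Real.cos (X / 5 * n) :=
    Finset.sum_congr rfl (fun n _ => e5 n)
  have e7 : ∑' n : ℕ, u ((n + 8 : ℕ) : ℤ) =
      ∑' n : ℕ, gg (((n + 8 : ℕ) : ℝ) / 5) * Real.cos (X * (((n + 8 : ℕ) : ℝ) / 5)) := by
    apply tsum_congr
    intro n
    simp only [hu]
    push_cast
    rfl
  rw [← e6, ← e7, e1, e0]
  linarith

theorem rho_low (hG : StmtG) (hN : StmtGn) (hP : StmtPS) (hS : StmtShift) (hI : StmtI1) (X : ℝ)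
    (h0 : 0 ≤ X) (h1 : X ≤ 57 / 5) :
    QQ (Real.cos (X / 5)) - 33750 / 100000000 -
      93 / 5 * (Real.exp (X / 2) + 1) / 6500000 ≤ rho X := by
  obtain ⟨p1, p2, p3⟩ := poisson hG hP hS hI X
  have a1 := alias_tsum X h0 h1 (rho_abs hS hI) p1
  rw [p3, series hG X p2] at a1
  have a2 := tail hG hN X
  have a3 := main_low hN (X / 5)
  have a4 := (abs_le.1 a1).2
  have a5 := (abs_le.1 a2).1
  linarith

theorem cos_65 : 35 / 100 ≤ Real.cos (6 / 5) := by
  have h1 := Real.cos_bound (show |(3 / 10 : ℝ)| ≤ 1 by norm_num [abs_of_pos])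
  have h4 : Real.cos (6 / 5) = 2 * Real.cos (3 / 5) ^ 2 - 1 := by
    rw [← Real.cos_two_mul]
    congr 1
    norm_num
  have h6 : (8219 : ℝ) / 10000 ≤ Real.cos (3 / 5) := by
    have h2' : (9545 : ℝ) / 10000 ≤ Real.cos (3 / 10) := by
      have := (abs_le.1 h1).1
      norm_num [abs_of_pos] at this
      linarith
    have e : (3 / 5 : ℝ) = 2 * (3 / 10) := by norm_num
    rw [e, Real.cos_two_mul]
    nlinarith
  rw [h4]
  nlinarith

end RhoX

/-- (Rho) -/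
theorem rhofacts (hG : StmtG) (hN : StmtGn) (hP : StmtPS) (_hW : StmtWh) (hS : StmtShift)
    (hI : StmtI1) : StmtRho := by
  refine ⟨RhoX.rho_abs hS hI, fun X h0 h6 => ?_, fun X h6 h1 => ?_⟩
  · have h := RhoX.rho_low hG hN hP hS hI X h0 (by linarith)
    have hc : 35 / 100 ≤ Real.cos (X / 5) := by
      refine RhoX.cos_65.trans ?_
      apply Real.cos_le_cos_of_nonneg_of_le_pi (by linarith) _ (by linarith)
      have := Real.pi_gt_three
      linarith
    have hq := RhoX.q6 (by linarith : (7 : ℝ) / 20 ≤ Real.cos (X / 5)) (Real.cos_le_one _)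
    have hE : Real.exp (X / 2) ≤ Real.exp 3 := Real.exp_le_exp.2 (by linarith)
    have hE3 := RhoX.exp_3
    linarith
  · have h := RhoX.rho_low hG hN hP hS hI X (by linarith) h1
    have hq := RhoX.qlow (Real.neg_one_le_cos (X / 5)) (Real.cos_le_one _)
    have hE : Real.exp (X / 2) ≤ Real.exp (57 / 10) := Real.exp_le_exp.2 (by linarith)
    have hE3 := RhoX.exp_57
    linarith

end Pool.Agent.Lib.MP_dd244f_an.Rq
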