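import Pool.Agent.Lib.MP_dd244f_an.Rq.Stmts

/-!
(Shift): the contour shift bound for `rho`.
-/

set_option autoImplicit false

namespace Pool.Agent.Lib.MP_dd244f_an.Rq

open MeasureTheory Filter Topology Set

namespace ShiftAux

/-- shifting a vertical line of integration (as in MP_973905_nt/K1/Shift.lean) -/
lemma vshift {h : ℂ → ℂ} {α β σ₁ σ₂ : ℝ} (h1 : α < σ₁) (h2 : σ₁ < β) (h3 : α < σ₂) (h4 : σ₂ < β)
    (hd : DifferentiableOn ℂ h {s : ℂ | α < s.re ∧ s.re < β}) {B : ℝ → ℝ} (hB : Integrable B)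
    (hB1 : Tendsto B atTop (𝓝 0)) (hB2 : Tendsto B atBot (𝓝 0))
    (hb : ∀ x ∈ uIcc σ₁ σ₂, ∀ t : ℝ, ‖h (x + t * Complex.I)‖ ≤ B t) :
    ∫ t : ℝ, h (σ₁ + t * Complex.I) = ∫ t : ℝ, h (σ₂ + t * Complex.I) := by
  have hsub : ∀ x ∈ uIcc σ₁ σ₂, α < x ∧ x < β := by
    intro x hx
    rw [mem_uIcc] at hx
    rcases hx with hx | hx
    · exact ⟨by linarith [hx.1], by linarith [hx.2]⟩
    · exact ⟨by linarith [hx.1], by linarith [hx.2]⟩
  have hcont : ∀ x : ℝ, α < x → x < β → Continuous fun t : ℝ => h (x + t * Complex.I) := by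
    intro x hx1 hx2
    apply hd.continuousOn.comp_continuous (by fun_prop)
    intro t
    simpa using ⟨hx1, hx2⟩
  have hint : ∀ x ∈ uIcc σ₁ σ₂, Integrable fun t : ℝ => h (x + t * Complex.I) := by
    intro x hx
    exact hB.mono' (hcont x (hsub x hx).1 (hsub x hx).2).aestronglyMeasurable
      (Eventually.of_forall fun t => hb x hx t)
  have hi1 := hint σ₁ left_mem_uIcc
  have hi2 := hint σ₂ right_mem_uIcc
  have hrect : ∀ R : ℝ, (∫ x in σ₁..σ₂, h (x + (-R : ℝ) * Complex.I)) -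
      (∫ x in σ₁..σ₂, h (x + R * Complex.I)) +
      Complex.I • (∫ y in (-R)..R, h (σ₂ + y * Complex.I)) -
      Complex.I • (∫ y in (-R)..R, h (σ₁ + y * Complex.I)) = 0 := by
    intro R
    have := Complex.integral_boundary_rect_eq_zero_of_differentiableOn h
      ((σ₁ : ℂ) + ((-R : ℝ) : ℂ) * Complex.I) ((σ₂ : ℂ) + (R : ℂ) * Complex.I) ?_
    · simpa using this
    · apply hd.mono
      intro s hs
      rw [Complex.mem_reProdIm] at hs
      have h5 := hs.1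
      simp only [Complex.add_re, Complex.ofReal_re, Complex.mul_re, Complex.I_re, mul_zero,
        Complex.ofReal_im, Complex.I_im, mul_one, sub_self, add_zero] at h5
      exact hsub _ h5
  have t1 : Tendsto (fun R : ℝ => ∫ y in (-R)..R, h (σ₂ + y * Complex.I)) atTop
      (𝓝 (∫ t : ℝ, h (σ₂ + t * Complex.I))) :=
    intervalIntegral_tendsto_integral hi2 tendsto_neg_atTop_atBot tendsto_id
  have t2 : Tendsto (fun R : ℝ => ∫ y in (-R)..R, h (σ₁ + y * Complex.I)) atTop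
      (𝓝 (∫ t : ℝ, h (σ₁ + t * Complex.I))) :=
    intervalIntegral_tendsto_integral hi1 tendsto_neg_atTop_atBot tendsto_id
  have t3 : Tendsto (fun R : ℝ => ∫ x in σ₁..σ₂, h (x + R * Complex.I)) atTop (𝓝 0) := by
    refine squeeze_zero_norm (a := fun R => B R * |σ₂ - σ₁|) (fun R => ?_) ?_
    · exact intervalIntegral.norm_integral_le_of_norm_le_const
        fun x hx => hb x (uIoc_subset_uIcc hx) R
    · simpa using hB1.mul_const |σ₂ - σ₁|
  have t4 : Tendsto (fun R : ℝ => ∫ x in σ₁..σ₂, h (x + (-R : ℝ) * Complex.I)) atTop (𝓝 0) := by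
    refine squeeze_zero_norm (a := fun R => B (-R) * |σ₂ - σ₁|) (fun R => ?_) ?_
    · exact intervalIntegral.norm_integral_le_of_norm_le_const
        fun x hx => hb x (uIoc_subset_uIcc hx) (-R)
    · simpa using (hB2.comp tendsto_neg_atTop_atBot).mul_const |σ₂ - σ₁|
  have h6 : Tendsto (fun R : ℝ => (∫ x in σ₁..σ₂, h (x + (-R : ℝ) * Complex.I)) -
      (∫ x in σ₁..σ₂, h (x + R * Complex.I)) +
      Complex.I • (∫ y in (-R)..R, h (σ₂ + y * Complex.I)) -
      Complex.I • (∫ y in (-R)..R, h (σ₁ + y * Complex.I))) atTop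
      (𝓝 ((0 : ℂ) - 0 + Complex.I • (∫ t : ℝ, h (σ₂ + t * Complex.I)) -
        Complex.I • (∫ t : ℝ, h (σ₁ + t * Complex.I)))) :=
    (((t4.sub t3).add (t1.const_smul Complex.I)).sub (t2.const_smul Complex.I))
  have h7 := tendsto_nhds_unique h6 (by simp only [hrect]; exact tendsto_const_nhds)
  have h8 : Complex.I * (∫ t : ℝ, h (σ₂ + t * Complex.I)) =
      Complex.I * (∫ t : ℝ, h (σ₁ + t * Complex.I)) := by
    simp only [smul_eq_mul, sub_zero, zero_add] at h7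
    linear_combination h7
  exact (mul_left_cancel₀ Complex.I_ne_zero h8).symm

lemma int_exp (b : ℝ) (hb : 0 < b) : Integrable (fun y : ℝ => Real.exp (-b * |y|)) := by
  have h := (integrable_fun_norm_addHaar (volume : Measure ℝ)
    (f := fun y : ℝ => Real.exp (-b * y))).mpr ?_
  · simpa [Real.norm_eq_abs] using h
  · have := exp_neg_integrableOn_Ioi 0 hb
    simpa using this

lemma int_exp1 : Integrable (fun y : ℝ => Real.exp (-|y|)) := by
  have := int_exp 1 one_pos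
  simpa using this

/-- polynomial factors -/
lemma poly_le (y : ℝ) : (1 + y ^ 2) ^ 2 ≤ 24 * (Real.exp 1 * Real.exp |y|) := by
  have h := Real.pow_div_factorial_le_exp (1 + |y|) (by positivity) 4
  have h4 : ((Nat.factorial 4 : ℕ) : ℝ) = 24 := by norm_num [Nat.factorial]
  rw [h4, div_le_iff₀ (by norm_num), Real.exp_add] at h
  have hy : (1 + y ^ 2) ^ 2 ≤ (1 + |y|) ^ 4 := by
    have h1 : 1 + y ^ 2 ≤ (1 + |y|) ^ 2 := by
      nlinarith [abs_nonneg y, sq_abs y]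
    calc (1 + y ^ 2) ^ 2 ≤ ((1 + |y|) ^ 2) ^ 2 := by gcongr
      _ = (1 + |y|) ^ 4 := by ring
  linarith

lemma poly_le' (y : ℝ) : 1 + y ^ 2 ≤ 24 * (Real.exp 1 * Real.exp |y|) := by
  refine le_trans ?_ (poly_le y)
  nlinarith [sq_nonneg y]

/-- the majorant -/
lemma maj_int (K : ℝ) : Integrable (fun y : ℝ => K * Real.exp (-|y|)) := int_exp1.const_mul K

lemma maj_top (K : ℝ) : Tendsto (fun y : ℝ => K * Real.exp (-|y|)) atTop (𝓝 0) := by
  have h : Tendsto (fun y : ℝ => Real.exp (-|y|)) atTop (𝓝 0) :=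
    Real.tendsto_exp_atBot.comp (tendsto_neg_atTop_atBot.comp tendsto_abs_atTop_atTop)
  simpa using h.const_mul K

lemma maj_bot (K : ℝ) : Tendsto (fun y : ℝ => K * Real.exp (-|y|)) atBot (𝓝 0) := by
  have h : Tendsto (fun y : ℝ => Real.exp (-|y|)) atBot (𝓝 0) :=
    Real.tendsto_exp_atBot.comp (tendsto_neg_atTop_atBot.comp tendsto_abs_atBot_atTop)
  simpa using h.const_mul K

/-- uniform decay of `|Γ|` -/
lemma unif (hG : StmtG) : ∃ C, 0 < C ∧ ∀ a y : ℝ, 1 / 4 ≤ a → a ≤ 5 / 4 →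
    G a y ≤ C * Real.exp (-(3 / 2 * |y|)) := by
  obtain ⟨h1, h2, h3, h4, -⟩ := hG
  obtain ⟨C, hC, hC'⟩ := h3 (5 / 4) (by norm_num)
  have hcont : ContinuousOn Real.Gamma (Icc (1 / 4) (5 / 4)) := by
    intro x hx
    refine (Real.differentiableAt_Gamma fun m => ?_).continuousAt.continuousWithinAt
    have : (0 : ℝ) ≤ m := by positivity
    have := hx.1
    intro h
    linarith
  obtain ⟨M, hM⟩ := isCompact_Icc.exists_bound_of_continuousOn hcont
  have hM0 : 0 < M := by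
    have := hM (1 / 4) ⟨le_rfl, by norm_num⟩
    have h5 : 0 < Real.Gamma (1 / 4) := Real.Gamma_pos_of_pos (by norm_num)
    rw [Real.norm_eq_abs, abs_of_pos h5] at this
    linarith
  have hg : 0 < Real.Gamma (5 / 4) := Real.Gamma_pos_of_pos (by norm_num)
  refine ⟨M / Real.Gamma (5 / 4) * C, by positivity, fun a y ha hb => ?_⟩
  have ha0 : 0 < a := by linarith
  have h5 := h4 a (5 / 4) y ha0 hb
  have hga : 0 < Real.Gamma a := Real.Gamma_pos_of_pos ha0
  have hgM : Real.Gamma a ≤ M := by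
    have := hM a ⟨ha, hb⟩
    rwa [Real.norm_eq_abs, abs_of_pos hga] at this
  rw [div_le_div_iff₀ hga hg] at h5
  have h6 := hC' y
  have h7 : 0 < G (5 / 4) y := (h1 (5 / 4) y (by norm_num)).1
  calc G a y = G a y * Real.Gamma (5 / 4) / Real.Gamma (5 / 4) := by field_simp
    _ ≤ G (5 / 4) y * Real.Gamma a / Real.Gamma (5 / 4) := by gcongr
    _ ≤ (C * Real.exp (-(3 / 2 * |y|))) * M / Real.Gamma (5 / 4) := by gcongr
    _ = M / Real.Gamma (5 / 4) * C * Real.exp (-(3 / 2 * |y|)) := by ring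

lemma r2_le (hG : StmtG) : ∃ C, 0 < C ∧ ∀ y : ℝ, 0 ≤ r2 y ∧ (1 + y ^ 2) ^ 2 * r2 y ≤
    C * Real.exp (-|y|) := by
  obtain ⟨C, hC, h⟩ := unif hG
  obtain ⟨h1, -⟩ := hG
  refine ⟨24 * Real.exp 1 * C ^ 8, by positivity, fun y => ?_⟩
  have ha := h (5 / 4) y (by norm_num) le_rfl
  have hb := h (1 / 4) y le_rfl (by norm_num)
  have ha0 := (h1 (5 / 4) y (by norm_num)).1
  have hb0 := (h1 (1 / 4) y (by norm_num)).1
  have h0 : 0 ≤ r2 y := by unfold r2; positivity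
  refine ⟨h0, ?_⟩
  have h2 : r2 y ≤ C ^ 8 * Real.exp (-(12 * |y|)) := by
    have e : Real.exp (-(12 * |y|)) = Real.exp (-(3 / 2 * |y|)) ^ 4 *
        Real.exp (-(3 / 2 * |y|)) ^ 4 := by
      rw [← pow_add, ← Real.exp_nat_mul]
      congr 1
      push_cast
      ring
    unfold r2
    rw [e]
    calc G (5 / 4) y ^ 4 * G (1 / 4) y ^ 4
        ≤ (C * Real.exp (-(3 / 2 * |y|))) ^ 4 * (C * Real.exp (-(3 / 2 * |y|))) ^ 4 := by
          gcongr
      _ = _ := by ring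
  calc (1 + y ^ 2) ^ 2 * r2 y
      ≤ 24 * (Real.exp 1 * Real.exp |y|) * (C ^ 8 * Real.exp (-(12 * |y|))) := by
        gcongr
        exact poly_le y
    _ = 24 * Real.exp 1 * C ^ 8 * (Real.exp |y| * Real.exp (-(12 * |y|))) := by ring
    _ ≤ 24 * Real.exp 1 * C ^ 8 * Real.exp (-|y|) := by
        rw [← Real.exp_add]
        gcongr
        linarith [abs_nonneg y]

lemma r2_cont (hG : StmtG) : Continuous r2 := by
  obtain ⟨-, h2, -⟩ := hG
  unfold r2
  exact ((h2 _ (by norm_num)).pow 4).mul ((h2 _ (by norm_num)).pow 4)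

lemma r2_int (hG : StmtG) : Integrable (fun y => (1 + y ^ 2) ^ 2 * r2 y) := by
  obtain ⟨C, hC, h⟩ := r2_le hG
  refine (maj_int C).mono' ?_ (Eventually.of_forall fun y => ?_)
  · exact (Continuous.mul (by fun_prop) (r2_cont hG)).aestronglyMeasurable
  · rw [Real.norm_eq_abs, abs_of_nonneg (mul_nonneg (by positivity) (h y).1)]
    exact (h y).2

/-- the integrand as a function of `s = i z` -/
noncomputable def H (X : ℝ) (s : ℂ) : ℂ := 2 * (1 / 16 - s ^ 2) *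
  (Complex.Gamma (3 / 4 + s) * Complex.Gamma (3 / 4 - s)) ^ 4 * Complex.exp (X * s)

lemma H_diff (X : ℝ) : DifferentiableOn ℂ (H X) {s : ℂ | -(3 / 4) < s.re ∧ s.re < 3 / 4} := by
  intro s hs
  apply DifferentiableAt.differentiableWithinAt
  have h1 : DifferentiableAt ℂ (fun s : ℂ => Complex.Gamma (3 / 4 + s)) s := by
    have h := Complex.differentiableAt_Gamma (3 / 4 + s) fun m hm => by
      have h5 := congrArg Complex.re hm
      have h6 : (3 / 4 : ℂ).re = 3 / 4 := by norm_num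
      simp only [Complex.add_re, h6, Complex.neg_re, Complex.natCast_re] at h5
      have h7 : (0 : ℝ) ≤ m := by positivity
      have := hs.1
      linarith
    exact h.comp s (by fun_prop)
  have h2 : DifferentiableAt ℂ (fun s : ℂ => Complex.Gamma (3 / 4 - s)) s := by
    have h := Complex.differentiableAt_Gamma (3 / 4 - s) fun m hm => by
      have h5 := congrArg Complex.re hm
      have h6 : (3 / 4 : ℂ).re = 3 / 4 := by norm_num
      simp only [Complex.sub_re, h6, Complex.neg_re, Complex.natCast_re] at h5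
      have h7 : (0 : ℝ) ≤ m := by positivity
      have := hs.2
      linarith
    exact h.comp s (by fun_prop)
  unfold H
  fun_prop

lemma norm_gam (σ t : ℝ) : ‖Complex.Gamma (3 / 4 + ((σ : ℂ) + t * Complex.I))‖ = G (3 / 4 + σ) t := by
  unfold G
  congr 2
  push_cast
  ring

lemma norm_gam' (hG : StmtG) {σ : ℝ} (hσ : σ < 3 / 4) (t : ℝ) :
    ‖Complex.Gamma (3 / 4 - ((σ : ℂ) + t * Complex.I))‖ = G (3 / 4 - σ) t := by
  rw [← (hG.1 (3 / 4 - σ) t (by linarith)).2.1]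
  unfold G
  congr 2
  push_cast
  ring

lemma H_norm (hG : StmtG) (X : ℝ) {σ : ℝ} (hσ : σ < 3 / 4) (t : ℝ) :
    ‖H X (σ + t * Complex.I)‖ = 2 * ‖(1 / 16 : ℂ) - ((σ : ℂ) + t * Complex.I) ^ 2‖ *
      (G (3 / 4 + σ) t * G (3 / 4 - σ) t) ^ 4 * Real.exp (X * σ) := by
  unfold H
  rw [norm_mul, norm_mul, norm_mul, norm_pow, norm_mul, norm_gam, norm_gam' hG hσ,
    Complex.norm_exp]
  congr 2
  · congr 1
    norm_num
  · simp

lemma H_bd (hG : StmtG) {X : ℝ} (hX : 0 ≤ X) : ∃ K, 0 < K ∧ ∀ σ ∈ uIcc (0 : ℝ) (-(1 / 2)), ∀ t : ℝ,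
    ‖H X (σ + t * Complex.I)‖ ≤ K * Real.exp (-|t|) := by
  obtain ⟨C, hC, h⟩ := unif hG
  refine ⟨2 * (24 * Real.exp 1) * C ^ 8, by positivity, fun σ hσ t => ?_⟩
  rw [uIcc_of_ge (by norm_num)] at hσ
  obtain ⟨hσ1, hσ2⟩ := hσ
  rw [H_norm hG X (by linarith)]
  have ha := h (3 / 4 + σ) t (by linarith) (by linarith)
  have hb := h (3 / 4 - σ) t (by linarith) (by linarith)
  have ha0 := (hG.1 (3 / 4 + σ) t (by linarith)).1
  have hb0 := (hG.1 (3 / 4 - σ) t (by linarith)).1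
  have h2 : (G (3 / 4 + σ) t * G (3 / 4 - σ) t) ^ 4 ≤ C ^ 8 * Real.exp (-(12 * |t|)) := by
    have e : Real.exp (-(12 * |t|)) = (Real.exp (-(3 / 2 * |t|)) *
        Real.exp (-(3 / 2 * |t|))) ^ 4 := by
      rw [← Real.exp_add, ← Real.exp_nat_mul]
      congr 1
      push_cast
      ring
    rw [e]
    calc (G (3 / 4 + σ) t * G (3 / 4 - σ) t) ^ 4
        ≤ ((C * Real.exp (-(3 / 2 * |t|))) * (C * Real.exp (-(3 / 2 * |t|)))) ^ 4 := by
          gcongr
      _ = _ := by ring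
  have h3 : ‖(1 / 16 : ℂ) - ((σ : ℂ) + t * Complex.I) ^ 2‖ ≤ 1 + t ^ 2 := by
    have h4 : ‖(σ : ℂ) + t * Complex.I‖ ^ 2 = σ ^ 2 + t ^ 2 := by
      rw [← Complex.normSq_eq_norm_sq, Complex.normSq_add_mul_I]
    calc ‖(1 / 16 : ℂ) - ((σ : ℂ) + t * Complex.I) ^ 2‖
        ≤ ‖(1 / 16 : ℂ)‖ + ‖((σ : ℂ) + t * Complex.I) ^ 2‖ := norm_sub_le _ _
      _ = 1 / 16 + (σ ^ 2 + t ^ 2) := by
          rw [norm_pow, h4]
          norm_num
      _ ≤ 1 + t ^ 2 := by nlinarith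
  have h5 : Real.exp (X * σ) ≤ 1 := Real.exp_le_one_iff.mpr (mul_nonpos_of_nonneg_of_nonpos hX hσ2)
  calc 2 * ‖(1 / 16 : ℂ) - ((σ : ℂ) + t * Complex.I) ^ 2‖ *
        (G (3 / 4 + σ) t * G (3 / 4 - σ) t) ^ 4 * Real.exp (X * σ)
      ≤ 2 * (24 * (Real.exp 1 * Real.exp |t|)) * (C ^ 8 * Real.exp (-(12 * |t|))) * 1 := by
        gcongr
        exact h3.trans (poly_le' t)
    _ = 2 * (24 * Real.exp 1) * C ^ 8 * (Real.exp |t| * Real.exp (-(12 * |t|))) := by ring
    _ ≤ 2 * (24 * Real.exp 1) * C ^ 8 * Real.exp (-|t|) := by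
        rw [← Real.exp_add]
        gcongr
        linarith [abs_nonneg t]

/-- the value on the line `s = i t` -/
lemma H_zero (X t : ℝ) : (H X ((0 : ℝ) + t * Complex.I)).re =
    2 * (1 / 16 + t ^ 2) * gw t * Real.cos (X * t) := by
  have hconj : Complex.Gamma (3 / 4 - t * Complex.I) =
      (starRingEnd ℂ) (Complex.Gamma (3 / 4 + t * Complex.I)) := by
    rw [← Complex.Gamma_conj]
    congr 1
    simp only [map_add, map_div₀, map_mul, Complex.conj_ofReal, Complex.conj_I, map_ofNat]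
    ring
  have hg : Complex.Gamma (3 / 4 + t * Complex.I) * Complex.Gamma (3 / 4 - t * Complex.I) =
      ((G (3 / 4) t ^ 2 : ℝ) : ℂ) := by
    rw [hconj, Complex.mul_conj, Complex.normSq_eq_norm_sq]
    unfold G
    congr 3
    push_cast
    ring_nf
  have hI : (t * Complex.I : ℂ) ^ 2 = -((t ^ 2 : ℝ) : ℂ) := by
    rw [mul_pow, Complex.I_sq]
    push_cast
    ring
  have hE : Complex.exp (X * (t * Complex.I)) = ((Real.cos (X * t) : ℝ) : ℂ) +
      ((Real.sin (X * t) : ℝ) : ℂ) * Complex.I := by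
    rw [← mul_assoc, ← Complex.ofReal_mul, Complex.exp_mul_I]
    push_cast
    ring
  have e : H X ((0 : ℝ) + t * Complex.I) = ((2 * (1 / 16 + t ^ 2) * gw t : ℝ) : ℂ) *
      (((Real.cos (X * t) : ℝ) : ℂ) + ((Real.sin (X * t) : ℝ) : ℂ) * Complex.I) := by
    unfold H gw
    rw [Complex.ofReal_zero, zero_add, hg, hI, hE]
    push_cast
    ring
  rw [e, Complex.re_ofReal_mul, Complex.add_re, Complex.ofReal_re, Complex.re_ofReal_mul,
    Complex.I_re, mul_zero, add_zero]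

lemma rho_eq (hG : StmtG) {X : ℝ} (hX : 0 ≤ X) :
    rho X = (∫ t : ℝ, H X ((0 : ℝ) + t * Complex.I)).re := by
  obtain ⟨K, hK, h⟩ := H_bd hG hX
  have hint : Integrable fun t : ℝ => H X ((0 : ℝ) + t * Complex.I) := by
    refine (maj_int K).mono' ?_ (Eventually.of_forall fun t => h 0 left_mem_uIcc t)
    apply Continuous.aestronglyMeasurable
    apply (H_diff X).continuousOn.comp_continuous (by fun_prop)
    intro t
    simp
  have h1 : ∫ t : ℝ, (H X ((0 : ℝ) + t * Complex.I)).re =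
      (∫ t : ℝ, H X ((0 : ℝ) + t * Complex.I)).re := integral_re hint
  unfold rho
  rw [← h1]
  exact integral_congr_ae (Eventually.of_forall fun t => (H_zero X t).symm)

lemma half_norm (hG : StmtG) (X t : ℝ) : ‖H X ((-(1 / 2) : ℝ) + t * Complex.I)‖ ≤
    Real.exp (-(X / 2)) * ((3 / 8 + 10 / 3 * t ^ 2) * r2 t) := by
  rw [H_norm hG X (by norm_num)]
  have e1 : (3 / 4 : ℝ) + -(1 / 2) = 1 / 4 := by norm_num
  have e2 : (3 / 4 : ℝ) - -(1 / 2) = 5 / 4 := by norm_num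
  have e3 : X * -(1 / 2) = -(X / 2) := by ring
  rw [e1, e2, e3]
  have hr : (G (1 / 4) t * G (5 / 4) t) ^ 4 = r2 t := by
    unfold r2
    ring
  have hr0 : 0 ≤ r2 t := by
    have ha0 := (hG.1 (5 / 4) t (by norm_num)).1
    have hb0 := (hG.1 (1 / 4) t (by norm_num)).1
    unfold r2
    positivity
  rw [hr]
  have h1 : ‖(1 / 16 : ℂ) - (((-(1 / 2) : ℝ) : ℂ) + t * Complex.I) ^ 2‖ ≤ 3 / 16 + 5 / 3 * t ^ 2 := by
    have h2 : ‖(1 / 16 : ℂ) - (((-(1 / 2) : ℝ) : ℂ) + t * Complex.I) ^ 2‖ ^ 2 =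
        (t ^ 2 + 1 / 16) * (t ^ 2 + 9 / 16) := by
      have e : (1 / 16 : ℂ) - (((-(1 / 2) : ℝ) : ℂ) + t * Complex.I) ^ 2 =
          ((t ^ 2 - 3 / 16 : ℝ) : ℂ) + ((t : ℝ) : ℂ) * Complex.I := by
        push_cast
        linear_combination (-(t : ℂ) ^ 2) * Complex.I_sq
      rw [e, ← Complex.normSq_eq_norm_sq, Complex.normSq_add_mul_I]
      ring
    apply le_of_sq_le_sq _ (by positivity)
    rw [h2]
    nlinarith [sq_nonneg t, sq_nonneg (t ^ 2)]
  calc 2 * ‖(1 / 16 : ℂ) - (((-(1 / 2) : ℝ) : ℂ) + t * Complex.I) ^ 2‖ * r2 t *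
        Real.exp (-(X / 2))
      ≤ 2 * (3 / 16 + 5 / 3 * t ^ 2) * r2 t * Real.exp (-(X / 2)) := by gcongr
    _ = _ := by ring

lemma poly_r2_int (hG : StmtG) : Integrable (fun t => (3 / 8 + 10 / 3 * t ^ 2) * r2 t) := by
  obtain ⟨C, hC, h⟩ := r2_le hG
  refine ((r2_int hG).const_mul 4).mono' ?_ (Eventually.of_forall fun y => ?_)
  · exact (Continuous.mul (by fun_prop) (r2_cont hG)).aestronglyMeasurable
  · have h0 := (h y).1
    rw [Real.norm_eq_abs, abs_of_nonneg (by positivity)]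
    have : 3 / 8 + 10 / 3 * y ^ 2 ≤ 4 * (1 + y ^ 2) ^ 2 := by nlinarith [sq_nonneg y, sq_nonneg (y ^ 2)]
    calc (3 / 8 + 10 / 3 * y ^ 2) * r2 y ≤ 4 * (1 + y ^ 2) ^ 2 * r2 y := by gcongr
      _ = _ := by ring

lemma pos_case (hG : StmtG) {X : ℝ} (hX : 0 ≤ X) :
    |rho X| ≤ Real.exp (-(X / 2)) * ∫ y : ℝ, (3 / 8 + 10 / 3 * y ^ 2) * r2 y := by
  obtain ⟨K, hK, h⟩ := H_bd hG hX
  have hs := vshift (h := H X) (α := -(3 / 4)) (β := 3 / 4) (σ₁ := 0) (σ₂ := -(1 / 2))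
    (by norm_num) (by norm_num) (by norm_num) (by norm_num) (H_diff X) (maj_int K) (maj_top K)
    (maj_bot K) h
  rw [rho_eq hG hX, hs]
  calc |(∫ t : ℝ, H X ((-(1 / 2) : ℝ) + t * Complex.I)).re|
      ≤ ‖∫ t : ℝ, H X ((-(1 / 2) : ℝ) + t * Complex.I)‖ := Complex.abs_re_le_norm _
    _ ≤ ∫ t : ℝ, Real.exp (-(X / 2)) * ((3 / 8 + 10 / 3 * t ^ 2) * r2 t) :=
        norm_integral_le_of_norm_le ((poly_r2_int hG).const_mul _)
          (Eventually.of_forall fun t => half_norm hG X t)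
    _ = _ := integral_const_mul _ _

end ShiftAux

open ShiftAux

theorem shift (hG : StmtG) : StmtShift := by
  refine ⟨r2_int hG, fun X => ?_⟩
  rcases le_total 0 X with hX | hX
  · rw [abs_of_nonneg hX]
    exact pos_case hG hX
  · have e : rho X = rho (-X) := by
      unfold rho
      congr 1
      ext y
      rw [neg_mul, Real.cos_neg]
    rw [abs_of_nonpos hX, e]
    exact pos_case hG (by linarith)

end Pool.Agent.Lib.MP_dd244f_an.Rq
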