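import Pool.Agent.Lib.MP_dd244f_an.Rq.Stmts

/-!
Rq, module (StarAsm): assembly of the endpoint averaged inequality.
-/

set_option autoImplicit false

namespace Pool.Agent.Lib.MP_dd244f_an.Rq

open MeasureTheory Filter Topology Finset
open Pool.Agent.Lib.MP_dd244f_an.Four
open Pool.Agent.Lib.MP_dd244f_an.Even
open Pool.Agent.Lib.MP_dd244f_an.Rp
open scoped ENNReal NNReal

theorem star_sym {s : XX 1 → XX 1} (hs : MeasurePreserving s) {F H : XX 1 → ℝ}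
    (hF : Integrable F) (h : ∀ X, H X = F (s X)) :
    Integrable H ∧ ∫ X, H X = ∫ X, F X := by
  obtain rfl : H = F ∘ s := funext h
  refine ⟨(hs.integrable_comp hF.1).2 hF, ?_⟩
  have h2 := integral_map (μ := (volume : Measure (XX 1))) hs.measurable.aemeasurable
    (f := F) (by rw [hs.map_eq]; exact hF.1)
  rw [hs.map_eq] at h2
  exact h2.symm

theorem star_wsq {w : ℂ → ℝ} (hw : WN w) :
    Continuous (fun z => w z ^ 2) ∧ HasCompactSupport (fun z => w z ^ 2) ∧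
      ∀ᶠ ζ in 𝓝 (0 : ℂ), w ζ ^ 2 = 0 := by
  obtain ⟨hc, -, r, R, hr, h⟩ := hw
  refine ⟨hc.pow 2, ?_, ?_⟩
  · refine HasCompactSupport.of_support_subset_isCompact
      (isCompact_closedBall (0 : ℂ) R) fun z hz => ?_
    have h0 : w z ≠ 0 := fun h0 => hz (by simp [h0])
    simpa using (h z h0).2
  · have : ∀ᶠ ζ : ℂ in 𝓝 0, ‖ζ‖ < r := by
      have := Metric.ball_mem_nhds (0 : ℂ) hr
      filter_upwards [this] with z hz
      simpa using hz
    filter_upwards [this] with z hz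
    by_contra h0
    have h1 : w z ≠ 0 := fun h1 => h0 (by simp [h1])
    exact absurd (h z h1).1 (not_le.2 hz)

theorem star_lin {f1 f2 f3 f4 g1 g2 b1 b2 b3 b4 : XX 1 → ℝ} (i1 : Integrable f1)
    (i2 : Integrable f2) (i3 : Integrable f3) (i4 : Integrable f4) (j1 : Integrable g1)
    (j2 : Integrable g2) (k1 : Integrable b1) (k2 : Integrable b2) (k3 : Integrable b3)
    (k4 : Integrable b4) :
    Integrable (fun X => ((1 / 2 * f1 X + 1 / 2 * f2 X + 1 / 2 * f3 X + 1 / 2 * f4 X)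
      - (1 / 2 * g1 X + 1 / 2 * g2 X) + (2 * b1 X + 2 * b2 X + 2 * b3 X + 2 * b4 X))) ∧
    ∫ X, ((1 / 2 * f1 X + 1 / 2 * f2 X + 1 / 2 * f3 X + 1 / 2 * f4 X)
      - (1 / 2 * g1 X + 1 / 2 * g2 X) + (2 * b1 X + 2 * b2 X + 2 * b3 X + 2 * b4 X))
    = (1 / 2 * ∫ X, f1 X) + (1 / 2 * ∫ X, f2 X) + (1 / 2 * ∫ X, f3 X) + (1 / 2 * ∫ X, f4 X)
      - ((1 / 2 * ∫ X, g1 X) + (1 / 2 * ∫ X, g2 X))
      + ((2 * ∫ X, b1 X) + (2 * ∫ X, b2 X) + (2 * ∫ X, b3 X) + (2 * ∫ X, b4 X)) := by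
  have a1 := i1.const_mul (1 / 2)
  have a2 := i2.const_mul (1 / 2)
  have a3 := i3.const_mul (1 / 2)
  have a4 := i4.const_mul (1 / 2)
  have c1 := j1.const_mul (1 / 2)
  have c2 := j2.const_mul (1 / 2)
  have d1 := k1.const_mul 2
  have d2 := k2.const_mul 2
  have d3 := k3.const_mul 2
  have d4 := k4.const_mul 2
  have a12 : Integrable fun X => 1 / 2 * f1 X + 1 / 2 * f2 X := a1.add a2
  have a123 : Integrable fun X => 1 / 2 * f1 X + 1 / 2 * f2 X + 1 / 2 * f3 X := a12.add a3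
  have A : Integrable fun X => 1 / 2 * f1 X + 1 / 2 * f2 X + 1 / 2 * f3 X + 1 / 2 * f4 X :=
    a123.add a4
  have C : Integrable fun X => 1 / 2 * g1 X + 1 / 2 * g2 X := c1.add c2
  have d12 : Integrable fun X => 2 * b1 X + 2 * b2 X := d1.add d2
  have d123 : Integrable fun X => 2 * b1 X + 2 * b2 X + 2 * b3 X := d12.add d3
  have D : Integrable fun X => 2 * b1 X + 2 * b2 X + 2 * b3 X + 2 * b4 X := d123.add d4
  have AC : Integrable fun X => (1 / 2 * f1 X + 1 / 2 * f2 X + 1 / 2 * f3 X + 1 / 2 * f4 X)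
      - (1 / 2 * g1 X + 1 / 2 * g2 X) := A.sub C
  refine ⟨AC.add D, ?_⟩
  rw [integral_add AC D, integral_sub A C, integral_add a123 a4,
    integral_add a12 a3, integral_add a1 a2, integral_add c1 c2,
    integral_add d123 d4, integral_add d12 d3, integral_add d1 d2]
  simp only [integral_const_mul]

theorem star (hR : StmtRed) (hA : StmtAlg) (hL : StmtLin) (hS : StmtSym) (h2 : StmtD2)
    (h3 : StmtD3) (hC : StmtComb) (hM : StmtMs) : StmtStar := by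
  intro u α hu
  obtain ⟨hw, hΦ⟩ := hR u α hu
  set w : ℂ → ℝ := wu u with hwdef
  obtain ⟨hΦi, hle⟩ := hΦ _ fun X => rfl
  obtain ⟨hc, hcs, hz⟩ := star_wsq hw
  obtain ⟨-, hLi, hLe⟩ := hL _ hc hcs hz
  obtain ⟨hD2i, -, hD2⟩ := h2 w hw
  obtain ⟨hD3i, -, hD3⟩ := h3 w hw
  have hCw := hC w hw
  obtain ⟨⟨s1, m1, e1⟩, ⟨s2, m2, e2⟩, ⟨s3, m3, e3⟩⟩ := hS
  -- invariance
  have om1 : ∀ X, om (s1 X) = om X := fun X => by
    obtain ⟨a, b, c, d⟩ := e1 X
    simp only [om, a, b, c, d, mul_comm ‖X.1 1‖ ‖X.1 0‖]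
  have x1 : ∀ X, x0 (s1 X) = x0 X := fun X => by
    obtain ⟨a, b, c, d⟩ := e1 X
    simp only [x0, a, b, c, d, mul_comm ‖X.1 1‖ ‖X.1 0‖]
  have om2 : ∀ X, om (s2 X) = om X := fun X => by
    obtain ⟨a, b, c, d⟩ := e2 X
    simp only [om, a, b, c, d, mul_comm ‖xl X‖ ‖X.2 0‖]
  have x2 : ∀ X, x0 (s2 X) = x0 X := fun X => by
    obtain ⟨a, b, c, d⟩ := e2 X
    simp only [x0, a, b, c, d, mul_comm ‖xl X‖ ‖X.2 0‖]
  have om3 : ∀ X, om (s3 X) = om X := fun X => by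
    obtain ⟨a, b, c, d⟩ := e3 X
    simp only [om, a, b, c, d, mul_comm (‖X.2 0‖ * ‖xl X‖) (‖X.1 0‖ * ‖X.1 1‖)]
  have x3 : ∀ X, x0 (s3 X) = -x0 X := fun X => by
    obtain ⟨a, b, c, d⟩ := e3 X
    simp only [x0, a, b, c, d]
    rw [← inv_div, Real.log_inv]
    ring
  -- the linear part
  set A : ℝ := ∫ ζ, w ζ ^ 2 / ‖ζ‖ ^ 2 with hAdef
  have L1 := hLi
  have L2 := star_sym m1 (H := fun X => om X * al (x0 X) * w (X.1 1) ^ 2) hLi fun X => by
    simp only [om1, x1, (e1 X).1]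
  have L3 := star_sym m3 (H := fun X => om X * al (-x0 X) * w (X.2 0) ^ 2) hLi fun X => by
    simp only [om3, x3, (e3 X).1]
  have L4 := star_sym m3 (H := fun X => om X * al (-x0 X) * w (xl X) ^ 2) L2.1 fun X => by
    simp only [om3, x3, (e3 X).2.1]
  -- the good form
  have G1 := hD2i
  have G2 := star_sym m3 (H := fun X => om X * al (-x0 X) * (w (X.2 0) - w (xl X)) ^ 2) hD2i
    fun X => by simp only [om3, x3, (e3 X).1, (e3 X).2.1]
  -- the bad form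
  have B1 := hD3i
  have B2 := star_sym m2 (H := fun X => om X * Me (x0 X) * (w (X.1 0) - w (xl X)) ^ 2) hD3i
    fun X => by simp only [om2, x2, (e2 X).1, (e2 X).2.2.1]
  have B3 := star_sym m1 (H := fun X => om X * Me (x0 X) * (w (X.1 1) - w (X.2 0)) ^ 2) hD3i
    fun X => by simp only [om1, x1, (e1 X).1, (e1 X).2.2.1]
  have B4 := star_sym m1 (H := fun X => om X * Me (x0 X) * (w (X.1 1) - w (xl X)) ^ 2) B2.1
    fun X => by simp only [om1, x1, (e1 X).1, (e1 X).2.2.2]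
  set K : ℝ := ∫ l : ℂ, Kl l * Dw w l / ‖l‖ ^ 2 with hK
  set M : ℝ := ∫ l : ℂ, k1 l * Bm (Real.log ‖l‖) * Dw w l / ‖l‖ ^ 2 with hMd
  refine hle.trans (ENNReal.ofReal_le_ofReal ?_)
  have eA : ∫ ξ, u ξ / ‖ξ‖ ^ 4 = A := by
    refine integral_congr_ae (Eventually.of_forall fun ξ => ?_)
    simp only [hwdef, wu]
    rw [div_pow, Real.sq_sqrt (hu.2.1 ξ), div_div]
    ring_nf
  rw [eA]
  obtain ⟨hint, hval⟩ := star_lin L1 L2.1 L3.1 L4.1 G1 G2.1 B1 B2.1 B3.1 B4.1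
  refine (integral_mono hΦi hint fun X => ?_).trans (hval.le.trans ?_)
  · have hom : 0 ≤ om X := by unfold om; positivity
    have hMe : 0 ≤ Me (x0 X) := hM.1 _
    have key := hA (w (X.1 0)) (w (X.1 1)) (w (X.2 0)) (w (xl X)) (hw.2.1 _) (hw.2.1 _)
      (hw.2.1 _) (hw.2.1 _)
    have := mul_le_mul_of_nonneg_left key (mul_nonneg hom hMe)
    simp only
    nlinarith [this]
  · rw [L2.2, L3.2, L4.2, L2.2, hLe, G2.2, hD2, B2.2, B3.2, B4.2, B2.2, hD3]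
    linarith

end Pool.Agent.Lib.MP_dd244f_an.Rq
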