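import Pool.Agent.Lib.MP_dd244f_an.Rq.Stmts

/-!
Symmetries of the quadruples (module Sym of the project Rq).
-/

set_option autoImplicit false

namespace Pool.Agent.Lib.MP_dd244f_an.Rq

open MeasureTheory
open Pool.Agent.Lib.MP_dd244f_an.Rp

namespace SymAux

/-- coordinates -/
noncomputable def eq1 : XX 1 ≃ᵐ (ℂ × ℂ) × ℂ :=
  MeasurableEquiv.prodCongr (MeasurableEquiv.finTwoArrow) (MeasurableEquiv.funUnique (Fin 1) ℂ)

lemma eq1_mp : MeasurePreserving eq1 := by
  exact (volume_preserving_finTwoArrow ℂ).prod (volume_preserving_funUnique (Fin 1) ℂ)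

lemma eq1_apply (X : XX 1) : eq1 X = ((X.1 0, X.1 1), X.2 0) := rfl

lemma eq1_symm (a b c : ℂ) : eq1.symm ((a, b), c) = ((![a, b], ![c]) : XX 1) := by
  rw [MeasurableEquiv.symm_apply_eq]
  rfl

/-- exchange of the first two coordinates -/
lemma sw12 : MeasurePreserving (fun p : (ℂ × ℂ) × ℂ => ((p.1.2, p.1.1), p.2)) :=
  (Measure.measurePreserving_swap (μ := (volume : Measure ℂ)) (ν := (volume : Measure ℂ))).prod
    (MeasurePreserving.id (volume : Measure ℂ))

lemma sw23 : MeasurePreserving (fun p : (ℂ × ℂ) × ℂ => ((p.1.1, p.2), p.1.2)) := by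
  have h1 : MeasurePreserving (MeasurableEquiv.prodAssoc : (ℂ × ℂ) × ℂ ≃ᵐ ℂ × (ℂ × ℂ)) :=
    volume_preserving_prodAssoc
  have h2 : MeasurePreserving (fun p : ℂ × (ℂ × ℂ) => (p.1, (p.2.2, p.2.1))) :=
    (MeasurePreserving.id (volume : Measure ℂ)).prod
      (Measure.measurePreserving_swap (μ := (volume : Measure ℂ)) (ν := (volume : Measure ℂ)))
  exact (h1.symm.comp h2).comp h1

lemma sh1 : MeasurePreserving (fun p : (ℂ × ℂ) × ℂ => (p.1, p.1.1 + p.1.2 - p.2)) := by
  refine MeasurePreserving.skew_product (μa := (volume : Measure (ℂ × ℂ)))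
    (μb := (volume : Measure (ℂ × ℂ))) (μc := (volume : Measure ℂ)) (μd := (volume : Measure ℂ))
    (f := id) (g := fun q z => q.1 + q.2 - z) (MeasurePreserving.id _) ?_ ?_
  · fun_prop
  · refine Filter.Eventually.of_forall fun q => ?_
    exact (Measure.measurePreserving_sub_left (volume : Measure ℂ) (q.1 + q.2)).map_eq

lemma sh2 : MeasurePreserving (fun p : (ℂ × ℂ) × ℂ => (p.1, p.2 + (p.1.2 - p.1.1))) := by
  refine MeasurePreserving.skew_product (μa := (volume : Measure (ℂ × ℂ)))
    (μb := (volume : Measure (ℂ × ℂ))) (μc := (volume : Measure ℂ)) (μd := (volume : Measure ℂ))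
    (f := id) (g := fun q z => z + (q.2 - q.1)) (MeasurePreserving.id _) ?_ ?_
  · fun_prop
  · refine Filter.Eventually.of_forall fun q => ?_
    exact (measurePreserving_add_right (volume : Measure ℂ) (q.2 - q.1)).map_eq

end SymAux

open SymAux in
/-- **(Sym)** the symmetries of the quadruples preserve the measure. -/
theorem sym : StmtSym := by
  refine ⟨⟨_, (eq1_mp.symm.comp sw12).comp eq1_mp, fun X => ?_⟩,
    ⟨_, (eq1_mp.symm.comp sh1).comp eq1_mp, fun X => ?_⟩,
    ⟨_, (eq1_mp.symm.comp ((sw23.comp (sh2.comp sw23)).comp ((sw12.comp sw23).comp sw12))).comp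
      eq1_mp, fun X => ?_⟩⟩
  · simp only [Function.comp, eq1_apply, eq1_symm, xl, Fin.sum_univ_one]
    refine ⟨by simp, by simp, by simp, ?_⟩
    simp
    ring
  · simp only [Function.comp, eq1_apply, eq1_symm, xl, Fin.sum_univ_one]
    refine ⟨by simp, by simp, by simp, ?_⟩
    simp
  · simp only [Function.comp, eq1_apply, eq1_symm, xl, Fin.sum_univ_one]
    refine ⟨by simp, ?_, by simp, ?_⟩
    · simp
      ring
    · simp
      ring

end Pool.Agent.Lib.MP_dd244f_an.Rq
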