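import Pool.Agent.Lib.MP_dd244f_an.Rq.Stmts

/-!
The pointwise inequality (T).
-/

set_option autoImplicit false

namespace Pool.Agent.Lib.MP_dd244f_an.Rq

open MeasureTheory Filter Topology Finset

/-! ### The minorant of `rho` -/

theorem T_exp : 93 / 5 ≤ Real.exp (57 / 10) / 16 := by
  have h1 : (2.7182818283 : ℝ) < Real.exp 1 := Real.exp_one_gt_d9
  have h5 : Real.exp 5 = Real.exp 1 ^ 5 := by
    rw [← Real.exp_nat_mul]; norm_num
  have h2 : (1484 / 10 : ℝ) ≤ Real.exp 5 := by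
    rw [h5]
    calc (1484 / 10 : ℝ) ≤ (2.7182818283 : ℝ) ^ 5 := by norm_num
      _ ≤ Real.exp 1 ^ 5 := pow_le_pow_left₀ (by norm_num) h1.le 5
  have h3 : (2012 / 1000 : ℝ) ≤ Real.exp (7 / 10) := by
    have := Real.sum_le_exp_of_nonneg (x := 7 / 10) (by norm_num) 5
    refine le_trans ?_ this
    simp only [Finset.sum_range_succ, Finset.sum_range_zero, Nat.factorial]
    norm_num
  have h4 : Real.exp (57 / 10) = Real.exp 5 * Real.exp (7 / 10) := by
    rw [← Real.exp_add]; norm_num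
  rw [h4]
  have h6 : (1484 / 10 : ℝ) * (2012 / 1000) ≤ Real.exp 5 * Real.exp (7 / 10) :=
    mul_le_mul h2 h3 (by norm_num) (Real.exp_pos _).le
  linarith

theorem T_sg_nonneg (s : ℝ) : 0 ≤ sg s := by
  unfold sg
  split_ifs
  · exact le_rfl
  · norm_num
  · positivity

theorem T_sg_meas : Measurable sg := by
  unfold sg
  have h1 : Measurable (fun s : ℝ => |s|) := measurable_norm
  refine Measurable.ite (measurableSet_lt h1 measurable_const) measurable_const ?_
  refine Measurable.ite (measurableSet_le h1 measurable_const) measurable_const ?_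
  exact (Real.measurable_exp.comp (((h1.sub_const _).div_const _).neg)).div_const _

theorem T_sg_le (s : ℝ) : sg s ≤ 1 / 16 := by
  unfold sg
  split_ifs with h1 h2
  · norm_num
  · exact le_rfl
  · push Not at h2
    have : Real.exp (-((|s| - 57 / 5) / 2)) ≤ 1 := by
      rw [Real.exp_le_one_iff]; linarith
    linarith

theorem T_rho_ge (hW : StmtWh) (hR : StmtRho) (s : ℝ) : -sg s ≤ rho s := by
  obtain ⟨h1, h2, h3⟩ := hR
  have heven : rho s = rho |s| := by
    rcases abs_choice s with h | h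
    · rw [h]
    · rw [h, (hW.2.2.2.1 s).2.2]
  have h0 : 0 ≤ |s| := abs_nonneg s
  unfold sg
  split_ifs with g1 g2
  · rw [heven, neg_zero]; exact h2 _ h0 g1.le
  · rw [heven]; exact h3 _ (not_lt.1 g1) g2
  · have h4 := h1 s
    have h5 := (abs_le.1 h4).1
    refine le_trans ?_ h5
    have e : Real.exp (-((|s| - 57 / 5) / 2)) = Real.exp (57 / 10) * Real.exp (-(|s| / 2)) := by
      rw [← Real.exp_add]; congr 1; ring
    rw [e]
    have h6 := T_exp
    have h7 := Real.exp_pos (-(|s| / 2))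
    nlinarith

/-! ### The variation of constants formula -/

theorem T_formula (hW : StmtWh) (X₀ δ : ℝ) :
    al X₀ * Real.exp (δ / 4) + al (-X₀) * Real.exp (-(δ / 4)) - wh (X₀ + δ)
      = 2 * ∫ s in (0)..δ, Real.sinh ((δ - s) / 4) * rho (X₀ + s) := by
  obtain ⟨-, hw1, hw2, hev, -, -, hcr, -, -⟩ := hW
  set F : ℝ → ℝ := fun s => 4 * Real.sinh ((δ - s) / 4) * wh1 (X₀ + s)
    + Real.cosh ((δ - s) / 4) * wh (X₀ + s) with hF
  have hder : ∀ s : ℝ, HasDerivAt F (-2 * (Real.sinh ((δ - s) / 4) * rho (X₀ + s))) s := by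
    intro s
    have a1 : HasDerivAt (fun s : ℝ => (δ - s) / 4) (-1 / 4) s := by
      have := ((hasDerivAt_id s).const_sub δ).div_const 4
      simpa using this
    have a2 : HasDerivAt (fun s : ℝ => X₀ + s) 1 s := by
      simpa using (hasDerivAt_id s).const_add X₀
    have b1 : HasDerivAt (fun s : ℝ => Real.sinh ((δ - s) / 4))
        (Real.cosh ((δ - s) / 4) * (-1 / 4)) s :=
      (Real.hasDerivAt_sinh _).comp s a1
    have b2 : HasDerivAt (fun s : ℝ => Real.cosh ((δ - s) / 4))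
        (Real.sinh ((δ - s) / 4) * (-1 / 4)) s :=
      (Real.hasDerivAt_cosh _).comp s a1
    have c1 : HasDerivAt (fun s : ℝ => wh (X₀ + s)) (wh1 (X₀ + s) * 1) s :=
      (hw1 _).comp s a2
    have c2 : HasDerivAt (fun s : ℝ => wh1 (X₀ + s))
        ((wh (X₀ + s) / 16 - rho (X₀ + s) / 2) * 1) s :=
      (hw2 _).comp s a2
    have d1 := ((b1.const_mul 4).mul c2).add (b2.mul c1)
    refine (d1.congr_deriv ?_)
    ring
  have hcont : Continuous (fun s : ℝ => -2 * (Real.sinh ((δ - s) / 4) * rho (X₀ + s))) := by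
    have e1 : Continuous (fun s : ℝ => Real.sinh ((δ - s) / 4)) :=
      Real.continuous_sinh.comp ((continuous_const.sub continuous_id).div_const 4)
    have e2 : Continuous (fun s : ℝ => rho (X₀ + s)) :=
      hcr.comp (continuous_const.add continuous_id)
    exact continuous_const.mul (e1.mul e2)
  have hint := intervalIntegral.integral_eq_sub_of_hasDerivAt (a := 0) (b := δ)
    (fun s _ => hder s) (hcont.intervalIntegrable _ _)
  rw [intervalIntegral.integral_const_mul] at hint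
  have hFd : F δ = wh (X₀ + δ) := by
    simp [hF]
  have hF0 : F 0 = 4 * Real.sinh (δ / 4) * wh1 X₀ + Real.cosh (δ / 4) * wh X₀ := by
    simp [hF]
  have hal : al X₀ * Real.exp (δ / 4) + al (-X₀) * Real.exp (-(δ / 4))
      = 4 * Real.sinh (δ / 4) * wh1 X₀ + Real.cosh (δ / 4) * wh X₀ := by
    unfold al
    rw [(hev X₀).1, (hev X₀).2.1, Real.sinh_eq, Real.cosh_eq]
    ring
  rw [hal, ← hF0, ← hFd]
  linarith

/-! ### Comparison of the integrals -/

theorem T_int (hW : StmtWh) (hR : StmtRho) (X₀ δ : ℝ) :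
    -∫ s in (0)..δ, Real.sinh ((δ - s) / 4) * sg (X₀ + s)
      ≤ ∫ s in (0)..δ, Real.sinh ((δ - s) / 4) * rho (X₀ + s) := by
  have hcr : Continuous rho := hW.2.2.2.2.2.2.1
  have e1 : Continuous (fun s : ℝ => Real.sinh ((δ - s) / 4)) :=
    Real.continuous_sinh.comp ((continuous_const.sub continuous_id).div_const 4)
  have e2 : Continuous (fun s : ℝ => rho (X₀ + s)) :=
    hcr.comp (continuous_const.add continuous_id)
  have i1 : ∀ a b : ℝ, IntervalIntegrable (fun s => Real.sinh ((δ - s) / 4) * rho (X₀ + s))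
      volume a b := fun a b => (e1.mul e2).intervalIntegrable _ _
  have i0 : ∀ a b : ℝ, IntervalIntegrable (fun s => sg (X₀ + s)) volume a b := by
    intro a b
    have hm : AEStronglyMeasurable (fun s => sg (X₀ + s)) (volume.restrict (Set.uIoc a b)) :=
      (T_sg_meas.comp (measurable_const.add measurable_id)).aestronglyMeasurable
    refine (intervalIntegrable_const (c := (1 / 16 : ℝ))).mono_fun hm ?_
    filter_upwards with s
    rw [Real.norm_of_nonneg (T_sg_nonneg _), Real.norm_of_nonneg (by norm_num)]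
    exact T_sg_le _
  have i2 : ∀ a b : ℝ, IntervalIntegrable (fun s => Real.sinh ((δ - s) / 4) * sg (X₀ + s))
      volume a b := fun a b => (i0 a b).continuousOn_mul e1.continuousOn
  rw [← intervalIntegral.integral_neg]
  rcases le_total 0 δ with hδ | hδ
  · apply intervalIntegral.integral_mono_on hδ (i2 0 δ).neg (i1 0 δ)
    intro s hs
    have h1 : 0 ≤ Real.sinh ((δ - s) / 4) := Real.sinh_nonneg_iff.2 (by linarith [hs.2])
    have h2 := T_rho_ge hW hR (X₀ + s)
    simp only [Pi.neg_apply]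
    nlinarith
  · rw [intervalIntegral.integral_symm δ 0, intervalIntegral.integral_symm δ 0, neg_le_neg_iff]
    apply intervalIntegral.integral_mono_on hδ (i1 δ 0) (i2 δ 0).neg
    intro s hs
    have h1 : Real.sinh ((δ - s) / 4) ≤ 0 := Real.sinh_nonpos_iff.2 (by linarith [hs.1])
    have h2 := T_rho_ge hW hR (X₀ + s)
    simp only [Pi.neg_apply]
    nlinarith

theorem T_main (hW : StmtWh) (hR : StmtRho) (hM : StmtMs) (X₀ P Q : ℝ) (hP : 0 < P)
    (hQ : 0 < Q) :
    P * Q * wh (X₀ + 4 * Real.log (P / Q))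
      ≤ al X₀ * P ^ 2 + al (-X₀) * Q ^ 2 + 4 * Me X₀ * (P - Q) ^ 2 := by
  set δ : ℝ := 4 * Real.log (P / Q) with hδ
  have h1 := T_formula hW X₀ δ
  have h2 := T_int hW hR X₀ δ
  have h3 := hM.2.2.2.2.2 X₀ δ
  have hPQ : 0 < P / Q := div_pos hP hQ
  have e1 : Real.exp (δ / 4) = P / Q := by
    rw [hδ, mul_div_cancel_left₀ _ (by norm_num : (4 : ℝ) ≠ 0), Real.exp_log hPQ]
  have e2 : Real.exp (-(δ / 4)) = Q / P := by
    rw [Real.exp_neg, e1, inv_div]
  have e3 : Real.cosh (δ / 4) = (P / Q + Q / P) / 2 := by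
    rw [Real.cosh_eq, e1, e2]
  rw [e1, e2] at h1
  rw [e3] at h3
  have h4 : -(8 * Me X₀ * ((P / Q + Q / P) / 2 - 1))
      ≤ al X₀ * (P / Q) + al (-X₀) * (Q / P) - wh (X₀ + δ) := by
    rw [h1]; linarith
  have h5 := mul_le_mul_of_nonneg_left h4 (mul_pos hP hQ).le
  have f1 : P * Q * (P / Q) = P ^ 2 := by field_simp
  have f2 : P * Q * (Q / P) = Q ^ 2 := by field_simp
  have l1 : P * Q * -(8 * Me X₀ * ((P / Q + Q / P) / 2 - 1))
      = -(4 * Me X₀ * (P * Q * (P / Q) + P * Q * (Q / P) - 2 * (P * Q))) := by ring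
  have l2 : P * Q * (al X₀ * (P / Q) + al (-X₀) * (Q / P) - wh (X₀ + δ))
      = al X₀ * (P * Q * (P / Q)) + al (-X₀) * (P * Q * (Q / P)) - P * Q * wh (X₀ + δ) := by ring
  rw [l1, l2, f1, f2] at h5
  nlinarith [h5]

theorem tineq (hW : StmtWh) (hR : StmtRho) (hM : StmtMs) : StmtT := by
  refine ⟨fun X₀ => ?_, fun X₀ P Q hP hQ => T_main hW hR hM X₀ P Q hP hQ⟩
  have hwh : ∀ X, 0 ≤ wh X := hW.2.2.2.2.2.2.2.1
  have h1 : ∀ Q : ℝ, 0 < Q → 0 ≤ al X₀ * 1 ^ 2 + al (-X₀) * Q ^ 2 + 4 * Me X₀ * (1 - Q) ^ 2 := by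
    intro Q hQ
    refine le_trans ?_ (T_main hW hR hM X₀ 1 Q one_pos hQ)
    exact mul_nonneg (by positivity) (hwh _)
  have hc : Continuous (fun Q : ℝ => al X₀ * 1 ^ 2 + al (-X₀) * Q ^ 2
      + 4 * Me X₀ * (1 - Q) ^ 2) := by fun_prop
  have h2 : Tendsto (fun Q : ℝ => al X₀ * 1 ^ 2 + al (-X₀) * Q ^ 2
      + 4 * Me X₀ * (1 - Q) ^ 2) (𝓝[>] 0) (𝓝 (al X₀ * 1 ^ 2 + al (-X₀) * 0 ^ 2
      + 4 * Me X₀ * (1 - 0) ^ 2)) := (hc.tendsto 0).mono_left nhdsWithin_le_nhds
  have h3 := ge_of_tendsto h2 (by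
    filter_upwards [self_mem_nhdsWithin] with Q hQ
    exact h1 Q hQ)
  simpa using h3

end Pool.Agent.Lib.MP_dd244f_an.Rq
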