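import Pool.Agent.Lib.MP_dd244f_an.Rq.Stmts
import Pool.Agent.Lib.MP_dd244f_an.L2

/-! Full operator, all real exponents `p ≥ 2` at once: the mesh argument (module UnifA2). -/

set_option autoImplicit false

namespace Pool.Agent.Lib.MP_dd244f_an.Rq

open MeasureTheory
open Pool.Agent.Lib.MP_dd244f_an.Joint (ratio)
open Pool.Agent.Lib.MP_dd244f_an.Rp (StmtFinalp StmtRatC HLPr)
open Pool.Agent.Lib.MP_dd244f_an.Unif (Bf nr SC StmtRTS StmtFormAn StmtHol StmtConc)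
open scoped SchwartzMap ENNReal NNReal

namespace UnifA2Aux

theorem ratio_pos (n : ℕ) (p : ℝ) (hp : 1 < p) : 0 < ratio n p := by
  unfold ratio
  have h1 : 0 < 1 - 1 / p := by
    rw [sub_pos, div_lt_one (by linarith)]; exact hp
  exact div_pos (ascPochhammer_pos n _ h1) (ascPochhammer_pos n _ (by positivity))

theorem ratio_two (n : ℕ) : ratio n 2 = 1 := by
  have h := ratio_pos n 2 (by norm_num)
  unfold ratio at h ⊢
  have e : (1 : ℝ) - 1 / 2 = 1 / 2 := by norm_num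
  rw [e] at h ⊢
  have h2 := (ascPochhammer_pos n (1 / 2 : ℝ) (by norm_num)).ne'
  exact div_self h2

/-- a bound for `T ^ n` at the exponent `p` -/
def Bd (n : ℕ) (p M : ℝ) : Prop := ∀ f : 𝓢(ℂ, ℂ),
  eLpNorm (Tn n f) (ENNReal.ofReal p) volume ≤
    ENNReal.ofReal M * eLpNorm f (ENNReal.ofReal p) volume

theorem conj {r : ℝ} (hr : 2 ≤ r) : 1 / r + 1 / (r / (r - 1)) = 1 := by
  have : r - 1 ≠ 0 := by
    have : 0 < r - 1 := by linarith
    exact this.ne'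
  have h0 : r ≠ 0 := by positivity
  field_simp
  ring

theorem interp (hRT : StmtRTS) (hAn : StmtFormAn) (hH : StmtHol) (hC : StmtConc) (n : ℕ)
    (p₀ p₁ p M₀ M₁ τ : ℝ) (h0 : 2 ≤ p₀) (h01 : p₀ ≤ p₁) (hM0 : 0 < M₀) (hM1 : 0 < M₁)
    (hτ0 : 0 ≤ τ) (hτ1 : τ ≤ 1) (hp : 2 ≤ p) (hpp : 1 / p = (1 - τ) / p₀ + τ / p₁)
    (b0 : Bd n p₀ M₀) (b1 : Bd n p₁ M₁) : Bd n p (M₀ ^ (1 - τ) * M₁ ^ τ) := by
  have h1 : 2 ≤ p₁ := h0.trans h01
  have c0 := hH n p₀ (p₀ / (p₀ - 1)) M₀ h0 (conj h0) hM0.le b0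
  have c1 := hH n p₁ (p₁ / (p₁ - 1)) M₁ h1 (conj h1) hM1.le b1
  have c2 := hRT (Bf n) p₀ p₁ p (p₀ / (p₀ - 1)) (p₁ / (p₁ - 1)) (p / (p - 1)) M₀ M₁ τ h0 h01
    hM0 hM1 hτ0 hτ1 (conj h0) (conj h1) (conj hp) hpp (hAn n) c0 c1
  exact hC n p (p / (p - 1)) (M₀ ^ (1 - τ) * M₁ ^ τ) hp (conj hp) (by positivity) c2

theorem Bd.mono {n : ℕ} {p M M' : ℝ} (h : Bd n p M) (hM : M ≤ M') : Bd n p M' := fun f =>
  (h f).trans (mul_le_mul_left (ENNReal.ofReal_le_ofReal hM) _)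

theorem node (hF : StmtFinalp) (hH : StmtHLPall2) (e : ℝ) (he : 0 < e) (p : ℝ) (hp : 2 ≤ p) :
    ∃ m : ℕ, ∀ n ≥ m, Bd n p ((1 + e) * ratio n p) := by
  rcases hp.eq_or_lt with h | h
  · refine ⟨0, fun n _ f => ?_⟩
    subst h
    have h4 := Tn_L2 n f
    have e2 : ENNReal.ofReal 2 = 2 := by norm_num
    rw [e2, ratio_two, mul_one]
    refine h4.trans ?_
    have h5 : (1 : ℝ≥0∞) ≤ ENNReal.ofReal (1 + e) := by
      rw [← ENNReal.ofReal_one]
      exact ENNReal.ofReal_le_ofReal (by linarith)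
    calc eLpNorm f 2 volume = 1 * eLpNorm f 2 volume := (one_mul _).symm
      _ ≤ _ := mul_le_mul_left h5 _
  · obtain ⟨m, hm⟩ := hF p 1 e h one_pos (hH p hp) he
    refine ⟨m, fun n hn f => ?_⟩
    have h3 := hm n hn f
    rwa [Real.one_rpow, mul_one] at h3

end UnifA2Aux

open UnifA2Aux in
theorem unifA2 (hF : StmtFinalp) (hH : StmtHLPall2) (hRT : StmtRTS) (hAn : StmtFormAn)
    (hHo : StmtHol) (hC : StmtConc) (hRC : StmtRatC) (hJ : Joint.StmtFinal1) : StmtUnifA2 := by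
  intro ε hε
  set e : ℝ := min ε 1 / 4 with he
  have hmin : 0 < min ε 1 := lt_min hε one_pos
  have he0 : 0 < e := by positivity
  have he1 : e ≤ 1 / 4 := by
    rw [he]; have := min_le_right ε 1; linarith
  have heε : 4 * e ≤ ε := by
    rw [he]; have := min_le_left ε 1; linarith
  have hsq : (1 + e) * (1 + e) ≤ 1 + ε := by nlinarith
  obtain ⟨n₁, p₁, hn₁⟩ := hJ e he0
  set P : ℝ := max p₁ 3 with hP
  have hP3 : 3 ≤ P := le_max_right _ _
  obtain ⟨δ', hδ', hrc⟩ := hRC e (P + 1) he0 (by linarith)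
  set δ : ℝ := min δ' 1 with hδd
  have hδ : 0 < δ := lt_min hδ' one_pos
  have hδ1 : δ ≤ 1 := min_le_right _ _
  have hδδ : δ ≤ δ' := min_le_left _ _
  have key : ∀ i : ℕ, ∃ m : ℕ, ∀ n ≥ m, Bd n (2 + i * δ) ((1 + e) * ratio n (2 + i * δ)) :=
    fun i => node hF hH e he0 _ (by have : 0 ≤ (i : ℝ) * δ := by positivity
                                    linarith)
  choose m hm using key
  set N : ℕ := ⌊(P - 2) / δ⌋₊ with hN
  refine ⟨max n₁ ((Finset.range (N + 2)).sup m), fun n hn p hp => ?_⟩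
  have hn1 : n₁ ≤ n := (le_max_left _ _).trans hn
  have hn2 : ∀ i < N + 2, m i ≤ n := fun i hi =>
    (Finset.le_sup (f := m) (Finset.mem_range.2 hi)).trans ((le_max_right _ _).trans hn)
  change Bd n p ((1 + ε) * ratio n p)
  have hr := ratio_pos n p (by linarith)
  rcases le_or_gt p₁ p with h1 | h1
  · refine Bd.mono (hn₁ n hn1 p h1) ?_
    exact mul_le_mul_of_nonneg_right (by linarith) hr.le
  · have hpP : p < P := h1.trans_le (le_max_left _ _)
    set i : ℕ := ⌊(p - 2) / δ⌋₊ with hi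
    have hi0 : 0 ≤ (p - 2) / δ := div_nonneg (by linarith) hδ.le
    have hi1 : (i : ℝ) ≤ (p - 2) / δ := Nat.floor_le hi0
    have hi2 : (p - 2) / δ < i + 1 := Nat.lt_floor_add_one _
    have hi1' : (i : ℝ) * δ ≤ p - 2 := by rwa [le_div_iff₀ hδ] at hi1
    have hi2' : p - 2 < ((i : ℝ) + 1) * δ := by rwa [div_lt_iff₀ hδ] at hi2
    have hiN : i ≤ N := Nat.floor_le_floor (div_le_div_of_nonneg_right (by linarith) hδ.le)
    have b0 := hm i n (hn2 i (by omega))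
    have b1 := hm (i + 1) n (hn2 (i + 1) (by omega))
    push_cast at b1
    set q₀ : ℝ := 2 + i * δ with hq0
    set q₁ : ℝ := 2 + (i + 1) * δ with hq1
    have hiδ : 0 ≤ (i : ℝ) * δ := by positivity
    have g0 : 2 ≤ q₀ := by linarith
    have g01 : q₁ - q₀ = δ := by rw [hq0, hq1]; ring
    have g1 : q₀ ≤ q₁ := by linarith
    have g2 : q₀ ≤ p := by linarith
    have g3 : p ≤ q₁ := by linarith
    have g4 : q₁ ≤ P + 1 := by linarith
    have hp0 : 0 < p := by linarith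
    have hq0p : 0 < q₀ := by linarith
    have hq1p : 0 < q₁ := by linarith
    have g5 : q₀ < q₁ := by linarith
    have k1 : 1 / q₁ < 1 / q₀ := one_div_lt_one_div_of_lt hq0p g5
    have k2 : 1 / p ≤ 1 / q₀ := one_div_le_one_div_of_le hq0p g2
    have k3 : 1 / q₁ ≤ 1 / p := one_div_le_one_div_of_le hp0 g3
    set τ : ℝ := (1 / q₀ - 1 / p) / (1 / q₀ - 1 / q₁) with hτ
    have hd : 0 < 1 / q₀ - 1 / q₁ := by linarith
    have hτ0 : 0 ≤ τ := div_nonneg (by linarith) hd.le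
    have hτ1 : τ ≤ 1 := by rw [hτ, div_le_one hd]; linarith
    have hτ2 : τ * (1 / q₀ - 1 / q₁) = 1 / q₀ - 1 / p := by
      rw [hτ, div_mul_cancel₀ _ hd.ne']
    have hpp : 1 / p = (1 - τ) / q₀ + τ / q₁ := by
      have e1 : (1 - τ) / q₀ = (1 - τ) * (1 / q₀) := by ring
      have e2 : τ / q₁ = τ * (1 / q₁) := by ring
      rw [e1, e2]
      linarith
    have r0 := ratio_pos n q₀ (by linarith)
    have r1 := ratio_pos n q₁ (by linarith)
    have c := interp hRT hAn hHo hC n q₀ q₁ p _ _ τ g0 g1 (by positivity) (by positivity)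
      hτ0 hτ1 hp hpp b0 b1
    refine Bd.mono c ?_
    have h5 := hrc n q₀ q₁ p τ g0 g1 g4 (by linarith) hτ0 hτ1 hpp
    have e0 : (0 : ℝ) < 1 + e := by linarith
    rw [Real.mul_rpow e0.le r0.le, Real.mul_rpow e0.le r1.le]
    calc (1 + e) ^ (1 - τ) * ratio n q₀ ^ (1 - τ) * ((1 + e) ^ τ * ratio n q₁ ^ τ)
        = ((1 + e) ^ (1 - τ) * (1 + e) ^ τ) * (ratio n q₀ ^ (1 - τ) * ratio n q₁ ^ τ) := by ring
      _ = (1 + e) * (ratio n q₀ ^ (1 - τ) * ratio n q₁ ^ τ) := by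
          rw [← Real.rpow_add e0]
          have : 1 - τ + τ = 1 := by ring
          rw [this, Real.rpow_one]
      _ ≤ (1 + e) * ((1 + e) * ratio n p) := mul_le_mul_of_nonneg_left h5 e0.le
      _ = ((1 + e) * (1 + e)) * ratio n p := by ring
      _ ≤ (1 + ε) * ratio n p := mul_le_mul_of_nonneg_right hsq hr.le

end Pool.Agent.Lib.MP_dd244f_an.Rq
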