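import Pool.Agent.Lib.MP_dd244f_an.Rq.Stmts
import Pool.Agent.Lib.MP_dd244f_an.Rp.Poi

/-!
(VV): the function `vv` is a convolution of log-concave densities; positivity, monotonicity and
log-concavity.
-/

set_option autoImplicit false

namespace Pool.Agent.Lib.MP_dd244f_an.Rq

open MeasureTheory Filter Topology

namespace VVAux

/-! ### Convolutions of nice functions -/

/-- continuous, positive, integrable, bounded and log-concave -/
structure Ni (u : ℝ → ℝ) : Prop where
  cont : Continuous u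
  pos : ∀ x, 0 < u x
  int : Integrable u
  bdd : ∃ C, ∀ x, u x ≤ C
  lc : ∀ a b c d, a ≤ c → c ≤ b → c + d = a + b → u a * u b ≤ u c * u d

/-- convolution -/
noncomputable def cv (u v : ℝ → ℝ) (x : ℝ) : ℝ := ∫ t, v t * u (x - t)

lemma slice {u v : ℝ → ℝ} (hu : Ni u) (hv : Ni v) (x : ℝ) :
    Integrable (fun t => v t * u (x - t)) := by
  obtain ⟨C, hC⟩ := hu.bdd
  refine (hv.int.mul_const C).mono' ?_ ?_
  · have h1 := hu.cont
    have h2 := hv.cont
    exact Continuous.aestronglyMeasurable (by fun_prop)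
  · refine Eventually.of_forall fun t => ?_
    rw [Real.norm_eq_abs, abs_of_pos (mul_pos (hv.pos t) (hu.pos _))]
    exact mul_le_mul_of_nonneg_left (hC _) (hv.pos t).le

lemma integral_pos' {f : ℝ → ℝ} (hp : ∀ x, 0 < f x) (hi : Integrable f) : 0 < ∫ x, f x := by
  rw [integral_pos_iff_support_of_nonneg (fun x => (hp x).le) hi]
  have : Function.support f = Set.univ := by
    ext x
    simp [(hp x).ne']
  rw [this]
  simp

lemma cv_pos {u v : ℝ → ℝ} (hu : Ni u) (hv : Ni v) (x : ℝ) : 0 < cv u v x :=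
  integral_pos' (fun t => mul_pos (hv.pos t) (hu.pos _)) (slice hu hv x)

lemma cv_cont {u v : ℝ → ℝ} (hu : Ni u) (hv : Ni v) : Continuous (cv u v) := by
  obtain ⟨C, hC⟩ := hu.bdd
  have h1 := hu.cont
  have h2 := hv.cont
  refine continuous_of_dominated (bound := fun t => v t * C) ?_ ?_ (hv.int.mul_const C) ?_
  · intro x
    exact Continuous.aestronglyMeasurable (by fun_prop)
  · intro x
    refine Eventually.of_forall fun t => ?_
    rw [Real.norm_eq_abs, abs_of_pos (mul_pos (hv.pos t) (hu.pos _))]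
    exact mul_le_mul_of_nonneg_left (hC _) (hv.pos t).le
  · refine Eventually.of_forall fun t => ?_
    fun_prop

lemma cv_int {u v : ℝ → ℝ} (hu : Integrable u) (hv : Integrable v) : Integrable (cv u v) :=
  hv.integrable_convolution (ContinuousLinearMap.mul ℝ ℝ) hu

lemma integral_cv {u v : ℝ → ℝ} (hu : Integrable u) (hv : Integrable v) :
    ∫ x, cv u v x = (∫ x, u x) * ∫ x, v x := by
  have h := integral_convolution (μ := (volume : Measure ℝ)) (ν := (volume : Measure ℝ))
    (ContinuousLinearMap.mul ℝ ℝ) hv hu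
  rw [mul_comm]
  exact h

lemma cv_lc {u v : ℝ → ℝ} (hu : Ni u) (hv : Ni v) (a b c d : ℝ) (h1 : a ≤ c) (h2 : c ≤ b)
    (h3 : c + d = a + b) : cv u v a * cv u v b ≤ cv u v c * cv u v d := by
  -- `c = x₁ - z₁`, `d = x₂ - z₂`, `a = x₁ - z₂`, `b = x₂ - z₁` with `z₁ = 0`
  have sh : ∀ x z : ℝ, cv u v (x - z) = ∫ y, u (x - y) * v (y - z) := by
    intro x z
    unfold cv
    rw [← integral_sub_right_eq_self (fun y => v y * u (x - z - y)) z]
    refine integral_congr_ae (Eventually.of_forall fun y => ?_)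
    simp only
    rw [mul_comm]
    congr 2
    ring
  have shi : ∀ x z : ℝ, Integrable (fun y => u (x - y) * v (y - z)) := by
    intro x z
    have := (slice hu hv (x - z)).comp_sub_right z
    refine this.congr (Eventually.of_forall fun y => ?_)
    simp only
    rw [mul_comm]
    congr 2
    ring
  set z₂ : ℝ := c - a with hz₂
  have hz : 0 ≤ z₂ := by linarith
  have hc : cv u v c = ∫ y, u (c - y) * v (y - 0) := by rw [← sh c 0, sub_zero]
  have hb : cv u v b = ∫ y, u (b - y) * v (y - 0) := by rw [← sh b 0, sub_zero]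
  have ha : cv u v a = ∫ y, u (c - y) * v (y - z₂) := by
    rw [← sh c z₂]
    congr 1
    ring
  have hd : cv u v d = ∫ y, u (b - y) * v (y - z₂) := by
    rw [← sh b z₂]
    congr 1
    linarith
  have iC := shi c 0
  have iB := shi b 0
  have iA := shi c z₂
  have iD := shi b z₂
  rw [hc, hb, ha, hd]
  -- the double integral
  have e1 : (∫ y, u (c - y) * v (y - 0)) * (∫ y, u (b - y) * v (y - z₂))
      = ∫ p : ℝ × ℝ, (u (c - p.1) * v (p.1 - 0)) * (u (b - p.2) * v (p.2 - z₂)) := by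
    rw [← integral_prod_mul]
    rfl
  have e1' : (∫ y, u (c - y) * v (y - 0)) * (∫ y, u (b - y) * v (y - z₂))
      = ∫ p : ℝ × ℝ, (u (b - p.1) * v (p.1 - z₂)) * (u (c - p.2) * v (p.2 - 0)) := by
    rw [mul_comm, ← integral_prod_mul]
    rfl
  have e2 : (∫ y, u (c - y) * v (y - z₂)) * (∫ y, u (b - y) * v (y - 0))
      = ∫ p : ℝ × ℝ, (u (c - p.1) * v (p.1 - z₂)) * (u (b - p.2) * v (p.2 - 0)) := by
    rw [← integral_prod_mul]
    rfl
  have e2' : (∫ y, u (c - y) * v (y - z₂)) * (∫ y, u (b - y) * v (y - 0))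
      = ∫ p : ℝ × ℝ, (u (b - p.1) * v (p.1 - 0)) * (u (c - p.2) * v (p.2 - z₂)) := by
    rw [mul_comm, ← integral_prod_mul]
    rfl
  have j1 : Integrable (fun p : ℝ × ℝ => (u (c - p.1) * v (p.1 - 0)) *
      (u (b - p.2) * v (p.2 - z₂))) := Integrable.mul_prod iC iD
  have j1' : Integrable (fun p : ℝ × ℝ => (u (b - p.1) * v (p.1 - z₂)) *
      (u (c - p.2) * v (p.2 - 0))) := Integrable.mul_prod iD iC
  have j2 : Integrable (fun p : ℝ × ℝ => (u (c - p.1) * v (p.1 - z₂)) *
      (u (b - p.2) * v (p.2 - 0))) := Integrable.mul_prod iA iB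
  have j2' : Integrable (fun p : ℝ × ℝ => (u (b - p.1) * v (p.1 - 0)) *
      (u (c - p.2) * v (p.2 - z₂))) := Integrable.mul_prod iB iA
  have key : (∫ p : ℝ × ℝ, (u (c - p.1) * v (p.1 - z₂)) * (u (b - p.2) * v (p.2 - 0))) +
      (∫ p : ℝ × ℝ, (u (b - p.1) * v (p.1 - 0)) * (u (c - p.2) * v (p.2 - z₂)))
      ≤ (∫ p : ℝ × ℝ, (u (c - p.1) * v (p.1 - 0)) * (u (b - p.2) * v (p.2 - z₂))) +
      ∫ p : ℝ × ℝ, (u (b - p.1) * v (p.1 - z₂)) * (u (c - p.2) * v (p.2 - 0)) := by
    rw [← integral_add j2 j2', ← integral_add j1 j1']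
    refine integral_mono (j2.add j2') (j1.add j1') fun p => ?_
    simp only
    -- pointwise
    obtain ⟨s, t⟩ := p
    simp only
    -- `[u (c - s) u (b - t) - u (c - t) u (b - s)] [v s v (t - z₂) - v t v (s - z₂)] ≥ 0`
    rcases le_total s t with hst | hst
    · have f1 : u (c - t) * u (b - s) ≤ u (c - s) * u (b - t) :=
        hu.lc _ _ _ _ (by linarith) (by linarith) (by ring)
      have f2 : v (s - z₂) * v (t - 0) ≤ v (s - 0) * v (t - z₂) :=
        hv.lc _ _ _ _ (by linarith) (by linarith) (by ring)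
      nlinarith [mul_nonneg (sub_nonneg.2 f1) (sub_nonneg.2 f2)]
    · have f1 : u (c - s) * u (b - t) ≤ u (c - t) * u (b - s) :=
        hu.lc _ _ _ _ (by linarith) (by linarith) (by ring)
      have f2 : v (t - z₂) * v (s - 0) ≤ v (t - 0) * v (s - z₂) :=
        hv.lc _ _ _ _ (by linarith) (by linarith) (by ring)
      nlinarith [mul_nonneg (sub_nonneg.2 f1) (sub_nonneg.2 f2)]
  rw [← e1, ← e1', ← e2, ← e2'] at key
  linarith

lemma cv_ni {u v : ℝ → ℝ} (hu : Ni u) (hv : Ni v) : Ni (cv u v) where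
  cont := cv_cont hu hv
  pos := cv_pos hu hv
  int := cv_int hu.int hv.int
  bdd := by
    obtain ⟨C, hC⟩ := hu.bdd
    refine ⟨∫ t, v t * C, fun x => ?_⟩
    refine integral_mono (slice hu hv x) (hv.int.mul_const C) fun t => ?_
    exact mul_le_mul_of_nonneg_left (hC _) (hv.pos t).le
  lc := fun a b c d h1 h2 h3 => cv_lc hu hv a b c d h1 h2 h3

/-- exponential tilts -/
lemma cv_tilt (u v : ℝ → ℝ) (l x : ℝ) :
    cv (fun t => Real.exp (l * t) * u t) (fun t => Real.exp (l * t) * v t) x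
      = Real.exp (l * x) * cv u v x := by
  unfold cv
  rw [← integral_const_mul]
  refine integral_congr_ae (Eventually.of_forall fun t => ?_)
  simp only
  have : Real.exp (l * x) = Real.exp (l * t) * Real.exp (l * (x - t)) := by
    rw [← Real.exp_add]
    congr 1
    ring
  rw [this]
  ring

/-- Fourier transform -/
noncomputable def FT (u : ℝ → ℝ) (y : ℝ) : ℂ :=
  ∫ x, ((u x : ℝ) : ℂ) * Complex.exp (Complex.I * (y * x : ℝ))

lemma FT_int {u : ℝ → ℝ} (hu : Integrable u) (y : ℝ) :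
    Integrable (fun x => ((u x : ℝ) : ℂ) * Complex.exp (Complex.I * (y * x : ℝ))) := by
  refine hu.norm.mono' (hu.ofReal.aestronglyMeasurable.mul
    (Continuous.aestronglyMeasurable (by fun_prop))) ?_
  refine Eventually.of_forall fun x => ?_
  rw [norm_mul, Complex.norm_real, mul_comm Complex.I, Complex.norm_exp_ofReal_mul_I, mul_one]

lemma FT_cv {u v : ℝ → ℝ} (hu : Integrable u) (hv : Integrable v) (y : ℝ) :
    FT (cv u v) y = FT u y * FT v y := by
  have h := integral_convolution (μ := (volume : Measure ℝ)) (ν := (volume : Measure ℝ))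
    (ContinuousLinearMap.mul ℂ ℂ) (FT_int hv y) (FT_int hu y)
  rw [mul_comm]
  refine Eq.trans ?_ h
  unfold FT
  refine integral_congr_ae (Eventually.of_forall fun x => ?_)
  simp only
  unfold cv convolution
  rw [← integral_complex_ofReal, ← integral_mul_const]
  refine integral_congr_ae (Eventually.of_forall fun t => ?_)
  simp only [ContinuousLinearMap.mul_apply']
  have : Complex.exp (Complex.I * (y * x : ℝ)) = Complex.exp (Complex.I * (y * t : ℝ)) *
      Complex.exp (Complex.I * (y * (x - t) : ℝ)) := by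
    rw [← Complex.exp_add]
    congr 1
    push_cast
    ring
  rw [this]
  push_cast
  ring

/-- inversion -/
lemma inversion {h : ℝ → ℝ} (hc : Continuous h) (hi : Integrable h) (hF : Integrable (FT h))
    (X : ℝ) : ∫ y : ℝ, FT h y * Complex.exp (-(Complex.I * (X * y : ℝ)))
      = 2 * Real.pi * h X := by
  set H : ℝ → ℂ := fun x => ((h x : ℝ) : ℂ) with hH
  have h1 : ∀ ξ : ℝ, FourierTransform.fourier H ξ = FT h (-(2 * Real.pi) * ξ) := by
    intro ξ
    rw [Real.fourier_real_eq_integral_exp_smul]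
    unfold FT
    refine integral_congr_ae (Eventually.of_forall fun x => ?_)
    simp only [hH, smul_eq_mul]
    rw [mul_comm]
    congr 2
    push_cast
    ring
  have hpi := Real.pi_pos
  have h2 : Integrable (FourierTransform.fourier H) := by
    have := hF.comp_mul_left' (R := -(2 * Real.pi)) (by linarith)
    exact this.congr (Eventually.of_forall fun ξ => (h1 ξ).symm)
  have hcH : Continuous H := Complex.continuous_ofReal.comp hc
  have h3 := congrFun (hcH.fourierInv_fourier_eq hi.ofReal h2) X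
  rw [Real.fourierInv_eq'] at h3
  have h4 : ∫ v : ℝ, Complex.exp (((2 * Real.pi * inner ℝ v X : ℝ) : ℂ) * Complex.I) •
      FourierTransform.fourier H v
      = ∫ v : ℝ, (fun y : ℝ => FT h y * Complex.exp (-(Complex.I * (X * y : ℝ))))
        (-(2 * Real.pi) * v) := by
    refine integral_congr_ae (Eventually.of_forall fun v => ?_)
    simp only [smul_eq_mul]
    rw [h1 v, mul_comm]
    congr 2
    simp only [RCLike.inner_apply, conj_trivial]
    push_cast
    ring
  rw [h4, Measure.integral_comp_mul_left (fun y : ℝ => FT h y *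
    Complex.exp (-(Complex.I * (X * y : ℝ)))) (-(2 * Real.pi))] at h3
  have h5 : |(-(2 * Real.pi))⁻¹| = (2 * Real.pi)⁻¹ := by
    rw [inv_neg, abs_neg, abs_of_pos (by positivity)]
  rw [h5, Complex.real_smul] at h3
  have h6 : ((2 * Real.pi : ℝ) : ℂ) ≠ 0 := by
    exact_mod_cast (by positivity : (2 * Real.pi : ℝ) ≠ 0)
  have h7 : ∫ y : ℝ, FT h y * Complex.exp (-(Complex.I * (X * y : ℝ)))
      = ((2 * Real.pi : ℝ) : ℂ) * (h X : ℂ) := by
    rw [← show H X = (h X : ℂ) from rfl, ← h3]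
    push_cast
    rw [← mul_assoc, mul_inv_cancel₀ (by push_cast at h6; exact h6), one_mul]
  rw [h7]
  push_cast
  ring

/-! ### Beta densities -/

/-- the Beta densities -/
noncomputable def bk (a b x : ℝ) : ℝ := Real.exp (a * x) / (1 + Real.exp x) ^ (a + b)

lemma bk_pos (a b x : ℝ) : 0 < bk a b x := by
  unfold bk
  have := Real.exp_pos x
  positivity

lemma bk_cont (a b : ℝ) : Continuous (bk a b) := by
  unfold bk
  apply Continuous.div (by fun_prop)
  · apply Continuous.rpow_const (by fun_prop)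
    intro x
    left
    have := Real.exp_pos x
    positivity
  · intro x
    have := Real.exp_pos x
    positivity

lemma bk_le (a b : ℝ) (ha : 0 < a) (hb : 0 < b) (x : ℝ) : bk a b x ≤ 1 := by
  unfold bk
  have h0 := Real.exp_pos x
  rw [div_le_one (by positivity)]
  calc Real.exp (a * x) = (Real.exp x) ^ a := by rw [← Real.exp_mul, mul_comm]
    _ ≤ (1 + Real.exp x) ^ a := Real.rpow_le_rpow h0.le (by linarith) ha.le
    _ ≤ (1 + Real.exp x) ^ (a + b) :=
        Real.rpow_le_rpow_of_exponent_le (by linarith) (by linarith)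

lemma exp_conc {a b c d : ℝ} (h1 : a ≤ c) (h2 : c ≤ b) (h3 : c + d = a + b) :
    (1 + Real.exp c) * (1 + Real.exp d) ≤ (1 + Real.exp a) * (1 + Real.exp b) := by
  have e1 : Real.exp c * Real.exp d = Real.exp a * Real.exp b := by
    rw [← Real.exp_add, ← Real.exp_add, h3]
  have f1 : Real.exp a ≤ Real.exp c := Real.exp_le_exp.2 h1
  have f2 : Real.exp a ≤ Real.exp d := Real.exp_le_exp.2 (by linarith)
  have f0 := Real.exp_pos a
  have key : 0 ≤ (Real.exp c - Real.exp a) * (Real.exp d - Real.exp a) :=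
    mul_nonneg (by linarith) (by linarith)
  have : Real.exp a * (Real.exp c + Real.exp d) ≤ Real.exp a * (Real.exp a + Real.exp b) := by
    nlinarith
  have := le_of_mul_le_mul_left this f0
  nlinarith

lemma bk_lc (s : ℝ) (hs : 0 < s) (a b c d : ℝ) (h1 : a ≤ c) (h2 : c ≤ b) (h3 : c + d = a + b)
    (l m : ℝ) (hlm : l + m = s) : bk l m a * bk l m b ≤ bk l m c * bk l m d := by
  unfold bk
  have pa := Real.exp_pos a
  have pb := Real.exp_pos b
  have pc := Real.exp_pos c
  have pd := Real.exp_pos d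
  rw [hlm, div_mul_div_comm, div_mul_div_comm, ← Real.exp_add, ← Real.exp_add,
    ← Real.mul_rpow (by positivity) (by positivity), ← Real.mul_rpow (by positivity) (by positivity)]
  have e : l * a + l * b = l * c + l * d := by rw [← mul_add, ← mul_add, h3]
  rw [e]
  apply div_le_div_of_nonneg_left (Real.exp_pos _).le (by positivity)
  exact Real.rpow_le_rpow (by positivity) (exp_conc h1 h2 h3) hs.le

lemma bk_ni (hB : StmtBeta) {a b : ℝ} (ha : 0 < a) (hb : 0 < b) : Ni (bk a b) where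
  cont := bk_cont a b
  pos := bk_pos a b
  int := (hB a b 0 ha hb).1
  bdd := ⟨1, bk_le a b ha hb⟩
  lc := fun p q r s h1 h2 h3 => bk_lc (a + b) (by linarith) p q r s h1 h2 h3 a b rfl

lemma bk_tilt (a b l : ℝ) : (fun t => Real.exp (l * t) * bk a b t) = bk (a + l) (b - l) := by
  funext t
  unfold bk
  rw [show a + l + (b - l) = a + b by ring, ← mul_div_assoc, ← Real.exp_add]
  congr 2
  ring

lemma bk_FT (hB : StmtBeta) {a b : ℝ} (ha : 0 < a) (hb : 0 < b) (y : ℝ) :
    FT (bk a b) y = Complex.Gamma (a + Complex.I * y) * Complex.Gamma (b - Complex.I * y) /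
      Real.Gamma (a + b) := (hB a b y ha hb).2

lemma bk_integral (hB : StmtBeta) {a b : ℝ} (ha : 0 < a) (hb : 0 < b) :
    ∫ x, bk a b x = Real.Gamma a * Real.Gamma b / Real.Gamma (a + b) := by
  have h := bk_FT hB ha hb 0
  unfold FT at h
  have e : (∫ x : ℝ, ((bk a b x : ℝ) : ℂ) * Complex.exp (Complex.I * ((0 : ℝ) * x : ℝ)))
      = ((∫ x, bk a b x : ℝ) : ℂ) := by
    rw [← integral_complex_ofReal]
    refine integral_congr_ae (Eventually.of_forall fun x => ?_)
    simp
  rw [e] at h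
  have e2 : Complex.Gamma (a + Complex.I * (0 : ℝ)) = ((Real.Gamma a : ℝ) : ℂ) := by
    simp [Complex.Gamma_ofReal]
  have e3 : Complex.Gamma (b - Complex.I * (0 : ℝ)) = ((Real.Gamma b : ℝ) : ℂ) := by
    simp [Complex.Gamma_ofReal]
  rw [e2, e3] at h
  exact_mod_cast h

lemma int_half (hB : StmtBeta) : ∫ x, bk (1 / 2) 1 x = 2 := by
  rw [bk_integral hB (by norm_num) (by norm_num)]
  have h1 : Real.Gamma (1 / 2 + 1) = 1 / 2 * Real.Gamma (1 / 2) :=
    Real.Gamma_add_one (by norm_num)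
  have h2 : 0 < Real.Gamma (1 / 2) := Real.Gamma_pos_of_pos (by norm_num)
  rw [h1, Real.Gamma_one]
  field_simp

lemma int_quarter (hB : StmtBeta) : ∫ x, bk (5 / 4) (1 / 4) x ≤ 4 := by
  rw [bk_integral hB (by norm_num) (by norm_num)]
  have h1 : Real.Gamma (1 / 4 + 1) = 1 / 4 * Real.Gamma (1 / 4) :=
    Real.Gamma_add_one (by norm_num)
  have h1' : Real.Gamma (1 / 4) = 4 * Real.Gamma (5 / 4) := by
    rw [show (5 / 4 : ℝ) = 1 / 4 + 1 by norm_num, h1]
    ring
  have h2 : 0 < Real.Gamma (5 / 4) := Real.Gamma_pos_of_pos (by norm_num)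
  have h3 : 0 < Real.Gamma (3 / 2) := Real.Gamma_pos_of_pos (by norm_num)
  have h4 := Real.Gamma_mul_add_mul_le_rpow_Gamma_mul_rpow_Gamma (s := 1) (t := 3 / 2)
    (a := 1 / 2) (b := 1 / 2) (by norm_num) (by norm_num) (by norm_num) (by norm_num) (by norm_num)
  rw [Real.Gamma_one, Real.one_rpow, one_mul, show (1 / 2 * 1 + 1 / 2 * (3 / 2) : ℝ) = 5 / 4 by
    norm_num, ← Real.sqrt_eq_rpow] at h4
  have h5 : Real.Gamma (5 / 4) ^ 2 ≤ Real.Gamma (3 / 2) := by
    calc Real.Gamma (5 / 4) ^ 2 ≤ (Real.sqrt (Real.Gamma (3 / 2))) ^ 2 :=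
          pow_le_pow_left₀ h2.le h4 2
      _ = Real.Gamma (3 / 2) := Real.sq_sqrt h3.le
  rw [show (5 / 4 + 1 / 4 : ℝ) = 3 / 2 by norm_num, div_le_iff₀ h3, h1']
  nlinarith

/-! ### The function -/

/-- `f` -/
noncomputable def ff : ℝ → ℝ := bk (3 / 4) (3 / 4)

/-- `k` -/
noncomputable def kk : ℝ → ℝ := bk (1 / 4) (5 / 4)

/-- `f * f * f` -/
noncomputable def F3 : ℝ → ℝ := cv ff (cv ff ff)

/-- `k * f * f * f` -/
noncomputable def hh : ℝ → ℝ := cv kk F3

lemma ff_ni (hB : StmtBeta) : Ni ff := bk_ni hB (by norm_num) (by norm_num)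

lemma kk_ni (hB : StmtBeta) : Ni kk := bk_ni hB (by norm_num) (by norm_num)

lemma F3_ni (hB : StmtBeta) : Ni F3 := cv_ni (ff_ni hB) (cv_ni (ff_ni hB) (ff_ni hB))

lemma hh_ni (hB : StmtBeta) : Ni hh := cv_ni (kk_ni hB) (F3_ni hB)

lemma F3_tilt (hB : StmtBeta) (l : ℝ) (h1 : -(3 / 4) < l) (h2 : l < 3 / 4) :
    Integrable (fun t => Real.exp (l * t) * F3 t) ∧
    ∫ t, Real.exp (l * t) * F3 t = (∫ t, bk (3 / 4 + l) (3 / 4 - l) t) ^ 3 := by
  have n1 : Ni (bk (3 / 4 + l) (3 / 4 - l)) := bk_ni hB (by linarith) (by linarith)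
  have n2 := cv_ni n1 n1
  have e : (fun t => Real.exp (l * t) * F3 t)
      = cv (bk (3 / 4 + l) (3 / 4 - l)) (cv (bk (3 / 4 + l) (3 / 4 - l))
        (bk (3 / 4 + l) (3 / 4 - l))) := by
    funext x
    unfold F3 ff
    rw [← bk_tilt, ← cv_tilt]
    congr 1
    funext t
    rw [← cv_tilt]
  rw [e]
  refine ⟨cv_int n1.int n2.int, ?_⟩
  rw [integral_cv n1.int n2.int, integral_cv n1.int n1.int]
  ring

lemma conjG (a y : ℝ) : Complex.Gamma (a + Complex.I * y) * Complex.Gamma (a - Complex.I * y)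
    = ((G a y ^ 2 : ℝ) : ℂ) := by
  have e1 : (a : ℂ) - Complex.I * (y : ℂ) = (starRingEnd ℂ) ((a : ℂ) + Complex.I * (y : ℂ)) := by
    simp only [map_add, map_mul, Complex.conj_ofReal, Complex.conj_I]
    ring
  rw [e1, Complex.Gamma_conj, Complex.mul_conj, Complex.normSq_eq_norm_sq]
  rfl

lemma gamma32 : Real.Gamma (3 / 2) ^ 4 = Real.pi ^ 2 / 16 := by
  have h1 : Real.Gamma (1 / 2 + 1) = 1 / 2 * Real.Gamma (1 / 2) :=
    Real.Gamma_add_one (by norm_num)
  have h2 : Real.sqrt Real.pi ^ 2 = Real.pi := Real.sq_sqrt Real.pi_pos.le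
  rw [show (3 / 2 : ℝ) = 1 / 2 + 1 by norm_num, h1, Real.Gamma_one_half_eq]
  calc (1 / 2 * Real.sqrt Real.pi) ^ 4 = (Real.sqrt Real.pi ^ 2) ^ 2 / 16 := by ring
    _ = Real.pi ^ 2 / 16 := by rw [h2]

lemma FT_hh (hG : StmtG) (hB : StmtBeta) (y : ℝ) :
    FT hh y = ((32 * ga y : ℝ) : ℂ) * (1 / 4 - Complex.I * y) := by
  have h1 : FT ff y = ((G (3 / 4) y ^ 2 / Real.Gamma (3 / 2) : ℝ) : ℂ) := by
    unfold ff
    rw [bk_FT hB (by norm_num) (by norm_num), conjG, show (3 / 4 + 3 / 4 : ℝ) = 3 / 2 by norm_num]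
    push_cast
    rfl
  have h2 : FT kk y = ((G (1 / 4) y ^ 2 / Real.Gamma (3 / 2) : ℝ) : ℂ) *
      (1 / 4 - Complex.I * y) := by
    unfold kk
    rw [bk_FT hB (by norm_num) (by norm_num), show (1 / 4 + 5 / 4 : ℝ) = 3 / 2 by norm_num]
    have hne : ((1 / 4 : ℝ) : ℂ) - Complex.I * y ≠ 0 := by
      intro h
      have := congrArg Complex.re h
      simp at this
    have e : ((5 / 4 : ℝ) : ℂ) - Complex.I * y = (((1 / 4 : ℝ) : ℂ) - Complex.I * y) + 1 := by
      push_cast
      ring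
    rw [e, Complex.Gamma_add_one _ hne]
    have := conjG (1 / 4) y
    rw [show Complex.Gamma (((1 / 4 : ℝ) : ℂ) + Complex.I * y) *
      ((((1 / 4 : ℝ) : ℂ) - Complex.I * y) * Complex.Gamma (((1 / 4 : ℝ) : ℂ) - Complex.I * y))
      = (Complex.Gamma (((1 / 4 : ℝ) : ℂ) + Complex.I * y) *
        Complex.Gamma (((1 / 4 : ℝ) : ℂ) - Complex.I * y)) * (((1 / 4 : ℝ) : ℂ) - Complex.I * y)
      by ring, this]
    push_cast
    ring
  have hi1 := (kk_ni hB).int
  have hi2 := (ff_ni hB).int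
  have hi3 := (cv_ni (ff_ni hB) (ff_ni hB)).int
  have hi4 := (F3_ni hB).int
  have h3 : FT hh y = FT kk y * (FT ff y * (FT ff y * FT ff y)) := by
    unfold hh
    rw [FT_cv hi1 hi4]
    unfold F3
    rw [FT_cv hi2 hi3, FT_cv hi2 hi2]
  rw [h3, h1, h2]
  have hc : 0 < Real.cosh (2 * Real.pi * y) := Real.cosh_pos _
  have hg := hG.2.2.2.2.2.2 y
  have hΓ : 0 < Real.Gamma (3 / 2) := Real.Gamma_pos_of_pos (by norm_num)
  have h4 : G (1 / 4) y ^ 2 / Real.Gamma (3 / 2) * (G (3 / 4) y ^ 2 / Real.Gamma (3 / 2) *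
      (G (3 / 4) y ^ 2 / Real.Gamma (3 / 2) * (G (3 / 4) y ^ 2 / Real.Gamma (3 / 2))))
      = 32 * ga y := by
    have e1 : G (1 / 4) y ^ 2 / Real.Gamma (3 / 2) * (G (3 / 4) y ^ 2 / Real.Gamma (3 / 2) *
      (G (3 / 4) y ^ 2 / Real.Gamma (3 / 2) * (G (3 / 4) y ^ 2 / Real.Gamma (3 / 2))))
      = (G (1 / 4) y ^ 2 * G (3 / 4) y ^ 2) * G (3 / 4) y ^ 4 / Real.Gamma (3 / 2) ^ 4 := by
      field_simp
    have e2 : G (1 / 4) y ^ 2 * G (3 / 4) y ^ 2 = 2 * Real.pi ^ 2 / Real.cosh (2 * Real.pi * y) := by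
      rw [eq_div_iff hc.ne', hg]
    rw [e1, e2, gamma32]
    unfold ga
    have := Real.pi_pos
    field_simp
    ring
  rw [← h4]
  push_cast
  ring

lemma ga_pos (hG : StmtG) (y : ℝ) : 0 < ga y := by
  have := (hG.1 (3 / 4) y (by norm_num)).1
  have h2 := Real.cosh_pos (2 * Real.pi * y)
  unfold ga
  positivity

lemma ga_cont (hG : StmtG) : Continuous ga := by
  have := hG.2.1 (3 / 4) (by norm_num)
  unfold ga
  exact (this.pow 4).div (by fun_prop) (fun y => (Real.cosh_pos _).ne')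

lemma ga_int (hG : StmtG) : Integrable (fun y => (1 + |y|) * ga y) := by
  obtain ⟨C, hC, hb⟩ := hG.2.2.1 (3 / 4) (by norm_num)
  refine ((Rp.PoiAux.int_pow_exp 1 6 (by norm_num)).const_mul (C ^ 4)).mono' ?_ ?_
  · have := ga_cont hG
    exact Continuous.aestronglyMeasurable (by fun_prop)
  · refine Eventually.of_forall fun y => ?_
    have hp := ga_pos hG y
    rw [Real.norm_eq_abs, abs_of_nonneg (by positivity)]
    have h1 : ga y ≤ C ^ 4 * Real.exp (-6 * |y|) := by
      unfold ga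
      calc G (3 / 4) y ^ 4 / Real.cosh (2 * Real.pi * y) ≤ G (3 / 4) y ^ 4 / 1 := by
            apply div_le_div_of_nonneg_left (by positivity) one_pos (Real.one_le_cosh _)
        _ = G (3 / 4) y ^ 4 := div_one _
        _ ≤ (C * Real.exp (-(3 / 2 * |y|))) ^ 4 :=
            pow_le_pow_left₀ ((hG.1 (3 / 4) y (by norm_num)).1).le (hb y) 4
        _ = C ^ 4 * Real.exp (-6 * |y|) := by
            rw [mul_pow, ← Real.exp_nat_mul]
            congr 2
            push_cast
            ring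
    calc (1 + |y|) * ga y ≤ (1 + |y|) * (C ^ 4 * Real.exp (-6 * |y|)) :=
          mul_le_mul_of_nonneg_left h1 (by positivity)
      _ = C ^ 4 * ((1 + |y|) ^ 1 * Real.exp (-6 * |y|)) := by ring

lemma vv_eq (hG : StmtG) (hB : StmtBeta) (X : ℝ) : vv X = Real.pi ^ 4 / 4 * hh X := by
  have hn := hh_ni hB
  have hgc := ga_cont hG
  have hcont : Continuous (fun y : ℝ => ((32 * ga y : ℝ) : ℂ) * (1 / 4 - Complex.I * y)) := by
    fun_prop
  have hnorm : ∀ y : ℝ, ‖((32 * ga y : ℝ) : ℂ) * (1 / 4 - Complex.I * y)‖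
      ≤ 32 * ((1 + |y|) * ga y) := by
    intro y
    rw [norm_mul, Complex.norm_real, Real.norm_eq_abs, abs_of_pos (mul_pos (by norm_num)
      (ga_pos hG y))]
    have h1 : ‖(1 / 4 : ℂ) - Complex.I * y‖ ≤ 1 + |y| := by
      calc ‖(1 / 4 : ℂ) - Complex.I * y‖ ≤ ‖(1 / 4 : ℂ)‖ + ‖Complex.I * (y : ℂ)‖ :=
            norm_sub_le _ _
        _ ≤ 1 + |y| := by
            rw [norm_mul, Complex.norm_I, one_mul, Complex.norm_real, Real.norm_eq_abs]
            have : ‖(1 / 4 : ℂ)‖ = 1 / 4 := by simp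
            rw [this]
            linarith
    have := ga_pos hG y
    calc 32 * ga y * ‖(1 / 4 : ℂ) - Complex.I * y‖ ≤ 32 * ga y * (1 + |y|) :=
          mul_le_mul_of_nonneg_left h1 (by positivity)
      _ = 32 * ((1 + |y|) * ga y) := by ring
  have hFe : FT hh = fun y : ℝ => ((32 * ga y : ℝ) : ℂ) * (1 / 4 - Complex.I * y) :=
    funext (FT_hh hG hB)
  have hFi : Integrable (FT hh) := by
    rw [hFe]
    exact ((ga_int hG).const_mul 32).mono' hcont.aestronglyMeasurable (Eventually.of_forall hnorm)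
  have hinv := inversion hn.cont hn.int hFi X
  have hi2 : Integrable (fun y : ℝ => FT hh y * Complex.exp (-(Complex.I * (X * y : ℝ)))) := by
    refine hFi.norm.mono' (hFi.aestronglyMeasurable.mul
      (Continuous.aestronglyMeasurable (by fun_prop))) (Eventually.of_forall fun y => ?_)
    rw [norm_mul, show -(Complex.I * ((X * y : ℝ) : ℂ)) = ((-(X * y) : ℝ) : ℂ) * Complex.I by
      push_cast; ring, Complex.norm_exp_ofReal_mul_I, mul_one]
  have hre := integral_re hi2
  simp only [RCLike.re_to_complex] at hre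
  rw [hinv] at hre
  have h1 : (2 * (Real.pi : ℂ) * (hh X : ℂ)).re = 2 * Real.pi * hh X := by
    rw [show (2 * (Real.pi : ℂ) * (hh X : ℂ)) = ((2 * Real.pi * hh X : ℝ) : ℂ) by push_cast; ring,
      Complex.ofReal_re]
  rw [h1] at hre
  have h2 : ∀ y : ℝ, (FT hh y * Complex.exp (-(Complex.I * (X * y : ℝ)))).re
      = 16 * (ga y * (Real.cos (X * y) / 2 - 2 * y * Real.sin (X * y))) := by
    intro y
    rw [hFe]
    simp only
    rw [show -(Complex.I * ((X * y : ℝ) : ℂ)) = ((-(X * y) : ℝ) : ℂ) * Complex.I by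
      push_cast; ring, mul_assoc, Complex.re_ofReal_mul, Complex.mul_re,
      Complex.exp_ofReal_mul_I_re, Complex.exp_ofReal_mul_I_im, Real.cos_neg, Real.sin_neg]
    simp
    ring
  simp_rw [h2] at hre
  rw [integral_const_mul] at hre
  unfold vv
  have : (∫ y : ℝ, ga y * (Real.cos (X * y) / 2 - 2 * y * Real.sin (X * y)))
      = 2 * Real.pi * hh X / 16 := by linarith
  rw [this]
  ring

/-! ### Bounds for `hh` -/

lemma kk_tilt_anti {x y : ℝ} (h : x ≤ y) :
    kk y * Real.exp (-(y / 4)) ≤ kk x * Real.exp (-(x / 4)) := by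
  have e : ∀ z : ℝ, kk z * Real.exp (-(z / 4)) = 1 / (1 + Real.exp z) ^ (3 / 2 : ℝ) := by
    intro z
    unfold kk bk
    rw [div_mul_eq_mul_div, ← Real.exp_add, show (1 / 4 + 5 / 4 : ℝ) = 3 / 2 by norm_num,
      show (1 / 4 * z + -(z / 4) : ℝ) = 0 by ring, Real.exp_zero]
  rw [e, e]
  have hx := Real.exp_pos x
  apply one_div_le_one_div_of_le (by positivity)
  exact Real.rpow_le_rpow (by positivity) (by linarith [Real.exp_le_exp.2 h]) (by norm_num)

lemma kk_tilt_le (x : ℝ) : kk x * Real.exp (-(x / 4)) ≤ 1 := by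
  unfold kk bk
  rw [div_mul_eq_mul_div, ← Real.exp_add, show (1 / 4 * x + -(x / 4) : ℝ) = 0 by ring,
    Real.exp_zero]
  have hx := Real.exp_pos x
  rw [div_le_one (by positivity)]
  exact Real.one_le_rpow (by linarith) (by norm_num)

lemma kk_tilt2_le (x : ℝ) : kk x * Real.exp (x / 2) ≤ 3536 / 10000 := by
  have hx := Real.exp_pos x
  have e : kk x * Real.exp (x / 2) = (Real.exp (x / 2) / (1 + Real.exp x)) ^ (3 / 2 : ℝ) := by
    unfold kk bk
    rw [div_mul_eq_mul_div, ← Real.exp_add, Real.div_rpow (Real.exp_pos _).le (by positivity),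
      ← Real.exp_mul, show (1 / 4 + 5 / 4 : ℝ) = 3 / 2 by norm_num]
    congr 2
    ring
  have h1 : Real.exp (x / 2) / (1 + Real.exp x) ≤ 1 / 2 := by
    have h2 : Real.exp x = Real.exp (x / 2) ^ 2 := by
      rw [← Real.exp_nat_mul]
      congr 1
      push_cast
      ring
    rw [h2, div_le_div_iff₀ (by positivity) (by norm_num)]
    nlinarith [sq_nonneg (Real.exp (x / 2) - 1)]
  rw [e]
  calc (Real.exp (x / 2) / (1 + Real.exp x)) ^ (3 / 2 : ℝ) ≤ (1 / 2 : ℝ) ^ (3 / 2 : ℝ) :=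
        Real.rpow_le_rpow (by positivity) h1 (by norm_num)
    _ ≤ 3536 / 10000 := by
        have h3 : ((1 / 2 : ℝ) ^ (3 / 2 : ℝ)) ^ 2 = 1 / 8 := by
          rw [← Real.rpow_natCast, ← Real.rpow_mul (by norm_num)]
          norm_num
        have h4 : 0 ≤ (1 / 2 : ℝ) ^ (3 / 2 : ℝ) := by positivity
        nlinarith

lemma hh_anti (hB : StmtBeta) {X Y : ℝ} (h : X ≤ Y) :
    hh Y * Real.exp (-(Y / 4)) ≤ hh X * Real.exp (-(X / 4)) := by
  have n1 := kk_ni hB
  have n2 := F3_ni hB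
  unfold hh cv
  rw [← integral_mul_const, ← integral_mul_const]
  refine integral_mono ((slice n1 n2 Y).mul_const _) ((slice n1 n2 X).mul_const _) fun t => ?_
  simp only
  have h1 := kk_tilt_anti (show X - t ≤ Y - t by linarith)
  have hF := n2.pos t
  have e : ∀ Z : ℝ, F3 t * kk (Z - t) * Real.exp (-(Z / 4))
      = F3 t * Real.exp (-(t / 4)) * (kk (Z - t) * Real.exp (-((Z - t) / 4))) := by
    intro Z
    have : Real.exp (-(Z / 4)) = Real.exp (-(t / 4)) * Real.exp (-((Z - t) / 4)) := by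
      rw [← Real.exp_add]
      congr 1
      ring
    rw [this]
    ring
  rw [e, e]
  exact mul_le_mul_of_nonneg_left h1 (by positivity)

lemma hh_le1 (hB : StmtBeta) (X : ℝ) : hh X * Real.exp (-(X / 4)) ≤ 8 := by
  have n1 := kk_ni hB
  have n2 := F3_ni hB
  obtain ⟨i1, i2⟩ := F3_tilt hB (-(1 / 4)) (by norm_num) (by norm_num)
  rw [show (3 / 4 + -(1 / 4) : ℝ) = 1 / 2 by norm_num, show (3 / 4 - -(1 / 4) : ℝ) = 1 by norm_num,
    int_half hB] at i2
  have h8 : (8 : ℝ) = ∫ t, Real.exp (-(1 / 4) * t) * F3 t := by rw [i2]; norm_num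
  rw [h8]
  unfold hh cv
  rw [← integral_mul_const]
  refine integral_mono ((slice n1 n2 X).mul_const _) i1 fun t => ?_
  simp only
  have h1 := kk_tilt_le (X - t)
  have hF := n2.pos t
  have : Real.exp (-(X / 4)) = Real.exp (-(1 / 4) * t) * Real.exp (-((X - t) / 4)) := by
    rw [← Real.exp_add]
    congr 1
    ring
  rw [this]
  calc F3 t * kk (X - t) * (Real.exp (-(1 / 4) * t) * Real.exp (-((X - t) / 4)))
      = (Real.exp (-(1 / 4) * t) * F3 t) * (kk (X - t) * Real.exp (-((X - t) / 4))) := by ring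
    _ ≤ (Real.exp (-(1 / 4) * t) * F3 t) * 1 := mul_le_mul_of_nonneg_left h1 (by positivity)
    _ = Real.exp (-(1 / 4) * t) * F3 t := mul_one _

lemma hh_le2 (hB : StmtBeta) (X : ℝ) : hh X * Real.exp (X / 2) ≤ 64 * (3536 / 10000) := by
  have n1 := kk_ni hB
  have n2 := F3_ni hB
  obtain ⟨i1, i2⟩ := F3_tilt hB (1 / 2) (by norm_num) (by norm_num)
  rw [show (3 / 4 + 1 / 2 : ℝ) = 5 / 4 by norm_num, show (3 / 4 - 1 / 2 : ℝ) = 1 / 4 by norm_num]
    at i2
  have h3 : (∫ t, Real.exp (1 / 2 * t) * F3 t) ≤ 64 := by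
    rw [i2]
    have h4 := int_quarter hB
    have h5 : 0 ≤ ∫ t, bk (5 / 4) (1 / 4) t := integral_nonneg fun t => (bk_pos _ _ t).le
    calc (∫ t, bk (5 / 4) (1 / 4) t) ^ 3 ≤ 4 ^ 3 := pow_le_pow_left₀ h5 h4 3
      _ = 64 := by norm_num
  have h6 : hh X * Real.exp (X / 2) ≤ ∫ t, (Real.exp (1 / 2 * t) * F3 t) * (3536 / 10000) := by
    unfold hh cv
    rw [← integral_mul_const]
    refine integral_mono ((slice n1 n2 X).mul_const _) (i1.mul_const _) fun t => ?_
    simp only
    have h1 := kk_tilt2_le (X - t)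
    have hF := n2.pos t
    have : Real.exp (X / 2) = Real.exp (1 / 2 * t) * Real.exp ((X - t) / 2) := by
      rw [← Real.exp_add]
      congr 1
      ring
    rw [this]
    calc F3 t * kk (X - t) * (Real.exp (1 / 2 * t) * Real.exp ((X - t) / 2))
        = (Real.exp (1 / 2 * t) * F3 t) * (kk (X - t) * Real.exp ((X - t) / 2)) := by ring
      _ ≤ (Real.exp (1 / 2 * t) * F3 t) * (3536 / 10000) :=
          mul_le_mul_of_nonneg_left h1 (by positivity)
  rw [integral_mul_const] at h6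
  calc hh X * Real.exp (X / 2) ≤ (∫ t, Real.exp (1 / 2 * t) * F3 t) * (3536 / 10000) := h6
    _ ≤ 64 * (3536 / 10000) := mul_le_mul_of_nonneg_right h3 (by norm_num)

/-- quasi-concavity -/
lemma quasi {u : ℝ → ℝ} (hc : Continuous u) (hp : ∀ x, 0 < u x)
    (hl : ∀ a b c d, a ≤ c → c ≤ b → c + d = a + b → u a * u b ≤ u c * u d)
    (a b τ : ℝ) (h1 : a ≤ τ) (h2 : τ ≤ b) : min (u a) (u b) ≤ u τ := by
  obtain ⟨c, hcm, hmin⟩ := isCompact_Icc.exists_isMinOn (s := Set.Icc a b)
    ⟨τ, h1, h2⟩ hc.continuousOn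
  have hmin' : ∀ x ∈ Set.Icc a b, u c ≤ u x := fun x hx => hmin hx
  have hτ := hmin' τ ⟨h1, h2⟩
  refine le_trans ?_ hτ
  have hpc := hp c
  rcases le_total (c - a) (b - c) with h | h
  · -- reach `a`
    have h3 := hl a (2 * c - a) c c hcm.1 (by linarith [hcm.1]) (by ring)
    have h4 := hmin' (2 * c - a) ⟨by linarith [hcm.1], by linarith⟩
    have h5 : u a * u c ≤ u c * u c := by
      calc u a * u c ≤ u a * u (2 * c - a) := mul_le_mul_of_nonneg_left h4 (hp a).le
        _ ≤ u c * u c := h3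
    exact le_trans (min_le_left _ _) (le_of_mul_le_mul_right h5 hpc)
  · have h3 := hl (2 * c - b) b c c (by linarith [hcm.2]) hcm.2 (by ring)
    have h4 := hmin' (2 * c - b) ⟨by linarith, by linarith [hcm.2]⟩
    have h5 : u c * u b ≤ u c * u c := by
      calc u c * u b ≤ u (2 * c - b) * u b := mul_le_mul_of_nonneg_right h4 (hp b).le
        _ ≤ u c * u c := h3
    exact le_trans (min_le_right _ _) (le_of_mul_le_mul_left h5 hpc)

end VVAux

open VVAux in
/-- (VV) properties of `vv` -/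
theorem vvfacts (hG : StmtG) (hB : StmtBeta) : StmtVV := by
  have hn := hh_ni hB
  have hv : vv = fun X => Real.pi ^ 4 / 4 * hh X := funext (vv_eq hG hB)
  have hpi := Real.pi_pos
  have hpi2 := Real.pi_lt_d2
  have hcont : Continuous vv := by
    rw [hv]
    exact continuous_const.mul hn.cont
  have hpos : ∀ X, 0 < vv X := by
    intro X
    rw [hv]
    have := hn.pos X
    positivity
  have hlc : ∀ a b c d, a ≤ c → c ≤ b → c + d = a + b → vv a * vv b ≤ vv c * vv d := by
    intro a b c d h1 h2 h3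
    have := hn.lc a b c d h1 h2 h3
    rw [hv]
    simp only
    calc Real.pi ^ 4 / 4 * hh a * (Real.pi ^ 4 / 4 * hh b)
        = (Real.pi ^ 4 / 4) ^ 2 * (hh a * hh b) := by ring
      _ ≤ (Real.pi ^ 4 / 4) ^ 2 * (hh c * hh d) := mul_le_mul_of_nonneg_left this (by positivity)
      _ = Real.pi ^ 4 / 4 * hh c * (Real.pi ^ 4 / 4 * hh d) := by ring
  refine ⟨hcont, hpos, ?_, ?_, ?_, hlc, ?_⟩
  · intro X Y h
    have := hh_anti hB h
    rw [hv]
    simp only
    rw [mul_assoc, mul_assoc]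
    exact mul_le_mul_of_nonneg_left this (by positivity)
  · intro X
    have h1 := hh_le1 hB X
    have h2 : hh X ≤ 8 * Real.exp (X / 4) := by
      have h3 : hh X = hh X * Real.exp (-(X / 4)) * Real.exp (X / 4) := by
        rw [mul_assoc, ← Real.exp_add]
        simp
      rw [h3]
      exact mul_le_mul_of_nonneg_right h1 (Real.exp_pos _).le
    rw [hv]
    simp only
    calc Real.pi ^ 4 / 4 * hh X ≤ Real.pi ^ 4 / 4 * (8 * Real.exp (X / 4)) :=
          mul_le_mul_of_nonneg_left h2 (by positivity)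
      _ = 2 * Real.pi ^ 4 * Real.exp (X / 4) := by ring
  · intro X
    have h1 := hh_le2 hB X
    have h2 : hh X ≤ 64 * (3536 / 10000) * Real.exp (-(X / 2)) := by
      have h3 : hh X = hh X * Real.exp (X / 2) * Real.exp (-(X / 2)) := by
        rw [mul_assoc, ← Real.exp_add]
        simp
      rw [h3]
      exact mul_le_mul_of_nonneg_right h1 (Real.exp_pos _).le
    have h4 : Real.pi ^ 4 ≤ 315 / 100 * (315 / 100) * (315 / 100) * (315 / 100) := by
      have : Real.pi ≤ 315 / 100 := by linarith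
      calc Real.pi ^ 4 ≤ (315 / 100) ^ 4 := pow_le_pow_left₀ hpi.le this 4
        _ = _ := by norm_num
    rw [hv]
    simp only
    calc Real.pi ^ 4 / 4 * hh X
        ≤ Real.pi ^ 4 / 4 * (64 * (3536 / 10000) * Real.exp (-(X / 2))) :=
          mul_le_mul_of_nonneg_left h2 (by positivity)
      _ = (Real.pi ^ 4 / 4 * (64 * (3536 / 10000))) * Real.exp (-(X / 2)) := by ring
      _ ≤ 600 * Real.exp (-(X / 2)) := by
          apply mul_le_mul_of_nonneg_right _ (Real.exp_pos _).le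
          linarith
  · -- quasi-concavity of `Kt`
    have kc : Continuous Kt := by
      unfold Kt
      exact (by fun_prop : Continuous fun τ : ℝ => Real.exp (τ / 2)).mul
        (hcont.comp (by fun_prop))
    have kp : ∀ τ, 0 < Kt τ := fun τ => mul_pos (Real.exp_pos _) (hpos _)
    intro a b τ h1 h2
    refine quasi kc kp ?_ a b τ h1 h2
    intro a b c d h1 h2 h3
    unfold Kt
    have := hlc (2 * a + 2 * Real.log 4) (2 * b + 2 * Real.log 4) (2 * c + 2 * Real.log 4)
      (2 * d + 2 * Real.log 4) (by linarith) (by linarith) (by linarith)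
    have e : Real.exp (a / 2) * Real.exp (b / 2) = Real.exp (c / 2) * Real.exp (d / 2) := by
      rw [← Real.exp_add, ← Real.exp_add]
      congr 1
      linarith
    calc Real.exp (a / 2) * vv (2 * a + 2 * Real.log 4) *
          (Real.exp (b / 2) * vv (2 * b + 2 * Real.log 4))
        = (Real.exp (a / 2) * Real.exp (b / 2)) *
          (vv (2 * a + 2 * Real.log 4) * vv (2 * b + 2 * Real.log 4)) := by ring
      _ ≤ (Real.exp (a / 2) * Real.exp (b / 2)) *
          (vv (2 * c + 2 * Real.log 4) * vv (2 * d + 2 * Real.log 4)) :=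
          mul_le_mul_of_nonneg_left this (by positivity)
      _ = Real.exp (c / 2) * vv (2 * c + 2 * Real.log 4) *
          (Real.exp (d / 2) * vv (2 * d + 2 * Real.log 4)) := by
          rw [e]
          ring

end Pool.Agent.Lib.MP_dd244f_an.Rq
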