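import Pool.Agent.Lib.MP_dd244f_an.Rq.VnA

/-!
(Vn), numerical part.
-/

set_option autoImplicit false

namespace Pool.Agent.Lib.MP_dd244f_an.Rq

open MeasureTheory Filter Topology Finset

namespace VnAux

/-- table of `cos (π n / 12)` -/
def tbl : List ℚ := [10000000/10000000, 9659258/10000000, 8660254/10000000, 7071068/10000000, 5000000/10000000, 2588190/10000000, 0/10000000, -2588190/10000000, -5000000/10000000, -7071068/10000000, -8660254/10000000, -9659258/10000000, -10000000/10000000, -9659258/10000000, -8660254/10000000, -7071068/10000000, -5000000/10000000, -2588190/10000000, 0/10000000, 2588190/10000000, 5000000/10000000, 7071068/10000000, 8660254/10000000, 9659258/10000000]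

/-- table of `cos (π n / 12)` -/
def tbq (n : ℕ) : ℚ := tbl.getD n 0

/-- approximate values of `ga (j / 5)` -/
def mq (n : ℕ) : ℚ := ([112746979/50000000, 3043081/3125000, 2160493/12500000, 283149/12500000, 799/312500, 26509/100000000, 261/10000000, 31/12500000] : List ℚ).getD n 0

/-- error bounds -/
def er (n : ℕ) : ℚ := ([91229/1000000000, 5403/125000000, 5011/500000000, 1943/1000000000, 11/31250000, 31/500000000, 3/250000000, 7/1000000000] : List ℚ).getD n 0


/-- lower bound for `SS` -/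
def SlowQ (k : ℤ) : ℚ := (mq 0 - er 0) / 2 + ∑ j ∈ range 7,
  (mq (j + 1) * (tbq ((k * (j + 1)) % 24).toNat - 4 * ((j + 1) / 5) *
    tbq ((k * (j + 1) - 6) % 24).toNat) - (er (j + 1) + 1 / 1000000 * mq (j + 1)) *
    (1 + 4 * ((j + 1) / 5)))

lemma sqrt2 : (1414213562 / 1000000000 : ℝ) ≤ √2 ∧ √2 ≤ 1414213563 / 1000000000 := by
  constructor
  · apply Real.le_sqrt_of_sq_le; norm_num
  · rw [Real.sqrt_le_left (by norm_num)]; norm_num

lemma sqrt3 : (1732050807 / 1000000000 : ℝ) ≤ √3 ∧ √3 ≤ 1732050808 / 1000000000 := by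
  constructor
  · apply Real.le_sqrt_of_sq_le; norm_num
  · rw [Real.sqrt_le_left (by norm_num)]; norm_num

lemma sqrt6 : (2449489741 / 1000000000 : ℝ) ≤ √2 * √3 ∧ √2 * √3 ≤ 2449489745 / 1000000000 := by
  obtain ⟨a1, a2⟩ := sqrt2
  obtain ⟨b1, b2⟩ := sqrt3
  constructor
  · have : (1414213562 / 1000000000 : ℝ) * (1732050807 / 1000000000) ≤ √2 * √3 :=
      mul_le_mul a1 b1 (by norm_num) (by linarith)
    refine le_trans ?_ this
    norm_num
  · have : √2 * √3 ≤ (1414213563 / 1000000000 : ℝ) * (1732050808 / 1000000000) :=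
      mul_le_mul a2 b2 (by linarith) (by norm_num)
    refine this.trans ?_
    norm_num

lemma base1 : Real.cos (Real.pi * 1 / 12) = (√2 + √2 * √3) / 4 := by
  rw [show Real.pi * 1 / 12 = Real.pi / 3 - Real.pi / 4 by ring, Real.cos_sub,
    Real.cos_pi_div_three, Real.cos_pi_div_four, Real.sin_pi_div_three, Real.sin_pi_div_four]
  ring

lemma base5 : Real.cos (Real.pi * 5 / 12) = (√2 * √3 - √2) / 4 := by
  rw [show Real.pi * 5 / 12 = Real.pi / 4 + Real.pi / 6 by ring, Real.cos_add,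
    Real.cos_pi_div_six, Real.cos_pi_div_four, Real.sin_pi_div_six, Real.sin_pi_div_four]
  ring

lemma base2 : Real.cos (Real.pi * 2 / 12) = √3 / 2 := by
  rw [show Real.pi * 2 / 12 = Real.pi / 6 by ring, Real.cos_pi_div_six]

lemma base3 : Real.cos (Real.pi * 3 / 12) = √2 / 2 := by
  rw [show Real.pi * 3 / 12 = Real.pi / 4 by ring, Real.cos_pi_div_four]

lemma base4 : Real.cos (Real.pi * 4 / 12) = 1 / 2 := by
  rw [show Real.pi * 4 / 12 = Real.pi / 3 by ring, Real.cos_pi_div_three]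

lemma base6 : Real.cos (Real.pi * 6 / 12) = 0 := by
  rw [show Real.pi * 6 / 12 = Real.pi / 2 by ring, Real.cos_pi_div_two]

lemma base0 : Real.cos (Real.pi * 0 / 12) = 1 := by
  rw [show Real.pi * 0 / 12 = 0 by ring, Real.cos_zero]


lemma tb_ok (n : ℕ) (hn : n < 24) : |Real.cos (Real.pi * n / 12) - (tbq n : ℝ)| ≤ 1 / 1000000 := by
  obtain ⟨a1, a2⟩ := sqrt2
  obtain ⟨b1, b2⟩ := sqrt3
  obtain ⟨c1, c2⟩ := sqrt6
  interval_cases n
  · rw [show (((0 : ℕ) : ℝ)) = 0 by norm_num, base0]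
    rw [show (tbq 0 : ℝ) = 10000000/10000000 by norm_num [tbq, tbl], abs_le]
    constructor <;> linarith
  · rw [show (((1 : ℕ) : ℝ)) = 1 by norm_num, base1]
    rw [show (tbq 1 : ℝ) = 9659258/10000000 by norm_num [tbq, tbl], abs_le]
    constructor <;> linarith
  · rw [show (((2 : ℕ) : ℝ)) = 2 by norm_num, base2]
    rw [show (tbq 2 : ℝ) = 8660254/10000000 by norm_num [tbq, tbl], abs_le]
    constructor <;> linarith
  · rw [show (((3 : ℕ) : ℝ)) = 3 by norm_num, base3]
    rw [show (tbq 3 : ℝ) = 7071068/10000000 by norm_num [tbq, tbl], abs_le]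
    constructor <;> linarith
  · rw [show (((4 : ℕ) : ℝ)) = 4 by norm_num, base4]
    rw [show (tbq 4 : ℝ) = 5000000/10000000 by norm_num [tbq, tbl], abs_le]
    constructor <;> linarith
  · rw [show (((5 : ℕ) : ℝ)) = 5 by norm_num, base5]
    rw [show (tbq 5 : ℝ) = 2588190/10000000 by norm_num [tbq, tbl], abs_le]
    constructor <;> linarith
  · rw [show (((6 : ℕ) : ℝ)) = 6 by norm_num, base6]
    rw [show (tbq 6 : ℝ) = 0/10000000 by norm_num [tbq, tbl], abs_le]
    constructor <;> linarith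
  · rw [show Real.pi * (((7 : ℕ) : ℝ)) / 12 = Real.pi - Real.pi * 5 / 12 by push_cast; ring, Real.cos_pi_sub, base5]
    rw [show (tbq 7 : ℝ) = -2588190/10000000 by norm_num [tbq, tbl], abs_le]
    constructor <;> linarith
  · rw [show Real.pi * (((8 : ℕ) : ℝ)) / 12 = Real.pi - Real.pi * 4 / 12 by push_cast; ring, Real.cos_pi_sub, base4]
    rw [show (tbq 8 : ℝ) = -5000000/10000000 by norm_num [tbq, tbl], abs_le]
    constructor <;> linarith
  · rw [show Real.pi * (((9 : ℕ) : ℝ)) / 12 = Real.pi - Real.pi * 3 / 12 by push_cast; ring, Real.cos_pi_sub, base3]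
    rw [show (tbq 9 : ℝ) = -7071068/10000000 by norm_num [tbq, tbl], abs_le]
    constructor <;> linarith
  · rw [show Real.pi * (((10 : ℕ) : ℝ)) / 12 = Real.pi - Real.pi * 2 / 12 by push_cast; ring, Real.cos_pi_sub, base2]
    rw [show (tbq 10 : ℝ) = -8660254/10000000 by norm_num [tbq, tbl], abs_le]
    constructor <;> linarith
  · rw [show Real.pi * (((11 : ℕ) : ℝ)) / 12 = Real.pi - Real.pi * 1 / 12 by push_cast; ring, Real.cos_pi_sub, base1]
    rw [show (tbq 11 : ℝ) = -9659258/10000000 by norm_num [tbq, tbl], abs_le]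
    constructor <;> linarith
  · rw [show Real.pi * (((12 : ℕ) : ℝ)) / 12 = Real.pi - Real.pi * 0 / 12 by push_cast; ring, Real.cos_pi_sub, base0]
    rw [show (tbq 12 : ℝ) = -10000000/10000000 by norm_num [tbq, tbl], abs_le]
    constructor <;> linarith
  · rw [show Real.pi * (((13 : ℕ) : ℝ)) / 12 = Real.pi * 1 / 12 + Real.pi by push_cast; ring, Real.cos_add_pi, base1]
    rw [show (tbq 13 : ℝ) = -9659258/10000000 by norm_num [tbq, tbl], abs_le]
    constructor <;> linarith
  · rw [show Real.pi * (((14 : ℕ) : ℝ)) / 12 = Real.pi * 2 / 12 + Real.pi by push_cast; ring, Real.cos_add_pi, base2]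
    rw [show (tbq 14 : ℝ) = -8660254/10000000 by norm_num [tbq, tbl], abs_le]
    constructor <;> linarith
  · rw [show Real.pi * (((15 : ℕ) : ℝ)) / 12 = Real.pi * 3 / 12 + Real.pi by push_cast; ring, Real.cos_add_pi, base3]
    rw [show (tbq 15 : ℝ) = -7071068/10000000 by norm_num [tbq, tbl], abs_le]
    constructor <;> linarith
  · rw [show Real.pi * (((16 : ℕ) : ℝ)) / 12 = Real.pi * 4 / 12 + Real.pi by push_cast; ring, Real.cos_add_pi, base4]
    rw [show (tbq 16 : ℝ) = -5000000/10000000 by norm_num [tbq, tbl], abs_le]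
    constructor <;> linarith
  · rw [show Real.pi * (((17 : ℕ) : ℝ)) / 12 = Real.pi * 5 / 12 + Real.pi by push_cast; ring, Real.cos_add_pi, base5]
    rw [show (tbq 17 : ℝ) = -2588190/10000000 by norm_num [tbq, tbl], abs_le]
    constructor <;> linarith
  · rw [show Real.pi * (((18 : ℕ) : ℝ)) / 12 = Real.pi * 6 / 12 + Real.pi by push_cast; ring, Real.cos_add_pi, base6]
    rw [show (tbq 18 : ℝ) = 0/10000000 by norm_num [tbq, tbl], abs_le]
    constructor <;> linarith
  · rw [show Real.pi * (((19 : ℕ) : ℝ)) / 12 = 2 * Real.pi - Real.pi * 5 / 12 by push_cast; ring, Real.cos_two_pi_sub, base5]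
    rw [show (tbq 19 : ℝ) = 2588190/10000000 by norm_num [tbq, tbl], abs_le]
    constructor <;> linarith
  · rw [show Real.pi * (((20 : ℕ) : ℝ)) / 12 = 2 * Real.pi - Real.pi * 4 / 12 by push_cast; ring, Real.cos_two_pi_sub, base4]
    rw [show (tbq 20 : ℝ) = 5000000/10000000 by norm_num [tbq, tbl], abs_le]
    constructor <;> linarith
  · rw [show Real.pi * (((21 : ℕ) : ℝ)) / 12 = 2 * Real.pi - Real.pi * 3 / 12 by push_cast; ring, Real.cos_two_pi_sub, base3]
    rw [show (tbq 21 : ℝ) = 7071068/10000000 by norm_num [tbq, tbl], abs_le]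
    constructor <;> linarith
  · rw [show Real.pi * (((22 : ℕ) : ℝ)) / 12 = 2 * Real.pi - Real.pi * 2 / 12 by push_cast; ring, Real.cos_two_pi_sub, base2]
    rw [show (tbq 22 : ℝ) = 8660254/10000000 by norm_num [tbq, tbl], abs_le]
    constructor <;> linarith
  · rw [show Real.pi * (((23 : ℕ) : ℝ)) / 12 = 2 * Real.pi - Real.pi * 1 / 12 by push_cast; ring, Real.cos_two_pi_sub, base1]
    rw [show (tbq 23 : ℝ) = 9659258/10000000 by norm_num [tbq, tbl], abs_le]
    constructor <;> linarith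

lemma cos_tb (m : ℤ) :
    |Real.cos (Real.pi * m / 12) - (tbq (m % 24).toNat : ℝ)| ≤ 1 / 1000000 := by
  have h0 : 0 ≤ m % 24 := Int.emod_nonneg m (by norm_num)
  have h1 : m % 24 < 24 := Int.emod_lt_of_pos m (by norm_num)
  obtain ⟨n, hn⟩ := Int.eq_ofNat_of_zero_le h0
  rw [hn]
  rw [hn] at h1
  have h2 : n < 24 := by exact_mod_cast h1
  have h3 : (m : ℝ) = n + 24 * ((m / 24 : ℤ) : ℝ) := by
    have := Int.emod_add_mul_ediv m 24
    rw [hn] at this
    exact_mod_cast this.symm
  have h4 : Real.pi * m / 12 = Real.pi * n / 12 + ((m / 24 : ℤ) : ℝ) * (2 * Real.pi) := by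
    rw [h3]
    ring
  rw [h4, Real.cos_add_int_mul_two_pi]
  simpa using tb_ok n h2

lemma sin_tb (m : ℤ) :
    |Real.sin (Real.pi * m / 12) - (tbq ((m - 6) % 24).toNat : ℝ)| ≤ 1 / 1000000 := by
  have h := cos_tb (m - 6)
  have e : Real.cos (Real.pi * ((m - 6 : ℤ) : ℝ) / 12) = Real.sin (Real.pi * m / 12) := by
    rw [← Real.cos_sub_pi_div_two]
    congr 1
    push_cast
    ring
  rwa [e] at h


/-- `exp (π / 5)` -/
noncomputable def Fe : ℝ := Real.exp (Real.pi / 5)

/-- `exp (5 π / 48)` -/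
noncomputable def Ee : ℝ := Real.exp (5 * Real.pi / 48)

lemma Fe_bd : (1874456084 / 1000000000 : ℝ) ≤ Fe ∧ Fe ≤ 1874456092 / 1000000000 := by
  have p1 := Real.pi_gt_d20
  have p2 := Real.pi_lt_d20
  unfold Fe
  constructor
  · have h1 : Real.exp (62831853/100000000) ≤ Real.exp (Real.pi / 5) := by
      apply Real.exp_le_exp.mpr
      linarith
    have h2 := Real.sum_le_exp_of_nonneg (x := 62831853/100000000) (by norm_num) 12
    have h3 : (1874456084 / 1000000000 : ℝ) ≤ ∑ i ∈ range 12, (62831853/100000000 : ℝ) ^ i / (i.factorial) := by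
      norm_num [Finset.sum_range_succ, Nat.factorial]
    linarith
  · have h1 : Real.exp (Real.pi / 5) ≤ Real.exp (628318531/1000000000) := by
      apply Real.exp_le_exp.mpr
      linarith
    have h2 := Real.exp_bound' (x := 628318531/1000000000) (by norm_num) (by norm_num) (n := 12) (by norm_num)
    have h3 : ∑ i ∈ range 12, (628318531/1000000000 : ℝ) ^ i / (i.factorial) + (628318531/1000000000 : ℝ) ^ 12 *
        (((12 : ℕ) : ℝ) + 1) / (((12 : ℕ).factorial : ℝ) * ((12 : ℕ) : ℝ)) ≤ 1874456092 / 1000000000 := by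
      norm_num [Finset.sum_range_succ, Nat.factorial]
    linarith

lemma Ee_bd : (1387147155 / 1000000000 : ℝ) ≤ Ee ∧ Ee ≤ 1387147164 / 1000000000 := by
  have p1 := Real.pi_gt_d20
  have p2 := Real.pi_lt_d20
  unfold Ee
  constructor
  · have h1 : Real.exp (163624617/500000000) ≤ Real.exp (5 * Real.pi / 48) := by
      apply Real.exp_le_exp.mpr
      linarith
    have h2 := Real.sum_le_exp_of_nonneg (x := 163624617/500000000) (by norm_num) 10
    have h3 : (1387147155 / 1000000000 : ℝ) ≤ ∑ i ∈ range 10, (163624617/500000000 : ℝ) ^ i / (i.factorial) := by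
      norm_num [Finset.sum_range_succ, Nat.factorial]
    linarith
  · have h1 : Real.exp (5 * Real.pi / 48) ≤ Real.exp (65449847/200000000) := by
      apply Real.exp_le_exp.mpr
      linarith
    have h2 := Real.exp_bound' (x := 65449847/200000000) (by norm_num) (by norm_num) (n := 10) (by norm_num)
    have h3 : ∑ i ∈ range 10, (65449847/200000000 : ℝ) ^ i / (i.factorial) + (65449847/200000000 : ℝ) ^ 10 *
        (((10 : ℕ) : ℝ) + 1) / (((10 : ℕ).factorial : ℝ) * ((10 : ℕ) : ℝ)) ≤ 1387147164 / 1000000000 := by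
      norm_num [Finset.sum_range_succ, Nat.factorial]
    linarith


lemma cosh_eq (j : ℕ) : Real.cosh (2 * Real.pi * ((j : ℝ) / 5))
    = (Fe ^ (2 * j) + (Fe ^ (2 * j))⁻¹) / 2 := by
  rw [Real.cosh_eq]
  have h1 : Real.exp (2 * Real.pi * ((j : ℝ) / 5)) = Fe ^ (2 * j) := by
    unfold Fe
    rw [← Real.exp_nat_mul]
    congr 1
    push_cast
    ring
  rw [Real.exp_neg, h1]

lemma ga_ok_gen (hN : StmtGn) (j : ℕ) (hj : j < 8) (cl cu m e g a b : ℝ) (ha : 0 < a)
    (ha1 : a ≤ (1874456084 / 1000000000) ^ (2 * j)) (hb1 : (1874456092 / 1000000000) ^ (2 * j) ≤ b)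
    (hcl : 0 < cl) (h1 : cl ≤ (a + 1 / b) / 2) (h2 : (b + 1 / a) / 2 ≤ cu) (hg : gt j = g)
    (hg0 : 3 / 100000 ≤ g) (hlo : (m - e) * cu ≤ (g - 3 / 100000) ^ 2)
    (hhi : (g + 3 / 100000) ^ 2 ≤ (m + e) * cl) : |ga ((j : ℝ) / 5) - m| ≤ e := by
  obtain ⟨f1, f2⟩ := Fe_bd
  have f0 : 0 < Fe := Real.exp_pos _
  have hA : a ≤ Fe ^ (2 * j) := ha1.trans (pow_le_pow_left₀ (by norm_num) f1 _)
  have hB : Fe ^ (2 * j) ≤ b := (pow_le_pow_left₀ f0.le f2 _).trans hb1
  have hF : 0 < Fe ^ (2 * j) := pow_pos f0 _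
  have hbpos : 0 < b := lt_of_lt_of_le hF hB
  have hc1 : cl ≤ Real.cosh (2 * Real.pi * ((j : ℝ) / 5)) := by
    rw [cosh_eq]
    have : 1 / b ≤ (Fe ^ (2 * j))⁻¹ := by
      rw [← one_div]; exact one_div_le_one_div_of_le hF hB
    linarith
  have hc2 : Real.cosh (2 * Real.pi * ((j : ℝ) / 5)) ≤ cu := by
    rw [cosh_eq]
    have : (Fe ^ (2 * j))⁻¹ ≤ 1 / a := by
      rw [← one_div]; exact one_div_le_one_div_of_le ha hA
    linarith
  have hcpos : 0 < Real.cosh (2 * Real.pi * ((j : ℝ) / 5)) := Real.cosh_pos _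
  have hn := hN j hj
  rw [hg] at hn
  obtain ⟨n1, n2⟩ := abs_le.mp hn
  set s : ℝ := G (3 / 4) ((j : ℝ) / 5) ^ 2 with hs
  have hgs : ga ((j : ℝ) / 5) = s ^ 2 / Real.cosh (2 * Real.pi * ((j : ℝ) / 5)) := by
    unfold ga
    rw [hs]
    ring
  have hs1 : (g - 3 / 100000) ^ 2 ≤ s ^ 2 := pow_le_pow_left₀ (by linarith) (by linarith) 2
  have hs2 : s ^ 2 ≤ (g + 3 / 100000) ^ 2 := by
    apply pow_le_pow_left₀ _ (by linarith)
    rw [hs]; positivity
  rw [hgs, abs_le]
  constructor
  · have : m - e ≤ s ^ 2 / Real.cosh (2 * Real.pi * ((j : ℝ) / 5)) := by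
      rw [le_div_iff₀ hcpos]
      rcases le_total 0 (m - e) with h | h
      · nlinarith
      · nlinarith [sq_nonneg s]
    linarith
  · have hme : 0 ≤ m + e := by
      by_contra hc
      push Not at hc
      nlinarith [sq_nonneg (g + 3 / 100000)]
    have : s ^ 2 / Real.cosh (2 * Real.pi * ((j : ℝ) / 5)) ≤ m + e := by
      rw [div_le_iff₀ hcpos]
      nlinarith
    linarith

lemma ga_ok (hN : StmtGn) (j : ℕ) (hj : j < 8) :
    |ga ((j : ℝ) / 5) - (mq j : ℝ)| ≤ (er j : ℝ) := by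
  interval_cases j
  · rw [show ((mq 0 : ℚ) : ℝ) = 112746979/50000000 by norm_num [mq], show ((er 0 : ℚ) : ℝ) = 91229/1000000000 by norm_num [er]]
    exact ga_ok_gen hN 0 (by norm_num) (1) (1000001/1000000) (112746979/50000000) (91229/1000000000) (750823/500000) (1) (1)
      (by norm_num) (by norm_num) (by norm_num) (by norm_num) (by norm_num) (by norm_num) (by norm_num [gt]) (by norm_num)
      (by norm_num) (by norm_num)
  · rw [show ((mq 1 : ℚ) : ℝ) = 3043081/3125000 by norm_num [mq], show ((er 1 : ℚ) : ℝ) = 5403/125000000 by norm_num [er]]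
    exact ga_ok_gen hN 1 (by norm_num) (1899097/1000000) (949549/500000) (3043081/3125000) (5403/125000000) (271979/200000) (2195991/625000) (35135857/10000000)
      (by norm_num) (by norm_num) (by norm_num) (by norm_num) (by norm_num) (by norm_num) (by norm_num [gt]) (by norm_num)
      (by norm_num) (by norm_num)
  · rw [show ((mq 2 : ℚ) : ℝ) = 2160493/12500000 by norm_num [mq], show ((er 2 : ℚ) : ℝ) = 5011/500000000 by norm_num [er]]
    exact ga_ok_gen hN 2 (by norm_num) (6213143/1000000) (776643/125000) (2160493/12500000) (5011/500000000) (25907/25000) (61726419/5000000) (123452841/10000000)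
      (by norm_num) (by norm_num) (by norm_num) (by norm_num) (by norm_num) (by norm_num) (by norm_num [gt]) (by norm_num)
      (by norm_num) (by norm_num)
  · rw [show ((mq 3 : ℚ) : ℝ) = 283149/12500000 by norm_num [mq], show ((er 3 : ℚ) : ℝ) = 1943/1000000000 by norm_num [er]]
    exact ga_ok_gen hN 3 (by norm_num) (1356227/62500) (10849817/500000) (283149/12500000) (1943/1000000000) (350549/500000) (108440529/2500000) (27110133/625000)
      (by norm_num) (by norm_num) (by norm_num) (by norm_num) (by norm_num) (by norm_num) (by norm_num [gt]) (by norm_num)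
      (by norm_num) (by norm_num)
  · rw [show ((mq 4 : ℚ) : ℝ) = 799/312500 by norm_num [mq], show ((er 4 : ℚ) : ℝ) = 11/31250000 by norm_num [er]]
    exact ga_ok_gen hN 4 (by norm_num) (76206297/1000000) (762063/10000) (799/312500) (11/31250000) (110353/250000) (381015083/2500000) (304812077/2000000)
      (by norm_num) (by norm_num) (by norm_num) (by norm_num) (by norm_num) (by norm_num) (by norm_num [gt]) (by norm_num)
      (by norm_num) (by norm_num)
  · rw [show ((mq 5 : ℚ) : ℝ) = 26509/100000000 by norm_num [mq], show ((er 5 : ℚ) : ℝ) = 31/500000000 by norm_num [er]]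
    exact ga_ok_gen hN 5 (by norm_num) (66936689/250000) (16734173/62500) (26509/100000000) (31/500000000) (133207/500000) (1338729113/2500000) (2677458341/5000000)
      (by norm_num) (by norm_num) (by norm_num) (by norm_num) (by norm_num) (by norm_num) (by norm_num [gt]) (by norm_num)
      (by norm_num) (by norm_num)
  · rw [show ((mq 6 : ℚ) : ℝ) = 261/10000000 by norm_num [mq], show ((er 6 : ℚ) : ℝ) = 3/250000000 by norm_num [er]]
    exact ga_ok_gen hN 6 (by norm_num) (188149627/200000) (117593523/125000) (261/10000000) (3/250000000) (156699/1000000) (3762991479/2000000) (470373959/250000)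
      (by norm_num) (by norm_num) (by norm_num) (by norm_num) (by norm_num) (by norm_num) (by norm_num [gt]) (by norm_num)
      (by norm_num) (by norm_num)
  · rw [show ((mq 7 : ℚ) : ℝ) = 31/12500000 by norm_num [mq], show ((er 7 : ℚ) : ℝ) = 7/1000000000 by norm_num [er]]
    exact ga_ok_gen hN 7 (by norm_num) (1652699127/500000) (826349613/250000) (31/12500000) (7/1000000000) (90629/1000000) (33053981787/5000000) (2644318701/400000)
      (by norm_num) (by norm_num) (by norm_num) (by norm_num) (by norm_num) (by norm_num) (by norm_num [gt]) (by norm_num)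
      (by norm_num) (by norm_num)

lemma term_low (g m e c s ca sa w : ℝ) (hw : 0 ≤ w) (hm : 0 ≤ m) (hg : |g - m| ≤ e)
    (hc : |c - ca| ≤ 1 / 1000000) (hs : |s - sa| ≤ 1 / 1000000) (hc1 : |c| ≤ 1) (hs1 : |s| ≤ 1) :
    m * (ca - w * sa) - (e + 1 / 1000000 * m) * (1 + w) ≤ g * (c - w * s) := by
  obtain ⟨c1, c2⟩ := abs_le.mp hc
  obtain ⟨s1, s2⟩ := abs_le.mp hs
  obtain ⟨c3, c4⟩ := abs_le.mp hc1
  obtain ⟨s3, s4⟩ := abs_le.mp hs1
  have h1 : ca - w * sa - 1 / 1000000 * (1 + w) ≤ c - w * s := by nlinarith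
  have h2 : |c - w * s| ≤ 1 + w := by
    rw [abs_le]
    constructor <;> nlinarith
  have h3 : -(e * (1 + w)) ≤ (g - m) * (c - w * s) := by
    have : |(g - m) * (c - w * s)| ≤ e * (1 + w) := by
      rw [abs_mul]
      exact mul_le_mul hg h2 (abs_nonneg _) ((abs_nonneg _).trans hg)
    exact (abs_le.mp this).1
  have h4 := mul_le_mul_of_nonneg_left h1 hm
  nlinarith

lemma mq_nonneg (j : ℕ) (hj : j < 8) : 0 ≤ mq j := by
  interval_cases j <;> norm_num [mq]

theorem SS_low (hN : StmtGn) (k : ℤ) : ((SlowQ k : ℚ) : ℝ) ≤ SS (5 * Real.pi * k / 12) := by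
  unfold SlowQ SS
  push_cast
  apply add_le_add
  · have h := ga_ok hN 0 (by norm_num)
    rw [Nat.cast_zero, zero_div] at h
    have := (abs_le.mp h).1
    linarith
  · apply Finset.sum_le_sum
    intro j hj
    have hj7 : j < 7 := Finset.mem_range.mp hj
    have hg := ga_ok hN (j + 1) (by omega)
    have hm := mq_nonneg (j + 1) (by omega)
    have hm' : (0 : ℝ) ≤ (mq (j + 1) : ℝ) := by exact_mod_cast hm
    have hc := cos_tb (k * (j + 1))
    have hs := sin_tb (k * (j + 1))
    have e1 : Real.pi * ((k * ((j : ℤ) + 1) : ℤ) : ℝ) / 12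
        = 5 * Real.pi * k / 12 * (((j : ℝ) + 1) / 5) := by
      push_cast
      ring
    rw [e1] at hc hs
    rw [Nat.cast_add, Nat.cast_one] at hg
    have key := term_low (ga (((j : ℝ) + 1) / 5)) (mq (j + 1)) (er (j + 1))
      (Real.cos (5 * Real.pi * k / 12 * (((j : ℝ) + 1) / 5)))
      (Real.sin (5 * Real.pi * k / 12 * (((j : ℝ) + 1) / 5)))
      (tbq ((k * (j + 1)) % 24).toNat) (tbq ((k * (j + 1) - 6) % 24).toNat)
      (4 * (((j : ℝ) + 1) / 5)) (by positivity) hm' hg hc hs (Real.abs_cos_le_one _)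
      (Real.abs_sin_le_one _)
    exact key

/-- final assembly of the numerical bounds -/
lemma final_bd (hG : StmtG) (hN : StmtGn) (hP : StmtPS) (hV : StmtVV) (k : ℤ) (sk : ℚ)
    (b el e2 : ℝ) (hsk : sk ≤ SlowQ k) (hsk0 : 5 / 100000 ≤ sk)
    (hel0 : 0 ≤ el) (hel : el ≤ Real.exp (-(5 * Real.pi * k / 48)))
    (he2 : Real.exp (-(5 * Real.pi * k / 16)) ≤ e2)
    (hfin : b ≤ 24805 / 1000 * el * ((sk : ℝ) - 5 / 100000) - 1514 / 10000
      - 1200 * e2 / 6600000) :
    b ≤ 2 * vv (5 * Real.pi * k / 12) * Real.exp (-(5 * Real.pi * k / 48)) := by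
  have h1 := vv_lower hG hN hP hV (5 * Real.pi * k / 12)
  have h2 := SS_low hN k
  have h3 : (sk : ℝ) ≤ ((SlowQ k : ℚ) : ℝ) := by exact_mod_cast hsk
  have h4 : (5 / 100000 : ℝ) ≤ (sk : ℝ) := by
    have : ((5 / 100000 : ℚ) : ℝ) ≤ (sk : ℝ) := by exact_mod_cast hsk0
    push_cast at this
    linarith
  set u : ℝ := Real.exp (-(5 * Real.pi * k / 48)) with hu
  have hu0 : 0 < u := Real.exp_pos _
  have p1 := Real.pi_gt_d20
  have p2 := Real.pi_lt_d20
  obtain ⟨g1, g2⟩ := Ee_bd
  have E24 : Real.exp (5 * Real.pi / 2) = Ee ^ 24 := by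
    unfold Ee
    rw [← Real.exp_nat_mul]
    congr 1
    push_cast
    ring
  have E48 : Real.exp (5 * Real.pi) = Ee ^ 48 := by
    unfold Ee
    rw [← Real.exp_nat_mul]
    congr 1
    push_cast
    ring
  have a1 : (2575 : ℝ) ≤ Ee ^ 24 := by
    have : (1387147155 / 1000000000 : ℝ) ^ 24 ≤ Ee ^ 24 := pow_le_pow_left₀ (by norm_num) g1 24
    refine le_trans ?_ this
    norm_num
  have a2 : (6600001 : ℝ) ≤ Ee ^ 48 := by
    have : (1387147155 / 1000000000 : ℝ) ^ 48 ≤ Ee ^ 48 := pow_le_pow_left₀ (by norm_num) g1 48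
    refine le_trans ?_ this
    norm_num
  rw [E24, E48] at h1
  have hp3 : (24805 / 1000 : ℝ) ≤ 4 * Real.pi ^ 3 / 5 := by
    have : (3.14159265358979323846 : ℝ) ^ 3 ≤ Real.pi ^ 3 := pow_le_pow_left₀ (by norm_num) p1.le 3
    have h : (24805 / 1000 : ℝ) ≤ 4 * (3.14159265358979323846 : ℝ) ^ 3 / 5 := by norm_num
    linarith
  have hp4 : 4 * Real.pi ^ 4 ≤ 38965 / 100 := by
    have : Real.pi ^ 4 ≤ (3.14159265358979323847 : ℝ) ^ 4 :=
      pow_le_pow_left₀ Real.pi_pos.le p2.le 4
    have h : 4 * (3.14159265358979323847 : ℝ) ^ 4 ≤ 38965 / 100 := by norm_num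
    linarith
  -- multiply by `2 u`
  have m1 : Real.exp (-(5 * Real.pi * k / 12 / 2)) * u = Real.exp (-(5 * Real.pi * k / 16)) := by
    rw [hu, ← Real.exp_add]
    congr 1
    ring
  have m2 : Real.exp (5 * Real.pi * k / 12 / 4) * u = 1 := by
    rw [hu, ← Real.exp_add, ← Real.exp_zero]
    congr 1
    ring
  have t1 : 600 * Real.exp (-(5 * Real.pi * k / 12 / 2)) / (Ee ^ 48 - 1) * (2 * u)
      ≤ 1200 * e2 / 6600000 := by
    have e : 600 * Real.exp (-(5 * Real.pi * k / 12 / 2)) / (Ee ^ 48 - 1) * (2 * u)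
        = 1200 * Real.exp (-(5 * Real.pi * k / 16)) / (Ee ^ 48 - 1) := by
      rw [← m1]
      ring
    rw [e]
    apply div_le_div₀
    · have := Real.exp_pos (-(5 * Real.pi * k / 16))
      nlinarith
    · linarith
    · norm_num
    · linarith
  have t2 : 2 * Real.pi ^ 4 * Real.exp (5 * Real.pi * k / 12 / 4) / (Ee ^ 24 - 1) * (2 * u)
      ≤ 1514 / 10000 := by
    have e : 2 * Real.pi ^ 4 * Real.exp (5 * Real.pi * k / 12 / 4) / (Ee ^ 24 - 1) * (2 * u)
        = 4 * Real.pi ^ 4 / (Ee ^ 24 - 1) := by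
      have : 4 * Real.pi ^ 4 / (Ee ^ 24 - 1)
        = 4 * Real.pi ^ 4 * (Real.exp (5 * Real.pi * k / 12 / 4) * u) / (Ee ^ 24 - 1) := by
        rw [m2, mul_one]
      rw [this]
      ring
    rw [e, div_le_iff₀ (by linarith)]
    linarith
  have t3 : 24805 / 1000 * el * ((sk : ℝ) - 5 / 100000)
      ≤ 2 * Real.pi ^ 3 / 5 * (SS (5 * Real.pi * k / 12) - 5 / 100000) * (2 * u) := by
    have e : 2 * Real.pi ^ 3 / 5 * (SS (5 * Real.pi * k / 12) - 5 / 100000) * (2 * u)
        = 4 * Real.pi ^ 3 / 5 * u * (SS (5 * Real.pi * k / 12) - 5 / 100000) := by ring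
    rw [e]
    apply mul_le_mul
    · exact mul_le_mul hp3 hel hel0 (by positivity)
    · linarith
    · linarith
    · positivity
  have h5 := mul_le_mul_of_nonneg_right h1 (by positivity : (0 : ℝ) ≤ 2 * u)
  rw [add_mul, add_mul] at h5
  linarith

lemma Ee_pow (n : ℕ) : Real.exp (n * (5 * Real.pi / 48)) = Ee ^ n := by
  unfold Ee
  rw [← Real.exp_nat_mul]

end VnAux

open VnAux in
/-- (Vn) -/
theorem vn (hG : StmtG) (hN : StmtGn) (hP : StmtPS) (hV : StmtVV) : StmtVn := by
  obtain ⟨g1, g2⟩ := Ee_bd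
  have g0 : 0 < Ee := Real.exp_pos _
  intro k b h
  simp only [List.mem_cons, List.not_mem_nil, or_false, Prod.mk.injEq] at h
  rcases h with ⟨rfl, rfl⟩ | ⟨rfl, rfl⟩ | ⟨rfl, rfl⟩ | ⟨rfl, rfl⟩ | ⟨rfl, rfl⟩ | ⟨rfl, rfl⟩ | ⟨rfl, rfl⟩ | ⟨rfl, rfl⟩ | ⟨rfl, rfl⟩ | ⟨rfl, rfl⟩ | ⟨rfl, rfl⟩
  · refine final_bd hG hN hP hV (-8) (1016607/1000000) _ (2741639/200000) (2575971/1000) (by decide +kernel) (by norm_num) (by norm_num)
      ?_ ?_ (by norm_num)
    · have e : Real.exp (-(5 * Real.pi * ((-8 : ℤ) : ℝ) / 48)) = Ee ^ 8 := by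
        rw [← Ee_pow]; congr 1; push_cast; ring
      rw [e]
      refine le_trans ?_ (pow_le_pow_left₀ (by norm_num) g1 8)
      norm_num
    · have e : Real.exp (-(5 * Real.pi * ((-8 : ℤ) : ℝ) / 16)) = Ee ^ 24 := by
        rw [← Ee_pow]; congr 1; push_cast; ring
      rw [e]
      refine (pow_le_pow_left₀ g0.le g2 24).trans ?_
      norm_num
  · refine final_bd hG hN hP hV (-7) (1325643/1000000) _ (9882293/1000000) (965103/1000) (by decide +kernel) (by norm_num) (by norm_num)
      ?_ ?_ (by norm_num)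
    · have e : Real.exp (-(5 * Real.pi * ((-7 : ℤ) : ℝ) / 48)) = Ee ^ 7 := by
        rw [← Ee_pow]; congr 1; push_cast; ring
      rw [e]
      refine le_trans ?_ (pow_le_pow_left₀ (by norm_num) g1 7)
      norm_num
    · have e : Real.exp (-(5 * Real.pi * ((-7 : ℤ) : ℝ) / 16)) = Ee ^ 21 := by
        rw [← Ee_pow]; congr 1; push_cast; ring
      rw [e]
      refine (pow_le_pow_left₀ g0.le g2 21).trans ?_
      norm_num
  · refine final_bd hG hN hP hV (-6) (1682711/1000000) _ (1424837/200000) (180791/500) (by decide +kernel) (by norm_num) (by norm_num)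
      ?_ ?_ (by norm_num)
    · have e : Real.exp (-(5 * Real.pi * ((-6 : ℤ) : ℝ) / 48)) = Ee ^ 6 := by
        rw [← Ee_pow]; congr 1; push_cast; ring
      rw [e]
      refine le_trans ?_ (pow_le_pow_left₀ (by norm_num) g1 6)
      norm_num
    · have e : Real.exp (-(5 * Real.pi * ((-6 : ℤ) : ℝ) / 16)) = Ee ^ 18 := by
        rw [← Ee_pow]; congr 1; push_cast; ring
      rw [e]
      refine (pow_le_pow_left₀ g0.le g2 18).trans ?_
      norm_num
  · refine final_bd hG hN hP hV (-5) (1030403/500000) _ (2567927/500000) (135469/1000) (by decide +kernel) (by norm_num) (by norm_num)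
      ?_ ?_ (by norm_num)
    · have e : Real.exp (-(5 * Real.pi * ((-5 : ℤ) : ℝ) / 48)) = Ee ^ 5 := by
        rw [← Ee_pow]; congr 1; push_cast; ring
      rw [e]
      refine le_trans ?_ (pow_le_pow_left₀ (by norm_num) g1 5)
      norm_num
    · have e : Real.exp (-(5 * Real.pi * ((-5 : ℤ) : ℝ) / 16)) = Ee ^ 15 := by
        rw [← Ee_pow]; congr 1; push_cast; ring
      rw [e]
      refine (pow_le_pow_left₀ g0.le g2 15).trans ?_
      norm_num
  · refine final_bd hG hN hP hV (-4) (602543/250000) _ (1851229/500000) (10151/200) (by decide +kernel) (by norm_num) (by norm_num)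
      ?_ ?_ (by norm_num)
    · have e : Real.exp (-(5 * Real.pi * ((-4 : ℤ) : ℝ) / 48)) = Ee ^ 4 := by
        rw [← Ee_pow]; congr 1; push_cast; ring
      rw [e]
      refine le_trans ?_ (pow_le_pow_left₀ (by norm_num) g1 4)
      norm_num
    · have e : Real.exp (-(5 * Real.pi * ((-4 : ℤ) : ℝ) / 16)) = Ee ^ 12 := by
        rw [← Ee_pow]; congr 1; push_cast; ring
      rw [e]
      refine (pow_le_pow_left₀ g0.le g2 12).trans ?_
      norm_num
  · refine final_bd hG hN hP hV (-3) (665519/250000) _ (667279/250000) (2377/125) (by decide +kernel) (by norm_num) (by norm_num)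
      ?_ ?_ (by norm_num)
    · have e : Real.exp (-(5 * Real.pi * ((-3 : ℤ) : ℝ) / 48)) = Ee ^ 3 := by
        rw [← Ee_pow]; congr 1; push_cast; ring
      rw [e]
      refine le_trans ?_ (pow_le_pow_left₀ (by norm_num) g1 3)
      norm_num
    · have e : Real.exp (-(5 * Real.pi * ((-3 : ℤ) : ℝ) / 16)) = Ee ^ 9 := by
        rw [← Ee_pow]; congr 1; push_cast; ring
      rw [e]
      refine (pow_le_pow_left₀ g0.le g2 9).trans ?_
      norm_num
  · refine final_bd hG hN hP hV (-2) (2746497/1000000) _ (1924177/1000000) (57/8) (by decide +kernel) (by norm_num) (by norm_num)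
      ?_ ?_ (by norm_num)
    · have e : Real.exp (-(5 * Real.pi * ((-2 : ℤ) : ℝ) / 48)) = Ee ^ 2 := by
        rw [← Ee_pow]; congr 1; push_cast; ring
      rw [e]
      refine le_trans ?_ (pow_le_pow_left₀ (by norm_num) g1 2)
      norm_num
    · have e : Real.exp (-(5 * Real.pi * ((-2 : ℤ) : ℝ) / 16)) = Ee ^ 6 := by
        rw [← Ee_pow]; congr 1; push_cast; ring
      rw [e]
      refine (pow_le_pow_left₀ g0.le g2 6).trans ?_
      norm_num
  · refine final_bd hG hN hP hV (-1) (52431/20000) _ (1387147/1000000) (267/100) (by decide +kernel) (by norm_num) (by norm_num)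
      ?_ ?_ (by norm_num)
    · have e : Real.exp (-(5 * Real.pi * ((-1 : ℤ) : ℝ) / 48)) = Ee ^ 1 := by
        rw [← Ee_pow]; congr 1; push_cast; ring
      rw [e]
      refine le_trans ?_ (pow_le_pow_left₀ (by norm_num) g1 1)
      norm_num
    · have e : Real.exp (-(5 * Real.pi * ((-1 : ℤ) : ℝ) / 16)) = Ee ^ 3 := by
        rw [← Ee_pow]; congr 1; push_cast; ring
      rw [e]
      refine (pow_le_pow_left₀ g0.le g2 3).trans ?_
      norm_num
  · refine final_bd hG hN hP hV (0) (2299437/1000000) _ (1) (1) (by decide +kernel) (by norm_num) (by norm_num)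
      ?_ ?_ (by norm_num)
    · have e : Real.exp (-(5 * Real.pi * ((0 : ℤ) : ℝ) / 48)) = Ee ^ 0 := by
        rw [← Ee_pow]; congr 1; push_cast; ring
      rw [e]
      refine le_trans ?_ (pow_le_pow_left₀ (by norm_num) g1 0)
      norm_num
    · have e : Real.exp (-(5 * Real.pi * ((0 : ℤ) : ℝ) / 16)) = Ee ^ 0 := by
        rw [← Ee_pow]; congr 1; push_cast; ring
      rw [e]
      refine (pow_le_pow_left₀ g0.le g2 0).trans ?_
      norm_num
  · refine final_bd hG hN hP hV (4) (149463/250000) _ (675227/2500000) 1 (by decide +kernel) (by norm_num) (by norm_num)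
      ?_ ?_ (by norm_num)
    · have e : Real.exp (-(5 * Real.pi * ((4 : ℤ) : ℝ) / 48)) = (Ee ^ 4)⁻¹ := by
        rw [← Ee_pow, ← Real.exp_neg]; congr 1; push_cast; ring
      rw [e]
      refine le_trans ?_ (inv_anti₀ (pow_pos g0 _) (pow_le_pow_left₀ g0.le g2 4))
      norm_num
    · rw [Real.exp_le_one_iff]
      have := Real.pi_pos
      push_cast
      linarith
  · refine final_bd hG hN hP hV (5) (369543/1000000) _ (389419/2000000) 1 (by decide +kernel) (by norm_num) (by norm_num)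
      ?_ ?_ (by norm_num)
    · have e : Real.exp (-(5 * Real.pi * ((5 : ℤ) : ℝ) / 48)) = (Ee ^ 5)⁻¹ := by
        rw [← Ee_pow, ← Real.exp_neg]; congr 1; push_cast; ring
      rw [e]
      refine le_trans ?_ (inv_anti₀ (pow_pos g0 _) (pow_le_pow_left₀ g0.le g2 5))
      norm_num
    · rw [Real.exp_le_one_iff]
      have := Real.pi_pos
      push_cast
      linarith

end Pool.Agent.Lib.MP_dd244f_an.Rq
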