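import Pool.Agent.Lib.MP_dd244f_an.Rq.Stmts
import Pool.Agent.Lib.MP_dd244f_an.Rp.Poi

/-!
(Wh): calculus and positivity of the Fourier transform of the weight `|Γ(3/4 + i y)| ^ 8`.
-/

set_option autoImplicit false

namespace Pool.Agent.Lib.MP_dd244f_an.Rq

open MeasureTheory Filter Topology

namespace WhAux

/-! ### Generic calculus of cosine and sine transforms -/

lemma int_mul_bdd {h k : ℝ → ℝ} (hh : Integrable h) (hk : Continuous k) (hb : ∀ y, |k y| ≤ 1) :
    Integrable (fun y => h y * k y) := by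
  refine hh.norm.mono' (hh.aestronglyMeasurable.mul hk.aestronglyMeasurable) ?_
  refine Eventually.of_forall fun y => ?_
  rw [norm_mul]
  calc ‖h y‖ * ‖k y‖ ≤ ‖h y‖ * 1 := by
        apply mul_le_mul_of_nonneg_left _ (norm_nonneg _)
        rw [Real.norm_eq_abs]; exact hb y
    _ = ‖h y‖ := mul_one _

lemma deriv_cos {h : ℝ → ℝ} (h0 : Integrable h) (h1 : Integrable (fun y => y * h y)) (X : ℝ) :
    HasDerivAt (fun X : ℝ => ∫ y : ℝ, h y * Real.cos (X * y))
      (-∫ y : ℝ, y * h y * Real.sin (X * y)) X := by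
  have key := hasDerivAt_integral_of_dominated_loc_of_deriv_le (μ := (volume : Measure ℝ))
    (F := fun X y : ℝ => h y * Real.cos (X * y))
    (F' := fun X y : ℝ => -(y * h y * Real.sin (X * y))) (x₀ := X)
    (s := Set.univ) (bound := fun y => ‖y * h y‖) Filter.univ_mem ?_ ?_ ?_ ?_ ?_ ?_
  · have := key.2
    rw [integral_neg] at this
    exact this
  · exact Eventually.of_forall fun Y => (int_mul_bdd h0 (by fun_prop)
      (fun y => Real.abs_cos_le_one _)).aestronglyMeasurable
  · exact int_mul_bdd h0 (by fun_prop) (fun y => Real.abs_cos_le_one _)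
  · exact (int_mul_bdd h1 (by fun_prop) (fun y => Real.abs_sin_le_one _)).neg.aestronglyMeasurable
  · refine Eventually.of_forall fun y Y _ => ?_
    rw [norm_neg, norm_mul]
    calc ‖y * h y‖ * ‖Real.sin (Y * y)‖ ≤ ‖y * h y‖ * 1 := by
          apply mul_le_mul_of_nonneg_left _ (norm_nonneg _)
          rw [Real.norm_eq_abs]; exact Real.abs_sin_le_one _
      _ = ‖y * h y‖ := mul_one _
  · exact h1.norm
  · refine Eventually.of_forall fun y Y _ => ?_
    have e : HasDerivAt (fun X : ℝ => X * y) y Y := by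
      simpa using (hasDerivAt_id Y).mul_const y
    exact ((e.cos).const_mul (h y)).congr_deriv (by ring)

lemma deriv_sin {h : ℝ → ℝ} (h0 : Integrable h) (h1 : Integrable (fun y => y * h y)) (X : ℝ) :
    HasDerivAt (fun X : ℝ => ∫ y : ℝ, h y * Real.sin (X * y))
      (∫ y : ℝ, y * h y * Real.cos (X * y)) X := by
  have key := hasDerivAt_integral_of_dominated_loc_of_deriv_le (μ := (volume : Measure ℝ))
    (F := fun X y : ℝ => h y * Real.sin (X * y))
    (F' := fun X y : ℝ => y * h y * Real.cos (X * y)) (x₀ := X)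
    (s := Set.univ) (bound := fun y => ‖y * h y‖) Filter.univ_mem ?_ ?_ ?_ ?_ ?_ ?_
  · exact key.2
  · exact Eventually.of_forall fun Y => (int_mul_bdd h0 (by fun_prop)
      (fun y => Real.abs_sin_le_one _)).aestronglyMeasurable
  · exact int_mul_bdd h0 (by fun_prop) (fun y => Real.abs_sin_le_one _)
  · exact (int_mul_bdd h1 (by fun_prop) (fun y => Real.abs_cos_le_one _)).aestronglyMeasurable
  · refine Eventually.of_forall fun y Y _ => ?_
    rw [norm_mul]
    calc ‖y * h y‖ * ‖Real.cos (Y * y)‖ ≤ ‖y * h y‖ * 1 := by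
          apply mul_le_mul_of_nonneg_left _ (norm_nonneg _)
          rw [Real.norm_eq_abs]; exact Real.abs_cos_le_one _
      _ = ‖y * h y‖ := mul_one _
  · exact h1.norm
  · refine Eventually.of_forall fun y Y _ => ?_
    have e : HasDerivAt (fun X : ℝ => X * y) y Y := by
      simpa using (hasDerivAt_id Y).mul_const y
    exact ((e.sin).const_mul (h y)).congr_deriv (by ring)

/-! ### Positivity -/

lemma gauss_nonneg {ε : ℝ} (hε : 0 < ε) (t : ℝ) :
    0 ≤ (∫ y : ℝ, Complex.exp (Complex.I * t * y) * Complex.exp (-(ε : ℂ) * y ^ 2)).re := by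
  rw [fourierIntegral_gaussian (by simpa using hε)]
  have e1 : ((Real.pi : ℂ) / (ε : ℂ)) ^ (1 / 2 : ℂ) = (((Real.pi / ε) ^ (1 / 2 : ℝ) : ℝ) : ℂ) := by
    rw [Complex.ofReal_cpow (by positivity)]
    push_cast
    ring_nf
  have e2 : Complex.exp (-(t : ℂ) ^ 2 / (4 * ε)) = ((Real.exp (-t ^ 2 / (4 * ε)) : ℝ) : ℂ) := by
    push_cast
    ring_nf
  rw [e1, e2, ← Complex.ofReal_mul, Complex.ofReal_re]
  positivity

lemma gauss_int {ε : ℝ} (hε : 0 < ε) : Integrable (fun y : ℝ => Real.exp (-ε * y ^ 2)) :=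
  integrable_exp_neg_mul_sq hε

/-- the Fourier transform of a characteristic function is nonnegative, regularised form -/
lemma reg_nonneg (μ : Measure ℝ) [IsFiniteMeasure μ] {ε : ℝ} (hε : 0 < ε) (X : ℝ) :
    0 ≤ (∫ y : ℝ, charFun μ y * (Complex.exp (Complex.I * X * y) *
      Complex.exp (-(ε : ℂ) * y ^ 2))).re := by
  have hF : Integrable (Function.uncurry fun (y x : ℝ) =>
      Complex.exp (Complex.I * (x + X : ℝ) * y) * Complex.exp (-(ε : ℂ) * y ^ 2))
      ((volume : Measure ℝ).prod μ) := by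
    have h1 : Integrable (fun z : ℝ × ℝ => Real.exp (-ε * z.1 ^ 2) * (1 : ℝ))
        ((volume : Measure ℝ).prod μ) :=
      (gauss_int hε).mul_prod (integrable_const (1 : ℝ))
    refine h1.mono' ?_ ?_
    · exact Continuous.aestronglyMeasurable (by unfold Function.uncurry; fun_prop)
    · refine Eventually.of_forall fun z => ?_
      simp only [Function.uncurry]
      rw [norm_mul, Complex.norm_exp, Complex.norm_exp]
      have e1 : (Complex.I * ((z.2 + X : ℝ) : ℂ) * (z.1 : ℂ)).re = 0 := by simp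
      have e2 : (-(ε : ℂ) * (z.1 : ℂ) ^ 2).re = -ε * z.1 ^ 2 := by
        rw [← Complex.ofReal_pow, ← Complex.ofReal_neg, ← Complex.ofReal_mul, Complex.ofReal_re]
      rw [e1, e2]
      simp
  have e : ∀ y : ℝ, charFun μ y * (Complex.exp (Complex.I * X * y) *
      Complex.exp (-(ε : ℂ) * y ^ 2)) = ∫ x, Complex.exp (Complex.I * (x + X : ℝ) * y) *
        Complex.exp (-(ε : ℂ) * y ^ 2) ∂μ := by
    intro y
    rw [charFun_apply_real, ← integral_mul_const]
    refine integral_congr_ae (Eventually.of_forall fun x => ?_)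
    simp only
    rw [← mul_assoc, ← Complex.exp_add]
    congr 2
    push_cast
    ring
  simp_rw [e]
  rw [integral_integral_swap hF]
  have hI := hF.integral_prod_right
  simp only [Function.uncurry] at hI
  have := integral_re (f := fun x : ℝ => ∫ y : ℝ, Complex.exp (Complex.I * (x + X : ℝ) * y) *
        Complex.exp (-(ε : ℂ) * y ^ 2)) (μ := μ) hI
  simp only [RCLike.re_to_complex] at this
  rw [← this]
  exact integral_nonneg fun x => gauss_nonneg hε (x + X)

/-- the Fourier transform of an integrable characteristic function is nonnegative -/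
lemma char_nonneg (μ : Measure ℝ) [IsFiniteMeasure μ] (g : ℝ → ℝ) (c : ℝ) (hc : 0 ≤ c)
    (hg : Integrable g) (h : ∀ y, (g y : ℂ) = c * charFun μ y) (X : ℝ) :
    0 ≤ ∫ y : ℝ, g y * Real.cos (X * y) := by
  have hreg : ∀ n : ℕ, 0 ≤ ∫ y : ℝ, g y * Real.cos (X * y) *
      Real.exp (-(1 / (n + 1 : ℝ)) * y ^ 2) := by
    intro n
    have hε : (0 : ℝ) < 1 / (n + 1 : ℝ) := by positivity
    have h1 := reg_nonneg μ hε X
    have e : ∀ y : ℝ, g y * Real.cos (X * y) * Real.exp (-(1 / (n + 1 : ℝ)) * y ^ 2)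
        = ((c : ℂ) * (charFun μ y * (Complex.exp (Complex.I * X * y) *
      Complex.exp (-((1 / (n + 1 : ℝ) : ℝ) : ℂ) * y ^ 2)))).re := by
      intro y
      rw [← mul_assoc, ← h y, Complex.re_ofReal_mul]
      have e2 : Complex.exp (-((1 / (n + 1 : ℝ) : ℝ) : ℂ) * y ^ 2)
          = ((Real.exp (-(1 / (n + 1 : ℝ)) * y ^ 2) : ℝ) : ℂ) := by
        push_cast
        ring_nf
      rw [e2, Complex.re_mul_ofReal]
      have e3 : (Complex.exp (Complex.I * X * y)).re = Real.cos (X * y) := by
        have : Complex.I * (X : ℂ) * (y : ℂ) = ((X * y : ℝ) : ℂ) * Complex.I := by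
          push_cast; ring
        rw [this, Complex.exp_ofReal_mul_I_re]
      rw [e3]
      ring
    simp_rw [e]
    have hint : Integrable (fun y : ℝ => (c : ℂ) * (charFun μ y * (Complex.exp (Complex.I * X * y) *
      Complex.exp (-((1 / (n + 1 : ℝ) : ℝ) : ℂ) * y ^ 2)))) := by
      have : (fun y : ℝ => (c : ℂ) * (charFun μ y * (Complex.exp (Complex.I * X * y) *
        Complex.exp (-((1 / (n + 1 : ℝ) : ℝ) : ℂ) * y ^ 2))))
          = fun y : ℝ => (g y : ℂ) * (Complex.exp (Complex.I * X * y) *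
        Complex.exp (-((1 / (n + 1 : ℝ) : ℝ) : ℂ) * y ^ 2)) := by
        funext y
        rw [h y]; ring
      rw [this]
      refine hg.norm.mono' (hg.ofReal.aestronglyMeasurable.mul
        (Continuous.aestronglyMeasurable (by fun_prop))) ?_
      refine Eventually.of_forall fun y => ?_
      rw [norm_mul, norm_mul, Complex.norm_exp, Complex.norm_exp, Complex.norm_real]
      have e1 : (Complex.I * (X : ℂ) * (y : ℂ)).re = 0 := by simp
      have e2 : (-((1 / (n + 1 : ℝ) : ℝ) : ℂ) * (y : ℂ) ^ 2).re = -(1 / (n + 1 : ℝ)) * y ^ 2 := by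
        rw [← Complex.ofReal_pow, ← Complex.ofReal_neg, ← Complex.ofReal_mul, Complex.ofReal_re]
      rw [e1, e2]
      have : Real.exp (-(1 / (n + 1 : ℝ)) * y ^ 2) ≤ 1 := by
        rw [Real.exp_le_one_iff]
        have : 0 ≤ 1 / (n + 1 : ℝ) * y ^ 2 := by positivity
        linarith
      rw [Real.exp_zero, one_mul]
      calc ‖g y‖ * Real.exp (-(1 / (n + 1 : ℝ)) * y ^ 2) ≤ ‖g y‖ * 1 :=
            mul_le_mul_of_nonneg_left this (norm_nonneg _)
        _ = ‖g y‖ := mul_one _
    have := integral_re hint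
    simp only [RCLike.re_to_complex] at this
    rw [this, integral_const_mul, Complex.re_ofReal_mul]
    exact mul_nonneg hc h1
  have hlim : Tendsto (fun n : ℕ => ∫ y : ℝ, g y * Real.cos (X * y) *
      Real.exp (-(1 / (n + 1 : ℝ)) * y ^ 2)) atTop (𝓝 (∫ y : ℝ, g y * Real.cos (X * y))) := by
    apply tendsto_integral_of_dominated_convergence (fun y => ‖g y‖)
    · intro n
      exact ((int_mul_bdd hg (by fun_prop) (fun y => Real.abs_cos_le_one _)).aestronglyMeasurable).mul
        (Continuous.aestronglyMeasurable (by fun_prop))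
    · exact hg.norm
    · intro n
      refine Eventually.of_forall fun y => ?_
      rw [norm_mul, norm_mul, Real.norm_eq_abs (Real.cos _), Real.norm_eq_abs (Real.exp _),
        Real.abs_exp]
      have h1 : Real.exp (-(1 / (n + 1 : ℝ)) * y ^ 2) ≤ 1 := by
        rw [Real.exp_le_one_iff]
        have : 0 ≤ 1 / (n + 1 : ℝ) * y ^ 2 := by positivity
        linarith
      calc ‖g y‖ * |Real.cos (X * y)| * Real.exp (-(1 / (n + 1 : ℝ)) * y ^ 2)
          ≤ ‖g y‖ * 1 * 1 := by
            apply mul_le_mul (mul_le_mul_of_nonneg_left (Real.abs_cos_le_one _) (norm_nonneg _)) h1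
              (Real.exp_pos _).le (by positivity)
        _ = ‖g y‖ := by ring
    · refine Eventually.of_forall fun y => ?_
      have h1 : Tendsto (fun n : ℕ => -(1 / (n + 1 : ℝ)) * y ^ 2) atTop (𝓝 (-0 * y ^ 2)) :=
        (tendsto_one_div_add_atTop_nhds_zero_nat (𝕜 := ℝ)).neg.mul_const _
      have h2 := (Real.continuous_exp.tendsto _).comp h1
      have h3 := h2.const_mul (g y * Real.cos (X * y))
      simpa using h3
  exact ge_of_tendsto' hlim hreg

/-! ### The weight -/

lemma gw_pos (hG : StmtG) (y : ℝ) : 0 < gw y := by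
  have := (hG.1 (3 / 4) y (by norm_num)).1
  unfold gw
  positivity

lemma gw_cont (hG : StmtG) : Continuous gw := by
  have := hG.2.1 (3 / 4) (by norm_num)
  unfold gw
  exact this.pow 8

lemma gw_even (hG : StmtG) (y : ℝ) : gw (-y) = gw y := by
  unfold gw
  rw [(hG.1 (3 / 4) y (by norm_num)).2.1]

lemma gw_int (hG : StmtG) (n : ℕ) : Integrable (fun y => |y| ^ n * gw y) := by
  obtain ⟨C, hC, hb⟩ := hG.2.2.1 (3 / 4) (by norm_num)
  refine ((Rp.PoiAux.int_pow_exp n 12 (by norm_num)).const_mul (C ^ 8)).mono' ?_ ?_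
  · have := gw_cont hG
    exact Continuous.aestronglyMeasurable (by fun_prop)
  · refine Eventually.of_forall fun y => ?_
    have hp := gw_pos hG y
    rw [Real.norm_eq_abs, abs_of_nonneg (by positivity)]
    have h1 : gw y ≤ C ^ 8 * Real.exp (-12 * |y|) := by
      unfold gw
      calc G (3 / 4) y ^ 8 ≤ (C * Real.exp (-(3 / 2 * |y|))) ^ 8 := by
            apply pow_le_pow_left₀ ((hG.1 (3 / 4) y (by norm_num)).1).le (hb y)
        _ = C ^ 8 * Real.exp (-12 * |y|) := by
            rw [mul_pow, ← Real.exp_nat_mul]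
            congr 2
            push_cast
            ring
    have h2 : |y| ^ n ≤ (1 + |y|) ^ n :=
      pow_le_pow_left₀ (abs_nonneg _) (by linarith [abs_nonneg y]) n
    calc |y| ^ n * gw y ≤ (1 + |y|) ^ n * (C ^ 8 * Real.exp (-12 * |y|)) :=
          mul_le_mul h2 h1 hp.le (by positivity)
      _ = C ^ 8 * ((1 + |y|) ^ n * Real.exp (-12 * |y|)) := by ring

lemma gw_int0 (hG : StmtG) : Integrable gw := by
  simpa using gw_int hG 0

lemma gw_int_mul (hG : StmtG) (n : ℕ) : Integrable (fun y => y ^ n * gw y) := by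
  refine (gw_int hG n).mono' ?_ ?_
  · have := gw_cont hG
    exact Continuous.aestronglyMeasurable (by fun_prop)
  · refine Eventually.of_forall fun y => ?_
    have hp := gw_pos hG y
    rw [norm_mul, norm_pow, Real.norm_eq_abs, Real.norm_eq_abs, abs_of_pos hp]

/-- the density -/
noncomputable def fd (x : ℝ) : ℝ := Real.exp (3 / 4 * x) / (1 + Real.exp x) ^ (3 / 4 + 3 / 4 : ℝ)

lemma fd_pos (x : ℝ) : 0 < fd x := by
  unfold fd
  have := Real.exp_pos x
  positivity

lemma fd_cont : Continuous fd := by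
  unfold fd
  apply Continuous.div (by fun_prop)
  · apply Continuous.rpow_const (by fun_prop)
    intro x
    left
    have := Real.exp_pos x
    positivity
  · intro x
    have := Real.exp_pos x
    positivity

/-- the measure -/
noncomputable def nu : Measure ℝ := (volume : Measure ℝ).withDensity fun x => ENNReal.ofReal (fd x)

lemma nu_finite (hB : StmtBeta) : IsFiniteMeasure nu := by
  have h := (hB (3 / 4) (3 / 4) 0 (by norm_num) (by norm_num)).1
  exact isFiniteMeasure_withDensity_ofReal h.2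

lemma nu_char (hB : StmtBeta) (y : ℝ) :
    charFun nu y = ((G (3 / 4) y ^ 2 / Real.Gamma (3 / 2) : ℝ) : ℂ) := by
  have h := (hB (3 / 4) (3 / 4) y (by norm_num) (by norm_num)).2
  rw [charFun_apply_real]
  unfold nu
  rw [integral_withDensity_eq_integral_toReal_smul
    (fd_cont.measurable.ennreal_ofReal) (Eventually.of_forall fun x => ENNReal.ofReal_lt_top)]
  have e : ∀ x : ℝ, (ENNReal.ofReal (fd x)).toReal • Complex.exp ((y : ℂ) * (x : ℂ) * Complex.I)
      = ((Real.exp (3 / 4 * x) / (1 + Real.exp x) ^ (3 / 4 + 3 / 4 : ℝ) : ℝ) : ℂ) *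
        Complex.exp (Complex.I * (y * x : ℝ)) := by
    intro x
    rw [ENNReal.toReal_ofReal (fd_pos x).le]
    unfold fd
    rw [Complex.real_smul]
    congr 2
    push_cast
    ring
  simp_rw [e]
  rw [h]
  have e1 : ((3 / 4 : ℝ) : ℂ) - Complex.I * (y : ℂ)
      = (starRingEnd ℂ) (((3 / 4 : ℝ) : ℂ) + Complex.I * (y : ℂ)) := by
    simp only [map_add, map_mul, Complex.conj_ofReal, Complex.conj_I]
    ring
  rw [e1, Complex.Gamma_conj, Complex.mul_conj, Complex.normSq_eq_norm_sq]
  unfold G
  push_cast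
  norm_num

lemma wh_nonneg (hG : StmtG) (hB : StmtBeta) (X : ℝ) : 0 ≤ wh X := by
  have := nu_finite hB
  have hΓ : (0 : ℝ) < Real.Gamma (3 / 2) := Real.Gamma_pos_of_pos (by norm_num)
  refine char_nonneg (((nu.conv nu).conv nu).conv nu) gw (Real.Gamma (3 / 2) ^ 4) (by positivity)
    (gw_int0 hG) (fun y => ?_) X
  rw [charFun_conv, charFun_conv, charFun_conv, nu_char hB]
  unfold gw
  rw [← Complex.ofReal_mul, ← Complex.ofReal_mul, ← Complex.ofReal_mul, ← Complex.ofReal_mul]
  congr 1
  field_simp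

end WhAux

open WhAux in
/-- (Wh) calculus of `wh` -/
theorem whfacts (hG : StmtG) (hB : StmtBeta) : StmtWh := by
  have i0 := gw_int0 hG
  have i1 : Integrable (fun y => y * gw y) := by simpa using gw_int_mul hG 1
  have i2 : Integrable (fun y => y * (y * gw y)) := by
    have := gw_int_mul hG 2
    refine this.congr (Eventually.of_forall fun y => ?_)
    ring
  have i3 : Integrable (fun y => y * (y * (y * gw y))) := by
    have := gw_int_mul hG 3
    refine this.congr (Eventually.of_forall fun y => ?_)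
    ring
  have d0 : ∀ X, HasDerivAt wh (wh1 X) X := fun X => deriv_cos i0 i1 X
  have d1 : ∀ X, HasDerivAt wh1 (wh X / 16 - rho X / 2) X := by
    intro X
    have h := (deriv_sin i1 i2 X).neg
    have e : wh X / 16 - rho X / 2 = -∫ y : ℝ, y * (y * gw y) * Real.cos (X * y) := by
      have e1 : rho X = wh X / 8 + 2 * ∫ y : ℝ, y * (y * gw y) * Real.cos (X * y) := by
        unfold rho wh
        rw [← integral_const_mul, ← integral_div, ← integral_add]
        · refine integral_congr_ae (Eventually.of_forall fun y => ?_)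
          simp only
          ring
        · exact (int_mul_bdd i0 (by fun_prop) (fun y => Real.abs_cos_le_one _)).div_const 8
        · exact (int_mul_bdd i2 (by fun_prop) (fun y => Real.abs_cos_le_one _)).const_mul 2
      rw [e1]
      ring
    rw [e]
    exact h
  have j0 : Integrable (fun y => 2 * (1 / 16 + y ^ 2) * gw y) := by
    have := (i0.const_mul (1 / 8)).add ((gw_int_mul hG 2).const_mul 2)
    refine this.congr (Eventually.of_forall fun y => ?_)
    simp only [Pi.add_apply]
    ring
  have j1 : Integrable (fun y => y * (2 * (1 / 16 + y ^ 2) * gw y)) := by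
    have := (i1.const_mul (1 / 8)).add ((gw_int_mul hG 3).const_mul 2)
    refine this.congr (Eventually.of_forall fun y => ?_)
    simp only [Pi.add_apply]
    ring
  have dr : ∀ X, HasDerivAt rho
      (-∫ y : ℝ, y * (2 * (1 / 16 + y ^ 2) * gw y) * Real.sin (X * y)) X :=
    fun X => deriv_cos j0 j1 X
  have b0 : ∀ X, |wh X| ≤ ∫ y, gw y := by
    intro X
    unfold wh
    rw [← Real.norm_eq_abs]
    refine (norm_integral_le_integral_norm _).trans ?_
    apply integral_mono (int_mul_bdd i0 (by fun_prop) (fun y => Real.abs_cos_le_one _)).norm i0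
    intro y
    simp only
    rw [norm_mul, Real.norm_eq_abs, Real.norm_eq_abs, abs_of_pos (gw_pos hG y)]
    have := Real.abs_cos_le_one (X * y)
    have hp := gw_pos hG y
    nlinarith
  have b1 : ∀ X, |wh1 X| ≤ ∫ y, |y| * gw y := by
    intro X
    unfold wh1
    rw [abs_neg, ← Real.norm_eq_abs]
    refine (norm_integral_le_integral_norm _).trans ?_
    apply integral_mono (int_mul_bdd i1 (by fun_prop) (fun y => Real.abs_sin_le_one _)).norm
      (by simpa using gw_int hG 1)
    intro y
    simp only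
    rw [norm_mul, norm_mul, Real.norm_eq_abs, Real.norm_eq_abs, Real.norm_eq_abs,
      abs_of_pos (gw_pos hG y)]
    have h1 := Real.abs_sin_le_one (X * y)
    have hp := gw_pos hG y
    have h2 : 0 ≤ |y| * gw y := by positivity
    nlinarith
  refine ⟨gw_int hG, d0, d1, fun X => ⟨?_, ?_, ?_⟩, ?_, ?_, ?_, wh_nonneg hG hB, ?_⟩
  · unfold wh
    congr 1; funext y
    rw [neg_mul, Real.cos_neg]
  · unfold wh1
    rw [← integral_neg, neg_neg]
    congr 1; funext y
    rw [neg_mul, Real.sin_neg]
    ring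
  · unfold rho
    congr 1; funext y
    rw [neg_mul, Real.cos_neg]
  · exact continuous_iff_continuousAt.mpr fun X => (d0 X).continuousAt
  · exact continuous_iff_continuousAt.mpr fun X => (d1 X).continuousAt
  · exact continuous_iff_continuousAt.mpr fun X => (dr X).continuousAt
  · refine ⟨(∫ y, gw y) + 2 * ∫ y, |y| * gw y, fun X => ⟨?_, ?_⟩⟩
    · have h2 : 0 ≤ ∫ y, |y| * gw y := le_trans (abs_nonneg _) (b1 X)
      linarith [b0 X]
    · have h0 : 0 ≤ ∫ y, gw y := le_trans (abs_nonneg _) (b0 X)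
      unfold al
      calc |wh X / 2 + 2 * wh1 X| ≤ |wh X / 2| + |2 * wh1 X| := abs_add_le _ _
        _ = |wh X| / 2 + 2 * |wh1 X| := by
            rw [abs_div, abs_mul, abs_of_pos (by norm_num : (0 : ℝ) < 2)]
        _ ≤ _ := by linarith [b0 X, b1 X]

end Pool.Agent.Lib.MP_dd244f_an.Rq
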