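import Pool.Agent.Lib.MP_dd244f_an.Rp.All
import Pool.Agent.Lib.MP_dd244f_an.Rp.PDc
import Pool.Agent.Lib.MP_dd244f_an.Rp.Gam
import Pool.Agent.Lib.MP_dd244f_an.Rp.Cosh
import Pool.Agent.Lib.MP_dd244f_an.Rp.Sech
import Pool.Agent.Lib.MP_dd244f_an.Rp.LineL
import Pool.Agent.Lib.MP_dd244f_an.Rp.LineU
import Pool.Agent.Lib.MP_dd244f_an.Rp.Om
import Pool.Agent.Lib.MP_dd244f_an.Rp.RieszC
import Pool.Agent.Lib.MP_dd244f_an.Rp.Exp
import Pool.Agent.Lib.MP_dd244f_an.Rp.Ref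
import Pool.Agent.Lib.MP_dd244f_an.Rp.SCL
import Pool.Agent.Lib.MP_dd244f_an.Rp.AVh
import Pool.Agent.Lib.MP_dd244f_an.Rp.AV1
import Pool.Agent.Lib.MP_dd244f_an.Rp.Poi
import Pool.Agent.Lib.MP_dd244f_an.Rp.Grw
import Pool.Agent.Lib.MP_dd244f_an.Rp.Two
import Pool.Agent.Lib.MP_dd244f_an.Rp.HLPd
import Pool.Agent.Lib.MP_dd244f_an.Rp.HLPev
import Pool.Agent.Lib.MP_dd244f_an.Rq.G
import Pool.Agent.Lib.MP_dd244f_an.Rq.Gn
import Pool.Agent.Lib.MP_dd244f_an.Rq.Beta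
import Pool.Agent.Lib.MP_dd244f_an.Rq.PS
import Pool.Agent.Lib.MP_dd244f_an.Rq.Wh
import Pool.Agent.Lib.MP_dd244f_an.Rq.Shift
import Pool.Agent.Lib.MP_dd244f_an.Rq.I1
import Pool.Agent.Lib.MP_dd244f_an.Rq.Rho
import Pool.Agent.Lib.MP_dd244f_an.Rq.Ms
import Pool.Agent.Lib.MP_dd244f_an.Rq.T
import Pool.Agent.Lib.MP_dd244f_an.Rq.VV
import Pool.Agent.Lib.MP_dd244f_an.Rq.Vn
import Pool.Agent.Lib.MP_dd244f_an.Rq.Kt
import Pool.Agent.Lib.MP_dd244f_an.Rq.Kid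
import Pool.Agent.Lib.MP_dd244f_an.Rq.Alg
import Pool.Agent.Lib.MP_dd244f_an.Rq.Red
import Pool.Agent.Lib.MP_dd244f_an.Rq.Lin
import Pool.Agent.Lib.MP_dd244f_an.Rq.Sym
import Pool.Agent.Lib.MP_dd244f_an.Rq.D2
import Pool.Agent.Lib.MP_dd244f_an.Rq.D3
import Pool.Agent.Lib.MP_dd244f_an.Rq.StarAsm
import Pool.Agent.Lib.MP_dd244f_an.Rq.Pol
import Pool.Agent.Lib.MP_dd244f_an.Rq.Dec
import Pool.Agent.Lib.MP_dd244f_an.Rq.Kap
import Pool.Agent.Lib.MP_dd244f_an.Rq.Bm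
import Pool.Agent.Lib.MP_dd244f_an.Rq.B8
import Pool.Agent.Lib.MP_dd244f_an.Rq.Kg
import Pool.Agent.Lib.MP_dd244f_an.Rq.K1
import Pool.Agent.Lib.MP_dd244f_an.Rq.NR
import Pool.Agent.Lib.MP_dd244f_an.Rq.Cell
import Pool.Agent.Lib.MP_dd244f_an.Rq.Chain
import Pool.Agent.Lib.MP_dd244f_an.Rq.CombAsm
import Pool.Agent.Lib.MP_dd244f_an.Rq.AVg
import Pool.Agent.Lib.MP_dd244f_an.Rq.PD2
import Pool.Agent.Lib.MP_dd244f_an.Rq.AVt
import Pool.Agent.Lib.MP_dd244f_an.Rq.HLPall3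
import Pool.Agent.Lib.MP_dd244f_an.Rq.UnifA2
import Pool.Agent.Lib.MP_dd244f_an.Rq.PowB2

/-!
The sharp Hardy-Littlewood-Paley inequality for all `p ≥ 2` and the final statements: the modules
put together.
-/

set_option autoImplicit false

namespace Pool.Agent.Lib.MP_dd244f_an.Rq

open Pool.Agent.Lib.MP_dd244f_an

theorem all_g : StmtG := gfacts Rp.gam Rp.cosh_gam
theorem all_gn : StmtGn := gn Rp.gam
theorem all_wh : StmtWh := whfacts all_g beta
theorem all_shift : StmtShift := shift all_g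
theorem all_i1 : StmtI1 := i1 all_g all_gn beta
theorem all_rho : StmtRho := rhofacts all_g all_gn ps all_wh all_shift all_i1
theorem all_t : StmtT := tineq all_wh all_rho ms
theorem all_vv : StmtVV := vvfacts all_g beta
theorem all_vn : StmtVn := vn all_g all_gn ps all_vv
theorem all_kt : StmtKt := ktfacts all_vv all_vn
theorem all_kid : StmtKid := kid all_wh all_g Rp.rieszC
theorem all_ref : Rp.StmtRef := Rp.ref Rp.rieszC
theorem all_lin : StmtLin := lin all_ref all_wh all_g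
theorem all_red : StmtRed := red Rp.exp_ all_t all_wh all_lin sym
theorem all_d2 : StmtD2 := d2 all_kid all_kt all_wh all_lin
theorem all_d3 : StmtD3 := d3 ms all_lin sym
theorem all_dec : StmtDec := dec pol
theorem all_kap : StmtKap := kapfacts pol Rp.rieszC
theorem all_bm : StmtBm := bmfacts pol all_kap ms
theorem all_kg : StmtKg := kgfacts all_kt pol
theorem all_nr : StmtNR := nr all_kap all_bm b8facts k1facts all_gn
theorem all_cell : StmtCell := cell all_bm b8facts all_kap all_kg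
theorem all_chain : StmtChain := chain all_bm b8facts all_kap all_kg all_cell
theorem all_comb : StmtComb :=
  comb all_dec pol all_bm all_kg k1facts all_nr all_chain all_d2 all_d3
theorem all_star : StmtStar := star all_red alg all_lin sym all_d2 all_d3 all_comb ms
theorem all_avg : StmtAVg := avg Rp.exp_ all_ref Rp.scl
theorem all_pd2 : StmtPD2 := pd2 Rp.pdc Rp.gam Rp.cosh_gam
theorem all_avt : StmtAVt := avt all_star all_avg all_pd2 all_g Rp.poi
theorem all_avh : Rp.StmtAVh := Rp.avh Rp.om Rp.exp_ all_ref Rp.scl Rp.poi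
theorem all_two : Rp.StmtTwo := Rp.two Rp.poi (Rp.grw Rp.gam)
theorem all_hlpall : StmtHLPall2 :=
  hlpall3 (Rp.hlpev Even.all_hlpK) Rp.hlpd all_two (Rp.av1 Four.l2 Rp.poi) all_avh
    (Rp.lineL Rp.pdc Rp.gam Rp.cosh_gam)
    (Rp.lineU Rp.pdc Rp.gam Rp.cosh_gam (Rp.sech Rp.pdc)) all_avt
theorem all_unifA2 : StmtUnifA2 :=
  unifA2 Rp.all_finalp all_hlpall Unif.rts Unif.formAn Unif.hol Unif.conc Rp.ratC Joint.all_final1
theorem all_powB2 : StmtPowB2 := powB2 all_unifA2 Unif.rts Unif.formAn Unif.hol Unif.conc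

end Pool.Agent.Lib.MP_dd244f_an.Rq
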