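import Pool.Agent.Lib.MP_dd244f_an.Rq.Stmts

/-!
# MP_dd244f_an, all real exponents `p ≥ 2`: module (Beta)

The Beta integral as a Fourier transform: substitution `t = e ^ x / (1 + e ^ x)` in
`Complex.betaIntegral`.
-/

set_option autoImplicit false

namespace Pool.Agent.Lib.MP_dd244f_an.Rq

open MeasureTheory Filter Topology Finset

namespace BetaAux

/-- the logistic function -/
noncomputable def sm (x : ℝ) : ℝ := Real.exp x / (1 + Real.exp x)

theorem sm_mem (x : ℝ) : sm x ∈ Set.Ioo (0 : ℝ) 1 := by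
  have h := Real.exp_pos x
  refine ⟨by unfold sm; positivity, ?_⟩
  unfold sm
  rw [div_lt_one (by positivity)]
  linarith

theorem sm_image : sm '' Set.univ = Set.Ioo (0 : ℝ) 1 := by
  ext t
  constructor
  · rintro ⟨x, -, rfl⟩
    exact sm_mem x
  · rintro ⟨h0, h1⟩
    refine ⟨Real.log (t / (1 - t)), Set.mem_univ _, ?_⟩
    have h2 : 0 < 1 - t := by linarith
    unfold sm
    rw [Real.exp_log (by positivity)]
    field_simp
    ring

theorem sm_inj : Set.InjOn sm Set.univ := by
  intro x _ y _ h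
  unfold sm at h
  have hx := Real.exp_pos x
  have hy := Real.exp_pos y
  rw [div_eq_div_iff (by positivity) (by positivity)] at h
  apply Real.exp_injective
  linarith

theorem sm_deriv (x : ℝ) : HasDerivAt sm (Real.exp x / (1 + Real.exp x) ^ 2) x := by
  have hx := Real.exp_pos x
  have h1 := Real.hasDerivAt_exp x
  have h2 := h1.const_add 1
  have h3 := h1.div h2 (by positivity)
  refine h3.congr_deriv ?_
  congr 1
  ring

theorem exp_cpow (r : ℝ) (z : ℂ) : ((Real.exp r : ℝ) : ℂ) ^ z = Complex.exp (r * z) := by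
  have h : ((Real.exp r : ℝ) : ℂ) ≠ 0 := by
    exact_mod_cast (Real.exp_pos r).ne'
  rw [Complex.cpow_def_of_ne_zero h, ← Complex.ofReal_log (Real.exp_pos r).le, Real.log_exp]

theorem integrand_eq (a b y x : ℝ) :
    |Real.exp x / (1 + Real.exp x) ^ 2| •
      (((sm x : ℝ) : ℂ) ^ ((a + Complex.I * y : ℂ) - 1) *
        (1 - ((sm x : ℝ) : ℂ)) ^ ((b - Complex.I * y : ℂ) - 1))
    = ((Real.exp (a * x) / (1 + Real.exp x) ^ (a + b) : ℝ) : ℂ) *
        Complex.exp (Complex.I * (y * x : ℝ)) := by
  have hx := Real.exp_pos x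
  have hq : 0 < 1 + Real.exp x := by positivity
  set L : ℝ := Real.log (1 + Real.exp x) with hL
  have hE : Real.exp L = 1 + Real.exp x := Real.exp_log hq
  have e1 : sm x = Real.exp (x - L) := by
    rw [Real.exp_sub, hE]; rfl
  have e2 : (1 : ℂ) - ((sm x : ℝ) : ℂ) = ((Real.exp (-L) : ℝ) : ℂ) := by
    have : 1 - sm x = Real.exp (-L) := by
      rw [Real.exp_neg, hE]
      unfold sm
      field_simp
      ring
    rw [← this]; push_cast; ring
  have e3 : |Real.exp x / (1 + Real.exp x) ^ 2| = Real.exp (x - 2 * L) := by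
    rw [abs_of_pos (by positivity), Real.exp_sub, two_mul, Real.exp_add, hE]
    ring
  have e4 : Real.exp (a * x) / (1 + Real.exp x) ^ (a + b) = Real.exp (a * x - (a + b) * L) := by
    rw [Real.exp_sub, Real.rpow_def_of_pos hq, mul_comm (Real.log _)]
  rw [e3, e2, e1, e4, Complex.real_smul, exp_cpow, exp_cpow, Complex.ofReal_exp,
    Complex.ofReal_exp, ← Complex.exp_add, ← Complex.exp_add, ← Complex.exp_add]
  congr 1
  push_cast
  ring

theorem main (a b y : ℝ) (ha : 0 < a) (hb : 0 < b) :
    Integrable (fun x : ℝ => ((Real.exp (a * x) / (1 + Real.exp x) ^ (a + b) : ℝ) : ℂ) *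
        Complex.exp (Complex.I * (y * x : ℝ))) ∧
    ∫ x : ℝ, ((Real.exp (a * x) / (1 + Real.exp x) ^ (a + b) : ℝ) : ℂ) *
      Complex.exp (Complex.I * (y * x : ℝ))
    = Complex.betaIntegral (a + Complex.I * y) (b - Complex.I * y) := by
  set g : ℝ → ℂ := fun t => (t : ℂ) ^ ((a + Complex.I * y : ℂ) - 1) *
        (1 - (t : ℂ)) ^ ((b - Complex.I * y : ℂ) - 1) with hg
  have hd : ∀ x ∈ Set.univ, HasDerivWithinAt sm (Real.exp x / (1 + Real.exp x) ^ 2)
      Set.univ x := fun x _ => (sm_deriv x).hasDerivWithinAt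
  have h1 := integrableOn_image_iff_integrableOn_abs_deriv_smul MeasurableSet.univ hd sm_inj g
  have h2 := integral_image_eq_integral_abs_deriv_smul MeasurableSet.univ hd sm_inj g
  have h3 : (fun x => |Real.exp x / (1 + Real.exp x) ^ 2| • g (sm x)) =
      fun x : ℝ => ((Real.exp (a * x) / (1 + Real.exp x) ^ (a + b) : ℝ) : ℂ) *
        Complex.exp (Complex.I * (y * x : ℝ)) := by
    funext x
    exact integrand_eq a b y x
  have hu : 0 < (a + Complex.I * y : ℂ).re := by simpa using ha
  have hv : 0 < (b - Complex.I * y : ℂ).re := by simpa using hb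
  have h4 : IntegrableOn g (Set.Ioo 0 1) := by
    have := (Complex.betaIntegral_convergent hu hv).1
    exact this.mono_set Set.Ioo_subset_Ioc_self
  rw [sm_image, h3, integrableOn_univ] at h1
  rw [sm_image, h3, setIntegral_univ] at h2
  refine ⟨h1.1 h4, ?_⟩
  rw [← h2, Complex.betaIntegral, intervalIntegral.integral_of_le zero_le_one,
    integral_Ioc_eq_integral_Ioo]

end BetaAux

open BetaAux in
/-- (Beta) the Beta integral -/
theorem beta : StmtBeta := by
  intro a b y ha hb
  have hu : 0 < (a + Complex.I * y : ℂ).re := by simpa using ha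
  have hv : 0 < (b - Complex.I * y : ℂ).re := by simpa using hb
  constructor
  · have h1 := (main a b 0 ha hb).1.norm
    refine h1.congr (Eventually.of_forall fun x => ?_)
    have hx := Real.exp_pos x
    have h2 : 0 ≤ Real.exp (a * x) / (1 + Real.exp x) ^ (a + b) := by positivity
    simp only [zero_mul, Complex.ofReal_zero, mul_zero, Complex.exp_zero, mul_one,
      Complex.norm_real, Real.norm_eq_abs, abs_of_nonneg h2]
  · rw [(main a b y ha hb).2]
    have h3 := Complex.Gamma_mul_Gamma_eq_betaIntegral hu hv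
    have h4 : (a + Complex.I * y : ℂ) + (b - Complex.I * y) = ((a + b : ℝ) : ℂ) := by
      push_cast; ring
    rw [h4, Complex.Gamma_ofReal] at h3
    have h5 : (Real.Gamma (a + b) : ℂ) ≠ 0 := by
      exact_mod_cast (Real.Gamma_pos_of_pos (by linarith)).ne'
    rw [eq_div_iff h5, h3, mul_comm]

end Pool.Agent.Lib.MP_dd244f_an.Rq
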