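import Pool.Agent.Lib.MP_dd244f_an.Rq.Stmts

/-!
Module (Bm): bound for the bad coefficient `Bm`.
-/

set_option autoImplicit false

namespace Pool.Agent.Lib.MP_dd244f_an.Rq

open MeasureTheory Filter Topology
open scoped ENNReal NNReal

namespace BmAux

/-! ### the kernel `k1` -/

lemma k1_nonneg (l : ℂ) : 0 ≤ k1 l := by unfold k1; positivity

lemma k1_meas : Measurable k1 := by
  unfold k1
  fun_prop

lemma norm_exp' (L θ : ℝ) : ‖Complex.exp (L + Complex.I * θ)‖ = Real.exp L := by
  rw [Complex.norm_exp]; simp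

lemma k1_cont (L : ℝ) (hL : L ≠ 0) : Continuous fun θ : ℝ =>
    k1 (Complex.exp (L + Complex.I * θ)) := by
  unfold k1
  simp only [norm_exp']
  refine Continuous.div continuous_const (by fun_prop) (fun θ h => ?_)
  rw [norm_eq_zero, sub_eq_zero] at h
  have h1 := norm_exp' L θ
  rw [← h, norm_one] at h1
  exact hL (by simpa using h1.symm)

lemma integrable_k1 (hP : StmtPol) (hK : StmtKap) :
    Integrable (fun l : ℂ => k1 l / ‖l‖ ^ 2) := by
  have hmeas : Measurable (fun l : ℂ => k1 l / ‖l‖ ^ 2) := k1_meas.div (by fun_prop)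
  refine ⟨hmeas.aestronglyMeasurable, ?_⟩
  rw [hasFiniteIntegral_iff_enorm]
  have h1 : ∀ l : ℂ, ‖k1 l / ‖l‖ ^ 2‖ₑ ≤ ENNReal.ofReal (k1 l) / ‖l‖ₑ ^ 2 := by
    intro l
    by_cases hl : l = 0
    · simp [hl]
    · have hl' : 0 < ‖l‖ := norm_pos_iff.mpr hl
      rw [Real.enorm_eq_ofReal (by have := k1_nonneg l; positivity),
        ENNReal.ofReal_div_of_pos (by positivity), ENNReal.ofReal_pow hl'.le, ofReal_norm]
  refine (lintegral_mono h1).trans_lt ?_
  rw [hP.1 (fun l => ENNReal.ofReal (k1 l)) (ENNReal.measurable_ofReal.comp k1_meas)]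
  have h2 : ∀ᵐ L : ℝ, (∫⁻ θ in Set.Ioc 0 (2 * Real.pi),
      ENNReal.ofReal (k1 (Complex.exp (L + Complex.I * θ)))) = ENNReal.ofReal (kap L) := by
    have h0 : ∀ᵐ L : ℝ, L ≠ 0 := by
      rw [ae_iff]; simp
    filter_upwards [h0] with L hL
    have hc := k1_cont L hL
    rw [kap, intervalIntegral.integral_of_le (by positivity),
      ofReal_integral_eq_lintegral_ofReal (hc.integrableOn_Ioc)
        (Eventually.of_forall fun θ => k1_nonneg _)]
  rw [lintegral_congr_ae h2]
  exact hK.2.2.2.1.lintegral_lt_top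

/-! ### the formula for `Bm` -/

lemma Me_even (X : ℝ) : Me (-X) = Me X := by unfold Me; rw [abs_neg]

lemma Me_two (t L : ℝ) : Me (2 * t - 2 * L) = mt |t - L| / 16 := by
  unfold Me
  rw [← mul_sub, abs_mul, abs_two, mul_div_cancel_left₀ _ (two_ne_zero)]

lemma integrable_F (hP : StmtPol) (hK : StmtKap) (hM : StmtMs) (L : ℝ) :
    Integrable (fun ν : ℂ => k1 ν * Me (2 * Real.log ‖ν‖ - 2 * L) / ‖ν‖ ^ 2) := by
  have h := (integrable_k1 hP hK).mul_const (1 / 16)
  refine h.mono' ?_ (Eventually.of_forall fun ν => ?_)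
  · refine Measurable.aestronglyMeasurable ?_
    refine (k1_meas.mul (hM.2.2.1.measurable.comp ?_)).div (by fun_prop)
    exact ((Real.measurable_log.comp measurable_norm).const_mul 2).sub_const _
  · have h1 := k1_nonneg ν
    have h2 := hM.1 (2 * Real.log ‖ν‖ - 2 * L)
    have h3 := hM.2.1 (2 * Real.log ‖ν‖ - 2 * L)
    rw [Real.norm_of_nonneg (by positivity), mul_div_right_comm]
    exact mul_le_mul_of_nonneg_left h3 (by positivity)

lemma Bm_eq (hP : StmtPol) (hK : StmtKap) (hM : StmtMs) (L : ℝ) :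
    Bm L = ∫ t : ℝ, kap t * Me (2 * t - 2 * L) := by
  unfold Bm
  rw [(hP.2 (fun ν => k1 ν * Me (2 * Real.log ‖ν‖ - 2 * L)) (integrable_F hP hK hM L)).2.2]
  congr 1
  funext t
  simp only [norm_exp', Real.log_exp]
  rw [intervalIntegral.integral_mul_const, kap]

lemma Bm_nonneg (hM : StmtMs) (L : ℝ) : 0 ≤ Bm L := by
  unfold Bm
  refine integral_nonneg fun ν => ?_
  have h1 := k1_nonneg ν
  have h2 := hM.1 (2 * Real.log ‖ν‖ - 2 * L)
  simp only [Pi.zero_apply]
  positivity

lemma Bm_even (hP : StmtPol) (hK : StmtKap) (hM : StmtMs) (L : ℝ) : Bm (-L) = Bm L := by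
  rw [Bm_eq hP hK hM, Bm_eq hP hK hM, ← integral_neg_eq_self]
  congr 1
  funext t
  rw [(hK.2.1 t).2, ← Me_even]
  congr 2
  ring

lemma Bm_meas (hM : StmtMs) : Measurable Bm := by
  have h : StronglyMeasurable (Function.uncurry fun (L : ℝ) (ν : ℂ) =>
      k1 ν * Me (2 * Real.log ‖ν‖ - 2 * L) / ‖ν‖ ^ 2) := by
    refine Measurable.stronglyMeasurable ?_
    unfold Function.uncurry
    refine ((k1_meas.comp measurable_snd).mul (hM.2.2.1.measurable.comp ?_)).div ?_
    · exact ((Real.measurable_log.comp (measurable_norm.comp measurable_snd)).const_mul 2).sub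
        (measurable_fst.const_mul 2)
    · exact (measurable_norm.comp measurable_snd).pow_const 2
  exact (h.integral_prod_right (ν := (volume : Measure ℂ))).measurable

lemma Bm_le (hP : StmtPol) (hK : StmtKap) (hM : StmtMs) (L : ℝ) :
    Bm L ≤ ∫ ν : ℂ, k1 ν / ‖ν‖ ^ 2 * (1 / 16) := by
  unfold Bm
  refine integral_mono (integrable_F hP hK hM L) ((integrable_k1 hP hK).mul_const _)
    fun ν => ?_
  have h1 := k1_nonneg ν
  have h3 := hM.2.1 (2 * Real.log ‖ν‖ - 2 * L)
  simp only
  rw [mul_div_right_comm]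
  exact mul_le_mul_of_nonneg_left h3 (by positivity)

/-! ### the profile -/

lemma mt_nonneg (hM : StmtMs) (x : ℝ) (hx : 0 ≤ x) : 0 ≤ mt x := by
  have h := hM.1 (2 * x)
  unfold Me at h
  rw [abs_of_nonneg (by linarith), mul_div_cancel_left₀ _ (two_ne_zero)] at h
  linarith

lemma mt_le_one (hM : StmtMs) (x : ℝ) (hx : 0 ≤ x) : mt x ≤ 1 := by
  have h := hM.2.1 (2 * x)
  unfold Me at h
  rw [abs_of_nonneg (by linarith), mul_div_cancel_left₀ _ (two_ne_zero)] at h
  linarith

lemma mt_shift (hM : StmtMs) (t L : ℝ) (hL : 0 ≤ L) :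
    mt |t - L| ≤ Real.exp (|t| / 2) * mt L := by
  have h := hM.2.2.2.2.1 L (|t - L| - L) hL (by simp)
  rw [add_sub_cancel] at h
  refine h.trans (mul_le_mul_of_nonneg_right ?_ (mt_nonneg hM L hL))
  refine Real.exp_le_exp.mpr ?_
  have h1 : |(|t - L| - L)| ≤ |t| := by
    have h2 := abs_abs_sub_abs_le (t - L) (-L)
    rw [abs_neg, abs_of_nonneg hL] at h2
    simpa using h2
  linarith

/-! ### the convolution -/

lemma mt1 (x : ℝ) (h : x ≤ 3) : mt x = Real.exp (-(3 / 2)) * Real.exp (x / 2) := by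
  unfold mt
  rw [if_pos h, ← Real.exp_add]; congr 1; ring

lemma mt2 (x : ℝ) (h : 3 ≤ x) (h' : x ≤ 57 / 10) : mt x = 1 := by
  rcases eq_or_lt_of_le h with h3 | h3
  · rw [← h3]; unfold mt; rw [if_pos le_rfl]; simp
  · unfold mt; rw [if_neg (not_le.mpr h3), if_pos h']

lemma mt3 (x : ℝ) (h : 57 / 10 ≤ x) : mt x = 2 * Real.exp (57 / 20) * Real.exp (-(x / 2)) -
    Real.exp (57 / 10) * Real.exp (-x) := by
  rcases eq_or_lt_of_le h with h3 | h3
  · rw [← h3, mt2 _ (by norm_num) le_rfl, mul_assoc, ← Real.exp_add, ← Real.exp_add]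
    norm_num
  · unfold mt
    rw [if_neg (not_le.mpr (by linarith)), if_neg (not_le.mpr h3)]
    have h1 : Real.exp (-((x - 57 / 10) / 2)) = Real.exp (57 / 20) * Real.exp (-(x / 2)) := by
      rw [← Real.exp_add]; congr 1; ring
    have h2 : Real.exp (57 / 10) * Real.exp (-x) = (Real.exp (57 / 20) * Real.exp (-(x / 2))) ^ 2 := by
      rw [← Real.exp_add, ← Real.exp_add, sq, ← Real.exp_add]; congr 1; ring
    rw [h1, h2]; ring

lemma intOn (hM : StmtMs) (a : ℝ) (ha : 0 ≤ a) :
    IntegrableOn (fun x => Real.exp (-(x / 2)) * mt x) (Set.Ioi a) := by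
  have h0 : IntegrableOn (fun x : ℝ => Real.exp (-(1 / 2) * x)) (Set.Ioi a) :=
    integrableOn_exp_mul_Ioi (by norm_num) a
  refine Integrable.mono' h0 ?_ ?_
  · refine (Continuous.aestronglyMeasurable ?_)
    exact (Real.continuous_exp.comp (by fun_prop)).mul hM.2.2.2.1
  · refine (ae_restrict_iff' measurableSet_Ioi).mpr (Eventually.of_forall fun x hx => ?_)
    have hx0 : 0 ≤ x := ha.trans (le_of_lt hx)
    have h1 := mt_nonneg hM x hx0
    have h2 := mt_le_one hM x hx0
    rw [Real.norm_of_nonneg (by positivity)]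
    have h3 : Real.exp (-(1 / 2) * x) = Real.exp (-(x / 2)) := by congr 1; ring
    rw [h3]
    calc Real.exp (-(x / 2)) * mt x ≤ Real.exp (-(x / 2)) * 1 :=
          mul_le_mul_of_nonneg_left h2 (Real.exp_pos _).le
      _ = _ := mul_one _

/-- `∫_L^∞`, last piece -/
lemma tail3 (a : ℝ) (ha : 57 / 10 ≤ a) : ∫ x in Set.Ioi a, Real.exp (-(x / 2)) * mt x =
    2 * Real.exp (57 / 20) * Real.exp (-a) - 2 / 3 * Real.exp (57 / 10) *
      Real.exp (-(3 / 2 * a)) := by
  have h1 : ∀ x ∈ Set.Ioi a, Real.exp (-(x / 2)) * mt x = 2 * Real.exp (57 / 20) *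
      Real.exp (-1 * x) - Real.exp (57 / 10) * Real.exp (-(3 / 2) * x) := by
    intro x hx
    rw [mt3 x (ha.trans (le_of_lt hx))]
    have h2 : Real.exp (-1 * x) = Real.exp (-(x / 2)) * Real.exp (-(x / 2)) := by
      rw [← Real.exp_add]; congr 1; ring
    have h3 : Real.exp (-(3 / 2) * x) = Real.exp (-(x / 2)) * Real.exp (-x) := by
      rw [← Real.exp_add]; congr 1; ring
    rw [h2, h3]; ring
  rw [setIntegral_congr_fun measurableSet_Ioi h1, integral_sub, integral_const_mul,
    integral_const_mul, integral_exp_mul_Ioi (by norm_num), integral_exp_mul_Ioi (by norm_num)]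
  · have h4 : -(3 / 2) * a = -(3 / 2 * a) := by ring
    rw [h4, neg_one_mul]
    ring
  · exact (integrableOn_exp_mul_Ioi (by norm_num) a).const_mul _
  · exact (integrableOn_exp_mul_Ioi (by norm_num) a).const_mul _

lemma int_exp_neg_half (a b : ℝ) : ∫ x in a..b, Real.exp (-(x / 2)) =
    2 * Real.exp (-(a / 2)) - 2 * Real.exp (-(b / 2)) := by
  have hd : ∀ x ∈ Set.uIcc a b, HasDerivAt (fun x : ℝ => -(2 * Real.exp (-(x / 2))))
      (Real.exp (-(x / 2))) x := by
    intro x _
    have h := (((hasDerivAt_id x).div_const 2).neg.exp.const_mul 2).neg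
    refine h.congr_deriv ?_
    simp
    ring
  rw [intervalIntegral.integral_eq_sub_of_hasDerivAt hd
    (Continuous.intervalIntegrable (by fun_prop) _ _)]
  ring

lemma int_exp_half (a b : ℝ) : ∫ x in a..b, Real.exp (x / 2) =
    2 * Real.exp (b / 2) - 2 * Real.exp (a / 2) := by
  have hd : ∀ x ∈ Set.uIcc a b, HasDerivAt (fun x : ℝ => 2 * Real.exp (x / 2))
      (Real.exp (x / 2)) x := by
    intro x _
    have h := (((hasDerivAt_id x).div_const 2).exp.const_mul 2)
    refine h.congr_deriv ?_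
    simp
    ring
  rw [intervalIntegral.integral_eq_sub_of_hasDerivAt hd
    (Continuous.intervalIntegrable (by fun_prop) _ _)]

lemma tail2 (hM : StmtMs) (a : ℝ) (ha : 3 ≤ a) (ha' : a ≤ 57 / 10) :
    ∫ x in Set.Ioi a, Real.exp (-(x / 2)) * mt x =
    2 * Real.exp (-(a / 2)) - 2 / 3 * Real.exp (-(57 / 20)) := by
  rw [← intervalIntegral.integral_interval_add_Ioi (intOn hM a (by linarith))
    (intOn hM (57 / 10) (by norm_num)), tail3 _ le_rfl]
  have h1 : ∫ x in a..(57 / 10), Real.exp (-(x / 2)) * mt x =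
      ∫ x in a..(57 / 10), Real.exp (-(x / 2)) := by
    refine intervalIntegral.integral_congr fun x hx => ?_
    rw [Set.uIcc_of_le ha'] at hx
    rw [mt2 x (ha.trans hx.1) hx.2, mul_one]
  rw [h1, int_exp_neg_half]
  have h2 : 2 * Real.exp (57 / 20) * Real.exp (-(57 / 10)) = 2 * Real.exp (-(57 / 20)) := by
    rw [mul_assoc, ← Real.exp_add]; norm_num
  have h3 : 2 / 3 * Real.exp (57 / 10) * Real.exp (-(3 / 2 * (57 / 10))) =
      2 / 3 * Real.exp (-(57 / 20)) := by
    rw [mul_assoc, ← Real.exp_add]; norm_num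
  have h4 : Real.exp (-(57 / 10 / 2)) = Real.exp (-(57 / 20)) := by norm_num
  rw [h2, h3, h4]
  ring

lemma tail1 (hM : StmtMs) (a : ℝ) (ha : 0 ≤ a) (ha' : a ≤ 3) :
    ∫ x in Set.Ioi a, Real.exp (-(x / 2)) * mt x =
    Real.exp (-(3 / 2)) * (5 - a) - 2 / 3 * Real.exp (-(57 / 20)) := by
  rw [← intervalIntegral.integral_interval_add_Ioi (intOn hM a (by linarith))
    (intOn hM 3 (by norm_num)), tail2 hM _ le_rfl (by norm_num)]
  have h1 : ∫ x in a..3, Real.exp (-(x / 2)) * mt x =
      ∫ x in a..3, Real.exp (-(3 / 2)) := by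
    refine intervalIntegral.integral_congr fun x hx => ?_
    rw [Set.uIcc_of_le ha'] at hx
    rw [mt1 x hx.2, ← Real.exp_add, ← Real.exp_add]
    congr 1; ring
  rw [h1, intervalIntegral.integral_const, smul_eq_mul]
  ring

lemma head1 (a : ℝ) (ha : 0 ≤ a) (ha' : a ≤ 3) :
    ∫ x in (0)..a, Real.exp (x / 2) * mt x = Real.exp (-(3 / 2)) * (Real.exp a - 1) := by
  have h1 : ∫ x in (0)..a, Real.exp (x / 2) * mt x =
      ∫ x in (0)..a, Real.exp (-(3 / 2)) * Real.exp x := by
    refine intervalIntegral.integral_congr fun x hx => ?_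
    rw [Set.uIcc_of_le ha] at hx
    rw [mt1 x (hx.2.trans ha'), ← Real.exp_add, ← Real.exp_add, ← Real.exp_add]
    congr 1; ring
  rw [h1, intervalIntegral.integral_const_mul, integral_exp, Real.exp_zero]

lemma cont_head (hM : StmtMs) : Continuous fun x => Real.exp (x / 2) * mt x :=
  (Real.continuous_exp.comp (by fun_prop)).mul hM.2.2.2.1

lemma head2 (hM : StmtMs) (a : ℝ) (ha : 3 ≤ a) (ha' : a ≤ 57 / 10) :
    ∫ x in (0)..a, Real.exp (x / 2) * mt x =
      2 * Real.exp (a / 2) - Real.exp (3 / 2) - Real.exp (-(3 / 2)) := by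
  rw [← intervalIntegral.integral_add_adjacent_intervals
    ((cont_head hM).intervalIntegrable 0 3) ((cont_head hM).intervalIntegrable 3 a),
    head1 3 (by norm_num) le_rfl]
  have h1 : ∫ x in (3)..a, Real.exp (x / 2) * mt x = ∫ x in (3)..a, Real.exp (x / 2) := by
    refine intervalIntegral.integral_congr fun x hx => ?_
    rw [Set.uIcc_of_le ha] at hx
    rw [mt2 x hx.1 (hx.2.trans ha'), mul_one]
  rw [h1, int_exp_half]
  have h2 : Real.exp (-(3 / 2)) * Real.exp 3 = Real.exp (3 / 2) := by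
    rw [← Real.exp_add]; norm_num
  rw [mul_sub, h2]
  ring

lemma head3 (hM : StmtMs) (a : ℝ) (ha : 57 / 10 ≤ a) :
    ∫ x in (0)..a, Real.exp (x / 2) * mt x =
      2 * Real.exp (57 / 20) * (a - 57 / 10) - Real.exp (3 / 2) - Real.exp (-(3 / 2)) +
      2 * Real.exp (57 / 10) * Real.exp (-(a / 2)) := by
  rw [← intervalIntegral.integral_add_adjacent_intervals
    ((cont_head hM).intervalIntegrable 0 (57 / 10)) ((cont_head hM).intervalIntegrable (57 / 10) a),
    head2 hM (57 / 10) (by norm_num) le_rfl]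
  have h1 : ∫ x in (57 / 10)..a, Real.exp (x / 2) * mt x =
      ∫ x in (57 / 10)..a, (2 * Real.exp (57 / 20) - Real.exp (57 / 10) * Real.exp (-(x / 2))) := by
    refine intervalIntegral.integral_congr fun x hx => ?_
    rw [Set.uIcc_of_le ha] at hx
    rw [mt3 x hx.1]
    have h2 : Real.exp (x / 2) * Real.exp (-(x / 2)) = 1 := by
      rw [← Real.exp_add]; simp
    have h3 : Real.exp (x / 2) * Real.exp (-x) = Real.exp (-(x / 2)) := by
      rw [← Real.exp_add]; congr 1; ring
    calc Real.exp (x / 2) * (2 * Real.exp (57 / 20) * Real.exp (-(x / 2)) -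
          Real.exp (57 / 10) * Real.exp (-x))
        = 2 * Real.exp (57 / 20) * (Real.exp (x / 2) * Real.exp (-(x / 2))) -
          Real.exp (57 / 10) * (Real.exp (x / 2) * Real.exp (-x)) := by ring
      _ = _ := by rw [h2, h3, mul_one]
  rw [h1, intervalIntegral.integral_sub (Continuous.intervalIntegrable (by fun_prop) _ _)
    (Continuous.intervalIntegrable (by fun_prop) _ _), intervalIntegral.integral_const,
    intervalIntegral.integral_const_mul, int_exp_neg_half, smul_eq_mul]
  have h2 : Real.exp (57 / 10) * Real.exp (-(57 / 10 / 2)) = Real.exp (57 / 20) := by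
    rw [← Real.exp_add]; norm_num
  have h3 : Real.exp (57 / 10 / 2) = Real.exp (57 / 20) := by norm_num
  linear_combination 2 * h3 - 2 * h2

lemma int_line (hM : StmtMs) (L : ℝ) :
    Integrable (fun t : ℝ => Real.exp (-(|t| / 2)) * mt |t - L|) := by
  have h0 : Integrable (fun t : ℝ => Real.exp (-(|t| / 2))) := by
    rw [← integrableOn_univ, ← Set.Iic_union_Ioi (a := (0 : ℝ)), integrableOn_union]
    constructor
    · refine (integrableOn_exp_mul_Iic (a := 1 / 2) (by norm_num) 0).congr_fun (fun t ht => ?_)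
        measurableSet_Iic
      have ht0 : t ≤ 0 := ht
      rw [abs_of_nonpos ht0]
      ring_nf
    · refine (integrableOn_exp_mul_Ioi (a := -(1 / 2)) (by norm_num) 0).congr_fun (fun t ht => ?_)
        measurableSet_Ioi
      have ht0 : 0 < t := ht
      rw [abs_of_pos ht0]
      ring_nf
  refine h0.mono' ?_ (Eventually.of_forall fun t => ?_)
  · refine Continuous.aestronglyMeasurable ?_
    exact (Real.continuous_exp.comp (by fun_prop)).mul (hM.2.2.2.1.comp (by fun_prop))
  · have h1 := mt_nonneg hM |t - L| (abs_nonneg _)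
    have h2 := mt_le_one hM |t - L| (abs_nonneg _)
    rw [Real.norm_of_nonneg (by positivity)]
    calc Real.exp (-(|t| / 2)) * mt |t - L| ≤ Real.exp (-(|t| / 2)) * 1 :=
          mul_le_mul_of_nonneg_left h2 (Real.exp_pos _).le
      _ = _ := mul_one _

lemma conv (hM : StmtMs) (L : ℝ) (hL : 0 ≤ L) :
    ∫ t : ℝ, Real.exp (-(|t| / 2)) * mt |t - L| =
      Real.exp (-(L / 2)) * ((∫ x in Set.Ioi 0, Real.exp (-(x / 2)) * mt x) +
        ∫ x in (0)..L, Real.exp (x / 2) * mt x) +
      Real.exp (L / 2) * ∫ x in Set.Ioi L, Real.exp (-(x / 2)) * mt x := by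
  have h1 : ∫ t : ℝ, Real.exp (-(|t| / 2)) * mt |t - L| =
      ∫ x : ℝ, Real.exp (-(|L - x| / 2)) * mt |x| := by
    rw [← integral_sub_left_eq_self (fun t : ℝ => Real.exp (-(|t| / 2)) * mt |t - L|) volume L]
    congr 1
    funext x
    rw [show L - x - L = -x by ring, abs_neg]
  have hint : Integrable (fun x : ℝ => Real.exp (-(|L - x| / 2)) * mt |x|) := by
    have h := (int_line hM L).comp_sub_left L
    refine h.congr (Eventually.of_forall fun x => ?_)
    simp only
    rw [show L - x - L = -x by ring, abs_neg]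
  rw [h1, ← intervalIntegral.integral_Iic_add_Ioi (b := 0) hint.integrableOn hint.integrableOn,
    ← intervalIntegral.integral_interval_add_Ioi (a := 0) (b := L) hint.integrableOn
      hint.integrableOn]
  have e1 : ∫ x in Set.Iic (0 : ℝ), Real.exp (-(|L - x| / 2)) * mt |x| =
      Real.exp (-(L / 2)) * ∫ x in Set.Ioi 0, Real.exp (-(x / 2)) * mt x := by
    rw [← integral_const_mul]
    have h := integral_comp_neg_Iic (0 : ℝ) (fun y : ℝ => Real.exp (-(L / 2)) *
      (Real.exp (-(y / 2)) * mt y))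
    rw [neg_zero] at h
    rw [← h]
    refine setIntegral_congr_fun measurableSet_Iic fun x hx => ?_
    have hx0 : x ≤ 0 := hx
    rw [abs_of_nonneg (by linarith : 0 ≤ L - x), abs_of_nonpos hx0, ← mul_assoc, ← Real.exp_add]
    congr 2; ring
  have e2 : ∫ x in (0)..L, Real.exp (-(|L - x| / 2)) * mt |x| =
      Real.exp (-(L / 2)) * ∫ x in (0)..L, Real.exp (x / 2) * mt x := by
    rw [← intervalIntegral.integral_const_mul]
    refine intervalIntegral.integral_congr fun x hx => ?_
    rw [Set.uIcc_of_le hL] at hx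
    rw [abs_of_nonneg (by linarith [hx.2] : 0 ≤ L - x), abs_of_nonneg hx.1, ← mul_assoc,
      ← Real.exp_add]
    congr 2; ring
  have e3 : ∫ x in Set.Ioi L, Real.exp (-(|L - x| / 2)) * mt |x| =
      Real.exp (L / 2) * ∫ x in Set.Ioi L, Real.exp (-(x / 2)) * mt x := by
    rw [← integral_const_mul]
    refine setIntegral_congr_fun measurableSet_Ioi fun x hx => ?_
    have hx0 : L < x := hx
    rw [abs_of_nonpos (by linarith : L - x ≤ 0), abs_of_nonneg (by linarith : 0 ≤ x),
      ← mul_assoc, ← Real.exp_add]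
    congr 2; ring
  rw [e1, e2, e3]
  ring

lemma conv_eq (hM : StmtMs) (L : ℝ) (hL : 0 ≤ L) :
    ∫ t : ℝ, Real.exp (-(|t| / 2)) * mt |t - L| = EE L := by
  rw [conv hM L hL, tail1 hM 0 le_rfl (by norm_num)]
  have hx : Real.exp (-(L / 2)) * Real.exp (L / 2) = 1 := by rw [← Real.exp_add]; simp
  unfold EE
  split_ifs with h h'
  · rw [head1 L hL h, tail1 hM L hL h]
    have h1 : Real.exp (-(L / 2)) * Real.exp L = Real.exp (L / 2) := by
      rw [← Real.exp_add]; congr 1; ring
    linear_combination (Real.exp (-(3 / 2))) * h1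
  · rw [head2 hM L (le_of_lt (not_le.mp h)) h', tail2 hM L (le_of_lt (not_le.mp h)) h']
    linear_combination 4 * hx
  · have h3 : 57 / 10 ≤ L := le_of_lt (not_le.mp h')
    rw [head3 hM L h3, tail3 L h3]
    have h1 : Real.exp (-(L / 2)) * Real.exp (-(L / 2)) = Real.exp (-L) := by
      rw [← Real.exp_add]; congr 1; ring
    have h2 : Real.exp (L / 2) * Real.exp (-L) = Real.exp (-(L / 2)) := by
      rw [← Real.exp_add]; congr 1; ring
    have h4 : Real.exp (L / 2) * Real.exp (-(3 / 2 * L)) = Real.exp (-L) := by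
      rw [← Real.exp_add]; congr 1; ring
    have h5 : Real.exp (57 / 10 - L) = Real.exp (57 / 10) * Real.exp (-L) := by
      rw [← Real.exp_add]; congr 1
    rw [h5]
    linear_combination (2 * Real.exp (57 / 10)) * h1 + (2 * Real.exp (57 / 20)) * h2 -
      (2 / 3 * Real.exp (57 / 10)) * h4

end BmAux

open BmAux in
theorem bmfacts (hP : StmtPol) (hK : StmtKap) (hM : StmtMs) : StmtBm := by
  have hI := integrable_k1 hP hK
  have hMeas := Bm_meas hM
  refine ⟨hMeas, fun L => ⟨Bm_nonneg hM L, Bm_even hP hK hM L⟩, fun L hL => ?_, ?_, ?_⟩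
  · rw [Bm_eq hP hK hM, ← integral_const_mul]
    have hint1 := (int_line hM L).const_mul Real.pi
    have hK5 := hK.2.2.2.2.2.1
    have hint2 := hK5.const_mul (1 / 2 * mt L)
    have hle : ∫ t : ℝ, 8 * (kap t * Me (2 * t - 2 * L)) ≤
        ∫ t : ℝ, (Real.pi * (Real.exp (-(|t| / 2)) * mt |t - L|) + 1 / 2 * mt L *
          ((kap t - 2 * Real.pi * Real.exp (-(|t| / 2))) * Real.exp (|t| / 2))) := by
      have hkm : Integrable (fun t : ℝ => 8 * (kap t * Me (2 * t - 2 * L))) := by
        refine Integrable.const_mul ?_ 8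
        refine (hK.2.2.2.1.mul_const (1 / 16)).mono' ?_ (Eventually.of_forall fun t => ?_)
        · exact (hK.1.mul (hM.2.2.1.measurable.comp (by fun_prop))).aestronglyMeasurable
        · have h1 := (hK.2.1 t).1
          have h2 := hM.1 (2 * t - 2 * L)
          have h3 := hM.2.1 (2 * t - 2 * L)
          rw [Real.norm_of_nonneg (by positivity)]
          exact mul_le_mul_of_nonneg_left h3 h1
      refine integral_mono_ae hkm (hint1.add hint2) ?_
      have h0 : ∀ᵐ t : ℝ, t ≠ 0 := by rw [ae_iff]; simp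
      filter_upwards [h0] with t ht
      rw [Me_two]
      have hk2 : 0 ≤ kap t - 2 * Real.pi * Real.exp (-(|t| / 2)) := by
        have h1 : kap t = kap |t| := by
          rcases abs_choice t with h | h
          · rw [h]
          · rw [h, (hK.2.1 t).2]
        have h2 := (hK.2.2.1 |t| (abs_pos.mpr ht)).1
        rw [h1]
        linarith
      have h3 := mt_shift hM t L hL
      have h4 := mul_le_mul_of_nonneg_left h3 hk2
      nlinarith
    refine hle.trans ?_
    rw [integral_add hint1 hint2, integral_const_mul, integral_const_mul, conv_eq hM L hL]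
    have h6 := hK.2.2.2.2.2.2
    have h7 := mul_le_mul_of_nonneg_left h6 (by have := mt_nonneg hM L hL; positivity :
      0 ≤ 1 / 2 * mt L)
    unfold B8
    linarith
  · obtain ⟨M, hMd⟩ : ∃ M, ∀ L, Bm L ≤ M := ⟨_, Bm_le hP hK hM⟩
    refine (hI.mul_const M).mono' ?_ (Eventually.of_forall fun l => ?_)
    · refine Measurable.aestronglyMeasurable ?_
      exact (k1_meas.mul (hMeas.comp (Real.measurable_log.comp measurable_norm))).div
        (by fun_prop)
    · have h1 := k1_nonneg l
      have h2 := Bm_nonneg hM (Real.log ‖l‖)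
      rw [Real.norm_of_nonneg (by positivity), mul_div_right_comm]
      exact mul_le_mul_of_nonneg_left (hMd _) (by positivity)
  · obtain ⟨M, hMd⟩ : ∃ M, ∀ L, Bm L ≤ M := ⟨_, Bm_le hP hK hM⟩
    refine (hK.2.2.2.1.const_mul M).mono' ?_ (Eventually.of_forall fun l => ?_)
    · exact (hMeas.mul hK.1).aestronglyMeasurable
    · have h1 := (hK.2.1 l).1
      have h2 := Bm_nonneg hM l
      rw [Real.norm_of_nonneg (by positivity)]
      exact mul_le_mul_of_nonneg_right (hMd _) h1

end Pool.Agent.Lib.MP_dd244f_an.Rq
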