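import Pool.Agent.Lib.MP_dd244f_an.Rq.Stmts
import Pool.Agent.Lib.MP_dd244f_an.Four.L2

/-!
The sharp Hardy-Littlewood-Paley inequality for all real `p ≥ 2`: assembly (module HLPall2).
-/

set_option autoImplicit false

namespace Pool.Agent.Lib.MP_dd244f_an.Rq

open MeasureTheory Filter Topology FourierTransform
open Pool.Agent.Lib.MP_dd244f_an.Four
open Pool.Agent.Lib.MP_dd244f_an.Rp
open scoped ENNReal SchwartzMap

/-- the case `p = 2` -/
theorem hlp_two : HLPr 2 1 := by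
  intro h
  have hC : CHp 2 = 1 := by
    unfold CHp gamp
    have e : (1 : ℝ) - 1 / 2 = 1 / 2 := by norm_num
    have hg : Real.Gamma (1 / 2) ≠ 0 := (Real.Gamma_pos_of_pos (by norm_num)).ne'
    rw [e, div_self hg]
    norm_num
  have h1 : ∀ x, ‖iF h x‖ ^ (2 : ℝ) = ‖(𝓕 h : 𝓢(ℂ, ℂ)) (-x)‖ ^ (2 : ℕ) := by
    intro x
    rw [Four.iF_eq, Real.rpow_two, SchwartzMap.fourier_coe]
  have h3 : ∫ x : ℂ, ‖(𝓕 h : 𝓢(ℂ, ℂ)) (-x)‖ ^ (2 : ℕ) = ∫ x : ℂ, ‖(𝓕 h : 𝓢(ℂ, ℂ)) x‖ ^ (2 : ℕ) :=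
    integral_neg_eq_self (fun x => ‖(𝓕 h : 𝓢(ℂ, ℂ)) x‖ ^ (2 : ℕ)) volume
  have h2 : ∀ ξ : ℂ, ‖h ξ‖ ^ (2 : ℝ) * ‖ξ‖ ^ (2 * (2 : ℝ) - 4) = ‖h ξ‖ ^ 2 := by
    intro ξ
    have e : (2 : ℝ) * 2 - 4 = 0 := by norm_num
    rw [e, Real.rpow_zero, mul_one, Real.rpow_two]
  simp only [h1, h2]
  rw [hC, one_mul, one_mul, h3, SchwartzMap.integral_norm_sq_fourier]

/-- (HLPall2) -/
theorem hlpall2 (hD : StmtHLPd) (hT : StmtTwo) (h1 : StmtAV1) (h2 : StmtAVt)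
    (hA : StmtHLPall) : StmtHLPall2 := by
  intro p hp
  rcases eq_or_lt_of_le hp with rfl | hp2
  · exact hlp_two
  by_cases h83 : 8 / 3 ≤ p
  · exact hA p h83
  · rw [not_le] at h83
    have hp0 : 0 < p := by linarith
    set t : ℝ := 4 / p - 1 with ht
    have ht0 : 0 < t := by
      rw [ht, sub_pos, lt_div_iff₀ hp0]
      linarith
    have ht1 : t < 1 := by
      have : 4 / p < 2 := by
        rw [div_lt_iff₀ hp0]
        linarith
      linarith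
    have hpt : 1 / p = t / (2 * (1 : ℕ)) + (1 - t) / (2 * ((1 : ℕ) + 1)) := by
      rw [ht]
      push_cast
      field_simp
      ring
    have A1 : AV 1 (1 / (2 * (1 : ℕ) * ((1 : ℕ) + 1))) t 1 := h1 _ t (by norm_num) ht0 ht1
    have A2 : AV (1 + 1) (1 / (2 * (1 : ℕ) * ((1 : ℕ) + 1))) (1 - t) 1 := by
      have := h2 (1 - t) (by linarith) (by linarith)
      have e : (1 : ℝ) / (2 * (1 : ℕ) * ((1 : ℕ) + 1)) = 1 / 4 := by norm_num
      rw [e]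
      exact this
    refine hD p 1 hp zero_le_one fun u α hN => ?_
    have := hT 1 t 1 1 p le_rfl ht0 ht1 zero_le_one zero_le_one hpt A1 A2 u α hN
    refine this.trans (le_of_eq ?_)
    rw [Real.one_rpow, Real.one_rpow, mul_one, mul_one]
    have e : t + (1 - t) = 1 := by ring
    rw [e, Real.one_rpow]

end Pool.Agent.Lib.MP_dd244f_an.Rq
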