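import Pool.Agent.Lib.MP_dd244f_an.Rq.HLPall2

/-!
The sharp Hardy-Littlewood-Paley inequality for all real `p ≥ 2`: assembly without the module LineT.
-/

set_option autoImplicit false

namespace Pool.Agent.Lib.MP_dd244f_an.Rq

open MeasureTheory Filter Topology
open Pool.Agent.Lib.MP_dd244f_an.Four
open Pool.Agent.Lib.MP_dd244f_an.Rp
open scoped ENNReal

/-- the sharp inequality for all `p ≥ 2` -/
theorem hlpall3 (hEv : StmtHLPev) (hD : StmtHLPd) (hT : StmtTwo) (h1 : StmtAV1) (hH : StmtAVh)
    (hLL : StmtLineL) (hLU : StmtLineU) (h2 : StmtAVt) : StmtHLPall2 := by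
  intro p hp
  have hp0 : 0 < p := by linarith
  rcases eq_or_lt_of_le hp with rfl | hp2
  · exact hlp_two
  -- the integer `k` with `2 k ≤ p < 2 k + 2`
  obtain ⟨k, hk1, hk2⟩ : ∃ k : ℕ, 2 * (k : ℝ) ≤ p ∧ p < 2 * (k : ℝ) + 2 := by
    refine ⟨⌊p / 2⌋₊, ?_, ?_⟩
    · have := Nat.floor_le (by positivity : 0 ≤ p / 2)
      linarith
    · have := Nat.lt_floor_add_one (p / 2)
      linarith
  have hk : 1 ≤ k := by
    by_contra h
    have hk0 : k = 0 := by omega
    rw [hk0] at hk2
    norm_num at hk2
    linarith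
  have hkr : (1 : ℝ) ≤ k := by exact_mod_cast hk
  rcases eq_or_lt_of_le hk1 with heq | hlt
  · -- even exponent
    have hk3 : 2 ≤ k := by
      by_contra h
      have hk0 : k = 1 := by omega
      rw [hk0] at heq
      norm_num at heq
      linarith
    obtain ⟨j, rfl⟩ : ∃ j, k = j + 1 := ⟨k - 1, by omega⟩
    have := hEv j (by omega)
    have e : 2 * (j : ℝ) + 2 = p := by
      rw [← heq]
      push_cast
      ring
    rw [e] at this
    exact this
  · -- between two even exponents
    set t : ℝ := (1 / p - 1 / (2 * ((k : ℝ) + 1))) * (2 * k * (k + 1)) with ht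
    have ht0 : 0 < t := by
      have : 1 / (2 * ((k : ℝ) + 1)) < 1 / p := one_div_lt_one_div_of_lt hp0 (by linarith)
      have h2 : 0 < 2 * (k : ℝ) * (k + 1) := by positivity
      exact mul_pos (by linarith) h2
    have ht1 : t < 1 := by
      have h3 : 1 / p < 1 / (2 * (k : ℝ)) := one_div_lt_one_div_of_lt (by positivity) hlt
      have h2 : 0 < 2 * (k : ℝ) * (k + 1) := by positivity
      have h4 : (1 / (2 * (k : ℝ)) - 1 / (2 * ((k : ℝ) + 1))) * (2 * k * (k + 1)) = 1 := by
        field_simp
        ring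
      rw [← h4, ht]
      exact mul_lt_mul_of_pos_right (by linarith) h2
    have hpt : 1 / p = t / (2 * k) + (1 - t) / (2 * (k + 1)) := by
      rw [ht]
      field_simp
      ring
    have hw : (0 : ℝ) < 1 / (2 * k * (k + 1)) := by positivity
    have A1 : AV k (1 / (2 * k * (k + 1))) t 1 := by
      rcases eq_or_lt_of_le hk with h | h
      · rw [← h]
        rw [← h] at hw
        exact h1 _ t hw ht0 ht1
      · exact hH k _ t h hw ht0 ht1 (hLL k t h ht0 ht1)
    have A2 : AV (k + 1) (1 / (2 * k * (k + 1))) (1 - t) 1 := by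
      rcases eq_or_lt_of_le hk with h | h
      · rw [← h]
        have e : (1 : ℝ) / (2 * ((1 : ℕ) : ℝ) * (((1 : ℕ) : ℝ) + 1)) = 1 / 4 := by norm_num
        rw [e]
        exact h2 (1 - t) (by linarith) (by linarith)
      · refine hH (k + 1) _ (1 - t) (by omega) hw (by linarith) (by linarith) ?_
        have h6 := hLU (k + 1) (1 - t) (by omega) (by linarith) (by linarith)
        have e : (1 : ℝ) / (2 * ((k + 1 : ℕ) : ℝ) * (((k + 1 : ℕ) : ℝ) - 1))
            = 1 / (2 * k * (k + 1)) := by
          push_cast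
          congr 1
          ring
        rw [e] at h6
        exact h6
    refine hD p 1 (by linarith) zero_le_one fun u α hN => ?_
    have := hT k t 1 1 p hk ht0 ht1 zero_le_one zero_le_one hpt A1 A2 u α hN
    refine this.trans (le_of_eq ?_)
    rw [Real.one_rpow, Real.one_rpow, mul_one, mul_one]
    have e : t + (1 - t) = 1 := by ring
    rw [e, Real.one_rpow]

end Pool.Agent.Lib.MP_dd244f_an.Rq
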