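import Pool.Agent.Lib.MP_dd244f_an.Rq.Stmts

/-!
(Kid): the average of the linear coefficient `al` over `ζ` is `vv`.
-/

set_option autoImplicit false

namespace Pool.Agent.Lib.MP_dd244f_an.Rq

open MeasureTheory Filter Topology
open Pool.Agent.Lib.MP_dd244f_an.Rp

namespace KidAux

/-- the kernel -/
noncomputable def rr (ζ : ℂ) : ℝ := ‖ζ‖ ^ (-(3 / 2) : ℝ) * ‖1 - ζ‖ ^ (-(3 / 2) : ℝ)

/-- the logarithm -/
noncomputable def LL (ζ : ℂ) : ℝ := Real.log (‖ζ‖ * ‖1 - ζ‖)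

lemma rr_nonneg (ζ : ℂ) : 0 ≤ rr ζ := by unfold rr; positivity

lemma LL_meas : Measurable LL := by
  unfold LL
  fun_prop

lemma rr_int (hR : StmtRieszC) : Integrable rr := by
  have h := (hR (1 / 4 : ℂ) (1 / 4 : ℂ) 1 (by norm_num) (by norm_num) (by norm_num)
    one_ne_zero).1
  have h2 := h.norm
  refine h2.congr (Eventually.of_forall fun ζ => ?_)
  simp only
  have e : (2 * (1 / 4 : ℂ) - 2) = ((-(3 / 2) : ℝ) : ℂ) := by push_cast; norm_num
  rw [e, ← Complex.ofReal_cpow (norm_nonneg _), ← Complex.ofReal_cpow (norm_nonneg _),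
    ← Complex.ofReal_mul, Complex.norm_real, Real.norm_eq_abs]
  exact abs_of_nonneg (rr_nonneg ζ)

lemma ae_ne : ∀ᵐ ζ : ℂ, ζ ≠ 0 ∧ 1 - ζ ≠ 0 := by
  have h0 : ∀ᵐ ζ : ℂ, ζ ≠ 0 := (measure_eq_zero_iff_ae_notMem (s := {(0 : ℂ)})).1 (by simp)
  have h1 : ∀ᵐ ζ : ℂ, ζ ≠ 1 := (measure_eq_zero_iff_ae_notMem (s := {(1 : ℂ)})).1 (by simp)
  filter_upwards [h0, h1] with ζ a b
  exact ⟨a, sub_ne_zero.2 (Ne.symm b)⟩

lemma inner_eq {ζ : ℂ} (h0 : ζ ≠ 0) (h1 : 1 - ζ ≠ 0) (y : ℝ) :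
    ((rr ζ : ℝ) : ℂ) * Complex.exp (Complex.I * ((-2 * LL ζ * y : ℝ) : ℂ))
      = (‖ζ‖ : ℂ) ^ (2 * (1 / 4 - Complex.I * y) - 2) *
        (‖1 - ζ‖ : ℂ) ^ (2 * (1 / 4 - Complex.I * y) - 2) := by
  have n0 : 0 < ‖ζ‖ := norm_pos_iff.2 h0
  have n1 : 0 < ‖1 - ζ‖ := norm_pos_iff.2 h1
  have c0 : (‖ζ‖ : ℂ) ≠ 0 := Complex.ofReal_ne_zero.2 n0.ne'
  have c1 : (‖1 - ζ‖ : ℂ) ≠ 0 := Complex.ofReal_ne_zero.2 n1.ne'
  rw [Complex.cpow_def_of_ne_zero c0, Complex.cpow_def_of_ne_zero c1, ← Complex.ofReal_log n0.le,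
    ← Complex.ofReal_log n1.le]
  unfold rr LL
  rw [Real.rpow_def_of_pos n0, Real.rpow_def_of_pos n1, Real.log_mul n0.ne' n1.ne']
  push_cast
  rw [← Complex.exp_add, ← Complex.exp_add, ← Complex.exp_add]
  congr 1
  ring

lemma gamma_conj_mul (a y : ℝ) : Complex.Gamma (a + Complex.I * y) *
    Complex.Gamma (a - Complex.I * y) = ((G a y ^ 2 : ℝ) : ℂ) := by
  have h : Complex.Gamma (a - Complex.I * y)
      = starRingEnd ℂ (Complex.Gamma (a + Complex.I * y)) := by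
    rw [← Complex.Gamma_conj]
    congr 1
    simp [sub_eq_add_neg]
  rw [h, Complex.mul_conj, Complex.normSq_eq_norm_sq]
  rfl

lemma cz_ratio (y : ℝ) :
    cz (1 / 4 - Complex.I * y) * cz (1 / 4 - Complex.I * y) /
      cz ((1 / 4 - Complex.I * y) + (1 / 4 - Complex.I * y))
    = Real.pi * Complex.exp (Complex.I * ((2 * Real.log 4 * y : ℝ) : ℂ)) *
      ((G (1 / 4) y ^ 2 : ℝ) : ℂ) / ((G (3 / 4) y ^ 2 : ℝ) : ℂ) := by
  have hpi : (Real.pi : ℂ) ≠ 0 := Complex.ofReal_ne_zero.2 Real.pi_ne_zero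
  have nz : ∀ z : ℂ, 0 < z.re → Complex.Gamma z ≠ 0 := fun z hz =>
    Complex.Gamma_ne_zero_of_re_pos hz
  set A := Complex.Gamma (1 / 4 - Complex.I * y) with hA
  set A' := Complex.Gamma (1 / 4 + Complex.I * y) with hA'
  set B := Complex.Gamma (3 / 4 - Complex.I * y) with hB
  set B' := Complex.Gamma (3 / 4 + Complex.I * y) with hB'
  set C := Complex.Gamma (1 / 2 - 2 * Complex.I * y) with hC
  set C' := Complex.Gamma (1 / 2 + 2 * Complex.I * y) with hC'
  have nA : A ≠ 0 := nz _ (by simp)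
  have nA' : A' ≠ 0 := nz _ (by simp)
  have nB : B ≠ 0 := nz _ (by simp)
  have nB' : B' ≠ 0 := nz _ (by simp)
  have nC : C ≠ 0 := nz _ (by simp)
  have nC' : C' ≠ 0 := nz _ (by simp)
  have hAA : A' * A = ((G (1 / 4) y ^ 2 : ℝ) : ℂ) := by
    have := gamma_conj_mul (1 / 4) y
    rw [← this, hA, hA']
    push_cast
    rfl
  have hBB : B' * B = ((G (3 / 4) y ^ 2 : ℝ) : ℂ) := by
    have := gamma_conj_mul (3 / 4) y
    rw [← this, hB, hB']
    push_cast
    rfl
  have s0 : ((Real.sqrt Real.pi : ℝ) : ℂ) ≠ 0 :=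
    Complex.ofReal_ne_zero.2 (Real.sqrt_pos.2 Real.pi_pos).ne'
  have d1 : A * B = C * 2 ^ (1 - 2 * (1 / 4 - Complex.I * y)) * ((Real.sqrt Real.pi : ℝ) : ℂ) := by
    have := Complex.Gamma_mul_Gamma_add_half (1 / 4 - Complex.I * y)
    rw [show (1 / 4 - Complex.I * y + 1 / 2 : ℂ) = 3 / 4 - Complex.I * y by ring,
      show (2 * (1 / 4 - Complex.I * y) : ℂ) = 1 / 2 - 2 * Complex.I * y by ring] at this
    rw [show (2 * (1 / 4 - Complex.I * y) : ℂ) = 1 / 2 - 2 * Complex.I * y by ring]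
    exact this
  have d2 : A' * B' = C' * 2 ^ (1 - 2 * (1 / 4 + Complex.I * y)) *
      ((Real.sqrt Real.pi : ℝ) : ℂ) := by
    have := Complex.Gamma_mul_Gamma_add_half (1 / 4 + Complex.I * y)
    rw [show (1 / 4 + Complex.I * y + 1 / 2 : ℂ) = 3 / 4 + Complex.I * y by ring,
      show (2 * (1 / 4 + Complex.I * y) : ℂ) = 1 / 2 + 2 * Complex.I * y by ring] at this
    rw [show (2 * (1 / 4 + Complex.I * y) : ℂ) = 1 / 2 + 2 * Complex.I * y by ring]
    exact this
  have hE : (2 : ℂ) ^ (1 - 2 * (1 / 4 - Complex.I * y)) =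
      Complex.exp (Complex.I * ((2 * Real.log 4 * y : ℝ) : ℂ)) *
        2 ^ (1 - 2 * (1 / 4 + Complex.I * y)) := by
    rw [Complex.cpow_def_of_ne_zero two_ne_zero, Complex.cpow_def_of_ne_zero two_ne_zero,
      ← Complex.exp_add]
    congr 1
    have h4 : Real.log 4 = 2 * Real.log 2 := by
      rw [show (4 : ℝ) = 2 ^ 2 by norm_num, Real.log_pow]
      norm_num
    have h2 : Complex.log 2 = ((Real.log 2 : ℝ) : ℂ) := by
      rw [Complex.ofReal_log (by norm_num)]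
      norm_num
    rw [h4, h2]
    push_cast
    ring
  have hcz1 : cz (1 / 4 - Complex.I * y)
      = (Real.pi : ℂ) ^ (1 - 2 * (1 / 4 - Complex.I * y)) * A / B' := by
    unfold cz
    rw [show (1 - (1 / 4 - Complex.I * y) : ℂ) = 3 / 4 + Complex.I * y by ring]
  have hcz2 : cz ((1 / 4 - Complex.I * y) + (1 / 4 - Complex.I * y))
      = (Real.pi : ℂ) ^ (1 - 2 * (1 / 2 - 2 * Complex.I * y)) * C / C' := by
    unfold cz
    rw [show ((1 / 4 - Complex.I * y) + (1 / 4 - Complex.I * y) : ℂ)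
        = 1 / 2 - 2 * Complex.I * y by ring,
      show (1 - (1 / 2 - 2 * Complex.I * y) : ℂ) = 1 / 2 + 2 * Complex.I * y by ring]
  have hP : (Real.pi : ℂ) ^ (1 - 2 * (1 / 4 - Complex.I * y)) *
      (Real.pi : ℂ) ^ (1 - 2 * (1 / 4 - Complex.I * y))
      = Real.pi * (Real.pi : ℂ) ^ (1 - 2 * (1 / 2 - 2 * Complex.I * y)) := by
    rw [← Complex.cpow_add _ _ hpi]
    nth_rw 2 [← Complex.cpow_one (Real.pi : ℂ)]
    rw [← Complex.cpow_add _ _ hpi]
    congr 1
    ring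
  have nP2 : (Real.pi : ℂ) ^ (1 - 2 * (1 / 2 - 2 * Complex.I * y)) ≠ 0 := by
    rw [Complex.cpow_def_of_ne_zero hpi]
    exact Complex.exp_ne_zero _
  rw [hcz1, hcz2, ← hAA, ← hBB]
  set P := (Real.pi : ℂ) ^ (1 - 2 * (1 / 4 - Complex.I * y))
  set P2 := (Real.pi : ℂ) ^ (1 - 2 * (1 / 2 - 2 * Complex.I * y))
  set E := Complex.exp (Complex.I * ((2 * Real.log 4 * y : ℝ) : ℂ))
  set D1 := (2 : ℂ) ^ (1 - 2 * (1 / 4 - Complex.I * y))
  set D2 := (2 : ℂ) ^ (1 - 2 * (1 / 4 + Complex.I * y))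
  set S := ((Real.sqrt Real.pi : ℝ) : ℂ)
  have key : A * C' * B = E * A' * B' * C := by
    calc A * C' * B = C' * (A * B) := by ring
      _ = C' * (C * (E * D2) * S) := by rw [d1, hE]
      _ = E * C * (C' * D2 * S) := by ring
      _ = E * C * (A' * B') := by rw [d2]
      _ = E * A' * B' * C := by ring
  have goal1 : P * A / B' * (P * A / B') / (P2 * C / C')
      = (P * P) * (A * A * C') / (B' * B' * P2 * C) := by
    field_simp
  have goal2 : Real.pi * E * (A' * A) / (B' * B)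
      = (Real.pi * P2) * (A * A * C') / (B' * B' * P2 * C) := by
    rw [div_eq_div_iff (mul_ne_zero nB' nB)
      (mul_ne_zero (mul_ne_zero (mul_ne_zero nB' nB') nP2) nC)]
    calc (Real.pi : ℂ) * E * (A' * A) * (B' * B' * P2 * C)
        = Real.pi * P2 * A * B' * (E * A' * B' * C) := by ring
      _ = Real.pi * P2 * A * B' * (A * C' * B) := by rw [key]
      _ = Real.pi * P2 * (A * A * C') * (B' * B) := by ring
  rw [goal1, goal2, hP]

/-- the coefficient -/
noncomputable def cc (y : ℝ) : ℂ := 1 / 2 + 2 * Complex.I * y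

lemma re_cc (g y Y : ℝ) : (cc y * (g : ℂ) * Complex.exp (Complex.I * ((Y * y : ℝ) : ℂ))).re
    = g * (Real.cos (Y * y) / 2 - 2 * y * Real.sin (Y * y)) := by
  unfold cc
  rw [mul_comm Complex.I ((Y * y : ℝ) : ℂ), Complex.exp_mul_I, ← Complex.ofReal_cos,
    ← Complex.ofReal_sin]
  generalize Real.cos (Y * y) = c
  generalize Real.sin (Y * y) = s
  simp
  ring

lemma norm_exp_I (t : ℝ) : ‖Complex.exp (Complex.I * (t : ℂ))‖ = 1 := by
  rw [mul_comm, Complex.norm_exp_ofReal_mul_I]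

lemma norm_cc (y : ℝ) : ‖cc y‖ ≤ 1 / 2 + 2 * |y| := by
  unfold cc
  refine (norm_add_le _ _).trans ?_
  simp

lemma cc_int (hW : StmtWh) (hG : StmtG) : Integrable (fun y : ℝ => cc y * ((gw y : ℝ) : ℂ)) := by
  have hgc : Continuous gw := (hG.2.1 (3 / 4) (by norm_num)).pow 8
  have i0 := hW.1 0
  have i1 := hW.1 1
  refine ((i0.const_mul (1 / 2)).add (i1.const_mul 2)).mono' ?_ ?_
  · have : Continuous cc := by unfold cc; fun_prop
    exact (this.mul (Complex.continuous_ofReal.comp hgc)).aestronglyMeasurable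
  · refine Eventually.of_forall fun y => ?_
    have hg0 : 0 ≤ gw y := by unfold gw G; positivity
    rw [norm_mul, Complex.norm_real, Real.norm_eq_abs, abs_of_nonneg hg0]
    have := mul_le_mul_of_nonneg_right (norm_cc y) hg0
    simp only [Pi.add_apply, pow_zero, pow_one]
    linarith

lemma al_eq (hW : StmtWh) (hG : StmtG) (Y : ℝ) :
    al Y = (∫ y : ℝ, cc y * ((gw y : ℝ) : ℂ) * Complex.exp (Complex.I * ((Y * y : ℝ) : ℂ))).re := by
  have hgc : Continuous gw := (hG.2.1 (3 / 4) (by norm_num)).pow 8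
  have hi : Integrable (fun y : ℝ => cc y * ((gw y : ℝ) : ℂ) *
      Complex.exp (Complex.I * ((Y * y : ℝ) : ℂ))) := by
    refine (cc_int hW hG).norm.mono' ?_ ?_
    · refine (cc_int hW hG).aestronglyMeasurable.mul ?_
      exact Continuous.aestronglyMeasurable (by fun_prop)
    · refine Eventually.of_forall fun y => ?_
      rw [norm_mul, norm_exp_I, mul_one]
  have i0 : Integrable (fun y : ℝ => gw y * Real.cos (Y * y)) := by
    refine (hW.1 0).mono' ?_ ?_
    · exact (hgc.mul (by fun_prop)).aestronglyMeasurable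
    · refine Eventually.of_forall fun y => ?_
      have hg0 : 0 ≤ gw y := by unfold gw G; positivity
      rw [norm_mul, Real.norm_eq_abs, Real.norm_eq_abs, abs_of_nonneg hg0, pow_zero, one_mul]
      exact mul_le_of_le_one_right hg0 (Real.abs_cos_le_one _)
  have i1 : Integrable (fun y : ℝ => y * gw y * Real.sin (Y * y)) := by
    refine (hW.1 1).mono' ?_ ?_
    · exact ((continuous_id.mul hgc).mul (by fun_prop)).aestronglyMeasurable
    · refine Eventually.of_forall fun y => ?_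
      have hg0 : 0 ≤ gw y := by unfold gw G; positivity
      rw [norm_mul, norm_mul, Real.norm_eq_abs, Real.norm_eq_abs, Real.norm_eq_abs,
        abs_of_nonneg hg0, pow_one]
      exact mul_le_of_le_one_right (mul_nonneg (abs_nonneg _) hg0) (Real.abs_sin_le_one _)
  have h1 : (∫ y : ℝ, cc y * ((gw y : ℝ) : ℂ) * Complex.exp (Complex.I * ((Y * y : ℝ) : ℂ))).re
      = ∫ y : ℝ, (cc y * ((gw y : ℝ) : ℂ) * Complex.exp (Complex.I * ((Y * y : ℝ) : ℂ))).re :=
    (integral_re hi).symm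
  rw [h1]
  simp only [re_cc]
  unfold al wh wh1
  have h2 : (∫ y : ℝ, gw y * (Real.cos (Y * y) / 2 - 2 * y * Real.sin (Y * y)))
      = (∫ y : ℝ, (1 / 2) * (gw y * Real.cos (Y * y)) - 2 * (y * gw y * Real.sin (Y * y))) := by
    refine integral_congr_ae (Eventually.of_forall fun y => ?_)
    simp only
    ring
  rw [h2, integral_sub (i0.const_mul _) (i1.const_mul _), integral_const_mul, integral_const_mul]
  ring

end KidAux

open KidAux in
/-- (Kid) the averaged linear coefficient is `vv` -/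
theorem kid (hW : StmtWh) (hG : StmtG) (hR : Rp.StmtRieszC) : StmtKid := by
  refine ⟨rr_int hR, fun X => ?_⟩
  have hri := rr_int hR
  have hci := cc_int hW hG
  -- the product function
  have hF : Integrable (Function.uncurry (fun (ζ : ℂ) (y : ℝ) => ((rr ζ : ℝ) : ℂ) *
      (cc y * ((gw y : ℝ) : ℂ) * Complex.exp (Complex.I * (((X - 2 * LL ζ) * y : ℝ) : ℂ)))))
      (volume.prod volume) := by
    have hp := hri.ofReal (𝕜 := ℂ).mul_prod hci
    refine hp.norm.mono' ?_ ?_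
    · have e : (Function.uncurry (fun (ζ : ℂ) (y : ℝ) => ((rr ζ : ℝ) : ℂ) *
        (cc y * ((gw y : ℝ) : ℂ) * Complex.exp (Complex.I * (((X - 2 * LL ζ) * y : ℝ) : ℂ)))))
        = fun p : ℂ × ℝ => (((rr p.1 : ℝ) : ℂ) * (cc p.2 * ((gw p.2 : ℝ) : ℂ))) *
          Complex.exp (Complex.I * (((X - 2 * LL p.1) * p.2 : ℝ) : ℂ)) := by
        funext p
        simp only [Function.uncurry]
        ring
      rw [e]
      refine hp.aestronglyMeasurable.mul ?_
      have hL := LL_meas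
      exact Measurable.aestronglyMeasurable (by fun_prop)
    · refine Eventually.of_forall fun p => ?_
      simp only [Function.uncurry]
      rw [norm_mul, norm_mul, norm_exp_I, mul_one, ← norm_mul]
      rfl
  have hleft : (∫ ζ : ℂ, ‖ζ‖ ^ (-(3 / 2) : ℝ) * ‖1 - ζ‖ ^ (-(3 / 2) : ℝ) *
      al (X - 2 * Real.log (‖ζ‖ * ‖1 - ζ‖)))
      = (∫ ζ : ℂ, ∫ y : ℝ, ((rr ζ : ℝ) : ℂ) * (cc y * ((gw y : ℝ) : ℂ) *
        Complex.exp (Complex.I * (((X - 2 * LL ζ) * y : ℝ) : ℂ)))).re := by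
    have h1 := (integral_re hF.integral_prod_left).symm
    have h2 : (∫ ζ : ℂ, ∫ y : ℝ, ((rr ζ : ℝ) : ℂ) * (cc y * ((gw y : ℝ) : ℂ) *
        Complex.exp (Complex.I * (((X - 2 * LL ζ) * y : ℝ) : ℂ)))).re
        = ∫ ζ : ℂ, (∫ y : ℝ, ((rr ζ : ℝ) : ℂ) * (cc y * ((gw y : ℝ) : ℂ) *
          Complex.exp (Complex.I * (((X - 2 * LL ζ) * y : ℝ) : ℂ)))).re := h1
    rw [h2]
    refine integral_congr_ae (Eventually.of_forall fun ζ => ?_)
    simp only
    rw [integral_const_mul, Complex.re_ofReal_mul, ← al_eq hW hG]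
    rfl
  rw [hleft, integral_integral_swap hF]
  -- the inner integral
  have hin : ∀ y : ℝ, (∫ ζ : ℂ, ((rr ζ : ℝ) : ℂ) * (cc y * ((gw y : ℝ) : ℂ) *
        Complex.exp (Complex.I * (((X - 2 * LL ζ) * y : ℝ) : ℂ))))
      = cc y * ((2 * Real.pi ^ 3 * ga y : ℝ) : ℂ) *
        Complex.exp (Complex.I * (((X + 2 * Real.log 4) * y : ℝ) : ℂ)) := by
    intro y
    have e1 : (∫ ζ : ℂ, ((rr ζ : ℝ) : ℂ) * (cc y * ((gw y : ℝ) : ℂ) *
        Complex.exp (Complex.I * (((X - 2 * LL ζ) * y : ℝ) : ℂ))))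
        = ∫ ζ : ℂ, (cc y * ((gw y : ℝ) : ℂ) * Complex.exp (Complex.I * ((X * y : ℝ) : ℂ))) *
          ((‖ζ‖ : ℂ) ^ (2 * (1 / 4 - Complex.I * y) - 2) *
            (‖1 - ζ‖ : ℂ) ^ (2 * (1 / 4 - Complex.I * y) - 2)) := by
      refine integral_congr_ae ?_
      filter_upwards [ae_ne] with ζ hζ
      rw [← inner_eq hζ.1 hζ.2 y]
      have : Complex.exp (Complex.I * (((X - 2 * LL ζ) * y : ℝ) : ℂ))
          = Complex.exp (Complex.I * ((X * y : ℝ) : ℂ)) *
            Complex.exp (Complex.I * ((-2 * LL ζ * y : ℝ) : ℂ)) := by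
        rw [← Complex.exp_add]
        congr 1
        push_cast
        ring
      rw [this]
      ring
    have e2 := (hR (1 / 4 - Complex.I * y) (1 / 4 - Complex.I * y) 1 (by simp) (by simp)
      (by simp; norm_num) one_ne_zero).2
    rw [e1, integral_const_mul, e2, cz_ratio y]
    rw [norm_one, Complex.ofReal_one, Complex.one_cpow, mul_one]
    have g14 : 0 < G (1 / 4) y := (hG.1 (1 / 4) y (by norm_num)).1
    have g34 : 0 < G (3 / 4) y := (hG.1 (3 / 4) y (by norm_num)).1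
    have hc := hG.2.2.2.2.2.2 y
    have hch : 0 < Real.cosh (2 * Real.pi * y) := Real.cosh_pos _
    have key : gw y * (Real.pi * G (1 / 4) y ^ 2 / G (3 / 4) y ^ 2) = 2 * Real.pi ^ 3 * ga y := by
      unfold gw ga
      field_simp
      rw [show Real.pi * 2 * y = 2 * Real.pi * y by ring]
      linarith
    have e3 : Complex.exp (Complex.I * (((X + 2 * Real.log 4) * y : ℝ) : ℂ))
        = Complex.exp (Complex.I * ((X * y : ℝ) : ℂ)) *
          Complex.exp (Complex.I * ((2 * Real.log 4 * y : ℝ) : ℂ)) := by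
      rw [← Complex.exp_add]
      congr 1
      push_cast
      ring
    rw [e3, ← key]
    push_cast
    ring
  simp only [hin]
  have hfin : Integrable (fun y : ℝ => cc y * ((2 * Real.pi ^ 3 * ga y : ℝ) : ℂ) *
        Complex.exp (Complex.I * (((X + 2 * Real.log 4) * y : ℝ) : ℂ))) := by
    have := hF.integral_prod_right
    refine this.congr (Eventually.of_forall fun y => ?_)
    exact hin y
  have h3 : (∫ y : ℝ, cc y * ((2 * Real.pi ^ 3 * ga y : ℝ) : ℂ) *
        Complex.exp (Complex.I * (((X + 2 * Real.log 4) * y : ℝ) : ℂ))).re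
      = ∫ y : ℝ, (cc y * ((2 * Real.pi ^ 3 * ga y : ℝ) : ℂ) *
        Complex.exp (Complex.I * (((X + 2 * Real.log 4) * y : ℝ) : ℂ))).re :=
    (integral_re hfin).symm
  rw [h3]
  simp only [re_cc]
  unfold vv
  rw [← integral_const_mul]
  refine integral_congr_ae (Eventually.of_forall fun y => ?_)
  simp only
  ring

end Pool.Agent.Lib.MP_dd244f_an.Rq
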