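import Pool.Agent.Lib.MP_dd244f_an.Rp.StmtsH

/-!
The sharp Hardy-Littlewood-Paley inequality for all real `p ≥ 2` (the range `2 < p < 8 / 3`):
definitions and statements of the modules (nothing is proved here).
See the blueprint `dd244f_star_blueprint.md` in the team store.
-/

set_option autoImplicit false

namespace Pool.Agent.Lib.MP_dd244f_an.Rq

open MeasureTheory Filter Topology Finset
open Pool.Agent.Lib.MP_dd244f_an.Joint (st ct Mst ratio)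
open Pool.Agent.Lib.MP_dd244f_an.Four
open Pool.Agent.Lib.MP_dd244f_an.Even
open Pool.Agent.Lib.MP_dd244f_an.Rp
open scoped SchwartzMap ENNReal NNReal ContDiff

/-! ### Group 1: the weight and its Fourier transform -/

/-- `|Γ(a + i y)|` -/
noncomputable def G (a y : ℝ) : ℝ := ‖Complex.Gamma (a + Complex.I * y)‖

/-- the weight `|Γ(3/4 + i y)| ^ 8` -/
noncomputable def gw (y : ℝ) : ℝ := G (3 / 4) y ^ 8

/-- `|Γ(3/4 + i y)| ^ 4 / cosh (2 π y)` -/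
noncomputable def ga (y : ℝ) : ℝ := G (3 / 4) y ^ 4 / Real.cosh (2 * Real.pi * y)

/-- `|Γ(5/4 + i y)| ^ 4 |Γ(1/4 + i y)| ^ 4` -/
noncomputable def r2 (y : ℝ) : ℝ := G (5 / 4) y ^ 4 * G (1 / 4) y ^ 4

/-- the Fourier transform of `gw` -/
noncomputable def wh (X : ℝ) : ℝ := ∫ y : ℝ, gw y * Real.cos (X * y)

/-- its derivative -/
noncomputable def wh1 (X : ℝ) : ℝ := -∫ y : ℝ, y * gw y * Real.sin (X * y)

/-- `2 (wh / 16 - wh'')` -/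
noncomputable def rho (X : ℝ) : ℝ := ∫ y : ℝ, 2 * (1 / 16 + y ^ 2) * gw y * Real.cos (X * y)

/-- the coefficient of the linear part -/
noncomputable def al (X : ℝ) : ℝ := wh X / 2 + 2 * wh1 X

/-- (G) elementary facts on `|Γ|` -/
def StmtG : Prop :=
  (∀ a y : ℝ, 0 < a → 0 < G a y ∧ G a (-y) = G a y ∧ G (a + 1) y ^ 2 = (a ^ 2 + y ^ 2) * G a y ^ 2) ∧
  (∀ a : ℝ, 0 < a → Continuous (G a)) ∧
  (∀ a : ℝ, 0 < a → ∃ C, 0 < C ∧ ∀ y, G a y ≤ C * Real.exp (-(3 / 2 * |y|))) ∧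
  (∀ a b y : ℝ, 0 < a → a ≤ b → G a y / Real.Gamma a ≤ G b y / Real.Gamma b) ∧
  (∀ y : ℝ, G (1 / 2) y ^ 2 = Real.pi / Real.cosh (Real.pi * y)) ∧
  (∀ y : ℝ, G 1 y ^ 2 * Real.sinh (Real.pi * y) = Real.pi * y) ∧
  (∀ y : ℝ, G (1 / 4) y ^ 2 * G (3 / 4) y ^ 2 * Real.cosh (2 * Real.pi * y) = 2 * Real.pi ^ 2)

/-- approximate values of `|Γ(3/4 + i j/5)| ^ 2` -/
noncomputable def gt : ℕ → ℝ
  | 0 => 1501646 / 1000000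
  | 1 => 1359895 / 1000000
  | 2 => 1036280 / 1000000
  | 3 => 701098 / 1000000
  | 4 => 441412 / 1000000
  | 5 => 266414 / 1000000
  | 6 => 156699 / 1000000
  | 7 => 90629 / 1000000
  | _ => 0

/-- (Gn) numerical values -/
def StmtGn : Prop := ∀ j : ℕ, j < 8 → |G (3 / 4) (j / 5) ^ 2 - gt j| ≤ 3 / 100000

/-- (Beta) the Beta integral -/
def StmtBeta : Prop := ∀ a b y : ℝ, 0 < a → 0 < b →
  Integrable (fun x : ℝ => Real.exp (a * x) / (1 + Real.exp x) ^ (a + b)) ∧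
  ∫ x : ℝ, ((Real.exp (a * x) / (1 + Real.exp x) ^ (a + b) : ℝ) : ℂ) *
    Complex.exp (Complex.I * (y * x : ℝ))
  = Complex.Gamma (a + Complex.I * y) * Complex.Gamma (b - Complex.I * y) / Real.Gamma (a + b)

/-- (PS) Poisson summation -/
def StmtPS : Prop := ∀ (g V : ℝ → ℂ) (C h : ℝ), Continuous g → (∀ y, ‖g y‖ ≤ C / (1 + y ^ 2)) →
  (∀ X : ℝ, V X = ∫ y : ℝ, g y * Complex.exp (Complex.I * (X * y : ℝ))) →
  (∀ X, ‖V X‖ ≤ C / (1 + X ^ 2)) → 0 < h → ∀ X : ℝ,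
  Summable (fun k : ℤ => V (X + 2 * Real.pi / h * k)) ∧
  Summable (fun j : ℤ => g (h * j) * Complex.exp (Complex.I * (X * (h * j) : ℝ))) ∧
  ∑' k : ℤ, V (X + 2 * Real.pi / h * k)
    = h * ∑' j : ℤ, g (h * j) * Complex.exp (Complex.I * (X * (h * j) : ℝ))

/-- (Wh) calculus of `wh` -/
def StmtWh : Prop :=
  (∀ n : ℕ, Integrable (fun y => |y| ^ n * gw y)) ∧
  (∀ X, HasDerivAt wh (wh1 X) X) ∧ (∀ X, HasDerivAt wh1 (wh X / 16 - rho X / 2) X) ∧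
  (∀ X, wh (-X) = wh X ∧ wh1 (-X) = -wh1 X ∧ rho (-X) = rho X) ∧
  Continuous wh ∧ Continuous wh1 ∧ Continuous rho ∧ (∀ X, 0 ≤ wh X) ∧
  (∃ C, ∀ X, |wh X| ≤ C ∧ |al X| ≤ C)

/-- (Shift) the contour shift -/
def StmtShift : Prop := Integrable (fun y => (1 + y ^ 2) ^ 2 * r2 y) ∧
  ∀ X, |rho X| ≤ Real.exp (-(|X| / 2)) * ∫ y : ℝ, (3 / 8 + 10 / 3 * y ^ 2) * r2 y

/-- (I1) the constant -/
def StmtI1 : Prop := ∫ y : ℝ, (3 / 8 + 10 / 3 * y ^ 2) * r2 y ≤ 93 / 5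

/-- (Rho) lower bound for `rho` -/
def StmtRho : Prop := (∀ X, |rho X| ≤ 93 / 5 * Real.exp (-(|X| / 2))) ∧
  (∀ X, 0 ≤ X → X ≤ 6 → 0 ≤ rho X) ∧ (∀ X, 6 ≤ X → X ≤ 57 / 5 → -(1 / 16) ≤ rho X)

/-- majorant of the negative part of `rho` -/
noncomputable def sg (s : ℝ) : ℝ :=
  if |s| < 6 then 0 else if |s| ≤ 57 / 5 then 1 / 16 else Real.exp (-((|s| - 57 / 5) / 2)) / 16

/-- the profile -/
noncomputable def mt (x : ℝ) : ℝ :=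
  if x ≤ 3 then Real.exp (-((3 - x) / 2)) else if x ≤ 57 / 10 then 1
  else 1 - (1 - Real.exp (-((x - 57 / 10) / 2))) ^ 2

/-- the effective coefficient -/
noncomputable def Me (X : ℝ) : ℝ := mt (|X| / 2) / 16

/-- (Ms) weighted averages of `sg` -/
def StmtMs : Prop := (∀ X, 0 ≤ Me X) ∧ (∀ X, Me X ≤ 1 / 16) ∧ Continuous Me ∧ Continuous mt ∧
  (∀ x t : ℝ, 0 ≤ x → 0 ≤ x + t → mt (x + t) ≤ Real.exp (|t| / 2) * mt x) ∧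
  ∀ X₀ δ : ℝ, ∫ s in (0)..δ, Real.sinh ((δ - s) / 4) * sg (X₀ + s)
    ≤ 4 * Me X₀ * (Real.cosh (δ / 4) - 1)

/-- (T) the pointwise inequality -/
def StmtT : Prop := (∀ X₀, 0 ≤ al X₀ + 4 * Me X₀) ∧ ∀ X₀ P Q : ℝ, 0 < P → 0 < Q →
  P * Q * wh (X₀ + 4 * Real.log (P / Q))
    ≤ al X₀ * P ^ 2 + al (-X₀) * Q ^ 2 + 4 * Me X₀ * (P - Q) ^ 2

/-! ### Group 2: the good kernel -/

/-- the function `vv` -/
noncomputable def vv (X : ℝ) : ℝ := 2 * Real.pi ^ 3 *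
  ∫ y : ℝ, ga y * (Real.cos (X * y) / 2 - 2 * y * Real.sin (X * y))

/-- the profile of the good kernel -/
noncomputable def Kt (τ : ℝ) : ℝ := Real.exp (τ / 2) * vv (2 * τ + 2 * Real.log 4)

/-- (VV) properties of `vv` -/
def StmtVV : Prop := Continuous vv ∧ (∀ X, 0 < vv X) ∧
  (∀ X Y, X ≤ Y → vv Y * Real.exp (-(Y / 4)) ≤ vv X * Real.exp (-(X / 4))) ∧
  (∀ X, vv X ≤ 2 * Real.pi ^ 4 * Real.exp (X / 4)) ∧
  (∀ X, vv X ≤ 600 * Real.exp (-(X / 2))) ∧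
  (∀ a b c d, a ≤ c → c ≤ b → c + d = a + b → vv a * vv b ≤ vv c * vv d) ∧
  (∀ a b τ, a ≤ τ → τ ≤ b → min (Kt a) (Kt b) ≤ Kt τ)

/-- (Vn) numerical lower bounds at the nodes `5 π k / 12` -/
def StmtVn : Prop :=
  (∀ k b, (k, b) ∈ ([(-8, 3448 / 10), (-7, 3241 / 10), (-6, 2965 / 10), (-5, 2618 / 10),
      (-4, 2207 / 10), (-3, 1757 / 10), (-2, 1306 / 10), (-1, 898 / 10), (0, 567 / 10),
      (4, 3846 / 1000), (5, 1629 / 1000)] : List (ℤ × ℝ)) →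
    b ≤ 2 * vv (5 * Real.pi * k / 12) * Real.exp (-(5 * Real.pi * k / 48)))

/-- (Kt) properties of `Kt` -/
def StmtKt : Prop := Continuous Kt ∧ (∀ τ, 0 < Kt τ) ∧
  (∀ τ, Kt τ ≤ 4 * Real.pi ^ 4 * Real.exp τ) ∧ (∀ τ, Kt τ ≤ 150 * Real.exp (-(τ / 2))) ∧
  (∀ t b, (t, b) ∈ ([(-66223 / 10000, 3446 / 10), (-59678 / 10000, 324), (-53133 / 10000, 2964 / 10),
      (-46588 / 10000, 2617 / 10), (-40043 / 10000, 2206 / 10), (-33498 / 10000, 1756 / 10),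
      (-20408 / 10000, 897 / 10)] : List (ℝ × ℝ)) → ∀ τ ≤ t, b * Real.exp τ ≤ Kt τ) ∧
  (∀ a b c, (a, b, c) ∈ ([(-14482 / 10000, 12316 / 10000, 1315 / 100),
      (-20407 / 10000, 12316 / 10000, 116 / 10), (-20407 / 10000, 18861 / 10000, 107 / 10),
      (-26952 / 10000, 18861 / 10000, 88 / 10), (-33497 / 10000, 18861 / 10000, 615 / 100),
      (-40042 / 10000, 18861 / 10000, 4), (-46587 / 10000, 18861 / 10000, 247 / 100),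
      (-53132 / 10000, 18861 / 10000, 145 / 100), (-59677 / 10000, 18861 / 10000, 82 / 100)] :
      List (ℝ × ℝ × ℝ)) → ∀ τ, a ≤ τ → τ ≤ b → c ≤ Kt τ)

/-- (Kid) the averaged linear coefficient is `vv` -/
def StmtKid : Prop :=
  Integrable (fun ζ : ℂ => ‖ζ‖ ^ (-(3 / 2) : ℝ) * ‖1 - ζ‖ ^ (-(3 / 2) : ℝ)) ∧
  ∀ X : ℝ, ∫ ζ : ℂ, ‖ζ‖ ^ (-(3 / 2) : ℝ) * ‖1 - ζ‖ ^ (-(3 / 2) : ℝ) *
    al (X - 2 * Real.log (‖ζ‖ * ‖1 - ζ‖)) = vv (X + 2 * Real.log 4)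

/-! ### Group 3: reduction to kernels on `ℂ*` -/

/-- the weight of the reference form -/
noncomputable def om (X : XX 1) : ℝ :=
  (‖X.1 0‖ * ‖X.1 1‖ * (‖X.2 0‖ * ‖xl X‖)) ^ (-(3 / 2) : ℝ)

/-- the reference logarithm -/
noncomputable def x0 (X : XX 1) : ℝ :=
  2 * Real.log (‖X.1 0‖ * ‖X.1 1‖ / (‖X.2 0‖ * ‖xl X‖))

/-- admissible functions -/
def WN (w : ℂ → ℝ) : Prop := Continuous w ∧ (∀ ξ, 0 ≤ w ξ) ∧
  (∃ r R : ℝ, 0 < r ∧ ∀ ξ, w ξ ≠ 0 → r ≤ ‖ξ‖ ∧ ‖ξ‖ ≤ R)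

/-- normalised data -/
noncomputable def wu (u : ℂ → ℝ) (ξ : ℂ) : ℝ := Real.sqrt (u ξ) / ‖ξ‖

/-- the difference form -/
noncomputable def Dw (w : ℂ → ℝ) (l : ℂ) : ℝ := ∫ ξ : ℂ, (w ξ - w (l * ξ)) ^ 2 / ‖ξ‖ ^ 2

/-- the good kernel -/
noncomputable def Kl (l : ℂ) : ℝ := Kt (Real.log (‖l‖ / ‖1 + l‖ ^ 2))

/-- the kernel `|λ|^(1/2) / |1 - λ|` -/
noncomputable def k1 (l : ℂ) : ℝ := ‖l‖ ^ (1 / 2 : ℝ) / ‖1 - l‖

/-- the bad coefficient -/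
noncomputable def Bm (L : ℝ) : ℝ := ∫ ν : ℂ, k1 ν * Me (2 * Real.log ‖ν‖ - 2 * L) / ‖ν‖ ^ 2

/-- (Alg) -/
def StmtAlg : Prop := ∀ a b c d : ℝ, 0 ≤ a → 0 ≤ b → 0 ≤ c → 0 ≤ d →
  (Real.sqrt (a * b) - Real.sqrt (c * d)) ^ 2
    ≤ ((a - c) ^ 2 + (a - d) ^ 2 + (b - c) ^ 2 + (b - d) ^ 2) / 2

/-- (Red) reduction to a form on quadruples -/
def StmtRed : Prop := ∀ u α : ℂ → ℝ, Nice u α → WN (wu u) ∧
  ∀ Φ : XX 1 → ℝ, (∀ X, Φ X = om X * (al (x0 X) * (wu u (X.1 0) * wu u (X.1 1)) +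
    al (-x0 X) * (wu u (X.2 0) * wu u (xl X)) + 4 * Me (x0 X) *
    (Real.sqrt (wu u (X.1 0) * wu u (X.1 1)) - Real.sqrt (wu u (X.2 0) * wu u (xl X))) ^ 2)) →
  Integrable Φ ∧ (∫⁻ y : ℝ, ENNReal.ofReal (gw y) *
    ∫⁻ x : ℂ, ‖iF (hz u α (1 / (2 * (2 : ℕ)) + Complex.I * y)) x‖ₑ ^ (2 * 2)
      ≤ ENNReal.ofReal (∫ X, Φ X))

/-- (Lin) the linear part -/
def StmtLin : Prop := ∀ φ : ℂ → ℝ, Continuous φ → HasCompactSupport φ → (∀ᶠ ζ in 𝓝 (0 : ℂ), φ ζ = 0) →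
  Integrable (fun X : XX 1 => om X * φ (X.1 0)) ∧
  Integrable (fun X : XX 1 => om X * al (x0 X) * φ (X.1 0)) ∧
  ∫ X : XX 1, om X * al (x0 X) * φ (X.1 0) = 2 * Real.pi ^ 5 * ∫ ζ, φ ζ / ‖ζ‖ ^ 2

/-- (Sym) symmetries of the quadruples -/
def StmtSym : Prop :=
  (∃ s : XX 1 → XX 1, MeasurePreserving s ∧ ∀ X, (s X).1 0 = X.1 1 ∧ (s X).1 1 = X.1 0 ∧
    (s X).2 0 = X.2 0 ∧ xl (s X) = xl X) ∧
  (∃ s : XX 1 → XX 1, MeasurePreserving s ∧ ∀ X, (s X).1 0 = X.1 0 ∧ (s X).1 1 = X.1 1 ∧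
    (s X).2 0 = xl X ∧ xl (s X) = X.2 0) ∧
  (∃ s : XX 1 → XX 1, MeasurePreserving s ∧ ∀ X, (s X).1 0 = X.2 0 ∧ (s X).1 1 = xl X ∧
    (s X).2 0 = X.1 0 ∧ xl (s X) = X.1 1)

/-- (D2) the good form -/
def StmtD2 : Prop := ∀ w : ℂ → ℝ, WN w →
  Integrable (fun X : XX 1 => om X * al (x0 X) * (w (X.1 0) - w (X.1 1)) ^ 2) ∧
  Integrable (fun l : ℂ => Kl l * Dw w l / ‖l‖ ^ 2) ∧
  ∫ X : XX 1, om X * al (x0 X) * (w (X.1 0) - w (X.1 1)) ^ 2 = ∫ l : ℂ, Kl l * Dw w l / ‖l‖ ^ 2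

/-- (D3) the bad form -/
def StmtD3 : Prop := ∀ w : ℂ → ℝ, WN w →
  Integrable (fun X : XX 1 => om X * Me (x0 X) * (w (X.1 0) - w (X.2 0)) ^ 2) ∧
  Integrable (fun l : ℂ => k1 l * Bm (Real.log ‖l‖) * Dw w l / ‖l‖ ^ 2) ∧
  ∫ X : XX 1, om X * Me (x0 X) * (w (X.1 0) - w (X.2 0)) ^ 2
    = ∫ l : ℂ, k1 l * Bm (Real.log ‖l‖) * Dw w l / ‖l‖ ^ 2

/-- (Comb) the good form dominates the bad form -/
def StmtComb : Prop := ∀ w : ℂ → ℝ, WN w →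
  8 * ∫ l : ℂ, k1 l * Bm (Real.log ‖l‖) * Dw w l / ‖l‖ ^ 2 ≤ ∫ l : ℂ, Kl l * Dw w l / ‖l‖ ^ 2

/-- (Star) the endpoint averaged inequality -/
def StmtStar : Prop := ∀ u α : ℂ → ℝ, Nice u α →
  ∫⁻ y : ℝ, ENNReal.ofReal (gw y) *
    ∫⁻ x : ℂ, ‖iF (hz u α (1 / (2 * (2 : ℕ)) + Complex.I * y)) x‖ₑ ^ (2 * 2)
  ≤ ENNReal.ofReal (4 * Real.pi ^ 5 * ∫ ξ, u ξ / ‖ξ‖ ^ 4)

/-! ### Group 4: comparison of the kernels -/

/-- angular integral of `k1` -/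
noncomputable def kap (L : ℝ) : ℝ :=
  ∫ θ in (0)..(2 * Real.pi), k1 (Complex.exp (L + Complex.I * θ))

/-- angular integral of `Kl` -/
noncomputable def kg (L : ℝ) : ℝ :=
  ∫ θ in (0)..(2 * Real.pi), Kt (-Real.log (2 * Real.cosh L + 2 * Real.cos θ))

/-- (Pol) polar coordinates on `ℂ*` -/
def StmtPol : Prop :=
  (∀ F : ℂ → ℝ≥0∞, Measurable F → ∫⁻ l, F l / ‖l‖ₑ ^ 2
    = ∫⁻ L : ℝ, ∫⁻ θ in Set.Ioc 0 (2 * Real.pi), F (Complex.exp (L + Complex.I * θ))) ∧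
  (∀ F : ℂ → ℝ, Integrable (fun l => F l / ‖l‖ ^ 2) →
    Integrable (fun L : ℝ => ∫ θ in (0)..(2 * Real.pi), F (Complex.exp (L + Complex.I * θ))) ∧
    (∀ᵐ L : ℝ, IntervalIntegrable (fun θ : ℝ => F (Complex.exp (L + Complex.I * θ))) volume
      0 (2 * Real.pi)) ∧
    ∫ l, F l / ‖l‖ ^ 2
      = ∫ L : ℝ, ∫ θ in (0)..(2 * Real.pi), F (Complex.exp (L + Complex.I * θ)))

/-- difference forms on the line -/
def DB (Db : ℝ → ℝ) : Prop := Measurable Db ∧ (∀ L, 0 ≤ Db L) ∧ (∃ M, ∀ L, Db L ≤ M) ∧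
  (∀ L, Db (-L) = Db L) ∧ (∀ L l, Db L ≤ 2 * Db l + 2 * Db (l + L))

/-- (Dec) decomposition into the radial part and the rest -/
def StmtDec : Prop := ∀ w : ℂ → ℝ, WN w → ∃ (Db : ℝ → ℝ) (J : ℝ) (Cp : ℂ → ℝ), DB Db ∧ 0 ≤ J ∧
  Measurable Cp ∧ (∀ l, |Cp l| ≤ J) ∧
  (∀ l, l ≠ 0 → Dw w l = Db (Real.log ‖l‖) + 2 * (J - Cp l)) ∧
  (∀ L : ℝ, ∫ θ in (0)..(2 * Real.pi), Cp (Complex.exp (L + Complex.I * θ)) = 0)

/-- (Kap) the angular integral of `k1` -/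
def StmtKap : Prop := Measurable kap ∧ (∀ L, 0 ≤ kap L ∧ kap (-L) = kap L) ∧
  (∀ L, 0 < L → 2 * Real.pi * Real.exp (-(L / 2)) ≤ kap L ∧
    kap L ≤ 2 * Real.pi * Real.exp (-(L / 2)) * (1 - Real.exp (-(2 * L))) ^ (-(1 / 4) : ℝ)) ∧
  Integrable kap ∧ ∫ L, kap L = 2 * Real.pi ^ 3 / G (3 / 4) 0 ^ 4 ∧
  Integrable (fun t => (kap t - 2 * Real.pi * Real.exp (-(|t| / 2))) * Real.exp (|t| / 2)) ∧
  ∫ t, (kap t - 2 * Real.pi * Real.exp (-(|t| / 2))) * Real.exp (|t| / 2) ≤ 14 / 5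

/-- closed form of `∫ exp (-|x - L| / 2) mt |x| dx` -/
noncomputable def EE (L : ℝ) : ℝ :=
  if L ≤ 3 then
    Real.exp (L / 2) * (Real.exp (-(3 / 2)) * (6 - L) - 2 / 3 * Real.exp (-(57 / 20))) +
      Real.exp (-(L / 2)) * (4 * Real.exp (-(3 / 2)) - 2 / 3 * Real.exp (-(57 / 20)))
  else if L ≤ 57 / 10 then
    4 - 2 / 3 * Real.exp (-(57 / 20)) * Real.exp (L / 2) +
      Real.exp (-(L / 2)) * (4 * Real.exp (-(3 / 2)) - Real.exp (3 / 2)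
        - 2 / 3 * Real.exp (-(57 / 20)))
  else
    Real.exp (-(L / 2)) * (2 * Real.exp (57 / 20) * (L - 47 / 10) + 4 * Real.exp (-(3 / 2))
      - Real.exp (3 / 2) - 2 / 3 * Real.exp (-(57 / 20))) + 4 / 3 * Real.exp (57 / 10 - L)

/-- the majorant of `8 Bm` -/
noncomputable def B8 (L : ℝ) : ℝ := Real.pi * EE L + 7 / 5 * mt L

/-- (Bm) bound for the bad coefficient -/
def StmtBm : Prop := Measurable Bm ∧ (∀ L, 0 ≤ Bm L ∧ Bm (-L) = Bm L) ∧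
  (∀ L, 0 ≤ L → 8 * Bm L ≤ B8 L) ∧
  Integrable (fun l : ℂ => k1 l * Bm (Real.log ‖l‖) / ‖l‖ ^ 2) ∧ Integrable (fun L => Bm L * kap L)

/-- (B8) numerical facts on `B8` -/
def StmtB8 : Prop := (∀ a b, 0 ≤ a → a ≤ b → B8 a * Real.exp (a / 2) ≤ B8 b * Real.exp (b / 2)) ∧
  (∀ a b, 0 ≤ a → a ≤ b → b ≤ 3 → B8 a ≤ B8 b) ∧ (∀ L, 0 ≤ L → 0 ≤ B8 L ∧ B8 L ≤ 1163 / 100) ∧
  (∀ L, 69 / 10 ≤ L → B8 L * Real.exp (L / 2) ≤ 109 * L - 434) ∧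
  (∀ L b, (L, b) ∈ ([(1 / 10, 711 / 100), (3 / 10, 718 / 100), (1 / 2, 729 / 100),
      (3 / 4, 748 / 100), (1, 773 / 100), (7 / 4, 873 / 100), (5 / 2, 1001 / 100)] :
      List (ℝ × ℝ)) → B8 L ≤ b) ∧
  (∀ L b, (L, b) ∈ ([(345 / 100, 6322 / 100), (375 / 100, 746 / 10), (404 / 100, 8706 / 100),
      (468 / 100, 1206 / 10), (533 / 100, 1643 / 10), (598 / 100, 218), (663 / 100, 277),
      (69 / 10, 3025 / 10)] : List (ℝ × ℝ)) → B8 L * Real.exp (L / 2) ≤ b)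

/-- step minorant of `Kl` -/
noncomputable def kbar (L : ℝ) : ℝ :=
  if |L| < 39 / 100 then 0 else if |L| ≤ 17 / 10 then 107 / 10 else if |L| ≤ 254 / 100 then 88 / 10
  else if |L| ≤ 324 / 100 then 615 / 100 else if |L| ≤ 392 / 100 then 4
  else if |L| ≤ 46 / 10 then 247 / 100 else if |L| ≤ 525 / 100 then 145 / 100
  else if |L| ≤ 59 / 10 then 82 / 100 else 0

/-- radial minorant of `k1` -/
noncomputable def k1r (L : ℝ) : ℝ := Real.exp (-(|L| / 2)) / (1 + Real.exp (-|L|))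

/-- (Kg) the angular integral of the good kernel -/
def StmtKg : Prop := Measurable kg ∧ (∀ L, 0 ≤ kg L ∧ kg (-L) = kg L) ∧ Integrable kg ∧
  Integrable (fun l : ℂ => Kl l / ‖l‖ ^ 2) ∧
  (∀ L θ : ℝ, Kl (Complex.exp (L + Complex.I * θ))
    = Kt (-Real.log (2 * Real.cosh L + 2 * Real.cos θ))) ∧
  (∀ L θ : ℝ, 2 * Real.cosh L + 2 * Real.cos θ ≠ 0 → kbar L
    ≤ Kt (-Real.log (2 * Real.cosh L + 2 * Real.cos θ))) ∧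
  (∀ L, 0 ≤ L → L ≤ 1 → 682 / 10 ≤ kg L) ∧ (∀ L, 1 ≤ L → L ≤ 5 / 2 → 552 / 10 ≤ kg L) ∧
  (∀ a b, (a, b) ∈ ([(5 / 2, 897 / 10), (345 / 100, 1756 / 10), (404 / 100, 2206 / 10),
      (468 / 100, 2617 / 10), (533 / 100, 2964 / 10), (598 / 100, 324), (663 / 100, 3446 / 10)] :
      List (ℝ × ℝ)) → ∀ L, a ≤ L → b * Real.pi / Real.cosh L ≤ kg L)

/-- (K1) minorant of `k1` -/
def StmtK1 : Prop := (∀ L θ : ℝ, (L ≠ 0 ∨ Real.cos θ ≠ 1) →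
  k1r L ≤ k1 (Complex.exp (L + Complex.I * θ))) ∧ (∀ l : ℂ, 0 ≤ k1 l) ∧
  Integrable k1r ∧ ∫ L, k1r L = Real.pi

/-- (NR) non-radial part -/
def StmtNR : Prop := Integrable (fun L => 8 * Bm L * (2 * kap L - 2 * Real.pi * k1r L)) ∧
  ∫ L, 8 * Bm L * (2 * kap L - 2 * Real.pi * k1r L) ≤ 2 * Real.pi * ∫ L, kbar L

/-- (Cell) pointwise comparison between `1 / 10` and `69 / 10` -/
def StmtCell : Prop := ∀ L : ℝ, 1 / 10 ≤ L → L ≤ 69 / 10 →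
  8 * Bm L * kap L + (if 1 / 2 ≤ L ∧ L ≤ 5 / 2 then 39 / 2 else 0) +
    (if 69 / 20 ≤ L then 2 * Real.pi * (83 / 10) * (218 * L - 434) * Real.exp (-(2 * L)) else 0)
  ≤ kg L

/-- (Chain) radial part -/
def StmtChain : Prop := ∀ Db : ℝ → ℝ, DB Db →
  Integrable (fun L => 8 * Bm L * kap L * Db L) ∧ Integrable (fun L => kg L * Db L) ∧
  ∫ L, 8 * Bm L * kap L * Db L ≤ ∫ L, kg L * Db L

/-! ### Group 5: conclusion -/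

/-- (AVg) the averaged inequality for a general weight -/
def StmtAVg : Prop := ∀ (k : ℕ) (W : ℝ → ℝ), 2 ≤ k → Continuous W → (∀ y, 0 ≤ W y) →
  PD (fun y => (y ^ 2 + (1 / (2 * k)) ^ 2) * W y) → ∀ u α : ℂ → ℝ, Nice u α →
  ∫⁻ y : ℝ, ENNReal.ofReal (W y) *
    ∫⁻ x : ℂ, ‖iF (hz u α (1 / (2 * k) + Complex.I * y)) x‖ₑ ^ (2 * k)
  ≤ ENNReal.ofReal ((∫ y : ℝ, W y * ‖cz (1 / (2 * k) + Complex.I * y)‖ ^ (2 * k)) *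
      ∫ ξ, u ξ / ‖ξ‖ ^ 4)

/-- the remaining part of the weight -/
noncomputable def w2 (t y : ℝ) : ℝ := (1 - Real.cos (Real.pi * t)) /
  ((Real.cosh (4 * Real.pi * y) + 1) * (Real.cosh (4 * Real.pi * y) + Real.cos (Real.pi * t)) *
    ‖cz (1 / (2 * (2 : ℕ)) + Complex.I * y)‖ ^ 4)

/-- (PD2) it is positive definite -/
def StmtPD2 : Prop := ∀ t : ℝ, 0 < t → t < 1 → Continuous (w2 t) ∧
  PD (fun y => (y ^ 2 + (1 / (2 * (2 : ℕ))) ^ 2) * w2 t y)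

/-- (AVt) the averaged inequality on the line `4`, all `t` -/
def StmtAVt : Prop := ∀ t : ℝ, 0 < t → t < 1 → AV 2 (1 / 4) t 1

/-- (HLPall2) the sharp inequality, all `p ≥ 2` -/
def StmtHLPall2 : Prop := ∀ p : ℝ, 2 ≤ p → HLPr p 1

/-- (UnifA2) all `p ≥ 2` at once -/
def StmtUnifA2 : Prop := ∀ ε : ℝ, 0 < ε → ∃ n₀ : ℕ, ∀ n ≥ n₀, ∀ p : ℝ, 2 ≤ p →
  ∀ f : 𝓢(ℂ, ℂ), eLpNorm (Tn n f) (ENNReal.ofReal p) volume ≤
    ENNReal.ofReal ((1 + ε) * ratio n p) * eLpNorm f (ENNReal.ofReal p) volume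

/-- (PowB2) the bound `n ^ (1 - 2 / p) (p - 1)`, all `p` in `[2, P]` -/
def StmtPowB2 : Prop := ∀ P : ℝ, ∃ n₀ : ℕ, ∀ n ≥ n₀, ∀ p : ℝ, 2 ≤ p → p ≤ P →
  ∀ f : 𝓢(ℂ, ℂ), eLpNorm (Tn n f) (ENNReal.ofReal p) volume ≤
    ENNReal.ofReal ((n : ℝ) ^ (1 - 2 / p) * (p - 1)) * eLpNorm f (ENNReal.ofReal p) volume

end Pool.Agent.Lib.MP_dd244f_an.Rq
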