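import Pool.Agent.Lib.MP_dd244f_an.Rq.Stmts

/-!
(Vn), analytic part: Poisson summation with step `1 / 5` gives a lower bound for `vv`.
-/

set_option autoImplicit false

namespace Pool.Agent.Lib.MP_dd244f_an.Rq

open MeasureTheory Filter Topology Finset

namespace VnAux

/-- real summand -/
noncomputable def FF (X y : ℝ) : ℝ :=
  2 * Real.pi ^ 3 * (ga y * (Real.cos (X * y) / 2 - 2 * y * Real.sin (X * y)))

/-- complex density -/
noncomputable def gg (y : ℝ) : ℂ := ((2 * Real.pi ^ 3 * ga y : ℝ) : ℂ) * (1 / 2 + 2 * Complex.I * y)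

lemma G_nonneg (a y : ℝ) : 0 ≤ G a y := norm_nonneg _

lemma ga_nonneg (y : ℝ) : 0 ≤ ga y := by
  unfold ga
  exact div_nonneg (pow_nonneg (G_nonneg _ _) 4) (Real.cosh_pos _).le

lemma ga_even (hG : StmtG) (y : ℝ) : ga (-y) = ga y := by
  unfold ga
  rw [(hG.1 (3 / 4) y (by norm_num)).2.1, mul_neg, Real.cosh_neg]

lemma ga_cont (hG : StmtG) : Continuous ga := by
  unfold ga
  refine ((hG.2.1 (3 / 4) (by norm_num)).pow 4).div ?_ (fun y => (Real.cosh_pos _).ne')
  exact Real.continuous_cosh.comp (by fun_prop)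

lemma gg_cont (hG : StmtG) : Continuous gg := by
  unfold gg
  have := ga_cont hG
  fun_prop

lemma ga_bd (hG : StmtG) : ∃ C, 0 < C ∧ ∀ y, ga y ≤ C / (1 + |y|) ^ 6 := by
  obtain ⟨C, hC, h⟩ := hG.2.2.1 (3 / 4) (by norm_num)
  refine ⟨C ^ 4, by positivity, fun y => ?_⟩
  have h1 : G (3 / 4) y ^ 4 ≤ (C * Real.exp (-(3 / 2 * |y|))) ^ 4 :=
    pow_le_pow_left₀ (G_nonneg _ _) (h y) 4
  have h2 : ga y ≤ G (3 / 4) y ^ 4 := by
    unfold ga
    exact div_le_self (pow_nonneg (G_nonneg _ _) 4) (Real.one_le_cosh _)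
  have h3 : (C * Real.exp (-(3 / 2 * |y|))) ^ 4 = C ^ 4 / (Real.exp |y|) ^ 6 := by
    have e1 : (Real.exp (-(3 / 2 * |y|))) ^ 4 = Real.exp (-(6 * |y|)) := by
      rw [← Real.exp_nat_mul]
      congr 1
      push_cast
      ring
    have e2 : (Real.exp |y|) ^ 6 = Real.exp (6 * |y|) := by
      rw [← Real.exp_nat_mul]
      congr 1
    rw [mul_pow, e1, e2, Real.exp_neg, div_eq_mul_inv]
  have h4 : 1 + |y| ≤ Real.exp |y| := by
    have := Real.add_one_le_exp |y|
    linarith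
  have h5 : C ^ 4 / (Real.exp |y|) ^ 6 ≤ C ^ 4 / (1 + |y|) ^ 6 := by
    apply div_le_div_of_nonneg_left (by positivity) (by positivity)
    exact pow_le_pow_left₀ (by positivity) h4 6
  linarith

lemma gg_norm (y : ℝ) : ‖gg y‖ ≤ 2 * Real.pi ^ 3 * ga y * (2 * (1 + |y|)) := by
  unfold gg
  rw [norm_mul, Complex.norm_real, Real.norm_eq_abs, abs_of_nonneg
    (mul_nonneg (by positivity) (ga_nonneg y))]
  apply mul_le_mul_of_nonneg_left _ (mul_nonneg (by positivity) (ga_nonneg y))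
  calc ‖(1 / 2 + 2 * Complex.I * y : ℂ)‖ ≤ ‖(1 / 2 : ℂ)‖ + ‖(2 * Complex.I * y : ℂ)‖ := norm_add_le _ _
    _ = 1 / 2 + 2 * |y| := by
      rw [norm_mul, norm_mul, Complex.norm_I, Complex.norm_real, Real.norm_eq_abs]
      norm_num
    _ ≤ 2 * (1 + |y|) := by linarith [abs_nonneg y]

lemma gg_bd (hG : StmtG) : ∃ C, 0 < C ∧ ∀ y, ‖gg y‖ ≤ C / (1 + y ^ 2) := by
  obtain ⟨C, hC, h⟩ := ga_bd hG
  refine ⟨4 * Real.pi ^ 3 * C, by positivity, fun y => ?_⟩
  have h1 := gg_norm y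
  have hy : 0 ≤ |y| := abs_nonneg y
  have h2 : 2 * Real.pi ^ 3 * ga y * (2 * (1 + |y|)) ≤
      2 * Real.pi ^ 3 * (C / (1 + |y|) ^ 6) * (2 * (1 + |y|)) := by
    apply mul_le_mul_of_nonneg_right _ (by positivity)
    exact mul_le_mul_of_nonneg_left (h y) (by positivity)
  have h3 : 2 * Real.pi ^ 3 * (C / (1 + |y|) ^ 6) * (2 * (1 + |y|))
      = 4 * Real.pi ^ 3 * C / (1 + |y|) ^ 5 := by
    field_simp
    ring
  have h4 : 4 * Real.pi ^ 3 * C / (1 + |y|) ^ 5 ≤ 4 * Real.pi ^ 3 * C / (1 + y ^ 2) := by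
    apply div_le_div_of_nonneg_left (by positivity) (by positivity)
    have e1 : 1 + y ^ 2 ≤ (1 + |y|) ^ 2 := by
      have : y ^ 2 = |y| ^ 2 := (sq_abs y).symm
      rw [this]; nlinarith
    have e2 : (1 + |y|) ^ 2 ≤ (1 + |y|) ^ 5 :=
      pow_le_pow_right₀ (by linarith) (by norm_num)
    linarith
  linarith

lemma gg_int (hG : StmtG) : Integrable gg := by
  obtain ⟨C, hC, h⟩ := gg_bd hG
  have h1 : Integrable (fun y : ℝ => C * (1 + y ^ 2)⁻¹) := integrable_inv_one_add_sq.const_mul C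
  refine h1.mono' (gg_cont hG).aestronglyMeasurable ?_
  filter_upwards with y
  have := h y
  rwa [div_eq_mul_inv] at this

lemma gg_mul (X y : ℝ) : gg y * Complex.exp (Complex.I * (X * y : ℝ))
    = ((FF X y : ℝ) : ℂ) + ((2 * Real.pi ^ 3 * (ga y * (Real.sin (X * y) / 2
      + 2 * y * Real.cos (X * y))) : ℝ) : ℂ) * Complex.I := by
  unfold gg FF
  have h : Complex.exp (Complex.I * (X * y : ℝ))
      = ((Real.cos (X * y) : ℝ) : ℂ) + ((Real.sin (X * y) : ℝ) : ℂ) * Complex.I := by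
    rw [mul_comm, Complex.exp_mul_I, Complex.ofReal_cos, Complex.ofReal_sin]
  rw [h]
  push_cast
  ring_nf
  rw [Complex.I_sq]
  ring

lemma gg_mul_re (X y : ℝ) : (gg y * Complex.exp (Complex.I * (X * y : ℝ))).re = FF X y := by
  rw [gg_mul, Complex.add_re, Complex.ofReal_re, Complex.mul_re, Complex.ofReal_re,
    Complex.ofReal_im, Complex.I_re, Complex.I_im]
  ring

lemma gg_mul_int (hG : StmtG) (X : ℝ) :
    Integrable (fun y : ℝ => gg y * Complex.exp (Complex.I * (X * y : ℝ))) := by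
  have h := gg_int hG
  refine h.norm.mono' ?_ ?_
  · apply Continuous.aestronglyMeasurable
    have := gg_cont hG
    fun_prop
  · filter_upwards with y
    rw [norm_mul, mul_comm Complex.I, Complex.norm_exp_ofReal_mul_I, mul_one]

lemma vv_int (hG : StmtG) (X : ℝ) :
    ((vv X : ℝ) : ℂ) = ∫ y : ℝ, gg y * Complex.exp (Complex.I * (X * y : ℝ)) := by
  have h := gg_mul_int hG X
  apply Complex.ext
  · rw [Complex.ofReal_re]
    have h1 : (∫ y : ℝ, gg y * Complex.exp (Complex.I * (X * y : ℝ))).re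
        = ∫ y : ℝ, (gg y * Complex.exp (Complex.I * (X * y : ℝ))).re := by
      have := integral_re h
      simpa using this.symm
    rw [h1]
    simp_rw [gg_mul_re]
    unfold vv FF
    rw [integral_const_mul]
  · rw [Complex.ofReal_im]
    have h1 : (∫ y : ℝ, gg y * Complex.exp (Complex.I * (X * y : ℝ))).im
        = ∫ y : ℝ, (gg y * Complex.exp (Complex.I * (X * y : ℝ))).im := by
      have := integral_im h
      simpa using this.symm
    rw [h1]
    set f : ℝ → ℝ := fun y => (gg y * Complex.exp (Complex.I * (X * y : ℝ))).im with hf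
    have hodd : ∀ y, f (-y) = - f y := by
      intro y
      simp only [hf, gg_mul]
      simp only [Complex.add_im, Complex.mul_im, Complex.ofReal_im, Complex.ofReal_re,
        Complex.I_im, Complex.I_re, ga_even hG, mul_neg, Real.sin_neg, Real.cos_neg]
      ring
    have h2 : ∫ y, f y = ∫ y, f (-y) := (integral_neg_eq_self f volume).symm
    simp_rw [hodd] at h2
    rw [integral_neg] at h2
    linarith

lemma FF_even (hG : StmtG) (X y : ℝ) : FF X (-y) = FF X y := by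
  unfold FF
  rw [ga_even hG]
  simp only [mul_neg, Real.cos_neg, Real.sin_neg]
  ring

lemma vv_dec (hV : StmtVV) : ∃ C, 0 < C ∧ ∀ X, ‖((vv X : ℝ) : ℂ)‖ ≤ C / (1 + X ^ 2) := by
  refine ⟨32 * (600 + 2 * Real.pi ^ 4), by positivity, fun X => ?_⟩
  rw [Complex.norm_real, Real.norm_eq_abs, abs_of_pos (hV.2.1 X)]
  have hx : 0 ≤ |X| := abs_nonneg X
  have h1 : vv X ≤ (600 + 2 * Real.pi ^ 4) * Real.exp (-(|X| / 4)) := by
    have e : 0 ≤ Real.exp (-(|X| / 4)) := (Real.exp_pos _).le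
    have hp : 0 ≤ 2 * Real.pi ^ 4 := by positivity
    rcases le_total 0 X with h | h
    · have a1 := hV.2.2.2.2.1 X
      have a2 : Real.exp (-(X / 2)) ≤ Real.exp (-(|X| / 4)) := by
        rw [abs_of_nonneg h]
        apply Real.exp_le_exp.mpr
        linarith
      nlinarith
    · have a1 := hV.2.2.2.1 X
      have a2 : Real.exp (X / 4) = Real.exp (-(|X| / 4)) := by
        rw [abs_of_nonpos h]
        congr 1
        ring
      rw [a2] at a1
      nlinarith
  have h2 : Real.exp (-(|X| / 4)) ≤ 32 / (1 + X ^ 2) := by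
    rw [Real.exp_neg, ← one_div, div_le_div_iff₀ (Real.exp_pos _) (by positivity)]
    have := Real.quadratic_le_exp_of_nonneg (x := |X| / 4) (by positivity)
    have h3 : X ^ 2 = |X| ^ 2 := (sq_abs X).symm
    rw [h3]
    nlinarith
  calc vv X ≤ (600 + 2 * Real.pi ^ 4) * Real.exp (-(|X| / 4)) := h1
    _ ≤ (600 + 2 * Real.pi ^ 4) * (32 / (1 + X ^ 2)) :=
        mul_le_mul_of_nonneg_left h2 (by positivity)
    _ = 32 * (600 + 2 * Real.pi ^ 4) / (1 + X ^ 2) := by ring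

/-- Poisson summation for `vv` -/
lemma poisson (hG : StmtG) (hP : StmtPS) (hV : StmtVV) (X : ℝ) :
    Summable (fun k : ℤ => vv (X + 10 * Real.pi * k)) ∧
    Summable (fun j : ℤ => FF X (j / 5)) ∧
    ∑' k : ℤ, vv (X + 10 * Real.pi * k) = 1 / 5 * ∑' j : ℤ, FF X (j / 5) := by
  obtain ⟨C1, hC1, h1⟩ := gg_bd hG
  obtain ⟨C2, hC2, h2⟩ := vv_dec hV
  have key := hP gg (fun X => ((vv X : ℝ) : ℂ)) (C1 + C2) (1 / 5) (gg_cont hG)
    (fun y => (h1 y).trans (div_le_div_of_nonneg_right (by linarith) (by positivity)))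
    (fun X => vv_int hG X)
    (fun X => (h2 X).trans (div_le_div_of_nonneg_right (by linarith) (by positivity)))
    (by norm_num) X
  obtain ⟨s1, s2, s3⟩ := key
  have e1 : ∀ k : ℤ, X + 2 * Real.pi / (1 / 5) * k = X + 10 * Real.pi * k := by
    intro k; ring
  have e2 : ∀ j : ℤ, (1 / 5 * (j : ℝ)) = (j : ℝ) / 5 := by
    intro j; ring
  simp only [e1] at s1 s3
  simp only [e2] at s2 s3
  have s2' : Summable (fun j : ℤ => FF X (j / 5)) := by
    have := (Complex.hasSum_re s2.hasSum).summable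
    simp_rw [gg_mul_re] at this
    exact this
  have s1' : Summable (fun k : ℤ => vv (X + 10 * Real.pi * k)) := by
    have := (Complex.hasSum_re s1.hasSum).summable
    simpa using this
  refine ⟨s1', s2', ?_⟩
  have r1 : (∑' k : ℤ, ((vv (X + 10 * Real.pi * k) : ℝ) : ℂ)).re
      = ∑' k : ℤ, vv (X + 10 * Real.pi * k) := by
    rw [← Complex.ofReal_tsum, Complex.ofReal_re]
  have r2 : (∑' j : ℤ, gg (j / 5) * Complex.exp (Complex.I * (X * (j / 5) : ℝ))).re
      = ∑' j : ℤ, FF X (j / 5) := by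
    rw [Complex.re_tsum s2]
    simp_rw [gg_mul_re]
  have r3 := congrArg Complex.re s3
  rw [r1] at r3
  have r4 : (((1 / 5 : ℝ) : ℂ) * ∑' j : ℤ, gg (j / 5) *
      Complex.exp (Complex.I * (X * (j / 5) : ℝ))).re
      = 1 / 5 * ∑' j : ℤ, FF X (j / 5) := by
    rw [Complex.re_ofReal_mul, r2]
  rw [r4] at r3
  exact r3

lemma G_zero : G (3 / 4) 0 = Real.Gamma (3 / 4) := by
  unfold G
  have h : ((3 / 4 : ℝ) : ℂ) + Complex.I * ((0 : ℝ) : ℂ) = ((3 / 4 : ℝ) : ℂ) := by simp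
  rw [h, Complex.Gamma_ofReal, Complex.norm_real, Real.norm_eq_abs,
    abs_of_pos (Real.Gamma_pos_of_pos (by norm_num))]

lemma gamma_sq (hN : StmtGn) : Real.Gamma (3 / 4) ^ 2 ≤ 1501676 / 1000000 := by
  have h := hN 0 (by norm_num)
  rw [Nat.cast_zero, zero_div, G_zero] at h
  have h1 := (abs_le.mp h).2
  have h2 : gt 0 = 1501646 / 1000000 := rfl
  rw [h2] at h1
  linarith

lemma sinh_low {x : ℝ} (hx : 5 ≤ x) : 49 / 100 * Real.exp x ≤ Real.sinh x := by
  rw [Real.sinh_eq]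
  have h1 : Real.exp (-x) = (Real.exp x)⁻¹ := Real.exp_neg x
  have h2 : (61 : ℝ) ≤ Real.exp x * Real.exp x := by
    rw [← Real.exp_add]
    have := Real.quadratic_le_exp_of_nonneg (x := x + x) (by linarith)
    nlinarith
  have h3 : 0 < Real.exp x := Real.exp_pos x
  have h4 : Real.exp (-x) ≤ 1 / 50 * Real.exp x := by
    rw [h1, inv_le_iff_one_le_mul₀ h3]
    nlinarith
  linarith

lemma exp_q : Real.exp (-(4 * Real.pi / 5)) ≤ 1 / 12 := by
  have h1 : (12 : ℝ) ≤ Real.exp (4 * Real.pi / 5) := by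
    have a1 : Real.exp (5 / 2) ≤ Real.exp (4 * Real.pi / 5) := by
      apply Real.exp_le_exp.mpr
      have := Real.pi_gt_d6
      linarith
    have a2 : (144 : ℝ) ≤ Real.exp (5 / 2) ^ 2 := by
      have e : Real.exp (5 / 2) ^ 2 = Real.exp 1 ^ 5 := by
        rw [← Real.exp_nat_mul, ← Real.exp_nat_mul]
        congr 1
        norm_num
      rw [e]
      have b1 : (2.7182818283 : ℝ) ≤ Real.exp 1 := Real.exp_one_gt_d9.le
      have b2 : (2.7182818283 : ℝ) ^ 5 ≤ Real.exp 1 ^ 5 := pow_le_pow_left₀ (by norm_num) b1 5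
      have b3 : (144 : ℝ) ≤ (2.7182818283 : ℝ) ^ 5 := by norm_num
      linarith
    have a3 : (12 : ℝ) ≤ Real.exp (5 / 2) := by
      by_contra hc
      push Not at hc
      have : Real.exp (5 / 2) ^ 2 < 144 := by
        have := Real.exp_pos (5 / 2)
        nlinarith
      linarith
    linarith
  rw [Real.exp_neg, inv_eq_one_div]
  exact one_div_le_one_div_of_le (by norm_num) h1

lemma poly_growth (n : ℕ) : ((n : ℝ) + 8) ^ 2 * (5 + 4 * ((n : ℝ) + 8)) ≤ 2375 * (3 / 2) ^ n := by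
  induction n with
  | zero => norm_num
  | succ n ih =>
    rw [pow_succ (3 / 2 : ℝ) n]
    push_cast
    have hn : (0 : ℝ) ≤ n := Nat.cast_nonneg n
    have h : ((n : ℝ) + 1 + 8) ^ 2 * (5 + 4 * ((n : ℝ) + 1 + 8)) ≤
        3 / 2 * (((n : ℝ) + 8) ^ 2 * (5 + 4 * ((n : ℝ) + 8))) := by
      nlinarith [pow_nonneg hn 3, pow_nonneg hn 2]
    nlinarith

lemma tail_term (hG : StmtG) (hN : StmtGn) (n : ℕ) :
    ga (((n : ℝ) + 8) / 5) * (1 + 4 * (((n : ℝ) + 8) / 5)) ≤ 2 / 100000 * (1 / 2) ^ n := by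
  set y : ℝ := ((n : ℝ) + 8) / 5 with hy
  have hn : (0 : ℝ) ≤ n := Nat.cast_nonneg n
  have hy0 : 8 / 5 ≤ y := by rw [hy]; linarith
  have hypos : 0 < y := by linarith
  have hpi := Real.pi_gt_d6
  have hpi2 := Real.pi_lt_d6
  have hpy : 5 ≤ Real.pi * y := by nlinarith
  set e : ℝ := Real.exp (Real.pi * y) with he
  have hepos : 0 < e := Real.exp_pos _
  have hs : 49 / 100 * e ≤ Real.sinh (Real.pi * y) := sinh_low hpy
  have hspos : 0 < Real.sinh (Real.pi * y) := by nlinarith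
  have hc : e ^ 2 / 2 ≤ Real.cosh (2 * Real.pi * y) := by
    rw [Real.cosh_eq]
    have h1 : Real.exp (2 * Real.pi * y) = e ^ 2 := by
      rw [he, ← Real.exp_nat_mul]
      congr 1
      push_cast
      ring
    rw [h1]
    have := Real.exp_pos (-(2 * Real.pi * y))
    linarith
  have hgam : 0 < Real.Gamma (3 / 4) := Real.Gamma_pos_of_pos (by norm_num)
  have h1 : G (3 / 4) y ≤ Real.Gamma (3 / 4) * G 1 y := by
    have := hG.2.2.2.1 (3 / 4) 1 y (by norm_num) (by norm_num)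
    rw [Real.Gamma_one, div_one, div_le_iff₀ hgam] at this
    linarith
  have h2 : G 1 y ^ 2 ≤ 100 / 49 * (Real.pi * y / e) := by
    have := hG.2.2.2.2.2.1 y
    have h3 : G 1 y ^ 2 = Real.pi * y / Real.sinh (Real.pi * y) := by
      rw [eq_div_iff hspos.ne']
      exact this
    rw [h3]
    have h4 : Real.pi * y / Real.sinh (Real.pi * y) ≤ Real.pi * y / (49 / 100 * e) :=
      div_le_div_of_nonneg_left (by positivity) (by positivity) hs
    have h5 : Real.pi * y / (49 / 100 * e) = 100 / 49 * (Real.pi * y / e) := by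
      field_simp
    linarith
  have h3 : G (3 / 4) y ^ 2 ≤ 1501676 / 1000000 * (100 / 49 * (Real.pi * y / e)) := by
    have a1 : G (3 / 4) y ^ 2 ≤ (Real.Gamma (3 / 4) * G 1 y) ^ 2 :=
      pow_le_pow_left₀ (G_nonneg _ _) h1 2
    rw [mul_pow] at a1
    have a2 := gamma_sq hN
    have a3 : Real.Gamma (3 / 4) ^ 2 * G 1 y ^ 2
        ≤ 1501676 / 1000000 * (100 / 49 * (Real.pi * y / e)) :=
      mul_le_mul a2 h2 (by positivity) (by norm_num)
    linarith
  have h4 : G (3 / 4) y ^ 4 ≤ (1501676 / 1000000 * (100 / 49 * (Real.pi * y / e))) ^ 2 := by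
    have : G (3 / 4) y ^ 4 = (G (3 / 4) y ^ 2) ^ 2 := by ring
    rw [this]
    exact pow_le_pow_left₀ (by positivity) h3 2
  have h5 : ga y ≤ (1501676 / 1000000 * (100 / 49 * (Real.pi * y / e))) ^ 2 / (e ^ 2 / 2) := by
    unfold ga
    exact div_le_div₀ (by positivity) h4 (by positivity) hc
  have h6 : (1501676 / 1000000 * (100 / 49 * (Real.pi * y / e))) ^ 2 / (e ^ 2 / 2)
      = 2 * (1501676 / 1000000 * (100 / 49)) ^ 2 * Real.pi ^ 2 * y ^ 2 * (1 / e ^ 4) := by
    field_simp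
  have h7 : 1 / e ^ 4 ≤ (1 / 12) ^ (n + 8) := by
    have a1 : 1 / e ^ 4 = Real.exp (-(4 * Real.pi / 5)) ^ (n + 8) := by
      rw [he, ← Real.exp_nat_mul, ← Real.exp_nat_mul, one_div, ← Real.exp_neg]
      congr 1
      rw [hy]
      push_cast
      ring
    rw [a1]
    exact pow_le_pow_left₀ (Real.exp_pos _).le exp_q _
  have h8 : Real.pi ^ 2 ≤ 987 / 100 := by nlinarith
  have h9 : y ^ 2 * (1 + 4 * y) ≤ 19 * (3 / 2) ^ n := by
    have := poly_growth n
    have e1 : y ^ 2 * (1 + 4 * y) = (((n : ℝ) + 8) ^ 2 * (5 + 4 * ((n : ℝ) + 8))) / 125 := by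
      rw [hy]; ring
    rw [e1]
    linarith
  calc ga y * (1 + 4 * y)
      ≤ (2 * (1501676 / 1000000 * (100 / 49)) ^ 2 * Real.pi ^ 2 * y ^ 2 * (1 / e ^ 4)) *
        (1 + 4 * y) := by
        rw [← h6]
        exact mul_le_mul_of_nonneg_right h5 (by positivity)
    _ = 2 * (1501676 / 1000000 * (100 / 49)) ^ 2 * Real.pi ^ 2 * (y ^ 2 * (1 + 4 * y)) *
        (1 / e ^ 4) := by ring
    _ ≤ 2 * (1501676 / 1000000 * (100 / 49)) ^ 2 * (987 / 100) * (19 * (3 / 2) ^ n) *
        (1 / 12) ^ (n + 8) := by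
        gcongr
    _ = (2 * (1501676 / 1000000 * (100 / 49)) ^ 2 * (987 / 100) * 19 * (1 / 12) ^ 8) *
        (1 / 8) ^ n := by
        have : (1 / 8 : ℝ) ^ n = (3 / 2) ^ n * (1 / 12) ^ n := by
          rw [← mul_pow]; norm_num
        rw [this, pow_add]
        ring
    _ ≤ 2 / 100000 * (1 / 2) ^ n := by
        apply mul_le_mul
        · norm_num
        · exact pow_le_pow_left₀ (by norm_num) (by norm_num) n
        · positivity
        · norm_num

/-- finite part of the trapezoid sum -/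
noncomputable def SS (X : ℝ) : ℝ := ga 0 / 2 + ∑ j ∈ range 7, ga (((j : ℝ) + 1) / 5) *
  (Real.cos (X * (((j : ℝ) + 1) / 5)) - 4 * (((j : ℝ) + 1) / 5) *
    Real.sin (X * (((j : ℝ) + 1) / 5)))

lemma FF_low (X y : ℝ) (hy : 0 ≤ y) : -(Real.pi ^ 3 * (ga y * (1 + 4 * y))) ≤ FF X y := by
  unfold FF
  have h1 := Real.neg_one_le_cos (X * y)
  have h2 := Real.sin_le_one (X * y)
  have h3 : -((1 + 4 * y) / 2) ≤ Real.cos (X * y) / 2 - 2 * y * Real.sin (X * y) := by
    nlinarith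
  have h4 : ga y * (-((1 + 4 * y) / 2)) ≤ ga y * (Real.cos (X * y) / 2
      - 2 * y * Real.sin (X * y)) := mul_le_mul_of_nonneg_left h3 (ga_nonneg y)
  have h5 : 0 < 2 * Real.pi ^ 3 := by positivity
  have h6 := mul_le_mul_of_nonneg_left h4 h5.le
  linarith

lemma sum_low (hG : StmtG) (hN : StmtGn) (X : ℝ) (hs : Summable (fun j : ℤ => FF X (j / 5))) :
    2 * Real.pi ^ 3 * (SS X - 5 / 100000) ≤ ∑' j : ℤ, FF X (j / 5) := by
  have sN : Summable (fun n : ℕ => FF X ((n : ℝ) / 5)) := by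
    have := hs.comp_injective Nat.cast_injective
    simpa [Function.comp_def] using this
  have sM : Summable (fun n : ℕ => FF X (((-((n : ℤ) + 1) : ℤ) : ℝ) / 5)) :=
    hs.comp_injective (f := fun j : ℤ => FF X ((j : ℝ) / 5)) (i := fun n : ℕ => -((n : ℤ) + 1))
      (fun a b h => by simpa using h)
  have eM : ∀ n : ℕ, FF X (((-((n : ℤ) + 1) : ℤ) : ℝ) / 5) = FF X (((n : ℝ) + 1) / 5) := by
    intro n
    rw [← FF_even hG X (((n : ℝ) + 1) / 5)]
    congr 1
    push_cast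
    ring
  have h0 := tsum_of_nat_of_neg_add_one (f := fun j : ℤ => FF X ((j : ℝ) / 5))
    (by simpa using sN) sM
  simp only [eM, Int.cast_natCast] at h0 sM
  rw [h0, ← sN.sum_add_tsum_nat_add 8, ← sM.sum_add_tsum_nat_add 7]
  have t0 : ∀ n : ℕ, -(Real.pi ^ 3 * (2 / 100000 * (1 / 2) ^ n)) ≤ FF X (((n : ℝ) + 8) / 5) := by
    intro n
    have a1 := FF_low X (((n : ℝ) + 8) / 5) (by positivity)
    have a2 := tail_term hG hN n
    have a3 : Real.pi ^ 3 * (ga (((n : ℝ) + 8) / 5) * (1 + 4 * (((n : ℝ) + 8) / 5)))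
        ≤ Real.pi ^ 3 * (2 / 100000 * (1 / 2) ^ n) := mul_le_mul_of_nonneg_left a2 (by positivity)
    linarith
  have hgeo : HasSum (fun n : ℕ => -(Real.pi ^ 3 * (2 / 100000 * (1 / 2) ^ n)))
      (-(Real.pi ^ 3 * (2 / 100000 * 2))) := by
    have := (hasSum_geometric_two).mul_left (2 / 100000 : ℝ)
    exact (this.mul_left (Real.pi ^ 3)).neg
  have e8 : ∀ n : ℕ, FF X (((n + 8 : ℕ) : ℝ) / 5) = FF X (((n : ℝ) + 8) / 5) := by
    intro n; push_cast; rfl
  have e7 : ∀ n : ℕ, FF X ((((n + 7 : ℕ) : ℝ) + 1) / 5) = FF X (((n : ℝ) + 8) / 5) := by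
    intro n
    congr 1
    push_cast
    ring
  have s8 : Summable (fun n : ℕ => FF X (((n : ℝ) + 8) / 5)) := by
    have := (summable_nat_add_iff 8).mpr sN
    simpa only [e8] using this
  have t1 : -(Real.pi ^ 3 * (2 / 100000 * 2)) ≤ ∑' n : ℕ, FF X (((n : ℝ) + 8) / 5) := by
    rw [← hgeo.tsum_eq]
    exact hgeo.summable.tsum_le_tsum t0 s8
  simp only [e8, e7]
  have f0 : FF X 0 = 2 * Real.pi ^ 3 * (ga 0 / 2) := by
    unfold FF
    simp
    ring
  have fj : ∀ y : ℝ, FF X y + FF X y = 2 * Real.pi ^ 3 *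
      (ga y * (Real.cos (X * y) - 4 * y * Real.sin (X * y))) := by
    intro y
    unfold FF
    ring
  have hsum : ∑ i ∈ range 8, FF X ((i : ℝ) / 5) + ∑ i ∈ range 7, FF X (((i : ℝ) + 1) / 5)
      = 2 * Real.pi ^ 3 * SS X := by
    rw [Finset.sum_range_succ' _ 7]
    have : ∀ i : ℕ, FF X (((i + 1 : ℕ) : ℝ) / 5) = FF X (((i : ℝ) + 1) / 5) := by
      intro i; push_cast; rfl
    simp only [this, Nat.cast_zero, zero_div]
    rw [f0, add_right_comm, ← Finset.sum_add_distrib]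
    simp only [fj]
    rw [← Finset.mul_sum]
    unfold SS
    ring
  have hp : 0 < Real.pi ^ 3 := by positivity
  linarith

lemma alias_right (hV : StmtVV) (X : ℝ) (hs : Summable (fun n : ℕ => vv (X + 10 * Real.pi *
    ((n : ℝ) + 1)))) : ∑' n : ℕ, vv (X + 10 * Real.pi * ((n : ℝ) + 1)) ≤
    600 * Real.exp (-(X / 2)) / (Real.exp (5 * Real.pi) - 1) := by
  have hr : Real.exp (-(5 * Real.pi)) < 1 := by
    rw [Real.exp_lt_one_iff]
    have := Real.pi_pos
    linarith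
  have hg := (hasSum_geometric_of_lt_one (Real.exp_pos (-(5 * Real.pi))).le hr).mul_left
    (600 * Real.exp (-(X / 2)) * Real.exp (-(5 * Real.pi)))
  have h1 : ∀ n : ℕ, vv (X + 10 * Real.pi * ((n : ℝ) + 1)) ≤
      600 * Real.exp (-(X / 2)) * Real.exp (-(5 * Real.pi)) * Real.exp (-(5 * Real.pi)) ^ n := by
    intro n
    have a := hV.2.2.2.2.1 (X + 10 * Real.pi * ((n : ℝ) + 1))
    have b : 600 * Real.exp (-((X + 10 * Real.pi * ((n : ℝ) + 1)) / 2)) =
      600 * Real.exp (-(X / 2)) * Real.exp (-(5 * Real.pi)) * Real.exp (-(5 * Real.pi)) ^ n := by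
      have e : Real.exp (-((X + 10 * Real.pi * ((n : ℝ) + 1)) / 2)) =
          Real.exp (-(X / 2)) * Real.exp (-(5 * Real.pi)) * Real.exp (-(5 * Real.pi)) ^ n := by
        rw [← Real.exp_nat_mul, ← Real.exp_add, ← Real.exp_add]
        congr 1
        ring
      rw [e]
      ring
    linarith
  have h2 := hs.tsum_le_tsum h1 hg.summable
  rw [hg.tsum_eq] at h2
  refine h2.trans_eq ?_
  have h3 : Real.exp (5 * Real.pi) * Real.exp (-(5 * Real.pi)) = 1 := by
    rw [← Real.exp_add]; simp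
  have h4 : Real.exp (5 * Real.pi) - 1 ≠ 0 := by
    have : 1 < Real.exp (5 * Real.pi) := by
      rw [Real.one_lt_exp_iff]; positivity
    linarith
  have h5 : 1 - Real.exp (-(5 * Real.pi)) ≠ 0 := by linarith
  rw [← div_eq_mul_inv, div_eq_div_iff h5 h4]
  linear_combination (600 * Real.exp (-(X / 2))) * h3

lemma alias_left (hV : StmtVV) (X : ℝ) (hs : Summable (fun n : ℕ => vv (X - 10 * Real.pi *
    ((n : ℝ) + 1)))) : ∑' n : ℕ, vv (X - 10 * Real.pi * ((n : ℝ) + 1)) ≤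
    2 * Real.pi ^ 4 * Real.exp (X / 4) / (Real.exp (5 * Real.pi / 2) - 1) := by
  have hr : Real.exp (-(5 * Real.pi / 2)) < 1 := by
    rw [Real.exp_lt_one_iff]
    have := Real.pi_pos
    linarith
  have hg := (hasSum_geometric_of_lt_one (Real.exp_pos (-(5 * Real.pi / 2))).le hr).mul_left
    (2 * Real.pi ^ 4 * Real.exp (X / 4) * Real.exp (-(5 * Real.pi / 2)))
  have h1 : ∀ n : ℕ, vv (X - 10 * Real.pi * ((n : ℝ) + 1)) ≤
      2 * Real.pi ^ 4 * Real.exp (X / 4) * Real.exp (-(5 * Real.pi / 2)) *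
        Real.exp (-(5 * Real.pi / 2)) ^ n := by
    intro n
    have a := hV.2.2.2.1 (X - 10 * Real.pi * ((n : ℝ) + 1))
    have b : 2 * Real.pi ^ 4 * Real.exp ((X - 10 * Real.pi * ((n : ℝ) + 1)) / 4) =
      2 * Real.pi ^ 4 * Real.exp (X / 4) * Real.exp (-(5 * Real.pi / 2)) *
        Real.exp (-(5 * Real.pi / 2)) ^ n := by
      have e : Real.exp ((X - 10 * Real.pi * ((n : ℝ) + 1)) / 4) =
          Real.exp (X / 4) * Real.exp (-(5 * Real.pi / 2)) *
            Real.exp (-(5 * Real.pi / 2)) ^ n := by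
        rw [← Real.exp_nat_mul, ← Real.exp_add, ← Real.exp_add]
        congr 1
        ring
      rw [e]
      ring
    linarith
  have h2 := hs.tsum_le_tsum h1 hg.summable
  rw [hg.tsum_eq] at h2
  refine h2.trans_eq ?_
  have h3 : Real.exp (5 * Real.pi / 2) * Real.exp (-(5 * Real.pi / 2)) = 1 := by
    rw [← Real.exp_add]; simp
  have h4 : Real.exp (5 * Real.pi / 2) - 1 ≠ 0 := by
    have : 1 < Real.exp (5 * Real.pi / 2) := by
      rw [Real.one_lt_exp_iff]; positivity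
    linarith
  have h5 : 1 - Real.exp (-(5 * Real.pi / 2)) ≠ 0 := by linarith
  rw [← div_eq_mul_inv, div_eq_div_iff h5 h4]
  linear_combination (2 * Real.pi ^ 4 * Real.exp (X / 4)) * h3

/-- the lower bound for `vv` -/
theorem vv_lower (hG : StmtG) (hN : StmtGn) (hP : StmtPS) (hV : StmtVV) (X : ℝ) :
    2 * Real.pi ^ 3 / 5 * (SS X - 5 / 100000) ≤ vv X +
      600 * Real.exp (-(X / 2)) / (Real.exp (5 * Real.pi) - 1) +
      2 * Real.pi ^ 4 * Real.exp (X / 4) / (Real.exp (5 * Real.pi / 2) - 1) := by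
  obtain ⟨s1, s2, s3⟩ := poisson hG hP hV X
  have h1 := sum_low hG hN X s2
  have sN : Summable (fun n : ℕ => vv (X + 10 * Real.pi * (n : ℝ))) := by
    have := s1.comp_injective Nat.cast_injective
    simpa [Function.comp_def] using this
  have sM : Summable (fun n : ℕ => vv (X + 10 * Real.pi * ((-((n : ℤ) + 1) : ℤ) : ℝ))) :=
    s1.comp_injective (f := fun j : ℤ => vv (X + 10 * Real.pi * (j : ℝ)))
      (i := fun n : ℕ => -((n : ℤ) + 1)) (fun a b h => by simpa using h)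
  have eM : ∀ n : ℕ, vv (X + 10 * Real.pi * ((-((n : ℤ) + 1) : ℤ) : ℝ))
      = vv (X - 10 * Real.pi * ((n : ℝ) + 1)) := by
    intro n
    congr 1
    push_cast
    ring
  have h0 := tsum_of_nat_of_neg_add_one (f := fun j : ℤ => vv (X + 10 * Real.pi * (j : ℝ)))
    (by simpa using sN) sM
  simp only [eM, Int.cast_natCast] at h0 sM
  have h2 := alias_left hV X sM
  have sN1 : Summable (fun n : ℕ => vv (X + 10 * Real.pi * ((n : ℝ) + 1))) := by
    have := (summable_nat_add_iff 1).mpr sN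
    simpa using this
  have h3 := alias_right hV X sN1
  have h4 := sN.tsum_eq_zero_add
  simp only [Nat.cast_zero, mul_zero, add_zero, Nat.cast_add, Nat.cast_one] at h4
  rw [h0, h4] at s3
  linarith

end VnAux

end Pool.Agent.Lib.MP_dd244f_an.Rq
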